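import Pool.Agent.NQL.Defs

/-!
# NQL-ECoD: coarse weights: rows, columns, entropy
-/

set_option autoImplicit false

open Finset

namespace Pool.Agent.NQL

open Pool.Agent.NQ (board dsum F Ent Dg phi ln Q Qset QS NonAtt bern)
open Pool.Agent.NQR (Adm Opt Bd Rf hS hD hh InR)

/-- coarse weights on the board of size `n` of weights on the board of size `n k` -/
noncomputable def cz (n k : ℕ) (W : ℤ × ℤ → ℝ) (e : ℤ × ℤ) : ℝ :=
  if e ∈ board n then (∑ a ∈ Finset.Ico (0 : ℤ) k, ∑ b ∈ Finset.Ico (0 : ℤ) k, W (k * e.1 + a, k * e.2 + b)) / k else 0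

private theorem oa_one (n k : ℕ) (hk : 1 ≤ k) (g : ℤ → ℝ) :
    ∑ z ∈ Finset.Ico (0 : ℤ) ((n * k : ℕ) : ℤ), g z =
      ∑ x ∈ Finset.Ico (0 : ℤ) n, ∑ a ∈ Finset.Ico (0 : ℤ) k, g (k * x + a) := by
  have hk0 : (0 : ℤ) < k := by exact_mod_cast hk
  rw [← Finset.sum_product' (Finset.Ico (0 : ℤ) n) (Finset.Ico (0 : ℤ) k) (fun x a => g (k * x + a))]
  refine Finset.sum_nbij' (fun z => (z / k, z % k)) (fun p => k * p.1 + p.2) ?_ ?_ ?_ ?_ ?_
  · intro z hz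
    rw [mem_Ico] at hz
    rw [mem_product, mem_Ico, mem_Ico]
    push_cast at hz
    exact ⟨⟨Int.ediv_nonneg hz.1 hk0.le, Int.ediv_lt_of_lt_mul hk0 hz.2⟩,
      Int.emod_nonneg _ hk0.ne', Int.emod_lt_of_pos _ hk0⟩
  · rintro ⟨x, a⟩ h
    rw [mem_product, mem_Ico, mem_Ico] at h
    obtain ⟨⟨h1, h2⟩, h3, h4⟩ := h
    have h1' : (0 : ℤ) ≤ x := h1
    have h2' : x < n := h2
    have h3' : (0 : ℤ) ≤ a := h3
    have h4' : a < k := h4
    rw [mem_Ico]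
    push_cast
    constructor
    · show (0 : ℤ) ≤ k * x + a
      have := mul_nonneg hk0.le h1'
      linarith
    · show k * x + a < (n : ℤ) * k
      have h5 : (k : ℤ) * (x + 1) ≤ k * n := mul_le_mul_of_nonneg_left (by linarith) hk0.le
      linarith
  · intro z _
    exact Int.mul_ediv_add_emod z k
  · rintro ⟨x, a⟩ h
    rw [mem_product, mem_Ico, mem_Ico] at h
    obtain ⟨⟨h1, h2⟩, h3, h4⟩ := h
    have h3' : (0 : ℤ) ≤ a := h3
    have h4' : a < k := h4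
    show ((k * x + a) / (k : ℤ), (k * x + a) % (k : ℤ)) = (x, a)
    have e1 : (k * x + a) / (k : ℤ) = x := by
      rw [Int.mul_add_ediv_left _ _ hk0.ne', Int.ediv_eq_zero_of_lt h3' h4', add_zero]
    have e2 : (k * x + a) % (k : ℤ) = a := by
      rw [Int.mul_add_emod_self_left, Int.emod_eq_of_lt h3' h4']
    rw [e1, e2]
  · intro z _
    show g z = g (k * (z / k) + z % k)
    rw [Int.mul_ediv_add_emod]

private theorem ob_board (N : ℕ) (f : ℤ × ℤ → ℝ) : ∑ e ∈ board N, f e =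
    ∑ x ∈ Finset.Ico (0 : ℤ) N, ∑ y ∈ Finset.Ico (0 : ℤ) N, f (x, y) := by
  unfold Pool.Agent.NQ.board
  rw [Finset.sum_product]

private theorem ob_row (N : ℕ) (V : ℤ × ℤ → ℝ) (x : ℤ) (h0 : 0 ≤ x) (h1 : x < N) :
    dsum N V 0 x = ∑ y ∈ Finset.Ico (0 : ℤ) N, V (x, y) := by
  unfold Pool.Agent.NQ.dsum
  rw [Finset.sum_filter, ob_board, Finset.sum_eq_single x]
  · refine Finset.sum_congr rfl fun y _ => ?_
    exact if_pos rfl
  · intro x' _ hne
    refine Finset.sum_eq_zero fun y _ => ?_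
    exact if_neg hne
  · intro h
    exact absurd (mem_Ico.2 ⟨h0, h1⟩) h

private theorem ob_col (N : ℕ) (V : ℤ × ℤ → ℝ) (y : ℤ) (h0 : 0 ≤ y) (h1 : y < N) :
    dsum N V 1 y = ∑ x ∈ Finset.Ico (0 : ℤ) N, V (x, y) := by
  unfold Pool.Agent.NQ.dsum
  rw [Finset.sum_filter, ob_board]
  refine Finset.sum_congr rfl fun x _ => ?_
  rw [Finset.sum_eq_single y]
  · exact if_pos rfl
  · intro y' _ hne
    exact if_neg hne
  · intro h
    exact absurd (mem_Ico.2 ⟨h0, h1⟩) h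

private theorem oc_cz {n k : ℕ} {W : ℤ × ℤ → ℝ} {x y : ℤ} (hx : x ∈ Finset.Ico (0 : ℤ) n)
    (hy : y ∈ Finset.Ico (0 : ℤ) n) : cz n k W (x, y) =
      (∑ a ∈ Finset.Ico (0 : ℤ) k, ∑ b ∈ Finset.Ico (0 : ℤ) k, W (k * x + a, k * y + b)) / k := by
  unfold cz
  have h : (x, y) ∈ board n := by
    unfold Pool.Agent.NQ.board
    exact mem_product.2 ⟨hx, hy⟩
  rw [if_pos h]

private theorem od_range {n k : ℕ} (hk : 1 ≤ k) {x a : ℤ} (hx : x ∈ Finset.Ico (0 : ℤ) n)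
    (ha : a ∈ Finset.Ico (0 : ℤ) k) : 0 ≤ (k : ℤ) * x + a ∧ (k : ℤ) * x + a < ((n * k : ℕ) : ℤ) := by
  have hk0 : (0 : ℤ) < k := by exact_mod_cast hk
  rw [mem_Ico] at hx ha
  have h1 := mul_nonneg hk0.le hx.1
  have h5 : (k : ℤ) * (x + 1) ≤ k * n := mul_le_mul_of_nonneg_left (by linarith [hx.2]) hk0.le
  push_cast
  constructor
  · linarith [ha.1]
  · linarith [ha.2]

theorem cz_row {n k : ℕ} (hn : 1 ≤ n) (hk : 1 ≤ k) {W : ℤ × ℤ → ℝ} (hW : Adm (n * k) W) :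
    (∀ e, 0 ≤ cz n k W e) ∧ (∀ x : ℤ, 0 ≤ x → x < n → dsum n (cz n k W) 0 x = 1) ∧
    (∀ y : ℤ, 0 ≤ y → y < n → dsum n (cz n k W) 1 y = 1) := by
  have hk0 : (0 : ℝ) < k := by exact_mod_cast hk
  refine ⟨?_, ?_, ?_⟩
  · intro e
    unfold cz
    by_cases h : e ∈ board n
    · rw [if_pos h]
      exact div_nonneg (Finset.sum_nonneg fun a _ => Finset.sum_nonneg fun b _ => hW.nn _) hk0.le
    · rw [if_neg h]
  · intro x h0 h1
    have hx : x ∈ Finset.Ico (0 : ℤ) n := mem_Ico.2 ⟨h0, h1⟩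
    rw [ob_row n _ x h0 h1]
    calc ∑ y ∈ Finset.Ico (0 : ℤ) n, cz n k W (x, y)
        = ∑ y ∈ Finset.Ico (0 : ℤ) n,
          (∑ a ∈ Finset.Ico (0 : ℤ) k, ∑ b ∈ Finset.Ico (0 : ℤ) k, W (k * x + a, k * y + b)) / k :=
          Finset.sum_congr rfl fun y hy => oc_cz hx hy
      _ = (∑ y ∈ Finset.Ico (0 : ℤ) n,
          ∑ a ∈ Finset.Ico (0 : ℤ) k, ∑ b ∈ Finset.Ico (0 : ℤ) k, W (k * x + a, k * y + b)) / k := by
          rw [Finset.sum_div]
      _ = (∑ a ∈ Finset.Ico (0 : ℤ) k, ∑ y ∈ Finset.Ico (0 : ℤ) n,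
          ∑ b ∈ Finset.Ico (0 : ℤ) k, W (k * x + a, k * y + b)) / k := by
          rw [Finset.sum_comm]
      _ = (∑ a ∈ Finset.Ico (0 : ℤ) k, (1 : ℝ)) / k := by
          congr 1
          refine Finset.sum_congr rfl fun a ha => ?_
          rw [← oa_one n k hk (fun t => W (k * x + a, t)), ← ob_row (n * k) W _ (od_range hk hx ha).1
            (od_range hk hx ha).2]
          exact hW.row _ (od_range hk hx ha).1 (od_range hk hx ha).2
      _ = 1 := by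
          rw [Finset.sum_const, Int.card_Ico, sub_zero, Int.toNat_natCast, nsmul_eq_mul, mul_one,
            div_self hk0.ne']
  · intro y h0 h1
    have hy : y ∈ Finset.Ico (0 : ℤ) n := mem_Ico.2 ⟨h0, h1⟩
    rw [ob_col n _ y h0 h1]
    calc ∑ x ∈ Finset.Ico (0 : ℤ) n, cz n k W (x, y)
        = ∑ x ∈ Finset.Ico (0 : ℤ) n,
          (∑ a ∈ Finset.Ico (0 : ℤ) k, ∑ b ∈ Finset.Ico (0 : ℤ) k, W (k * x + a, k * y + b)) / k :=
          Finset.sum_congr rfl fun x hx => oc_cz hx hy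
      _ = (∑ x ∈ Finset.Ico (0 : ℤ) n,
          ∑ a ∈ Finset.Ico (0 : ℤ) k, ∑ b ∈ Finset.Ico (0 : ℤ) k, W (k * x + a, k * y + b)) / k := by
          rw [Finset.sum_div]
      _ = (∑ z ∈ Finset.Ico (0 : ℤ) ((n * k : ℕ) : ℤ),
          ∑ b ∈ Finset.Ico (0 : ℤ) k, W (z, k * y + b)) / k := by
          rw [oa_one n k hk (fun z => ∑ b ∈ Finset.Ico (0 : ℤ) k, W (z, k * y + b))]
      _ = (∑ b ∈ Finset.Ico (0 : ℤ) k, ∑ z ∈ Finset.Ico (0 : ℤ) ((n * k : ℕ) : ℤ),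
          W (z, k * y + b)) / k := by
          rw [Finset.sum_comm]
      _ = (∑ b ∈ Finset.Ico (0 : ℤ) k, (1 : ℝ)) / k := by
          congr 1
          refine Finset.sum_congr rfl fun b hb => ?_
          rw [← ob_col (n * k) W _ (od_range hk hy hb).1 (od_range hk hy hb).2]
          exact hW.col _ (od_range hk hy hb).1 (od_range hk hy hb).2
      _ = 1 := by
          rw [Finset.sum_const, Int.card_Ico, sub_zero, Int.toNat_natCast, nsmul_eq_mul, mul_one,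
            div_self hk0.ne']

theorem cz_ent {n k : ℕ} (hn : 1 ≤ n) (hk : 1 ≤ k) {W : ℤ × ℤ → ℝ} (hW : Adm (n * k) W) :
    Ent (n * k) W ≤ k * Ent n (cz n k W) + n * k * Real.log k := by
  have hk0 : (0 : ℝ) < k := by exact_mod_cast hk
  obtain ⟨hnn, hrow, -⟩ := cz_row hn hk hW
  have hcard : (Finset.Ico (0 : ℤ) k ×ˢ Finset.Ico (0 : ℤ) k).card = k ^ 2 := by
    rw [Finset.card_product, Int.card_Ico, sub_zero, Int.toNat_natCast, pow_two]
  -- one block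
  have hblock : ∀ x ∈ Finset.Ico (0 : ℤ) n, ∀ y ∈ Finset.Ico (0 : ℤ) n,
      ∑ a ∈ Finset.Ico (0 : ℤ) k, ∑ b ∈ Finset.Ico (0 : ℤ) k, Real.negMulLog (W (k * x + a, k * y + b)) ≤
        k * Real.negMulLog (cz n k W (x, y)) + cz n k W (x, y) * (k * Real.log k) := by
    intro x hx y hy
    obtain ⟨c, hc⟩ : ∃ c, c = cz n k W (x, y) := ⟨_, rfl⟩
    have hc0 : 0 ≤ c := by
      rw [hc]
      exact hnn _
    have h1 : ∑ p ∈ Finset.Ico (0 : ℤ) k ×ˢ Finset.Ico (0 : ℤ) k,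
        (1 / (k : ℝ) ^ 2) • Real.negMulLog (W (k * x + p.1, k * y + p.2)) ≤
        Real.negMulLog (∑ p ∈ Finset.Ico (0 : ℤ) k ×ˢ Finset.Ico (0 : ℤ) k,
          (1 / (k : ℝ) ^ 2) • W (k * x + p.1, k * y + p.2)) := by
      refine Real.concaveOn_negMulLog.le_map_sum (fun _ _ => by positivity) ?_ (fun p _ => hW.nn _)
      rw [Finset.sum_const, hcard, nsmul_eq_mul]
      push_cast
      field_simp
    have h2 : ∑ p ∈ Finset.Ico (0 : ℤ) k ×ˢ Finset.Ico (0 : ℤ) k,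
        (1 / (k : ℝ) ^ 2) • Real.negMulLog (W (k * x + p.1, k * y + p.2)) =
        1 / (k : ℝ) ^ 2 * ∑ a ∈ Finset.Ico (0 : ℤ) k, ∑ b ∈ Finset.Ico (0 : ℤ) k,
          Real.negMulLog (W (k * x + a, k * y + b)) := by
      rw [← Finset.smul_sum, smul_eq_mul, Finset.sum_product]
    have h3 : ∑ p ∈ Finset.Ico (0 : ℤ) k ×ˢ Finset.Ico (0 : ℤ) k,
        (1 / (k : ℝ) ^ 2) • W (k * x + p.1, k * y + p.2) = c / k := by
      rw [← Finset.smul_sum, smul_eq_mul, Finset.sum_product, hc, oc_cz hx hy]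
      field_simp
    rw [h2, h3] at h1
    have h4 : ∑ a ∈ Finset.Ico (0 : ℤ) k, ∑ b ∈ Finset.Ico (0 : ℤ) k,
        Real.negMulLog (W (k * x + a, k * y + b)) ≤ (k : ℝ) ^ 2 * Real.negMulLog (c / k) := by
      have h5 := mul_le_mul_of_nonneg_left h1 (show (0 : ℝ) ≤ (k : ℝ) ^ 2 by positivity)
      rw [← mul_assoc, mul_one_div_cancel (by positivity), one_mul] at h5
      exact h5
    rw [← hc]
    refine h4.trans (le_of_eq ?_)
    rcases hc0.eq_or_lt with h0 | h0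
    · rw [← h0]
      simp
    · unfold Real.negMulLog
      rw [Real.log_div h0.ne' hk0.ne']
      field_simp
      ring
  have htot : ∑ x ∈ Finset.Ico (0 : ℤ) n, ∑ y ∈ Finset.Ico (0 : ℤ) n, cz n k W (x, y) = n := by
    have h1 : ∀ x ∈ Finset.Ico (0 : ℤ) n, ∑ y ∈ Finset.Ico (0 : ℤ) n, cz n k W (x, y) = 1 := by
      intro x hx
      rw [mem_Ico] at hx
      rw [← ob_row n _ x hx.1 hx.2]
      exact hrow x hx.1 hx.2
    rw [Finset.sum_congr rfl h1, Finset.sum_const, Int.card_Ico, sub_zero, Int.toNat_natCast,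
      nsmul_eq_mul, mul_one]
  unfold Pool.Agent.NQ.Ent
  rw [ob_board, ob_board, oa_one n k hk]
  calc ∑ x ∈ Finset.Ico (0 : ℤ) n, ∑ a ∈ Finset.Ico (0 : ℤ) k,
        ∑ t ∈ Finset.Ico (0 : ℤ) ((n * k : ℕ) : ℤ), Real.negMulLog (W (k * x + a, t))
      = ∑ x ∈ Finset.Ico (0 : ℤ) n, ∑ y ∈ Finset.Ico (0 : ℤ) n, ∑ a ∈ Finset.Ico (0 : ℤ) k,
        ∑ b ∈ Finset.Ico (0 : ℤ) k, Real.negMulLog (W (k * x + a, k * y + b)) := by
        refine Finset.sum_congr rfl fun x _ => ?_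
        refine Eq.trans ?_ Finset.sum_comm
        refine Finset.sum_congr rfl fun a _ => ?_
        rw [oa_one n k hk (fun t => Real.negMulLog (W (k * x + a, t)))]
    _ ≤ ∑ x ∈ Finset.Ico (0 : ℤ) n, ∑ y ∈ Finset.Ico (0 : ℤ) n,
        (k * Real.negMulLog (cz n k W (x, y)) + cz n k W (x, y) * (k * Real.log k)) :=
        Finset.sum_le_sum fun x hx => Finset.sum_le_sum fun y hy => hblock x hx y hy
    _ = k * ∑ x ∈ Finset.Ico (0 : ℤ) n, ∑ y ∈ Finset.Ico (0 : ℤ) n, Real.negMulLog (cz n k W (x, y)) +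
        (∑ x ∈ Finset.Ico (0 : ℤ) n, ∑ y ∈ Finset.Ico (0 : ℤ) n, cz n k W (x, y)) * (k * Real.log k) := by
        simp only [Finset.sum_add_distrib, ← Finset.mul_sum, ← Finset.sum_mul]
    _ = k * ∑ x ∈ Finset.Ico (0 : ℤ) n, ∑ y ∈ Finset.Ico (0 : ℤ) n, Real.negMulLog (cz n k W (x, y)) +
        n * k * Real.log k := by
        rw [htot]
        ring

end Pool.Agent.NQL
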