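import Pool.Agent.NQL.Defs
import Pool.Agent.NQL.ECoD

/-!
# NQL-ECoG: coarse weights: diagonals

Types `κ = 2` (sums) and `κ = 3` (differences); offset of `(a,b)` in a block: `a + b - (k-1)` resp. `a - b`; `ln κ (k i + a, k j + b) = k ln κ (i,j) + offset + c`, `c = k - 1` resp. `0`.

PLAN. `win`: the squares of the fine diagonals `k s + c + r`, `0 ≤ r < k`, are the squares with offset `r` in the blocks of the coarse diagonal `s` and offset `r - k < 0` in the blocks of `s + 1`; so the sum is (mass of coarse diagonal `s`) - `Mm s` + `Mm (s+1)`, mass `= k · dsum n cz κ s`.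
Hoelder: for squares `e, e'` of the board `n k` with coordinates differing by at most `2k`: `|W e - W e'| ≤ C n^(-1/2)/(n k)` (`Rf.el`, `A`, `B`, `p`, `q` all Hoelder: `√(2k/(n k))`, diagonal numbers differ by `≤ 4k`; all factors bounded as in `Rf`). `Mm s`: `k(k-1)/2` of the `k²` squares of each block have negative offset; each block:
`|Mm-part - ((k-1)/(2k)) mass| ≤ k² C n^(-1/2)/(n k)`, at most `n` blocks: total `≤ C k n^(-1/2)`, `((k-1)/(2k)) k dsum = ((k-1)/2) dsum`. Neighbouring coarse diagonals: compare the block `(i,j)` with `(i, j ∓ 1)`: `n` blocks, each `≤ k² C n^(-1/2)/(nk)`, plus at most one unmatched block of mass `≤ k² L/(nk)`; divide by `k`.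
Upper bound: the fine diagonal `k s + c` (offset `0`) meets only blocks of the coarse diagonal `s`, `k` squares each: `|dsum n cz κ s - dsum (n k) W κ (k s + c)| ≤ C n^(-1/2)`, and `dsum (n k) W ≤ 1 - 1/L`.
-/

set_option autoImplicit false

open Finset

namespace Pool.Agent.NQL

open Pool.Agent.NQ (board dsum F Ent Dg phi ln Q Qset QS NonAtt bern)
open Pool.Agent.NQR (Adm Opt Bd Rf hS hD hh InR)

/-- offset of a square in a block -/
def off (κ : Fin 4) (k : ℕ) (a b : ℤ) : ℤ := if κ = 2 then a + b - (k - 1) else a - b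

/-- constant for the diagonals of type `κ` -/
def oc (κ : Fin 4) (k : ℕ) : ℤ := if κ = 2 then (k : ℤ) - 1 else 0

/-- mass of the part with negative offset of the blocks on the coarse diagonal `s` -/
noncomputable def Mm (n k : ℕ) (W : ℤ × ℤ → ℝ) (κ : Fin 4) (s : ℤ) : ℝ :=
  ∑ e ∈ (board n).filter (fun e => ln κ e = s), ∑ a ∈ Finset.Ico (0 : ℤ) k, ∑ b ∈ Finset.Ico (0 : ℤ) k,
    if off κ k a b < 0 then W (k * e.1 + a, k * e.2 + b) else 0

private theorem eg_board {n : ℕ} {e : ℤ × ℤ} :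
    e ∈ board n ↔ (0 ≤ e.1 ∧ e.1 < n) ∧ (0 ≤ e.2 ∧ e.2 < n) := Pool.Agent.NQ.mem_board

private theorem eg_sum (k : ℕ) (g : ℤ → ℤ → ℝ) :
    ∑ a ∈ Finset.Ico (0 : ℤ) k, ∑ b ∈ Finset.Ico (0 : ℤ) k, g a b =
      ∑ x ∈ board k, g x.1 x.2 := by
  unfold board
  rw [Finset.sum_product]

private theorem eg_blk {n k : ℕ} (hk : 1 ≤ k) (G : ℤ × ℤ → ℝ) :
    ∑ f ∈ board (n * k), G f =
      ∑ e ∈ board n, ∑ x ∈ board k, G (k * e.1 + x.1, k * e.2 + x.2) := by
  have hk0 : (0 : ℤ) < k := by exact_mod_cast hk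
  rw [← Finset.sum_product']
  refine (Finset.sum_nbij' (fun q : (ℤ × ℤ) × (ℤ × ℤ) => (k * q.1.1 + q.2.1, k * q.1.2 + q.2.2))
    (fun f : ℤ × ℤ => ((f.1 / k, f.2 / k), (f.1 % k, f.2 % k))) ?_ ?_ ?_ ?_ ?_).symm
  · intro q hq
    rw [Finset.mem_product, eg_board, eg_board] at hq
    obtain ⟨⟨⟨h1, h2⟩, h3, h4⟩, ⟨h5, h6⟩, h7, h8⟩ := hq
    rw [eg_board]
    push_cast
    refine ⟨⟨by positivity, ?_⟩, by positivity, ?_⟩
    · nlinarith
    · nlinarith
  · intro f hf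
    rw [eg_board] at hf
    obtain ⟨⟨h1, h2⟩, h3, h4⟩ := hf
    push_cast at h2 h4
    rw [Finset.mem_product, eg_board, eg_board]
    refine ⟨⟨⟨Int.ediv_nonneg h1 hk0.le, ?_⟩, Int.ediv_nonneg h3 hk0.le, ?_⟩,
      ⟨Int.emod_nonneg _ hk0.ne', Int.emod_lt_of_pos _ hk0⟩,
      Int.emod_nonneg _ hk0.ne', Int.emod_lt_of_pos _ hk0⟩
    · exact Int.ediv_lt_of_lt_mul hk0 h2
    · exact Int.ediv_lt_of_lt_mul hk0 h4
  · intro q hq
    rw [Finset.mem_product, eg_board, eg_board] at hq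
    obtain ⟨-, ⟨h5, h6⟩, h7, h8⟩ := hq
    have d : ∀ (i a : ℤ), 0 ≤ a → a < k → (k * i + a) / k = i ∧ (k * i + a) % k = a := by
      intro i a h h'
      constructor
      · rw [Int.add_comm, Int.add_mul_ediv_left _ _ hk0.ne', Int.ediv_eq_zero_of_lt h h', zero_add]
      · rw [Int.add_comm, Int.add_mul_emod_self_left, Int.emod_eq_of_lt h h']
    obtain ⟨a1, a2⟩ := d q.1.1 q.2.1 h5 h6
    obtain ⟨a3, a4⟩ := d q.1.2 q.2.2 h7 h8
    dsimp only
    rw [a1, a2, a3, a4]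
  · intro f _
    dsimp only
    rw [Int.mul_ediv_add_emod, Int.mul_ediv_add_emod]
  · intro q _
    rfl

private theorem eg_ln {κ : Fin 4} (hκ : 2 ≤ (κ : ℕ)) (k : ℕ) (e x : ℤ × ℤ) :
    ln κ (k * e.1 + x.1, k * e.2 + x.2) = k * ln κ e + off κ k x.1 x.2 + oc κ k := by
  have h : κ = 2 ∨ κ = 3 := by
    rcases κ with ⟨m, hm⟩
    have h1 : 2 ≤ m := hκ
    interval_cases m
    · exact Or.inl rfl
    · exact Or.inr rfl
  rcases h with rfl | rfl
  · unfold off oc
    rw [if_pos rfl, if_pos rfl, Pool.Agent.NQ.ln_two, Pool.Agent.NQ.ln_two]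
    ring
  · unfold off oc
    rw [if_neg (by decide), if_neg (by decide), Pool.Agent.NQ.ln_three, Pool.Agent.NQ.ln_three]
    ring

private theorem eg_off {κ : Fin 4} (k : ℕ) {x : ℤ × ℤ} (hx : x ∈ board k) :
    -(k : ℤ) < off κ k x.1 x.2 ∧ off κ k x.1 x.2 < k := by
  rw [eg_board] at hx
  obtain ⟨⟨h1, h2⟩, h3, h4⟩ := hx
  unfold off
  split_ifs
  · constructor <;> omega
  · constructor <;> omega

private theorem eg_r (k : ℕ) (t : ℤ) (w : ℝ) :
    ∑ r ∈ Finset.range k, (if t = (r : ℤ) then w else 0) = if 0 ≤ t ∧ t < k then w else 0 := by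
  split_ifs with h
  · obtain ⟨h1, h2⟩ := h
    obtain ⟨m, rfl⟩ := Int.eq_ofNat_of_zero_le h1
    have h3 : m ∈ Finset.range k := by
      rw [Finset.mem_range]
      exact_mod_cast h2
    rw [Finset.sum_eq_single_of_mem m h3]
    · rw [if_pos rfl]
    · intro b _ hb
      rw [if_neg]
      intro h4
      exact hb (by exact_mod_cast h4.symm)
  · refine Finset.sum_eq_zero fun r hr => ?_
    rw [if_neg]
    rintro rfl
    rw [Finset.mem_range] at hr
    exact h ⟨by positivity, by exact_mod_cast hr⟩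

private theorem eg_dsum (n : ℕ) (W : ℤ × ℤ → ℝ) (κ : Fin 4) (s : ℤ) :
    dsum n W κ s = ∑ e ∈ board n, if ln κ e = s then W e else 0 := by
  unfold dsum
  rw [Finset.sum_filter]

private theorem eg_cz {n k : ℕ} (hk : 1 ≤ k) (W : ℤ × ℤ → ℝ) {e : ℤ × ℤ} (he : e ∈ board n) :
    k * cz n k W e = ∑ x ∈ board k, W (k * e.1 + x.1, k * e.2 + x.2) := by
  have hk0 : (k : ℝ) ≠ 0 := by
    have : 0 < k := hk
    positivity
  unfold cz
  rw [if_pos he, eg_sum k fun a b => W (k * e.1 + a, k * e.2 + b), mul_div_cancel₀ _ hk0]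

private theorem eg_Mm (n k : ℕ) (W : ℤ × ℤ → ℝ) (κ : Fin 4) (s : ℤ) :
    Mm n k W κ s = ∑ e ∈ board n, if ln κ e = s then
      (∑ x ∈ board k, if off κ k x.1 x.2 < 0 then W (k * e.1 + x.1, k * e.2 + x.2) else 0) else 0 := by
  unfold Mm
  rw [Finset.sum_filter]
  refine Finset.sum_congr rfl fun e _ => ?_
  rw [eg_sum k fun a b => if off κ k a b < 0 then W (k * e.1 + a, k * e.2 + b) else 0]

theorem win {n k : ℕ} (hn : 1 ≤ n) (hk : 1 ≤ k) (W : ℤ × ℤ → ℝ) {κ : Fin 4} (hκ : 2 ≤ (κ : ℕ)) (s : ℤ) :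
    ∑ r ∈ Finset.range k, dsum (n * k) W κ (k * s + oc κ k + r) =
      k * dsum n (cz n k W) κ s - Mm n k W κ s + Mm n k W κ (s + 1) := by
  have hk0 : (0 : ℤ) < k := by exact_mod_cast hk
  have h1 : ∑ r ∈ Finset.range k, dsum (n * k) W κ (k * s + oc κ k + r) =
      ∑ e ∈ board n, ∑ x ∈ board k,
        if 0 ≤ k * (ln κ e - s) + off κ k x.1 x.2 ∧ k * (ln κ e - s) + off κ k x.1 x.2 < k then
          W (k * e.1 + x.1, k * e.2 + x.2) else 0 := by
    have h2 : ∀ r ∈ Finset.range k, dsum (n * k) W κ (k * s + oc κ k + r) =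
        ∑ e ∈ board n, ∑ x ∈ board k,
          if k * (ln κ e - s) + off κ k x.1 x.2 = (r : ℤ) then
            W (k * e.1 + x.1, k * e.2 + x.2) else 0 := by
      intro r _
      rw [eg_dsum, eg_blk hk]
      refine Finset.sum_congr rfl fun e _ => Finset.sum_congr rfl fun x _ => ?_
      refine if_congr ?_ rfl rfl
      rw [eg_ln hκ]
      constructor
      · intro h
        linarith
      · intro h
        linarith
    rw [Finset.sum_congr rfl h2, Finset.sum_comm]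
    refine Finset.sum_congr rfl fun e _ => ?_
    rw [Finset.sum_comm]
    exact Finset.sum_congr rfl fun x _ => eg_r k _ _
  rw [h1, eg_Mm, eg_Mm, eg_dsum, Finset.mul_sum, ← Finset.sum_sub_distrib, ← Finset.sum_add_distrib]
  refine Finset.sum_congr rfl fun e he => ?_
  have hcz := eg_cz hk W he
  by_cases hs : ln κ e = s
  · rw [if_pos hs, if_pos hs, if_neg (by omega), add_zero, hcz, ← Finset.sum_sub_distrib, hs]
    refine Finset.sum_congr rfl fun x hx => ?_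
    obtain ⟨h3, h4⟩ := eg_off (κ := κ) k hx
    rw [sub_self, mul_zero, zero_add]
    by_cases h5 : off κ k x.1 x.2 < 0
    · rw [if_neg (by omega), if_pos h5, sub_self]
    · rw [if_pos ⟨by omega, h4⟩, if_neg h5, sub_zero]
  · rw [if_neg hs, if_neg hs, mul_zero, sub_zero, zero_add]
    by_cases hs1 : ln κ e = s + 1
    · rw [if_pos hs1, hs1]
      refine Finset.sum_congr rfl fun x hx => ?_
      obtain ⟨h3, h4⟩ := eg_off (κ := κ) k hx
      refine if_congr ?_ rfl rfl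
      rw [add_sub_cancel_left, mul_one]
      constructor
      · rintro ⟨-, h5⟩
        omega
      · intro h5
        constructor <;> omega
    · rw [if_neg hs1]
      refine Finset.sum_eq_zero fun x hx => ?_
      obtain ⟨h3, h4⟩ := eg_off (κ := κ) k hx
      rw [if_neg]
      rintro ⟨h5, h6⟩
      rcases lt_or_gt_of_ne hs with h7 | h7
      · have h8 : ln κ e - s ≤ -1 := by omega
        nlinarith
      · have h8 : 2 ≤ ln κ e - s := by omega
        nlinarith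

private theorem eg_kap {κ : Fin 4} (hκ : 2 ≤ (κ : ℕ)) : κ = 2 ∨ κ = 3 := by
  rcases κ with ⟨m, hm⟩
  have h1 : 2 ≤ m := hκ
  interval_cases m
  · exact Or.inl rfl
  · exact Or.inr rfl

private theorem eg_four {a a' b b' p p' q q' u v x y : ℝ} (ha : 0 ≤ a') (hau : a' ≤ u)
    (hb : 0 ≤ b) (hbu : b ≤ u) (hb' : 0 ≤ b') (hbu' : b' ≤ u) (hp : 0 ≤ p) (hp1 : p ≤ 1)
    (hp' : 0 ≤ p') (hp1' : p' ≤ 1) (hq : 0 ≤ q) (hq1 : q ≤ 1) (hdu : |a - a'| ≤ u * v)
    (hdb : |b - b'| ≤ u * v) (hdp : |p - p'| ≤ x) (hdq : |q - q'| ≤ y) :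
    |a * b * (p * q) - a' * b' * (p' * q')| ≤ u ^ 2 * (2 * v + x + y) := by
  have hu : 0 ≤ u := hb.trans hbu
  have hx : 0 ≤ x := (abs_nonneg _).trans hdp
  have hy : 0 ≤ y := (abs_nonneg _).trans hdq
  have huv : 0 ≤ u * v := (abs_nonneg _).trans hdu
  have e : a * b * (p * q) - a' * b' * (p' * q') =
      (a - a') * (b * (p * q)) + (b - b') * (a' * (p * q)) + (p - p') * (a' * b' * q) +
        (q - q') * (a' * b' * p') := by ring
  have hpq : p * q ≤ 1 := mul_le_one₀ hp1 hq hq1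
  have hpq0 : 0 ≤ p * q := mul_nonneg hp hq
  have t1 : |(a - a') * (b * (p * q))| ≤ u ^ 2 * v := by
    rw [abs_mul, abs_of_nonneg (mul_nonneg hb hpq0)]
    calc |a - a'| * (b * (p * q)) ≤ (u * v) * (u * 1) :=
          mul_le_mul hdu (mul_le_mul hbu hpq hpq0 hu) (mul_nonneg hb hpq0) huv
      _ = u ^ 2 * v := by ring
  have t2 : |(b - b') * (a' * (p * q))| ≤ u ^ 2 * v := by
    rw [abs_mul, abs_of_nonneg (mul_nonneg ha hpq0)]
    calc |b - b'| * (a' * (p * q)) ≤ (u * v) * (u * 1) :=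
          mul_le_mul hdb (mul_le_mul hau hpq hpq0 hu) (mul_nonneg ha hpq0) huv
      _ = u ^ 2 * v := by ring
  have hab : a' * b' ≤ u * u := mul_le_mul hau hbu' hb' hu
  have hab0 : 0 ≤ a' * b' := mul_nonneg ha hb'
  have t3 : |(p - p') * (a' * b' * q)| ≤ u ^ 2 * x := by
    rw [abs_mul, abs_of_nonneg (mul_nonneg hab0 hq)]
    calc |p - p'| * (a' * b' * q) ≤ x * (u * u * 1) :=
          mul_le_mul hdp (mul_le_mul hab hq1 hq (mul_nonneg hu hu)) (mul_nonneg hab0 hq) hx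
      _ = u ^ 2 * x := by ring
  have t4 : |(q - q') * (a' * b' * p')| ≤ u ^ 2 * y := by
    rw [abs_mul, abs_of_nonneg (mul_nonneg hab0 hp')]
    calc |q - q'| * (a' * b' * p') ≤ y * (u * u * 1) :=
          mul_le_mul hdq (mul_le_mul hab hp1' hp' (mul_nonneg hu hu)) (mul_nonneg hab0 hp') hy
      _ = u ^ 2 * y := by ring
  rw [e]
  have s1 := abs_add_le ((a - a') * (b * (p * q)) + (b - b') * (a' * (p * q)) +
    (p - p') * (a' * b' * q)) ((q - q') * (a' * b' * p'))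
  have s2 := abs_add_le ((a - a') * (b * (p * q)) + (b - b') * (a' * (p * q)))
    ((p - p') * (a' * b' * q))
  have s3 := abs_add_le ((a - a') * (b * (p * q))) ((b - b') * (a' * (p * q)))
  nlinarith

private theorem eg_dnn {n : ℕ} {W : ℤ × ℤ → ℝ} (hW : ∀ e, 0 ≤ W e) (κ : Fin 4) (s : ℤ) :
    0 ≤ dsum n W κ s := by
  unfold dsum
  exact Finset.sum_nonneg fun e _ => hW e

private theorem eg_hol {L : ℝ} (hL : 1 ≤ L) {n k : ℕ} (hn : 1 ≤ n) (hk : 1 ≤ k)
    {W : ℤ × ℤ → ℝ} {A B : ℤ → ℝ} (h : Rf L (n * k) W A B) {e e' : ℤ × ℤ}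
    (he : e ∈ board (n * k)) (he' : e' ∈ board (n * k)) (h1 : |e.1 - e'.1| ≤ k)
    (h2 : |e.2 - e'.2| ≤ k) :
    |W e - W e'| ≤ 8 * L ^ 3 / (n * k * Real.sqrt n) := by
  have hn0 : (0 : ℝ) < n := by
    have : 0 < n := hn
    positivity
  have hk0 : (0 : ℝ) < k := by
    have : 0 < k := hk
    positivity
  have hsn : 0 < Real.sqrt n := Real.sqrt_pos.2 hn0
  have hNc : ((n * k : ℕ) : ℝ) = n * k := by push_cast; ring
  have hNp : (0 : ℝ) < n * k := mul_pos hn0 hk0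
  have hsN : 0 < Real.sqrt ((n * k : ℕ) : ℝ) := by
    rw [hNc]
    exact Real.sqrt_pos.2 hNp
  -- square roots
  have hr1 : ∀ t : ℤ, t ≤ k → 0 ≤ t →
      Real.sqrt ((t : ℝ) / ((n * k : ℕ) : ℝ)) ≤ 1 / Real.sqrt n := by
    intro t ht ht0
    rw [hNc, ← Real.sqrt_one, ← Real.sqrt_div zero_le_one]
    refine Real.sqrt_le_sqrt ?_
    rw [div_le_div_iff₀ hNp hn0]
    have h3 : (t : ℝ) ≤ k := by exact_mod_cast ht
    nlinarith
  have hr2 : ∀ t : ℤ, t ≤ 2 * k → 0 ≤ t →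
      Real.sqrt ((t : ℝ) / ((n * k : ℕ) : ℝ)) ≤ 2 / Real.sqrt n := by
    intro t ht ht0
    have h4 : (2 : ℝ) = Real.sqrt 4 := by
      rw [show (4 : ℝ) = 2 ^ 2 by norm_num, Real.sqrt_sq (by norm_num)]
    rw [hNc, h4, ← Real.sqrt_div (by norm_num)]
    refine Real.sqrt_le_sqrt ?_
    rw [div_le_div_iff₀ hNp hn0]
    have h3 : (t : ℝ) ≤ 2 * k := by exact_mod_cast ht
    nlinarith
  obtain ⟨⟨x0, x1⟩, y0, y1⟩ := eg_board.1 he
  obtain ⟨⟨x0', x1'⟩, y0', y1'⟩ := eg_board.1 he'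
  have hu0 : 0 ≤ L / Real.sqrt ((n * k : ℕ) : ℝ) := by positivity
  have hl0 : 0 ≤ 1 / (L * Real.sqrt ((n * k : ℕ) : ℝ)) := by positivity
  have hL1 : 0 ≤ 1 / L := by positivity
  have hS1 : ∀ s, 0 ≤ hS (n * k) W s ∧ hS (n * k) W s ≤ 1 := by
    intro s
    refine ⟨hL1.trans (h.bd.sd s), ?_⟩
    unfold hS
    have := eg_dnn (n := n * k) h.adm.nn 2 s
    linarith
  have hD1 : ∀ s, 0 ≤ hD (n * k) W s ∧ hD (n * k) W s ≤ 1 := by
    intro s
    refine ⟨hL1.trans (h.bd.dd s), ?_⟩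
    unfold hD
    have := eg_dnn (n := n * k) h.adm.nn 3 s
    linarith
  have dA : |A e.1 - A e'.1| ≤ L / Real.sqrt ((n * k : ℕ) : ℝ) * (1 / Real.sqrt n) :=
    (h.hA _ _ x0 x1 x0' x1').trans (mul_le_mul_of_nonneg_left (hr1 _ h1 (abs_nonneg _)) hu0)
  have dB : |B e.2 - B e'.2| ≤ L / Real.sqrt ((n * k : ℕ) : ℝ) * (1 / Real.sqrt n) :=
    (h.hB _ _ y0 y1 y0' y1').trans (mul_le_mul_of_nonneg_left (hr1 _ h2 (abs_nonneg _)) hu0)
  have dS : |hS (n * k) W (e.1 + e.2) - hS (n * k) W (e'.1 + e'.2)| ≤ L * (2 / Real.sqrt n) := by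
    have h3 := h.hq (e'.1 + e'.2) (e.1 + e.2)
    have h4 : |e'.1 + e'.2 - (e.1 + e.2)| ≤ 2 * (k : ℤ) := by
      rw [abs_le] at h1 h2 ⊢
      constructor <;> omega
    have h5 : hS (n * k) W (e.1 + e.2) - hS (n * k) W (e'.1 + e'.2) =
        dsum (n * k) W 2 (e'.1 + e'.2) - dsum (n * k) W 2 (e.1 + e.2) := by
      unfold hS
      ring
    rw [h5]
    exact h3.trans (mul_le_mul_of_nonneg_left (hr2 _ h4 (abs_nonneg _)) (by linarith))
  have dD : |hD (n * k) W (e.1 - e.2) - hD (n * k) W (e'.1 - e'.2)| ≤ L * (2 / Real.sqrt n) := by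
    have h3 := h.hp (e'.1 - e'.2) (e.1 - e.2)
    have h4 : |e'.1 - e'.2 - (e.1 - e.2)| ≤ 2 * (k : ℤ) := by
      rw [abs_le] at h1 h2 ⊢
      constructor <;> omega
    have h5 : hD (n * k) W (e.1 - e.2) - hD (n * k) W (e'.1 - e'.2) =
        dsum (n * k) W 3 (e'.1 - e'.2) - dsum (n * k) W 3 (e.1 - e.2) := by
      unfold hD
      ring
    rw [h5]
    exact h3.trans (mul_le_mul_of_nonneg_left (hr2 _ h4 (abs_nonneg _)) (by linarith))
  have key := eg_four (hl0.trans (h.A1 _ x0' x1')) (h.A2 _ x0' x1') (hl0.trans (h.B1 _ y0 y1))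
    (h.B2 _ y0 y1) (hl0.trans (h.B1 _ y0' y1')) (h.B2 _ y0' y1') (hS1 (e.1 + e.2)).1
    (hS1 (e.1 + e.2)).2 (hS1 (e'.1 + e'.2)).1 (hS1 (e'.1 + e'.2)).2 (hD1 (e.1 - e.2)).1
    (hD1 (e.1 - e.2)).2 dA dB dS dD
  rw [h.el e he, h.el e' he']
  unfold hh
  refine key.trans ?_
  have hsq : (L / Real.sqrt ((n * k : ℕ) : ℝ)) ^ 2 = L ^ 2 / (n * k) := by
    rw [div_pow, Real.sq_sqrt (by positivity), hNc]
  rw [hsq]
  have e1 : L ^ 2 / (n * k) * (2 * (1 / Real.sqrt n) + L * (2 / Real.sqrt n) +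
      L * (2 / Real.sqrt n)) = (L ^ 2 * (2 + 4 * L)) / (n * k * Real.sqrt n) := by
    field_simp
    ring
  rw [e1]
  refine div_le_div_of_nonneg_right ?_ (by positivity)
  have h6 : L ^ 2 * (2 + 4 * L) ≤ L ^ 2 * (8 * L) := mul_le_mul_of_nonneg_left (by linarith) (by positivity)
  nlinarith

/-- averages over a subset -/
private theorem eg_avg {T : Finset (ℤ × ℤ)} (P : ℤ × ℤ → Prop) [DecidablePred P] (β : ℤ × ℤ → ℝ)
    {η : ℝ} (h : ∀ x ∈ T, ∀ y ∈ T, |β x - β y| ≤ η) :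
    |(T.card : ℝ) * (∑ x ∈ T, if P x then β x else 0) -
      (∑ x ∈ T, if P x then (1 : ℝ) else 0) * ∑ x ∈ T, β x| ≤
      (∑ x ∈ T, if P x then (1 : ℝ) else 0) * T.card * η := by
  have e : (T.card : ℝ) * (∑ x ∈ T, if P x then β x else 0) -
      (∑ x ∈ T, if P x then (1 : ℝ) else 0) * ∑ x ∈ T, β x =
      ∑ x ∈ T, ∑ y ∈ T, if P x then β x - β y else 0 := by
    have h1 : ∀ x ∈ T, ∑ y ∈ T, (if P x then β x - β y else 0) =
        (T.card : ℝ) * (if P x then β x else 0) - (if P x then (1 : ℝ) else 0) * ∑ y ∈ T, β y := by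
      intro x _
      by_cases hx : P x
      · simp only [if_pos hx]
        rw [Finset.sum_sub_distrib, Finset.sum_const, nsmul_eq_mul, one_mul]
      · simp only [if_neg hx]
        rw [Finset.sum_const_zero]
        ring
    rw [Finset.sum_congr rfl h1, Finset.sum_sub_distrib, ← Finset.mul_sum, ← Finset.sum_mul]
  have e2 : (∑ x ∈ T, if P x then (1 : ℝ) else 0) * T.card * η =
      ∑ x ∈ T, ∑ y ∈ T, if P x then η else 0 := by
    rw [Finset.sum_mul, Finset.sum_mul]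
    refine Finset.sum_congr rfl fun x _ => ?_
    by_cases hx : P x
    · simp only [if_pos hx]
      rw [Finset.sum_const, nsmul_eq_mul]
      ring
    · simp only [if_neg hx]
      rw [Finset.sum_const_zero]
      ring
  rw [e, e2]
  refine (Finset.abs_sum_le_sum_abs _ _).trans (Finset.sum_le_sum fun x hx => ?_)
  refine (Finset.abs_sum_le_sum_abs _ _).trans (Finset.sum_le_sum fun y hy => ?_)
  by_cases hx' : P x
  · rw [if_pos hx', if_pos hx']
    exact h x hx y hy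
  · rw [if_neg hx', if_neg hx', abs_zero]

private theorem eg_card (k : ℕ) : ((board k).card : ℝ) = (k : ℝ) ^ 2 := by
  unfold board
  rw [Finset.card_product, Int.card_Ico, sub_zero, Int.toNat_natCast]
  push_cast
  ring

private theorem eg_gauss (k : ℕ) :
    ∑ a ∈ Finset.Ico (0 : ℤ) k, ((k : ℝ) - 1 - a) = (k : ℝ) * ((k : ℝ) - 1) / 2 := by
  have h1 : ∀ m : ℕ, ∑ a ∈ Finset.Ico (0 : ℤ) m, ((k : ℝ) - 1 - a) =
      m * ((k : ℝ) - 1) - m * ((m : ℝ) - 1) / 2 := by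
    intro m
    induction m with
    | zero => simp
    | succ m ih =>
      have h2 : Finset.Ico (0 : ℤ) ((m + 1 : ℕ) : ℤ) = insert (m : ℤ) (Finset.Ico (0 : ℤ) m) := by
        ext a
        rw [Finset.mem_insert, Finset.mem_Ico, Finset.mem_Ico]
        push_cast
        omega
      rw [h2, Finset.sum_insert (by simp), ih]
      push_cast
      ring
  rw [h1]
  ring

private theorem eg_cneg {κ : Fin 4} (hκ : 2 ≤ (κ : ℕ)) (k : ℕ) :
    (∑ x ∈ board k, if off κ k x.1 x.2 < 0 then (1 : ℝ) else 0) =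
      (k : ℝ) * ((k : ℝ) - 1) / 2 := by
  rw [← eg_sum k fun a b => if off κ k a b < 0 then (1 : ℝ) else 0, ← eg_gauss]
  refine Finset.sum_congr rfl fun a ha => ?_
  rw [Finset.mem_Ico] at ha
  obtain ⟨a0, a1⟩ := ha
  rw [← Finset.sum_filter, Finset.sum_const, nsmul_eq_mul, mul_one]
  rcases eg_kap hκ with rfl | rfl
  · have h1 : (Finset.Ico (0 : ℤ) k).filter (fun b => off 2 k a b < 0) =
        Finset.Ico (0 : ℤ) (k - 1 - a) := by
      ext b
      rw [Finset.mem_filter, Finset.mem_Ico, Finset.mem_Ico]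
      unfold off
      rw [if_pos rfl]
      constructor
      · rintro ⟨⟨h2, h3⟩, h4⟩
        constructor <;> omega
      · rintro ⟨h2, h3⟩
        refine ⟨⟨h2, by omega⟩, by omega⟩
    rw [h1, Int.card_Ico, sub_zero]
    have h2 : (((k - 1 - a : ℤ).toNat : ℕ) : ℤ) = k - 1 - a := Int.toNat_of_nonneg (by omega)
    have h3 : ((((k - 1 - a : ℤ).toNat : ℕ) : ℤ) : ℝ) = ((k - 1 - a : ℤ) : ℝ) := by rw [h2]
    push_cast at h3
    rw [← h3]
  · have h1 : (Finset.Ico (0 : ℤ) k).filter (fun b => off 3 k a b < 0) =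
        Finset.Ico (a + 1) (k : ℤ) := by
      ext b
      rw [Finset.mem_filter, Finset.mem_Ico, Finset.mem_Ico]
      unfold off
      rw [if_neg (by decide)]
      constructor
      · rintro ⟨⟨h2, h3⟩, h4⟩
        constructor <;> omega
      · rintro ⟨h2, h3⟩
        refine ⟨⟨by omega, by omega⟩, by omega⟩
    rw [h1, Int.card_Ico]
    have h2 : (((k - (a + 1) : ℤ).toNat : ℕ) : ℤ) = k - (a + 1) := Int.toNat_of_nonneg (by omega)
    have h3 : ((((k - (a + 1) : ℤ).toNat : ℕ) : ℤ) : ℝ) = ((k - (a + 1) : ℤ) : ℝ) := by rw [h2]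
    push_cast at h3
    have h4 : (((k - (a + 1) : ℤ).toNat : ℕ) : ℝ) = k - (a + 1) := by
      rw [← h3]
    rw [h4]
    ring

private theorem eg_czero {κ : Fin 4} (hκ : 2 ≤ (κ : ℕ)) (k : ℕ) :
    (∑ x ∈ board k, if off κ k x.1 x.2 = 0 then (1 : ℝ) else 0) = k := by
  rw [← eg_sum k fun a b => if off κ k a b = 0 then (1 : ℝ) else 0]
  have h : ∀ a ∈ Finset.Ico (0 : ℤ) k,
      (∑ b ∈ Finset.Ico (0 : ℤ) k, if off κ k a b = 0 then (1 : ℝ) else 0) = 1 := by
    intro a ha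
    rw [Finset.mem_Ico] at ha
    obtain ⟨a0, a1⟩ := ha
    rcases eg_kap hκ with rfl | rfl
    · rw [Finset.sum_eq_single_of_mem ((k : ℤ) - 1 - a)]
      · rw [if_pos]
        unfold off
        rw [if_pos rfl]
        ring
      · rw [Finset.mem_Ico]
        constructor <;> omega
      · intro b _ hb
        rw [if_neg]
        unfold off
        rw [if_pos rfl]
        intro h1
        exact hb (by omega)
    · rw [Finset.sum_eq_single_of_mem a]
      · rw [if_pos]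
        unfold off
        rw [if_neg (by decide)]
        ring
      · rw [Finset.mem_Ico]
        exact ⟨a0, a1⟩
      · intro b _ hb
        rw [if_neg]
        unfold off
        rw [if_neg (by decide)]
        intro h1
        exact hb (by omega)
  rw [Finset.sum_congr rfl h, Finset.sum_const, Int.card_Ico, nsmul_eq_mul, mul_one, sub_zero,
    Int.toNat_natCast]

/-- a line meets at most `n` squares -/
private theorem eg_few {κ : Fin 4} (hκ : 2 ≤ (κ : ℕ)) (n : ℕ) (s : ℤ) {g : ℤ × ℤ → ℝ} {η : ℝ}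
    (hη : 0 ≤ η) (hg : ∀ e ∈ board n, ln κ e = s → g e ≤ η) :
    (∑ e ∈ board n, if ln κ e = s then g e else 0) ≤ n * η := by
  rw [← Finset.sum_filter]
  have h1 : ((board n).filter (fun e => ln κ e = s)).card ≤ n := by
    have h2 : ((board n).filter (fun e => ln κ e = s)).card ≤ (Finset.Ico (0 : ℤ) n).card := by
      refine Finset.card_le_card_of_injOn (fun e => e.1) ?_ ?_
      · intro e he
        rw [Finset.mem_coe, Finset.mem_filter, eg_board] at he
        rw [Finset.mem_coe, Finset.mem_Ico]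
        exact he.1.1
      · intro e he e' he' hee
        rw [Finset.mem_coe, Finset.mem_filter] at he he'
        have h3 := he.2
        have h4 := he'.2
        have h5 : e.1 = e'.1 := hee
        refine Prod.ext h5 ?_
        rcases eg_kap hκ with rfl | rfl
        · rw [Pool.Agent.NQ.ln_two] at h3 h4
          omega
        · rw [Pool.Agent.NQ.ln_three] at h3 h4
          omega
    rwa [Int.card_Ico, sub_zero, Int.toNat_natCast] at h2
  calc ∑ e ∈ (board n).filter (fun e => ln κ e = s), g e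
      ≤ ∑ e ∈ (board n).filter (fun e => ln κ e = s), η :=
        Finset.sum_le_sum fun e he => hg e (Finset.mem_filter.1 he).1 (Finset.mem_filter.1 he).2
    _ = ((board n).filter (fun e => ln κ e = s)).card * η := by
        rw [Finset.sum_const, nsmul_eq_mul]
    _ ≤ n * η := mul_le_mul_of_nonneg_right (by exact_mod_cast h1) hη

private theorem eg_mem {n k : ℕ} {e x : ℤ × ℤ} (he : e ∈ board n) (hx : x ∈ board k) :
    (k * e.1 + x.1, k * e.2 + x.2) ∈ board (n * k) := by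
  rw [eg_board] at he hx ⊢
  obtain ⟨⟨h1, h2⟩, h3, h4⟩ := he
  obtain ⟨⟨h5, h6⟩, h7, h8⟩ := hx
  push_cast
  refine ⟨⟨by positivity, ?_⟩, by positivity, ?_⟩
  · nlinarith
  · nlinarith

private theorem eg_near {k : ℕ} {x y : ℤ × ℤ} (hx : x ∈ board k) (hy : y ∈ board k) :
    |x.1 - y.1| ≤ k ∧ |x.2 - y.2| ≤ k := by
  rw [eg_board] at hx hy
  rw [abs_le, abs_le]
  refine ⟨⟨?_, ?_⟩, ?_, ?_⟩ <;> omega

private theorem eg_osc {L : ℝ} (hL : 1 ≤ L) {n k : ℕ} (hn : 1 ≤ n) (hk : 1 ≤ k)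
    {W : ℤ × ℤ → ℝ} {A B : ℤ → ℝ} (h : Rf L (n * k) W A B) {e : ℤ × ℤ} (he : e ∈ board n) :
    ∀ x ∈ board k, ∀ y ∈ board k, |W (k * e.1 + x.1, k * e.2 + x.2) -
      W (k * e.1 + y.1, k * e.2 + y.2)| ≤ 8 * L ^ 3 / (n * k * Real.sqrt n) := by
  intro x hx y hy
  obtain ⟨h1, h2⟩ := eg_near hx hy
  refine eg_hol hL hn hk h (eg_mem he hx) (eg_mem he hy) ?_ ?_
  · have e1 : ((k : ℤ) * e.1 + x.1, (k : ℤ) * e.2 + x.2).1 -
      ((k : ℤ) * e.1 + y.1, (k : ℤ) * e.2 + y.2).1 = x.1 - y.1 := by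
      show (k : ℤ) * e.1 + x.1 - (k * e.1 + y.1) = _
      ring
    rw [e1]
    exact h1
  · have e1 : ((k : ℤ) * e.1 + x.1, (k : ℤ) * e.2 + x.2).2 -
      ((k : ℤ) * e.1 + y.1, (k : ℤ) * e.2 + y.2).2 = x.2 - y.2 := by
      show (k : ℤ) * e.2 + x.2 - (k * e.2 + y.2) = _
      ring
    rw [e1]
    exact h2

private theorem eg_partA {L : ℝ} (hL : 1 ≤ L) {n k : ℕ} (hn : 1 ≤ n) (hk : 1 ≤ k)
    {W : ℤ × ℤ → ℝ} {A B : ℤ → ℝ} (h : Rf L (n * k) W A B) {κ : Fin 4} (hκ : 2 ≤ (κ : ℕ))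
    (s : ℤ) :
    |Mm n k W κ s - ((k : ℝ) - 1) / 2 * dsum n (cz n k W) κ s| ≤ 8 * L ^ 3 * k / Real.sqrt n := by
  have hn0 : (0 : ℝ) < n := by
    have : 0 < n := hn
    positivity
  have hk0 : (0 : ℝ) < k := by
    have : 0 < k := hk
    positivity
  have hk1 : (1 : ℝ) ≤ k := by exact_mod_cast hk
  have hsn : 0 < Real.sqrt n := Real.sqrt_pos.2 hn0
  obtain ⟨η, hη⟩ : ∃ η, η = 8 * L ^ 3 / (n * k * Real.sqrt n) := ⟨_, rfl⟩
  have hη0 : 0 ≤ η := by rw [hη]; positivity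
  have e0 : Mm n k W κ s - ((k : ℝ) - 1) / 2 * dsum n (cz n k W) κ s =
      ∑ e ∈ board n, if ln κ e = s then
        ((∑ x ∈ board k, if off κ k x.1 x.2 < 0 then W (k * e.1 + x.1, k * e.2 + x.2) else 0) -
          ((k : ℝ) - 1) / 2 * cz n k W e) else 0 := by
    rw [eg_Mm, eg_dsum, Finset.mul_sum, ← Finset.sum_sub_distrib]
    refine Finset.sum_congr rfl fun e _ => ?_
    by_cases hs : ln κ e = s
    · rw [if_pos hs, if_pos hs, if_pos hs]
    · rw [if_neg hs, if_neg hs, if_neg hs, mul_zero, sub_zero]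
  have e1 : ∀ e ∈ board n, |(∑ x ∈ board k, if off κ k x.1 x.2 < 0 then
      W (k * e.1 + x.1, k * e.2 + x.2) else 0) - ((k : ℝ) - 1) / 2 * cz n k W e| ≤
      (k : ℝ) ^ 2 * η := by
    intro e he
    have h1 := eg_avg (T := board k) (fun x => off κ k x.1 x.2 < 0)
      (fun x => W (k * e.1 + x.1, k * e.2 + x.2)) (eg_osc hL hn hk h he)
    rw [eg_card, eg_cneg hκ, ← eg_cz hk W he, ← hη] at h1
    obtain ⟨ns, hns⟩ : ∃ ns, ns = ∑ x ∈ board k, (if off κ k x.1 x.2 < 0 then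
      W (k * e.1 + x.1, k * e.2 + x.2) else 0) := ⟨_, rfl⟩
    rw [← hns] at h1 ⊢
    have h2 : (k : ℝ) ^ 2 * ns - (k : ℝ) * ((k : ℝ) - 1) / 2 * (k * cz n k W e) =
        (k : ℝ) ^ 2 * (ns - ((k : ℝ) - 1) / 2 * cz n k W e) := by ring
    have h3 : (k : ℝ) * ((k : ℝ) - 1) / 2 * (k : ℝ) ^ 2 * η =
        (k : ℝ) ^ 2 * ((k : ℝ) * ((k : ℝ) - 1) / 2 * η) := by ring
    rw [h2, h3, abs_mul, abs_of_pos (by positivity : (0 : ℝ) < (k : ℝ) ^ 2)] at h1
    have h4 := le_of_mul_le_mul_left h1 (by positivity : (0 : ℝ) < (k : ℝ) ^ 2)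
    refine h4.trans (mul_le_mul_of_nonneg_right ?_ hη0)
    nlinarith
  rw [e0]
  refine (Finset.abs_sum_le_sum_abs _ _).trans ?_
  have e2 : ∑ e ∈ board n, |if ln κ e = s then
        ((∑ x ∈ board k, if off κ k x.1 x.2 < 0 then W (k * e.1 + x.1, k * e.2 + x.2) else 0) -
          ((k : ℝ) - 1) / 2 * cz n k W e) else 0| =
      ∑ e ∈ board n, if ln κ e = s then
        |(∑ x ∈ board k, if off κ k x.1 x.2 < 0 then W (k * e.1 + x.1, k * e.2 + x.2) else 0) -
          ((k : ℝ) - 1) / 2 * cz n k W e| else 0 := by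
    refine Finset.sum_congr rfl fun e _ => ?_
    split_ifs
    · rfl
    · exact abs_zero
  rw [e2]
  refine (eg_few hκ n s (by positivity : 0 ≤ (k : ℝ) ^ 2 * η) fun e he _ => e1 e he).trans
    (le_of_eq ?_)
  rw [hη]
  field_simp

private theorem eg_partB {L : ℝ} (hL : 1 ≤ L) {n k : ℕ} (hn : 1 ≤ n) (hk : 1 ≤ k)
    {W : ℤ × ℤ → ℝ} {A B : ℤ → ℝ} (h : Rf L (n * k) W A B) {κ : Fin 4} (hκ : 2 ≤ (κ : ℕ))
    (s : ℤ) :
    dsum n (cz n k W) κ s ≤ 1 - 1 / L + 8 * L ^ 3 / Real.sqrt n := by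
  have hn0 : (0 : ℝ) < n := by
    have : 0 < n := hn
    positivity
  have hk0 : (0 : ℝ) < k := by
    have : 0 < k := hk
    positivity
  have hk0' : (0 : ℤ) < k := by exact_mod_cast hk
  have hsn : 0 < Real.sqrt n := Real.sqrt_pos.2 hn0
  obtain ⟨η, hη⟩ : ∃ η, η = 8 * L ^ 3 / (n * k * Real.sqrt n) := ⟨_, rfl⟩
  have hη0 : 0 ≤ η := by rw [hη]; positivity
  -- the fine diagonal
  have hfine : dsum (n * k) W κ (k * s + oc κ k) ≤ 1 - 1 / L := by
    rcases eg_kap hκ with rfl | rfl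
    · have h1 := h.bd.sd (k * s + oc 2 k)
      unfold hS at h1
      linarith
    · have h1 := h.bd.dd (k * s + oc 3 k)
      unfold hD at h1
      linarith
  have e0 : dsum (n * k) W κ (k * s + oc κ k) = ∑ e ∈ board n, if ln κ e = s then
      (∑ x ∈ board k, if off κ k x.1 x.2 = 0 then W (k * e.1 + x.1, k * e.2 + x.2) else 0)
      else 0 := by
    rw [eg_dsum, eg_blk hk]
    refine Finset.sum_congr rfl fun e _ => ?_
    by_cases hs : ln κ e = s
    · rw [if_pos hs]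
      refine Finset.sum_congr rfl fun x hx => ?_
      refine if_congr ?_ rfl rfl
      rw [eg_ln hκ, hs]
      constructor
      · intro h1
        linarith
      · intro h1
        rw [h1, add_zero]
    · rw [if_neg hs]
      refine Finset.sum_eq_zero fun x hx => ?_
      obtain ⟨h3, h4⟩ := eg_off (κ := κ) k hx
      rw [if_neg]
      rw [eg_ln hκ]
      intro h5
      rcases lt_or_gt_of_ne hs with h7 | h7
      · have h8 : ln κ e - s ≤ -1 := by omega
        nlinarith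
      · have h8 : 1 ≤ ln κ e - s := by omega
        nlinarith
  have e1 : ∀ e ∈ board n, cz n k W e - (∑ x ∈ board k, if off κ k x.1 x.2 = 0 then
      W (k * e.1 + x.1, k * e.2 + x.2) else 0) ≤ k * η := by
    intro e he
    have h1 := eg_avg (T := board k) (fun x => off κ k x.1 x.2 = 0)
      (fun x => W (k * e.1 + x.1, k * e.2 + x.2)) (eg_osc hL hn hk h he)
    rw [eg_card, eg_czero hκ, ← eg_cz hk W he, ← hη] at h1
    obtain ⟨ns, hns⟩ : ∃ ns, ns = ∑ x ∈ board k, (if off κ k x.1 x.2 = 0 then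
      W (k * e.1 + x.1, k * e.2 + x.2) else 0) := ⟨_, rfl⟩
    rw [← hns] at h1 ⊢
    have h2 : (k : ℝ) ^ 2 * ns - (k : ℝ) * (k * cz n k W e) =
        (k : ℝ) ^ 2 * (ns - cz n k W e) := by ring
    have h3 : (k : ℝ) * (k : ℝ) ^ 2 * η = (k : ℝ) ^ 2 * (k * η) := by ring
    rw [h2, h3, abs_mul, abs_of_pos (by positivity : (0 : ℝ) < (k : ℝ) ^ 2)] at h1
    have h4 := le_of_mul_le_mul_left h1 (by positivity : (0 : ℝ) < (k : ℝ) ^ 2)
    rw [abs_le] at h4
    linarith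
  have e2 : dsum n (cz n k W) κ s - dsum (n * k) W κ (k * s + oc κ k) =
      ∑ e ∈ board n, if ln κ e = s then (cz n k W e -
        (∑ x ∈ board k, if off κ k x.1 x.2 = 0 then W (k * e.1 + x.1, k * e.2 + x.2) else 0))
        else 0 := by
    rw [e0, eg_dsum, ← Finset.sum_sub_distrib]
    refine Finset.sum_congr rfl fun e _ => ?_
    by_cases hs : ln κ e = s
    · rw [if_pos hs, if_pos hs, if_pos hs]
    · rw [if_neg hs, if_neg hs, if_neg hs, sub_zero]
  have e3 := eg_few hκ n s (by positivity : 0 ≤ (k : ℝ) * η) fun e he _ => e1 e he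
  rw [← e2] at e3
  have e4 : (n : ℝ) * (k * η) = 8 * L ^ 3 / Real.sqrt n := by
    rw [hη]
    field_simp
  rw [e4] at e3
  linarith

private theorem eg_cznn {n k : ℕ} {W : ℤ × ℤ → ℝ} (hW : ∀ e, 0 ≤ W e) (e : ℤ × ℤ) :
    0 ≤ cz n k W e := by
  unfold cz
  split_ifs
  · exact div_nonneg (Finset.sum_nonneg fun a _ => Finset.sum_nonneg fun b _ => hW _)
      (Nat.cast_nonneg k)
  · exact le_refl 0

private theorem eg_czle {L : ℝ} {n k : ℕ} (hn : 1 ≤ n) (hk : 1 ≤ k)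
    {W : ℤ × ℤ → ℝ} {A B : ℤ → ℝ} (h : Rf L (n * k) W A B) {e : ℤ × ℤ} (he : e ∈ board n) :
    cz n k W e ≤ L / n := by
  have hn0 : (0 : ℝ) < n := by
    have : 0 < n := hn
    positivity
  have hk0 : (0 : ℝ) < k := by
    have : 0 < k := hk
    positivity
  have h1 : k * cz n k W e ≤ k * (L / n) := by
    rw [eg_cz hk W he]
    calc ∑ x ∈ board k, W (k * e.1 + x.1, k * e.2 + x.2)
        ≤ ∑ x ∈ board k, L / ((n * k : ℕ) : ℝ) :=
          Finset.sum_le_sum fun x hx => h.bd.hi _ (eg_mem he hx)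
      _ = k * (L / n) := by
          rw [Finset.sum_const, nsmul_eq_mul, eg_card]
          push_cast
          field_simp
  exact le_of_mul_le_mul_left h1 hk0

/-- neighbouring blocks in a row of blocks -/
private theorem eg_nb {L : ℝ} (hL : 1 ≤ L) {n k : ℕ} (hn : 1 ≤ n) (hk : 1 ≤ k)
    {W : ℤ × ℤ → ℝ} {A B : ℤ → ℝ} (h : Rf L (n * k) W A B) {i j j' : ℤ}
    (he : (i, j) ∈ board n) (he' : (i, j') ∈ board n) (hj : |j - j'| ≤ 1) :
    |cz n k W (i, j) - cz n k W (i, j')| ≤ 8 * L ^ 3 / (n * Real.sqrt n) := by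
  have hn0 : (0 : ℝ) < n := by
    have : 0 < n := hn
    positivity
  have hk0 : (0 : ℝ) < k := by
    have : 0 < k := hk
    positivity
  have hk0' : (0 : ℤ) < k := by exact_mod_cast hk
  have hsn : 0 < Real.sqrt n := Real.sqrt_pos.2 hn0
  have h1 : k * |cz n k W (i, j) - cz n k W (i, j')| ≤ k * (8 * L ^ 3 / (n * Real.sqrt n)) := by
    have h2 : k * |cz n k W (i, j) - cz n k W (i, j')| =
        |k * cz n k W (i, j) - k * cz n k W (i, j')| := by
      rw [← mul_sub, abs_mul, abs_of_pos hk0]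
    rw [h2, eg_cz hk W he, eg_cz hk W he', ← Finset.sum_sub_distrib]
    refine (Finset.abs_sum_le_sum_abs _ _).trans ?_
    have h3 : ∀ x ∈ board k, |W (k * (i, j).1 + x.1, k * (i, j).2 + x.2) -
        W (k * (i, j').1 + x.1, k * (i, j').2 + x.2)| ≤ 8 * L ^ 3 / (n * k * Real.sqrt n) := by
      intro x hx
      refine eg_hol hL hn hk h (eg_mem he hx) (eg_mem he' hx) ?_ ?_
      · show |(k : ℤ) * i + x.1 - (k * i + x.1)| ≤ k
        rw [sub_self, abs_zero]
        exact hk0'.le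
      · show |(k : ℤ) * j + x.2 - (k * j' + x.2)| ≤ k
        have e1 : (k : ℤ) * j + x.2 - (k * j' + x.2) = k * (j - j') := by ring
        rw [e1, abs_mul, abs_of_pos hk0']
        nlinarith
    refine (Finset.sum_le_sum h3).trans (le_of_eq ?_)
    rw [Finset.sum_const, nsmul_eq_mul, eg_card]
    field_simp
  exact le_of_mul_le_mul_left h1 hk0

private theorem eg_out {n k : ℕ} {W : ℤ × ℤ → ℝ} {e : ℤ × ℤ} (he : e ∉ board n) :
    cz n k W e = 0 := by
  unfold cz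
  rw [if_neg he]

private noncomputable def ind (c j : ℤ) : ℝ := if j = c then 1 else 0

private theorem ind_nn (c j : ℤ) : 0 ≤ ind c j := by
  unfold ind
  split_ifs
  · exact zero_le_one
  · exact le_refl 0

private theorem ind_self (c : ℤ) : ind c c = 1 := if_pos rfl

private theorem eg_step {L : ℝ} (hL : 1 ≤ L) {n k : ℕ} (hn : 1 ≤ n) (hk : 1 ≤ k)
    {W : ℤ × ℤ → ℝ} {A B : ℤ → ℝ} (h : Rf L (n * k) W A B) {i j j' : ℤ}
    (hi : 0 ≤ i ∧ i < n) (hj : |j - j'| ≤ 1) :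
    |cz n k W (i, j) - cz n k W (i, j')| ≤ 8 * L ^ 3 / (n * Real.sqrt n) +
      L / n * (ind 0 j + ind ((n : ℤ) - 1) j + ind 0 j' + ind ((n : ℤ) - 1) j') := by
  have hn0 : (0 : ℝ) < n := by
    have : 0 < n := hn
    positivity
  have hsn : 0 < Real.sqrt n := Real.sqrt_pos.2 hn0
  have hLn : 0 ≤ L / n := by positivity
  have h8 : 0 ≤ 8 * L ^ 3 / (n * Real.sqrt n) := by positivity
  have hs : 0 ≤ L / n * (ind 0 j + ind ((n : ℤ) - 1) j + ind 0 j' + ind ((n : ℤ) - 1) j') := by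
    have i1 := ind_nn 0 j
    have i2 := ind_nn ((n : ℤ) - 1) j
    have i3 := ind_nn 0 j'
    have i4 := ind_nn ((n : ℤ) - 1) j'
    positivity
  have hbd : ∀ m : ℤ, (0 ≤ m ∧ m < n) → (i, m) ∈ board n := fun m hm => eg_board.2 ⟨hi, hm⟩
  have hbd' : ∀ m : ℤ, ¬ (0 ≤ m ∧ m < n) → (i, m) ∉ board n := fun m hm h2 =>
    hm (eg_board.1 h2).2
  rw [abs_le] at hj
  have edge : ∀ m m' : ℤ, (0 ≤ m ∧ m < n) → ¬ (0 ≤ m' ∧ m' < n) → -1 ≤ m - m' → m - m' ≤ 1 →
      (1 : ℝ) ≤ ind 0 m + ind ((n : ℤ) - 1) m := by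
    intro m m' h1 h2 h3 h4
    have h5 : m = 0 ∨ m = (n : ℤ) - 1 := by omega
    rcases h5 with rfl | rfl
    · rw [ind_self]
      have := ind_nn ((n : ℤ) - 1) 0
      linarith
    · rw [ind_self]
      have := ind_nn 0 ((n : ℤ) - 1)
      linarith
  by_cases c1 : 0 ≤ j ∧ j < n
  · by_cases c2 : 0 ≤ j' ∧ j' < n
    · have h1 := eg_nb hL hn hk h (hbd j c1) (hbd j' c2) (abs_le.2 hj)
      linarith
    · rw [eg_out (hbd' j' c2), sub_zero, abs_of_nonneg (eg_cznn h.adm.nn _)]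
      have h1 := eg_czle hn hk h (hbd j c1)
      have h2 := edge j j' c1 c2 hj.1 hj.2
      have i3 := ind_nn 0 j'
      have i4 := ind_nn ((n : ℤ) - 1) j'
      have h3 : L / n * 1 ≤ L / n * (ind 0 j + ind ((n : ℤ) - 1) j + ind 0 j' +
        ind ((n : ℤ) - 1) j') := mul_le_mul_of_nonneg_left (by linarith) hLn
      linarith
  · by_cases c2 : 0 ≤ j' ∧ j' < n
    · rw [eg_out (hbd' j c1), zero_sub, abs_neg, abs_of_nonneg (eg_cznn h.adm.nn _)]
      have h1 := eg_czle hn hk h (hbd j' c2)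
      have h2 := edge j' j c2 c1 (by linarith [hj.2]) (by linarith [hj.1])
      have i3 := ind_nn 0 j
      have i4 := ind_nn ((n : ℤ) - 1) j
      have h3 : L / n * 1 ≤ L / n * (ind 0 j + ind ((n : ℤ) - 1) j + ind 0 j' +
        ind ((n : ℤ) - 1) j') := mul_le_mul_of_nonneg_left (by linarith) hLn
      linarith
    · rw [eg_out (hbd' j c1), eg_out (hbd' j' c2), sub_zero, abs_zero]
      linarith

/-- the column of the square of the diagonal `s` in the row `i` -/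
private def jj (κ : Fin 4) (i s : ℤ) : ℤ := if κ = 2 then s - i else i - s

private theorem eg_row {κ : Fin 4} (hκ : 2 ≤ (κ : ℕ)) (n k : ℕ) (W : ℤ × ℤ → ℝ) (s : ℤ) :
    dsum n (cz n k W) κ s = ∑ i ∈ Finset.Ico (0 : ℤ) n, cz n k W (i, jj κ i s) := by
  rw [eg_dsum, ← eg_sum n fun a b => if ln κ (a, b) = s then cz n k W (a, b) else 0]
  refine Finset.sum_congr rfl fun i hi => ?_
  have h1 : ∀ b : ℤ, ln κ (i, b) = s ↔ b = jj κ i s := by
    intro b
    unfold jj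
    rcases eg_kap hκ with rfl | rfl
    · rw [Pool.Agent.NQ.ln_two, if_pos rfl]
      constructor <;> intro h2 <;> dsimp only at * <;> omega
    · rw [Pool.Agent.NQ.ln_three, if_neg (by decide)]
      constructor <;> intro h2 <;> dsimp only at * <;> omega
  have h2 : ∀ b ∈ Finset.Ico (0 : ℤ) n, (if ln κ (i, b) = s then cz n k W (i, b) else 0) =
      if b = jj κ i s then cz n k W (i, jj κ i s) else 0 := by
    intro b _
    by_cases h3 : b = jj κ i s
    · rw [if_pos ((h1 b).2 h3), if_pos h3, h3]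
    · rw [if_neg (fun h4 => h3 ((h1 b).1 h4)), if_neg h3]
  rw [Finset.sum_congr rfl h2, Finset.sum_ite_eq']
  split_ifs with h3
  · rfl
  · rw [eg_out]
    intro h4
    apply h3
    rw [Finset.mem_Ico]
    exact (eg_board.1 h4).2

private theorem eg_ind {κ : Fin 4} (n : ℕ) (c s : ℤ) :
    ∑ i ∈ Finset.Ico (0 : ℤ) n, ind c (jj κ i s) ≤ 1 := by
  unfold ind
  rw [← Finset.sum_filter, Finset.sum_const, nsmul_eq_mul, mul_one]
  have h1 : ((Finset.Ico (0 : ℤ) n).filter (fun i => jj κ i s = c)).card ≤ 1 := by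
    rw [Finset.card_le_one]
    intro a ha b hb
    rw [Finset.mem_filter] at ha hb
    have h2 := ha.2
    have h3 := hb.2
    unfold jj at h2 h3
    split_ifs at h2 h3
    · omega
    · omega
  exact_mod_cast h1

private theorem eg_partC {L : ℝ} (hL : 1 ≤ L) {n k : ℕ} (hn : 1 ≤ n) (hk : 1 ≤ k)
    {W : ℤ × ℤ → ℝ} {A B : ℤ → ℝ} (h : Rf L (n * k) W A B) {κ : Fin 4} (hκ : 2 ≤ (κ : ℕ))
    (s : ℤ) :
    |dsum n (cz n k W) κ s - dsum n (cz n k W) κ (s + 1)| ≤ 12 * L ^ 3 / Real.sqrt n := by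
  have hn0 : (0 : ℝ) < n := by
    have : 0 < n := hn
    positivity
  have hn1 : (1 : ℝ) ≤ n := by exact_mod_cast hn
  have hsn : 0 < Real.sqrt n := Real.sqrt_pos.2 hn0
  rw [eg_row hκ, eg_row hκ, ← Finset.sum_sub_distrib]
  refine (Finset.abs_sum_le_sum_abs _ _).trans ?_
  have hstep : ∀ i ∈ Finset.Ico (0 : ℤ) n,
      |cz n k W (i, jj κ i s) - cz n k W (i, jj κ i (s + 1))| ≤
      8 * L ^ 3 / (n * Real.sqrt n) + L / n * (ind 0 (jj κ i s) + ind ((n : ℤ) - 1) (jj κ i s) +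
        ind 0 (jj κ i (s + 1)) + ind ((n : ℤ) - 1) (jj κ i (s + 1))) := by
    intro i hi
    rw [Finset.mem_Ico] at hi
    refine eg_step hL hn hk h hi ?_
    unfold jj
    split_ifs
    · rw [abs_le]
      constructor <;> omega
    · rw [abs_le]
      constructor <;> omega
  refine (Finset.sum_le_sum hstep).trans ?_
  rw [Finset.sum_add_distrib, Finset.sum_const, Int.card_Ico, sub_zero, Int.toNat_natCast,
    nsmul_eq_mul, ← Finset.mul_sum, Finset.sum_add_distrib, Finset.sum_add_distrib,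
    Finset.sum_add_distrib]
  have i1 := eg_ind (κ := κ) n 0 s
  have i2 := eg_ind (κ := κ) n ((n : ℤ) - 1) s
  have i3 := eg_ind (κ := κ) n 0 (s + 1)
  have i4 := eg_ind (κ := κ) n ((n : ℤ) - 1) (s + 1)
  have hLn : 0 ≤ L / n := by positivity
  have h1 : (n : ℝ) * (8 * L ^ 3 / (n * Real.sqrt n)) = 8 * L ^ 3 / Real.sqrt n := by
    field_simp
  rw [h1]
  have h2 := mul_le_mul_of_nonneg_left (add_le_add (add_le_add (add_le_add i1 i2) i3) i4) hLn
  have h3 : L / n * (1 + 1 + 1 + 1) ≤ 4 * L ^ 3 / Real.sqrt n := by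
    have h4 : Real.sqrt n ≤ n := by
      rw [Real.sqrt_le_left hn0.le]
      nlinarith
    have h5 : L / n * (1 + 1 + 1 + 1) = 4 * L / n := by ring
    rw [h5]
    have h6 : L ≤ L ^ 3 := by
      have h7 : 1 ≤ L ^ 2 := one_le_pow₀ hL
      nlinarith
    exact div_le_div₀ (by positivity) (by linarith) hsn h4
  have h4 : 8 * L ^ 3 / Real.sqrt n + 4 * L ^ 3 / Real.sqrt n = 12 * L ^ 3 / Real.sqrt n := by
    ring
  linarith

theorem coarse_reg (L : ℝ) (hL : 1 ≤ L) : ∃ (C : ℝ) (n0 : ℕ), 1 ≤ C ∧ ∀ (n k : ℕ) (W : ℤ × ℤ → ℝ) (A B : ℤ → ℝ),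
    n0 ≤ n → 1 ≤ n → 1 ≤ k → Rf L (n * k) W A B → ∀ κ : Fin 4, 2 ≤ (κ : ℕ) → ∀ s : ℤ,
      0 ≤ dsum n (cz n k W) κ s ∧ dsum n (cz n k W) κ s ≤ 1 - 1 / (2 * L) ∧
      |dsum n (cz n k W) κ s - dsum n (cz n k W) κ (s + 1)| ≤ C / Real.sqrt n ∧
      |Mm n k W κ s - ((k : ℝ) - 1) / 2 * dsum n (cz n k W) κ s| ≤ C * k / Real.sqrt n := by
  refine ⟨12 * L ^ 3, ⌈256 * L ^ 8⌉₊, ?_, ?_⟩
  · have h1 : 1 ≤ L ^ 3 := one_le_pow₀ hL
    linarith
  intro n k W A B hn0 hn hk h κ hκ s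
  have hnp : (0 : ℝ) < n := by
    have : 0 < n := hn
    positivity
  have hsn : 0 < Real.sqrt n := Real.sqrt_pos.2 hnp
  have hLp : 0 < L := by linarith
  refine ⟨?_, ?_, eg_partC hL hn hk h hκ s, ?_⟩
  · unfold dsum
    exact Finset.sum_nonneg fun e _ => eg_cznn h.adm.nn e
  · refine (eg_partB hL hn hk h hκ s).trans ?_
    have h1 : 256 * L ^ 8 ≤ n := (Nat.le_ceil _).trans (by exact_mod_cast hn0)
    have h2 : 16 * L ^ 4 ≤ Real.sqrt n := by
      refine Real.le_sqrt_of_sq_le ?_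
      calc (16 * L ^ 4) ^ 2 = 256 * L ^ 8 := by ring
        _ ≤ (n : ℝ) := h1
    have h3 : 8 * L ^ 3 / Real.sqrt n ≤ 1 / (2 * L) := by
      rw [div_le_div_iff₀ hsn (by positivity)]
      calc 8 * L ^ 3 * (2 * L) = 16 * L ^ 4 := by ring
        _ ≤ 1 * Real.sqrt n := by linarith
    have h4 : 1 / L = 1 / (2 * L) + 1 / (2 * L) := by
      field_simp
      norm_num
    linarith
  · refine (eg_partA hL hn hk h hκ s).trans (div_le_div_of_nonneg_right ?_ hsn.le)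
    have h1 : 0 ≤ L ^ 3 * k := by positivity
    nlinarith

end Pool.Agent.NQL
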