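import Pool.Agent.NQL.Defs

/-!
# NQL-ABas: combinatorics of instances

Lines, free squares and double counting.
-/

set_option autoImplicit false

open Finset

namespace Pool.Agent.NQL

open Pool.Agent.NQ (board dsum F Ent Dg phi ln Q Qset QS NonAtt bern)
open Pool.Agent.NQR (Adm Opt Bd Rf hS hD hh InR)

theorem two_lines {e e' : ℤ × ℤ} {k k' : Fin 4} (hk : k ≠ k') (h : ln k e = ln k e') (h' : ln k' e = ln k' e') :
    e = e' := by
  have key : e.1 = e'.1 ∧ e.2 = e'.2 := by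
    fin_cases k <;> fin_cases k' <;> simp [ln] at h h' hk ⊢ <;> omega
  exact Prod.ext key.1 key.2

theorem mem_Sq {N : ℕ} {I : Finset Li} {e : ℤ × ℤ} : e ∈ Sq N I ↔ e ∈ board N ∧ ∀ k, (k, ln k e) ∈ I := by
  unfold Sq
  rw [mem_filter]

theorem mem_Sl {N : ℕ} {I : Finset Li} {l : Li} {e : ℤ × ℤ} : e ∈ Sl N I l ↔ e ∈ Sq N I ∧ ln l.1 e = l.2 := by
  unfold Sl
  rw [mem_filter]
  exact Iff.rfl

theorem mem_rm {I : Finset Li} {e : ℤ × ℤ} {l : Li} : l ∈ rm I e ↔ l ∈ I ∧ ln l.1 e ≠ l.2 := by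
  unfold rm
  rw [mem_filter]
  exact Iff.rfl

theorem mem_Sq_rm {N : ℕ} {I : Finset Li} {e e' : ℤ × ℤ} :
    e' ∈ Sq N (rm I e) ↔ e' ∈ Sq N I ∧ ∀ k, ln k e' ≠ ln k e := by
  rw [mem_Sq, mem_Sq]
  constructor
  · rintro ⟨h1, h2⟩
    exact ⟨⟨h1, fun k => (mem_rm.1 (h2 k)).1⟩, fun k => (mem_rm.1 (h2 k)).2.symm⟩
  · rintro ⟨⟨h1, h2⟩, h3⟩
    exact ⟨h1, fun k => mem_rm.2 ⟨h2 k, (h3 k).symm⟩⟩

theorem mem_full {N : ℕ} {l : Li} : l ∈ full N ↔ ∃ e ∈ board N, ln l.1 e = l.2 := by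
  unfold full
  rw [mem_biUnion]
  constructor
  · rintro ⟨e, he, hl⟩
    obtain ⟨k, -, rfl⟩ := mem_image.1 hl
    exact ⟨e, he, rfl⟩
  · rintro ⟨e, he, hl⟩
    exact ⟨e, he, mem_image.2 ⟨l.1, mem_univ _, Prod.ext rfl hl⟩⟩

theorem Sq_full (N : ℕ) : Sq N (full N) = board N := by
  ext e
  rw [mem_Sq]
  exact ⟨fun h => h.1, fun h => ⟨h, fun k => mem_full.2 ⟨e, h, rfl⟩⟩⟩

private theorem abs_filt {I : Finset Li} {e : ℤ × ℤ} (he : ∀ k, (k, ln k e) ∈ I) (f : Li → ℝ) :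
    ∑ l ∈ I.filter (fun l => On e l), f l = ∑ k : Fin 4, f (k, ln k e) := by
  have h1 : I.filter (fun l => On e l) = univ.image (fun k : Fin 4 => ((k, ln k e) : Li)) := by
    ext l
    rw [mem_filter, mem_image]
    constructor
    · rintro ⟨-, h⟩
      exact ⟨l.1, mem_univ _, Prod.ext rfl h⟩
    · rintro ⟨k, -, rfl⟩
      exact ⟨he k, rfl⟩
  rw [h1, sum_image]
  intro k _ k' _ h
  exact congrArg Prod.fst h

theorem star_sum {N : ℕ} {I : Finset Li} {e : ℤ × ℤ} (he : e ∈ Sq N I) (f : ℤ × ℤ → ℝ) :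
    ∑ e' ∈ Sq N I, f e' = ∑ e' ∈ Sq N (rm I e), f e' + (∑ k : Fin 4, ∑ e' ∈ Sl N I (k, ln k e), f e') - 3 * f e := by
  have h1 : ∑ e' ∈ Sq N (rm I e), f e' =
      ∑ e' ∈ Sq N I, if (∀ k, ln k e' ≠ ln k e) then f e' else 0 := by
    rw [← sum_filter]
    refine sum_congr ?_ fun _ _ => rfl
    ext e'
    rw [mem_Sq_rm, mem_filter]
  have h2 : ∀ k : Fin 4, ∑ e' ∈ Sl N I (k, ln k e), f e' =
      ∑ e' ∈ Sq N I, if ln k e' = ln k e then f e' else 0 := by
    intro k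
    rw [← sum_filter]
    refine sum_congr ?_ fun _ _ => rfl
    ext e'
    rw [mem_Sl, mem_filter]
  have h3 : 3 * f e = ∑ e' ∈ Sq N I, if e' = e then 3 * f e' else 0 := by
    rw [sum_ite_eq' (Sq N I) e, if_pos he]
  rw [h1, h3, sum_congr rfl fun k _ => h2 k, sum_comm, ← sum_add_distrib, ← sum_sub_distrib]
  refine sum_congr rfl fun e' _ => ?_
  by_cases hee : e' = e
  · subst hee
    simp only [ne_eq, not_true_eq_false, forall_const, if_true, if_false, sum_const, card_univ,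
      Fintype.card_fin, nsmul_eq_mul]
    push_cast
    ring
  · rw [if_neg hee]
    by_cases hall : ∀ k, ln k e' ≠ ln k e
    · rw [if_pos hall, sum_eq_zero fun k _ => if_neg (hall k)]
      ring
    · rw [if_neg hall]
      push Not at hall
      obtain ⟨k, hk⟩ := hall
      rw [sum_eq_single k, if_pos hk]
      · ring
      · intro k' _ hk'
        refine if_neg fun h => hee ?_
        exact two_lines hk' h hk
      · intro h
        exact absurd (mem_univ k) h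

theorem line_sum {N : ℕ} {I : Finset Li} (f : ℤ × ℤ → Li → ℝ) :
    ∑ l ∈ I, ∑ e ∈ Sl N I l, f e l = ∑ e ∈ Sq N I, ∑ k : Fin 4, f e (k, ln k e) := by
  have h1 : ∀ l ∈ I, ∑ e ∈ Sl N I l, f e l = ∑ e ∈ Sq N I, if On e l then f e l else 0 := by
    intro l _
    rw [← sum_filter]
    rfl
  rw [sum_congr rfl h1, sum_comm]
  refine sum_congr rfl fun e he => ?_
  rw [← sum_filter]
  exact abs_filt (mem_Sq.1 he).2 _

theorem rm_sum {N : ℕ} {I : Finset Li} {e : ℤ × ℤ} (he : e ∈ Sq N I) (f : Li → ℝ) :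
    ∑ l ∈ I, f l = ∑ l ∈ rm I e, f l + ∑ k : Fin 4, f (k, ln k e) := by
  rw [← abs_filt (mem_Sq.1 he).2 f, add_comm]
  exact (sum_filter_add_sum_filter_not I (fun l => On e l) f).symm

private theorem abs_erase {N : ℕ} {I : Finset Li} {e : ℤ × ℤ} (he : e ∈ Sq N I) (k : Fin 4) :
    ((rm I e).filter (fun l => l.1 = k)).card + 1 = (I.filter (fun l => l.1 = k)).card := by
  have h1 : (rm I e).filter (fun l => l.1 = k) =
      (I.filter (fun l => l.1 = k)).erase (k, ln k e) := by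
    ext l
    rw [mem_filter, mem_rm, mem_erase, mem_filter]
    constructor
    · rintro ⟨⟨h1, h2⟩, rfl⟩
      refine ⟨fun h => h2 ?_, h1, rfl⟩
      exact (congrArg Prod.snd h).symm
    · rintro ⟨h1, h2, rfl⟩
      exact ⟨⟨h2, fun h => h1 (Prod.ext rfl h.symm)⟩, rfl⟩
  rw [h1, card_erase_add_one]
  exact mem_filter.2 ⟨(mem_Sq.1 he).2 k, rfl⟩

theorem vd_rm {N m : ℕ} {I : Finset Li} (h : Vd N (m + 1) I) {e : ℤ × ℤ} (he : e ∈ Sq N I) : Vd N m (rm I e) := by
  refine ⟨(filter_subset _ _).trans h.sub, fun k hk => ?_, fun k hk => ?_⟩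
  · have h1 := abs_erase he k
    have h2 := h.crc k hk
    omega
  · have h1 := abs_erase he k
    have h2 := h.cdg k hk
    omega

private theorem abs_full {N : ℕ} (k : Fin 4) (a b : ℤ)
    (h : ∀ s : ℤ, (∃ e ∈ board N, ln k e = s) ↔ a ≤ s ∧ s < b) :
    ((full N).filter (fun l => l.1 = k)).card = (b - a).toNat := by
  have h1 : (full N).filter (fun l => l.1 = k) = (Ico a b).image (fun s => ((k, s) : Li)) := by
    ext l
    rw [mem_filter, mem_full, mem_image]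
    constructor
    · rintro ⟨h1, rfl⟩
      exact ⟨l.2, mem_Ico.2 ((h l.2).1 h1), rfl⟩
    · rintro ⟨s, hs, rfl⟩
      exact ⟨(h s).2 (mem_Ico.1 hs), rfl⟩
  rw [h1, card_image_of_injective _ (fun s s' hss => congrArg Prod.snd hss), Int.card_Ico]

private theorem abs_board {N : ℕ} {e : ℤ × ℤ} :
    e ∈ board N ↔ (0 ≤ e.1 ∧ e.1 < N) ∧ 0 ≤ e.2 ∧ e.2 < N := by
  unfold board
  rw [mem_product, mem_Ico, mem_Ico]

theorem vd_full {N : ℕ} (hN : 1 ≤ N) : Vd N N (full N) := by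
  have hN' : (1 : ℤ) ≤ N := by exact_mod_cast hN
  have h0 : ((full N).filter (fun l => l.1 = 0)).card = N := by
    rw [abs_full 0 0 N]
    · simp
    · intro s
      constructor
      · rintro ⟨e, he, rfl⟩
        exact (abs_board.1 he).1
      · intro hs
        exact ⟨(s, 0), abs_board.2 ⟨hs, le_rfl, by show (0 : ℤ) < N; omega⟩, rfl⟩
  have h1 : ((full N).filter (fun l => l.1 = 1)).card = N := by
    rw [abs_full 1 0 N]
    · simp
    · intro s
      constructor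
      · rintro ⟨e, he, rfl⟩
        exact (abs_board.1 he).2
      · intro hs
        exact ⟨(0, s), abs_board.2 ⟨⟨le_rfl, by show (0 : ℤ) < N; omega⟩, hs⟩, rfl⟩
  have h2 : ((full N).filter (fun l => l.1 = 2)).card + 1 = N + N := by
    rw [abs_full 2 0 (2 * N - 1)]
    · omega
    · intro s
      constructor
      · rintro ⟨e, he, rfl⟩
        have := abs_board.1 he
        show 0 ≤ e.1 + e.2 ∧ e.1 + e.2 < _
        omega
      · intro hs
        refine ⟨(min s (N - 1), s - min s (N - 1)), abs_board.2 ?_, ?_⟩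
        · show (0 ≤ min s ((N : ℤ) - 1) ∧ min s ((N : ℤ) - 1) < N) ∧
            0 ≤ s - min s ((N : ℤ) - 1) ∧ s - min s ((N : ℤ) - 1) < N
          omega
        · show min s ((N : ℤ) - 1) + (s - min s ((N : ℤ) - 1)) = s
          omega
  have h3 : ((full N).filter (fun l => l.1 = 3)).card + 1 = N + N := by
    rw [abs_full 3 (-(N - 1)) N]
    · omega
    · intro s
      constructor
      · rintro ⟨e, he, rfl⟩
        have := abs_board.1 he
        show -((N : ℤ) - 1) ≤ e.1 - e.2 ∧ e.1 - e.2 < N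
        omega
      · intro hs
        refine ⟨(max s 0, max s 0 - s), abs_board.2 ?_, ?_⟩
        · show (0 ≤ max s 0 ∧ max s 0 < (N : ℤ)) ∧ 0 ≤ max s 0 - s ∧ max s 0 - s < (N : ℤ)
          omega
        · show max s 0 - (max s 0 - s) = s
          omega
  refine ⟨subset_rfl, fun k hk => ?_, fun k hk => ?_⟩
  · have hk' : k = 0 ∨ k = 1 := by
      have := k.2
      rcases Nat.lt_or_ge (k : ℕ) 1 with h | h
      · left
        exact Fin.ext (by show (k : ℕ) = 0; omega)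
      · right
        exact Fin.ext (by show (k : ℕ) = 1; omega)
    rcases hk' with rfl | rfl
    · exact h0
    · exact h1
  · have hk' : k = 2 ∨ k = 3 := by
      have := k.2
      rcases Nat.lt_or_ge (k : ℕ) 3 with h | h
      · left
        exact Fin.ext (by show (k : ℕ) = 2; omega)
      · right
        exact Fin.ext (by show (k : ℕ) = 3; omega)
    rcases hk' with rfl | rfl
    · exact h2
    · exact h3

private theorem abs_inj {N : ℕ} {I : Finset Li} (l : Li) {k : Fin 4} (hk : k ≠ l.1) :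
    Set.InjOn (fun e : ℤ × ℤ => ((k, ln k e) : Li)) (Sl N I l) := by
  intro e he e' he' h
  have h1 := (mem_Sl.1 (mem_coe.1 he)).2
  have h2 := (mem_Sl.1 (mem_coe.1 he')).2
  exact two_lines hk (congrArg Prod.snd h) (h1.trans h2.symm)

theorem Sl_card {N m : ℕ} {I : Finset Li} (h : Vd N m I) {l : Li} (hl : l ∈ I) : (Sl N I l).card ≤ m := by
  have key : ∀ k : Fin 4, (k : ℕ) < 2 → k ≠ l.1 → (Sl N I l).card ≤ m := by
    intro k hk hkl
    rw [← h.crc k hk]
    refine card_le_card_of_injOn (fun e : ℤ × ℤ => ((k, ln k e) : Li)) ?_ (abs_inj l hkl)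
    intro e he
    exact mem_filter.2 ⟨(mem_Sq.1 (mem_Sl.1 he).1).2 k, rfl⟩
  by_cases h0 : l.1 = 0
  · exact key 1 (by decide) (by rw [h0]; decide)
  · exact key 0 (by decide) (fun h => h0 h.symm)

theorem Sq_card {N m : ℕ} {I : Finset Li} (h : Vd N m I) : (Sq N I).card ≤ m ^ 2 := by
  have h0 := h.crc 0 (by decide)
  have h1 := h.crc 1 (by decide)
  have h2 : (Sq N I).card ≤
      ((I.filter (fun l => l.1 = 0)) ×ˢ (I.filter (fun l => l.1 = 1))).card := by
    refine card_le_card_of_injOn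
      (fun e : ℤ × ℤ => (((0, ln 0 e) : Li), ((1, ln 1 e) : Li))) ?_ ?_
    · intro e he
      have he' := (mem_Sq.1 he).2
      exact mem_product.2 ⟨mem_filter.2 ⟨he' 0, rfl⟩, mem_filter.2 ⟨he' 1, rfl⟩⟩
    · intro e _ e' _ hee
      have e1 : ln 0 e = ln 0 e' := congrArg (fun p : Li × Li => p.1.2) hee
      have e2 : ln 1 e = ln 1 e' := congrArg (fun p : Li × Li => p.2.2) hee
      exact two_lines (k := 0) (k' := 1) (by decide) e1 e2
  rw [card_product, h0, h1] at h2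
  rw [pow_two]
  exact h2

theorem ga_sum {N m : ℕ} {I : Finset Li} (h : Vd N m I) : ∑ l ∈ I, ga l ^ 2 = 2 * m ∧ ∑ l ∈ I, ga l = 0 := by
  have h0 : ∑ l ∈ I, (if l.1 = 0 then (1 : ℝ) else 0) = m := by
    rw [sum_boole, h.crc 0 (by decide)]
  have h1 : ∑ l ∈ I, (if l.1 = 1 then (1 : ℝ) else 0) = m := by
    rw [sum_boole, h.crc 1 (by decide)]
  constructor
  · have e1 : ∀ l ∈ I, ga l ^ 2 = (if l.1 = 0 then (1 : ℝ) else 0) + (if l.1 = 1 then (1 : ℝ) else 0) := by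
      intro l _
      unfold ga
      by_cases h2 : l.1 = 0
      · have h3 : l.1 ≠ 1 := by rw [h2]; decide
        rw [if_pos h2, if_pos h2, if_neg h3]
        norm_num
      · by_cases h3 : l.1 = 1
        · rw [if_neg h2, if_pos h3, if_neg h2, if_pos h3]
          norm_num
        · rw [if_neg h2, if_neg h3, if_neg h2, if_neg h3]
          norm_num
    rw [sum_congr rfl e1, sum_add_distrib, h0, h1]
    ring
  · have e1 : ∀ l ∈ I, ga l = (if l.1 = 0 then (1 : ℝ) else 0) - (if l.1 = 1 then (1 : ℝ) else 0) := by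
      intro l _
      unfold ga
      by_cases h2 : l.1 = 0
      · have h3 : l.1 ≠ 1 := by rw [h2]; decide
        rw [if_pos h2, if_pos h2, if_neg h3]
        norm_num
      · by_cases h3 : l.1 = 1
        · rw [if_neg h2, if_pos h3, if_neg h2, if_pos h3]
          norm_num
        · rw [if_neg h2, if_neg h3, if_neg h2, if_neg h3]
          norm_num
    rw [sum_congr rfl e1, sum_sub_distrib, h0, h1, sub_self]

private theorem abs_ga (e : ℤ × ℤ) (x : ℝ) :
    ∑ k : Fin 4, ga (k, ln k e) * x = 0 := by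
  rw [Fin.sum_univ_four]
  have a0 : ga (0, ln 0 e) = 1 := by simp [ga]
  have a1 : ga (1, ln 1 e) = -1 := by simp [ga]
  have a2 : ga (2, ln 2 e) = 0 := by simp [ga]
  have a3 : ga (3, ln 3 e) = 0 := by simp [ga]
  rw [a0, a1, a2, a3]
  ring

theorem ga_line {N : ℕ} {I : Finset Li} (f : ℤ × ℤ → ℝ) : ∑ l ∈ I, ga l * ∑ e ∈ Sl N I l, f e = 0 := by
  have h1 : ∑ l ∈ I, ga l * ∑ e ∈ Sl N I l, f e = ∑ l ∈ I, ∑ e ∈ Sl N I l, ga l * f e :=
    sum_congr rfl fun l _ => mul_sum _ _ _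
  rw [h1, line_sum (fun e l => ga l * f e)]
  exact sum_eq_zero fun e _ => abs_ga e (f e)

theorem ds_ga (e : ℤ × ℤ) : ds ga e = 0 := by
  unfold ds
  have := abs_ga e 1
  simpa using this

theorem cross1 {N : ℕ} {I : Finset Li} (l : Li) {k : Fin 4} (hk : k ≠ l.1) (f : Li → ℝ) (hf : ∀ l' ∈ I, 0 ≤ f l') :
    ∑ e ∈ Sl N I l, f (k, ln k e) ≤ ∑ l' ∈ I, f l' := by
  rw [← sum_image (g := fun e : ℤ × ℤ => ((k, ln k e) : Li)) (f := f) (abs_inj l hk)]
  refine sum_le_sum_of_subset_of_nonneg ?_ fun l' hl' _ => hf l' hl'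
  intro l' hl'
  obtain ⟨e, he, rfl⟩ := mem_image.1 hl'
  exact (mem_Sq.1 (mem_Sl.1 he).1).2 k

theorem cross {N : ℕ} {I : Finset Li} (l : Li) {k : Fin 4} (hk : k ≠ l.1) (w : ℤ × ℤ → ℝ) (u : Li → ℝ) :
    ∑ e ∈ Sl N I l, |w e * u (k, ln k e)| ≤
      Real.sqrt (∑ e ∈ Sl N I l, w e ^ 2) * Real.sqrt (∑ l' ∈ I, u l' ^ 2) := by
  have h1 : ∑ e ∈ Sl N I l, |w e * u (k, ln k e)| ≤
      Real.sqrt (∑ e ∈ Sl N I l, |w e| ^ 2) * Real.sqrt (∑ e ∈ Sl N I l, |u (k, ln k e)| ^ 2) := by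
    rw [sum_congr rfl fun e _ => abs_mul (w e) (u (k, ln k e))]
    exact Real.sum_mul_le_sqrt_mul_sqrt _ _ _
  refine h1.trans ?_
  simp only [sq_abs]
  refine mul_le_mul_of_nonneg_left (Real.sqrt_le_sqrt ?_) (Real.sqrt_nonneg _)
  exact cross1 l hk (fun l' => u l' ^ 2) fun l' _ => sq_nonneg _

end Pool.Agent.NQL
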