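import Pool.Agent.NQL.Defs
import Pool.Agent.NQL.ABas

/-!
# NQL-ACo: coercivity of the Hessian form from codegrees of the rows
-/

set_option autoImplicit false

open Finset

namespace Pool.Agent.NQL

open Pool.Agent.NQ (board dsum F Ent Dg phi ln Q Qset QS NonAtt bern)
open Pool.Agent.NQR (Adm Opt Bd Rf hS hD hh InR)

private theorem ta_id {ι : Type*} (s : Finset ι) (ω c : ι → ℝ) :
    ∑ x ∈ s, ∑ x' ∈ s, ω x * ω x' * (c x - c x') ^ 2 =
      2 * (∑ x ∈ s, ω x) * (∑ x ∈ s, ω x * c x ^ 2) - 2 * (∑ x ∈ s, ω x * c x) ^ 2 := by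
  have h1 : ∀ x x', ω x * ω x' * (c x - c x') ^ 2 =
      (ω x * c x ^ 2) * ω x' + ω x * (ω x' * c x' ^ 2) - 2 * ((ω x * c x) * (ω x' * c x')) := by
    intro x x'
    ring
  simp only [h1, Finset.sum_sub_distrib, Finset.sum_add_distrib, ← Finset.mul_sum, ← Finset.sum_mul]
  ring

private theorem tb_two {c1 : ℝ} {m : ℕ} (hm : 1 ≤ m) (R C : Finset ℤ)
    (hR : R.card = m) (W : ℤ → ℤ → ℝ) (hW : ∀ x ∈ R, ∀ y ∈ C, 0 ≤ W x y)
    (hcol : ∀ y ∈ C, ∑ x ∈ R, W x y ≤ 2)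
    (hcg : ∀ x ∈ R, ∀ x' ∈ R, x ≠ x' → c1 / m ≤ ∑ y ∈ C, W x y * W x' y) (a b : ℤ → ℝ) :
    c1 / (4 * m) * (2 * m * ∑ x ∈ R, a x ^ 2 - 2 * (∑ x ∈ R, a x) ^ 2) ≤
      ∑ x ∈ R, ∑ y ∈ C, W x y * (a x + b y) ^ 2 := by
  have hmR : (0 : ℝ) < m := by exact_mod_cast hm
  have h1 : ∑ x ∈ R, ∑ x' ∈ R, (a x - a x') ^ 2 =
      2 * m * ∑ x ∈ R, a x ^ 2 - 2 * (∑ x ∈ R, a x) ^ 2 := by
    have h0 := ta_id R (fun _ => (1 : ℝ)) a
    simp only [one_mul, Finset.sum_const, hR, nsmul_eq_mul, mul_one] at h0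
    exact h0
  rw [← h1]
  calc c1 / (4 * m) * ∑ x ∈ R, ∑ x' ∈ R, (a x - a x') ^ 2
      = ∑ x ∈ R, ∑ x' ∈ R, c1 / m * (a x - a x') ^ 2 / 4 := by
        rw [Finset.mul_sum]
        refine Finset.sum_congr rfl fun x _ => ?_
        rw [Finset.mul_sum]
        refine Finset.sum_congr rfl fun x' _ => ?_
        field_simp
    _ ≤ ∑ x ∈ R, ∑ x' ∈ R, (∑ y ∈ C, W x y * W x' y) * (a x - a x') ^ 2 / 4 := by
        refine Finset.sum_le_sum fun x hx => Finset.sum_le_sum fun x' hx' => ?_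
        by_cases hxx : x = x'
        · subst hxx
          simp
        · have h2 := mul_le_mul_of_nonneg_right (hcg x hx x' hx' hxx) (sq_nonneg (a x - a x'))
          linarith
    _ = ∑ x ∈ R, ∑ x' ∈ R, ∑ y ∈ C, W x y * W x' y * (a x - a x') ^ 2 / 4 := by
        refine Finset.sum_congr rfl fun x _ => Finset.sum_congr rfl fun x' _ => ?_
        rw [Finset.sum_mul, Finset.sum_div]
    _ = ∑ x ∈ R, ∑ y ∈ C, ∑ x' ∈ R, W x y * W x' y * (a x - a x') ^ 2 / 4 := by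
        refine Finset.sum_congr rfl fun x _ => ?_
        rw [Finset.sum_comm]
    _ = ∑ y ∈ C, ∑ x ∈ R, ∑ x' ∈ R, W x y * W x' y * (a x - a x') ^ 2 / 4 := by
        rw [Finset.sum_comm]
    _ ≤ ∑ y ∈ C, ∑ x ∈ R, W x y * (a x + b y) ^ 2 := by
        refine Finset.sum_le_sum fun y hy => ?_
        have h3 := ta_id R (fun x => W x y) (fun x => a x + b y)
        have h4 : ∑ x ∈ R, ∑ x' ∈ R, W x y * W x' y * (a x - a x') ^ 2 / 4 =
            (∑ x ∈ R, ∑ x' ∈ R, W x y * W x' y * ((a x + b y) - (a x' + b y)) ^ 2) / 4 := by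
          rw [Finset.sum_div]
          refine Finset.sum_congr rfl fun x _ => ?_
          rw [Finset.sum_div]
          refine Finset.sum_congr rfl fun x' _ => ?_
          ring
        rw [h4, h3]
        have h5 : 0 ≤ ∑ x ∈ R, W x y * (a x + b y) ^ 2 :=
          Finset.sum_nonneg fun x hx => mul_nonneg (hW x hx y hy) (sq_nonneg _)
        have h6 := mul_le_mul_of_nonneg_right (hcol y hy) h5
        have h7 := sq_nonneg (∑ x ∈ R, W x y * (a x + b y))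
        linarith
    _ = ∑ x ∈ R, ∑ y ∈ C, W x y * (a x + b y) ^ 2 := Finset.sum_comm

private theorem tb_three (R C : Finset ℤ) (W : ℤ → ℤ → ℝ) (hW : ∀ x ∈ R, ∀ y ∈ C, 0 ≤ W x y)
    (hcol : ∀ y ∈ C, 1 / 2 ≤ ∑ x ∈ R, W x y)
    (hrow : ∀ x ∈ R, ∑ y ∈ C, W x y ≤ 2) (a b : ℤ → ℝ) (α : ℝ) :
    1 / 4 * ∑ y ∈ C, (α + b y) ^ 2 - 2 * ∑ x ∈ R, (a x - α) ^ 2 ≤
      ∑ x ∈ R, ∑ y ∈ C, W x y * (a x + b y) ^ 2 := by
  have h1 : ∑ x ∈ R, ∑ y ∈ C, (W x y * ((α + b y) ^ 2 / 2) - W x y * (a x - α) ^ 2) ≤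
      ∑ x ∈ R, ∑ y ∈ C, W x y * (a x + b y) ^ 2 := by
    refine Finset.sum_le_sum fun x hx => Finset.sum_le_sum fun y hy => ?_
    have h2 : (α + b y) ^ 2 / 2 - (a x - α) ^ 2 ≤ (a x + b y) ^ 2 := by
      nlinarith [sq_nonneg ((α + b y) + 2 * (a x - α))]
    have h3 := mul_le_mul_of_nonneg_left h2 (hW x hx y hy)
    linarith
  refine le_trans ?_ h1
  have h2 : ∑ x ∈ R, ∑ y ∈ C, (W x y * ((α + b y) ^ 2 / 2) - W x y * (a x - α) ^ 2) =
      ∑ y ∈ C, (∑ x ∈ R, W x y) * ((α + b y) ^ 2 / 2) - ∑ x ∈ R, (∑ y ∈ C, W x y) * (a x - α) ^ 2 := by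
    simp only [Finset.sum_sub_distrib]
    congr 1
    · rw [Finset.sum_comm]
      refine Finset.sum_congr rfl fun y _ => ?_
      rw [Finset.sum_mul]
    · refine Finset.sum_congr rfl fun x _ => ?_
      rw [Finset.sum_mul]
  rw [h2]
  have h3 : 1 / 4 * ∑ y ∈ C, (α + b y) ^ 2 ≤ ∑ y ∈ C, (∑ x ∈ R, W x y) * ((α + b y) ^ 2 / 2) := by
    rw [Finset.mul_sum]
    refine Finset.sum_le_sum fun y hy => ?_
    have h4 := mul_le_mul_of_nonneg_right (hcol y hy) (show (0 : ℝ) ≤ (α + b y) ^ 2 / 2 by positivity)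
    linarith
  have h5 : ∑ x ∈ R, (∑ y ∈ C, W x y) * (a x - α) ^ 2 ≤ 2 * ∑ x ∈ R, (a x - α) ^ 2 := by
    rw [Finset.mul_sum]
    refine Finset.sum_le_sum fun x hx => ?_
    exact mul_le_mul_of_nonneg_right (hrow x hx) (sq_nonneg _)
  linarith

private theorem tb_core {c1 : ℝ} (hc1 : 0 < c1) (hc1' : c1 ≤ 1) {m : ℕ} (hm : 1 ≤ m) (R C : Finset ℤ)
    (hR : R.card = m) (hC : C.card = m) (W : ℤ → ℤ → ℝ) (hW : ∀ x ∈ R, ∀ y ∈ C, 0 ≤ W x y)
    (hcol : ∀ y ∈ C, 1 / 2 ≤ ∑ x ∈ R, W x y ∧ ∑ x ∈ R, W x y ≤ 2)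
    (hrow : ∀ x ∈ R, ∑ y ∈ C, W x y ≤ 2)
    (hcg : ∀ x ∈ R, ∀ x' ∈ R, x ≠ x' → c1 / m ≤ ∑ y ∈ C, W x y * W x' y) (a b : ℤ → ℝ) :
    ∑ x ∈ R, a x ^ 2 + ∑ y ∈ C, b y ^ 2 ≤ 22 * (∑ x ∈ R, ∑ y ∈ C, W x y * (a x + b y) ^ 2) / c1 +
      (∑ x ∈ R, a x - ∑ y ∈ C, b y) ^ 2 / (2 * m) := by
  have hmR : (0 : ℝ) < m := by exact_mod_cast hm
  obtain ⟨E, hE⟩ : ∃ E, E = ∑ x ∈ R, ∑ y ∈ C, W x y * (a x + b y) ^ 2 := ⟨_, rfl⟩
  obtain ⟨A, hA⟩ : ∃ A, A = ∑ x ∈ R, a x ^ 2 := ⟨_, rfl⟩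
  obtain ⟨B, hB⟩ : ∃ B, B = ∑ y ∈ C, b y ^ 2 := ⟨_, rfl⟩
  obtain ⟨s, hs⟩ : ∃ s, s = ∑ x ∈ R, a x := ⟨_, rfl⟩
  obtain ⟨t, ht⟩ : ∃ t, t = ∑ y ∈ C, b y := ⟨_, rfl⟩
  have h2 := tb_two hm R C hR W hW (fun y hy => (hcol y hy).2) hcg a b
  have h3 := tb_three R C W hW (fun y hy => (hcol y hy).1) hrow a b (s / m)
  have h4 : ∑ y ∈ C, (s / m + b y) ^ 2 = B + 2 * s * t / m + s ^ 2 / m := by
    have h5 : ∀ y, (s / m + b y) ^ 2 = (s / m) ^ 2 + 2 * (s / m) * b y + b y ^ 2 := fun y => by ring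
    simp only [h5, Finset.sum_add_distrib, ← Finset.mul_sum, Finset.sum_const, hC, nsmul_eq_mul]
    rw [← hB, ← ht]
    field_simp
    ring
  have h6 : ∑ x ∈ R, (a x - s / m) ^ 2 = A - s ^ 2 / m := by
    have h5 : ∀ x, (a x - s / m) ^ 2 = (s / m) ^ 2 - 2 * (s / m) * a x + a x ^ 2 := fun y => by ring
    simp only [h5, Finset.sum_add_distrib, Finset.sum_sub_distrib, ← Finset.mul_sum, Finset.sum_const, hR,
      nsmul_eq_mul]
    rw [← hA, ← hs]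
    field_simp
    ring
  rw [h4, h6] at h3
  rw [← hE, ← hA, ← hs] at h2
  rw [← hE] at h3
  rw [← hE, ← hA, ← hB, ← hs, ← ht]
  have hEn : 0 ≤ E := by
    rw [hE]
    exact Finset.sum_nonneg fun x hx => Finset.sum_nonneg fun y hy => mul_nonneg (hW x hx y hy) (sq_nonneg _)
  obtain ⟨P, hP⟩ : ∃ P, P = A - s ^ 2 / m := ⟨_, rfl⟩
  obtain ⟨S, hS⟩ : ∃ S, S = B + 2 * s * t / m + s ^ 2 / m := ⟨_, rfl⟩
  rw [← hP, ← hS] at h3
  have h7 : c1 * P ≤ 2 * E := by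
    have h8 : c1 / (4 * m) * (2 * m * A - 2 * s ^ 2) = c1 * P / 2 := by
      rw [hP]
      field_simp
      ring
    rw [h8] at h2
    linarith
  have h9 : c1 * S ≤ 20 * E := by
    have h10 : c1 * (1 / 4 * S - 2 * P) ≤ c1 * E := mul_le_mul_of_nonneg_left h3 hc1.le
    have h11 : c1 * E ≤ 1 * E := mul_le_mul_of_nonneg_right hc1' hEn
    nlinarith
  have h12 : P + S ≤ 22 * E / c1 := by
    rw [le_div_iff₀ hc1]
    nlinarith
  have h13 : A + B = P + S + (s - t) ^ 2 / (2 * m) - (s + t) ^ 2 / (2 * m) := by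
    rw [hP, hS]
    field_simp
    ring
  have h14 : 0 ≤ (s + t) ^ 2 / (2 * (m : ℝ)) := by positivity
  linarith

private theorem tc_sq {N : ℕ} {I : Finset Li} (w g : ℤ × ℤ → ℝ) (W : ℤ → ℤ → ℝ) (R C : Finset ℤ)
    (hW1 : ∀ x y, (x, y) ∈ Sq N I → W x y = w (x, y)) (hW0 : ∀ x y, (x, y) ∉ Sq N I → W x y = 0)
    (hsub : ∀ x y, (x, y) ∈ Sq N I → x ∈ R ∧ y ∈ C) :
    ∑ e ∈ Sq N I, w e * g e = ∑ x ∈ R, ∑ y ∈ C, W x y * g (x, y) := by
  rw [← Finset.sum_product' R C (fun x y => W x y * g (x, y))]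
  have h1 : Sq N I ⊆ R ×ˢ C := by
    rintro ⟨x, y⟩ h
    exact Finset.mem_product.2 (hsub x y h)
  rw [← Finset.sum_subset h1]
  · refine Finset.sum_congr rfl ?_
    rintro ⟨x, y⟩ h
    show w (x, y) * g (x, y) = W x y * g (x, y)
    rw [hW1 x y h]
  · rintro ⟨x, y⟩ _ h
    show W x y * g (x, y) = 0
    rw [hW0 x y h, zero_mul]

private theorem td_part {N m : ℕ} {I : Finset Li} (hv : Vd N m I) (k : Fin 4) (hk : (k : ℕ) < 2) (R : Finset ℤ)
    (hR : ∀ x, x ∈ R ↔ x ∈ Finset.Ico (0 : ℤ) N ∧ ((k, x) : Li) ∈ I) :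
    R.card = m ∧ ∀ f : Li → ℝ, ∑ l ∈ I, (if l.1 = k then f l else 0) = ∑ x ∈ R, f (k, x) := by
  classical
  have h1 : I.filter (fun l => l.1 = k) = R.image (fun x => ((k, x) : Li)) := by
    ext ⟨k', x⟩
    rw [mem_filter, mem_image]
    constructor
    · rintro ⟨h, h'⟩
      have h2 : k' = k := h'
      subst h2
      refine ⟨x, ?_, rfl⟩
      rw [hR]
      refine ⟨?_, h⟩
      obtain ⟨e, he, he'⟩ := mem_full.1 (hv.sub h)
      have he2 : e.1 ∈ Finset.Ico (0 : ℤ) N ∧ e.2 ∈ Finset.Ico (0 : ℤ) N := by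
        unfold Pool.Agent.NQ.board at he
        exact Finset.mem_product.1 he
      have hk3 : k' = 0 ∨ k' = 1 := by
        fin_cases k'
        · exact Or.inl rfl
        · exact Or.inr rfl
        · exact absurd hk (by decide)
        · exact absurd hk (by decide)
      rcases hk3 with rfl | rfl
      · have h3 : e.1 = x := he'
        rw [← h3]
        exact he2.1
      · have h3 : e.2 = x := he'
        rw [← h3]
        exact he2.2
    · rintro ⟨x', hx', h⟩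
      have h2 : k = k' := congrArg Prod.fst h
      have h3 : x' = x := congrArg Prod.snd h
      subst h2 h3
      exact ⟨((hR _).1 hx').2, rfl⟩
  have hinj : Function.Injective (fun x : ℤ => ((k, x) : Li)) := fun x x' h => congrArg Prod.snd h
  constructor
  · rw [← hv.crc k hk, h1, Finset.card_image_of_injective _ hinj]
  · intro f
    rw [← Finset.sum_filter, h1, Finset.sum_image fun x _ x' _ h => hinj h]

open Classical in
theorem coer {c0 c1 : ℝ} (hc0 : 0 < c0) (hc0' : c0 ≤ 1) (hc1 : 0 < c1) (hc1' : c1 ≤ 1) {N m : ℕ} {I : Finset Li}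
    {w : ℤ × ℤ → ℝ} {c : Li → ℝ} (hm : 1 ≤ m) (hv : Vd N m I) (hw : ∀ e ∈ Sq N I, 0 ≤ w e)
    (hrc : ∀ l ∈ I, rc l → 1 / 2 ≤ ∑ e ∈ Sl N I l, w e ∧ ∑ e ∈ Sl N I l, w e ≤ 2)
    (hdg : ∀ l ∈ I, ¬ rc l → ∑ e ∈ Sl N I l, w e ≤ 2) (hc : ∀ l ∈ I, 0 ≤ c l)
    (hcd : ∀ l ∈ I, ¬ rc l → c0 ≤ c l)
    (hcg : ∀ x x' : ℤ, ((0, x) : Li) ∈ I → ((0, x') : Li) ∈ I → x ≠ x' → c1 / m ≤
      ∑ y ∈ Finset.Ico (0 : ℤ) N, if (x, y) ∈ Sq N I ∧ (x', y) ∈ Sq N I then w (x, y) * w (x', y) else 0) :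
    Co N m I w c (c0 * c1 / 200) := by
  classical
  intro δ
  obtain ⟨W, hW⟩ : ∃ W : ℤ → ℤ → ℝ, W = fun x y => if (x, y) ∈ Sq N I then w (x, y) else 0 := ⟨_, rfl⟩
  have hW1 : ∀ x y, (x, y) ∈ Sq N I → W x y = w (x, y) := by
    intro x y h
    rw [hW]
    exact if_pos h
  have hW0 : ∀ x y, (x, y) ∉ Sq N I → W x y = 0 := by
    intro x y h
    rw [hW]
    exact if_neg h
  have hWn : ∀ x y, 0 ≤ W x y := by
    intro x y
    by_cases h : (x, y) ∈ Sq N I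
    · rw [hW1 x y h]
      exact hw _ h
    · rw [hW0 x y h]
  obtain ⟨R, hR⟩ : ∃ R : Finset ℤ, ∀ x, x ∈ R ↔ x ∈ Finset.Ico (0 : ℤ) N ∧ ((0, x) : Li) ∈ I :=
    ⟨(Finset.Ico (0 : ℤ) N).filter (fun x => ((0, x) : Li) ∈ I), fun x => mem_filter⟩
  obtain ⟨C, hC⟩ : ∃ C : Finset ℤ, ∀ y, y ∈ C ↔ y ∈ Finset.Ico (0 : ℤ) N ∧ ((1, y) : Li) ∈ I :=
    ⟨(Finset.Ico (0 : ℤ) N).filter (fun x => ((1, x) : Li) ∈ I), fun x => mem_filter⟩
  obtain ⟨hRc, hRs⟩ := td_part hv 0 (by decide) R hR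
  obtain ⟨hCc, hCs⟩ := td_part hv 1 (by decide) C hC
  have hsub : ∀ x y, (x, y) ∈ Sq N I → x ∈ R ∧ y ∈ C := by
    intro x y h
    obtain ⟨h1, h2⟩ := mem_Sq.1 h
    have h3 : x ∈ Finset.Ico (0 : ℤ) N ∧ y ∈ Finset.Ico (0 : ℤ) N := by
      unfold Pool.Agent.NQ.board at h1
      exact Finset.mem_product.1 h1
    exact ⟨(hR x).2 ⟨h3.1, h2 0⟩, (hC y).2 ⟨h3.2, h2 1⟩⟩
  have hcol : ∀ y ∈ C, ∑ x ∈ R, W x y = ∑ e ∈ Sl N I (1, y), w e := by
    intro y hy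
    have h1 := tc_sq w (fun e => if e.2 = y then 1 else 0) W R C hW1 hW0 hsub
    have h2 : ∑ e ∈ Sl N I (1, y), w e = ∑ e ∈ Sq N I, w e * (if e.2 = y then 1 else 0) := by
      have h3 : Sl N I (1, y) = (Sq N I).filter (fun e => e.2 = y) := by
        ext e
        rw [mem_Sl, mem_filter]
        exact Iff.rfl
      rw [h3, Finset.sum_filter]
      refine Finset.sum_congr rfl fun e _ => ?_
      by_cases h : e.2 = y
      · rw [if_pos h, if_pos h, mul_one]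
      · rw [if_neg h, if_neg h, mul_zero]
    rw [h2, h1]
    refine Finset.sum_congr rfl fun x _ => ?_
    rw [Finset.sum_eq_single y]
    · show W x y = W x y * (if y = y then 1 else 0)
      rw [if_pos rfl, mul_one]
    · intro y' _ hne
      show W x y' * (if y' = y then 1 else 0) = 0
      rw [if_neg hne, mul_zero]
    · intro h
      exact absurd hy h
  have hrow : ∀ x ∈ R, ∑ y ∈ C, W x y = ∑ e ∈ Sl N I (0, x), w e := by
    intro x hx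
    have h1 := tc_sq w (fun e => if e.1 = x then 1 else 0) W R C hW1 hW0 hsub
    have h2 : ∑ e ∈ Sl N I (0, x), w e = ∑ e ∈ Sq N I, w e * (if e.1 = x then 1 else 0) := by
      have h3 : Sl N I (0, x) = (Sq N I).filter (fun e => e.1 = x) := by
        ext e
        rw [mem_Sl, mem_filter]
        exact Iff.rfl
      rw [h3, Finset.sum_filter]
      refine Finset.sum_congr rfl fun e _ => ?_
      by_cases h : e.1 = x
      · rw [if_pos h, if_pos h, mul_one]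
      · rw [if_neg h, if_neg h, mul_zero]
    rw [h2, h1, Finset.sum_comm]
    refine Finset.sum_congr rfl fun y _ => ?_
    rw [Finset.sum_eq_single x]
    · show W x y = W x y * (if x = x then 1 else 0)
      rw [if_pos rfl, mul_one]
    · intro x' _ hne
      show W x' y * (if x' = x then 1 else 0) = 0
      rw [if_neg hne, mul_zero]
    · intro h
      exact absurd hx h
  have hcg' : ∀ x ∈ R, ∀ x' ∈ R, x ≠ x' → c1 / m ≤ ∑ y ∈ C, W x y * W x' y := by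
    intro x hx x' hx' hne
    refine le_trans (hcg x x' ((hR x).1 hx).2 ((hR x').1 hx').2 hne) (le_of_eq ?_)
    have hCs : C ⊆ Finset.Ico (0 : ℤ) N := fun y hy => ((hC y).1 hy).1
    rw [← Finset.sum_subset hCs]
    · refine Finset.sum_congr rfl fun y _ => ?_
      by_cases h : (x, y) ∈ Sq N I ∧ (x', y) ∈ Sq N I
      · rw [if_pos h, hW1 _ _ h.1, hW1 _ _ h.2]
      · rw [if_neg h]
        by_cases h' : (x, y) ∈ Sq N I
        · have h2 : (x', y) ∉ Sq N I := fun h3 => h ⟨h', h3⟩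
          rw [hW0 _ _ h2, mul_zero]
        · rw [hW0 _ _ h', zero_mul]
    · intro y _ hy
      refine if_neg ?_
      rintro ⟨h, -⟩
      exact hy (hsub _ _ h).2
  have rc0 : ∀ x : ℤ, rc ((0, x) : Li) := fun x => by
    show ((0 : Fin 4) : ℕ) < 2
    decide
  have rc1 : ∀ x : ℤ, rc ((1, x) : Li) := fun x => by
    show ((1 : Fin 4) : ℕ) < 2
    decide
  have key := tb_core hc1 hc1' hm R C hRc hCc W (fun x _ y _ => hWn x y)
    (fun y hy => by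
      rw [hcol y hy]
      exact hrc _ ((hC y).1 hy).2 (rc1 y))
    (fun x hx => by
      rw [hrow x hx]
      exact (hrc _ ((hR x).1 hx).2 (rc0 x)).2) hcg' (fun x => δ (0, x)) (fun y => δ (1, y))
  have hsplit : ∀ f : Li → ℝ, ∑ l ∈ I, f l = ∑ x ∈ R, f (0, x) + ∑ y ∈ C, f (1, y) +
      ∑ l ∈ I.filter (fun l => ¬ rc l), f l := by
    intro f
    rw [← hRs f, ← hCs f, Finset.sum_filter, ← Finset.sum_add_distrib, ← Finset.sum_add_distrib]
    refine Finset.sum_congr rfl ?_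
    rintro ⟨k, z⟩ _
    fin_cases k
    · simp [rc]
    · simp [rc]
    · simp [rc]
    · simp [rc]
  -- the diagonal part
  obtain ⟨D, hD⟩ : ∃ D, D = ∑ l ∈ I.filter (fun l => ¬ rc l), δ l ^ 2 := ⟨_, rfl⟩
  have hDn : 0 ≤ D := by
    rw [hD]
    exact Finset.sum_nonneg fun l _ => sq_nonneg _
  obtain ⟨G, hG⟩ : ∃ G, G = gs I δ ^ 2 / (2 * m) := ⟨_, rfl⟩
  have hGn : 0 ≤ G := by
    rw [hG]
    positivity
  obtain ⟨E, hE⟩ : ∃ E, E = ∑ x ∈ R, ∑ y ∈ C, W x y * (δ (0, x) + δ (1, y)) ^ 2 := ⟨_, rfl⟩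
  have hEn : 0 ≤ E := by
    rw [hE]
    exact Finset.sum_nonneg fun x _ => Finset.sum_nonneg fun y _ => mul_nonneg (hWn x y) (sq_nonneg _)
  have hgs : gs I δ = ∑ x ∈ R, δ (0, x) - ∑ y ∈ C, δ (1, y) := by
    unfold gs
    rw [hsplit]
    have h1 : ∑ x ∈ R, ga (0, x) * δ (0, x) = ∑ x ∈ R, δ (0, x) := by
      refine Finset.sum_congr rfl fun x _ => ?_
      have : ga (0, x) = 1 := by simp [ga]
      rw [this, one_mul]
    have h2 : ∑ y ∈ C, ga (1, y) * δ (1, y) = - ∑ y ∈ C, δ (1, y) := by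
      rw [← Finset.sum_neg_distrib]
      refine Finset.sum_congr rfl fun x _ => ?_
      have : ga (1, x) = -1 := by simp [ga]
      rw [this, neg_one_mul]
    have h3 : ∑ l ∈ I.filter (fun l => ¬ rc l), ga l * δ l = 0 := by
      refine Finset.sum_eq_zero ?_
      rintro ⟨k, z⟩ hl
      have hl2 : ¬ rc (k, z) := (mem_filter.1 hl).2
      have : ga (k, z) = 0 := by
        fin_cases k
        · exact absurd (rc0 z) hl2
        · exact absurd (rc1 z) hl2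
        · simp [ga]
        · simp [ga]
      rw [this, zero_mul]
    rw [h1, h2, h3]
    ring
  have key2 : ∑ x ∈ R, δ (0, x) ^ 2 + ∑ y ∈ C, δ (1, y) ^ 2 ≤ 22 * E / c1 + G := by
    rw [hG, hgs, hE]
    exact key
  have hI : ∑ l ∈ I, δ l ^ 2 = ∑ x ∈ R, δ (0, x) ^ 2 + ∑ y ∈ C, δ (1, y) ^ 2 + D := by
    rw [hsplit, hD]
  -- the diagonal line sums
  have hline : ∑ e ∈ Sq N I, w e * (δ (2, ln 2 e) ^ 2 + δ (3, ln 3 e) ^ 2) ≤ 2 * D := by
    have h1 := line_sum (N := N) (I := I) (fun e l => if rc l then 0 else w e * δ l ^ 2)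
    have h2 : ∑ e ∈ Sq N I, w e * (δ (2, ln 2 e) ^ 2 + δ (3, ln 3 e) ^ 2) =
        ∑ e ∈ Sq N I, ∑ k : Fin 4, (fun e l => if rc l then 0 else w e * δ l ^ 2) e (k, ln k e) := by
      refine Finset.sum_congr rfl fun e _ => ?_
      rw [Fin.sum_univ_four]
      have e0 : rc ((0 : Fin 4), ln 0 e) := rc0 _
      have e1 : rc ((1 : Fin 4), ln 1 e) := rc1 _
      have e2 : ¬ rc ((2 : Fin 4), ln 2 e) := by
        show ¬ ((2 : Fin 4) : ℕ) < 2
        decide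
      have e3 : ¬ rc ((3 : Fin 4), ln 3 e) := by
        show ¬ ((3 : Fin 4) : ℕ) < 2
        decide
      show _ = (if rc ((0 : Fin 4), ln 0 e) then 0 else w e * δ (0, ln 0 e) ^ 2) +
        (if rc ((1 : Fin 4), ln 1 e) then 0 else w e * δ (1, ln 1 e) ^ 2) +
        (if rc ((2 : Fin 4), ln 2 e) then 0 else w e * δ (2, ln 2 e) ^ 2) +
        (if rc ((3 : Fin 4), ln 3 e) then 0 else w e * δ (3, ln 3 e) ^ 2)
      rw [if_pos e0, if_pos e1, if_neg e2, if_neg e3]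
      ring
    rw [h2, ← h1, hD, Finset.mul_sum, Finset.sum_filter]
    refine Finset.sum_le_sum fun l hl => ?_
    by_cases h : rc l
    · rw [if_neg (not_not.2 h)]
      refine le_of_eq (Finset.sum_eq_zero fun e _ => ?_)
      exact if_pos h
    · rw [if_pos h]
      have h3 : ∑ e ∈ Sl N I l, (fun e l => if rc l then 0 else w e * δ l ^ 2) e l =
          (∑ e ∈ Sl N I l, w e) * δ l ^ 2 := by
        rw [Finset.sum_mul]
        refine Finset.sum_congr rfl fun e _ => ?_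
        exact if_neg h
      rw [h3]
      exact mul_le_mul_of_nonneg_right (hdg l hl h) (sq_nonneg _)
  -- step 1
  have hq : c0 / 9 * E - c0 / 2 * D ≤ ∑ e ∈ Sq N I, w e * ds δ e ^ 2 := by
    have h1 : ∑ e ∈ Sq N I, w e * (δ (0, ln 0 e) + δ (1, ln 1 e)) ^ 2 = E := by
      rw [hE]
      exact tc_sq w (fun e => (δ (0, ln 0 e) + δ (1, ln 1 e)) ^ 2) W R C hW1 hW0 hsub
    have h2 : ∀ e ∈ Sq N I, c0 / 9 * (w e * (δ (0, ln 0 e) + δ (1, ln 1 e)) ^ 2) -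
        c0 / 4 * (w e * (δ (2, ln 2 e) ^ 2 + δ (3, ln 3 e) ^ 2)) ≤ w e * ds δ e ^ 2 := by
      intro e he
      have h3 : ds δ e = (δ (0, ln 0 e) + δ (1, ln 1 e)) + (δ (2, ln 2 e) + δ (3, ln 3 e)) := by
        unfold ds
        rw [Fin.sum_univ_four]
        ring
      rw [h3]
      generalize δ (0, ln 0 e) + δ (1, ln 1 e) = p
      generalize δ (2, ln 2 e) = u
      generalize δ (3, ln 3 e) = v
      have h4 : c0 / 9 * p ^ 2 - c0 / 4 * (u ^ 2 + v ^ 2) ≤ (p + (u + v)) ^ 2 := by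
        have h5 : (u + v) ^ 2 ≤ 2 * (u ^ 2 + v ^ 2) := by nlinarith [sq_nonneg (u - v)]
        have h6 : c0 / 9 * p ^ 2 - c0 / 8 * (u + v) ^ 2 ≤ (p + (u + v)) ^ 2 := by
          obtain ⟨q, hq⟩ : ∃ q, q = u + v := ⟨_, rfl⟩
          rw [← hq]
          have h7 : c0 / 9 * (1 + c0 / 8) ≤ c0 / 8 := by nlinarith
          have h8 : 0 ≤ (p + (1 + c0 / 8) * q) ^ 2 := sq_nonneg _
          have h9 : 0 < 1 + c0 / 8 := by positivity
          have h10 : (1 + c0 / 8) * (c0 / 9 * p ^ 2 - c0 / 8 * q ^ 2) ≤ (1 + c0 / 8) * (p + q) ^ 2 := by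
            have h11 : (c0 / 9 * (1 + c0 / 8)) * p ^ 2 ≤ c0 / 8 * p ^ 2 :=
              mul_le_mul_of_nonneg_right h7 (sq_nonneg _)
            nlinarith
          exact le_of_mul_le_mul_left h10 h9
        have h12 : c0 / 8 * (u + v) ^ 2 ≤ c0 / 8 * (2 * (u ^ 2 + v ^ 2)) :=
          mul_le_mul_of_nonneg_left h5 (by positivity)
        linarith
      have h13 := mul_le_mul_of_nonneg_left h4 (hw e he)
      linarith
    have h14 := Finset.sum_le_sum h2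
    rw [Finset.sum_sub_distrib, ← Finset.mul_sum, ← Finset.mul_sum, h1] at h14
    have h15 : c0 / 4 * ∑ e ∈ Sq N I, w e * (δ (2, ln 2 e) ^ 2 + δ (3, ln 3 e) ^ 2) ≤ c0 / 4 * (2 * D) :=
      mul_le_mul_of_nonneg_left hline (by positivity)
    linarith
  have hcl : c0 * D ≤ ∑ l ∈ I, c l * δ l ^ 2 := by
    rw [hsplit, hD, Finset.mul_sum]
    have h1 : 0 ≤ ∑ x ∈ R, c (0, x) * δ (0, x) ^ 2 :=
      Finset.sum_nonneg fun x hx => mul_nonneg (hc _ ((hR x).1 hx).2) (sq_nonneg _)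
    have h2 : 0 ≤ ∑ y ∈ C, c (1, y) * δ (1, y) ^ 2 :=
      Finset.sum_nonneg fun x hx => mul_nonneg (hc _ ((hC x).1 hx).2) (sq_nonneg _)
    have h3 : ∑ l ∈ I.filter (fun l => ¬ rc l), c0 * δ l ^ 2 ≤
        ∑ l ∈ I.filter (fun l => ¬ rc l), c l * δ l ^ 2 := by
      refine Finset.sum_le_sum fun l hl => ?_
      obtain ⟨hl1, hl2⟩ := mem_filter.1 hl
      exact mul_le_mul_of_nonneg_right (hcd l hl1 hl2) (sq_nonneg _)
    linarith
  -- conclusion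
  rw [hI, ← hG]
  unfold Qf
  have hlam : 0 < c0 * c1 / 200 := by positivity
  have f1 : c0 * c1 / 200 * (∑ x ∈ R, δ (0, x) ^ 2 + ∑ y ∈ C, δ (1, y) ^ 2) ≤
      c0 * c1 / 200 * (22 * E / c1 + G) := mul_le_mul_of_nonneg_left key2 hlam.le
  have f2 : c0 * c1 / 200 * (22 * E / c1 + G) = 22 / 200 * c0 * E + c0 * c1 / 200 * G := by
    field_simp
  have f3 : c0 * c1 ≤ 1 := by nlinarith
  have f4 : c0 * c1 / 200 * G ≤ 1 * G := mul_le_mul_of_nonneg_right (by linarith) hGn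
  have f5 : 22 / 200 * c0 * E ≤ c0 / 9 * E := mul_le_mul_of_nonneg_right (by linarith) hEn
  have f6 : c0 * c1 / 200 * D ≤ c0 / 2 * D := by
    refine mul_le_mul_of_nonneg_right ?_ hDn
    nlinarith
  linarith

end Pool.Agent.NQL
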