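import Pool.Agent.NQL.Defs

/-!
# NQL-AExp: scalar inequalities (Mathlib only)

PLAN. `exp_lb`: `g x = exp x - 1 - x - exp(-|x|) x²/2`; for `x ≥ 0`: `exp x ≥ 1 + x + x²/2` (`Real.quadratic_le_exp_of_nonneg`) and
`exp(-x) ≤ 1`. For `x = -t`, `t ≥ 0`: `exp(-t) - 1 + t ≥ exp(-t) t²/2` is `1 - (1 - t) exp t ≥ t²/2`; the derivative of
`t ↦ 1 - (1-t) exp t - t²/2` is `t exp t - t ≥ 0`. `exp_q`, `exp_c`: `Real.abs_exp_sub_one_sub_id_le`, `Real.exp_bound'`-type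
lemmas (`Real.exp_bound`) . `exp_l`: mean value / `exp x - 1 ≤ x exp x`, `1 - exp(-t) ≤ t`.
`exp_step`: `exp y ≤ 1 + y + y²` for `|y| ≤ 1` (`y = θ f ≤ 1` in absolute value since `|f| ≤ c/m`, `θ c ≤ m`), so
`∑ π exp (θ f) ≤ (1 - a/m + C/m²) + θ b + θ² c²/m² ≤ exp (- a/m + C/m² + θ b + θ² c²/m²)` (`∑ π ≤ 1` follows from `hs1`), and
`(m/(m-1))^a = exp (- a log (1 - 1/m)) ≤ exp (a/m + a/m²)` for `m ≥ 2` (`-log(1-u) ≤ u + u²` for `0 ≤ u ≤ 1/2`),
`1/m² ≤ 1/(m (m-1)) = 1/(m-1) - 1/m`. Here `a ≤ 2`.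
-/

set_option autoImplicit false

open Finset

namespace Pool.Agent.NQL

open Pool.Agent.NQ (board dsum F Ent Dg phi ln Q Qset QS NonAtt bern)
open Pool.Agent.NQR (Adm Opt Bd Rf hS hD hh InR)

private theorem exp_lb_aux {t : ℝ} (ht : 0 ≤ t) : (1 - t) * Real.exp t ≤ 1 - t ^ 2 / 2 := by
  rcases le_total t 1 with h1 | h1
  · have h2 := Real.exp_bound' ht h1 (n := 3) (by norm_num)
    have h3 : ∑ m ∈ range 3, t ^ m / (m.factorial : ℝ) = 1 + t + t ^ 2 / 2 := by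
      simp [sum_range_succ, Nat.factorial]
    rw [h3] at h2
    have h4 : t ^ 3 * ((3 : ℕ) + 1) / ((Nat.factorial 3 : ℕ) * (3 : ℕ)) = 2 / 9 * t ^ 3 := by
      norm_num [Nat.factorial]
      ring
    rw [h4] at h2
    have h5 : (1 - t) * Real.exp t ≤ (1 - t) * (1 + t + t ^ 2 / 2 + 2 / 9 * t ^ 3) :=
      mul_le_mul_of_nonneg_left h2 (by linarith)
    have h6 : 0 ≤ t ^ 3 := by positivity
    have h7 : 0 ≤ t ^ 4 := by positivity
    nlinarith
  · have h2 := Real.quadratic_le_exp_of_nonneg ht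
    have h5 : (1 - t) * Real.exp t ≤ (1 - t) * (1 + t + t ^ 2 / 2) :=
      mul_le_mul_of_nonpos_left h2 (by linarith)
    have h6 : 0 ≤ t ^ 3 := by positivity
    nlinarith

theorem exp_lb (x : ℝ) : Real.exp (-|x|) / 2 * x ^ 2 ≤ Real.exp x - 1 - x := by
  rcases le_total 0 x with hx | hx
  · have h1 := Real.quadratic_le_exp_of_nonneg hx
    have h2 : Real.exp (-|x|) ≤ 1 := Real.exp_le_one_iff.2 (by rw [neg_nonpos]; exact abs_nonneg x)
    have h3 : 0 ≤ x ^ 2 := sq_nonneg x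
    nlinarith
  · rw [abs_of_nonpos hx, neg_neg]
    have h1 := exp_lb_aux (t := -x) (by linarith)
    have h2 : Real.exp x * Real.exp (-x) = 1 := by
      rw [← Real.exp_add, add_neg_cancel, Real.exp_zero]
    have h3 : Real.exp x * ((1 - -x) * Real.exp (-x)) ≤ Real.exp x * (1 - (-x) ^ 2 / 2) :=
      mul_le_mul_of_nonneg_left h1 (Real.exp_pos x).le
    have h4 : Real.exp x * ((1 - -x) * Real.exp (-x)) = 1 + x := by
      calc Real.exp x * ((1 - -x) * Real.exp (-x)) =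
          (1 + x) * (Real.exp x * Real.exp (-x)) := by ring
        _ = 1 + x := by rw [h2, mul_one]
    rw [h4] at h3
    nlinarith

theorem exp_q {x : ℝ} (h : |x| ≤ 1) : |Real.exp x - 1 - x| ≤ x ^ 2 :=
  Real.abs_exp_sub_one_sub_id_le h

theorem exp_c {x : ℝ} (h : |x| ≤ 1) : |Real.exp x - 1 - x - x ^ 2 / 2| ≤ |x| ^ 3 := by
  have h2 := Real.exp_bound h (n := 3) (by norm_num)
  have h3 : ∑ m ∈ range 3, x ^ m / (m.factorial : ℝ) = 1 + x + x ^ 2 / 2 := by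
    simp [sum_range_succ, Nat.factorial]
  rw [h3] at h2
  have h4 : Real.exp x - 1 - x - x ^ 2 / 2 = Real.exp x - (1 + x + x ^ 2 / 2) := by ring
  rw [h4]
  refine h2.trans ?_
  have h5 : 0 ≤ |x| ^ 3 := by positivity
  have h6 : ((Nat.succ 3 : ℕ) : ℝ) / ((Nat.factorial 3 : ℕ) * (3 : ℕ)) ≤ 1 := by
    norm_num [Nat.factorial]
  calc |x| ^ 3 * (((Nat.succ 3 : ℕ) : ℝ) / ((Nat.factorial 3 : ℕ) * (3 : ℕ))) ≤ |x| ^ 3 * 1 :=
        mul_le_mul_of_nonneg_left h6 h5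
    _ = |x| ^ 3 := mul_one _

theorem exp_l (x : ℝ) : |Real.exp x - 1| ≤ |x| * Real.exp |x| := by
  rcases le_total 0 x with hx | hx
  · have h1 : 1 ≤ Real.exp x := Real.one_le_exp hx
    rw [abs_of_nonneg hx, abs_of_nonneg (by linarith)]
    have h2 := Real.add_one_le_exp (-x)
    have h3 : Real.exp x * Real.exp (-x) = 1 := by
      rw [← Real.exp_add, add_neg_cancel, Real.exp_zero]
    have h4 : Real.exp x * (-x + 1) ≤ Real.exp x * Real.exp (-x) :=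
      mul_le_mul_of_nonneg_left h2 (Real.exp_pos x).le
    rw [h3] at h4
    linarith
  · have h1 : Real.exp x ≤ 1 := Real.exp_le_one_iff.2 hx
    rw [abs_of_nonpos hx, abs_of_nonpos (by linarith)]
    have h2 := Real.add_one_le_exp x
    have h3 : 1 ≤ Real.exp (-x) := Real.one_le_exp (by linarith)
    nlinarith

theorem exp_step {ι : Type*} (A : Finset ι) (π f : ι → ℝ) {m a : ℕ} (hm : 2 ≤ m) (ha : a ≤ 2) {b c C θ : ℝ}
    (hπ : ∀ i ∈ A, 0 ≤ π i) (hC : 0 ≤ C) (hs : ∑ i ∈ A, π i ≤ 1 - a / m + C / m ^ 2) (hs1 : ∑ i ∈ A, π i ≤ 1)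
    (hb : ∑ i ∈ A, π i * f i ≤ b) (hc : ∀ i ∈ A, |f i| ≤ c / m) (hθ : 0 ≤ θ) (hθc : θ * c ≤ m) :
    ((m : ℝ) / (m - 1)) ^ a * ∑ i ∈ A, π i * Real.exp (θ * f i) ≤
      Real.exp (θ * b + (θ ^ 2 * c ^ 2 + C + 2) * (1 / ((m : ℝ) - 1) - 1 / m)) := by
  have hmr : (2 : ℝ) ≤ m := by exact_mod_cast hm
  have hm0 : (0 : ℝ) < m := by linarith
  have hm1 : (0 : ℝ) < (m : ℝ) - 1 := by linarith
  have har : (a : ℝ) ≤ 2 := by exact_mod_cast ha
  have ha0 : (0 : ℝ) ≤ a := Nat.cast_nonneg a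
  obtain ⟨u, hu⟩ : ∃ u : ℝ, u = 1 / m := ⟨_, rfl⟩
  have hu0 : 0 < u := by
    rw [hu]
    positivity
  have hu1 : u ≤ 1 / 2 := by
    rw [hu]
    exact one_div_le_one_div_of_le (by norm_num) hmr
  -- the factor
  have hfac : (m : ℝ) / (m - 1) ≤ Real.exp (u + u ^ 2) := by
    have h1 := Real.quadratic_le_exp_of_nonneg (show 0 ≤ u + u ^ 2 by positivity)
    refine le_trans ?_ h1
    rw [div_le_iff₀ hm1]
    have h2 : (m : ℝ) * u = 1 := by
      rw [hu]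
      field_simp
    have h3 : (m : ℝ) = 1 / u := by
      rw [hu]
      field_simp
    have h4 : (m : ℝ) - 1 = (1 - u) / u := by
      rw [h3]
      field_simp
    rw [h4, h3, ← mul_div_assoc]
    apply div_le_div_of_nonneg_right _ hu0.le
    have h5 : 0 ≤ u ^ 2 := sq_nonneg u
    have h6 : 0 ≤ u ^ 2 * (1 - 2 * u) := mul_nonneg h5 (by linarith)
    nlinarith [mul_nonneg h5 hu0.le, mul_nonneg h5 h5, mul_nonneg h6 hu0.le, mul_nonneg h6 h5]
  have hfac0 : 0 ≤ (m : ℝ) / (m - 1) := by positivity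
  have hfacA : ((m : ℝ) / (m - 1)) ^ a ≤ Real.exp (a * (u + u ^ 2)) := by
    refine (pow_le_pow_left₀ hfac0 hfac a).trans (le_of_eq ?_)
    rw [← Real.exp_nat_mul]
  -- the sum
  have hsum : ∑ i ∈ A, π i * Real.exp (θ * f i) ≤
      1 - a / m + C / m ^ 2 + θ * b + θ ^ 2 * c ^ 2 / m ^ 2 := by
    have h1 : ∀ i ∈ A, π i * Real.exp (θ * f i) ≤
        π i + θ * (π i * f i) + θ ^ 2 * c ^ 2 / m ^ 2 * π i := by
      intro i hi
      have hf := hc i hi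
      have hf2 : (f i) ^ 2 ≤ c ^ 2 / m ^ 2 := by
        rw [← div_pow, ← sq_abs (f i)]
        exact pow_le_pow_left₀ (abs_nonneg _) hf 2
      have hth : |θ * f i| ≤ 1 := by
        rw [abs_mul, abs_of_nonneg hθ]
        calc θ * |f i| ≤ θ * (c / m) := mul_le_mul_of_nonneg_left hf hθ
          _ = θ * c / m := by ring
          _ ≤ 1 := by
            rw [div_le_one hm0]
            exact hθc
      have h2 := (abs_le.1 (exp_q hth)).2
      have h3 : Real.exp (θ * f i) ≤ 1 + θ * f i + θ ^ 2 * c ^ 2 / m ^ 2 := by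
        have h4 : (θ * f i) ^ 2 ≤ θ ^ 2 * (c ^ 2 / m ^ 2) := by
          rw [mul_pow]
          exact mul_le_mul_of_nonneg_left hf2 (sq_nonneg θ)
        have h5 : θ ^ 2 * (c ^ 2 / m ^ 2) = θ ^ 2 * c ^ 2 / m ^ 2 := by ring
        linarith
      calc π i * Real.exp (θ * f i) ≤ π i * (1 + θ * f i + θ ^ 2 * c ^ 2 / m ^ 2) :=
            mul_le_mul_of_nonneg_left h3 (hπ i hi)
        _ = _ := by ring
    refine (sum_le_sum h1).trans ?_
    rw [sum_add_distrib, sum_add_distrib, ← mul_sum, ← mul_sum]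
    have h2 : θ * ∑ i ∈ A, π i * f i ≤ θ * b := mul_le_mul_of_nonneg_left hb hθ
    have h3 : θ ^ 2 * c ^ 2 / m ^ 2 * ∑ i ∈ A, π i ≤ θ ^ 2 * c ^ 2 / m ^ 2 * 1 :=
      mul_le_mul_of_nonneg_left hs1 (by positivity)
    linarith
  have hexp : ∑ i ∈ A, π i * Real.exp (θ * f i) ≤
      Real.exp (-(a * u) + C * u ^ 2 + θ * b + θ ^ 2 * c ^ 2 * u ^ 2) := by
    have h1 := Real.add_one_le_exp (-(a * u) + C * u ^ 2 + θ * b + θ ^ 2 * c ^ 2 * u ^ 2)
    refine hsum.trans (le_trans (le_of_eq ?_) h1)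
    rw [hu]
    ring
  have hprod : ((m : ℝ) / (m - 1)) ^ a * ∑ i ∈ A, π i * Real.exp (θ * f i) ≤
      Real.exp (a * (u + u ^ 2)) *
        Real.exp (-(a * u) + C * u ^ 2 + θ * b + θ ^ 2 * c ^ 2 * u ^ 2) := by
    have h0 : 0 ≤ ∑ i ∈ A, π i * Real.exp (θ * f i) :=
      sum_nonneg fun i hi => mul_nonneg (hπ i hi) (Real.exp_pos _).le
    exact mul_le_mul hfacA hexp h0 (Real.exp_pos _).le
  refine hprod.trans ?_
  rw [← Real.exp_add]
  apply Real.exp_le_exp.2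
  have hu2 : u ^ 2 ≤ 1 / ((m : ℝ) - 1) - 1 / m := by
    have h1 : 1 / ((m : ℝ) - 1) - 1 / m = 1 / (((m : ℝ) - 1) * m) := by
      field_simp
      ring
    rw [h1, hu, div_pow, one_pow]
    apply one_div_le_one_div_of_le (by positivity)
    nlinarith
  have h2 : (θ ^ 2 * c ^ 2 + C + a) * u ^ 2 ≤
      (θ ^ 2 * c ^ 2 + C + 2) * (1 / ((m : ℝ) - 1) - 1 / m) := by
    have h3 : 0 ≤ θ ^ 2 * c ^ 2 := by positivity
    calc (θ ^ 2 * c ^ 2 + C + a) * u ^ 2 ≤ (θ ^ 2 * c ^ 2 + C + 2) * u ^ 2 :=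
          mul_le_mul_of_nonneg_right (by linarith) (sq_nonneg u)
      _ ≤ _ := mul_le_mul_of_nonneg_left hu2 (by linarith)
  linarith

end Pool.Agent.NQL
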