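import Pool.Agent.NQL.Defs
import Pool.Agent.NQL.ABas
import Pool.Agent.NQL.AExp

/-!
# NQL-ACvx: convexity of the functional

PLAN. `gw_convex`: `exp x ≥ 1 + x`; `∑_{Sq} w ds δ + ∑_I c δ - ∑_I δ = ∑_{l ∈ I} gr 0 l * δ l` by `line_sum`.
`gf_add`: `wt (z+δ) = wt z * exp (ds δ)`. `st_min`: `gf_add` with `δ = z' - z`, `gw_convex`, the gradient at `0` is zero by `St`.
`near`: replace `δ` by `δ' = δ - s ga`, `s = gs I δ/(2m)`: `ds ga = 0`, `c = 0` on rows and columns and `∑ ga = 0`, so `Gw` is unchanged,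
and `gs I δ' = 0`. So assume `gs I δ = 0`. Let `r = √(∑_{l∈I} δ l²)`. If `r ≤ 1`: for `e ∈ Sq`, `|ds δ e| ≤ 2 r ≤ 2` (the four
lines are in `I`), `exp_lb` gives `Gw δ - Gw 0 ≥ ∑ gr 0 l δ l + (exp (-2)/2) Qf δ ≥ - ρ r + (exp (-2) lam/2) r² ≥ - exp 2 ρ²/(2 lam)`.
If `r > 1`: `δ1 = δ/r`; convexity of `s ↦ Gw (s δ)` (or apply `exp`-convexity termwise): `Gw δ - Gw 0 ≥ r (Gw δ1 - Gw 0)`
`≥ r (-ρ + exp (-2) lam/2) ≥ 0`.
-/

set_option autoImplicit false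

open Finset

namespace Pool.Agent.NQL

open Pool.Agent.NQ (board dsum F Ent Dg phi ln Q Qset QS NonAtt bern)
open Pool.Agent.NQR (Adm Opt Bd Rf hS hD hh InR)

private theorem ds_zero (e : ℤ × ℤ) : ds 0 e = 0 := by
  unfold ds
  simp

private theorem ds_add' (z δ : Li → ℝ) (e : ℤ × ℤ) : ds (z + δ) e = ds z e + ds δ e := by
  unfold ds
  simp only [Pi.add_apply, sum_add_distrib]

private theorem gw_zero (N : ℕ) (I : Finset Li) (w : ℤ × ℤ → ℝ) (c : Li → ℝ) :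
    Gw N I w c 0 = ∑ e ∈ Sq N I, w e + ∑ l ∈ I, c l := by
  unfold Gw
  simp only [ds_zero, Real.exp_zero, mul_one, Pi.zero_apply, sub_zero]

private theorem gr_lin (N : ℕ) (I : Finset Li) (w : ℤ × ℤ → ℝ) (c : Li → ℝ) (δ : Li → ℝ) :
    ∑ l ∈ I, gr N I w c 0 l * δ l = ∑ e ∈ Sq N I, w e * ds δ e + ∑ l ∈ I, (c l * δ l - δ l) := by
  have h1 := line_sum (N := N) (I := I) fun e l => w e * δ l
  have h2 : ∑ e ∈ Sq N I, w e * ds δ e = ∑ e ∈ Sq N I, ∑ k : Fin 4, w e * δ (k, ln k e) :=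
    sum_congr rfl fun e _ => by
      unfold ds
      rw [mul_sum]
  rw [h2, ← h1, ← sum_add_distrib]
  refine sum_congr rfl fun l _ => ?_
  unfold gr
  simp only [ds_zero, Real.exp_zero, mul_one, Pi.zero_apply]
  rw [← sum_mul]
  ring

theorem gw_convex {N : ℕ} {I : Finset Li} {w : ℤ × ℤ → ℝ} {c : Li → ℝ} (hw : ∀ e ∈ Sq N I, 0 ≤ w e)
    (hc : ∀ l ∈ I, 0 ≤ c l) (δ : Li → ℝ) :
    Gw N I w c 0 + ∑ l ∈ I, gr N I w c 0 l * δ l ≤ Gw N I w c δ := by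
  rw [gw_zero, gr_lin]
  have h1 : ∑ e ∈ Sq N I, (w e + w e * ds δ e) ≤ ∑ e ∈ Sq N I, w e * Real.exp (ds δ e) :=
    sum_le_sum fun e he => by
      have h2 := mul_le_mul_of_nonneg_left (Real.add_one_le_exp (ds δ e)) (hw e he)
      linarith
  have h3 : ∑ l ∈ I, (c l + (c l * δ l - δ l)) ≤ ∑ l ∈ I, (c l * Real.exp (δ l) - δ l) :=
    sum_le_sum fun l hl => by
      have h2 := mul_le_mul_of_nonneg_left (Real.add_one_le_exp (δ l)) (hc l hl)
      linarith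
  rw [sum_add_distrib] at h1 h3
  unfold Gw
  linarith

theorem gf_add (N : ℕ) (I : Finset Li) (z δ : Li → ℝ) :
    Gf N I (z + δ) = Gw N I (wt z) (fun l => dg l * Real.exp (z l)) δ - ∑ l ∈ I, z l := by
  unfold Gf Gw
  have h1 : ∑ e ∈ Sq N I, wt (z + δ) e = ∑ e ∈ Sq N I, wt z e * Real.exp (ds δ e) :=
    sum_congr rfl fun e _ => by
      unfold wt
      rw [ds_add', Real.exp_add]
  rw [h1, add_sub_assoc, ← sum_sub_distrib]
  congr 1
  refine sum_congr rfl fun l _ => ?_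
  rw [Pi.add_apply, Real.exp_add]
  ring

theorem gr_add (N : ℕ) (I : Finset Li) (z δ : Li → ℝ) (l : Li) :
    gr N I (wt z) (fun l => dg l * Real.exp (z l)) δ l =
      ∑ e ∈ Sl N I l, wt (z + δ) e + dg l * Real.exp ((z + δ) l) - 1 := by
  unfold gr
  have h1 : ∑ e ∈ Sl N I l, wt (z + δ) e = ∑ e ∈ Sl N I l, wt z e * Real.exp (ds δ e) :=
    sum_congr rfl fun e _ => by
      unfold wt
      rw [ds_add', Real.exp_add]
  rw [h1, Pi.add_apply, Real.exp_add]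
  ring

theorem st_min {N : ℕ} {I : Finset Li} {z : Li → ℝ} (hz : St N I z) (z' : Li → ℝ) : Gf N I z ≤ Gf N I z' := by
  have h1 := gf_add N I z (z' - z)
  have h2 := gf_add N I z 0
  rw [add_sub_cancel] at h1
  rw [add_zero] at h2
  have hdg : ∀ l, 0 ≤ dg l * Real.exp (z l) := fun l => by
    refine mul_nonneg ?_ (Real.exp_pos _).le
    unfold dg
    split_ifs
    · exact le_rfl
    · exact zero_le_one
  have h3 := gw_convex (N := N) (I := I) (w := wt z) (c := fun l => dg l * Real.exp (z l))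
    (fun e _ => (Real.exp_pos _).le) (fun l _ => hdg l) (z' - z)
  have h4 : ∑ l ∈ I, gr N I (wt z) (fun l => dg l * Real.exp (z l)) 0 l * (z' - z) l = 0 :=
    sum_eq_zero fun l hl => by
      rw [gr_add, add_zero, hz l hl, sub_self, zero_mul]
  rw [h4, add_zero] at h3
  rw [h1, h2]
  linarith

/-- the four lines of a free square -/
private theorem ds_sq {N : ℕ} {I : Finset Li} (δ : Li → ℝ) {e : ℤ × ℤ} (he : e ∈ Sq N I) :
    ds δ e ^ 2 ≤ 4 * ∑ l ∈ I, δ l ^ 2 := by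
  have h1 : ds δ e ^ 2 ≤ 4 * ∑ k : Fin 4, δ (k, ln k e) ^ 2 := by
    unfold ds
    have := sq_sum_le_card_mul_sum_sq (s := (univ : Finset (Fin 4)))
      (f := fun k => δ (k, ln k e))
    simpa using this
  have h2 : ∑ k : Fin 4, δ (k, ln k e) ^ 2 ≤ ∑ l ∈ I, δ l ^ 2 := by
    have h3 : ∑ k : Fin 4, δ (k, ln k e) ^ 2 =
        ∑ l ∈ univ.image (fun k : Fin 4 => ((k, ln k e) : Li)), δ l ^ 2 := by
      rw [sum_image]
      intro a _ b _ hab
      exact (Prod.mk.inj hab).1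
    rw [h3]
    refine sum_le_sum_of_subset_of_nonneg ?_ fun _ _ _ => sq_nonneg _
    intro l hl
    obtain ⟨k, _, rfl⟩ := mem_image.1 hl
    exact (mem_Sq.1 he).2 k
  linarith

/-- the quadratic lower bound in the unit ball -/
private theorem loc {N : ℕ} {I : Finset Li} {w : ℤ × ℤ → ℝ} {c : Li → ℝ} (hw : ∀ e ∈ Sq N I, 0 ≤ w e)
    (hc : ∀ l ∈ I, 0 ≤ c l) (δ : Li → ℝ) (h : ∑ l ∈ I, δ l ^ 2 ≤ 1) :
    Gw N I w c 0 + ∑ l ∈ I, gr N I w c 0 l * δ l + Real.exp (-2) / 2 * Qf N I w c δ ≤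
      Gw N I w c δ := by
  have key : ∀ x : ℝ, x ^ 2 ≤ 4 → 1 + x + Real.exp (-2) / 2 * x ^ 2 ≤ Real.exp x := fun x hx => by
    have h1 := exp_lb x
    have h2 : |x| ≤ 2 := abs_le_of_sq_le_sq (by linarith) (by norm_num)
    have h3 : Real.exp (-2) ≤ Real.exp (-|x|) := Real.exp_le_exp.2 (by linarith)
    have h4 : Real.exp (-2) / 2 * x ^ 2 ≤ Real.exp (-|x|) / 2 * x ^ 2 :=
      mul_le_mul_of_nonneg_right (by linarith) (sq_nonneg x)
    linarith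
  rw [gw_zero, gr_lin]
  have h1 : ∑ e ∈ Sq N I, (w e + w e * ds δ e + Real.exp (-2) / 2 * (w e * ds δ e ^ 2)) ≤
      ∑ e ∈ Sq N I, w e * Real.exp (ds δ e) :=
    sum_le_sum fun e he => by
      have h2 := mul_le_mul_of_nonneg_left (key (ds δ e) (by linarith [ds_sq δ he])) (hw e he)
      linarith
  have h3 : ∑ l ∈ I, (c l + (c l * δ l - δ l) + Real.exp (-2) / 2 * (c l * δ l ^ 2)) ≤
      ∑ l ∈ I, (c l * Real.exp (δ l) - δ l) :=
    sum_le_sum fun l hl => by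
      have h4 : δ l ^ 2 ≤ ∑ l ∈ I, δ l ^ 2 :=
        single_le_sum (f := fun l => δ l ^ 2) (fun _ _ => sq_nonneg _) hl
      have h2 := mul_le_mul_of_nonneg_left (key (δ l) (by linarith)) (hc l hl)
      linarith
  rw [sum_add_distrib, sum_add_distrib, ← mul_sum] at h1 h3
  unfold Gw Qf
  linarith

/-- convexity along rays -/
private theorem ray {N : ℕ} {I : Finset Li} {w : ℤ × ℤ → ℝ} {c : Li → ℝ} (hw : ∀ e ∈ Sq N I, 0 ≤ w e)
    (hc : ∀ l ∈ I, 0 ≤ c l) (δ : Li → ℝ) {r : ℝ} (hr : 1 ≤ r) :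
    Gw N I w c 0 + r * (Gw N I w c δ - Gw N I w c 0) ≤ Gw N I w c (r • δ) := by
  have key : ∀ x : ℝ, 1 + r * (Real.exp x - 1) ≤ Real.exp (r * x) := fun x => by
    have h1 := one_add_mul_self_le_rpow_one_add (s := Real.exp x - 1)
      (by linarith [Real.exp_pos x]) hr
    rwa [add_sub_cancel, ← Real.exp_mul, mul_comm x r] at h1
  have hds : ∀ e, ds (r • δ) e = r * ds δ e := fun e => by
    unfold ds
    simp only [Pi.smul_apply, smul_eq_mul, mul_sum]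
  rw [gw_zero]
  have h1 : ∑ e ∈ Sq N I, (w e + r * (w e * Real.exp (ds δ e) - w e)) ≤
      ∑ e ∈ Sq N I, w e * Real.exp (ds (r • δ) e) :=
    sum_le_sum fun e he => by
      have h2 := mul_le_mul_of_nonneg_left (key (ds δ e)) (hw e he)
      rw [hds]
      linarith
  have h3 : ∑ l ∈ I, (c l + r * ((c l * Real.exp (δ l) - δ l) - c l)) ≤
      ∑ l ∈ I, (c l * Real.exp ((r • δ) l) - (r • δ) l) :=
    sum_le_sum fun l hl => by
      have h2 := mul_le_mul_of_nonneg_left (key (δ l)) (hc l hl)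
      rw [Pi.smul_apply, smul_eq_mul]
      linarith
  rw [sum_add_distrib, ← mul_sum, sum_sub_distrib] at h1 h3
  unfold Gw
  linarith

private theorem near_core {N m : ℕ} {I : Finset Li} {w : ℤ × ℤ → ℝ} {c : Li → ℝ} {lam ρ : ℝ}
    (hw : ∀ e ∈ Sq N I, 0 ≤ w e) (hc : ∀ l ∈ I, 0 ≤ c l)
    (hco : Co N m I w c lam) (hlam : 0 < lam) (hρ : 0 ≤ ρ) (hρ1 : ρ ≤ Real.exp (-2) * lam / 2)
    (hg : ∑ l ∈ I, gr N I w c 0 l ^ 2 ≤ ρ ^ 2) (δ : Li → ℝ) (hδ : gs I δ = 0) :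
    Gw N I w c 0 - Real.exp 2 * ρ ^ 2 / (2 * lam) ≤ Gw N I w c δ := by
  -- the bound in the unit ball
  have ball : ∀ (δ : Li → ℝ) (r : ℝ), gs I δ = 0 → 0 ≤ r → r ≤ 1 → ∑ l ∈ I, δ l ^ 2 = r ^ 2 →
      -(ρ * r) + Real.exp (-2) * lam / 2 * r ^ 2 ≤ Gw N I w c δ - Gw N I w c 0 := by
    intro δ r hδ hr0 hr1 hr
    have h1 := loc hw hc δ (by rw [hr]; exact pow_le_one₀ hr0 hr1)
    have h2 := hco δ
    rw [hδ, hr] at h2
    have h3 : lam * r ^ 2 ≤ Qf N I w c δ := by simpa using h2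
    have h4 : (∑ l ∈ I, gr N I w c 0 l * δ l) ^ 2 ≤ (ρ * r) ^ 2 := by
      calc (∑ l ∈ I, gr N I w c 0 l * δ l) ^ 2 ≤
          (∑ l ∈ I, gr N I w c 0 l ^ 2) * ∑ l ∈ I, δ l ^ 2 := sum_mul_sq_le_sq_mul_sq _ _ _
        _ ≤ ρ ^ 2 * r ^ 2 := by
          rw [hr]
          exact mul_le_mul_of_nonneg_right hg (sq_nonneg r)
        _ = _ := by ring
    have h5 := (abs_le.1 (abs_le_of_sq_le_sq h4 (mul_nonneg hρ hr0))).1
    have h6 : Real.exp (-2) / 2 * (lam * r ^ 2) ≤ Real.exp (-2) / 2 * Qf N I w c δ :=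
      mul_le_mul_of_nonneg_left h3 (by positivity)
    linarith
  have he : Real.exp 2 * Real.exp (-2) = 1 := by rw [← Real.exp_add]; simp
  have hnn : 0 ≤ Real.exp 2 * ρ ^ 2 / (2 * lam) := by positivity
  obtain ⟨r, hr⟩ : ∃ r, r = Real.sqrt (∑ l ∈ I, δ l ^ 2) := ⟨_, rfl⟩
  have hs0 : 0 ≤ ∑ l ∈ I, δ l ^ 2 := sum_nonneg fun _ _ => sq_nonneg _
  have hr0 : 0 ≤ r := hr ▸ Real.sqrt_nonneg _
  have hr2 : ∑ l ∈ I, δ l ^ 2 = r ^ 2 := by rw [hr, Real.sq_sqrt hs0]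
  rcases le_total r 1 with h1 | h1
  · have h2 := ball δ r hδ hr0 h1 hr2
    have h3 : -(Real.exp 2 * ρ ^ 2 / (2 * lam)) ≤ -(ρ * r) + Real.exp (-2) * lam / 2 * r ^ 2 := by
      have h4 : 0 ≤ Real.exp 2 / (2 * lam) * (ρ - Real.exp (-2) * lam * r) ^ 2 := by positivity
      have h5 : Real.exp 2 / (2 * lam) * (ρ - Real.exp (-2) * lam * r) ^ 2 =
          Real.exp 2 * ρ ^ 2 / (2 * lam) - ρ * r + Real.exp (-2) * lam / 2 * r ^ 2 := by
        have h6 : Real.exp 2 ≠ 0 := (Real.exp_pos 2).ne'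
        have h7 : Real.exp (-2) = 1 / Real.exp 2 := by field_simp; linarith
        rw [h7]
        field_simp
        ring
      linarith
    linarith
  · have hrp : 0 < r := lt_of_lt_of_le one_pos h1
    have h2 : r • (r⁻¹ • δ) = δ := by rw [smul_smul, mul_inv_cancel₀ hrp.ne', one_smul]
    have h3 := ray hw hc (r⁻¹ • δ) h1
    rw [h2] at h3
    have h4 : gs I (r⁻¹ • δ) = 0 := by
      have : gs I (r⁻¹ • δ) = r⁻¹ * gs I δ := by
        unfold gs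
        rw [mul_sum]
        refine sum_congr rfl fun l _ => ?_
        rw [Pi.smul_apply, smul_eq_mul]
        ring
      rw [this, hδ, mul_zero]
    have h5 : ∑ l ∈ I, (r⁻¹ • δ) l ^ 2 = 1 ^ 2 := by
      have : ∑ l ∈ I, (r⁻¹ • δ) l ^ 2 = r⁻¹ ^ 2 * ∑ l ∈ I, δ l ^ 2 := by
        rw [mul_sum]
        refine sum_congr rfl fun l _ => ?_
        rw [Pi.smul_apply, smul_eq_mul]
        ring
      rw [this, hr2, ← mul_pow, inv_mul_cancel₀ hrp.ne']
    have h6 := ball (r⁻¹ • δ) 1 h4 zero_le_one le_rfl h5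
    have h7 : 0 ≤ Gw N I w c (r⁻¹ • δ) - Gw N I w c 0 := by linarith
    have h8 := mul_nonneg hr0 h7
    linarith

theorem near {N m : ℕ} {I : Finset Li} {w : ℤ × ℤ → ℝ} {c : Li → ℝ} {lam ρ : ℝ} (hm : 1 ≤ m) (hv : Vd N m I)
    (hw : ∀ e ∈ Sq N I, 0 ≤ w e) (hc : ∀ l ∈ I, 0 ≤ c l) (hrc : ∀ l ∈ I, rc l → c l = 0)
    (hco : Co N m I w c lam) (hlam : 0 < lam) (hρ : 0 ≤ ρ) (hρ1 : ρ ≤ Real.exp (-2) * lam / 2)
    (hg : ∑ l ∈ I, gr N I w c 0 l ^ 2 ≤ ρ ^ 2) (δ : Li → ℝ) :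
    Gw N I w c 0 - Real.exp 2 * ρ ^ 2 / (2 * lam) ≤ Gw N I w c δ := by
  obtain ⟨h1, h2⟩ := ga_sum hv
  have hm0 : (0 : ℝ) < 2 * m := by
    have : (1 : ℝ) ≤ m := by exact_mod_cast hm
    linarith
  obtain ⟨s, hs⟩ : ∃ s, s = gs I δ / (2 * m) := ⟨_, rfl⟩
  have h3 : gs I (fun l => δ l - s * ga l) = 0 := by
    have : gs I (fun l => δ l - s * ga l) = gs I δ - s * ∑ l ∈ I, ga l ^ 2 := by
      unfold gs
      rw [mul_sum, ← sum_sub_distrib]
      exact sum_congr rfl fun l _ => by ring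
    rw [this, h1, hs, div_mul_cancel₀ _ hm0.ne', sub_self]
  have h4 : Gw N I w c (fun l => δ l - s * ga l) = Gw N I w c δ := by
    have h5 : ∀ e, ds (fun l => δ l - s * ga l) e = ds δ e := fun e => by
      have h6 : ds (fun l => δ l - s * ga l) e = ds δ e - s * ds ga e := by
        unfold ds
        rw [mul_sum, ← sum_sub_distrib]
      rw [h6, ds_ga, mul_zero, sub_zero]
    unfold Gw
    simp only [h5]
    have h7 : ∑ l ∈ I, (c l * Real.exp (δ l - s * ga l) - (δ l - s * ga l)) =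
        ∑ l ∈ I, (c l * Real.exp (δ l) - δ l) + s * ∑ l ∈ I, ga l := by
      rw [mul_sum, ← sum_add_distrib]
      refine sum_congr rfl fun l hl => ?_
      by_cases hl' : rc l
      · rw [hrc l hl hl']
        ring
      · have h8 : ga l = 0 := by
          unfold rc at hl'
          unfold ga
          rw [if_neg (fun h0 => hl' (by rw [h0]; decide)),
            if_neg (fun h0 => hl' (by rw [h0]; decide))]
        rw [h8]
        ring_nf
    rw [h7, h2, mul_zero, add_zero]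
  rw [← h4]
  exact near_core hw hc hco hlam hρ hρ1 hg _ h3

end Pool.Agent.NQL
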