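import Pool.Agent.NQL.Defs
import Pool.Agent.NQL.ABas

/-! # NQL-BNom: nominal masses and weights -/

set_option autoImplicit false

open Finset

namespace Pool.Agent.NQL

open Pool.Agent.NQ (board dsum F Ent Dg phi ln Q Qset QS NonAtt bern)
open Pool.Agent.NQR (Adm Opt Bd Rf hS hD hh InR)

theorem tt_rc {N m : ℕ} {W : ℤ × ℤ → ℝ} {l : Li} (h : rc l) : TT N W m l = 1 := by
  unfold TT
  rw [if_pos h]

private theorem not_rc {l : Li} (hl : ¬ rc l) : l.1 = 2 ∨ l.1 = 3 := by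
  obtain ⟨k, s⟩ := l
  unfold rc at hl
  simp only at hl ⊢
  fin_cases k <;> simp_all

private theorem p_bd {L : ℝ} {N : ℕ} {W : ℤ × ℤ → ℝ} {A B : ℤ → ℝ} (hR : Rf L N W A B)
    {k : Fin 4} (hk : k = 2 ∨ k = 3) (s : ℤ) : 0 ≤ dsum N W k s ∧ dsum N W k s ≤ 1 - 1 / L := by
  constructor
  · unfold dsum
    exact Finset.sum_nonneg fun e _ => hR.adm.nn e
  · rcases hk with rfl | rfl
    · have h := hR.bd.sd s
      unfold hS at h
      linarith
    · have h := hR.bd.dd s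
      unfold hD at h
      linarith

/-- the denominator -/
private noncomputable def dn (N : ℕ) (W : ℤ × ℤ → ℝ) (m : ℕ) (k : Fin 4) (s : ℤ) : ℝ :=
  1 - (1 - (m : ℝ) / N) * dsum N W k s

private theorem t_bd {N m : ℕ} (h1 : 1 ≤ m) (h2 : m ≤ N) : 0 < (m : ℝ) / N ∧ (m : ℝ) / N ≤ 1 := by
  have hm : (0 : ℝ) < m := by exact_mod_cast h1
  have hN : (0 : ℝ) < N := by exact_mod_cast (by omega : 0 < N)
  refine ⟨div_pos hm hN, ?_⟩
  rw [div_le_one hN]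
  exact_mod_cast h2

private theorem dn_bd {L : ℝ} (_hL : 1 ≤ L) {N m : ℕ} {W : ℤ × ℤ → ℝ} {A B : ℤ → ℝ} (hR : Rf L N W A B)
    (h1 : 1 ≤ m) (h2 : m ≤ N) {k : Fin 4} (hk : k = 2 ∨ k = 3) (s : ℤ) :
    1 / L ≤ dn N W m k s ∧ dn N W m k s ≤ 1 := by
  obtain ⟨ht, ht1⟩ := t_bd h1 h2
  obtain ⟨hp, hp1⟩ := p_bd hR hk s
  unfold dn
  constructor
  · nlinarith [mul_nonneg ht.le hp]
  · nlinarith [mul_nonneg (sub_nonneg.2 ht1) hp]

private theorem dn_pos {L : ℝ} (hL : 1 ≤ L) {N m : ℕ} {W : ℤ × ℤ → ℝ} {A B : ℤ → ℝ} (hR : Rf L N W A B)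
    (h1 : 1 ≤ m) (h2 : m ≤ N) {k : Fin 4} (hk : k = 2 ∨ k = 3) (s : ℤ) : 0 < dn N W m k s :=
  lt_of_lt_of_le (by positivity) (dn_bd hL hR h1 h2 hk s).1

private theorem tt_dg {N m : ℕ} {W : ℤ × ℤ → ℝ} {k : Fin 4} (hk : k = 2 ∨ k = 3) (s : ℤ) :
    TT N W m (k, s) = (m : ℝ) / N * dsum N W k s / dn N W m k s := by
  unfold TT dn
  rw [if_neg]
  unfold rc
  rcases hk with rfl | rfl <;> simp

private theorem one_sub_tt {L : ℝ} (hL : 1 ≤ L) {N m : ℕ} {W : ℤ × ℤ → ℝ} {A B : ℤ → ℝ}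
    (hR : Rf L N W A B) (h1 : 1 ≤ m) (h2 : m ≤ N) {k : Fin 4} (hk : k = 2 ∨ k = 3) (s : ℤ) :
    1 - TT N W m (k, s) = (1 - dsum N W k s) / dn N W m k s := by
  have h3 := dn_pos hL hR h1 h2 hk s
  rw [tt_dg hk, eq_div_iff h3.ne', sub_mul, div_mul_cancel₀ _ h3.ne']
  unfold dn
  ring

theorem tt_bd {L : ℝ} (hL : 1 ≤ L) {N m : ℕ} {W : ℤ × ℤ → ℝ} {A B : ℤ → ℝ} (hR : Rf L N W A B) (h1 : 1 ≤ m)
    (h2 : m ≤ N) {l : Li} (hl : ¬ rc l) :
    0 ≤ TT N W m l ∧ TT N W m l ≤ L * m / N ∧ TT N W m l ≤ 1 - 1 / L := by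
  obtain ⟨k, s⟩ := l
  have hk : k = 2 ∨ k = 3 := not_rc hl
  obtain ⟨ht, ht1⟩ := t_bd h1 h2
  obtain ⟨hp, hp1⟩ := p_bd hR hk s
  obtain ⟨hd, hd1⟩ := dn_bd hL hR h1 h2 hk s
  have hd0 := dn_pos hL hR h1 h2 hk s
  have hLi : 1 / L ≤ 1 := by
    rw [div_le_one (by linarith)]
    exact hL
  have hLd : 1 ≤ L * dn N W m k s := by
    rw [div_le_iff₀ (by linarith)] at hd
    linarith
  refine ⟨?_, ?_, ?_⟩
  · rw [tt_dg hk]
    exact div_nonneg (mul_nonneg ht.le hp) hd0.le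
  · rw [tt_dg hk, div_le_iff₀ hd0]
    have h3 : L * m / N * dn N W m k s = (m : ℝ) / N * (L * dn N W m k s) := by ring
    rw [h3]
    refine mul_le_mul_of_nonneg_left ?_ ht.le
    have h4 : 0 ≤ 1 / L := by positivity
    linarith
  · have h3 := one_sub_tt hL hR h1 h2 hk s
    have h4 : 1 / L ≤ (1 - dsum N W k s) / dn N W m k s := by
      rw [le_div_iff₀ hd0]
      have h4 : 0 ≤ 1 / L := by positivity
      nlinarith
    linarith

private theorem wn_eq {N m : ℕ} {W : ℤ × ℤ → ℝ} {e : ℤ × ℤ} :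
    Wn N W m e = W e / ((m : ℝ) / N * dn N W m 2 (e.1 + e.2) * dn N W m 3 (e.1 - e.2)) := rfl

theorem wn_bd {L : ℝ} (hL : 1 ≤ L) {N m : ℕ} {W : ℤ × ℤ → ℝ} {A B : ℤ → ℝ} (hR : Rf L N W A B) (h1 : 1 ≤ m)
    (h2 : m ≤ N) {e : ℤ × ℤ} (he : e ∈ board N) : 1 / (L * m) ≤ Wn N W m e ∧ Wn N W m e ≤ L ^ 3 / m := by
  obtain ⟨ht, ht1⟩ := t_bd h1 h2
  have hm : (0 : ℝ) < m := by exact_mod_cast h1
  have hN : (0 : ℝ) < N := by exact_mod_cast (by omega : 0 < N)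
  have hL0 : (0 : ℝ) < L := by linarith
  have hlo := hR.bd.lo e he
  have hhi := hR.bd.hi e he
  obtain ⟨ha, ha1⟩ := dn_bd hL hR h1 h2 (Or.inl rfl) (e.1 + e.2)
  obtain ⟨hb, hb1⟩ := dn_bd hL hR h1 h2 (Or.inr rfl) (e.1 - e.2)
  have ha0 := dn_pos hL hR h1 h2 (Or.inl rfl) (e.1 + e.2)
  have hb0 := dn_pos hL hR h1 h2 (Or.inr rfl) (e.1 - e.2)
  rw [wn_eq]
  set a := dn N W m 2 (e.1 + e.2)
  set b := dn N W m 3 (e.1 - e.2)
  have hD : 0 < (m : ℝ) / N * a * b := by positivity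
  have hab1 : a * b ≤ 1 := by nlinarith
  have hab : 1 / L * (1 / L) ≤ a * b := mul_le_mul ha hb (by positivity) ha0.le
  constructor
  · rw [le_div_iff₀ hD]
    have h3 : 1 / (L * m) * ((m : ℝ) / N * a * b) = 1 / (L * N) * (a * b) := by
      field_simp
    rw [h3]
    have h4 : (0 : ℝ) ≤ 1 / (L * N) := by positivity
    nlinarith
  · rw [div_le_iff₀ hD]
    have h3 : L ^ 3 / m * ((m : ℝ) / N * a * b) = L / N * (L ^ 2 * (a * b)) := by
      field_simp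
    rw [h3]
    have h4 : 1 ≤ L ^ 2 * (a * b) := by
      have h5 : L ^ 2 * (1 / L * (1 / L)) = 1 := by
        field_simp
      rw [← h5]
      exact mul_le_mul_of_nonneg_left hab (by positivity)
    have h6 : (0 : ℝ) ≤ L / N := by positivity
    nlinarith

private theorem dn_step {L : ℝ} (hL : 1 ≤ L) {N m : ℕ} {W : ℤ × ℤ → ℝ} {A B : ℤ → ℝ} (hR : Rf L N W A B)
    (h1 : 2 ≤ m) (h2 : m ≤ N) {k : Fin 4} (hk : k = 2 ∨ k = 3) (s : ℤ) :
    dn N W (m - 1) k s = dn N W m k s * (1 - TT N W m (k, s) / m) := by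
  have hm : (0 : ℝ) < m := by exact_mod_cast (by omega : 0 < m)
  have hN : (0 : ℝ) < N := by exact_mod_cast (by omega : 0 < N)
  have hd0 := dn_pos hL hR (by omega : 1 ≤ m) h2 hk s
  have h3 : dn N W m k s * (TT N W m (k, s) / m) = dsum N W k s / N := by
    rw [tt_dg hk]
    field_simp
  rw [mul_sub, h3, mul_one]
  unfold dn
  have h4 : ((m - 1 : ℕ) : ℝ) = m - 1 := by
    rw [Nat.cast_sub (by omega)]
    simp
  rw [h4]
  field_simp
  ring

private theorem tt_ge {L : ℝ} (hL : 1 ≤ L) {N m : ℕ} {W : ℤ × ℤ → ℝ} {A B : ℤ → ℝ} (hR : Rf L N W A B)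
    (h1 : 1 ≤ m) (h2 : m ≤ N) (l : Li) : 0 ≤ TT N W m l ∧ TT N W m l ≤ 1 := by
  by_cases hl : rc l
  · rw [tt_rc hl]
    exact ⟨zero_le_one, le_rfl⟩
  · obtain ⟨h3, -, h4⟩ := tt_bd hL hR h1 h2 hl
    have h5 : 0 ≤ 1 / L := by positivity
    exact ⟨h3, by linarith⟩

theorem wn_step {L : ℝ} (hL : 1 ≤ L) {N m : ℕ} {W : ℤ × ℤ → ℝ} {A B : ℤ → ℝ} (hR : Rf L N W A B) (h1 : 2 ≤ m)
    (h2 : m ≤ N) {e : ℤ × ℤ} (he : e ∈ board N) :
    Wn N W (m - 1) e * ∏ k : Fin 4, (1 - TT N W m (k, ln k e) / m) = Wn N W m e * (1 - 1 / m) := by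
  have hm : (2 : ℝ) ≤ m := by exact_mod_cast h1
  have hN : (0 : ℝ) < N := by exact_mod_cast (by omega : 0 < N)
  rw [Fin.prod_univ_four, tt_rc (l := ((0 : Fin 4), ln 0 e)) (by unfold rc; simp),
    tt_rc (l := ((1 : Fin 4), ln 1 e)) (by unfold rc; simp)]
  rw [Pool.Agent.NQ.ln_two, Pool.Agent.NQ.ln_three, wn_eq, wn_eq,
    dn_step hL hR h1 h2 (Or.inl rfl) (e.1 + e.2), dn_step hL hR h1 h2 (Or.inr rfl) (e.1 - e.2)]
  have ha0 := dn_pos hL hR (by omega : 1 ≤ m) h2 (Or.inl rfl) (e.1 + e.2)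
  have hb0 := dn_pos hL hR (by omega : 1 ≤ m) h2 (Or.inr rfl) (e.1 - e.2)
  obtain ⟨hx, hx1⟩ := tt_ge hL hR (by omega : 1 ≤ m) h2 ((2 : Fin 4), e.1 + e.2)
  obtain ⟨hy, hy1⟩ := tt_ge hL hR (by omega : 1 ≤ m) h2 ((3 : Fin 4), e.1 - e.2)
  set a := dn N W m 2 (e.1 + e.2)
  set b := dn N W m 3 (e.1 - e.2)
  set x := TT N W m ((2 : Fin 4), e.1 + e.2)
  set y := TT N W m ((3 : Fin 4), e.1 - e.2)
  have h4 : ((m - 1 : ℕ) : ℝ) = m - 1 := by
    rw [Nat.cast_sub (by omega)]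
    simp
  have hx2 : 0 < 1 - x / m := by
    have : x / m < 1 := by
      rw [div_lt_one (by linarith)]
      linarith
    linarith
  have hy2 : 0 < 1 - y / m := by
    have : y / m < 1 := by
      rw [div_lt_one (by linarith)]
      linarith
    linarith
  rw [h4]
  have hm1 : (m : ℝ) - 1 ≠ 0 := by
    have : (0 : ℝ) < m - 1 := by linarith
    exact this.ne'
  have hm0 : (m : ℝ) ≠ 0 := by positivity
  have h5 : (1 : ℝ) - 1 / m = (m - 1) / m := by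
    field_simp
  rw [h5]
  set X := 1 - x / m
  set Y := 1 - y / m
  have hX : X ≠ 0 := hx2.ne'
  have hY : Y ≠ 0 := hy2.ne'
  field_simp

theorem tt_step {L : ℝ} (hL : 1 ≤ L) {N m : ℕ} {W : ℤ × ℤ → ℝ} {A B : ℤ → ℝ} (hR : Rf L N W A B) (h1 : 2 ≤ m)
    (h2 : m ≤ N) (l : Li) : TT N W (m - 1) l * (1 - TT N W m l / m) = TT N W m l * (1 - 1 / m) := by
  by_cases hl : rc l
  · rw [tt_rc hl, tt_rc hl]
  · obtain ⟨k, s⟩ := l
    have hk : k = 2 ∨ k = 3 := not_rc hl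
    have hm : (2 : ℝ) ≤ m := by exact_mod_cast h1
    have hN : (0 : ℝ) < N := by exact_mod_cast (by omega : 0 < N)
    obtain ⟨hx, hx1⟩ := tt_ge hL hR (by omega : 1 ≤ m) h2 (k, s)
    have hx2 : 0 < 1 - TT N W m (k, s) / m := by
      have : TT N W m (k, s) / m < 1 := by
        rw [div_lt_one (by linarith)]
        linarith
      linarith
    have hd0 := dn_pos hL hR (by omega : 1 ≤ m) h2 hk s
    have h4 : ((m - 1 : ℕ) : ℝ) = m - 1 := by
      rw [Nat.cast_sub (by omega)]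
      simp
    have h6 : TT N W (m - 1) (k, s) = ((m : ℝ) - 1) / N * dsum N W k s /
        (dn N W m k s * (1 - TT N W m (k, s) / m)) := by
      rw [tt_dg hk, dn_step hL hR h1 h2 hk s, h4]
    have h7 : TT N W m (k, s) = (m : ℝ) / N * dsum N W k s / dn N W m k s := tt_dg hk s
    rw [h6]
    set X := 1 - TT N W m (k, s) / m
    rw [h7]
    have hm0 : (m : ℝ) ≠ 0 := by positivity
    have hX : X ≠ 0 := hx2.ne'
    field_simp

theorem zn_wt {L : ℝ} (hL : 1 ≤ L) {N m : ℕ} {W : ℤ × ℤ → ℝ} {A B : ℤ → ℝ} (hR : Rf L N W A B) (h1 : 1 ≤ m)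
    (h2 : m ≤ N) {e : ℤ × ℤ} (he : e ∈ board N) : wt (zn N W A B m) e = Wn N W m e := by
  obtain ⟨ht, ht1⟩ := t_bd h1 h2
  have hN : (0 : ℝ) < N := by exact_mod_cast (by omega : 0 < N)
  have hL0 : (0 : ℝ) < L := by linarith
  obtain ⟨⟨hx0, hx1⟩, hy0, hy1⟩ := Pool.Agent.NQ.mem_board.1 he
  have hA : 0 < A e.1 := lt_of_lt_of_le (by positivity) (hR.A1 e.1 hx0 hx1)
  have hB : 0 < B e.2 := lt_of_lt_of_le (by positivity) (hR.B1 e.2 hy0 hy1)
  have ha0 := dn_pos hL hR h1 h2 (Or.inl rfl) (e.1 + e.2)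
  have hb0 := dn_pos hL hR h1 h2 (Or.inr rfl) (e.1 - e.2)
  have hp2 : 0 < 1 - dsum N W 2 (e.1 + e.2) := by
    have h3 := (p_bd hR (Or.inl rfl) (e.1 + e.2)).2
    have h4 : 0 < 1 / L := by positivity
    linarith
  have hp3 : 0 < 1 - dsum N W 3 (e.1 - e.2) := by
    have h3 := (p_bd hR (Or.inr rfl) (e.1 - e.2)).2
    have h4 : 0 < 1 / L := by positivity
    linarith
  have hT2 := one_sub_tt hL hR h1 h2 (Or.inl rfl) (e.1 + e.2)
  have hT3 := one_sub_tt hL hR h1 h2 (Or.inr rfl) (e.1 - e.2)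
  have hq2 : 0 < 1 - TT N W m ((2 : Fin 4), e.1 + e.2) := by
    rw [hT2]
    positivity
  have hq3 : 0 < 1 - TT N W m ((3 : Fin 4), e.1 - e.2) := by
    rw [hT3]
    positivity
  unfold wt ds
  rw [Fin.sum_univ_four]
  unfold zn
  simp only [Pool.Agent.NQ.ln_zero, Pool.Agent.NQ.ln_one, Pool.Agent.NQ.ln_two, Pool.Agent.NQ.ln_three,
    if_true, show (1 : Fin 4) ≠ 0 from by decide, show (2 : Fin 4) ≠ 0 from by decide,
    show (2 : Fin 4) ≠ 1 from by decide, show (3 : Fin 4) ≠ 0 from by decide,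
    show (3 : Fin 4) ≠ 1 from by decide, if_false]
  have h5 : Real.log (A e.1) - Real.log ((m : ℝ) / N) / 2 + (Real.log (B e.2) - Real.log ((m : ℝ) / N) / 2) +
      Real.log (1 - TT N W m ((2 : Fin 4), e.1 + e.2)) + Real.log (1 - TT N W m ((3 : Fin 4), e.1 - e.2)) =
      Real.log (A e.1) + Real.log (B e.2) - Real.log ((m : ℝ) / N) +
      Real.log (1 - TT N W m ((2 : Fin 4), e.1 + e.2)) + Real.log (1 - TT N W m ((3 : Fin 4), e.1 - e.2)) := by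
    ring
  rw [h5, Real.exp_add, Real.exp_add, Real.exp_sub, Real.exp_add, Real.exp_log hA, Real.exp_log hB,
    Real.exp_log ht, Real.exp_log hq2, Real.exp_log hq3, hT2, hT3, wn_eq, hR.el e he]
  unfold hh hS hD
  field_simp

theorem zn_dg {L : ℝ} (hL : 1 ≤ L) {N m : ℕ} {W : ℤ × ℤ → ℝ} {A B : ℤ → ℝ} (hR : Rf L N W A B) (h1 : 1 ≤ m)
    (h2 : m ≤ N) {l : Li} (hl : ¬ rc l) : Real.exp (zn N W A B m l) = 1 - TT N W m l := by
  obtain ⟨h3, -, h4⟩ := tt_bd hL hR h1 h2 hl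
  have h5 : 0 < 1 / L := by positivity
  have h0 : l.1 ≠ 0 := by
    rcases not_rc hl with h | h <;> rw [h] <;> decide
  have h1' : l.1 ≠ 1 := by
    rcases not_rc hl with h | h <;> rw [h] <;> decide
  unfold zn
  rw [if_neg h0, if_neg h1', Real.exp_log (by linarith)]

theorem gr_zn {L : ℝ} (hL : 1 ≤ L) {N m : ℕ} {W : ℤ × ℤ → ℝ} {A B : ℤ → ℝ} (hR : Rf L N W A B) (h1 : 1 ≤ m)
    (h2 : m ≤ N) {I : Finset Li} (l : Li) :
    gr N I (wt (zn N W A B m)) (fun l => dg l * Real.exp (zn N W A B m l)) 0 l =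
      YY N W m I l - TT N W m l := by
  unfold gr YY
  have h3 : ∑ e ∈ Sl N I l, wt (zn N W A B m) e * Real.exp (ds 0 e) = ∑ e ∈ Sl N I l, Wn N W m e := by
    refine Finset.sum_congr rfl fun e he => ?_
    have he' : e ∈ board N := (mem_Sq.1 (mem_Sl.1 he).1).1
    rw [zn_wt hL hR h1 h2 he']
    unfold ds
    simp
  rw [h3]
  by_cases hl : rc l
  · rw [tt_rc hl]
    show _ + dg l * Real.exp (zn N W A B m l) * Real.exp ((0 : Li → ℝ) l) - 1 = _
    unfold dg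
    rw [if_pos hl]
    simp
  · show _ + dg l * Real.exp (zn N W A B m l) * Real.exp ((0 : Li → ℝ) l) - 1 = _
    rw [zn_dg hL hR h1 h2 hl]
    unfold dg
    rw [if_neg hl]
    simp
    ring

private theorem step_est {u x y : ℝ} (hu : 0 ≤ u) (hu2 : u ≤ 1 / 2) (hx : 0 ≤ x) (hx1 : x ≤ u) (hy : 0 ≤ y)
    (hy1 : y ≤ u) : |1 / ((1 - u) * (1 - x) * (1 - y)) - (1 + (u + x + y))| ≤ 100 * u ^ 2 := by
  have hP : 1 / 8 ≤ (1 - u) * (1 - x) * (1 - y) := by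
    have h1 : 1 / 2 ≤ 1 - u := by linarith
    have h2 : 1 / 2 ≤ 1 - x := by linarith
    have h3 : 1 / 2 ≤ 1 - y := by linarith
    have h4 : (1 / 2 : ℝ) * (1 / 2) ≤ (1 - u) * (1 - x) := mul_le_mul h1 h2 (by norm_num) (by linarith)
    have h5 : (1 / 2 : ℝ) * (1 / 2) * (1 / 2) ≤ (1 - u) * (1 - x) * (1 - y) :=
      mul_le_mul h4 h3 (by norm_num) (by nlinarith)
    linarith
  have hP0 : 0 < (1 - u) * (1 - x) * (1 - y) := by linarith
  have h1 : 1 / ((1 - u) * (1 - x) * (1 - y)) - (1 + (u + x + y)) =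
      (1 - (1 + (u + x + y)) * ((1 - u) * (1 - x) * (1 - y))) / ((1 - u) * (1 - x) * (1 - y)) := by
    rw [sub_div, mul_div_assoc, div_self hP0.ne', mul_one]
  rw [h1, abs_div, abs_of_pos hP0, div_le_iff₀ hP0]
  have hxu : x * u ≤ u * u := mul_le_mul_of_nonneg_right hx1 hu
  have hyu : y * u ≤ u * u := mul_le_mul_of_nonneg_right hy1 hu
  have hxy : x * y ≤ u * u := mul_le_mul hx1 hy1 hy hu
  have hxu0 : 0 ≤ x * u := mul_nonneg hx hu
  have hyu0 : 0 ≤ y * u := mul_nonneg hy hu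
  have hxy0 : 0 ≤ x * y := mul_nonneg hx hy
  have hxyu0 : 0 ≤ x * y * u := mul_nonneg hxy0 hu
  have hxyu : x * y * u ≤ x * y := by nlinarith
  set s := u + x + y with hs
  set E := u * x + u * y + x * y - u * x * y with hE
  have hE0 : 0 ≤ E := by
    rw [hE]
    nlinarith
  have hE1 : E ≤ 3 * u ^ 2 := by
    rw [hE]
    nlinarith
  have hs0 : 0 ≤ s := by positivity
  have hs1 : s ≤ 3 * u := by linarith
  have h2 : 1 - (1 + s) * ((1 - u) * (1 - x) * (1 - y)) = s ^ 2 - (1 + s) * E := by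
    rw [hs, hE]
    ring
  rw [h2]
  have h3 : s ^ 2 ≤ 9 * u ^ 2 := by nlinarith
  have h4 : (1 + s) * E ≤ 5 / 2 * (3 * u ^ 2) := by
    refine mul_le_mul (by linarith) hE1 hE0 (by norm_num)
  have h5 : 0 ≤ (1 + s) * E := mul_nonneg (by linarith) hE0
  have h6 : 0 ≤ s ^ 2 := sq_nonneg s
  have h7 : |s ^ 2 - (1 + s) * E| ≤ 9 * u ^ 2 := by
    rw [abs_le]
    constructor
    · nlinarith [sq_nonneg u]
    · linarith
  refine h7.trans ?_
  have h8 : 100 * u ^ 2 * (1 / 8) ≤ 100 * u ^ 2 * ((1 - u) * (1 - x) * (1 - y)) :=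
    mul_le_mul_of_nonneg_left hP (by positivity)
  nlinarith [sq_nonneg u]

theorem one_step {L : ℝ} (hL : 1 ≤ L) {N m : ℕ} {W : ℤ × ℤ → ℝ} {A B : ℤ → ℝ} (hR : Rf L N W A B) (h1 : 2 ≤ m)
    (h2 : m ≤ N) :
    (∀ e ∈ board N, |Wn N W (m - 1) e -
      Wn N W m e * (1 + ((∑ k : Fin 4, TT N W m (k, ln k e)) - 1) / m)| ≤ 100 * Wn N W m e / m ^ 2) ∧
    ∀ l : Li, |TT N W (m - 1) l - TT N W m l - TT N W m l * (TT N W m l - 1) / m| ≤ 4 / (m : ℝ) ^ 2 := by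
  have hm : (2 : ℝ) ≤ m := by exact_mod_cast h1
  have hm0 : (0 : ℝ) < m := by linarith
  have hu0 : 0 < 1 / (m : ℝ) := by positivity
  have hu2 : 1 / (m : ℝ) ≤ 1 / 2 := one_div_le_one_div_of_le (by norm_num) hm
  constructor
  · intro e he
    have h3 := wn_step hL hR h1 h2 he
    have hW : 0 < Wn N W m e := lt_of_lt_of_le (by positivity) (wn_bd hL hR (by omega) h2 he).1
    rw [Fin.prod_univ_four, tt_rc (l := ((0 : Fin 4), ln 0 e)) (by unfold rc; simp),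
      tt_rc (l := ((1 : Fin 4), ln 1 e)) (by unfold rc; simp)] at h3
    rw [Fin.sum_univ_four, tt_rc (l := ((0 : Fin 4), ln 0 e)) (by unfold rc; simp),
      tt_rc (l := ((1 : Fin 4), ln 1 e)) (by unfold rc; simp)]
    obtain ⟨hx, hx1⟩ := tt_ge hL hR (by omega : 1 ≤ m) h2 ((2 : Fin 4), ln 2 e)
    obtain ⟨hy, hy1⟩ := tt_ge hL hR (by omega : 1 ≤ m) h2 ((3 : Fin 4), ln 3 e)
    set x := TT N W m ((2 : Fin 4), ln 2 e)
    set y := TT N W m ((3 : Fin 4), ln 3 e)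
    have hx2 : x / m ≤ 1 / m := div_le_div_of_nonneg_right hx1 hm0.le
    have hy2 : y / m ≤ 1 / m := div_le_div_of_nonneg_right hy1 hm0.le
    have h4 := step_est hu0.le hu2 (div_nonneg hx hm0.le) hx2 (div_nonneg hy hm0.le) hy2
    have hU : 0 < 1 - 1 / (m : ℝ) := by linarith
    have hX : 0 < 1 - x / m := by linarith
    have hY : 0 < 1 - y / m := by linarith
    have h5 : Wn N W (m - 1) e = Wn N W m e * (1 / ((1 - 1 / m) * (1 - x / m) * (1 - y / m))) := by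
      have h6 : Wn N W (m - 1) e * ((1 - 1 / m) * (1 - x / m) * (1 - y / m)) = Wn N W m e := by
        have h7 : (Wn N W (m - 1) e * ((1 - 1 / m) * (1 - x / m) * (1 - y / m))) * (1 - 1 / m) =
            Wn N W m e * (1 - 1 / m) := by
          rw [← h3]
          ring
        exact mul_right_cancel₀ hU.ne' h7
      rw [mul_one_div, eq_div_iff (by positivity)]
      exact h6
    have h8 : Wn N W (m - 1) e - Wn N W m e * (1 + ((1 + 1 + x + y) - 1) / m) =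
        Wn N W m e * (1 / ((1 - 1 / m) * (1 - x / m) * (1 - y / m)) - (1 + (1 / m + x / m + y / m))) := by
      rw [h5]
      ring
    rw [h8, abs_mul, abs_of_pos hW]
    calc Wn N W m e * |1 / ((1 - 1 / m) * (1 - x / m) * (1 - y / m)) - (1 + (1 / m + x / m + y / m))|
        ≤ Wn N W m e * (100 * (1 / (m : ℝ)) ^ 2) := mul_le_mul_of_nonneg_left h4 hW.le
      _ = 100 * Wn N W m e / m ^ 2 := by
        field_simp
  · intro l
    have h3 := tt_step hL hR h1 h2 l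
    obtain ⟨hx, hx1⟩ := tt_ge hL hR (by omega : 1 ≤ m) h2 l
    set T := TT N W m l
    set T' := TT N W (m - 1) l
    have hx2 : T / m ≤ 1 / m := div_le_div_of_nonneg_right hx1 hm0.le
    have hX : 1 / 2 ≤ 1 - T / m := by linarith
    have hX0 : 0 < 1 - T / m := by linarith
    have h4 : (T' - T - T * (T - 1) / m) * (1 - T / m) = T * (T - 1) / m * (T / m) := by
      have h5 : (T' - T - T * (T - 1) / m) * (1 - T / m) =
          T' * (1 - T / m) - (T + T * (T - 1) / m) * (1 - T / m) := by ring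
      rw [h5, h3]
      field_simp
      ring
    have h6 : T' - T - T * (T - 1) / m = T * (T - 1) / m * (T / m) / (1 - T / m) := by
      rw [eq_div_iff hX0.ne']
      exact h4
    rw [h6, abs_div, abs_of_pos hX0, div_le_iff₀ hX0]
    have h7 : T * (T - 1) / m * (T / m) = -(T * (1 - T) * T / (m : ℝ) ^ 2) := by
      field_simp
      ring
    have h8 : 0 ≤ T * (1 - T) * T := mul_nonneg (mul_nonneg hx (by linarith)) hx
    have h9 : T * (1 - T) * T ≤ 1 := by nlinarith [mul_nonneg hx (sub_nonneg.2 hx1)]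
    rw [h7, abs_neg, abs_of_nonneg (div_nonneg h8 (by positivity))]
    have h10 : T * (1 - T) * T / (m : ℝ) ^ 2 ≤ 1 / (m : ℝ) ^ 2 := div_le_div_of_nonneg_right h9 (by positivity)
    have h11 : 4 / (m : ℝ) ^ 2 * (1 / 2) ≤ 4 / (m : ℝ) ^ 2 * (1 - T / m) :=
      mul_le_mul_of_nonneg_left hX (by positivity)
    have h12 : 4 / (m : ℝ) ^ 2 * (1 / 2) = 2 * (1 / (m : ℝ) ^ 2) := by ring
    have h13 : 0 ≤ 1 / (m : ℝ) ^ 2 := by positivity
    linarith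

end Pool.Agent.NQL
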