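import Pool.Agent.NQL.Defs
import Pool.Agent.NQL.ABas
import Pool.Agent.NQL.BNom

/-!
# NQL-BFul: the full board

At size `m = N` the nominal weights are the weights `W`, the nominal masses of the diagonals are their masses.
The value of the functional at the nominal potentials is computed by splitting the set of lines of the
board into the four types.
-/

set_option autoImplicit false

open Finset

namespace Pool.Agent.NQL

open Pool.Agent.NQ (board dsum F Ent Dg phi ln Q Qset QS NonAtt bern)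
open Pool.Agent.NQR (Adm Opt Bd Rf hS hD hh InR)

private theorem nn0 {N : ℕ} (hN : 2 ≤ N) : (N : ℝ) ≠ 0 := by
  have h : (2 : ℝ) ≤ N := by exact_mod_cast hN
  linarith

private theorem wn_full {N : ℕ} (hN : 2 ≤ N) (W : ℤ × ℤ → ℝ) (e : ℤ × ℤ) : Wn N W N e = W e := by
  unfold Wn
  rw [div_self (nn0 hN)]
  simp

private theorem tt_full {N : ℕ} (hN : 2 ≤ N) (W : ℤ × ℤ → ℝ) {l : Li} (hl : ¬ rc l) :
    TT N W N l = dsum N W l.1 l.2 := by
  unfold TT
  rw [if_neg hl, div_self (nn0 hN)]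
  simp

private theorem yy_full {N : ℕ} (hN : 2 ≤ N) (W : ℤ × ℤ → ℝ) (l : Li) :
    YY N W N (full N) l = dsum N W l.1 l.2 := by
  have h : Sl N (full N) l = (board N).filter (fun e => ln l.1 e = l.2) := by
    ext e
    rw [mem_Sl, Sq_full, mem_filter]
  unfold YY dsum
  rw [h]
  exact Finset.sum_congr rfl (fun e _ => wn_full hN W e)

/-- the numbers of the lines of type `k` of the board -/
private noncomputable def Rk (N : ℕ) (k : Fin 4) : Finset ℤ :=
  ![Finset.Ico (0 : ℤ) N, Finset.Ico (0 : ℤ) N, Finset.Ico (0 : ℤ) (2 * N - 1), Finset.Ioo (-(N : ℤ)) N] k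

private theorem mem_full' {N : ℕ} (hN : 2 ≤ N) (k : Fin 4) (s : ℤ) :
    ((k, s) : Li) ∈ full N ↔ s ∈ Rk N k := by
  rw [mem_full]
  fin_cases k
  · show (∃ e ∈ board N, e.1 = s) ↔ s ∈ Finset.Ico (0 : ℤ) N
    rw [Finset.mem_Ico]
    constructor
    · rintro ⟨e, he, h⟩
      rw [Pool.Agent.NQ.mem_board] at he
      omega
    · intro h
      refine ⟨(s, 0), ?_, rfl⟩
      rw [Pool.Agent.NQ.mem_board]
      simp only
      omega
  · show (∃ e ∈ board N, e.2 = s) ↔ s ∈ Finset.Ico (0 : ℤ) N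
    rw [Finset.mem_Ico]
    constructor
    · rintro ⟨e, he, h⟩
      rw [Pool.Agent.NQ.mem_board] at he
      omega
    · intro h
      refine ⟨(0, s), ?_, rfl⟩
      rw [Pool.Agent.NQ.mem_board]
      simp only
      omega
  · show (∃ e ∈ board N, e.1 + e.2 = s) ↔ s ∈ Finset.Ico (0 : ℤ) (2 * N - 1)
    rw [Finset.mem_Ico]
    constructor
    · rintro ⟨e, he, h⟩
      rw [Pool.Agent.NQ.mem_board] at he
      omega
    · intro h
      refine ⟨(min s (N - 1), s - min s (N - 1)), ?_, ?_⟩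
      · rw [Pool.Agent.NQ.mem_board]
        simp only
        omega
      · simp only
        omega
  · show (∃ e ∈ board N, e.1 - e.2 = s) ↔ s ∈ Finset.Ioo (-(N : ℤ)) N
    rw [Finset.mem_Ioo]
    constructor
    · rintro ⟨e, he, h⟩
      rw [Pool.Agent.NQ.mem_board] at he
      omega
    · intro h
      refine ⟨(max s 0, max s 0 - s), ?_, ?_⟩
      · rw [Pool.Agent.NQ.mem_board]
        simp only
        omega
      · simp only
        omega

private theorem sum_full {N : ℕ} (hN : 2 ≤ N) (f : Li → ℝ) :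
    ∑ l ∈ full N, f l = ∑ k : Fin 4, ∑ s ∈ Rk N k, f (k, s) := by
  rw [Finset.sum_sigma']
  refine Finset.sum_bij' (fun l _ => (⟨l.1, l.2⟩ : (_ : Fin 4) × ℤ)) (fun p _ => ((p.1, p.2) : Li)) ?_ ?_ ?_ ?_ ?_
  · intro l hl
    rw [Finset.mem_sigma]
    exact ⟨mem_univ _, (mem_full' hN l.1 l.2).1 hl⟩
  · intro p hp
    rw [Finset.mem_sigma] at hp
    exact (mem_full' hN p.1 p.2).2 hp.2
  · intro l _
    rfl
  · intro p _
    rfl
  · intro l _
    rfl

private theorem mass {N : ℕ} (hN : 2 ≤ N) (W : ℤ × ℤ → ℝ) (k : Fin 4) :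
    ∑ s ∈ Rk N k, dsum N W k s = ∑ e ∈ board N, W e := by
  unfold dsum
  exact Finset.sum_fiberwise_of_maps_to
    (fun e he => (mem_full' hN k (ln k e)).1 (mem_full.2 ⟨e, he, rfl⟩)) W

private theorem mass_N {N : ℕ} (hN : 2 ≤ N) {W : ℤ × ℤ → ℝ} (hW : Adm N W) :
    ∑ e ∈ board N, W e = N := by
  rw [← mass hN W 0]
  show ∑ s ∈ Finset.Ico (0 : ℤ) N, dsum N W 0 s = N
  rw [Finset.sum_congr rfl (fun s hs => hW.row s (Finset.mem_Ico.1 hs).1 (Finset.mem_Ico.1 hs).2)]
  rw [Finset.sum_const, Int.card_Ico, nsmul_eq_mul, mul_one]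
  simp

private theorem yy_tt {N : ℕ} (hN : 2 ≤ N) {W : ℤ × ℤ → ℝ} (hW : Adm N W) {l : Li} (hl : l ∈ full N) :
    YY N W N (full N) l = TT N W N l := by
  rw [yy_full hN]
  by_cases h : rc l
  · rw [tt_rc h]
    obtain ⟨k, s⟩ := l
    have h1 := (mem_full' hN k s).1 hl
    fin_cases k
    · have h2 : s ∈ Finset.Ico (0 : ℤ) N := h1
      exact hW.row s (Finset.mem_Ico.1 h2).1 (Finset.mem_Ico.1 h2).2
    · have h2 : s ∈ Finset.Ico (0 : ℤ) N := h1
      exact hW.col s (Finset.mem_Ico.1 h2).1 (Finset.mem_Ico.1 h2).2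
    · exfalso
      have h2 : (2 : ℕ) < 2 := h
      omega
    · exfalso
      have h2 : (3 : ℕ) < 2 := h
      omega
  · rw [tt_full hN W h]

private theorem hS_last {N : ℕ} (W : ℤ × ℤ → ℝ) : hS N W (2 * N - 1) = 1 := by
  unfold hS dsum
  have h : (board N).filter (fun e => ln 2 e = 2 * (N : ℤ) - 1) = ∅ := by
    rw [Finset.filter_eq_empty_iff]
    intro e he
    rw [Pool.Agent.NQ.mem_board] at he
    rw [Pool.Agent.NQ.ln_two]
    omega
  rw [h, Finset.sum_empty, sub_zero]

theorem full_st {L : ℝ} (hL : 1 ≤ L) {N : ℕ} (hN : 2 ≤ N) {W : ℤ × ℤ → ℝ} {A B : ℤ → ℝ} (hR : Rf L N W A B) :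
    St N (full N) (zn N W A B N) ∧ Vf N N (full N) (zn N W A B N) = F N W - N ∧
    (∀ l ∈ full N, YY N W N (full N) l = TT N W N l) ∧
    (∀ x x' : ℤ, 0 ≤ x → x < N → 0 ≤ x' → x' < N → 1 / L ^ 2 ≤ Cg N W N (full N) x x') := by
  have hW := hR.adm
  have h1N : 1 ≤ N := by omega
  have hNp : (0 : ℝ) < N := by exact_mod_cast (by omega : 0 < N)
  have hLp : 0 < L := by linarith
  have hyt : ∀ l ∈ full N, YY N W N (full N) l = TT N W N l := fun l hl => yy_tt hN hW hl
  refine ⟨?_, ?_, hyt, ?_⟩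
  · intro l hl
    have h1 := gr_zn hL hR h1N (le_refl N) (I := full N) l
    rw [hyt l hl, sub_self] at h1
    unfold gr at h1
    have h2 : ∑ e ∈ Sl N (full N) l, wt (zn N W A B N) e * Real.exp (ds 0 e) =
        ∑ e ∈ Sl N (full N) l, wt (zn N W A B N) e := by
      refine Finset.sum_congr rfl (fun e _ => ?_)
      unfold ds
      simp
    rw [h2] at h1
    simp only [Pi.zero_apply, Real.exp_zero, mul_one] at h1
    linarith
  · unfold Vf Gf
    have e1 : ∑ e ∈ Sq N (full N), wt (zn N W A B N) e = N := by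
      rw [Sq_full, ← mass_N hN hW]
      refine Finset.sum_congr rfl (fun e he => ?_)
      rw [zn_wt hL hR h1N (le_refl N) he, wn_full hN]
    have l0 : Real.log ((N : ℝ) / N) = 0 := by
      rw [div_self (nn0 hN), Real.log_one]
    have e2 : ∀ s, dg ((0 : Fin 4), s) * Real.exp (zn N W A B N ((0 : Fin 4), s)) -
        zn N W A B N ((0 : Fin 4), s) = - Real.log (A s) := by
      intro s
      have hd : dg ((0 : Fin 4), s) = 0 := by
        unfold dg
        rw [if_pos]
        show (0 : ℕ) < 2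
        omega
      have hz : zn N W A B N ((0 : Fin 4), s) = Real.log (A s) := by
        unfold zn
        rw [if_pos rfl, l0]
        simp
      rw [hd, hz]
      ring
    have e3 : ∀ s, dg ((1 : Fin 4), s) * Real.exp (zn N W A B N ((1 : Fin 4), s)) -
        zn N W A B N ((1 : Fin 4), s) = - Real.log (B s) := by
      intro s
      have hd : dg ((1 : Fin 4), s) = 0 := by
        unfold dg
        rw [if_pos]
        show (1 : ℕ) < 2
        omega
      have hz : zn N W A B N ((1 : Fin 4), s) = Real.log (B s) := by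
        unfold zn
        rw [if_neg (by simp), if_pos rfl, l0]
        simp
      rw [hd, hz]
      ring
    have e4 : ∀ k : Fin 4, 2 ≤ (k : ℕ) → ∀ s, dg (k, s) * Real.exp (zn N W A B N (k, s)) -
        zn N W A B N (k, s) = (1 - dsum N W k s) - Real.log (1 - dsum N W k s) := by
      intro k hk s
      have hr : ¬ rc (k, s) := by
        show ¬ ((k : ℕ) < 2)
        omega
      have hd : dg (k, s) = 1 := by
        unfold dg
        rw [if_neg hr]
      have hz : zn N W A B N (k, s) = Real.log (1 - dsum N W k s) := by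
        have h0 : k ≠ 0 := by
          intro h
          rw [h] at hk
          exact absurd hk (by decide)
        have h1 : k ≠ 1 := by
          intro h
          rw [h] at hk
          exact absurd hk (by decide)
        unfold zn
        rw [if_neg h0, if_neg h1, tt_full hN W hr]
      rw [zn_dg hL hR h1N (le_refl N) hr, tt_full hN W hr, hd, hz]
      ring
    have m2 := mass hN W 2
    have m3 := mass hN W 3
    rw [mass_N hN hW] at m2 m3
    have m2' : ∑ s ∈ Finset.Ico (0 : ℤ) (2 * N - 1), dsum N W 2 s = N := m2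
    have m3' : ∑ s ∈ Finset.Ioo (-(N : ℤ)) N, dsum N W 3 s = N := m3
    have c2 : ((Finset.Ico (0 : ℤ) (2 * N - 1)).card : ℝ) = 2 * N - 1 := by
      rw [Int.card_Ico]
      have h : ((2 * (N : ℤ) - 1 - 0).toNat : ℤ) = 2 * (N : ℤ) - 1 := by
        rw [Int.toNat_of_nonneg (by omega)]
        ring
      exact_mod_cast h
    have c3 : ((Finset.Ioo (-(N : ℤ)) N).card : ℝ) = 2 * N - 1 := by
      rw [Int.card_Ioo]
      have h : (((N : ℤ) - -(N : ℤ) - 1).toNat : ℤ) = 2 * (N : ℤ) - 1 := by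
        rw [Int.toNat_of_nonneg (by omega)]
        ring
      exact_mod_cast h
    have e5 : ∑ l ∈ full N, (dg l * Real.exp (zn N W A B N l) - zn N W A B N l) =
        - (∑ x ∈ Finset.Ico (0 : ℤ) N, Real.log (A x)) - (∑ x ∈ Finset.Ico (0 : ℤ) N, Real.log (B x)) +
        ((2 * N - 1 - N) - ∑ s ∈ Finset.Ico (0 : ℤ) (2 * N - 1), Real.log (hS N W s)) +
        ((2 * N - 1 - N) - ∑ s ∈ Finset.Ioo (-(N : ℤ)) N, Real.log (hD N W s)) := by
      rw [sum_full hN, Fin.sum_univ_four]
      have f0 : ∑ s ∈ Rk N 0, (dg ((0 : Fin 4), s) * Real.exp (zn N W A B N ((0 : Fin 4), s)) -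
          zn N W A B N ((0 : Fin 4), s)) = - ∑ x ∈ Finset.Ico (0 : ℤ) N, Real.log (A x) := by
        rw [Finset.sum_congr rfl (fun s _ => e2 s), Finset.sum_neg_distrib]
        rfl
      have f1 : ∑ s ∈ Rk N 1, (dg ((1 : Fin 4), s) * Real.exp (zn N W A B N ((1 : Fin 4), s)) -
          zn N W A B N ((1 : Fin 4), s)) = - ∑ x ∈ Finset.Ico (0 : ℤ) N, Real.log (B x) := by
        rw [Finset.sum_congr rfl (fun s _ => e3 s), Finset.sum_neg_distrib]
        rfl
      have f2 : ∑ s ∈ Rk N 2, (dg ((2 : Fin 4), s) * Real.exp (zn N W A B N ((2 : Fin 4), s)) -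
          zn N W A B N ((2 : Fin 4), s)) =
          (2 * N - 1 - N) - ∑ s ∈ Finset.Ico (0 : ℤ) (2 * N - 1), Real.log (hS N W s) := by
        rw [Finset.sum_congr rfl (fun s _ => e4 2 (by decide) s), Finset.sum_sub_distrib]
        show ∑ s ∈ Finset.Ico (0 : ℤ) (2 * N - 1), (1 - dsum N W 2 s) -
          ∑ s ∈ Finset.Ico (0 : ℤ) (2 * N - 1), Real.log (hS N W s) = _
        rw [Finset.sum_sub_distrib, m2', Finset.sum_const, nsmul_eq_mul, c2, mul_one]
      have f3 : ∑ s ∈ Rk N 3, (dg ((3 : Fin 4), s) * Real.exp (zn N W A B N ((3 : Fin 4), s)) -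
          zn N W A B N ((3 : Fin 4), s)) =
          (2 * N - 1 - N) - ∑ s ∈ Finset.Ioo (-(N : ℤ)) N, Real.log (hD N W s) := by
        rw [Finset.sum_congr rfl (fun s _ => e4 3 (by decide) s), Finset.sum_sub_distrib]
        show ∑ s ∈ Finset.Ioo (-(N : ℤ)) N, (1 - dsum N W 3 s) -
          ∑ s ∈ Finset.Ioo (-(N : ℤ)) N, Real.log (hD N W s) = _
        rw [Finset.sum_sub_distrib, m3', Finset.sum_const, nsmul_eq_mul, c3, mul_one]
      rw [f0, f1, f2, f3]
      ring
    have e6 : ∑ s ∈ Finset.Ico (0 : ℤ) (2 * N), Real.log (hS N W s) =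
        ∑ s ∈ Finset.Ico (0 : ℤ) (2 * N - 1), Real.log (hS N W s) := by
      have h : Finset.Ico (0 : ℤ) (2 * N) = insert (2 * (N : ℤ) - 1) (Finset.Ico (0 : ℤ) (2 * N - 1)) := by
        ext s
        rw [Finset.mem_insert, Finset.mem_Ico, Finset.mem_Ico]
        omega
      rw [h, Finset.sum_insert (by rw [Finset.mem_Ico]; omega), hS_last, Real.log_one, zero_add]
    have e7 := hR.val
    rw [e6] at e7
    rw [e1, e5, e7]
    ring
  · intro x x' hx0 hx1 hx0' hx1'
    have hs : ∀ y ∈ Finset.Ico (0 : ℤ) N, (1 / (L * N)) ^ 2 ≤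
        W (x, y) * W (x', y) := by
      intro y hy
      rw [Finset.mem_Ico] at hy
      have b1 : (x, y) ∈ board N := by
        rw [Pool.Agent.NQ.mem_board]
        exact ⟨⟨hx0, hx1⟩, hy⟩
      have b2 : (x', y) ∈ board N := by
        rw [Pool.Agent.NQ.mem_board]
        exact ⟨⟨hx0', hx1'⟩, hy⟩
      rw [sq]
      have hp : 0 ≤ 1 / (L * N) := by positivity
      exact mul_le_mul (hR.bd.lo _ b1) (hR.bd.lo _ b2) hp (hW.nn _)
    have hc : Cg N W N (full N) x x' = N * ∑ y ∈ Finset.Ico (0 : ℤ) N, W (x, y) * W (x', y) := by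
      unfold Cg
      refine congrArg (fun u => (N : ℝ) * u) (Finset.sum_congr rfl (fun y hy => ?_))
      rw [Finset.mem_Ico] at hy
      have b1 : (x, y) ∈ board N := by
        rw [Pool.Agent.NQ.mem_board]
        exact ⟨⟨hx0, hx1⟩, hy⟩
      have b2 : (x', y) ∈ board N := by
        rw [Pool.Agent.NQ.mem_board]
        exact ⟨⟨hx0', hx1'⟩, hy⟩
      rw [Sq_full, if_pos ⟨b1, b2⟩, wn_full hN, wn_full hN]
    rw [hc]
    have h3 := Finset.sum_le_sum hs
    rw [Finset.sum_const, Int.card_Ico, nsmul_eq_mul] at h3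
    have h4 : (((N : ℤ) - 0).toNat : ℝ) = N := by simp
    rw [h4] at h3
    have h5 : 1 / L ^ 2 = N * (N * (1 / (L * N)) ^ 2) := by
      field_simp
    rw [h5]
    exact mul_le_mul_of_nonneg_left h3 hNp.le

end Pool.Agent.NQL
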