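import Pool.Agent.NQL.Defs
import Pool.Agent.NQL.ABas

/-!
# NQL-AVal: the value of the restricted potential

PLAN. `star_sum` for `wt z`, `rm_sum` for `dg l * exp (z l) - z l`. By stationarity for the four lines `l` of `e`:
`∑_{Sl l} wt z = 1 - dg l * exp (z l)`, the sum over the four lines is `4 - ∑_k dg exp`, so
`Gf N (rm I e) z = Gf N I z - (4 - ∑_k dg exp) + 3 wt z e - ∑_k (dg exp - z) = Gf N I z - 4 + 3 wt z e + ds z e`.
`mass`: sum of the stationary equations over the rows; `P2`-facts: `dg l * exp (z l) ≤ 1` because the sum is nonnegative.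
`sum_wt`: `∑_{Sq} wt = ∑_{rows} ∑_{Sl} wt = m` (each free square lies on exactly one row of `I`). `sum_dg`: the same for
the diagonals of both types: `∑_{l ∈ I} dg l (1 - exp (z l)) = ∑_{l ∈ I, diagonal} ∑_{Sl} wt = 2 ∑_{Sq} wt`.
-/

set_option autoImplicit false

open Finset

namespace Pool.Agent.NQL

open Pool.Agent.NQ (board dsum F Ent Dg phi ln Q Qset QS NonAtt bern)
open Pool.Agent.NQR (Adm Opt Bd Rf hS hD hh InR)

private theorem dg_rc {l : Li} (h : rc l) : dg l = 0 := if_pos h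

private theorem dg_nrc {l : Li} (h : ¬ rc l) : dg l = 1 := if_neg h

private theorem rc0 (x : ℤ) : rc ((0, x) : Li) := by
  show ((0 : Fin 4) : ℕ) < 2
  decide

private theorem rc1 (x : ℤ) : rc ((1, x) : Li) := by
  show ((1 : Fin 4) : ℕ) < 2
  decide

private theorem rc2 (x : ℤ) : ¬ rc ((2, x) : Li) := by
  show ¬ ((2 : Fin 4) : ℕ) < 2
  decide

private theorem rc3 (x : ℤ) : ¬ rc ((3, x) : Li) := by
  show ¬ ((3 : Fin 4) : ℕ) < 2
  decide

theorem val_rm {N m : ℕ} {I : Finset Li} {z : Li → ℝ} (hz : St N I z) {e : ℤ × ℤ} (he : e ∈ Sq N I) :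
    Vf N m (rm I e) z = Vf N (m + 1) I z + ds z e + 3 * wt z e := by
  have h1 := star_sum he (wt z)
  have h2 := rm_sum he (fun l => dg l * Real.exp (z l) - z l)
  have h3 : ∀ k : Fin 4, ∑ e' ∈ Sl N I (k, ln k e), wt z e' =
      1 - dg (k, ln k e) * Real.exp (z (k, ln k e)) := by
    intro k
    have := hz (k, ln k e) ((mem_Sq.1 he).2 k)
    linarith
  rw [Finset.sum_congr rfl fun k _ => h3 k] at h1
  have h4 : ∑ k : Fin 4, (1 - dg (k, ln k e) * Real.exp (z (k, ln k e))) +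
      ∑ k : Fin 4, (dg (k, ln k e) * Real.exp (z (k, ln k e)) - z (k, ln k e)) = 4 - ds z e := by
    rw [← Finset.sum_add_distrib, ds]
    have : ∀ k : Fin 4, (1 - dg (k, ln k e) * Real.exp (z (k, ln k e))) +
        (dg (k, ln k e) * Real.exp (z (k, ln k e)) - z (k, ln k e)) = 1 - z (k, ln k e) := by
      intro k
      ring
    rw [Finset.sum_congr rfl fun k _ => this k, Finset.sum_sub_distrib]
    simp
  have h2' : ∑ l ∈ I, (dg l * Real.exp (z l) - z l) = ∑ l ∈ rm I e, (dg l * Real.exp (z l) - z l) +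
      ∑ k : Fin 4, (dg (k, ln k e) * Real.exp (z (k, ln k e)) - z (k, ln k e)) := h2
  unfold Vf Gf
  push_cast
  linarith

theorem sum_wt {N m : ℕ} {I : Finset Li} {z : Li → ℝ} (hv : Vd N m I) (hz : St N I z) :
    ∑ e ∈ Sq N I, wt z e = m := by
  have h1 := line_sum (N := N) (I := I) (fun e l => if l.1 = 0 then wt z e else 0)
  have h2 : ∀ e, ∑ k : Fin 4, (if ((k, ln k e) : Li).1 = 0 then wt z e else 0) = wt z e := by
    intro e
    rw [Finset.sum_ite_eq' Finset.univ (0 : Fin 4), if_pos (Finset.mem_univ _)]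
  have h3 : ∀ l ∈ I, ∑ e ∈ Sl N I l, (if l.1 = 0 then wt z e else 0) = if l.1 = 0 then 1 else 0 := by
    intro l hl
    by_cases h0 : l.1 = 0
    · rw [if_pos h0]
      have h4 : dg l = 0 := dg_rc (by unfold rc; rw [h0]; decide)
      have h5 := hz l hl
      rw [h4, zero_mul, add_zero] at h5
      rw [← h5]
      exact Finset.sum_congr rfl fun e _ => if_pos h0
    · rw [if_neg h0]
      exact Finset.sum_eq_zero fun e _ => if_neg h0
  rw [Finset.sum_congr rfl h3, Finset.sum_congr rfl fun e _ => h2 e] at h1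
  rw [← h1, ← Finset.sum_filter, Finset.sum_const, nsmul_eq_mul, mul_one, hv.crc 0 (by decide)]

private theorem dg_mul {N : ℕ} {I : Finset Li} {z : Li → ℝ} (hz : St N I z) {l : Li} (hl : l ∈ I) :
    dg l * (1 - Real.exp (z l)) = ∑ e ∈ Sl N I l, dg l * wt z e := by
  rw [← Finset.mul_sum]
  have h1 := hz l hl
  by_cases h : rc l
  · rw [dg_rc h, zero_mul, zero_mul]
  · rw [dg_nrc h] at h1 ⊢
    linarith

theorem sum_dg {N m : ℕ} {I : Finset Li} {z : Li → ℝ} (hv : Vd N m I) (hz : St N I z) :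
    ∑ l ∈ I, dg l * (1 - Real.exp (z l)) = 2 * m := by
  have h1 := line_sum (N := N) (I := I) (fun e l => dg l * wt z e)
  have h2 : ∀ e, ∑ k : Fin 4, dg (k, ln k e) * wt z e = 2 * wt z e := by
    intro e
    rw [Fin.sum_univ_four, dg_rc (rc0 _), dg_rc (rc1 _), dg_nrc (rc2 _), dg_nrc (rc3 _)]
    ring
  rw [Finset.sum_congr rfl fun l hl => dg_mul hz hl]
  have h3 : ∑ l ∈ I, ∑ e ∈ Sl N I l, dg l * wt z e =
      ∑ e ∈ Sq N I, ∑ k : Fin 4, dg (k, ln k e) * wt z e := h1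
  rw [h3, Finset.sum_congr rfl fun e _ => h2 e, ← Finset.mul_sum, sum_wt hv hz]

theorem mass_dg {N : ℕ} {I : Finset Li} {z : Li → ℝ} (hz : St N I z) {l : Li} (hl : l ∈ I) :
    0 ≤ ∑ e ∈ Sl N I l, wt z e ∧ ∑ e ∈ Sl N I l, wt z e ≤ 1 ∧
      (¬ rc l → ∑ e ∈ Sl N I l, wt z e = 1 - Real.exp (z l)) ∧ (rc l → ∑ e ∈ Sl N I l, wt z e = 1) := by
  have h1 := hz l hl
  have h2 : 0 ≤ dg l := by
    by_cases h : rc l
    · rw [dg_rc h]
    · rw [dg_nrc h]; norm_num
  have h3 : 0 ≤ dg l * Real.exp (z l) := mul_nonneg h2 (Real.exp_pos _).le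
  refine ⟨Finset.sum_nonneg fun e _ => (Real.exp_pos _).le, by linarith, fun h => ?_, fun h => ?_⟩
  · rw [dg_nrc h] at h1
    linarith
  · rw [dg_rc h] at h1
    linarith

theorem wt_le_one {N : ℕ} {I : Finset Li} {z : Li → ℝ} (hz : St N I z) {e : ℤ × ℤ} (he : e ∈ Sq N I) :
    0 < wt z e ∧ wt z e ≤ 1 := by
  refine ⟨Real.exp_pos _, ?_⟩
  have h1 := (mass_dg hz ((mem_Sq.1 he).2 0)).2.1
  refine le_trans ?_ h1
  exact Finset.single_le_sum (f := wt z) (fun e' _ => (Real.exp_pos _).le) (mem_Sl.2 ⟨he, rfl⟩)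

end Pool.Agent.NQL
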