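import Pool.Agent.NQL.Defs
import Pool.Agent.NQL.ABas
import Pool.Agent.NQL.AVal
import Pool.Agent.NQL.AExp

/-!
# NQL-ACoR: coercivity of the reduced instance

PLAN. For `δ` let `δ' = δ` on `rm I e0`, `0` elsewhere. `Qf I δ' = Qf (rm I e0) δ + ∑_{star} w (ds δ')²` (star = squares of `Sq N I` not in
`Sq N (rm I e0)`), `(ds δ')² ≤ 4 ∑_k δ'(k, ·)²`, each line of `rm I e0` contains at most 4 star squares (`two_lines`): the last sum is
`≤ (16 K/m) ∑ δ²`. So `lam ∑ δ² ≤ Qf (rm I e0) δ + (16K/m) ∑ δ² + gs²/(2m)`, `gs²/(2m) ≤ gs²/(2(m-1))`. For `m ≥ 32 K/lam`: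
`Co N (m-1) (rm I e0) w c (lam/2)`. New weights `w exp (ds (-u))`, `c exp (-u)`: factors `≥ exp (-4C0/m) ≥ 1/2`, so `Qf' ≥ Qf/2`.
-/

set_option autoImplicit false

open Finset

namespace Pool.Agent.NQL

open Pool.Agent.NQ (board dsum F Ent Dg phi ln Q Qset QS NonAtt bern)
open Pool.Agent.NQR (Adm Opt Bd Rf hS hD hh InR)

theorem co_rm {K lam C0 : ℝ} (hK : 1 ≤ K) (hl : 0 < lam) (hC : 1 ≤ C0) : ∃ mA : ℕ,
    ∀ (N m : ℕ) (I : Finset Li) (z u : Li → ℝ), mA ≤ m → Vd N m I → Reg K lam N m I z →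
      ∀ e0 ∈ Sq N I, (∀ l ∈ I, |u l| ≤ C0 / m) →
      Co N (m - 1) (rm I e0) (wt (z - u)) (fun l => dg l * Real.exp ((z - u) l)) (lam / 4) := by
  refine ⟨2 + ⌈128 * K / lam⌉₊ + ⌈8 * C0⌉₊, ?_⟩
  intro N m I z u hm hv hreg e0 he0 hu δ
  classical
  have hmR : ((2 + ⌈128 * K / lam⌉₊ + ⌈8 * C0⌉₊ : ℕ) : ℝ) ≤ m := by exact_mod_cast hm
  push_cast at hmR
  have hc1 : 128 * K / lam ≤ (⌈128 * K / lam⌉₊ : ℝ) := Nat.le_ceil _
  have hc2 : 8 * C0 ≤ (⌈8 * C0⌉₊ : ℝ) := Nat.le_ceil _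
  have hc3 : 0 < 128 * K / lam := by positivity
  have hm2 : (2 : ℝ) ≤ m := by linarith
  have hmK : 128 * K / lam ≤ m := by linarith
  have hmC : 8 * C0 ≤ m := by linarith
  have hm0 : (0 : ℝ) < m := by linarith
  set J := rm I e0 with hJ
  set δ' : Li → ℝ := fun l => if l ∈ J then δ l else 0 with hδ'
  have hJI : J ⊆ I := Finset.filter_subset _ _
  have hin : ∀ l, l ∈ J → δ' l = δ l := fun l hl => if_pos hl
  have hout : ∀ l, l ∉ J → δ' l = 0 := fun l hl => if_neg hl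
  have hsum : ∀ f : Li → ℝ → ℝ, (∀ l, f l 0 = 0) → ∑ l ∈ I, f l (δ' l) = ∑ l ∈ J, f l (δ l) := by
    intro f hf
    have h1 : ∑ l ∈ J, f l (δ' l) = ∑ l ∈ I, f l (δ' l) :=
      Finset.sum_subset hJI fun l _ hl => by rw [hout l hl, hf]
    rw [← h1]
    exact Finset.sum_congr rfl fun l hl => by rw [hin l hl]
  have hSq : ∑ l ∈ I, δ' l ^ 2 = ∑ l ∈ J, δ l ^ 2 := hsum (fun _ x => x ^ 2) (fun _ => by ring)
  have hgs : gs I δ' = gs J δ := hsum (fun l x => ga l * x) (fun _ => by ring)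
  set S : ℝ := ∑ l ∈ J, δ l ^ 2 with hS
  have hS0 : 0 ≤ S := Finset.sum_nonneg fun l _ => sq_nonneg _
  -- the star
  have hstar : ∀ k : Fin 4, ∑ e' ∈ Sl N I (k, ln k e0), wt z e' * ds δ' e' ^ 2 ≤ K / m * (4 * (4 * S)) := by
    intro k
    have h1 : ∀ e' ∈ Sl N I (k, ln k e0), wt z e' * ds δ' e' ^ 2 ≤
        K / m * (4 * ∑ k' : Fin 4, δ' (k', ln k' e') ^ 2) := by
      intro e' he'
      have h2 : ds δ' e' ^ 2 ≤ 4 * ∑ k' : Fin 4, δ' (k', ln k' e') ^ 2 := by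
        unfold ds
        have := sq_sum_le_card_mul_sum_sq (s := (Finset.univ : Finset (Fin 4)))
          (f := fun k' => δ' (k', ln k' e'))
        simpa using this
      exact mul_le_mul (hreg.up e' (mem_Sl.1 he').1) h2 (sq_nonneg _) (by positivity)
    refine (Finset.sum_le_sum h1).trans ?_
    rw [← Finset.mul_sum, ← Finset.mul_sum, Finset.sum_comm]
    have h3 : ∀ k' : Fin 4, ∑ e' ∈ Sl N I (k, ln k e0), δ' (k', ln k' e') ^ 2 ≤ S := by
      intro k'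
      by_cases hk : k' = k
      · subst hk
        refine le_of_eq_of_le ?_ hS0
        apply Finset.sum_eq_zero
        intro e' he'
        have h4 : ln k' e' = ln k' e0 := (mem_Sl.1 he').2
        rw [h4, hout]
        · ring
        · intro h5
          exact (mem_rm.1 h5).2 rfl
      · rw [← hSq]
        exact cross1 (k, ln k e0) hk (fun l => δ' l ^ 2) (fun _ _ => sq_nonneg _)
    have h4 : ∑ k' : Fin 4, ∑ e' ∈ Sl N I (k, ln k e0), δ' (k', ln k' e') ^ 2 ≤ 4 * S := by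
      refine (Finset.sum_le_sum fun k' _ => h3 k').trans (le_of_eq ?_)
      rw [Finset.sum_const, Finset.card_univ, Fintype.card_fin, nsmul_eq_mul]
      norm_num
    gcongr
  have h1 := hreg.co δ'
  rw [hSq, hgs, Qf] at h1
  have h2 := star_sum he0 (fun e => wt z e * ds δ' e ^ 2)
  have h3 : ∑ e ∈ Sq N J, wt z e * ds δ' e ^ 2 = ∑ e ∈ Sq N J, wt z e * ds δ e ^ 2 := by
    refine Finset.sum_congr rfl fun e he => ?_
    have : ds δ' e = ds δ e := by
      unfold ds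
      exact Finset.sum_congr rfl fun k _ => hin _ ((mem_Sq.1 he).2 k)
    rw [this]
  have h4 : ∑ k : Fin 4, ∑ e' ∈ Sl N I (k, ln k e0), wt z e' * ds δ' e' ^ 2 ≤
      4 * (K / m * (4 * (4 * S))) := by
    refine (Finset.sum_le_sum fun k _ => hstar k).trans (le_of_eq ?_)
    rw [Finset.sum_const, Finset.card_univ, Fintype.card_fin, nsmul_eq_mul]
    norm_num
  have h5 : 0 ≤ wt z e0 * ds δ' e0 ^ 2 := mul_nonneg (Real.exp_pos _).le (sq_nonneg _)
  have h6 : ∑ l ∈ I, (dg l * Real.exp (z l)) * δ' l ^ 2 = ∑ l ∈ J, (dg l * Real.exp (z l)) * δ l ^ 2 :=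
    hsum (fun l x => (dg l * Real.exp (z l)) * x ^ 2) (fun _ => by ring)
  have h7 : ∑ e ∈ Sq N I, wt z e * ds δ' e ^ 2 ≤
      ∑ e ∈ Sq N J, wt z e * ds δ e ^ 2 + 4 * (K / m * (4 * (4 * S))) := by
    have h2' : ∑ e ∈ Sq N I, wt z e * ds δ' e ^ 2 = ∑ e ∈ Sq N J, wt z e * ds δ' e ^ 2 +
      (∑ k : Fin 4, ∑ e' ∈ Sl N I (k, ln k e0), wt z e' * ds δ' e' ^ 2) -
        3 * (wt z e0 * ds δ' e0 ^ 2) := h2
    rw [h2', h3]
    linarith
  have h8 : 4 * (K / m * (4 * (4 * S))) ≤ lam / 2 * S := by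
    have h9 : 64 * (K / m) ≤ lam / 2 := by
      rw [div_le_iff₀ hl] at hmK
      rw [← mul_div_assoc, div_le_iff₀ hm0]
      linarith
    nlinarith
  -- the reduced instance with the old weights
  have h10 : gs J δ ^ 2 / (2 * (m : ℝ)) ≤ gs J δ ^ 2 / (2 * ((m - 1 : ℕ) : ℝ)) := by
    have hm1 : 1 ≤ m := by
      have : (1 : ℝ) ≤ m := by linarith
      exact_mod_cast this
    rw [Nat.cast_sub hm1, Nat.cast_one]
    apply div_le_div_of_nonneg_left (sq_nonneg _) (by linarith) (by linarith)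
  have h11 : lam / 2 * S ≤ ∑ e ∈ Sq N J, wt z e * ds δ e ^ 2 +
      ∑ l ∈ J, (dg l * Real.exp (z l)) * δ l ^ 2 + gs J δ ^ 2 / (2 * ((m - 1 : ℕ) : ℝ)) := by
    rw [h6] at h1
    linarith
  -- the new weights
  have hhalf : ∀ x : ℝ, |x| ≤ 1 / 2 → 1 / 2 ≤ Real.exp (-x) := by
    intro x hx
    have := Real.add_one_le_exp (-x)
    have := (abs_le.1 hx).2
    linarith
  have hu4 : 4 * (C0 / m) ≤ 1 / 2 := by
    rw [← mul_div_assoc, div_le_iff₀ hm0]
    linarith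
  have hCm : 0 ≤ C0 / m := by positivity
  have h12 : ∀ e ∈ Sq N J, 1 / 2 * (wt z e * ds δ e ^ 2) ≤ wt (z - u) e * ds δ e ^ 2 := by
    intro e he
    have hds : ds (z - u) e = ds z e + -ds u e := by
      unfold ds
      rw [← sub_eq_add_neg, ← Finset.sum_sub_distrib]
      rfl
    have hdu : |ds u e| ≤ 1 / 2 := by
      unfold ds
      refine (Finset.abs_sum_le_sum_abs _ _).trans ?_
      refine (Finset.sum_le_sum fun k _ => hu (k, ln k e) (hJI ((mem_Sq.1 he).2 k))).trans ?_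
      rw [Finset.sum_const, Finset.card_univ, Fintype.card_fin, nsmul_eq_mul]
      norm_num at hu4 ⊢
      linarith
    have h13 := hhalf _ hdu
    have h14 : wt (z - u) e = wt z e * Real.exp (-ds u e) := by
      unfold wt
      rw [hds, Real.exp_add]
    rw [h14]
    have h15 : 0 ≤ wt z e * ds δ e ^ 2 := mul_nonneg (Real.exp_pos _).le (sq_nonneg _)
    nlinarith
  have h13 : ∀ l ∈ J, 1 / 2 * ((dg l * Real.exp (z l)) * δ l ^ 2) ≤
      (dg l * Real.exp ((z - u) l)) * δ l ^ 2 := by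
    intro l hlJ
    have h14 : Real.exp ((z - u) l) = Real.exp (z l) * Real.exp (-u l) := by
      rw [Pi.sub_apply, sub_eq_add_neg, Real.exp_add]
    have h15 := hhalf (u l) ((hu l (hJI hlJ)).trans (by linarith))
    have h16 : 0 ≤ dg l := by
      unfold dg
      split_ifs <;> norm_num
    have h17 : 0 ≤ (dg l * Real.exp (z l)) * δ l ^ 2 :=
      mul_nonneg (mul_nonneg h16 (Real.exp_pos _).le) (sq_nonneg _)
    rw [h14]
    nlinarith
  have h14 := Finset.sum_le_sum h12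
  have h15 := Finset.sum_le_sum h13
  rw [← Finset.mul_sum] at h14 h15
  have h16 : 0 ≤ gs J δ ^ 2 / (2 * ((m - 1 : ℕ) : ℝ)) := by positivity
  show lam / 4 * S ≤ (∑ e ∈ Sq N J, wt (z - u) e * ds δ e ^ 2 +
    ∑ l ∈ J, (dg l * Real.exp ((z - u) l)) * δ l ^ 2) + gs J δ ^ 2 / (2 * ((m - 1 : ℕ) : ℝ))
  linarith

end Pool.Agent.NQL
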