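import Pool.Agent.NQL.Defs
import Pool.Agent.NQL.ABas

/-!
# NQL-ASol: the linear system of the Hessian

The Hessian with gauge term `Hh` is symmetric (`hh_pair`) and, under coercivity, positive definite on
the functions on `I`: solvability, bound and uniqueness; the gauge vector is an eigenvector.
-/

set_option autoImplicit false

open Finset

namespace Pool.Agent.NQL

open Pool.Agent.NQ (board dsum F Ent Dg phi ln Q Qset QS NonAtt bern)
open Pool.Agent.NQR (Adm Opt Bd Rf hS hD hh InR)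

theorem hh_pair {N m : ℕ} {I : Finset Li} (w : ℤ × ℤ → ℝ) (c u v : Li → ℝ) :
    ∑ l ∈ I, v l * Hh N m I w c u l =
      ∑ e ∈ Sq N I, w e * ds u e * ds v e + ∑ l ∈ I, c l * u l * v l + gs I u * gs I v / (2 * m) := by
  have h1 := line_sum (N := N) (I := I) (fun e l => v l * (w e * ds u e))
  have h2 : ∑ e ∈ Sq N I, w e * ds u e * ds v e =
      ∑ e ∈ Sq N I, ∑ k : Fin 4, v (k, ln k e) * (w e * ds u e) := by
    refine Finset.sum_congr rfl fun e _ => ?_
    rw [← Finset.sum_mul]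
    unfold ds
    ring
  rw [h2, ← h1]
  have h3 : gs I u * gs I v / (2 * m) = ∑ l ∈ I, v l * (ga l * gs I u / (2 * m)) := by
    have : gs I v = ∑ l ∈ I, ga l * v l := rfl
    rw [this, Finset.mul_sum, Finset.sum_div]
    refine Finset.sum_congr rfl fun l _ => ?_
    ring
  rw [h3, ← Finset.sum_add_distrib, ← Finset.sum_add_distrib]
  refine Finset.sum_congr rfl fun l _ => ?_
  unfold Hh
  rw [← Finset.mul_sum]
  ring

theorem hh_congr {N m : ℕ} {I : Finset Li} {w : ℤ × ℤ → ℝ} {c u v : Li → ℝ} (h : ∀ l ∈ I, u l = v l) :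
    ∀ l ∈ I, Hh N m I w c u l = Hh N m I w c v l := by
  intro l hl
  have h1 : gs I u = gs I v := Finset.sum_congr rfl fun l' hl' => by rw [h l' hl']
  have h2 : ∑ e ∈ Sl N I l, w e * ds u e = ∑ e ∈ Sl N I l, w e * ds v e := by
    refine Finset.sum_congr rfl fun e he => ?_
    have h3 := (mem_Sq.1 (mem_Sl.1 he).1).2
    have h4 : ds u e = ds v e := Finset.sum_congr rfl fun k _ => h _ (h3 k)
    rw [h4]
  unfold Hh
  rw [h1, h2, h l hl]

theorem hh_lin {N m : ℕ} {I : Finset Li} (w : ℤ × ℤ → ℝ) (c u v : Li → ℝ) (a b : ℝ) (l : Li) :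
    Hh N m I w c (fun l => a * u l + b * v l) l = a * Hh N m I w c u l + b * Hh N m I w c v l := by
  have h1 : gs I (fun l => a * u l + b * v l) = a * gs I u + b * gs I v := by
    unfold gs
    rw [Finset.mul_sum, Finset.mul_sum, ← Finset.sum_add_distrib]
    refine Finset.sum_congr rfl fun l _ => ?_
    ring
  have h2 : ∀ e, ds (fun l => a * u l + b * v l) e = a * ds u e + b * ds v e := by
    intro e
    unfold ds
    rw [Finset.mul_sum, Finset.mul_sum, ← Finset.sum_add_distrib]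
  have h3 : ∑ e ∈ Sl N I l, w e * ds (fun l => a * u l + b * v l) e =
      a * ∑ e ∈ Sl N I l, w e * ds u e + b * ∑ e ∈ Sl N I l, w e * ds v e := by
    rw [Finset.mul_sum, Finset.mul_sum, ← Finset.sum_add_distrib]
    refine Finset.sum_congr rfl fun e _ => ?_
    rw [h2]
    ring
  unfold Hh
  rw [h1, h3]
  ring

private theorem hh_coer {N m : ℕ} {I : Finset Li} {w : ℤ × ℤ → ℝ} {c : Li → ℝ} {lam : ℝ}
    (hco : Co N m I w c lam) (u : Li → ℝ) :
    lam * ∑ l ∈ I, u l ^ 2 ≤ ∑ l ∈ I, u l * Hh N m I w c u l := by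
  refine (hco u).trans (le_of_eq ?_)
  rw [hh_pair]
  unfold Qf
  have h1 : ∑ e ∈ Sq N I, w e * ds u e ^ 2 = ∑ e ∈ Sq N I, w e * ds u e * ds u e :=
    Finset.sum_congr rfl fun e _ => by ring
  have h2 : ∑ l ∈ I, c l * u l ^ 2 = ∑ l ∈ I, c l * u l * u l :=
    Finset.sum_congr rfl fun e _ => by ring
  rw [h1, h2, sq]

theorem hh_bound {N m : ℕ} {I : Finset Li} {w : ℤ × ℤ → ℝ} {c : Li → ℝ} {lam : ℝ} (hlam : 0 < lam)
    (hco : Co N m I w c lam) {b u : Li → ℝ} (h : ∀ l ∈ I, Hh N m I w c u l = b l) :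
    lam ^ 2 * ∑ l ∈ I, u l ^ 2 ≤ ∑ l ∈ I, b l ^ 2 := by
  have h1 := hh_coer hco u
  have h2 : ∑ l ∈ I, u l * Hh N m I w c u l = ∑ l ∈ I, u l * b l :=
    Finset.sum_congr rfl fun l hl => by rw [h l hl]
  rw [h2] at h1
  have h3 := Finset.sum_mul_sq_le_sq_mul_sq I u b
  have h4 : 0 ≤ ∑ l ∈ I, u l ^ 2 := Finset.sum_nonneg fun l _ => sq_nonneg _
  have h5 : 0 ≤ ∑ l ∈ I, b l ^ 2 := Finset.sum_nonneg fun l _ => sq_nonneg _
  rcases h4.eq_or_lt with h6 | h6
  · rw [← h6, mul_zero]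
    exact h5
  · have h7 : (lam * ∑ l ∈ I, u l ^ 2) ^ 2 ≤ (∑ l ∈ I, u l * b l) ^ 2 :=
      pow_le_pow_left₀ (mul_nonneg hlam.le h4) h1 2
    have h8 := h7.trans h3
    have h9 : (∑ l ∈ I, u l ^ 2) * (lam ^ 2 * ∑ l ∈ I, u l ^ 2) ≤
        (∑ l ∈ I, u l ^ 2) * ∑ l ∈ I, b l ^ 2 := by
      refine le_trans (le_of_eq ?_) h8
      ring
    exact le_of_mul_le_mul_left h9 h6

theorem hh_uniq {N m : ℕ} {I : Finset Li} {w : ℤ × ℤ → ℝ} {c : Li → ℝ} {lam : ℝ} (hlam : 0 < lam)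
    (hco : Co N m I w c lam) {u v : Li → ℝ} (h : ∀ l ∈ I, Hh N m I w c u l = Hh N m I w c v l) :
    ∀ l ∈ I, u l = v l := by
  have h1 : ∀ l ∈ I, Hh N m I w c (fun l => 1 * u l + (-1) * v l) l = (0 : Li → ℝ) l := by
    intro l hl
    rw [hh_lin, h l hl]
    simp
  have h2 := hh_bound hlam hco h1
  have h3 : ∑ l ∈ I, ((0 : Li → ℝ) l) ^ 2 = 0 := by simp
  rw [h3] at h2
  have h4 : 0 ≤ ∑ l ∈ I, (1 * u l + (-1) * v l) ^ 2 := Finset.sum_nonneg fun l _ => sq_nonneg _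
  have h5 : ∑ l ∈ I, (1 * u l + (-1) * v l) ^ 2 = 0 := by
    have h6 : 0 < lam ^ 2 := by positivity
    nlinarith
  rw [Finset.sum_eq_zero_iff_of_nonneg fun l _ => sq_nonneg _] at h5
  intro l hl
  have h7 := h5 l hl
  have h8 : 1 * u l + (-1) * v l = 0 := by
    exact pow_eq_zero_iff (two_ne_zero) |>.1 h7
  linarith

open Classical in
/-- extension by zero -/
private noncomputable def hx {I : Finset Li} (x : {l // l ∈ I} → ℝ) (l : Li) : ℝ :=
  if h : l ∈ I then x ⟨l, h⟩ else 0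

private theorem hx_mem {I : Finset Li} (x : {l // l ∈ I} → ℝ) {l : Li} (h : l ∈ I) :
    hx x l = x ⟨l, h⟩ := by
  unfold hx
  rw [dif_pos h]

private theorem hx_not {I : Finset Li} (x : {l // l ∈ I} → ℝ) {l : Li} (h : l ∉ I) :
    hx x l = 0 := by
  unfold hx
  rw [dif_neg h]

private theorem hx_lin {I : Finset Li} (x y : {l // l ∈ I} → ℝ) (a b : ℝ) :
    hx (fun l => a * x l + b * y l) = fun l => a * hx x l + b * hx y l := by
  funext l
  by_cases h : l ∈ I
  · rw [hx_mem _ h, hx_mem _ h, hx_mem _ h]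
  · rw [hx_not _ h, hx_not _ h, hx_not _ h]
    ring

/-- the operator on the functions on `I` -/
private noncomputable def hT (N m : ℕ) (I : Finset Li) (w : ℤ × ℤ → ℝ) (c : Li → ℝ) :
    ({l // l ∈ I} → ℝ) →ₗ[ℝ] ({l // l ∈ I} → ℝ) where
  toFun x l := Hh N m I w c (hx x) l
  map_add' x y := by
    funext l
    have h1 := hx_lin x y 1 1
    have h2 : (fun l => 1 * x l + 1 * y l) = x + y := by
      funext l
      simp
    rw [h2] at h1
    rw [h1, hh_lin]
    simp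
  map_smul' a x := by
    funext l
    have h1 := hx_lin x x a 0
    have h2 : (fun l => a * x l + 0 * x l) = a • x := by
      funext l
      simp
    rw [h2] at h1
    rw [h1, hh_lin]
    simp

theorem hh_sol {N m : ℕ} {I : Finset Li} {w : ℤ × ℤ → ℝ} {c : Li → ℝ} {lam : ℝ} (hlam : 0 < lam)
    (hco : Co N m I w c lam) (b : Li → ℝ) :
    ∃ u : Li → ℝ, (∀ l, l ∉ I → u l = 0) ∧ ∀ l ∈ I, Hh N m I w c u l = b l := by
  have hinj : Function.Injective (hT N m I w c) := by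
    intro x y hxy
    funext l
    have h1 : ∀ l ∈ I, Hh N m I w c (hx x) l = Hh N m I w c (hx y) l := by
      intro l hl
      exact congrFun hxy ⟨l, hl⟩
    have h2 := hh_uniq hlam hco h1 l.1 l.2
    rw [hx_mem _ l.2, hx_mem _ l.2] at h2
    exact h2
  have hsurj : Function.Surjective (hT N m I w c) := LinearMap.injective_iff_surjective.1 hinj
  obtain ⟨x, hxb⟩ := hsurj fun l => b l
  refine ⟨hx x, fun l hl => hx_not x hl, fun l hl => ?_⟩
  exact congrFun hxb ⟨l, hl⟩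

theorem hh_ga {N m : ℕ} {I : Finset Li} {w : ℤ × ℤ → ℝ} {c : Li → ℝ} (hm : 1 ≤ m) (hv : Vd N m I)
    (hrc : ∀ l ∈ I, rc l → c l = 0) : ∀ l ∈ I, Hh N m I w c ga l = ga l := by
  intro l hl
  have h1 : ∑ e ∈ Sl N I l, w e * ds ga e = 0 :=
    Finset.sum_eq_zero fun e _ => by rw [ds_ga, mul_zero]
  have h2 : gs I ga = 2 * m := by
    rw [← (ga_sum hv).1]
    unfold gs
    refine Finset.sum_congr rfl fun l _ => ?_
    ring
  have h3 : c l * ga l = 0 := by
    by_cases h : rc l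
    · rw [hrc l hl h, zero_mul]
    · have h4 : ga l = 0 := by
        unfold ga
        unfold rc at h
        have h5 : l.1 ≠ 0 := fun h6 => h (by rw [h6]; decide)
        have h6 : l.1 ≠ 1 := fun h6 => h (by rw [h6]; decide)
        rw [if_neg h5, if_neg h6]
      rw [h4, mul_zero]
  have hm' : (2 * (m : ℝ)) ≠ 0 := by
    have : (1 : ℝ) ≤ m := by exact_mod_cast hm
    linarith
  unfold Hh
  rw [h1, h2, h3, mul_div_assoc, div_self hm']
  ring

theorem hh_gs {N m : ℕ} {I : Finset Li} {w : ℤ × ℤ → ℝ} {c : Li → ℝ} (hm : 1 ≤ m) (hv : Vd N m I)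
    (hrc : ∀ l ∈ I, rc l → c l = 0) {b u : Li → ℝ} (h : ∀ l ∈ I, Hh N m I w c u l = b l) :
    gs I u = gs I b := by
  have h1 : gs I b = ∑ l ∈ I, ga l * Hh N m I w c u l :=
    Finset.sum_congr rfl fun l hl => by rw [h l hl]
  have h2 : gs I u = ∑ l ∈ I, u l * Hh N m I w c ga l :=
    Finset.sum_congr rfl fun l hl => by rw [hh_ga hm hv hrc l hl, mul_comm]
  rw [h1, h2, hh_pair, hh_pair]
  have h3 : ∑ e ∈ Sq N I, w e * ds ga e * ds u e = ∑ e ∈ Sq N I, w e * ds u e * ds ga e :=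
    Finset.sum_congr rfl fun e _ => by ring
  have h4 : ∑ l ∈ I, c l * ga l * u l = ∑ l ∈ I, c l * u l * ga l :=
    Finset.sum_congr rfl fun e _ => by ring
  rw [h3, h4, mul_comm (gs I ga)]

end Pool.Agent.NQL
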