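import Pool.Agent.NQL.Defs
import Pool.Agent.NQL.ABas
import Pool.Agent.NQL.ASol

/-!
# NQL-AInv: the inverse of the Hessian and its trace identity

`h l` = solution of `Hh (h l) = indicator of l`.
-/

set_option autoImplicit false

open Finset

namespace Pool.Agent.NQL

open Pool.Agent.NQ (board dsum F Ent Dg phi ln Q Qset QS NonAtt bern)
open Pool.Agent.NQR (Adm Opt Bd Rf hS hD hh InR)

theorem exists_inv {N m : ℕ} {I : Finset Li} {w : ℤ × ℤ → ℝ} {c : Li → ℝ} {lam : ℝ} (hlam : 0 < lam)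
    (hco : Co N m I w c lam) : ∃ h : Li → Li → ℝ, (∀ l l', l' ∉ I → h l l' = 0) ∧
      (∀ l ∈ I, ∀ l' ∈ I, Hh N m I w c (h l) l' = if l' = l then 1 else 0) ∧
      (∀ l ∈ I, ∀ l' ∈ I, h l l' = h l' l) := by
  choose h h1 h2 using fun l : Li =>
    hh_sol (N := N) (m := m) hlam hco (fun l' => if l' = l then 1 else 0)
  refine ⟨h, h1, fun l _ l' hl' => h2 l l' hl', ?_⟩
  have key : ∀ l ∈ I, ∀ v : Li → ℝ, ∑ x ∈ I, v x * Hh N m I w c (h l) x = v l := by
    intro l hl v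
    have e : ∀ x ∈ I, v x * Hh N m I w c (h l) x = if x = l then v l else 0 := by
      intro x hx
      rw [h2 l x hx]
      by_cases hxl : x = l
      · rw [if_pos hxl, if_pos hxl, hxl, mul_one]
      · rw [if_neg hxl, if_neg hxl, mul_zero]
    rw [Finset.sum_congr rfl e, Finset.sum_ite_eq', if_pos hl]
  intro l hl l' hl'
  rw [← key l' hl' (h l), ← key l hl (h l'), hh_pair, hh_pair]
  have e1 : ∑ e ∈ Sq N I, w e * ds (h l') e * ds (h l) e =
      ∑ e ∈ Sq N I, w e * ds (h l) e * ds (h l') e :=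
    Finset.sum_congr rfl fun e _ => by ring
  have e2 : ∑ x ∈ I, c x * h l' x * h l x = ∑ x ∈ I, c x * h l x * h l' x :=
    Finset.sum_congr rfl fun x _ => by ring
  rw [e1, e2, mul_comm (gs I (h l'))]

theorem hh_trace {N m : ℕ} {I : Finset Li} {w : ℤ × ℤ → ℝ} {c : Li → ℝ} (hm : 1 ≤ m) (hv : Vd N m I)
    (hrc : ∀ l ∈ I, rc l → c l = 0) {h : Li → Li → ℝ}
    (hh : ∀ l ∈ I, ∀ l' ∈ I, Hh N m I w c (h l) l' = if l' = l then 1 else 0) :
    ∑ e ∈ Sq N I, w e * ∑ k : Fin 4, ∑ k' : Fin 4, h (k, ln k e) (k', ln k' e) =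
      (I.card : ℝ) - 1 - ∑ l ∈ I, c l * h l l := by
  have hm' : (2 * (m : ℝ)) ≠ 0 := by
    have : (0 : ℝ) < m := by exact_mod_cast hm
    positivity
  have hgs : ∀ l ∈ I, gs I (h l) = ga l := by
    intro l hl
    rw [hh_gs (b := fun l' => if l' = l then 1 else 0) hm hv hrc (hh l hl)]
    unfold gs
    have e : ∀ x ∈ I, ga x * (if x = l then (1 : ℝ) else 0) = if x = l then ga l else 0 := by
      intro x _
      by_cases hxl : x = l
      · rw [if_pos hxl, if_pos hxl, hxl, mul_one]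
      · rw [if_neg hxl, if_neg hxl, mul_zero]
    rw [Finset.sum_congr rfl e, Finset.sum_ite_eq', if_pos hl]
  have h1 : ∀ l ∈ I, (1 : ℝ) = ∑ e ∈ Sl N I l, w e * ds (h l) e + c l * h l l +
      ga l ^ 2 / (2 * m) := by
    intro l hl
    have h2 := hh l hl l hl
    rw [if_pos rfl] at h2
    unfold Hh at h2
    rw [hgs l hl] at h2
    rw [pow_two]
    exact h2.symm
  have h3 : (I.card : ℝ) = ∑ l ∈ I, ∑ e ∈ Sl N I l, w e * ds (h l) e + ∑ l ∈ I, c l * h l l +
      (∑ l ∈ I, ga l ^ 2) / (2 * m) := by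
    rw [Finset.sum_div, ← Finset.sum_add_distrib, ← Finset.sum_add_distrib,
      ← Finset.sum_congr rfl h1, Finset.sum_const, nsmul_eq_mul, mul_one]
  rw [(ga_sum hv).1, div_self hm', line_sum (fun e l => w e * ds (h l) e)] at h3
  have h4 : ∑ e ∈ Sq N I, w e * ∑ k : Fin 4, ∑ k' : Fin 4, h (k, ln k e) (k', ln k' e) =
      ∑ e ∈ Sq N I, ∑ k : Fin 4, w e * ds (h (k, ln k e)) e := by
    refine Finset.sum_congr rfl fun e _ => ?_
    rw [Finset.mul_sum]
    rfl
  rw [h4, h3]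
  ring

end Pool.Agent.NQL
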