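import Pool.Agent.NQL.Defs
import Pool.Agent.NQL.ABas
import Pool.Agent.NQL.ASol
import Pool.Agent.NQL.AInv

/-!
# NQL-ADia: diagonal entries of the inverse for diagonals of the board

`M u = Hh u - u` is symmetric; with `b = M i`, `u = i - h l`, one has `Hh u = b` and
`h l l - 1 - ∑ b² = - ⟨b, M b⟩ + ⟨M u, M b⟩`; sup and `l¹` bounds of `M b`.
-/

set_option autoImplicit false

open Finset

namespace Pool.Agent.NQL

open Pool.Agent.NQ (board dsum F Ent Dg phi ln Q Qset QS NonAtt bern)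
open Pool.Agent.NQR (Adm Opt Bd Rf hS hD hh InR)

private noncomputable def adM (N m : ℕ) (I : Finset Li) (w : ℤ × ℤ → ℝ) (c : Li → ℝ) (u : Li → ℝ)
    (l : Li) : ℝ := Hh N m I w c u l - u l

private theorem adM_eq {N m : ℕ} {I : Finset Li} {w : ℤ × ℤ → ℝ} {c : Li → ℝ}
    (hst : ∀ l ∈ I, ∑ e ∈ Sl N I l, w e + c l = 1) (u : Li → ℝ) {l : Li} (hl : l ∈ I) :
    adM N m I w c u l = ∑ e ∈ Sl N I l, w e * (ds u e - u l) + ga l * gs I u / (2 * m) := by
  unfold adM Hh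
  have h1 : ∑ e ∈ Sl N I l, w e * (ds u e - u l) =
      ∑ e ∈ Sl N I l, w e * ds u e - (∑ e ∈ Sl N I l, w e) * u l := by
    rw [Finset.sum_mul, ← Finset.sum_sub_distrib]
    exact Finset.sum_congr rfl fun e _ => by ring
  have h2 : ∑ e ∈ Sl N I l, w e = 1 - c l := by linarith [hst l hl]
  rw [h1, h2]
  ring

private theorem adM_symm {N m : ℕ} {I : Finset Li} (w : ℤ × ℤ → ℝ) (c u v : Li → ℝ) :
    ∑ l ∈ I, v l * adM N m I w c u l = ∑ l ∈ I, u l * adM N m I w c v l := by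
  have h1 := hh_pair (N := N) (m := m) (I := I) w c u v
  have h2 := hh_pair (N := N) (m := m) (I := I) w c v u
  have h3 : ∑ e ∈ Sq N I, w e * ds u e * ds v e = ∑ e ∈ Sq N I, w e * ds v e * ds u e :=
    Finset.sum_congr rfl fun e _ => by ring
  have h4 : ∑ l ∈ I, c l * u l * v l = ∑ l ∈ I, c l * v l * u l :=
    Finset.sum_congr rfl fun e _ => by ring
  have h5 : ∀ x y : Li → ℝ, ∑ l ∈ I, x l * adM N m I w c y l =
      ∑ l ∈ I, x l * Hh N m I w c y l - ∑ l ∈ I, x l * y l := by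
    intro x y
    rw [← Finset.sum_sub_distrib]
    exact Finset.sum_congr rfl fun l _ => by unfold adM; ring
  have h6 : ∑ l ∈ I, v l * u l = ∑ l ∈ I, u l * v l :=
    Finset.sum_congr rfl fun e _ => by ring
  rw [h5, h5, h1, h2, h3, h4, h6]
  ring

private theorem ga_abs (l : Li) : |ga l| = ga l ^ 2 ∧ |ga l| ≤ 1 := by
  unfold ga
  split_ifs <;> norm_num

private theorem ds_sub (b : Li → ℝ) {e : ℤ × ℤ} {l : Li} (he : ln l.1 e = l.2) :
    ds b e - b l = ∑ k ∈ (univ : Finset (Fin 4)).erase l.1, b (k, ln k e) := by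
  have h1 : b l = b (l.1, ln l.1 e) := by rw [he]
  unfold ds
  rw [h1, ← Finset.add_sum_erase univ (fun k => b (k, ln k e)) (Finset.mem_univ l.1)]
  ring

private theorem gs_abs {I : Finset Li} {b : Li → ℝ} (hb : ∀ l ∈ I, 0 ≤ b l) :
    |gs I b| ≤ ∑ l ∈ I, b l := by
  unfold gs
  refine (Finset.abs_sum_le_sum_abs _ _).trans (Finset.sum_le_sum fun l hl => ?_)
  rw [abs_mul, abs_of_nonneg (hb l hl)]
  have := mul_le_mul_of_nonneg_right (ga_abs l).2 (hb l hl)
  linarith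

/-- the part without the gauge term -/
private theorem ad_part {N m : ℕ} {I : Finset Li} {K : ℝ} (hm : 1 ≤ m) {w : ℤ × ℤ → ℝ}
    (hK : 1 ≤ K) (hw : ∀ e ∈ Sq N I, 0 ≤ w e ∧ w e ≤ K / m) {b : Li → ℝ}
    (hb : ∀ l ∈ I, 0 ≤ b l) {l : Li} (hl : l ∈ I) :
    0 ≤ ∑ e ∈ Sl N I l, w e * (ds b e - b l) ∧
      ∑ e ∈ Sl N I l, w e * (ds b e - b l) ≤ 3 * K / m * ∑ l' ∈ I, b l' := by
  have hm0 : (0 : ℝ) < m := by exact_mod_cast hm
  have hS : ∀ e ∈ Sl N I l, 0 ≤ ds b e - b l := by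
    intro e he
    obtain ⟨h1, h2⟩ := mem_Sl.1 he
    rw [ds_sub b h2]
    exact Finset.sum_nonneg fun k _ => hb _ ((mem_Sq.1 h1).2 k)
  constructor
  · exact Finset.sum_nonneg fun e he => mul_nonneg (hw e (mem_Sl.1 he).1).1 (hS e he)
  · have h1 : ∑ e ∈ Sl N I l, w e * (ds b e - b l) ≤
        ∑ e ∈ Sl N I l, K / m * (ds b e - b l) :=
      Finset.sum_le_sum fun e he =>
        mul_le_mul_of_nonneg_right (hw e (mem_Sl.1 he).1).2 (hS e he)
    have h2 : ∑ e ∈ Sl N I l, (ds b e - b l) =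
        ∑ k ∈ (univ : Finset (Fin 4)).erase l.1, ∑ e ∈ Sl N I l, b (k, ln k e) := by
      rw [Finset.sum_comm]
      exact Finset.sum_congr rfl fun e he => ds_sub b (mem_Sl.1 he).2
    have h3 : ∑ k ∈ (univ : Finset (Fin 4)).erase l.1, ∑ e ∈ Sl N I l, b (k, ln k e) ≤
        ∑ k ∈ (univ : Finset (Fin 4)).erase l.1, ∑ l' ∈ I, b l' :=
      Finset.sum_le_sum fun k hk => cross1 l (Finset.ne_of_mem_erase hk) b hb
    have h4 : ((univ : Finset (Fin 4)).erase l.1).card = 3 := by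
      rw [Finset.card_erase_of_mem (Finset.mem_univ _), Finset.card_univ, Fintype.card_fin]
    rw [Finset.sum_const, h4, nsmul_eq_mul] at h3
    rw [← Finset.mul_sum, h2] at h1
    have h5 : K / m * ∑ k ∈ (univ : Finset (Fin 4)).erase l.1, ∑ e ∈ Sl N I l, b (k, ln k e) ≤
        K / m * (3 * ∑ l' ∈ I, b l') := by
      refine mul_le_mul_of_nonneg_left ?_ (by positivity)
      simpa using h3
    refine (h1.trans h5).trans (le_of_eq ?_)
    ring

private theorem adM_sup {N m : ℕ} {I : Finset Li} {K : ℝ} (hm : 1 ≤ m) {w : ℤ × ℤ → ℝ}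
    {c : Li → ℝ} (hst : ∀ l ∈ I, ∑ e ∈ Sl N I l, w e + c l = 1)
    (hK : 1 ≤ K) (hw : ∀ e ∈ Sq N I, 0 ≤ w e ∧ w e ≤ K / m) {b : Li → ℝ}
    (hb : ∀ l ∈ I, 0 ≤ b l) {l : Li} (hl : l ∈ I) :
    |adM N m I w c b l| ≤ (3 * K + 1) / m * ∑ l' ∈ I, b l' := by
  have hm0 : (0 : ℝ) < m := by exact_mod_cast hm
  obtain ⟨h1, h2⟩ := ad_part hm hK hw hb hl
  rw [adM_eq hst b hl]
  have hS : 0 ≤ ∑ l' ∈ I, b l' := Finset.sum_nonneg hb
  have h3 : |ga l * gs I b / (2 * m)| ≤ 1 / m * ∑ l' ∈ I, b l' := by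
    rw [abs_div, abs_mul, abs_of_pos (by positivity : (0 : ℝ) < 2 * m), div_le_iff₀ (by positivity)]
    have h4 : |ga l| * |gs I b| ≤ 1 * ∑ l' ∈ I, b l' :=
      mul_le_mul (ga_abs l).2 (gs_abs hb) (abs_nonneg _) (by norm_num)
    have h5 : 1 / (m : ℝ) * (∑ l' ∈ I, b l') * (2 * m) = 2 * ∑ l' ∈ I, b l' := by
      field_simp
    rw [h5]
    linarith
  refine (abs_add_le _ _).trans ?_
  rw [abs_of_nonneg h1]
  have h6 : (3 * K + 1) / m * ∑ l' ∈ I, b l' =
      3 * K / m * (∑ l' ∈ I, b l') + 1 / m * ∑ l' ∈ I, b l' := by ring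
  rw [h6]
  linarith

private theorem adM_one {N m : ℕ} {I : Finset Li} {K : ℝ} (hm : 1 ≤ m) (hv : Vd N m I)
    {w : ℤ × ℤ → ℝ} {c : Li → ℝ} (hc0 : ∀ l ∈ I, 0 ≤ c l)
    (hst : ∀ l ∈ I, ∑ e ∈ Sl N I l, w e + c l = 1)
    (hK : 1 ≤ K) (hw : ∀ e ∈ Sq N I, 0 ≤ w e ∧ w e ≤ K / m) {b : Li → ℝ}
    (hb : ∀ l ∈ I, 0 ≤ b l) :
    ∑ l ∈ I, |adM N m I w c b l| ≤ 4 * ∑ l' ∈ I, b l' := by
  have hm0 : (0 : ℝ) < m := by exact_mod_cast hm
  have hS : 0 ≤ ∑ l' ∈ I, b l' := Finset.sum_nonneg hb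
  have h1 : ∀ l ∈ I, |adM N m I w c b l| ≤ ∑ e ∈ Sl N I l, w e * (ds b e - b l) +
      ga l ^ 2 * ((∑ l' ∈ I, b l') / (2 * m)) := by
    intro l hl
    rw [adM_eq hst b hl]
    refine (abs_add_le _ _).trans ?_
    rw [abs_of_nonneg (ad_part hm hK hw hb hl).1]
    have h2 : |ga l * gs I b / (2 * m)| ≤ ga l ^ 2 * ((∑ l' ∈ I, b l') / (2 * m)) := by
      rw [abs_div, abs_mul, abs_of_pos (by positivity : (0 : ℝ) < 2 * m), (ga_abs l).1,
        mul_div_assoc]
      exact mul_le_mul_of_nonneg_left (div_le_div_of_nonneg_right (gs_abs hb) (by positivity))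
        (sq_nonneg _)
    linarith
  refine (Finset.sum_le_sum h1).trans ?_
  rw [Finset.sum_add_distrib, ← Finset.sum_mul, (ga_sum hv).1]
  have h2 : ∑ l ∈ I, ∑ e ∈ Sl N I l, w e * (ds b e - b l) ≤ 3 * ∑ l' ∈ I, b l' := by
    rw [line_sum (fun e l => w e * (ds b e - b l))]
    have h3 : ∀ e ∈ Sq N I, ∑ k : Fin 4, w e * (ds b e - b (k, ln k e)) =
        3 * ∑ k : Fin 4, w e * b (k, ln k e) := by
      intro e _
      rw [← Finset.mul_sum, ← Finset.mul_sum, Finset.sum_sub_distrib, Finset.sum_const,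
        Finset.card_univ, Fintype.card_fin, nsmul_eq_mul]
      unfold ds
      push_cast
      ring
    rw [Finset.sum_congr rfl h3, ← Finset.mul_sum, ← line_sum (fun e l => w e * b l)]
    refine mul_le_mul_of_nonneg_left (Finset.sum_le_sum fun l hl => ?_) (by norm_num)
    rw [← Finset.sum_mul]
    have h4 : ∑ e ∈ Sl N I l, w e ≤ 1 := by linarith [hst l hl, hc0 l hl]
    have := mul_le_mul_of_nonneg_right h4 (hb l hl)
    linarith
  have h3 : 2 * (m : ℝ) * ((∑ l' ∈ I, b l') / (2 * m)) = ∑ l' ∈ I, b l' := by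
    field_simp
  rw [h3]
  linarith

private theorem adM_sq {N m : ℕ} {I : Finset Li} {K : ℝ} (hm : 1 ≤ m) (hv : Vd N m I)
    {w : ℤ × ℤ → ℝ} {c : Li → ℝ} (hc0 : ∀ l ∈ I, 0 ≤ c l)
    (hst : ∀ l ∈ I, ∑ e ∈ Sl N I l, w e + c l = 1)
    (hK : 1 ≤ K) (hw : ∀ e ∈ Sq N I, 0 ≤ w e ∧ w e ≤ K / m) {b : Li → ℝ}
    (hb : ∀ l ∈ I, 0 ≤ b l) :
    ∑ l ∈ I, adM N m I w c b l ^ 2 ≤ 4 * (3 * K + 1) / m * (∑ l' ∈ I, b l') ^ 2 := by
  have hm0 : (0 : ℝ) < m := by exact_mod_cast hm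
  have hS : 0 ≤ ∑ l' ∈ I, b l' := Finset.sum_nonneg hb
  have h1 : ∑ l ∈ I, adM N m I w c b l ^ 2 ≤
      ∑ l ∈ I, ((3 * K + 1) / m * ∑ l' ∈ I, b l') * |adM N m I w c b l| := by
    refine Finset.sum_le_sum fun l hl => ?_
    rw [← sq_abs, sq]
    exact mul_le_mul_of_nonneg_right (adM_sup hm hst hK hw hb hl) (abs_nonneg _)
  rw [← Finset.mul_sum] at h1
  refine h1.trans ?_
  have h2 := mul_le_mul_of_nonneg_left (adM_one hm hv hc0 hst hK hw hb)
    (by positivity : 0 ≤ (3 * K + 1) / m * ∑ l' ∈ I, b l')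
  refine h2.trans (le_of_eq ?_)
  ring

/-- sum over the squares on both lines `l`, `l0`, `l ≠ l0` -/
private noncomputable def adB (N : ℕ) (I : Finset Li) (l0 : Li) (f : ℤ × ℤ → ℝ) (l : Li) : ℝ :=
  ∑ e ∈ Sl N I l, if On e l0 ∧ l ≠ l0 then f e else 0

private theorem adB_self (N : ℕ) (I : Finset Li) (l0 : Li) (f : ℤ × ℤ → ℝ) :
    adB N I l0 f l0 = 0 := by
  unfold adB
  exact Finset.sum_eq_zero fun e _ => if_neg fun h => h.2 rfl

private theorem adB_sum {N : ℕ} {I : Finset Li} (l0 : Li) (f : ℤ × ℤ → ℝ) :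
    ∑ l ∈ I, adB N I l0 f l = 3 * ∑ e ∈ Sl N I l0, f e := by
  unfold adB
  rw [line_sum (fun e l => if On e l0 ∧ l ≠ l0 then f e else 0)]
  have h1 : Sl N I l0 = (Sq N I).filter (fun e => On e l0) := rfl
  rw [h1, Finset.sum_filter, Finset.mul_sum]
  refine Finset.sum_congr rfl fun e _ => ?_
  by_cases he : On e l0
  · rw [if_pos he]
    have h2 : ∀ k : Fin 4, (if On e l0 ∧ ((k, ln k e) : Li) ≠ l0 then f e else 0) =
        f e - if k = l0.1 then f e else 0 := by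
      intro k
      by_cases hk : k = l0.1
      · rw [if_pos hk, if_neg, sub_self]
        rintro ⟨-, h3⟩
        apply h3
        rw [hk]
        exact Prod.ext rfl he
      · rw [if_neg hk, if_pos, sub_zero]
        exact ⟨he, fun h3 => hk (congrArg Prod.fst h3)⟩
    rw [Finset.sum_congr rfl fun k _ => h2 k, Finset.sum_sub_distrib, Finset.sum_const,
      Finset.card_univ, Fintype.card_fin, nsmul_eq_mul, Finset.sum_ite_eq' univ l0.1,
      if_pos (Finset.mem_univ _)]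
    push_cast
    ring
  · rw [if_neg he, mul_zero]
    exact Finset.sum_eq_zero fun k _ => if_neg fun h => he h.1

private theorem adB_sq {N : ℕ} {I : Finset Li} (l0 : Li) (f : ℤ × ℤ → ℝ) (l : Li) :
    adB N I l0 f l ^ 2 = adB N I l0 (fun e => f e ^ 2) l := by
  unfold adB
  by_cases hl : l = l0
  · rw [Finset.sum_eq_zero fun e _ => if_neg fun h => h.2 hl,
      Finset.sum_eq_zero fun e _ => if_neg fun h => h.2 hl]
    norm_num
  · rw [← Finset.sum_filter, ← Finset.sum_filter]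
    have hsub : ∀ e ∈ (Sl N I l).filter (fun e => On e l0 ∧ l ≠ l0),
        ∀ e' ∈ (Sl N I l).filter (fun e => On e l0 ∧ l ≠ l0), e = e' := by
      intro e he e' he'
      obtain ⟨h1, h2, -⟩ := Finset.mem_filter.1 he
      obtain ⟨h1', h2', -⟩ := Finset.mem_filter.1 he'
      have h3 : ln l.1 e = ln l.1 e' := (mem_Sl.1 h1).2.trans (mem_Sl.1 h1').2.symm
      have h4 : ln l0.1 e = ln l0.1 e' := (show ln l0.1 e = l0.2 from h2).trans
        (show ln l0.1 e' = l0.2 from h2').symm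
      by_cases hk : l.1 = l0.1
      · exfalso
        apply hl
        refine Prod.ext hk ?_
        have h5 : ln l0.1 e = l0.2 := h2
        rw [← (mem_Sl.1 h1).2, ← h5, hk]
      · exact two_lines hk h3 h4
    rcases ((Sl N I l).filter (fun e => On e l0 ∧ l ≠ l0)).eq_empty_or_nonempty with h0 | ⟨e0, h0⟩
    · rw [h0]
      norm_num
    · have h1 : (Sl N I l).filter (fun e => On e l0 ∧ l ≠ l0) = {e0} := by
        ext e
        rw [Finset.mem_singleton]
        exact ⟨fun h => hsub e h e0 h0, fun h => by rw [h]; exact h0⟩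
      rw [h1, Finset.sum_singleton, Finset.sum_singleton]

/-- the indicator of a diagonal -/
private noncomputable def adi (l0 : Li) (l : Li) : ℝ := if l = l0 then 1 else 0

private theorem ad_ds (l0 : Li) (e : ℤ × ℤ) : ds (adi l0) e = if On e l0 then 1 else 0 := by
  unfold ds adi
  by_cases he : On e l0
  · have h9 : ((l0.1, ln l0.1 e) : Li) = l0 := Prod.ext rfl he
    rw [if_pos he, Finset.sum_eq_single l0.1]
    · rw [if_pos h9]
    · intro k _ hk
      exact if_neg fun h => hk (congrArg Prod.fst h)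
    · intro h
      exact absurd (Finset.mem_univ _) h
  · rw [if_neg he]
    refine Finset.sum_eq_zero fun k _ => if_neg fun h => he ?_
    have h1 : k = l0.1 := congrArg Prod.fst h
    have h2 : ln k e = l0.2 := congrArg Prod.snd h
    rw [h1] at h2
    exact h2

private theorem ad_hi {N m : ℕ} {I : Finset Li} {w : ℤ × ℤ → ℝ} {c : Li → ℝ}
    (hst : ∀ l ∈ I, ∑ e ∈ Sl N I l, w e + c l = 1) {l0 : Li} (hl0 : l0 ∈ I) (hd : ¬ rc l0)
    {l : Li} (hl : l ∈ I) :
    Hh N m I w c (adi l0) l = adi l0 l + adB N I l0 w l := by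
  have h0 : gs I (adi l0) = 0 := by
    unfold gs adi
    rw [Finset.sum_eq_single l0]
    · rw [if_pos rfl, mul_one]
      unfold ga
      unfold rc at hd
      rw [if_neg, if_neg]
      · intro h
        apply hd
        rw [h]
        norm_num
      · intro h
        apply hd
        rw [h]
        norm_num
    · intro l' _ h'
      rw [if_neg h', mul_zero]
    · intro h
      exact absurd hl0 h
  unfold Hh
  rw [h0, mul_zero, zero_div, add_zero]
  by_cases h1 : l = l0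
  · subst h1
    rw [adB_self, add_zero]
    have h2 : adi l l = 1 := if_pos rfl
    rw [h2, mul_one]
    have h3 : ∑ e ∈ Sl N I l, w e * ds (adi l) e = ∑ e ∈ Sl N I l, w e := by
      refine Finset.sum_congr rfl fun e he => ?_
      rw [ad_ds, if_pos (show On e l from (mem_Sl.1 he).2), mul_one]
    rw [h3]
    exact hst l hl
  · have h2 : adi l0 l = 0 := if_neg h1
    rw [h2, mul_zero, add_zero, zero_add]
    unfold adB
    refine Finset.sum_congr rfl fun e _ => ?_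
    rw [ad_ds]
    by_cases he : On e l0
    · rw [if_pos he, if_pos ⟨he, h1⟩, mul_one]
    · rw [if_neg he, if_neg fun h => he h.1, mul_zero]

theorem diag_inv {K lam : ℝ} (hK : 1 ≤ K) (hl : 0 < lam) : ∃ C : ℝ, 1 ≤ C ∧
    ∀ (N m : ℕ) (I : Finset Li) (w : ℤ × ℤ → ℝ) (c : Li → ℝ), 1 ≤ m → Vd N m I →
      (∀ e ∈ Sq N I, 0 ≤ w e ∧ w e ≤ K / m) → (∀ l ∈ I, 0 ≤ c l) → (∀ l ∈ I, rc l → c l = 0) →
      (∀ l ∈ I, ∑ e ∈ Sl N I l, w e + c l = 1) → Co N m I w c lam →
      ∀ h : Li → Li → ℝ, (∀ l l', l' ∉ I → h l l' = 0) →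
      (∀ l ∈ I, ∀ l' ∈ I, Hh N m I w c (h l) l' = if l' = l then 1 else 0) →
      ∀ l ∈ I, ¬ rc l → |h l l - 1 - 3 * ∑ e ∈ Sl N I l, w e ^ 2| ≤ C * (1 - c l) ^ 2 / m := by
  refine ⟨9 * (3 * K + 1) + 36 * (3 * K + 1) / lam, ?_, ?_⟩
  · have h1 : 0 ≤ 36 * (3 * K + 1) / lam := by positivity
    linarith
  intro N m I w c hm hv hw hc0 hrc hst hco h h0 hh l0 hl0 hd
  have hm0 : (0 : ℝ) < m := by exact_mod_cast hm
  set b : Li → ℝ := adB N I l0 w with hbdef
  set u : Li → ℝ := fun l => 1 * adi l0 l + (-1) * h l0 l with hudef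
  have hb : ∀ l ∈ I, 0 ≤ b l := by
    intro l _
    refine Finset.sum_nonneg fun e he => ?_
    split_ifs
    · exact (hw e (mem_Sl.1 he).1).1
    · exact le_rfl
  have hp : ∑ e ∈ Sl N I l0, w e = 1 - c l0 := by linarith [hst l0 hl0]
  have hS : ∑ l ∈ I, b l = 3 * (1 - c l0) := by rw [hbdef, adB_sum, hp]
  have hb2 : ∑ l ∈ I, b l ^ 2 = 3 * ∑ e ∈ Sl N I l0, w e ^ 2 := by
    rw [Finset.sum_congr rfl fun l _ => adB_sq l0 w l, adB_sum]
  have hu : ∀ l ∈ I, Hh N m I w c u l = b l := by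
    intro l hl
    rw [hudef, hh_lin, ad_hi hst hl0 hd hl, hh l0 hl0 l hl]
    unfold adi
    ring
  have hMu : ∀ l ∈ I, adM N m I w c u l = b l - u l := fun l hl => by
    unfold adM
    rw [hu l hl]
  -- `⟨b, u⟩ = h l l - 1`
  have hbu : ∑ l ∈ I, b l * u l = h l0 l0 - 1 := by
    have h1 := hh_pair (N := N) (m := m) (I := I) w c (adi l0) u
    have h2 := hh_pair (N := N) (m := m) (I := I) w c u (adi l0)
    have h3 : ∑ e ∈ Sq N I, w e * ds (adi l0) e * ds u e =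
        ∑ e ∈ Sq N I, w e * ds u e * ds (adi l0) e :=
      Finset.sum_congr rfl fun e _ => by ring
    have h4 : ∑ l ∈ I, c l * adi l0 l * u l = ∑ l ∈ I, c l * u l * adi l0 l :=
      Finset.sum_congr rfl fun e _ => by ring
    rw [h3, h4, mul_comm (gs I (adi l0)) (gs I u), ← h2] at h1
    have h5 : ∀ v : Li → ℝ, ∑ l ∈ I, adi l0 l * v l = v l0 := by
      intro v
      rw [Finset.sum_eq_single l0]
      · unfold adi
        rw [if_pos rfl, one_mul]
      · intro l _ hne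
        unfold adi
        rw [if_neg hne, zero_mul]
      · intro hn
        exact absurd hl0 hn
    rw [h5, hu l0 hl0] at h1
    have h6 : b l0 = 0 := adB_self N I l0 w
    rw [h6] at h1
    have h7 : ∑ l ∈ I, u l * Hh N m I w c (adi l0) l = u l0 + ∑ l ∈ I, b l * u l := by
      rw [← h5 u, ← Finset.sum_add_distrib]
      refine Finset.sum_congr rfl fun l hl => ?_
      rw [ad_hi hst hl0 hd hl]
      ring
    rw [h7] at h1
    have h8 : u l0 = 1 - h l0 l0 := by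
      have h9 : adi l0 l0 = 1 := if_pos rfl
      change 1 * adi l0 l0 + (-1) * h l0 l0 = _
      rw [h9]
      ring
    rw [h8] at h1
    linarith
  -- the error
  have herr : h l0 l0 - 1 - 3 * ∑ e ∈ Sl N I l0, w e ^ 2 =
      -(∑ l ∈ I, b l * adM N m I w c b l) +
        ∑ l ∈ I, adM N m I w c u l * adM N m I w c b l := by
    have h1 : ∑ l ∈ I, b l * adM N m I w c u l = ∑ l ∈ I, b l ^ 2 - ∑ l ∈ I, b l * u l := by
      rw [← Finset.sum_sub_distrib]
      exact Finset.sum_congr rfl fun l hl => by rw [hMu l hl]; ring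
    have h2 := adM_symm (N := N) (m := m) (I := I) w c u b
    have h3 : ∑ l ∈ I, u l * adM N m I w c b l = ∑ l ∈ I, b l * adM N m I w c b l -
        ∑ l ∈ I, adM N m I w c u l * adM N m I w c b l := by
      rw [← Finset.sum_sub_distrib]
      exact Finset.sum_congr rfl fun l hl => by rw [hMu l hl]; ring
    rw [h1, h3] at h2
    rw [hb2, hbu] at h2
    linarith
  -- bounds
  have hB1 : |∑ l ∈ I, b l * adM N m I w c b l| ≤ (3 * K + 1) / m * (∑ l ∈ I, b l) ^ 2 := by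
    refine (Finset.abs_sum_le_sum_abs _ _).trans ?_
    have h1 : ∀ l ∈ I, |b l * adM N m I w c b l| ≤ b l * ((3 * K + 1) / m * ∑ l' ∈ I, b l') := by
      intro l hl
      rw [abs_mul, abs_of_nonneg (hb l hl)]
      exact mul_le_mul_of_nonneg_left (adM_sup hm hst hK hw hb hl) (hb l hl)
    refine (Finset.sum_le_sum h1).trans (le_of_eq ?_)
    rw [← Finset.sum_mul]
    ring
  have hMM : lam ^ 2 * ∑ l ∈ I, adM N m I w c u l ^ 2 ≤ ∑ l ∈ I, adM N m I w c b l ^ 2 := by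
    refine hh_bound hl hco fun l hl' => ?_
    have h1 : adM N m I w c u = fun l => 1 * Hh N m I w c u l + (-1) * u l := by
      funext l
      unfold adM
      ring
    rw [h1, hh_lin, hu l hl', hh_congr hu l hl']
    unfold adM
    ring
  have hsq := adM_sq hm hv hc0 hst hK hw hb
  have hB2 : |∑ l ∈ I, adM N m I w c u l * adM N m I w c b l| ≤
      1 / lam * ∑ l ∈ I, adM N m I w c b l ^ 2 := by
    refine (Finset.abs_sum_le_sum_abs _ _).trans ?_
    have h1 : ∀ l ∈ I, |adM N m I w c u l * adM N m I w c b l| ≤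
        lam / 2 * adM N m I w c u l ^ 2 + 1 / (2 * lam) * adM N m I w c b l ^ 2 := by
      intro l _
      rw [abs_mul, ← sq_abs (adM N m I w c u l), ← sq_abs (adM N m I w c b l)]
      generalize |adM N m I w c u l| = x
      generalize |adM N m I w c b l| = y
      have h2 : lam / 2 * x ^ 2 + 1 / (2 * lam) * y ^ 2 - x * y =
          1 / (2 * lam) * (lam * x - y) ^ 2 := by
        field_simp
        ring
      have h3 : 0 ≤ 1 / (2 * lam) * (lam * x - y) ^ 2 := by positivity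
      linarith
    refine (Finset.sum_le_sum h1).trans ?_
    rw [Finset.sum_add_distrib, ← Finset.mul_sum, ← Finset.mul_sum]
    have h4 : lam / 2 * ∑ l ∈ I, adM N m I w c u l ^ 2 ≤
        1 / (2 * lam) * ∑ l ∈ I, adM N m I w c b l ^ 2 := by
      have h5 : lam / 2 * ∑ l ∈ I, adM N m I w c u l ^ 2 =
          1 / (2 * lam) * (lam ^ 2 * ∑ l ∈ I, adM N m I w c u l ^ 2) := by
        field_simp
      rw [h5]
      exact mul_le_mul_of_nonneg_left hMM (by positivity)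
    have h6 : 1 / lam * ∑ l ∈ I, adM N m I w c b l ^ 2 =
        1 / (2 * lam) * (∑ l ∈ I, adM N m I w c b l ^ 2) +
          1 / (2 * lam) * ∑ l ∈ I, adM N m I w c b l ^ 2 := by
      field_simp
      ring
    rw [h6]
    linarith
  have hB3 : 1 / lam * ∑ l ∈ I, adM N m I w c b l ^ 2 ≤
      1 / lam * (4 * (3 * K + 1) / m * (∑ l ∈ I, b l) ^ 2) :=
    mul_le_mul_of_nonneg_left hsq (by positivity)
  rw [herr]
  refine (abs_add_le _ _).trans ?_
  rw [abs_neg]
  rw [hS] at hB1 hB3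
  have hfin : (9 * (3 * K + 1) + 36 * (3 * K + 1) / lam) * (1 - c l0) ^ 2 / m =
      (3 * K + 1) / m * (3 * (1 - c l0)) ^ 2 +
        1 / lam * (4 * (3 * K + 1) / m * (3 * (1 - c l0)) ^ 2) := by
    field_simp
    ring
  rw [hfin]
  linarith

end Pool.Agent.NQL
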