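import Pool.Agent.NQL.Defs
import Pool.Agent.NQL.ABas
import Pool.Agent.NQL.AVal
import Pool.Agent.NQL.AInv
import Pool.Agent.NQL.ADia

/-!
# NQL-AMean: the mean of the second order term

Trace identity of the inverse Hessian and the diagonal entries of the inverse.
-/

set_option autoImplicit false

open Finset

namespace Pool.Agent.NQL

open Pool.Agent.NQ (board dsum F Ent Dg phi ln Q Qset QS NonAtt bern)
open Pool.Agent.NQR (Adm Opt Bd Rf hS hD hh InR)

private theorem amean_dg_rc {l : Li} (h : rc l) : dg l = 0 := by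
  simp [dg, h]

private theorem amean_dg_not {l : Li} (h : ¬ rc l) : dg l = 1 := by
  simp [dg, h]

private theorem amean_dg_nonneg (l : Li) : 0 ≤ dg l := by
  by_cases h : rc l
  · rw [amean_dg_rc h]
  · rw [amean_dg_not h]; norm_num

private theorem amean_ga (l : Li) : ga l ^ 2 = 1 - dg l := by
  obtain ⟨k, a⟩ := l
  fin_cases k <;> simp [ga, dg, rc]

private theorem amean_dsum (e : ℤ × ℤ) :
    ∑ k : Fin 4, dg (k, ln k e) = 2 := by
  rw [Fin.sum_univ_four]
  simp only [dg, rc]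
  norm_num

theorem mean_xi {K lam : ℝ} (hK : 1 ≤ K) (hl : 0 < lam) : ∃ C : ℝ, 1 ≤ C ∧
    ∀ (N m : ℕ) (I : Finset Li) (z : Li → ℝ), 1 ≤ m → Vd N m I → Reg K lam N m I z →
      ∀ h : Li → Li → ℝ, (∀ l l', l' ∉ I → h l l' = 0) →
      (∀ l ∈ I, ∀ l' ∈ I, Hh N m I (wt z) (fun l => dg l * Real.exp (z l)) (h l) l' = if l' = l then 1 else 0) →
      |∑ e ∈ Sq N I, wt z e / m * (2 - 3 * wt z e -
        (∑ k : Fin 4, ∑ k' : Fin 4, h (k, ln k e) (k', ln k' e)) / 2) - 1 / (2 * m)| ≤ C * P2 I z / m ^ 2 := by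
  obtain ⟨C, hC1, hC⟩ := diag_inv hK hl
  refine ⟨3 * K + C, by linarith, ?_⟩
  intro N m I z hm hv hr h h0 hh
  have hm0 : (0 : ℝ) < m := by exact_mod_cast hm
  have hcrc : ∀ l ∈ I, rc l → (fun l => dg l * Real.exp (z l)) l = 0 := by
    intro l _ hrc
    simp [amean_dg_rc hrc]
  have hT := hh_trace hm hv hcrc hh
  -- the entries
  have key : ∀ l ∈ I, |dg l - dg l * Real.exp (z l) * h l l - dg l * (1 - Real.exp (z l)) +
      3 * (dg l * ∑ e ∈ Sl N I l, wt z e ^ 2)| ≤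
      (3 * K + C) / m * (dg l * (1 - Real.exp (z l)) ^ 2) := by
    intro l hlI
    by_cases hrc : rc l
    · rw [amean_dg_rc hrc]
      simp
    · have hd := hC N m I (wt z) (fun l => dg l * Real.exp (z l)) hm hv
        (fun e he => ⟨(Real.exp_pos _).le, hr.up e he⟩)
        (fun l _ => mul_nonneg (amean_dg_nonneg l) (Real.exp_pos _).le) hcrc
        (fun l hl => hr.st l hl) hr.co h h0 hh l hlI hrc
      obtain ⟨m1, m2, m3, -⟩ := mass_dg hr.st hlI
      have m3' := m3 hrc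
      rw [m3'] at m1 m2
      have hs0 : 0 ≤ ∑ e ∈ Sl N I l, wt z e ^ 2 := Finset.sum_nonneg fun e _ => sq_nonneg _
      have hs1 : ∑ e ∈ Sl N I l, wt z e ^ 2 ≤ K / m * (1 - Real.exp (z l)) := by
        rw [← m3', Finset.mul_sum]
        refine Finset.sum_le_sum fun e he => ?_
        have he' : e ∈ Sq N I := (mem_Sl.mp he).1
        rw [pow_two]
        exact mul_le_mul_of_nonneg_right (hr.up e he') (Real.exp_pos _).le
      simp only [amean_dg_not hrc, one_mul] at hd ⊢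
      set x := Real.exp (z l) with hx
      have hx0 : 0 < x := Real.exp_pos _
      set s := ∑ e ∈ Sl N I l, wt z e ^ 2 with hs
      have e1 : 1 - x * h l l - (1 - x) + 3 * s = 3 * (s * (1 - x)) - x * (h l l - 1 - 3 * s) := by
        ring
      rw [e1]
      have b1 : |3 * (s * (1 - x))| ≤ 3 * (K / m * (1 - x) ^ 2) := by
        rw [abs_of_nonneg (by positivity)]
        have := mul_le_mul_of_nonneg_right hs1 m1
        nlinarith
      have b2 : |x * (h l l - 1 - 3 * s)| ≤ C * (1 - x) ^ 2 / m := by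
        rw [abs_mul, abs_of_pos hx0]
        have hx1 : x ≤ 1 := by linarith
        calc x * |h l l - 1 - 3 * s| ≤ 1 * |h l l - 1 - 3 * s| :=
              mul_le_mul_of_nonneg_right hx1 (abs_nonneg _)
          _ ≤ C * (1 - x) ^ 2 / m := by rw [one_mul]; exact hd
      calc |3 * (s * (1 - x)) - x * (h l l - 1 - 3 * s)|
          ≤ |3 * (s * (1 - x))| + |x * (h l l - 1 - 3 * s)| := abs_sub _ _
        _ ≤ 3 * (K / m * (1 - x) ^ 2) + C * (1 - x) ^ 2 / m := add_le_add b1 b2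
        _ = (3 * K + C) / m * (1 - x) ^ 2 := by ring
  have hsum : |∑ l ∈ I, (dg l - dg l * Real.exp (z l) * h l l - dg l * (1 - Real.exp (z l)) +
      3 * (dg l * ∑ e ∈ Sl N I l, wt z e ^ 2))| ≤ (3 * K + C) / m * P2 I z := by
    unfold P2
    rw [Finset.mul_sum]
    exact (Finset.abs_sum_le_sum_abs _ _).trans (Finset.sum_le_sum key)
  -- the sums
  have s1 : ∑ l ∈ I, dg l * (1 - Real.exp (z l)) = 2 * m := sum_dg hv hr.st
  have s2 : ∑ l ∈ I, dg l * ∑ e ∈ Sl N I l, wt z e ^ 2 = 2 * ∑ e ∈ Sq N I, wt z e ^ 2 := by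
    have h1 := line_sum (N := N) (I := I) (fun e l => dg l * wt z e ^ 2)
    simp only [← Finset.mul_sum] at h1
    rw [h1, Finset.mul_sum]
    refine Finset.sum_congr rfl fun e _ => ?_
    rw [← Finset.sum_mul, amean_dsum e]
  have s3 : ∑ e ∈ Sq N I, wt z e = m := sum_wt hv hr.st
  have s4 : (I.card : ℝ) = 2 * m + ∑ l ∈ I, dg l := by
    have h1 := (ga_sum hv).1
    have h2 : ∑ l ∈ I, ga l ^ 2 = ∑ l ∈ I, (1 - dg l) := Finset.sum_congr rfl fun l _ => amean_ga l
    rw [h2, Finset.sum_sub_distrib, Finset.sum_const, nsmul_eq_mul, mul_one] at h1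
    linarith
  set W := ∑ e ∈ Sq N I, wt z e * ∑ k : Fin 4, ∑ k' : Fin 4, h (k, ln k e) (k', ln k' e) with hW
  set s := ∑ e ∈ Sq N I, wt z e ^ 2 with hs
  have hE : ∑ l ∈ I, (dg l - dg l * Real.exp (z l) * h l l - dg l * (1 - Real.exp (z l)) +
      3 * (dg l * ∑ e ∈ Sl N I l, wt z e ^ 2)) = W - (4 * m - 1 - 6 * s) := by
    rw [Finset.sum_add_distrib, Finset.sum_sub_distrib, Finset.sum_sub_distrib, ← Finset.mul_sum,
      s1, s2, hT, s4]
    ring
  rw [hE] at hsum
  have hL : ∑ e ∈ Sq N I, wt z e / m * (2 - 3 * wt z e -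
      (∑ k : Fin 4, ∑ k' : Fin 4, h (k, ln k e) (k', ln k' e)) / 2) =
      2 / m * m - 3 / m * s - 1 / (2 * m) * W := by
    rw [← s3, hs, hW, Finset.mul_sum, Finset.mul_sum, Finset.mul_sum, ← Finset.sum_sub_distrib,
      ← Finset.sum_sub_distrib, s3]
    refine Finset.sum_congr rfl fun e _ => ?_
    field_simp
  rw [hL]
  have hfin : 2 / m * m - 3 / m * s - 1 / (2 * m) * W - 1 / (2 * m) =
      -(1 / (2 * (m : ℝ))) * (W - (4 * m - 1 - 6 * s)) := by
    field_simp
    ring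
  rw [hfin, abs_mul, abs_neg, abs_of_pos (by positivity)]
  have hP : 0 ≤ P2 I z :=
    Finset.sum_nonneg fun l _ => mul_nonneg (amean_dg_nonneg l) (sq_nonneg _)
  have hnn : 0 ≤ (3 * K + C) / m * P2 I z := by
    have : 0 ≤ 3 * K + C := by linarith
    positivity
  calc 1 / (2 * (m : ℝ)) * |W - (4 * m - 1 - 6 * s)|
      ≤ 1 / (2 * (m : ℝ)) * ((3 * K + C) / m * P2 I z) :=
        mul_le_mul_of_nonneg_left hsum (by positivity)
    _ ≤ 1 / (m : ℝ) * ((3 * K + C) / m * P2 I z) := by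
        refine mul_le_mul_of_nonneg_right ?_ hnn
        exact one_div_le_one_div_of_le hm0 (by linarith)
    _ = (3 * K + C) * P2 I z / m ^ 2 := by
        field_simp

end Pool.Agent.NQL
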