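import Pool.Agent.NQL.Defs
import Pool.Agent.NQL.ABas
import Pool.Agent.NQL.AVal
import Pool.Agent.NQL.ASol
import Pool.Agent.NQL.AInv

/-!
# NQL-ATri: the trial direction

For a square `e0` and `on` the indicator of its four lines, `u = ∑_k h (k, ln k e0) - on` satisfies `Hh u = - R on`, where
`Hh v l = v l + R v l + ga l * gs v / (2 m)` on `I`; `0 ≤ R on ≤ 12 K / m`, `∑ R on ≤ 12`.
-/

set_option autoImplicit false

open Finset

namespace Pool.Agent.NQL

open Pool.Agent.NQ (board dsum F Ent Dg phi ln Q Qset QS NonAtt bern)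
open Pool.Agent.NQR (Adm Opt Bd Rf hS hD hh InR)

private noncomputable def tr_on (e0 : ℤ × ℤ) : Li → ℝ := fun l => if On e0 l then 1 else 0

private noncomputable def tr_R (N : ℕ) (I : Finset Li) (w : ℤ × ℤ → ℝ) (v : Li → ℝ) (l : Li) : ℝ :=
  ∑ e ∈ Sl N I l, w e * ∑ k ∈ Finset.univ.erase l.1, v (k, ln k e)

private theorem tr_on_nonneg (e0 : ℤ × ℤ) (l : Li) : 0 ≤ tr_on e0 l := by
  unfold tr_on
  split_ifs <;> norm_num

private theorem tr_on_self (e0 : ℤ × ℤ) (k : Fin 4) : tr_on e0 (k, ln k e0) = 1 := by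
  unfold tr_on
  exact if_pos rfl

private theorem tr_ds {l : Li} {e : ℤ × ℤ} (he : ln l.1 e = l.2) (v : Li → ℝ) :
    ds v e = v l + ∑ k ∈ Finset.univ.erase l.1, v (k, ln k e) := by
  unfold ds
  rw [← Finset.add_sum_erase Finset.univ (fun k => v (k, ln k e)) (Finset.mem_univ l.1)]
  congr 1
  change v (l.1, ln l.1 e) = v l
  rw [he]

private theorem tr_hh {K lam : ℝ} {N m : ℕ} {I : Finset Li} {z : Li → ℝ} (hr : Reg K lam N m I z)
    (v : Li → ℝ) {l : Li} (hl : l ∈ I) :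
    Hh N m I (wt z) (fun l => dg l * Real.exp (z l)) v l =
      v l + tr_R N I (wt z) v l + ga l * gs I v / (2 * m) := by
  unfold Hh tr_R
  have h1 : ∑ e ∈ Sl N I l, wt z e * ds v e = (∑ e ∈ Sl N I l, wt z e) * v l +
      ∑ e ∈ Sl N I l, wt z e * ∑ k ∈ Finset.univ.erase l.1, v (k, ln k e) := by
    rw [Finset.sum_mul, ← Finset.sum_add_distrib]
    refine Finset.sum_congr rfl fun e he => ?_
    rw [tr_ds (mem_Sl.1 he).2 v, mul_add]
  have h2 := hr.st l hl
  rw [h1]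
  have h3 : (∑ e ∈ Sl N I l, wt z e) * v l + dg l * Real.exp (z l) * v l = v l := by
    rw [← add_mul, h2, one_mul]
  linarith

private theorem tr_sum_on {N : ℕ} {I : Finset Li} {e0 : ℤ × ℤ} (he : e0 ∈ Sq N I) (f : Li → ℝ) :
    ∑ l ∈ I, f l * tr_on e0 l = ∑ k : Fin 4, f (k, ln k e0) := by
  rw [rm_sum he (fun l => f l * tr_on e0 l)]
  have h1 : ∑ l ∈ rm I e0, f l * tr_on e0 l = 0 := by
    refine Finset.sum_eq_zero fun l hl => ?_
    have h2 : ¬ On e0 l := (mem_rm.1 hl).2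
    unfold tr_on
    rw [if_neg h2, mul_zero]
  rw [h1, zero_add]
  exact Finset.sum_congr rfl fun k _ => by rw [tr_on_self, mul_one]

private theorem tr_sum_on_one {N : ℕ} {I : Finset Li} {e0 : ℤ × ℤ} (he : e0 ∈ Sq N I) :
    ∑ l ∈ I, tr_on e0 l = 4 := by
  have h1 := tr_sum_on he (fun _ => (1 : ℝ))
  simp only [one_mul, Finset.sum_const, Finset.card_univ, Fintype.card_fin, nsmul_eq_mul,
    mul_one] at h1
  rw [h1]
  norm_num

private theorem tr_gs_on {N : ℕ} {I : Finset Li} {e0 : ℤ × ℤ} (he : e0 ∈ Sq N I) :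
    gs I (tr_on e0) = 0 := by
  unfold gs
  rw [tr_sum_on he]
  exact ds_ga e0

private theorem tr_card (l : Li) : ((Finset.univ.erase l.1 : Finset (Fin 4)).card : ℝ) = 3 := by
  rw [Finset.card_erase_of_mem (Finset.mem_univ _), Finset.card_univ, Fintype.card_fin]
  norm_num

private theorem tr_R_nonneg {N : ℕ} {I : Finset Li} {e0 : ℤ × ℤ} (z : Li → ℝ) (l : Li) :
    0 ≤ tr_R N I (wt z) (tr_on e0) l := by
  unfold tr_R
  exact Finset.sum_nonneg fun e _ => mul_nonneg (Real.exp_pos _).le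
    (Finset.sum_nonneg fun k _ => tr_on_nonneg e0 _)

private theorem tr_R_le {K lam : ℝ} {N m : ℕ} {I : Finset Li} {z : Li → ℝ} (hK : 0 ≤ K)
    (hr : Reg K lam N m I z) {e0 : ℤ × ℤ} (he : e0 ∈ Sq N I) (l : Li) :
    tr_R N I (wt z) (tr_on e0) l ≤ 12 * (K / m) := by
  have hKm : 0 ≤ K / (m : ℝ) := div_nonneg hK (Nat.cast_nonneg _)
  unfold tr_R
  calc ∑ e ∈ Sl N I l, wt z e * ∑ k ∈ Finset.univ.erase l.1, tr_on e0 (k, ln k e)
      ≤ ∑ e ∈ Sl N I l, K / m * ∑ k ∈ Finset.univ.erase l.1, tr_on e0 (k, ln k e) := by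
        refine Finset.sum_le_sum fun e hes => ?_
        exact mul_le_mul_of_nonneg_right (hr.up e (mem_Sl.1 hes).1)
          (Finset.sum_nonneg fun k _ => tr_on_nonneg e0 _)
    _ = K / m * ∑ k ∈ Finset.univ.erase l.1, ∑ e ∈ Sl N I l, tr_on e0 (k, ln k e) := by
        rw [← Finset.mul_sum, Finset.sum_comm]
    _ ≤ K / m * ∑ k ∈ (Finset.univ.erase l.1 : Finset (Fin 4)), (4 : ℝ) := by
        refine mul_le_mul_of_nonneg_left (Finset.sum_le_sum fun k hk => ?_) hKm
        have := cross1 (N := N) (I := I) l (Finset.ne_of_mem_erase hk) (tr_on e0)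
          (fun l' _ => tr_on_nonneg e0 l')
        rwa [tr_sum_on_one he] at this
    _ = 12 * (K / m) := by
        rw [Finset.sum_const, nsmul_eq_mul, tr_card]
        ring

private theorem tr_R_sum {K lam : ℝ} {N m : ℕ} {I : Finset Li} {z : Li → ℝ}
    (hr : Reg K lam N m I z) {e0 : ℤ × ℤ} (he : e0 ∈ Sq N I) :
    ∑ l ∈ I, tr_R N I (wt z) (tr_on e0) l ≤ 12 := by
  have h1 : ∑ l ∈ I, tr_R N I (wt z) (tr_on e0) l =
      ∑ l ∈ I, ∑ e ∈ Sl N I l, wt z e * (ds (tr_on e0) e - tr_on e0 l) := by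
    refine Finset.sum_congr rfl fun l _ => ?_
    unfold tr_R
    refine Finset.sum_congr rfl fun e hes => ?_
    rw [tr_ds (mem_Sl.1 hes).2 (tr_on e0)]
    ring
  have h2 : ∑ l ∈ I, ∑ e ∈ Sl N I l, wt z e * (ds (tr_on e0) e - tr_on e0 l) =
      ∑ e ∈ Sq N I, ∑ k : Fin 4, wt z e * (ds (tr_on e0) e - tr_on e0 (k, ln k e)) :=
    line_sum (N := N) (I := I) (fun e l => wt z e * (ds (tr_on e0) e - tr_on e0 l))
  have h3 : ∑ e ∈ Sq N I, ∑ k : Fin 4, wt z e * (ds (tr_on e0) e - tr_on e0 (k, ln k e)) =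
      3 * ∑ e ∈ Sq N I, ∑ k : Fin 4, wt z e * tr_on e0 (k, ln k e) := by
    rw [Finset.mul_sum]
    refine Finset.sum_congr rfl fun e _ => ?_
    have h4 : ∑ k : Fin 4, wt z e * tr_on e0 (k, ln k e) = wt z e * ds (tr_on e0) e := by
      rw [← Finset.mul_sum]
      rfl
    rw [h4]
    simp only [mul_sub, Finset.sum_sub_distrib]
    rw [h4, Finset.sum_const, Finset.card_univ, Fintype.card_fin, nsmul_eq_mul]
    push_cast
    ring
  have h4 : ∑ l ∈ I, ∑ e ∈ Sl N I l, wt z e * tr_on e0 l =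
      ∑ e ∈ Sq N I, ∑ k : Fin 4, wt z e * tr_on e0 (k, ln k e) :=
    line_sum (N := N) (I := I) (fun e l => wt z e * tr_on e0 l)
  have h5 : ∑ l ∈ I, ∑ e ∈ Sl N I l, wt z e * tr_on e0 l ≤ 4 := by
    rw [← tr_sum_on_one he]
    refine Finset.sum_le_sum fun l hl => ?_
    rw [← Finset.sum_mul]
    have h6 := (mass_dg hr.st hl).2.1
    calc (∑ e ∈ Sl N I l, wt z e) * tr_on e0 l ≤ 1 * tr_on e0 l :=
          mul_le_mul_of_nonneg_right h6 (tr_on_nonneg e0 l)
      _ = tr_on e0 l := one_mul _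
  rw [h1, h2, h3, ← h4]
  linarith

private theorem tr_R_abs {K lam : ℝ} {N m : ℕ} {I : Finset Li} {z : Li → ℝ} (hK : 0 ≤ K)
    (hr : Reg K lam N m I z) (u : Li → ℝ) {l : Li} (hl : l ∈ I) :
    |tr_R N I (wt z) u l| ≤ 3 * (Real.sqrt (K / m) * Real.sqrt (∑ l' ∈ I, u l' ^ 2)) := by
  have hKm : 0 ≤ K / (m : ℝ) := div_nonneg hK (Nat.cast_nonneg _)
  have h0 : ∑ e ∈ Sl N I l, wt z e ^ 2 ≤ K / m := by
    calc ∑ e ∈ Sl N I l, wt z e ^ 2 ≤ ∑ e ∈ Sl N I l, K / m * wt z e := by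
          refine Finset.sum_le_sum fun e hes => ?_
          rw [pow_two]
          exact mul_le_mul_of_nonneg_right (hr.up e (mem_Sl.1 hes).1) (Real.exp_pos _).le
      _ = K / m * ∑ e ∈ Sl N I l, wt z e := by rw [Finset.mul_sum]
      _ ≤ K / m * 1 := mul_le_mul_of_nonneg_left (mass_dg hr.st hl).2.1 hKm
      _ = K / m := mul_one _
  unfold tr_R
  calc |∑ e ∈ Sl N I l, wt z e * ∑ k ∈ Finset.univ.erase l.1, u (k, ln k e)|
      ≤ ∑ e ∈ Sl N I l, |wt z e * ∑ k ∈ Finset.univ.erase l.1, u (k, ln k e)| :=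
        Finset.abs_sum_le_sum_abs _ _
    _ ≤ ∑ e ∈ Sl N I l, ∑ k ∈ Finset.univ.erase l.1, |wt z e * u (k, ln k e)| := by
        refine Finset.sum_le_sum fun e _ => ?_
        rw [Finset.mul_sum]
        exact Finset.abs_sum_le_sum_abs _ _
    _ = ∑ k ∈ Finset.univ.erase l.1, ∑ e ∈ Sl N I l, |wt z e * u (k, ln k e)| := Finset.sum_comm
    _ ≤ ∑ k ∈ (Finset.univ.erase l.1 : Finset (Fin 4)),
          Real.sqrt (K / m) * Real.sqrt (∑ l' ∈ I, u l' ^ 2) := by
        refine Finset.sum_le_sum fun k hk => ?_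
        refine (cross (N := N) (I := I) l (Finset.ne_of_mem_erase hk) (wt z) u).trans ?_
        exact mul_le_mul_of_nonneg_right (Real.sqrt_le_sqrt h0) (Real.sqrt_nonneg _)
    _ = 3 * (Real.sqrt (K / m) * Real.sqrt (∑ l' ∈ I, u l' ^ 2)) := by
        rw [Finset.sum_const, nsmul_eq_mul, tr_card]

theorem trial {K lam : ℝ} (hK : 1 ≤ K) (hl : 0 < lam) : ∃ C : ℝ, 1 ≤ C ∧
    ∀ (N m : ℕ) (I : Finset Li) (z : Li → ℝ), 1 ≤ m → Vd N m I → Reg K lam N m I z →
      ∀ h : Li → Li → ℝ, (∀ l l', l' ∉ I → h l l' = 0) →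
      (∀ l ∈ I, ∀ l' ∈ I, Hh N m I (wt z) (fun l => dg l * Real.exp (z l)) (h l) l' = if l' = l then 1 else 0) →
      ∀ e0 ∈ Sq N I, ∃ u : Li → ℝ, (∀ l, l ∉ I → u l = 0) ∧ (∀ l ∈ I, |u l| ≤ C / m) ∧
        ∑ l ∈ I, u l ^ 2 ≤ C / m ∧ gs I u = 0 ∧
        ds u e0 = (∑ k : Fin 4, ∑ k' : Fin 4, h (k, ln k e0) (k', ln k' e0)) - 4 ∧
        (∀ l ∈ I, Hh N m I (wt z) (fun l => dg l * Real.exp (z l)) u l =
          (if On e0 l then 1 else 0) -
            Hh N m I (wt z) (fun l => dg l * Real.exp (z l)) (fun l => if On e0 l then 1 else 0) l) := by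
  have hK0 : 0 ≤ K := by linarith
  refine ⟨1 + 12 * K + 36 * K / lam + 144 * K / lam ^ 2, ?_, ?_⟩
  · have h1 : 0 ≤ 36 * K / lam := by positivity
    have h2 : 0 ≤ 144 * K / lam ^ 2 := by positivity
    linarith
  intro N m I z hm hv hr h h0 hh e0 he0
  have hm0 : (0 : ℝ) < m := by exact_mod_cast hm
  have hrc : ∀ l ∈ I, rc l → dg l * Real.exp (z l) = 0 := by
    intro l _ hl
    have : dg l = 0 := if_pos hl
    rw [this, zero_mul]
  have hI : ∀ k, (k, ln k e0) ∈ I := (mem_Sq.1 he0).2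
  obtain ⟨U, hU⟩ : ∃ U : Li → ℝ, U = fun l => ∑ k : Fin 4, h (k, ln k e0) l := ⟨_, rfl⟩
  obtain ⟨u, hu⟩ : ∃ u : Li → ℝ, u = fun l => 1 * U l + (-1) * tr_on e0 l := ⟨_, rfl⟩
  have hon : ∀ l, l ∉ I → tr_on e0 l = 0 := by
    intro l hl
    unfold tr_on
    rw [if_neg]
    intro hc
    have hc' : ln l.1 e0 = l.2 := hc
    apply hl
    have := hI l.1
    rw [hc'] at this
    exact this
  have hHU : ∀ l ∈ I, Hh N m I (wt z) (fun l => dg l * Real.exp (z l)) U l = tr_on e0 l := by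
    intro l hl
    have h1 : Hh N m I (wt z) (fun l => dg l * Real.exp (z l)) U l =
        ∑ k : Fin 4, Hh N m I (wt z) (fun l => dg l * Real.exp (z l)) (h (k, ln k e0)) l := by
      rw [hU, Fin.sum_univ_four]
      have h2 : (fun l => ∑ k : Fin 4, h (k, ln k e0) l) = fun l =>
          1 * (fun l => 1 * h (0, ln 0 e0) l + 1 * h (1, ln 1 e0) l) l +
            1 * (fun l => 1 * h (2, ln 2 e0) l + 1 * h (3, ln 3 e0) l) l := by
        funext l
        rw [Fin.sum_univ_four]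
        ring
      rw [h2, hh_lin, hh_lin, hh_lin]
      ring
    rw [h1, Finset.sum_congr rfl fun k _ => hh (k, ln k e0) (hI k) l hl]
    unfold tr_on
    by_cases hc : On e0 l
    · rw [if_pos hc]
      have hc' : ln l.1 e0 = l.2 := hc
      rw [Finset.sum_eq_single l.1]
      · rw [if_pos]
        rw [hc']
      · intro k _ hk
        rw [if_neg]
        intro hlk
        apply hk
        rw [hlk]
      · intro hk
        exact absurd (Finset.mem_univ _) hk
    · rw [if_neg hc]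
      refine Finset.sum_eq_zero fun k _ => ?_
      rw [if_neg]
      intro hlk
      apply hc
      rw [hlk]
      exact rfl
  have hHu : ∀ l ∈ I, Hh N m I (wt z) (fun l => dg l * Real.exp (z l)) u l = tr_on e0 l -
      Hh N m I (wt z) (fun l => dg l * Real.exp (z l)) (tr_on e0) l := by
    intro l hl
    rw [hu, hh_lin, hHU l hl]
    ring
  have hgs : gs I u = 0 := by
    rw [hh_gs hm hv hrc hHu]
    have h2 : gs I (tr_on e0) =
        gs I (Hh N m I (wt z) (fun l => dg l * Real.exp (z l)) (tr_on e0)) :=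
      hh_gs hm hv hrc fun l _ => rfl
    have h3 : gs I (fun l => tr_on e0 l -
        Hh N m I (wt z) (fun l => dg l * Real.exp (z l)) (tr_on e0) l) =
        gs I (tr_on e0) - gs I (Hh N m I (wt z) (fun l => dg l * Real.exp (z l)) (tr_on e0)) := by
      unfold gs
      rw [← Finset.sum_sub_distrib]
      exact Finset.sum_congr rfl fun l _ => by ring
    rw [h3, ← h2, sub_self]
  have hb : ∀ l ∈ I, Hh N m I (wt z) (fun l => dg l * Real.exp (z l)) u l =
      - tr_R N I (wt z) (tr_on e0) l := by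
    intro l hl
    rw [hHu l hl, tr_hh hr (tr_on e0) hl, tr_gs_on he0]
    ring
  have hsq : ∑ l ∈ I, u l ^ 2 ≤ 144 * K / lam ^ 2 / m := by
    have h1 := hh_bound hl hr.co hb
    have h2 : ∑ l ∈ I, (- tr_R N I (wt z) (tr_on e0) l) ^ 2 ≤ 144 * (K / m) := by
      calc ∑ l ∈ I, (- tr_R N I (wt z) (tr_on e0) l) ^ 2
          ≤ ∑ l ∈ I, 12 * (K / m) * tr_R N I (wt z) (tr_on e0) l := by
            refine Finset.sum_le_sum fun l _ => ?_
            rw [neg_sq, pow_two]
            exact mul_le_mul_of_nonneg_right (tr_R_le hK0 hr he0 l) (tr_R_nonneg z l)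
        _ = 12 * (K / m) * ∑ l ∈ I, tr_R N I (wt z) (tr_on e0) l := by rw [Finset.mul_sum]
        _ ≤ 12 * (K / m) * 12 := mul_le_mul_of_nonneg_left (tr_R_sum hr he0) (by positivity)
        _ = 144 * (K / m) := by ring
    have h3 : lam ^ 2 * ∑ l ∈ I, u l ^ 2 ≤ 144 * (K / m) := h1.trans h2
    have h4 : 144 * K / lam ^ 2 / m = 144 * (K / m) / lam ^ 2 := by
      field_simp
    rw [h4, le_div_iff₀ (by positivity)]
    linarith
  refine ⟨u, ?_, ?_, ?_, hgs, ?_, ?_⟩
  · intro l hl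
    rw [hu]
    change 1 * U l + (-1) * tr_on e0 l = 0
    rw [hon l hl, hU]
    change 1 * (∑ k : Fin 4, h (k, ln k e0) l) + (-1) * 0 = 0
    rw [Finset.sum_eq_zero fun k _ => h0 (k, ln k e0) l hl]
    ring
  · intro l hli
    have h1 := tr_hh hr u hli
    rw [hb l hli, hgs, mul_zero, zero_div, add_zero] at h1
    have h2 : u l = - tr_R N I (wt z) (tr_on e0) l - tr_R N I (wt z) u l := by linarith
    have h3 := tr_R_abs hK0 hr u hli
    have h4 : Real.sqrt (K / m) * Real.sqrt (∑ l' ∈ I, u l' ^ 2) ≤ 12 * K / lam / m := by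
      calc Real.sqrt (K / m) * Real.sqrt (∑ l' ∈ I, u l' ^ 2)
          ≤ Real.sqrt (K / m) * Real.sqrt (144 * K / lam ^ 2 / m) :=
            mul_le_mul_of_nonneg_left (Real.sqrt_le_sqrt hsq) (Real.sqrt_nonneg _)
        _ = Real.sqrt (K / m * (144 * K / lam ^ 2 / m)) := (Real.sqrt_mul (by positivity) _).symm
        _ = Real.sqrt ((12 * K / lam / m) ^ 2) := by
            congr 1
            field_simp
            ring
        _ = 12 * K / lam / m := Real.sqrt_sq (by positivity)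
    have h5 := tr_R_le hK0 hr he0 l
    have h6 := tr_R_nonneg (N := N) (I := I) (e0 := e0) z l
    have h7 : |u l| ≤ 12 * (K / m) + 3 * (12 * K / lam / m) := by
      rw [h2]
      calc |- tr_R N I (wt z) (tr_on e0) l - tr_R N I (wt z) u l|
          ≤ |- tr_R N I (wt z) (tr_on e0) l| + |tr_R N I (wt z) u l| := abs_sub _ _
        _ ≤ 12 * (K / m) + 3 * (12 * K / lam / m) := by
            rw [abs_neg, abs_of_nonneg h6]
            linarith
    refine h7.trans ?_
    have h8 : 12 * (K / m) + 3 * (12 * K / lam / m) = (12 * K + 36 * K / lam) / m := by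
      field_simp
      ring
    rw [h8]
    apply div_le_div_of_nonneg_right _ hm0.le
    have : 0 ≤ 144 * K / lam ^ 2 := by positivity
    linarith
  · refine hsq.trans (div_le_div_of_nonneg_right ?_ hm0.le)
    have : 0 ≤ 36 * K / lam := by positivity
    linarith
  · have h1 : ds u e0 = (∑ k : Fin 4, U (k, ln k e0)) - ∑ k : Fin 4, tr_on e0 (k, ln k e0) := by
      unfold ds
      rw [hu, ← Finset.sum_sub_distrib]
      exact Finset.sum_congr rfl fun k _ => by ring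
    rw [h1, hU, Finset.sum_comm]
    have h2 : ∑ k : Fin 4, tr_on e0 (k, ln k e0) = 4 := by
      rw [Finset.sum_congr rfl fun k _ => tr_on_self e0 k, Finset.sum_const, Finset.card_univ,
        Fintype.card_fin, nsmul_eq_mul]
      norm_num
    rw [h2]
  · intro l hli
    exact hHu l hli


end Pool.Agent.NQL
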