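import Pool.Agent.NQL.Defs
import Pool.Agent.NQL.ABas
import Pool.Agent.NQL.AVal
import Pool.Agent.NQL.AExp
import Pool.Agent.NQL.ASol
import Pool.Agent.NQL.ATri

/-!
# NQL-ATay: value and gradient at the trial point

`w = wt z`, `c l = dg l exp (z l)`, `I' = rm I e0`, `u` as in `trial` with constant `C0`, `τ - 4 = ds u e0`.

PLAN (for `m` large, `4 C0/m ≤ 1`). Star = squares of `Sq N I` that share a line with `e0`; `b` as in `trial`: `b l = 3 w e0` for `l` through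
`e0`, `b l = ∑_{Sl N I l, star} w` for `l ∈ I'`; `gr N I' w c 0 l = - b l` for `l ∈ I'`. Value: Taylor (`exp_c`)
`Gw I' (-u) - Gw I' 0 = ∑_{I'} b u + (1/2) (∑_{Sq I'} w (ds u)² + ∑_{I'} c u²) + R`, `|R| ≤ ∑ w |ds u|³ + ∑ c |u|³ ≤ (4 C0/m) (Qf I u)`.
`∑_I b u = - ∑ u Hh u` and also, with `on` the indicator of the lines of `e0`, `b = Hh on - on`: `∑_I b u = ∑ on Hh u - ds u e0 = - ∑_{on} b - (τ-4) = - 12 w e0 - (τ - 4)`.
So `Qf I u = 12 w e0 + τ - 4` (`hh_pair`, `gs u = 0`), which is `≤ C/m`. `∑_{I'} b u = ∑_I b u - 3 w e0 (τ - 4)`. The quadratic form on `I'` differs from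
`Qf I u` by `∑_{star} w (ds u)² + ∑_{lines of e0} c u² ≤ 4 (4 C0/m)² ... ≤ C/m²` (`∑_{star} w ≤ 4`). Sum up:
`-12 w - (τ-4) - 3 w (τ-4) + 6 w + (τ-4)/2 + O(1/m²) = - 6 w - (τ-4)/2 + O(1/m²)`.
Gradient for `l ∈ I'`: `gr I' (-u) l = - b l - (∑_{Sl I' l} w ds u + c u l) + q l`, `|q l| ≤ ∑_{Sl l} w (ds u)² + c u l²` (`exp_q`), and
`∑_{Sl I' l} w ds u + c u l = Hh u l - ∑_{Sl I l, star} w ds u = - b l - ∑_{Sl I l, star} w ds u`. So `gr = ∑_{Sl I l, star} w ds u + q l`.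
`∑_l (∑_{Sl l, star} w ds u)² ≤ (4C0/m)² ∑_l (∑_{Sl l, star} w)² ≤ (4C0/m)² (4K/m) 16`; `∑ q² ≤ max q * ∑ q ≤ (C/m²) 4 Qf I u ≤ C/m³`.
-/

set_option autoImplicit false

open Finset

namespace Pool.Agent.NQL

open Pool.Agent.NQ (board dsum F Ent Dg phi ln Q Qset QS NonAtt bern)
open Pool.Agent.NQR (Adm Opt Bd Rf hS hD hh InR)

private noncomputable def onv (e0 : ℤ × ℤ) : Li → ℝ := fun l => if On e0 l then 1 else 0

private noncomputable def cz (z : Li → ℝ) : Li → ℝ := fun l => dg l * Real.exp (z l)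

/-- remainder of the exponential -/
private noncomputable def er (t : ℝ) : ℝ := Real.exp t - 1 - t - t ^ 2 / 2

private structure Hy (K C0 : ℝ) (N m : ℕ) (I : Finset Li) (z u : Li → ℝ) (e0 : ℤ × ℤ) :
    Prop where
  hm : (0 : ℝ) < m
  K1 : 1 ≤ K
  C1 : 1 ≤ C0
  st : St N I z
  up : ∀ e ∈ Sq N I, wt z e ≤ K / m
  he : e0 ∈ Sq N I
  ub : ∀ l, |u l| ≤ C0 / m
  g0 : gs I u = 0
  eq : ∀ l ∈ I, Hh N m I (wt z) (cz z) u l = onv e0 l - Hh N m I (wt z) (cz z) (onv e0) l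
  sm : 4 * C0 / m ≤ 1

section aux
variable {N m : ℕ} {I : Finset Li} {z u : Li → ℝ} {e0 : ℤ × ℤ} {K C0 : ℝ}

private theorem cz_nn (z : Li → ℝ) (l : Li) : 0 ≤ cz z l := by
  unfold cz dg
  split_ifs <;> positivity

private theorem wt_pos (z : Li → ℝ) (e : ℤ × ℤ) : 0 < wt z e := Real.exp_pos _

private theorem ds_le (h : Hy K C0 N m I z u e0) (e : ℤ × ℤ) : |ds u e| ≤ 4 * C0 / m := by
  unfold ds
  refine (abs_sum_le_sum_abs _ _).trans ((sum_le_sum fun k _ => h.ub (k, ln k e)).trans ?_)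
  rw [sum_const, card_univ, Fintype.card_fin, nsmul_eq_mul]
  push_cast
  exact le_of_eq (by ring)

private theorem sub_Sq : Sq N (rm I e0) ⊆ Sq N I := fun _ h => (mem_Sq_rm.1 h).1

private theorem sub_Sl (l : Li) : Sl N (rm I e0) l ⊆ Sl N I l := by
  intro e he
  rw [mem_Sl] at he ⊢
  exact ⟨sub_Sq he.1, he.2⟩

private theorem not_on {l : Li} (hl : l ∈ rm I e0) : onv e0 l = 0 := by
  unfold onv
  exact if_neg (mem_rm.1 hl).2

private theorem on_line (k : Fin 4) : onv e0 (k, ln k e0) = 1 := by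
  unfold onv
  exact if_pos rfl

private theorem ds_on_self : ds (onv e0) e0 = 4 := by
  unfold ds
  simp only [on_line]
  simp

private theorem ds_on_ne {e : ℤ × ℤ} (hne : e ≠ e0) {k : Fin 4} (hk : ln k e = ln k e0) :
    ds (onv e0) e = 1 := by
  unfold ds
  rw [Finset.sum_eq_single k]
  · unfold onv
    exact if_pos hk.symm
  · intro k' _ hk'
    unfold onv
    refine if_neg fun h => ?_
    have h' : ln k' e0 = ln k' e := h
    exact hne (two_lines hk' h'.symm hk)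
  · intro h
    exact absurd (mem_univ _) h

private theorem ds_on_zero {e : ℤ × ℤ} (h : ∀ k, ln k e ≠ ln k e0) : ds (onv e0) e = 0 := by
  unfold ds
  refine sum_eq_zero fun k _ => ?_
  unfold onv
  exact if_neg fun h' => h k (Eq.symm h')

private theorem line_mem (he : e0 ∈ Sq N I) (k : Fin 4) : (k, ln k e0) ∈ I :=
  (mem_Sq.1 he).2 k

private theorem sum_on (he : e0 ∈ Sq N I) (f : Li → ℝ) :
    ∑ l ∈ I, onv e0 l * f l = ∑ k : Fin 4, f (k, ln k e0) := by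
  rw [rm_sum he]
  have h1 : ∑ l ∈ rm I e0, onv e0 l * f l = 0 :=
    sum_eq_zero fun l hl => by rw [not_on hl, zero_mul]
  rw [h1, zero_add]
  exact sum_congr rfl fun k _ => by rw [on_line, one_mul]

private theorem gs_on (he : e0 ∈ Sq N I) : gs I (onv e0) = 0 := by
  unfold gs
  have h1 : ∑ l ∈ I, ga l * onv e0 l = ∑ l ∈ I, onv e0 l * ga l :=
    sum_congr rfl fun l _ => mul_comm _ _
  rw [h1, sum_on he, Fin.sum_univ_four]
  unfold ga
  simp

private theorem hh_eq {v : Li → ℝ} (h : gs I v = 0) (l : Li) :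
    Hh N m I (wt z) (cz z) v l = ∑ e ∈ Sl N I l, wt z e * ds v e + cz z l * v l := by
  unfold Hh
  rw [h, mul_zero, zero_div, add_zero]

private theorem hh_on_line (h : Hy K C0 N m I z u e0) (k : Fin 4) :
    Hh N m I (wt z) (cz z) u (k, ln k e0) = -(3 * wt z e0) := by
  rw [h.eq _ (line_mem h.he k), hh_eq (gs_on h.he), on_line]
  have he0 : e0 ∈ Sl N I (k, ln k e0) := mem_Sl.2 ⟨h.he, rfl⟩
  have e2 : ∑ e ∈ Sl N I (k, ln k e0), wt z e * ds (onv e0) e =
      ∑ e ∈ Sl N I (k, ln k e0), wt z e + 3 * wt z e0 := by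
    have e3 : ∀ e ∈ Sl N I (k, ln k e0), wt z e * ds (onv e0) e =
        wt z e + (if e = e0 then 3 * wt z e0 else 0) := by
      intro e he
      by_cases hee : e = e0
      · rw [hee, if_pos rfl, ds_on_self]
        ring
      · rw [if_neg hee, ds_on_ne hee (mem_Sl.1 he).2]
        ring
    rw [sum_congr rfl e3, sum_add_distrib, sum_ite_eq', if_pos he0]
  have e4 : ∑ e ∈ Sl N I (k, ln k e0), wt z e + cz z (k, ln k e0) = 1 :=
    h.st _ (line_mem h.he k)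
  rw [e2]
  linarith

/-- the squares of the line `l` that share a line with `e0` -/
private noncomputable def TL (N : ℕ) (I : Finset Li) (e0 : ℤ × ℤ) (l : Li) : Finset (ℤ × ℤ) :=
  Sl N I l \ Sl N (rm I e0) l

private theorem mem_TL {l : Li} {e : ℤ × ℤ} (he : e ∈ TL N I e0 l) :
    e ∈ Sq N I ∧ ln l.1 e = l.2 ∧ e ∉ Sq N (rm I e0) ∧ ∃ k, ln k e = ln k e0 := by
  unfold TL at he
  rw [mem_sdiff] at he
  obtain ⟨h1, h2⟩ := he
  obtain ⟨h3, h4⟩ := mem_Sl.1 h1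
  have h5 : e ∉ Sq N (rm I e0) := fun h => h2 (mem_Sl.2 ⟨h, h4⟩)
  refine ⟨h3, h4, h5, ?_⟩
  by_contra h6
  push Not at h6
  exact h5 (mem_Sq_rm.2 ⟨h3, h6⟩)

private theorem split_line (l : Li) (f : ℤ × ℤ → ℝ) :
    ∑ e ∈ Sl N I l, f e = ∑ e ∈ TL N I e0 l, f e + ∑ e ∈ Sl N (rm I e0) l, f e :=
  (sum_sdiff (sub_Sl l)).symm

private theorem hh_off (h : Hy K C0 N m I z u e0) {l : Li} (hl : l ∈ rm I e0) :
    Hh N m I (wt z) (cz z) u l = -∑ e ∈ TL N I e0 l, wt z e := by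
  rw [h.eq _ (mem_rm.1 hl).1, hh_eq (gs_on h.he), not_on hl, split_line (e0 := e0)]
  have e1 : ∑ e ∈ Sl N (rm I e0) l, wt z e * ds (onv e0) e = 0 := by
    refine sum_eq_zero fun e he => ?_
    rw [ds_on_zero (mem_Sq_rm.1 (mem_Sl.1 he).1).2, mul_zero]
  have e2 : ∑ e ∈ TL N I e0 l, wt z e * ds (onv e0) e = ∑ e ∈ TL N I e0 l, wt z e := by
    refine sum_congr rfl fun e he => ?_
    obtain ⟨-, h2, -, k, hk⟩ := mem_TL he
    have hne : e ≠ e0 := by
      rintro rfl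
      exact (mem_rm.1 hl).2 h2
    rw [ds_on_ne hne hk, mul_one]
  rw [e1, e2]
  ring

private theorem qf_eq (h : Hy K C0 N m I z u e0) :
    Qf N I (wt z) (cz z) u = 12 * wt z e0 + ds u e0 := by
  have h1 := hh_pair (N := N) (m := m) (I := I) (wt z) (cz z) u u
  have h2 := hh_pair (N := N) (m := m) (I := I) (wt z) (cz z) u (onv e0)
  have h3 := hh_pair (N := N) (m := m) (I := I) (wt z) (cz z) (onv e0) u
  rw [h.g0, zero_mul, zero_div, add_zero] at h1 h2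
  rw [h.g0, mul_zero, zero_div, add_zero] at h3
  rw [sum_on h.he] at h2
  simp only [hh_on_line h] at h2
  have h4 : ∑ l ∈ I, u l * Hh N m I (wt z) (cz z) u l =
      ∑ l ∈ I, onv e0 l * u l - ∑ l ∈ I, u l * Hh N m I (wt z) (cz z) (onv e0) l := by
    rw [← sum_sub_distrib]
    refine sum_congr rfl fun l hl => ?_
    rw [h.eq l hl]
    ring
  have h5 : ∑ l ∈ I, onv e0 l * u l = ds u e0 := sum_on h.he u
  have h6 : ∑ e ∈ Sq N I, wt z e * ds (onv e0) e * ds u e + ∑ l ∈ I, cz z l * onv e0 l * u l =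
      ∑ e ∈ Sq N I, wt z e * ds u e * ds (onv e0) e + ∑ l ∈ I, cz z l * u l * onv e0 l := by
    congr 1
    · exact sum_congr rfl fun e _ => by ring
    · exact sum_congr rfl fun e _ => by ring
  have h7 : Qf N I (wt z) (cz z) u =
      ∑ e ∈ Sq N I, wt z e * ds u e * ds u e + ∑ l ∈ I, cz z l * u l * u l := by
    unfold Qf
    congr 1
    · exact sum_congr rfl fun e _ => by ring
    · exact sum_congr rfl fun e _ => by ring
  rw [sum_const, card_univ, Fintype.card_fin, nsmul_eq_mul] at h2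
  push_cast at h2
  rw [h7, ← h1, h4, h5, h3, h6, ← h2]
  ring

private theorem w0_le (h : Hy K C0 N m I z u e0) : wt z e0 ≤ K / m := h.up _ h.he

private theorem qf_le (h : Hy K C0 N m I z u e0) :
    Qf N I (wt z) (cz z) u ≤ (12 * K + 4 * C0) / m := by
  rw [qf_eq h, add_div]
  have h1 := w0_le h
  have h2 := (abs_le.1 (ds_le h e0)).2
  have h3 : 12 * K / m = 12 * (K / m) := by ring
  rw [h3]
  linarith

private theorem qf_nn (N : ℕ) (I : Finset Li) (z u : Li → ℝ) : 0 ≤ Qf N I (wt z) (cz z) u := by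
  unfold Qf
  refine add_nonneg (sum_nonneg fun e _ => ?_) (sum_nonneg fun l _ => ?_)
  · exact mul_nonneg (wt_pos z e).le (sq_nonneg _)
  · exact mul_nonneg (cz_nn z l) (sq_nonneg _)

private theorem cz_le (h : Hy K C0 N m I z u e0) {l : Li} (hl : l ∈ I) : cz z l ≤ 1 := by
  have h1 : ∑ e ∈ Sl N I l, wt z e + cz z l = 1 := h.st l hl
  have h2 : 0 ≤ ∑ e ∈ Sl N I l, wt z e := sum_nonneg fun e _ => (wt_pos z e).le
  linarith

/-- the mass of the star is at most four -/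
private theorem star_le (h : Hy K C0 N m I z u e0) :
    ∑ e ∈ Sq N I \ Sq N (rm I e0), wt z e ≤ 4 := by
  have h1 := star_sum h.he (wt z)
  have h2 := sum_sdiff (f := wt z) (sub_Sq (N := N) (I := I) (e0 := e0))
  have h3 : ∀ k : Fin 4, ∑ e ∈ Sl N I (k, ln k e0), wt z e ≤ 1 := by
    intro k
    have h4 : ∑ e ∈ Sl N I (k, ln k e0), wt z e + cz z (k, ln k e0) = 1 :=
      h.st _ (line_mem h.he k)
    have h5 := cz_nn z (k, ln k e0)
    linarith
  have h4 : ∑ k : Fin 4, ∑ e ∈ Sl N I (k, ln k e0), wt z e ≤ 4 := by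
    refine (sum_le_sum fun k _ => h3 k).trans ?_
    rw [sum_const, card_univ, Fintype.card_fin, nsmul_eq_mul]
    norm_num
  have h5 := (wt_pos z e0).le
  linarith

/-- the quadratic forms of `I` and of `rm I e0` -/
private theorem qf_rm (h : Hy K C0 N m I z u e0) :
    Qf N (rm I e0) (wt z) (cz z) u ≤ Qf N I (wt z) (cz z) u ∧
      Qf N I (wt z) (cz z) u ≤ Qf N (rm I e0) (wt z) (cz z) u + 8 * (4 * C0 / m) ^ 2 := by
  have h1 := sum_sdiff (f := fun e => wt z e * ds u e ^ 2) (sub_Sq (N := N) (I := I) (e0 := e0))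
  have h2 := rm_sum h.he (fun l => cz z l * u l ^ 2)
  have hD : ∀ e, ds u e ^ 2 ≤ (4 * C0 / m) ^ 2 := fun e => sq_le_sq' (by
    have := (abs_le.1 (ds_le h e)).1
    exact this) (abs_le.1 (ds_le h e)).2
  have hm := h.hm
  have hC := h.C1
  have hCm : C0 / m ≤ 4 * C0 / m := by
    rw [mul_div_assoc]
    have : 0 ≤ C0 / m := by positivity
    linarith
  have hU : ∀ l, u l ^ 2 ≤ (4 * C0 / m) ^ 2 := fun l => sq_le_sq' (by
    have := (abs_le.1 (h.ub l)).1
    linarith) ((abs_le.1 (h.ub l)).2.trans hCm)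
  have h3 : 0 ≤ ∑ e ∈ Sq N I \ Sq N (rm I e0), wt z e * ds u e ^ 2 :=
    sum_nonneg fun e _ => mul_nonneg (wt_pos z e).le (sq_nonneg _)
  have h4 : 0 ≤ ∑ k : Fin 4, cz z (k, ln k e0) * u (k, ln k e0) ^ 2 :=
    sum_nonneg fun e _ => mul_nonneg (cz_nn z _) (sq_nonneg _)
  have h5 : ∑ e ∈ Sq N I \ Sq N (rm I e0), wt z e * ds u e ^ 2 ≤ 4 * (4 * C0 / m) ^ 2 := by
    calc ∑ e ∈ Sq N I \ Sq N (rm I e0), wt z e * ds u e ^ 2
        ≤ ∑ e ∈ Sq N I \ Sq N (rm I e0), wt z e * (4 * C0 / m) ^ 2 :=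
          sum_le_sum fun e _ => mul_le_mul_of_nonneg_left (hD e) (wt_pos z e).le
      _ = (∑ e ∈ Sq N I \ Sq N (rm I e0), wt z e) * (4 * C0 / m) ^ 2 := by rw [sum_mul]
      _ ≤ 4 * (4 * C0 / m) ^ 2 := mul_le_mul_of_nonneg_right (star_le h) (sq_nonneg _)
  have h6 : ∑ k : Fin 4, cz z (k, ln k e0) * u (k, ln k e0) ^ 2 ≤ 4 * (4 * C0 / m) ^ 2 := by
    calc ∑ k : Fin 4, cz z (k, ln k e0) * u (k, ln k e0) ^ 2
        ≤ ∑ _k : Fin 4, 1 * (4 * C0 / m) ^ 2 :=
          sum_le_sum fun k _ => mul_le_mul (cz_le h (line_mem h.he k)) (hU _) (sq_nonneg _)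
            zero_le_one
      _ = 4 * (4 * C0 / m) ^ 2 := by
          rw [sum_const, card_univ, Fintype.card_fin, nsmul_eq_mul]
          push_cast
          ring
  unfold Qf
  constructor
  · linarith
  · linarith

private theorem er_le {t : ℝ} (h : |t| ≤ 1) : |er t| ≤ |t| ^ 3 := exp_c h

private theorem ds_neg (e : ℤ × ℤ) : ds (-u) e = -ds u e := by
  unfold ds
  rw [← sum_neg_distrib]
  rfl

private theorem ds_zero (e : ℤ × ℤ) : ds (0 : Li → ℝ) e = 0 := by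
  unfold ds
  simp

private theorem exp_er (t : ℝ) : Real.exp (-t) = 1 - t + t ^ 2 / 2 + er (-t) := by
  unfold er
  ring

/-- the value, expanded -/
private theorem gw_exp (N : ℕ) (J : Finset Li) (z u : Li → ℝ) :
    Gw N J (wt z) (cz z) (-u) - Gw N J (wt z) (cz z) 0 =
      (∑ l ∈ J, u l - ∑ e ∈ Sq N J, wt z e * ds u e - ∑ l ∈ J, cz z l * u l) +
      Qf N J (wt z) (cz z) u / 2 +
      (∑ e ∈ Sq N J, wt z e * er (-ds u e) + ∑ l ∈ J, cz z l * er (-u l)) := by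
  have e1 : ∑ e ∈ Sq N J, wt z e * Real.exp (-ds u e) = ∑ e ∈ Sq N J, wt z e -
      ∑ e ∈ Sq N J, wt z e * ds u e + (∑ e ∈ Sq N J, wt z e * ds u e ^ 2) / 2 +
      ∑ e ∈ Sq N J, wt z e * er (-ds u e) := by
    rw [sum_div, ← sum_sub_distrib, ← sum_add_distrib, ← sum_add_distrib]
    refine sum_congr rfl fun e _ => ?_
    rw [exp_er]
    ring
  have e2 : ∑ l ∈ J, (cz z l * Real.exp (-u l) - -u l) = ∑ l ∈ J, cz z l -
      ∑ l ∈ J, cz z l * u l + (∑ l ∈ J, cz z l * u l ^ 2) / 2 +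
      ∑ l ∈ J, cz z l * er (-u l) + ∑ l ∈ J, u l := by
    rw [sum_div, ← sum_sub_distrib, ← sum_add_distrib, ← sum_add_distrib, ← sum_add_distrib]
    refine sum_congr rfl fun e _ => ?_
    rw [exp_er]
    ring
  unfold Gw Qf
  simp only [ds_neg, ds_zero, Pi.neg_apply, Pi.zero_apply, Real.exp_zero, mul_one, sub_zero]
  rw [e1, e2]
  ring

/-- the linear part -/
private theorem lin_part (h : Hy K C0 N m I z u e0) :
    ∑ l ∈ rm I e0, u l - ∑ e ∈ Sq N (rm I e0), wt z e * ds u e - ∑ l ∈ rm I e0, cz z l * u l =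
      -(12 * wt z e0 + ds u e0) - 3 * wt z e0 * ds u e0 := by
  have h1 : ∑ l ∈ rm I e0, ∑ e ∈ Sl N (rm I e0) l, wt z e * u l =
      ∑ e ∈ Sq N (rm I e0), ∑ k : Fin 4, wt z e * u (k, ln k e) :=
    line_sum (fun e l => wt z e * u l)
  have h2 : ∑ e ∈ Sq N (rm I e0), ∑ k : Fin 4, wt z e * u (k, ln k e) =
      ∑ e ∈ Sq N (rm I e0), wt z e * ds u e := by
    refine sum_congr rfl fun e _ => ?_
    unfold ds
    rw [mul_sum]
  rw [← h2, ← h1, ← sum_sub_distrib, ← sum_sub_distrib]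
  have h3 : ∀ l ∈ rm I e0, u l - ∑ e ∈ Sl N (rm I e0) l, wt z e * u l - cz z l * u l =
      -(u l * Hh N m I (wt z) (cz z) u l) := by
    intro l hl
    have h4 : ∑ e ∈ Sl N I l, wt z e + cz z l = 1 := h.st l (mem_rm.1 hl).1
    have h5 := split_line (N := N) (I := I) (e0 := e0) l (wt z)
    rw [hh_off h hl, ← sum_mul]
    have h6 : ∑ e ∈ TL N I e0 l, wt z e = 1 - cz z l - ∑ e ∈ Sl N (rm I e0) l, wt z e := by
      linarith
    rw [h6]
    ring
  rw [sum_congr rfl h3, sum_neg_distrib]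
  have h4 := rm_sum h.he (fun l => u l * Hh N m I (wt z) (cz z) u l)
  simp only [hh_on_line h] at h4
  have h5 := hh_pair (N := N) (m := m) (I := I) (wt z) (cz z) u u
  rw [h.g0, zero_mul, zero_div, add_zero] at h5
  have h6 : Qf N I (wt z) (cz z) u =
      ∑ e ∈ Sq N I, wt z e * ds u e * ds u e + ∑ l ∈ I, cz z l * u l * u l := by
    unfold Qf
    congr 1
    · exact sum_congr rfl fun e _ => by ring
    · exact sum_congr rfl fun e _ => by ring
  rw [← h6, qf_eq h] at h5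
  have h7 : ∑ k : Fin 4, u (k, ln k e0) * -(3 * wt z e0) = -(3 * wt z e0) * ds u e0 := by
    rw [← sum_mul]
    unfold ds
    ring
  rw [h5, h7] at h4
  linarith

private theorem val_part (h : Hy K C0 N m I z u e0) :
    |Gw N (rm I e0) (wt z) (cz z) (-u) - Gw N (rm I e0) (wt z) (cz z) 0 + 6 * wt z e0 +
      ds u e0 / 2| ≤ (60 * K * C0 + 80 * C0 ^ 2) / m ^ 2 := by
  have hm := h.hm
  have hK := h.K1
  have hC := h.C1
  obtain ⟨D, hD⟩ : ∃ D : ℝ, D = 4 * C0 / m := ⟨_, rfl⟩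
  have hD0 : 0 ≤ D := by rw [hD]; positivity
  have hCD : C0 / m ≤ D := by
    rw [hD, mul_div_assoc]
    have : 0 ≤ C0 / m := by positivity
    linarith
  have hD1 : D ≤ 1 := by rw [hD]; exact h.sm
  have hds : ∀ e, |ds u e| ≤ D := fun e => by rw [hD]; exact ds_le h e
  have hub : ∀ l, |u l| ≤ D := fun l => (h.ub l).trans hCD
  have hR1 : |∑ e ∈ Sq N (rm I e0), wt z e * er (-ds u e)| ≤
      D * ∑ e ∈ Sq N (rm I e0), wt z e * ds u e ^ 2 := by
    refine (abs_sum_le_sum_abs _ _).trans ?_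
    rw [mul_sum]
    refine sum_le_sum fun e _ => ?_
    have e1 := er_le (t := -ds u e) (by rw [abs_neg]; exact (hds e).trans hD1)
    rw [abs_neg] at e1
    rw [abs_mul, abs_of_pos (wt_pos z e)]
    have e2 : |ds u e| ^ 3 ≤ D * ds u e ^ 2 := by
      have e3 : |ds u e| ^ 3 = |ds u e| * ds u e ^ 2 := by
        rw [pow_succ, sq_abs]
        ring
      rw [e3]
      exact mul_le_mul_of_nonneg_right (hds e) (sq_nonneg _)
    calc wt z e * |er (-ds u e)| ≤ wt z e * (D * ds u e ^ 2) :=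
          mul_le_mul_of_nonneg_left (e1.trans e2) (wt_pos z e).le
      _ = _ := by ring
  have hR2 : |∑ l ∈ rm I e0, cz z l * er (-u l)| ≤ D * ∑ l ∈ rm I e0, cz z l * u l ^ 2 := by
    refine (abs_sum_le_sum_abs _ _).trans ?_
    rw [mul_sum]
    refine sum_le_sum fun l _ => ?_
    have e1 := er_le (t := -u l) (by rw [abs_neg]; exact (hub l).trans hD1)
    rw [abs_neg] at e1
    rw [abs_mul, abs_of_nonneg (cz_nn z l)]
    have e2 : |u l| ^ 3 ≤ D * u l ^ 2 := by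
      have e3 : |u l| ^ 3 = |u l| * u l ^ 2 := by
        rw [pow_succ, sq_abs]
        ring
      rw [e3]
      exact mul_le_mul_of_nonneg_right (hub l) (sq_nonneg _)
    calc cz z l * |er (-u l)| ≤ cz z l * (D * u l ^ 2) :=
          mul_le_mul_of_nonneg_left (e1.trans e2) (cz_nn z l)
      _ = _ := by ring
  obtain ⟨R1, hR1'⟩ : ∃ R1 : ℝ, R1 = ∑ e ∈ Sq N (rm I e0), wt z e * er (-ds u e) := ⟨_, rfl⟩
  obtain ⟨R2, hR2'⟩ : ∃ R2 : ℝ, R2 = ∑ l ∈ rm I e0, cz z l * er (-u l) := ⟨_, rfl⟩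
  rw [gw_exp, lin_part h, ← hR1', ← hR2']
  rw [← hR1'] at hR1
  rw [← hR2'] at hR2
  obtain ⟨h8, h9⟩ := qf_rm h
  have h10 := qf_eq h
  have h11 := qf_le h
  have hRR : |R1| + |R2| ≤ D * Qf N (rm I e0) (wt z) (cz z) u := by
    have e1 : D * Qf N (rm I e0) (wt z) (cz z) u =
        D * ∑ e ∈ Sq N (rm I e0), wt z e * ds u e ^ 2 +
          D * ∑ l ∈ rm I e0, cz z l * u l ^ 2 := by
      unfold Qf
      ring
    rw [e1]
    linarith
  have hRR' : |R1| + |R2| ≤ D * ((12 * K + 4 * C0) / m) :=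
    hRR.trans (mul_le_mul_of_nonneg_left (h8.trans h11) hD0)
  have hwx : |3 * wt z e0 * ds u e0| ≤ 3 * (K / m) * D := by
    rw [abs_mul, abs_mul, abs_of_pos (wt_pos z e0), abs_of_pos (by norm_num : (0 : ℝ) < 3)]
    exact mul_le_mul (mul_le_mul_of_nonneg_left (w0_le h) (by norm_num)) (hds e0)
      (abs_nonneg _) (by positivity)
  have e1 : D * ((12 * K + 4 * C0) / m) = (48 * K * C0 + 16 * C0 ^ 2) / m ^ 2 := by
    rw [hD]
    field_simp
    ring
  have e2 : 3 * (K / m) * D = 12 * K * C0 / m ^ 2 := by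
    rw [hD]
    field_simp
    ring
  have e3 : 4 * (4 * C0 / m) ^ 2 = 64 * C0 ^ 2 / m ^ 2 := by
    field_simp
    ring
  have e4 : (60 * K * C0 + 80 * C0 ^ 2) / m ^ 2 = (48 * K * C0 + 16 * C0 ^ 2) / m ^ 2 +
      12 * K * C0 / m ^ 2 + 64 * C0 ^ 2 / m ^ 2 := by
    rw [← add_div, ← add_div]
    congr 1
    ring
  rw [e4, ← e1, ← e2, ← e3]
  have f1 := abs_le.1 hwx
  have f2 := neg_abs_le R1
  have f3 := le_abs_self R1
  have f4 := neg_abs_le R2
  have f5 := le_abs_self R2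
  rw [h10] at h8 h9
  rw [abs_le]
  constructor
  · linarith [f1.1, f1.2]
  · linarith [f1.1, f1.2]

/-! ### the gradient -/

private noncomputable def eq1 (t : ℝ) : ℝ := Real.exp t - 1 - t

private theorem eq1_le {t : ℝ} (h : |t| ≤ 1) : |eq1 t| ≤ t ^ 2 := exp_q h

private theorem exp_eq1 (t : ℝ) : Real.exp (-t) = 1 - t + eq1 (-t) := by
  unfold eq1
  ring

private theorem gr_eq (h : Hy K C0 N m I z u e0) {l : Li} (hl : l ∈ rm I e0) :
    gr N (rm I e0) (wt z) (cz z) (-u) l = ∑ e ∈ TL N I e0 l, wt z e * ds u e +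
      (∑ e ∈ Sl N (rm I e0) l, wt z e * eq1 (-ds u e) + cz z l * eq1 (-u l)) := by
  have e1 : ∑ e ∈ Sl N (rm I e0) l, wt z e * Real.exp (-ds u e) =
      ∑ e ∈ Sl N (rm I e0) l, wt z e - ∑ e ∈ Sl N (rm I e0) l, wt z e * ds u e +
      ∑ e ∈ Sl N (rm I e0) l, wt z e * eq1 (-ds u e) := by
    rw [← sum_sub_distrib, ← sum_add_distrib]
    refine sum_congr rfl fun e _ => ?_
    rw [exp_eq1]
    ring
  have e2 : cz z l * Real.exp (-u l) = cz z l - cz z l * u l + cz z l * eq1 (-u l) := by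
    rw [exp_eq1]
    ring
  unfold gr
  simp only [ds_neg, Pi.neg_apply]
  rw [e1, e2]
  have h1 : ∑ e ∈ Sl N I l, wt z e + cz z l = 1 := h.st l (mem_rm.1 hl).1
  have h2 := split_line (N := N) (I := I) (e0 := e0) l (wt z)
  have h3 := split_line (N := N) (I := I) (e0 := e0) l (fun e => wt z e * ds u e)
  have h4 := hh_off h hl
  rw [hh_eq h.g0] at h4
  linarith

private theorem b_nn (l : Li) : 0 ≤ ∑ e ∈ TL N I e0 l, wt z e :=
  sum_nonneg fun e _ => (wt_pos z e).le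

private theorem b_le (h : Hy K C0 N m I z u e0) {l : Li} (hl : l ∈ rm I e0) :
    ∑ e ∈ TL N I e0 l, wt z e ≤ 4 * K / m := by
  have hm := h.hm
  have hK := h.K1
  have h1 : (TL N I e0 l).card ≤ 4 := by
    have h2 : TL N I e0 l ⊆ (univ : Finset (Fin 4)).biUnion
        (fun k => (Sl N I l).filter (fun e => ln k e = ln k e0)) := by
      intro e he
      obtain ⟨h3, h4, -, k, hk⟩ := mem_TL he
      exact mem_biUnion.2 ⟨k, mem_univ _, mem_filter.2 ⟨mem_Sl.2 ⟨h3, h4⟩, hk⟩⟩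
    have h3 : ∀ k : Fin 4, ((Sl N I l).filter (fun e => ln k e = ln k e0)).card ≤ 1 := by
      intro k
      rw [card_le_one]
      intro e he e' he'
      obtain ⟨a1, a2⟩ := mem_filter.1 he
      obtain ⟨b1, b2⟩ := mem_filter.1 he'
      have a3 := (mem_Sl.1 a1).2
      have b3 := (mem_Sl.1 b1).2
      have hk : k ≠ l.1 := by
        rintro rfl
        exact (mem_rm.1 hl).2 (a2.symm.trans a3)
      exact two_lines hk (a2.trans b2.symm) (a3.trans b3.symm)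
    refine (card_le_card h2).trans (card_biUnion_le.trans ?_)
    refine (sum_le_sum fun k _ => h3 k).trans ?_
    rw [sum_const, card_univ, Fintype.card_fin]
    norm_num
  have h2 : ∀ e ∈ TL N I e0 l, wt z e ≤ K / m := fun e he => h.up e (mem_TL he).1
  have h3 := sum_le_card_nsmul _ _ _ h2
  rw [nsmul_eq_mul] at h3
  have h4 : ((TL N I e0 l).card : ℝ) ≤ 4 := by exact_mod_cast h1
  have h5 : 0 ≤ K / m := by positivity
  calc ∑ e ∈ TL N I e0 l, wt z e ≤ ((TL N I e0 l).card : ℝ) * (K / m) := h3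
    _ ≤ 4 * (K / m) := mul_le_mul_of_nonneg_right h4 h5
    _ = 4 * K / m := by ring

private theorem b_sum (h : Hy K C0 N m I z u e0) :
    ∑ l ∈ rm I e0, ∑ e ∈ TL N I e0 l, wt z e ≤ 16 := by
  classical
  obtain ⟨g, hg⟩ : ∃ g : ℤ × ℤ → ℝ, g = fun e => if e ∈ Sq N (rm I e0) then 0 else wt z e :=
    ⟨_, rfl⟩
  have hg0 : ∀ e ∈ Sq N (rm I e0), g e = 0 := fun e he => by rw [hg]; exact if_pos he
  have hg1 : ∀ e, e ∉ Sq N (rm I e0) → g e = wt z e := fun e he => by rw [hg]; exact if_neg he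
  have hgn : ∀ e, 0 ≤ g e := by
    intro e
    by_cases he : e ∈ Sq N (rm I e0)
    · rw [hg0 e he]
    · rw [hg1 e he]
      exact (wt_pos z e).le
  have h1 : ∀ l, ∑ e ∈ TL N I e0 l, wt z e = ∑ e ∈ Sl N I l, g e := by
    intro l
    rw [split_line (e0 := e0)]
    have h2 : ∑ e ∈ Sl N (rm I e0) l, g e = 0 :=
      sum_eq_zero fun e he => hg0 e (mem_Sl.1 he).1
    rw [h2, add_zero]
    exact sum_congr rfl fun e he => (hg1 e (mem_TL he).2.2.1).symm
  have hsub : rm I e0 ⊆ I := fun l hl => (mem_rm.1 hl).1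
  calc ∑ l ∈ rm I e0, ∑ e ∈ TL N I e0 l, wt z e
      = ∑ l ∈ rm I e0, ∑ e ∈ Sl N I l, g e := sum_congr rfl fun l _ => h1 l
    _ ≤ ∑ l ∈ I, ∑ e ∈ Sl N I l, g e :=
        sum_le_sum_of_subset_of_nonneg hsub fun l _ _ => sum_nonneg fun e _ => hgn e
    _ = ∑ e ∈ Sq N I, ∑ _k : Fin 4, g e := line_sum (fun e _ => g e)
    _ = 4 * ∑ e ∈ Sq N I, g e := by
        rw [mul_sum]
        refine sum_congr rfl fun e _ => ?_
        rw [sum_const, card_univ, Fintype.card_fin, nsmul_eq_mul]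
        push_cast
        ring
    _ = 4 * ∑ e ∈ Sq N I \ Sq N (rm I e0), wt z e := by
        rw [← sum_sdiff (sub_Sq (N := N) (I := I) (e0 := e0)),
          sum_eq_zero (s := Sq N (rm I e0)) (fun e he => hg0 e he), add_zero]
        congr 1
        exact sum_congr rfl fun e he => hg1 e (mem_sdiff.1 he).2
    _ ≤ 4 * 4 := mul_le_mul_of_nonneg_left (star_le h) (by norm_num)
    _ = 16 := by norm_num

private theorem grad_part (h : Hy K C0 N m I z u e0) :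
    ∑ l ∈ rm I e0, gr N (rm I e0) (wt z) (cz z) (-u) l ^ 2 ≤
      (3584 * K * C0 ^ 2 + 512 * C0 ^ 3) / m ^ 3 := by
  have hm := h.hm
  have hK := h.K1
  have hC := h.C1
  obtain ⟨D, hD⟩ : ∃ D : ℝ, D = 4 * C0 / m := ⟨_, rfl⟩
  have hD0 : 0 ≤ D := by rw [hD]; positivity
  have hCD : C0 / m ≤ D := by
    rw [hD, mul_div_assoc]
    have : 0 ≤ C0 / m := by positivity
    linarith
  have hD1 : D ≤ 1 := by rw [hD]; exact h.sm
  have hds : ∀ e, |ds u e| ≤ D := fun e => by rw [hD]; exact ds_le h e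
  have hub : ∀ l, |u l| ≤ D := fun l => (h.ub l).trans hCD
  have hds2 : ∀ e, ds u e ^ 2 ≤ D ^ 2 := fun e =>
    sq_le_sq' (abs_le.1 (hds e)).1 (abs_le.1 (hds e)).2
  have hub2 : ∀ l, u l ^ 2 ≤ D ^ 2 := fun l => sq_le_sq' (abs_le.1 (hub l)).1 (abs_le.1 (hub l)).2
  obtain ⟨b, hb⟩ : ∃ b : Li → ℝ, ∀ l, b l = ∑ e ∈ TL N I e0 l, wt z e := ⟨_, fun _ => rfl⟩
  obtain ⟨S, hS⟩ : ∃ S : Li → ℝ, ∀ l, S l = ∑ e ∈ TL N I e0 l, wt z e * ds u e :=
    ⟨_, fun _ => rfl⟩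
  obtain ⟨q, hq⟩ : ∃ q : Li → ℝ, ∀ l, q l = ∑ e ∈ Sl N (rm I e0) l, wt z e * eq1 (-ds u e) +
      cz z l * eq1 (-u l) := ⟨_, fun _ => rfl⟩
  obtain ⟨G, hG⟩ : ∃ G : Li → ℝ, ∀ l, G l = ∑ e ∈ Sl N (rm I e0) l, wt z e * ds u e ^ 2 +
      cz z l * u l ^ 2 := ⟨_, fun _ => rfl⟩
  have hb0 : ∀ l, 0 ≤ b l := fun l => by rw [hb]; exact b_nn l
  have hG0 : ∀ l, 0 ≤ G l := fun l => by
    rw [hG]
    exact add_nonneg (sum_nonneg fun e _ => mul_nonneg (wt_pos z e).le (sq_nonneg _))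
      (mul_nonneg (cz_nn z l) (sq_nonneg _))
  -- the star part
  have hSb : ∀ l, |S l| ≤ D * b l := by
    intro l
    rw [hS, hb, mul_sum]
    refine (abs_sum_le_sum_abs _ _).trans (sum_le_sum fun e _ => ?_)
    rw [abs_mul, abs_of_pos (wt_pos z e), mul_comm]
    exact mul_le_mul_of_nonneg_right (hds e) (wt_pos z e).le
  have hS2 : ∑ l ∈ rm I e0, S l ^ 2 ≤ D ^ 2 * (64 * K / m) := by
    have h1 : ∀ l ∈ rm I e0, S l ^ 2 ≤ D ^ 2 * (4 * K / m) * b l := by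
      intro l hl
      have h2 : S l ^ 2 ≤ (D * b l) ^ 2 :=
        sq_le_sq' (abs_le.1 (hSb l)).1 (abs_le.1 (hSb l)).2
      have h3 : b l ≤ 4 * K / m := by rw [hb]; exact b_le h hl
      have h4 : b l ^ 2 ≤ 4 * K / m * b l := by
        rw [sq]
        exact mul_le_mul_of_nonneg_right h3 (hb0 l)
      calc S l ^ 2 ≤ (D * b l) ^ 2 := h2
        _ = D ^ 2 * b l ^ 2 := by ring
        _ ≤ D ^ 2 * (4 * K / m * b l) := mul_le_mul_of_nonneg_left h4 (sq_nonneg _)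
        _ = _ := by ring
    refine (sum_le_sum h1).trans ?_
    rw [← mul_sum]
    have h2 : ∑ l ∈ rm I e0, b l ≤ 16 := by
      simp only [hb]
      exact b_sum h
    calc D ^ 2 * (4 * K / m) * ∑ l ∈ rm I e0, b l ≤ D ^ 2 * (4 * K / m) * 16 :=
          mul_le_mul_of_nonneg_left h2 (by positivity)
      _ = _ := by ring
  -- the quadratic part
  have hqG : ∀ l, |q l| ≤ G l := by
    intro l
    rw [hq, hG]
    refine (abs_add_le _ _).trans (add_le_add ?_ ?_)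
    · refine (abs_sum_le_sum_abs _ _).trans (sum_le_sum fun e _ => ?_)
      rw [abs_mul, abs_of_pos (wt_pos z e)]
      have e1 := eq1_le (t := -ds u e) (by rw [abs_neg]; exact (hds e).trans hD1)
      rw [neg_sq] at e1
      exact mul_le_mul_of_nonneg_left e1 (wt_pos z e).le
    · rw [abs_mul, abs_of_nonneg (cz_nn z l)]
      have e1 := eq1_le (t := -u l) (by rw [abs_neg]; exact (hub l).trans hD1)
      rw [neg_sq] at e1
      exact mul_le_mul_of_nonneg_left e1 (cz_nn z l)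
  have hGD : ∀ l ∈ rm I e0, G l ≤ D ^ 2 := by
    intro l hl
    rw [hG]
    have h1 : ∑ e ∈ Sl N I l, wt z e + cz z l = 1 := h.st l (mem_rm.1 hl).1
    have h2 := split_line (N := N) (I := I) (e0 := e0) l (wt z)
    have h3 := b_nn (N := N) (I := I) (e0 := e0) (z := z) l
    have h4 : ∑ e ∈ Sl N (rm I e0) l, wt z e * ds u e ^ 2 ≤
        (∑ e ∈ Sl N (rm I e0) l, wt z e) * D ^ 2 := by
      rw [sum_mul]
      exact sum_le_sum fun e _ => mul_le_mul_of_nonneg_left (hds2 e) (wt_pos z e).le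
    have h5 : cz z l * u l ^ 2 ≤ cz z l * D ^ 2 :=
      mul_le_mul_of_nonneg_left (hub2 l) (cz_nn z l)
    have h6 : (∑ e ∈ Sl N (rm I e0) l, wt z e + cz z l) * D ^ 2 ≤ 1 * D ^ 2 :=
      mul_le_mul_of_nonneg_right (by linarith) (sq_nonneg _)
    linarith
  have hGs : ∑ l ∈ rm I e0, G l ≤ 4 * ((12 * K + 4 * C0) / m) := by
    have h1 : ∑ l ∈ rm I e0, G l = 4 * ∑ e ∈ Sq N (rm I e0), wt z e * ds u e ^ 2 +
        ∑ l ∈ rm I e0, cz z l * u l ^ 2 := by
      simp only [hG]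
      rw [sum_add_distrib]
      congr 1
      rw [line_sum (fun e _ => wt z e * ds u e ^ 2), mul_sum]
      refine sum_congr rfl fun e _ => ?_
      rw [sum_const, card_univ, Fintype.card_fin, nsmul_eq_mul]
      push_cast
      ring
    have h2 : 0 ≤ ∑ l ∈ rm I e0, cz z l * u l ^ 2 :=
      sum_nonneg fun l _ => mul_nonneg (cz_nn z l) (sq_nonneg _)
    have h3 := (qf_rm h).1.trans (qf_le h)
    unfold Qf at h3
    rw [h1]
    linarith
  have hq2 : ∑ l ∈ rm I e0, q l ^ 2 ≤ D ^ 2 * (4 * ((12 * K + 4 * C0) / m)) := by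
    have h1 : ∀ l ∈ rm I e0, q l ^ 2 ≤ D ^ 2 * G l := by
      intro l hl
      have h2 : q l ^ 2 ≤ G l ^ 2 := sq_le_sq' (abs_le.1 (hqG l)).1 (abs_le.1 (hqG l)).2
      refine h2.trans ?_
      rw [sq]
      exact mul_le_mul_of_nonneg_right (hGD l hl) (hG0 l)
    refine (sum_le_sum h1).trans ?_
    rw [← mul_sum]
    exact mul_le_mul_of_nonneg_left hGs (sq_nonneg _)
  have hfin : ∑ l ∈ rm I e0, gr N (rm I e0) (wt z) (cz z) (-u) l ^ 2 ≤
      2 * ∑ l ∈ rm I e0, S l ^ 2 + 2 * ∑ l ∈ rm I e0, q l ^ 2 := by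
    rw [mul_sum, mul_sum, ← sum_add_distrib]
    refine sum_le_sum fun l hl => ?_
    have h1 : gr N (rm I e0) (wt z) (cz z) (-u) l = S l + q l := by
      rw [gr_eq h hl, hS, hq]
    rw [h1]
    nlinarith [sq_nonneg (S l - q l)]
  refine hfin.trans ?_
  have e1 : 2 * (D ^ 2 * (64 * K / m)) + 2 * (D ^ 2 * (4 * ((12 * K + 4 * C0) / m))) =
      (3584 * K * C0 ^ 2 + 512 * C0 ^ 3) / m ^ 3 := by
    rw [hD]
    field_simp
    ring
  rw [← e1]
  linarith

end aux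

theorem taylor {K lam C0 : ℝ} (hK : 1 ≤ K) (hl : 0 < lam) (hC : 1 ≤ C0) : ∃ (C : ℝ) (mA : ℕ), 1 ≤ C ∧
    ∀ (N m : ℕ) (I : Finset Li) (z u : Li → ℝ), mA ≤ m → Vd N m I → Reg K lam N m I z →
      ∀ e0 ∈ Sq N I, (∀ l, l ∉ I → u l = 0) → (∀ l ∈ I, |u l| ≤ C0 / m) → ∑ l ∈ I, u l ^ 2 ≤ C0 / m →
      gs I u = 0 → (∀ l ∈ I, Hh N m I (wt z) (fun l => dg l * Real.exp (z l)) u l =
          (if On e0 l then 1 else 0) -
            Hh N m I (wt z) (fun l => dg l * Real.exp (z l)) (fun l => if On e0 l then 1 else 0) l) →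
      |Gw N (rm I e0) (wt z) (fun l => dg l * Real.exp (z l)) (-u) -
        Gw N (rm I e0) (wt z) (fun l => dg l * Real.exp (z l)) 0 + 6 * wt z e0 + ds u e0 / 2| ≤ C / m ^ 2 ∧
      ∑ l ∈ rm I e0, gr N (rm I e0) (wt z) (fun l => dg l * Real.exp (z l)) (-u) l ^ 2 ≤ C / m ^ 3 := by
  refine ⟨60 * K * C0 + 80 * C0 ^ 2 + (3584 * K * C0 ^ 2 + 512 * C0 ^ 3), ⌈4 * C0⌉₊, ?_, ?_⟩
  · have h1 : 1 ≤ C0 ^ 2 := one_le_pow₀ hC
    have h2 : 0 ≤ 60 * K * C0 := by positivity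
    have h3 : 0 ≤ 3584 * K * C0 ^ 2 + 512 * C0 ^ 3 := by positivity
    linarith
  intro N m I z u hmA hv hr e0 he0 hu0 hub _ hgs heq
  have hm4 : 4 * C0 ≤ m := (Nat.le_ceil _).trans (by exact_mod_cast hmA)
  have hm : (0 : ℝ) < m := by linarith
  have h : Hy K C0 N m I z u e0 :=
    { hm := hm
      K1 := hK
      C1 := hC
      st := hr.st
      up := hr.up
      he := he0
      ub := by
        intro l
        by_cases hl : l ∈ I
        · exact hub l hl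
        · rw [hu0 l hl, abs_zero]
          positivity
      g0 := hgs
      eq := heq
      sm := by
        rw [div_le_one hm]
        exact hm4 }
  have a1 : 0 ≤ 60 * K * C0 + 80 * C0 ^ 2 := by positivity
  have a2 : 0 ≤ 3584 * K * C0 ^ 2 + 512 * C0 ^ 3 := by positivity
  constructor
  · refine (val_part h).trans (div_le_div_of_nonneg_right ?_ (by positivity))
    linarith
  · refine (grad_part h).trans (div_le_div_of_nonneg_right ?_ (by positivity))
    linarith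

end Pool.Agent.NQL
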