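import Pool.Agent.NQL.Defs
import Pool.Agent.NQL.ABas
import Pool.Agent.NQL.AVal
import Pool.Agent.NQL.ACvx
import Pool.Agent.NQL.AInv
import Pool.Agent.NQL.AMean
import Pool.Agent.NQL.ATri
import Pool.Agent.NQL.ATay
import Pool.Agent.NQL.ACoR

/-!
# NQL-AXi: the value after the removal of one square

PLAN. `h` from `exists_inv`, `τ e = ∑_k ∑_k' h .. ..`, `ξ e = 2 - 3 wt z e - τ e/2`. `trial` gives `u` with `ds u e = τ e - 4`, so `|τ e - 4| ≤ 4C/m` and
`|ξ e| ≤ C'/m`. `Gf N (rm I e) (z - u) = Gw .. (-u) - ∑ z` (`gf_add`), `Gf N (rm I e) z = Gw .. 0 - ∑ z`; `taylor`, `val_rm`: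
`Vf N (m-1) (rm I e) (z - u) = Vf N m I z + ds z e + 3 w - 6 w - (τ-4)/2 + O(1/m²) = Vf N m I z + ds z e + ξ e + O(1/m²)`. Upper bound: `st_min` for
`z'`. Lower bound for all `z'`: `near` for the system `wt (z-u)`, `dg exp (z-u)` of the instance `rm I e` (size `m - 1`), coercive by
`co_rm`, gradient at `0` = `gr .. (-u)` of `taylor` (`gr_add`; `ρ² = C/m³`, small for large `m`), `gf_add` with `δ = z' - (z - u)`:
loss `exp 2 ρ²/(2 lam/4) ≤ C/m³`. Mean: `mean_xi`.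
-/

set_option autoImplicit false

open Finset

namespace Pool.Agent.NQL

open Pool.Agent.NQ (board dsum F Ent Dg phi ln Q Qset QS NonAtt bern)
open Pool.Agent.NQR (Adm Opt Bd Rf hS hD hh InR)

private theorem dg_nonneg (l : Li) : 0 ≤ dg l := by
  unfold dg
  split_ifs <;> norm_num

private theorem P2_nonneg (I : Finset Li) (z : Li → ℝ) : 0 ≤ P2 I z := by
  unfold P2
  exact Finset.sum_nonneg fun l _ => mul_nonneg (dg_nonneg l) (sq_nonneg _)

/-- difference of two values of `Vf` -/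
private theorem vf_sub (N m : ℕ) (J : Finset Li) (z z' : Li → ℝ) :
    Vf N m J z' - Vf N m J z = Gf N J z' - Gf N J z := by
  unfold Vf
  ring

/-- difference of two values of `Gf` around `z` -/
private theorem gf_sub (N : ℕ) (J : Finset Li) (z δ : Li → ℝ) :
    Gf N J (z + δ) - Gf N J z = Gw N J (wt z) (fun l => dg l * Real.exp (z l)) δ -
      Gw N J (wt z) (fun l => dg l * Real.exp (z l)) 0 := by
  have h1 := gf_add N J z δ
  have h2 := gf_add N J z 0
  rw [add_zero] at h2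
  rw [h1, h2]
  ring

/-- the lower bound for all potentials -/
private theorem low {N m : ℕ} {J : Finset Li} {z u : Li → ℝ} {lam ρ : ℝ} (hm : 1 ≤ m) (hv : Vd N m J)
    (hlam : 0 < lam)
    (hco : Co N m J (wt (z - u)) (fun l => dg l * Real.exp ((z - u) l)) (lam / 4))
    (hρ : 0 ≤ ρ) (hρ1 : ρ ≤ Real.exp (-2) * (lam / 4) / 2)
    (hg : ∑ l ∈ J, gr N J (wt z) (fun l => dg l * Real.exp (z l)) (-u) l ^ 2 ≤ ρ ^ 2)
    (z' : Li → ℝ) :
    Gf N J (z - u) - Real.exp 2 * ρ ^ 2 / (2 * (lam / 4)) ≤ Gf N J z' := by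
  have hg' : ∑ l ∈ J, gr N J (wt (z - u)) (fun l => dg l * Real.exp ((z - u) l)) 0 l ^ 2 ≤ ρ ^ 2 := by
    refine le_trans (le_of_eq ?_) hg
    refine Finset.sum_congr rfl fun l _ => ?_
    rw [gr_add N J (z - u) 0 l, gr_add N J z (-u) l, add_zero, sub_eq_add_neg z u]
  have h1 := near hm hv (w := wt (z - u)) (c := fun l => dg l * Real.exp ((z - u) l))
    (fun e _ => (Real.exp_pos _).le) (fun l _ => mul_nonneg (dg_nonneg l) (Real.exp_pos _).le)
    (fun l _ hl => by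
      show dg l * Real.exp ((z - u) l) = 0
      unfold dg
      rw [if_pos hl, zero_mul]) hco (by linarith) hρ hρ1 hg' (z' - (z - u))
  have h2 := gf_sub N J (z - u) (z' - (z - u))
  rw [add_sub_cancel] at h2
  linarith

theorem xi {K lam : ℝ} (hK : 1 ≤ K) (hl : 0 < lam) : ∃ (C : ℝ) (mA : ℕ), 1 ≤ C ∧ 2 ≤ mA ∧
    ∀ (N m : ℕ) (I : Finset Li) (z : Li → ℝ), mA ≤ m → Vd N m I → Reg K lam N m I z →
      ∃ ξ : ℤ × ℤ → ℝ, (∀ e ∈ Sq N I, |ξ e| ≤ C / m) ∧
        (∀ e ∈ Sq N I, ∀ z', St N (rm I e) z' →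
          Vf N (m - 1) (rm I e) z' ≤ Vf N m I z + ds z e + ξ e + C / m ^ 2) ∧
        (∀ e ∈ Sq N I, ∀ z', Vf N m I z + ds z e + ξ e - C / m ^ 2 ≤ Vf N (m - 1) (rm I e) z') ∧
        |∑ e ∈ Sq N I, wt z e / m * ξ e - 1 / (2 * m)| ≤ C * P2 I z / m ^ 2 := by
  obtain ⟨C1, hC1, htri⟩ := trial hK hl
  obtain ⟨C2, mA2, hC2, htay⟩ := taylor hK hl hC1
  obtain ⟨C3, hC3, hmean⟩ := mean_xi hK hl
  obtain ⟨mA3, hcor⟩ := co_rm hK hl hC1
  have he2 : 0 < Real.exp 2 := Real.exp_pos 2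
  obtain ⟨κ, hκ⟩ : ∃ κ, κ = Real.exp (-2) * (lam / 4) / 2 := ⟨_, rfl⟩
  have hκ0 : 0 < κ := by
    rw [hκ]
    have := Real.exp_pos (-2)
    positivity
  have hE : 0 ≤ Real.exp 2 * C2 / (2 * (lam / 4)) := by positivity
  refine ⟨3 * K + 2 * C1 + C2 + Real.exp 2 * C2 / (2 * (lam / 4)) + C3,
    2 + mA2 + mA3 + ⌈C2 / κ ^ 2⌉₊, by linarith, by omega, ?_⟩
  obtain ⟨C, hCd⟩ : ∃ C, C = 3 * K + 2 * C1 + C2 + Real.exp 2 * C2 / (2 * (lam / 4)) + C3 := ⟨_, rfl⟩
  rw [← hCd]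
  intro N m I z hmA hV hR
  obtain ⟨m', hm'⟩ : ∃ m', m = m' + 1 := ⟨m - 1, by omega⟩
  have hm1 : m - 1 = m' := by omega
  have hM1 : (1 : ℝ) ≤ m := by
    have : 1 ≤ m := by omega
    exact_mod_cast this
  have hM0 : (0 : ℝ) < m := by linarith
  obtain ⟨h, hsup, hinv, -⟩ := exists_inv hl hR.co
  refine ⟨fun e => 2 - 3 * wt z e - (∑ k : Fin 4, ∑ k' : Fin 4, h (k, ln k e) (k', ln k' e)) / 2,
    ?_, ?_, ?_, ?_⟩
  · intro e he
    obtain ⟨u, hu0, hu1, -, -, hu4, -⟩ := htri N m I z (by omega) hV hR h hsup hinv e he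
    have hds : |ds u e| ≤ 4 * (C1 / m) := by
      unfold ds
      refine (Finset.abs_sum_le_sum_abs _ _).trans ?_
      refine (Finset.sum_le_sum fun k _ => hu1 (k, ln k e) ((mem_Sq.1 he).2 k)).trans (le_of_eq ?_)
      rw [Finset.sum_const, Finset.card_univ, Fintype.card_fin, nsmul_eq_mul]
      norm_num
    rw [hu4] at hds
    have hw := hR.up e he
    have hw0 : 0 ≤ wt z e := (Real.exp_pos _).le
    show |2 - 3 * wt z e - (∑ k : Fin 4, ∑ k' : Fin 4, h (k, ln k e) (k', ln k' e)) / 2| ≤ C / m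
    have e1 : C / m = 3 * (K / m) + 2 * (C1 / m) + C2 / m + Real.exp 2 * C2 / (2 * (lam / 4)) / m +
        C3 / m := by
      rw [hCd]
      ring
    have p1 : 0 ≤ C2 / m := by positivity
    have p2 : 0 ≤ Real.exp 2 * C2 / (2 * (lam / 4)) / m := by positivity
    have p3 : 0 ≤ C3 / m := by positivity
    rw [abs_le] at hds ⊢
    obtain ⟨a1, a2⟩ := hds
    constructor <;> linarith
  · intro e he z' hz'
    obtain ⟨u, hu0, hu1, hu2, hu3, hu4, hu5⟩ := htri N m I z (by omega) hV hR h hsup hinv e he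
    obtain ⟨ht1, -⟩ := htay N m I z u (by omega) hV hR e he hu0 hu1 hu2 hu3 hu5
    have hval := val_rm (N := N) (m := m') hR.st he
    rw [← hm'] at hval
    have h1 := st_min hz' (z + -u)
    have h2 := gf_sub N (rm I e) z (-u)
    have h3 := vf_sub N m' (rm I e) z z'
    have h4 := (abs_le.1 ht1).2
    rw [hm1]
    have e1 : C / m ^ 2 = C2 / m ^ 2 + (3 * K + 2 * C1 + Real.exp 2 * C2 / (2 * (lam / 4)) + C3) / m ^ 2 := by
      rw [hCd]
      ring
    have p1 : 0 ≤ (3 * K + 2 * C1 + Real.exp 2 * C2 / (2 * (lam / 4)) + C3) / (m : ℝ) ^ 2 := by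
      positivity
    linarith
  · intro e he z'
    obtain ⟨u, hu0, hu1, hu2, hu3, hu4, hu5⟩ := htri N m I z (by omega) hV hR h hsup hinv e he
    obtain ⟨ht1, ht2⟩ := htay N m I z u (by omega) hV hR e he hu0 hu1 hu2 hu3 hu5
    have hval := val_rm (N := N) (m := m') hR.st he
    rw [← hm'] at hval
    have hco := hcor N m I z u (by omega) hV hR e he hu1
    rw [hm1] at hco
    have hVr : Vd N m' (rm I e) := vd_rm (by rw [← hm']; exact hV) he
    have hq0 : (0 : ℝ) ≤ C2 / m ^ 3 := by positivity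
    have hρ2 : Real.sqrt (C2 / m ^ 3) ^ 2 = C2 / m ^ 3 := Real.sq_sqrt hq0
    have hρ1 : Real.sqrt (C2 / m ^ 3) ≤ Real.exp (-2) * (lam / 4) / 2 := by
      rw [← hκ]
      refine Real.sqrt_le_iff.2 ⟨hκ0.le, ?_⟩
      have h5 : C2 / κ ^ 2 ≤ m := by
        refine (Nat.le_ceil _).trans ?_
        have : ⌈C2 / κ ^ 2⌉₊ ≤ m := by omega
        exact_mod_cast this
      have h6 : (m : ℝ) ≤ m ^ 3 := by nlinarith [mul_nonneg hM0.le (by nlinarith : (0 : ℝ) ≤ m ^ 2 - 1)]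
      rw [div_le_iff₀ (by positivity)]
      rw [div_le_iff₀ (by positivity)] at h5
      nlinarith [mul_le_mul_of_nonneg_right h6 (sq_nonneg κ)]
    have h1 := low (N := N) (m := m') (J := rm I e) (z := z) (u := u) (lam := lam) (by omega) hVr hl hco
      (Real.sqrt_nonneg _) hρ1 (by rw [hρ2]; exact ht2) z'
    rw [hρ2, sub_eq_add_neg z u] at h1
    have h2 := gf_sub N (rm I e) z (-u)
    have h3 := vf_sub N m' (rm I e) z z'
    have h4 := (abs_le.1 ht1).1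
    rw [hm1]
    have h7 : Real.exp 2 * (C2 / m ^ 3) / (2 * (lam / 4)) ≤
        Real.exp 2 * C2 / (2 * (lam / 4)) / m ^ 2 := by
      have e3 : Real.exp 2 * (C2 / m ^ 3) / (2 * (lam / 4)) =
          Real.exp 2 * C2 / (2 * (lam / 4)) / m ^ 3 := by ring
      rw [e3]
      refine div_le_div_of_nonneg_left hE (by positivity) ?_
      exact pow_le_pow_right₀ hM1 (by norm_num)
    have e1 : C / m ^ 2 = C2 / m ^ 2 + Real.exp 2 * C2 / (2 * (lam / 4)) / m ^ 2 +
        (3 * K + 2 * C1 + C3) / m ^ 2 := by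
      rw [hCd]
      ring
    have p1 : 0 ≤ (3 * K + 2 * C1 + C3) / (m : ℝ) ^ 2 := by positivity
    linarith
  · refine (hmean N m I z (by omega) hV hR h hsup hinv).trans ?_
    have hP := P2_nonneg I z
    have hC : C3 ≤ C := by
      rw [hCd]
      linarith
    have h5 : C3 * P2 I z ≤ C * P2 I z := mul_le_mul_of_nonneg_right hC hP
    exact div_le_div_of_nonneg_right h5 (by positivity)

end Pool.Agent.NQL
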