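import Pool.Agent.NQL.Defs
import Pool.Agent.NQL.ABas
import Pool.Agent.NQL.AVal

/-!
# NQL-CBas: bounded instances

PLAN. `Vf N m I z = -3 m - ∑_{Sq} wt log wt - ∑_{diag} (1-p) log (1-p)`, `p = 1 - exp (z l)`: `∑_{Sq} wt ds z = ∑_l z l ∑_{Sl l} wt` (`line_sum`) `= ∑_{rc} z l + ∑_{diag} p z l`; `Gf = m + ∑_I (dg exp - z)`; the number of diagonals is
`2 (N + m - 1)` (`Vd`). `0 ≤ - x log x ≤ 1` for `x ∈ [0,1]`, at most `m²` squares; `0 ≤ -(1-p) log (1-p) ≤ p`, `∑ p = 2m`. So `|Vf| ≤ 3m + m² + 2m`. `zz N m I ≤ (m²)^m` by induction from `card (Sq) ≤ m²` (`Sq_card`, `vd_rm`):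
`zz N (m+1) I ≤ (m+1)² · ..`. Take `Cb` accordingly, `(m²)^m ≤ exp Cb`.
-/

set_option autoImplicit false

open Finset

namespace Pool.Agent.NQL

open Pool.Agent.NQ (board dsum F Ent Dg phi ln Q Qset QS NonAtt bern)
open Pool.Agent.NQR (Adm Opt Bd Rf hS hD hh InR)

private theorem cb_nn (N : ℕ) : ∀ (m : ℕ) (I : Finset Li), 0 ≤ zz N m I := by
  intro m
  induction m with
  | zero =>
    intro I
    show (0 : ℝ) ≤ 1
    norm_num
  | succ m ih =>
    intro I
    show 0 ≤ (∑ e ∈ Sq N I, zz N m (rm I e)) / ((m : ℝ) + 1)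
    exact div_nonneg (Finset.sum_nonneg fun e _ => ih _) (by positivity)

private theorem cb_up (N : ℕ) : ∀ (m : ℕ) (I : Finset Li), Vd N m I → zz N m I ≤ (m.factorial : ℝ) := by
  intro m
  induction m with
  | zero =>
    intro I _
    show (1 : ℝ) ≤ ((0 : ℕ).factorial : ℝ)
    simp
  | succ m ih =>
    intro I hv
    show (∑ e ∈ Sq N I, zz N m (rm I e)) / ((m : ℝ) + 1) ≤ ((m + 1).factorial : ℝ)
    have h1 : ∑ e ∈ Sq N I, zz N m (rm I e) ≤ ∑ _e ∈ Sq N I, (m.factorial : ℝ) :=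
      Finset.sum_le_sum fun e he => ih _ (vd_rm hv he)
    rw [Finset.sum_const, nsmul_eq_mul] at h1
    have h2 : ((Sq N I).card : ℝ) ≤ ((m : ℝ) + 1) ^ 2 := by
      have := Sq_card hv
      exact_mod_cast this
    have hf : (0 : ℝ) ≤ (m.factorial : ℝ) := by positivity
    have hm : (0 : ℝ) < (m : ℝ) + 1 := by positivity
    rw [div_le_iff₀ hm, Nat.factorial_succ]
    push_cast
    have h3 := mul_le_mul_of_nonneg_right h2 hf
    nlinarith

private theorem cb_xlog (x : ℝ) (hx : 0 < x) (hx1 : x ≤ 1) : 0 ≤ -(x * Real.log x) ∧ -(x * Real.log x) ≤ 1 - x := by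
  constructor
  · have := Real.log_nonpos hx.le hx1
    nlinarith
  · have h := Real.one_sub_inv_le_log_of_pos hx
    have h2 := mul_le_mul_of_nonneg_left h hx.le
    have e : x * (1 - x⁻¹) = x - 1 := by
      field_simp
    rw [e] at h2
    linarith

private theorem cb_val {N m : ℕ} {I : Finset Li} {z : Li → ℝ} (hv : Vd N m I) (hz : St N I z) :
    Vf N m I z = -3 * m + ∑ e ∈ Sq N I, -(wt z e * Real.log (wt z e)) +
      ∑ l ∈ I, dg l * -(Real.exp (z l) * z l) := by
  have h1 := line_sum (N := N) (I := I) (fun e l => z l * wt z e)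
  have h2 : ∀ e : ℤ × ℤ, ∑ k : Fin 4, z (k, ln k e) * wt z e = wt z e * Real.log (wt z e) := by
    intro e
    rw [← Finset.sum_mul, wt, Real.log_exp, ds, mul_comm]
  have h1' : ∑ l ∈ I, ∑ e ∈ Sl N I l, z l * wt z e = ∑ e ∈ Sq N I, wt z e * Real.log (wt z e) := by
    rw [← Finset.sum_congr rfl fun e _ => h2 e]
    exact h1
  have h3 : ∀ l ∈ I, ∑ e ∈ Sl N I l, z l * wt z e = z l + dg l * -(Real.exp (z l) * z l) := by
    intro l hl
    rw [← Finset.mul_sum]
    have := hz l hl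
    have e : ∑ e ∈ Sl N I l, wt z e = 1 - dg l * Real.exp (z l) := by linarith
    rw [e]
    ring
  rw [Finset.sum_congr rfl h3, Finset.sum_add_distrib] at h1'
  have h4 := sum_wt hv hz
  have h5 := sum_dg hv hz
  have h6 : ∑ l ∈ I, dg l = 2 * N + 2 * m - 2 := by
    have e1 : ∀ l : Li, dg l = (if l.1 = 2 then (1 : ℝ) else 0) + (if l.1 = 3 then (1 : ℝ) else 0) := by
      intro l
      unfold dg rc
      obtain ⟨k, y⟩ := l
      fin_cases k <;> simp
    rw [Finset.sum_congr rfl fun l _ => e1 l, Finset.sum_add_distrib, ← Finset.sum_filter, ← Finset.sum_filter,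
      Finset.sum_const, Finset.sum_const, nsmul_eq_mul, nsmul_eq_mul, mul_one, mul_one]
    have c2 := hv.cdg 2 (by decide)
    have c3 := hv.cdg 3 (by decide)
    have c2' : ((I.filter (fun l => l.1 = 2)).card : ℝ) + 1 = N + m := by exact_mod_cast c2
    have c3' : ((I.filter (fun l => l.1 = 3)).card : ℝ) + 1 = N + m := by exact_mod_cast c3
    linarith
  have h7 : ∑ l ∈ I, dg l * (1 - Real.exp (z l)) = ∑ l ∈ I, dg l - ∑ l ∈ I, dg l * Real.exp (z l) := by
    rw [← Finset.sum_sub_distrib]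
    exact Finset.sum_congr rfl fun l _ => by ring
  have h8 : ∑ l ∈ I, (dg l * Real.exp (z l) - z l) = ∑ l ∈ I, dg l * Real.exp (z l) - ∑ l ∈ I, z l :=
    Finset.sum_sub_distrib _ _
  have h9 : ∑ e ∈ Sq N I, -(wt z e * Real.log (wt z e)) = -∑ e ∈ Sq N I, wt z e * Real.log (wt z e) :=
    Finset.sum_neg_distrib _
  unfold Vf Gf
  rw [h8, h9, h4]
  linarith

theorem base_bd (m : ℕ) (hm : 1 ≤ m) : ∃ Cb : ℝ, 0 ≤ Cb ∧ ∀ (N : ℕ) (I : Finset Li) (z : Li → ℝ), Vd N m I →
    St N I z → |Vf N m I z| ≤ Cb ∧ zz N m I ≤ Real.exp Cb := by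
  refine ⟨5 * m + (m : ℝ) ^ 2 + m.factorial, by positivity, ?_⟩
  intro N I z hv hz
  have hf : (0 : ℝ) ≤ (m.factorial : ℝ) := by positivity
  have hm0 : (0 : ℝ) ≤ (m : ℝ) := by positivity
  constructor
  · have h1 := cb_val hv hz
    have a1 : 0 ≤ ∑ e ∈ Sq N I, -(wt z e * Real.log (wt z e)) :=
      Finset.sum_nonneg fun e he => (cb_xlog _ (wt_le_one hz he).1 (wt_le_one hz he).2).1
    have a2 : ∑ e ∈ Sq N I, -(wt z e * Real.log (wt z e)) ≤ (m : ℝ) ^ 2 := by
      have b1 : ∑ e ∈ Sq N I, -(wt z e * Real.log (wt z e)) ≤ ∑ _e ∈ Sq N I, (1 : ℝ) := by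
        refine Finset.sum_le_sum fun e he => ?_
        have c1 := (cb_xlog _ (wt_le_one hz he).1 (wt_le_one hz he).2).2
        have c2 := (wt_le_one hz he).1
        linarith
      rw [Finset.sum_const, nsmul_eq_mul, mul_one] at b1
      have b2 : ((Sq N I).card : ℝ) ≤ (m : ℝ) ^ 2 := by
        have := Sq_card hv
        exact_mod_cast this
      linarith
    have key : ∀ l ∈ I, 0 ≤ dg l * -(Real.exp (z l) * z l) ∧
        dg l * -(Real.exp (z l) * z l) ≤ dg l * (1 - Real.exp (z l)) := by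
      intro l hl
      by_cases h : rc l
      · have e : dg l = 0 := if_pos h
        rw [e]
        simp
      · have e : dg l = 1 := if_neg h
        have h2 := hz l hl
        rw [e, one_mul] at h2
        have h3 : 0 ≤ ∑ e ∈ Sl N I l, wt z e := Finset.sum_nonneg fun e _ => (Real.exp_pos _).le
        have h4 := cb_xlog (Real.exp (z l)) (Real.exp_pos _) (by linarith)
        rw [Real.log_exp] at h4
        rw [e, one_mul, one_mul]
        exact h4
    have a3 : 0 ≤ ∑ l ∈ I, dg l * -(Real.exp (z l) * z l) :=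
      Finset.sum_nonneg fun l hl => (key l hl).1
    have a4 : ∑ l ∈ I, dg l * -(Real.exp (z l) * z l) ≤ 2 * m := by
      rw [← sum_dg hv hz]
      exact Finset.sum_le_sum fun l hl => (key l hl).2
    rw [h1, abs_le]
    constructor <;> linarith
  · have h1 := cb_up N m I hv
    have h2 := Real.add_one_le_exp (5 * (m : ℝ) + (m : ℝ) ^ 2 + m.factorial)
    have h3 : (0 : ℝ) ≤ (m : ℝ) ^ 2 := by positivity
    linarith

theorem zz_nonneg (N m : ℕ) (I : Finset Li) : 0 ≤ zz N m I := cb_nn N m I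

end Pool.Agent.NQL
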