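import Pool.Agent.NQL.Defs
import Pool.Agent.NQL.ABas

/-!
# NQL-DCnt: the recursion counts placements

PLAN. `zz_card`: induction on `m`: pairs `(P, e)` with `P ∈ Pl N (m+1) I`, `e ∈ P`, correspond to pairs `(e, P')` with `e ∈ Sq N I`, `P' ∈ Pl N m (rm I e)` by `P' = P.erase e` (the squares of `P'` are free for `rm I e` because they do not attack
`e`); so `(m+1) card (Pl N (m+1) I) = ∑_e card (Pl N m (rm I e))`. `pl_full`: `Sq N (full N) = board N`, `Pl N N (full N) = Qset N`.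
-/

set_option autoImplicit false

open Finset

namespace Pool.Agent.NQL

open Pool.Agent.NQ (board dsum F Ent Dg phi ln Q Qset QS NonAtt bern)
open Pool.Agent.NQR (Adm Opt Bd Rf hS hD hh InR)

private theorem mem_Pl' {N m : ℕ} {I : Finset Li} {P : Finset (ℤ × ℤ)} :
    P ∈ Pl N m I ↔ P ⊆ Sq N I ∧ P.card = m ∧ NonAtt P := by
  classical
  unfold Pl
  rw [Finset.mem_filter, Finset.mem_powersetCard]
  exact and_assoc

private theorem erase_mem {N m : ℕ} {I : Finset Li} {P : Finset (ℤ × ℤ)} {e : ℤ × ℤ}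
    (hP : P ∈ Pl N (m + 1) I) (he : e ∈ P) : e ∈ Sq N I ∧ P.erase e ∈ Pl N m (rm I e) := by
  rw [mem_Pl'] at hP
  refine ⟨hP.1 he, ?_⟩
  rw [mem_Pl']
  refine ⟨?_, ?_, ?_⟩
  · intro e' he'
    rw [Finset.mem_erase] at he'
    rw [mem_Sq_rm]
    exact ⟨hP.1 he'.2, hP.2.2 e' he'.2 e he he'.1⟩
  · rw [Finset.card_erase_of_mem he, hP.2.1]
    rfl
  · intro a ha b hb hab
    exact hP.2.2 a (Finset.mem_of_mem_erase ha) b (Finset.mem_of_mem_erase hb) hab

private theorem notMem' {N m : ℕ} {I : Finset Li} {P : Finset (ℤ × ℤ)} {e : ℤ × ℤ}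
    (hP : P ∈ Pl N m (rm I e)) : e ∉ P := by
  intro h
  rw [mem_Pl'] at hP
  have h1 := hP.1 h
  rw [mem_Sq_rm] at h1
  exact h1.2 0 rfl

private theorem insert_mem {N m : ℕ} {I : Finset Li} {P : Finset (ℤ × ℤ)} {e : ℤ × ℤ}
    (he : e ∈ Sq N I) (hP : P ∈ Pl N m (rm I e)) : insert e P ∈ Pl N (m + 1) I := by
  have hn := notMem' hP
  rw [mem_Pl'] at hP ⊢
  refine ⟨?_, ?_, ?_⟩
  · intro e' he'
    rcases Finset.mem_insert.1 he' with h | h
    · rw [h]; exact he
    · exact (mem_Sq_rm.1 (hP.1 h)).1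
  · rw [Finset.card_insert_of_notMem hn, hP.2.1]
  · intro a ha b hb hab k
    rcases Finset.mem_insert.1 ha with h | h
    · rcases Finset.mem_insert.1 hb with h' | h'
      · exact absurd (h.trans h'.symm) hab
      · rw [h]
        exact fun h2 => (mem_Sq_rm.1 (hP.1 h')).2 k h2.symm
    · rcases Finset.mem_insert.1 hb with h' | h'
      · rw [h']
        exact (mem_Sq_rm.1 (hP.1 h)).2 k
      · exact hP.2.2 a h b h' hab k

private theorem pl_pairs' {N m : ℕ} {I : Finset Li} (f : Finset (ℤ × ℤ) → ℤ × ℤ → ℝ) :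
    ∑ P ∈ Pl N (m + 1) I, ∑ e ∈ P, f P e = ∑ e ∈ Sq N I, ∑ P ∈ Pl N m (rm I e), f (insert e P) e := by
  rw [Finset.sum_sigma', Finset.sum_sigma']
  refine Finset.sum_bij' (fun x _ => (⟨x.2, x.1.erase x.2⟩ : (_ : ℤ × ℤ) × Finset (ℤ × ℤ)))
    (fun x _ => (⟨insert x.1 x.2, x.1⟩ : (_ : Finset (ℤ × ℤ)) × (ℤ × ℤ))) ?_ ?_ ?_ ?_ ?_
  · rintro ⟨P, e⟩ hx
    rw [Finset.mem_sigma] at hx ⊢
    exact erase_mem hx.1 hx.2
  · rintro ⟨e, P⟩ hx
    rw [Finset.mem_sigma] at hx ⊢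
    exact ⟨insert_mem hx.1 hx.2, Finset.mem_insert_self _ _⟩
  · rintro ⟨P, e⟩ hx
    rw [Finset.mem_sigma] at hx
    simp only [Finset.insert_erase hx.2]
  · rintro ⟨e, P⟩ hx
    rw [Finset.mem_sigma] at hx
    simp only [Finset.erase_insert (notMem' hx.2)]
  · rintro ⟨P, e⟩ hx
    rw [Finset.mem_sigma] at hx
    simp only [Finset.insert_erase hx.2]

theorem zz_card (N m : ℕ) (I : Finset Li) : zz N m I = (Pl N m I).card := by
  induction m generalizing I with
  | zero =>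
    have h1 : Pl N 0 I = {∅} := by
      ext P
      rw [mem_Pl', Finset.mem_singleton]
      constructor
      · rintro ⟨_, h, _⟩
        exact Finset.card_eq_zero.1 h
      · rintro rfl
        refine ⟨Finset.empty_subset _, Finset.card_empty, ?_⟩
        intro a ha
        exact absurd ha (Finset.notMem_empty a)
    rw [h1]
    simp [zz]
  | succ m ih =>
    have h1 := pl_pairs' (N := N) (m := m) (I := I) (fun _ _ => (1 : ℝ))
    have h2 : ∑ P ∈ Pl N (m + 1) I, ∑ _e ∈ P, (1 : ℝ) = ((Pl N (m + 1) I).card : ℝ) * (m + 1) := by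
      rw [Finset.sum_congr rfl (g := fun _ => ((m : ℝ) + 1))]
      · rw [Finset.sum_const, nsmul_eq_mul]
      · intro P hP
        rw [Finset.sum_const, nsmul_eq_mul, mul_one, (mem_Pl'.1 hP).2.1]
        push_cast
        ring
    rw [h2] at h1
    have h3 : (0 : ℝ) < (m : ℝ) + 1 := by positivity
    show (∑ e ∈ Sq N I, zz N m (rm I e)) / (m + 1) = _
    rw [div_eq_iff h3.ne', h1]
    apply Finset.sum_congr rfl
    intro e _
    rw [ih (rm I e), Finset.sum_const, nsmul_eq_mul, mul_one]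

theorem pl_full (N : ℕ) : Pl N N (full N) = Qset N := by
  ext P
  rw [mem_Pl', Pool.Agent.NQ.mem_Qset, Sq_full]
  rfl

theorem zz_full (N : ℕ) : zz N N (full N) = Q N := by
  rw [zz_card, pl_full]
  rfl

/-- the pairs `(P, e)` and `(e, P')` -/
theorem pl_pairs {N m : ℕ} {I : Finset Li} (f : Finset (ℤ × ℤ) → ℤ × ℤ → ℝ) :
    ∑ P ∈ Pl N (m + 1) I, ∑ e ∈ P, f P e = ∑ e ∈ Sq N I, ∑ P ∈ Pl N m (rm I e), f (insert e P) e := by
  exact pl_pairs' f

end Pool.Agent.NQL
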