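import Pool.Agent.NQL.Defs
import Pool.Agent.NQL.ABas
import Pool.Agent.NQL.AVal
import Pool.Agent.NQL.DCnt

/-!
# NQL-CHal: instances without common diagonals contain a placement

Hall's theorem for the rows and columns; the weights are a fractional perfect matching.
-/

set_option autoImplicit false

open Finset

namespace Pool.Agent.NQL

open Pool.Agent.NQ (board dsum F Ent Dg phi ln Q Qset QS NonAtt bern)
open Pool.Agent.NQR (Adm Opt Bd Rf hS hD hh InR)

private theorem chal_hall {N : ℕ} {I : Finset Li} {z : Li → ℝ} (hz : St N I z)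
    (s : Finset {l : Li // l ∈ I ∧ l.1 = 0}) :
    s.card ≤ (s.biUnion (fun x => (Sl N I x.1).image Prod.snd)).card := by
  classical
  set T : Finset ℤ := s.biUnion (fun x => (Sl N I x.1).image Prod.snd) with hT
  have h1 : (s.card : ℝ) = ∑ x ∈ s, ∑ e ∈ Sl N I x.1, wt z e := by
    rw [Finset.sum_congr rfl (g := fun _ => (1 : ℝ)), Finset.sum_const, nsmul_eq_mul, mul_one]
    intro x _
    refine (mass_dg hz x.2.1).2.2.2 ?_
    unfold rc
    rw [x.2.2]
    norm_num
  have h2 : (T.card : ℝ) = ∑ y ∈ T, ∑ e ∈ Sl N I (1, y), wt z e := by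
    rw [Finset.sum_congr rfl (g := fun _ => (1 : ℝ)), Finset.sum_const, nsmul_eq_mul, mul_one]
    intro y hy
    rw [hT, Finset.mem_biUnion] at hy
    obtain ⟨x, _, hy⟩ := hy
    rw [Finset.mem_image] at hy
    obtain ⟨e, he, hey⟩ := hy
    have h3 : ((1 : Fin 4), y) ∈ I := by
      have h4 := (mem_Sq.mp (mem_Sl.mp he).1).2 1
      rw [Pool.Agent.NQ.ln_one, hey] at h4
      exact h4
    refine (mass_dg hz h3).2.2.2 ?_
    unfold rc
    norm_num
  have h3 : ∑ x ∈ s, ∑ e ∈ Sl N I x.1, wt z e = ∑ e ∈ s.biUnion (fun x => Sl N I x.1), wt z e := by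
    rw [Finset.sum_biUnion]
    intro x _ x' _ hne
    rw [Function.onFun, Finset.disjoint_left]
    intro e he he'
    apply hne
    have a1 := (mem_Sl.mp he).2
    have a2 := (mem_Sl.mp he').2
    apply Subtype.ext
    apply Prod.ext
    · rw [x.2.2, x'.2.2]
    · rw [← a1, ← a2, x.2.2, x'.2.2]
  have h4 : ∑ y ∈ T, ∑ e ∈ Sl N I (1, y), wt z e =
      ∑ e ∈ T.biUnion (fun y => Sl N I (1, y)), wt z e := by
    refine (Finset.sum_biUnion (s := T) (t := fun y => Sl N I (1, y)) ?_).symm
    intro y _ y' _ hne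
    rw [Function.onFun, Finset.disjoint_left]
    intro e he he'
    apply hne
    exact (mem_Sl.mp he).2.symm.trans (mem_Sl.mp he').2
  have h5 : s.biUnion (fun x => Sl N I x.1) ⊆ T.biUnion (fun y => Sl N I (1, y)) := by
    intro e he
    rw [Finset.mem_biUnion] at he ⊢
    obtain ⟨x, hx, he⟩ := he
    refine ⟨e.2, ?_, ?_⟩
    · rw [hT, Finset.mem_biUnion]
      exact ⟨x, hx, Finset.mem_image_of_mem _ he⟩
    · rw [mem_Sl]
      exact ⟨(mem_Sl.mp he).1, rfl⟩
  have h6 : (s.card : ℝ) ≤ T.card := by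
    rw [h1, h2, h3, h4]
    exact Finset.sum_le_sum_of_subset_of_nonneg h5 fun e _ _ => (Real.exp_pos _).le
  exact_mod_cast h6

theorem hall {N m : ℕ} {I : Finset Li} {z : Li → ℝ} (hv : Vd N m I) (hz : St N I z)
    (h : ∀ l ∈ I, ¬ rc l → (Sl N I l).card ≤ 1) : 1 ≤ zz N m I := by
  classical
  obtain ⟨f, hf, hft⟩ := (Finset.all_card_le_biUnion_card_iff_exists_injective
    (fun x : {l : Li // l ∈ I ∧ l.1 = 0} => (Sl N I x.1).image Prod.snd)).mp (chal_hall hz)
  have hfin : Fintype {l : Li // l ∈ I ∧ l.1 = 0} :=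
    Fintype.subtype (I.filter (fun l => l.1 = 0)) (fun l => by rw [Finset.mem_filter])
  have hcard : (Finset.univ : Finset {l : Li // l ∈ I ∧ l.1 = 0}).card = m := by
    rw [← hv.crc 0 (by norm_num), Finset.card_univ]
    exact Fintype.card_of_subtype _ (fun l => by rw [Finset.mem_filter])
  have hfree : ∀ x : {l : Li // l ∈ I ∧ l.1 = 0}, (x.1.2, f x) ∈ Sq N I := by
    intro x
    have h1 := hft x
    rw [Finset.mem_image] at h1
    obtain ⟨e, he, hex⟩ := h1
    have h2 := (mem_Sl.mp he).2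
    rw [x.2.2, Pool.Agent.NQ.ln_zero] at h2
    have h3 : e = (x.1.2, f x) := Prod.ext h2 hex
    rw [← h3]
    exact (mem_Sl.mp he).1
  set P : Finset (ℤ × ℤ) := Finset.univ.image
    (fun x : {l : Li // l ∈ I ∧ l.1 = 0} => (x.1.2, f x)) with hP
  have hPm : P ∈ Pl N m I := by
    unfold Pl
    rw [Finset.mem_filter, Finset.mem_powersetCard]
    refine ⟨⟨?_, ?_⟩, ?_⟩
    · intro e he
      rw [hP, Finset.mem_image] at he
      obtain ⟨x, _, rfl⟩ := he
      exact hfree x
    · rw [hP, Finset.card_image_of_injective, hcard]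
      intro x x' hxx
      exact hf (Prod.ext_iff.mp hxx).2
    · intro e he e' he' hne k hk
      rw [hP, Finset.mem_image] at he he'
      obtain ⟨x, _, rfl⟩ := he
      obtain ⟨x', _, rfl⟩ := he'
      have hxx : x ≠ x' := by
        rintro rfl
        exact hne rfl
      by_cases h0 : k = 0
      · subst h0
        apply hxx
        apply Subtype.ext
        apply Prod.ext
        · rw [x.2.2, x'.2.2]
        · exact hk
      by_cases h1 : k = 1
      · subst h1
        exact hxx (hf hk)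
      have hrc : ¬ rc (k, ln k (x.1.2, f x)) := by
        unfold rc
        fin_cases k
        · exact absurd rfl h0
        · exact absurd rfl h1
        · norm_num
        · norm_num
      have hl : (k, ln k (x.1.2, f x)) ∈ I := (mem_Sq.mp (hfree x)).2 k
      have hc := h _ hl hrc
      rw [Finset.card_le_one] at hc
      exact hne (hc _ (mem_Sl.mpr ⟨hfree x, rfl⟩) _ (mem_Sl.mpr ⟨hfree x', hk.symm⟩))
  rw [zz_card]
  have : 1 ≤ (Pl N m I).card := Finset.card_pos.mpr ⟨P, hPm⟩
  exact_mod_cast this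

end Pool.Agent.NQL
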