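import Pool.Agent.NQL.Defs
import Pool.Agent.NQL.ABas
import Pool.Agent.NQL.AVal

/-!
# NQL-CNor: normalised transition weights

PLAN. `∑ wt/m = 1` (`sum_wt`), `0 ≤ P2 ≤ 2m` (`sum_dg`, `0 ≤ 1 - exp (z l) ≤ 1`). `|exp x - 1| ≤ 2|x|` for `|x| ≤ 1`, with `x = ξ - C0/m²`, `|x| ≤ 2C0/m`: `|a e - wt/m| ≤ (4C0/m) wt/m`, `|S - 1| ≤ 4C0/m ≤ 1/2` for `m ≥ 8 C0`, `|a/S - wt/m| ≤ (|a - wt/m| + (wt/m)|1 - S|)/S ≤ 16 (C0/m) wt/m`.
Lower bound for `S`: `S ≥ exp (-C0/m²) ∑ (wt/m)(1 + ξ) ≥ exp (-C0/m²)(1 + x)`, `x = 1/(2m) - C0 P2/m²`, `|x| ≤ (1 + 2C0)/m ≤ 1/2`, `1 + x ≥ exp (x - x²)`. Upper bound for `S'`: `exp y ≤ 1 + y + y²`, `y = ξ`, `S' ≤ exp (C0/m²)(1 + ∑ (wt/m) ξ + C0²/m²) ≤ exp (..)`.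
-/

set_option autoImplicit false

open Finset

namespace Pool.Agent.NQL

open Pool.Agent.NQ (board dsum F Ent Dg phi ln Q Qset QS NonAtt bern)
open Pool.Agent.NQR (Adm Opt Bd Rf hS hD hh InR)

private theorem cnor_log {y : ℝ} (h : |y| ≤ 1 / 2) : Real.exp (y - 2 * y ^ 2) ≤ 1 + y := by
  have h1 := (abs_le.1 h).1
  have h0 : 0 < 1 + y := by linarith
  rw [← Real.le_log_iff_exp_le h0]
  have h2 := Real.one_sub_inv_le_log_of_pos h0
  refine le_trans ?_ h2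
  have h3 : 1 - (1 + y)⁻¹ = y / (1 + y) := by
    field_simp
    ring
  rw [h3, le_div_iff₀ h0]
  nlinarith [mul_nonneg (sq_nonneg y) (show 0 ≤ 1 + 2 * y by linarith)]

private theorem cnor_P2 {N m : ℕ} {I : Finset Li} {z : Li → ℝ} (hv : Vd N m I) (hz : St N I z) :
    0 ≤ P2 I z ∧ P2 I z ≤ 2 * m := by
  have h0 : ∀ l ∈ I, 0 ≤ dg l * (1 - Real.exp (z l)) ^ 2 ∧
      dg l * (1 - Real.exp (z l)) ^ 2 ≤ dg l * (1 - Real.exp (z l)) := by
    intro l hl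
    by_cases hr : rc l
    · have h1 : dg l = 0 := if_pos hr
      rw [h1, zero_mul, zero_mul]
      exact ⟨le_rfl, le_rfl⟩
    · have h1 : dg l = 1 := if_neg hr
      obtain ⟨m1, m2, m3, -⟩ := mass_dg hz hl
      rw [m3 hr] at m1 m2
      rw [h1, one_mul, one_mul]
      exact ⟨sq_nonneg _, by nlinarith⟩
  constructor
  · exact sum_nonneg fun l hl => (h0 l hl).1
  · rw [← sum_dg hv hz]
    exact sum_le_sum fun l hl => (h0 l hl).2

theorem nor {K lam C0 : ℝ} (hK : 1 ≤ K) (hC : 1 ≤ C0) : ∃ C : ℝ, 1 ≤ C ∧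
    ∀ (N m : ℕ) (I : Finset Li) (z : Li → ℝ) (ξ : ℤ × ℤ → ℝ), 16 * C0 ≤ (m : ℝ) → Vd N m I →
      Reg K lam N m I z → (∀ e ∈ Sq N I, |ξ e| ≤ C0 / m) →
      |∑ e ∈ Sq N I, wt z e / m * ξ e - 1 / (2 * m)| ≤ C0 * P2 I z / m ^ 2 →
      0 < (∑ e ∈ Sq N I, wt z e / m * Real.exp (ξ e - C0 / m ^ 2)) ∧
      Tp (20 * C0) N m I z (fun e => wt z e / m * Real.exp (ξ e - C0 / m ^ 2) /
        ∑ e ∈ Sq N I, wt z e / m * Real.exp (ξ e - C0 / m ^ 2)) ∧
      Real.exp (1 / (2 * m) - C * (1 + P2 I z) / m ^ 2) ≤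
        ∑ e ∈ Sq N I, wt z e / m * Real.exp (ξ e - C0 / m ^ 2) ∧
      ∑ e ∈ Sq N I, wt z e / m * Real.exp (ξ e + C0 / m ^ 2) ≤
        Real.exp (1 / (2 * m) + C * (1 + P2 I z) / m ^ 2) := by
  refine ⟨20 * C0 ^ 2, by nlinarith, ?_⟩
  intro N m I z ξ hm hv hreg hξ hmean
  have hm0 : (0 : ℝ) < m := by linarith
  have hm1 : (1 : ℝ) ≤ m := by linarith
  have hCC : C0 ≤ C0 ^ 2 := by nlinarith
  have hz := hreg.st
  obtain ⟨hP0, hP2⟩ := cnor_P2 hv hz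
  have hsum : ∑ e ∈ Sq N I, wt z e / m = 1 := by
    rw [← sum_div, sum_wt hv hz, div_self hm0.ne']
  have hp0 : ∀ e ∈ Sq N I, 0 ≤ wt z e / m := fun e he =>
    div_nonneg (wt_le_one hz he).1.le hm0.le
  -- small parameter
  obtain ⟨u, hu⟩ : ∃ u : ℝ, u = 1 / m := ⟨_, rfl⟩
  have hu0 : 0 < u := by
    rw [hu]
    positivity
  have hum : u * m = 1 := by
    rw [hu]
    field_simp
  have hCu : C0 * u ≤ 1 / 16 := by
    have h1 : C0 * u * m ≤ 1 / 16 * m := by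
      calc C0 * u * m = C0 * (u * m) := by ring
        _ = C0 := by rw [hum, mul_one]
        _ ≤ 1 / 16 * m := by linarith
    exact le_of_mul_le_mul_right h1 hm0
  have hu1 : u ≤ 1 / 16 := by nlinarith
  have e1 : C0 / (m : ℝ) = C0 * u := by
    rw [hu]
    ring
  have e2 : C0 / (m : ℝ) ^ 2 = C0 * u ^ 2 := by
    rw [hu]
    ring
  have e3 : ∀ x : ℝ, x / (m : ℝ) ^ 2 = x * u ^ 2 := by
    intro x
    rw [hu]
    ring
  have e4 : 1 / (2 * (m : ℝ)) = u / 2 := by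
    rw [hu]
    ring
  rw [e3, e4] at hmean
  rw [e2, e3, e4]
  have hc0 : 0 ≤ C0 * u ^ 2 := by positivity
  have hc1 : C0 * u ^ 2 ≤ C0 * u := by nlinarith [mul_nonneg (show 0 ≤ C0 by linarith) hu0.le]
  have hξ' : ∀ e ∈ Sq N I, |ξ e| ≤ C0 * u := fun e he => by
    rw [← e1]
    exact hξ e he
  have hx : ∀ e ∈ Sq N I, |ξ e - C0 * u ^ 2| ≤ 2 * (C0 * u) := by
    intro e he
    have h1 := abs_sub (ξ e) (C0 * u ^ 2)
    rw [abs_of_nonneg hc0] at h1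
    have h2 := hξ' e he
    linarith
  have hexp1 : ∀ e ∈ Sq N I, |Real.exp (ξ e - C0 * u ^ 2) - 1| ≤ 4 * (C0 * u) := by
    intro e he
    have h1 := hx e he
    have h2 := Real.abs_exp_sub_one_le (show |ξ e - C0 * u ^ 2| ≤ 1 by linarith)
    linarith
  obtain ⟨S, hS⟩ : ∃ S : ℝ, S = ∑ e ∈ Sq N I, wt z e / m * Real.exp (ξ e - C0 * u ^ 2) := ⟨_, rfl⟩
  rw [← hS]
  have hS1 : |S - 1| ≤ 4 * (C0 * u) := by
    have h1 : S - 1 = ∑ e ∈ Sq N I, wt z e / m * (Real.exp (ξ e - C0 * u ^ 2) - 1) := by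
      have h2 : S - 1 = S - ∑ e ∈ Sq N I, wt z e / m := by rw [hsum]
      rw [h2, hS, ← sum_sub_distrib]
      exact sum_congr rfl fun e _ => by ring
    rw [h1]
    calc |∑ e ∈ Sq N I, wt z e / m * (Real.exp (ξ e - C0 * u ^ 2) - 1)| ≤
        ∑ e ∈ Sq N I, |wt z e / m * (Real.exp (ξ e - C0 * u ^ 2) - 1)| := abs_sum_le_sum_abs _ _
      _ ≤ ∑ e ∈ Sq N I, wt z e / m * (4 * (C0 * u)) := by
          refine sum_le_sum fun e he => ?_
          rw [abs_mul, abs_of_nonneg (hp0 e he)]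
          exact mul_le_mul_of_nonneg_left (hexp1 e he) (hp0 e he)
      _ = 4 * (C0 * u) := by rw [← sum_mul, hsum, one_mul]
  have hSpos : 3 / 4 ≤ S := by
    have := (abs_le.1 hS1).1
    linarith
  have hS0 : 0 < S := by linarith
  refine ⟨hS0, ⟨?_, ?_, ?_⟩, ?_, ?_⟩
  · rw [← sum_div, ← hS, div_self hS0.ne']
  · intro e he
    exact div_nonneg (mul_nonneg (hp0 e he) (Real.exp_pos _).le) hS0.le
  · intro e he
    have h1 : wt z e / m * Real.exp (ξ e - C0 * u ^ 2) / S - wt z e / m =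
        wt z e / m * ((Real.exp (ξ e - C0 * u ^ 2) - S) / S) := by
      field_simp
    have h2 : |Real.exp (ξ e - C0 * u ^ 2) - S| ≤ 8 * (C0 * u) := by
      have h3 := hexp1 e he
      have h4 : Real.exp (ξ e - C0 * u ^ 2) - S =
          (Real.exp (ξ e - C0 * u ^ 2) - 1) - (S - 1) := by ring
      rw [h4]
      have h5 := abs_sub (Real.exp (ξ e - C0 * u ^ 2) - 1) (S - 1)
      linarith
    have h3 : |(Real.exp (ξ e - C0 * u ^ 2) - S) / S| ≤ 20 * (C0 * u) := by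
      rw [abs_div, abs_of_pos hS0, div_le_iff₀ hS0]
      have h4 : 0 ≤ C0 * u := by positivity
      nlinarith
    change |wt z e / m * Real.exp (ξ e - C0 * u ^ 2) / S - wt z e / m| ≤
      20 * C0 * wt z e / m ^ 2
    rw [h1, abs_mul, abs_of_nonneg (hp0 e he), e3]
    calc wt z e / m * |(Real.exp (ξ e - C0 * u ^ 2) - S) / S| ≤
        wt z e / m * (20 * (C0 * u)) := mul_le_mul_of_nonneg_left h3 (hp0 e he)
      _ = 20 * C0 * wt z e * u ^ 2 := by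
          rw [hu]
          ring
  · -- lower bound
    obtain ⟨y, hy⟩ : ∃ y : ℝ, y = u / 2 - C0 * P2 I z * u ^ 2 := ⟨_, rfl⟩
    have hPu : C0 * P2 I z * u ^ 2 ≤ 2 * (C0 * u) := by
      have h1 : P2 I z * u ≤ 2 := by
        calc P2 I z * u ≤ 2 * m * u := mul_le_mul_of_nonneg_right hP2 hu0.le
          _ = 2 * (u * m) := by ring
          _ = 2 := by rw [hum, mul_one]
      calc C0 * P2 I z * u ^ 2 = (C0 * u) * (P2 I z * u) := by ring
        _ ≤ (C0 * u) * 2 := mul_le_mul_of_nonneg_left h1 (by positivity)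
        _ = 2 * (C0 * u) := by ring
    have hPu0 : 0 ≤ C0 * P2 I z * u ^ 2 := by positivity
    have hyabs : |y| ≤ 5 / 2 * (C0 * u) := by
      rw [hy, abs_le]
      constructor
      · linarith
      · nlinarith
    have hy2 : y ^ 2 ≤ 25 / 4 * (C0 * u) ^ 2 := by
      rw [← sq_abs]
      calc |y| ^ 2 ≤ (5 / 2 * (C0 * u)) ^ 2 := pow_le_pow_left₀ (abs_nonneg y) hyabs 2
        _ = 25 / 4 * (C0 * u) ^ 2 := by ring
    have hlog := cnor_log (show |y| ≤ 1 / 2 by linarith)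
    have h1 : 1 + y ≤ ∑ e ∈ Sq N I, wt z e / m * Real.exp (ξ e) := by
      have h2 : ∑ e ∈ Sq N I, wt z e / m * (1 + ξ e) ≤
          ∑ e ∈ Sq N I, wt z e / m * Real.exp (ξ e) := by
        refine sum_le_sum fun e he => mul_le_mul_of_nonneg_left ?_ (hp0 e he)
        have := Real.add_one_le_exp (ξ e)
        linarith
      have h3 : ∑ e ∈ Sq N I, wt z e / m * (1 + ξ e) =
          1 + ∑ e ∈ Sq N I, wt z e / m * ξ e := by
        have h4 : ∑ e ∈ Sq N I, wt z e / m * (1 + ξ e) =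
            ∑ e ∈ Sq N I, (wt z e / m + wt z e / m * ξ e) :=
          sum_congr rfl fun e _ => by ring
        rw [h4, sum_add_distrib, hsum]
      have h4 := (abs_le.1 hmean).1
      linarith
    have h2 : S = Real.exp (-(C0 * u ^ 2)) * ∑ e ∈ Sq N I, wt z e / m * Real.exp (ξ e) := by
      rw [hS, mul_sum]
      refine sum_congr rfl fun e _ => ?_
      rw [sub_eq_add_neg, Real.exp_add]
      ring
    have h3 : Real.exp (-(C0 * u ^ 2)) * Real.exp (y - 2 * y ^ 2) ≤ S := by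
      rw [h2]
      exact mul_le_mul_of_nonneg_left (hlog.trans h1) (Real.exp_pos _).le
    rw [← Real.exp_add] at h3
    refine le_trans (Real.exp_le_exp.2 ?_) h3
    have h5 : C0 * u ^ 2 ≤ C0 ^ 2 * u ^ 2 := by
      have : C0 ≤ C0 ^ 2 := hCC
      exact mul_le_mul_of_nonneg_right this (sq_nonneg u)
    have h6 : C0 * P2 I z * u ^ 2 ≤ C0 ^ 2 * P2 I z * u ^ 2 := by
      have : C0 ≤ C0 ^ 2 := hCC
      exact mul_le_mul_of_nonneg_right (mul_le_mul_of_nonneg_right this hP0) (sq_nonneg u)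
    have h7 : 0 ≤ C0 ^ 2 * P2 I z * u ^ 2 := by positivity
    have h8 : 0 ≤ C0 ^ 2 * u ^ 2 := by positivity
    have h9 : (C0 * u) ^ 2 = C0 ^ 2 * u ^ 2 := by ring
    rw [h9] at hy2
    have h10 : 20 * C0 ^ 2 * (1 + P2 I z) * u ^ 2 =
        20 * (C0 ^ 2 * u ^ 2) + 20 * (C0 ^ 2 * P2 I z * u ^ 2) := by ring
    rw [h10, hy]
    rw [hy] at hy2
    linarith
  · -- upper bound
    have h1 : ∑ e ∈ Sq N I, wt z e / m * Real.exp (ξ e + C0 * u ^ 2) =
        Real.exp (C0 * u ^ 2) * ∑ e ∈ Sq N I, wt z e / m * Real.exp (ξ e) := by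
      rw [mul_sum]
      refine sum_congr rfl fun e _ => ?_
      rw [Real.exp_add]
      ring
    have h2 : ∑ e ∈ Sq N I, wt z e / m * Real.exp (ξ e) ≤
        1 + (u / 2 + C0 * P2 I z * u ^ 2) + C0 ^ 2 * u ^ 2 := by
      have h3 : ∑ e ∈ Sq N I, wt z e / m * Real.exp (ξ e) ≤
          ∑ e ∈ Sq N I, (wt z e / m + wt z e / m * ξ e + wt z e / m * (C0 ^ 2 * u ^ 2)) := by
        refine sum_le_sum fun e he => ?_
        have h4 := hξ' e he
        have h5 := (abs_le.1 (Real.abs_exp_sub_one_sub_id_le (show |ξ e| ≤ 1 by linarith))).2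
        have h6 : ξ e ^ 2 ≤ C0 ^ 2 * u ^ 2 := by
          rw [← sq_abs]
          calc |ξ e| ^ 2 ≤ (C0 * u) ^ 2 := pow_le_pow_left₀ (abs_nonneg _) h4 2
            _ = C0 ^ 2 * u ^ 2 := by ring
        calc wt z e / m * Real.exp (ξ e) ≤ wt z e / m * (1 + ξ e + C0 ^ 2 * u ^ 2) :=
              mul_le_mul_of_nonneg_left (by linarith) (hp0 e he)
          _ = _ := by ring
      rw [sum_add_distrib, sum_add_distrib, ← sum_mul, hsum, one_mul] at h3
      have h4 := (abs_le.1 hmean).2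
      linarith
    have h3 := Real.add_one_le_exp ((u / 2 + C0 * P2 I z * u ^ 2) + C0 ^ 2 * u ^ 2)
    rw [h1]
    calc Real.exp (C0 * u ^ 2) * ∑ e ∈ Sq N I, wt z e / m * Real.exp (ξ e) ≤
        Real.exp (C0 * u ^ 2) * Real.exp ((u / 2 + C0 * P2 I z * u ^ 2) + C0 ^ 2 * u ^ 2) :=
          mul_le_mul_of_nonneg_left (by linarith) (Real.exp_pos _).le
      _ = Real.exp (C0 * u ^ 2 + ((u / 2 + C0 * P2 I z * u ^ 2) + C0 ^ 2 * u ^ 2)) := by
          rw [← Real.exp_add]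
      _ ≤ _ := by
          apply Real.exp_le_exp.2
          have h5 : C0 * u ^ 2 ≤ C0 ^ 2 * u ^ 2 := by
            have : C0 ≤ C0 ^ 2 := hCC
            exact mul_le_mul_of_nonneg_right this (sq_nonneg u)
          have h6 : C0 * P2 I z * u ^ 2 ≤ C0 ^ 2 * P2 I z * u ^ 2 := by
            have : C0 ≤ C0 ^ 2 := hCC
            exact mul_le_mul_of_nonneg_right (mul_le_mul_of_nonneg_right this hP0) (sq_nonneg u)
          have h7 : 0 ≤ C0 ^ 2 * P2 I z * u ^ 2 := by positivity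
          have h8 : 0 ≤ C0 ^ 2 * u ^ 2 := by positivity
          have h10 : 20 * C0 ^ 2 * (1 + P2 I z) * u ^ 2 =
              20 * (C0 ^ 2 * u ^ 2) + 20 * (C0 ^ 2 * P2 I z * u ^ 2) := by ring
          rw [h10]
          linarith

end Pool.Agent.NQL
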