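import Pool.Agent.NQL.Defs
import Pool.Agent.NQL.ABas
import Pool.Agent.NQL.AVal

/-!
# NQL-CSur: probability that a set of lines survives

PLAN. `h e = #{l ∈ Λ | On e l}`. The sum over the filter is `1 - ∑_{h e ≥ 1} π e` and `|∑_{h ≥ 1} π - ∑_{h ≥ 1} wt/m| ≤ Cp ∑_{h≥1} wt/m² ≤ Cp card Λ/m²` (`Tp.near`, line sums `≤ 1`,
`mass_dg`). `∑_{l ∈ Λ} ∑_{Sl l} wt = ∑_e h e wt e`, and `0 ≤ h - [h ≥ 1] ≤` number of pairs `l ≠ l'` of `Λ` through `e` (unordered); two different lines meet in at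
most one square of `Sq N I` (`two_lines`; lines of the same type are disjoint), of weight `≤ K/m`. So `∑_e (h - [h≥1]) wt/m ≤ (card Λ)² K/m²`.
-/

set_option autoImplicit false

open Finset

namespace Pool.Agent.NQL

open Pool.Agent.NQ (board dsum F Ent Dg phi ln Q Qset QS NonAtt bern)
open Pool.Agent.NQR (Adm Opt Bd Rf hS hD hh InR)

private theorem pair_le {N : ℕ} {I : Finset Li} (l l' : Li) :
    ∑ e ∈ Sq N I, (if l ≠ l' ∧ On e l ∧ On e l' then (1 : ℝ) else 0) ≤ 1 := by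
  classical
  rw [Finset.sum_boole]
  have h : ((Sq N I).filter fun e => l ≠ l' ∧ On e l ∧ On e l').card ≤ 1 := by
    rw [Finset.card_le_one]
    intro e he e' he'
    obtain ⟨-, hne, h1, h2⟩ := mem_filter.1 he
    obtain ⟨-, -, h3, h4⟩ := mem_filter.1 he'
    unfold On at h1 h2 h3 h4
    have hk : l.1 ≠ l'.1 := by
      intro hk
      apply hne
      apply Prod.ext hk
      rw [← h1, ← h2, hk]
    exact two_lines hk (h1.trans h3.symm) (h2.trans h4.symm)
  exact_mod_cast h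

private theorem count_le (Λ : Finset Li) (e : ℤ × ℤ) :
    (if ∃ l ∈ Λ, On e l then (1 : ℝ) else 0) ≤ ∑ l ∈ Λ, (if On e l then (1 : ℝ) else 0) := by
  split_ifs with h
  · obtain ⟨l, hl, hle⟩ := h
    have h1 := Finset.single_le_sum (f := fun l => if On e l then (1 : ℝ) else 0)
      (fun i _ => by split_ifs <;> norm_num) hl
    simp only [if_pos hle] at h1
    exact h1
  · exact Finset.sum_nonneg fun i _ => by split_ifs <;> norm_num

private theorem count_pair (Λ : Finset Li) (e : ℤ × ℤ) :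
    ∑ l ∈ Λ, (if On e l then (1 : ℝ) else 0) ≤ (if ∃ l ∈ Λ, On e l then (1 : ℝ) else 0) +
      ∑ l ∈ Λ, ∑ l' ∈ Λ, (if l ≠ l' ∧ On e l ∧ On e l' then (1 : ℝ) else 0) := by
  classical
  have hnn : ∀ l ∈ Λ, (0 : ℝ) ≤ ∑ l' ∈ Λ, (if l ≠ l' ∧ On e l ∧ On e l' then (1 : ℝ) else 0) :=
    fun l _ => Finset.sum_nonneg fun i _ => by split_ifs <;> norm_num
  by_cases h : ∃ l ∈ Λ, On e l
  · rw [if_pos h]
    obtain ⟨l0, hl0, hle⟩ := h
    have h1 := Finset.single_le_sum hnn hl0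
    have h2 : ∑ l ∈ Λ, (if On e l then (1 : ℝ) else 0) ≤
        ∑ l ∈ Λ, ((if l = l0 then (1 : ℝ) else 0) +
          (if l0 ≠ l ∧ On e l0 ∧ On e l then (1 : ℝ) else 0)) := by
      apply Finset.sum_le_sum
      intro l _
      by_cases h3 : l = l0
      · rw [if_pos h3]
        split_ifs <;> norm_num
      · rw [if_neg h3]
        by_cases h4 : On e l
        · rw [if_pos h4, if_pos ⟨fun h => h3 h.symm, hle, h4⟩]
          norm_num
        · rw [if_neg h4]
          split_ifs <;> norm_num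
    rw [Finset.sum_add_distrib, Finset.sum_ite_eq' Λ l0, if_pos hl0] at h2
    linarith
  · rw [if_neg h]
    have h1 : ∑ l ∈ Λ, (if On e l then (1 : ℝ) else 0) = 0 := by
      apply Finset.sum_eq_zero
      intro l hl
      rw [if_neg]
      exact fun h2 => h ⟨l, hl, h2⟩
    rw [h1, zero_add]
    exact Finset.sum_nonneg hnn

theorem surv {K Cp : ℝ} (hK : 1 ≤ K) (hCp : 0 ≤ Cp) {N m : ℕ} {I : Finset Li} {z : Li → ℝ} {π : ℤ × ℤ → ℝ}
    (hm : 1 ≤ m) (hv : Vd N m I) (hz : St N I z) (hw : ∀ e ∈ Sq N I, wt z e ≤ K / m) (hπ : Tp Cp N m I z π)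
    {Λ : Finset Li} (hΛ : Λ ⊆ I) :
    |∑ e ∈ (Sq N I).filter (fun e => ∀ l ∈ Λ, ¬ On e l), π e -
      (1 - (∑ l ∈ Λ, ∑ e ∈ Sl N I l, wt z e) / m)| ≤ (Cp + K) * (Λ.card : ℝ) ^ 2 / m ^ 2 := by
  classical
  have hm0 : (0 : ℝ) < m := by exact_mod_cast hm
  set b : ℤ × ℤ → ℝ := fun e => if ∃ l ∈ Λ, On e l then (1 : ℝ) else 0 with hb
  set h : ℤ × ℤ → ℝ := fun e => ∑ l ∈ Λ, (if On e l then (1 : ℝ) else 0) with hh'
  set p : ℤ × ℤ → ℝ := fun e =>
    ∑ l ∈ Λ, ∑ l' ∈ Λ, (if l ≠ l' ∧ On e l ∧ On e l' then (1 : ℝ) else 0) with hp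
  have hb0 : ∀ e, 0 ≤ b e := fun e => by
    simp only [hb]
    split_ifs <;> norm_num
  have hbh : ∀ e, b e ≤ h e := fun e => count_le Λ e
  have hhp : ∀ e, h e - b e ≤ p e := fun e => by
    have := count_pair Λ e
    show h e - b e ≤ p e
    linarith
  have hp0 : ∀ e, 0 ≤ p e := fun e =>
    Finset.sum_nonneg fun l _ => Finset.sum_nonneg fun l' _ => by split_ifs <;> norm_num
  have hwt0 : ∀ e, 0 ≤ wt z e := fun e => (Real.exp_pos _).le
  -- the double sum
  have hT : ∑ l ∈ Λ, ∑ e ∈ Sl N I l, wt z e = ∑ e ∈ Sq N I, h e * wt z e := by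
    have h1 : ∀ l ∈ Λ, ∑ e ∈ Sl N I l, wt z e =
        ∑ e ∈ Sq N I, (if On e l then (1 : ℝ) else 0) * wt z e := by
      intro l _
      unfold Sl
      rw [Finset.sum_filter]
      refine Finset.sum_congr rfl fun e _ => ?_
      split_ifs <;> simp
    rw [Finset.sum_congr rfl h1, Finset.sum_comm]
    refine Finset.sum_congr rfl fun e _ => ?_
    rw [← Finset.sum_mul]
  have hTle : ∑ e ∈ Sq N I, h e * wt z e ≤ Λ.card := by
    rw [← hT]
    calc ∑ l ∈ Λ, ∑ e ∈ Sl N I l, wt z e ≤ ∑ _l ∈ Λ, (1 : ℝ) :=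
          Finset.sum_le_sum fun l hl => (mass_dg hz (hΛ hl)).2.1
      _ = Λ.card := by simp
  -- the probability
  have hfil : ∑ e ∈ (Sq N I).filter (fun e => ∀ l ∈ Λ, ¬ On e l), π e =
      ∑ e ∈ Sq N I, (1 - b e) * π e := by
    rw [Finset.sum_filter]
    refine Finset.sum_congr rfl fun e _ => ?_
    by_cases h1 : ∃ l ∈ Λ, On e l
    · have h2 : ¬ ∀ l ∈ Λ, ¬ On e l := by
        push Not
        exact h1
      simp only [hb]
      rw [if_neg h2, if_pos h1]
      ring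
    · have h2 : ∀ l ∈ Λ, ¬ On e l := by
        push Not at h1
        exact h1
      simp only [hb]
      rw [if_pos h2, if_neg h1]
      ring
  have hdec : ∑ e ∈ (Sq N I).filter (fun e => ∀ l ∈ Λ, ¬ On e l), π e -
      (1 - (∑ l ∈ Λ, ∑ e ∈ Sl N I l, wt z e) / m) =
      ∑ e ∈ Sq N I, b e * (wt z e / m - π e) + ∑ e ∈ Sq N I, (h e - b e) * (wt z e / m) := by
    have h1 : ∑ e ∈ Sq N I, (1 - b e) * π e = 1 - ∑ e ∈ Sq N I, b e * π e := by
      have h2 : ∑ e ∈ Sq N I, π e = 1 := hπ.sum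
      have h4 : ∑ e ∈ Sq N I, (1 - b e) * π e = ∑ e ∈ Sq N I, (π e - b e * π e) :=
        Finset.sum_congr rfl fun e _ => by ring
      rw [h4, Finset.sum_sub_distrib, h2]
    have h3 : ∑ e ∈ Sq N I, b e * (wt z e / m - π e) + ∑ e ∈ Sq N I, (h e - b e) * (wt z e / m) =
        (∑ e ∈ Sq N I, h e * wt z e) / m - ∑ e ∈ Sq N I, b e * π e := by
      rw [Finset.sum_div, ← Finset.sum_sub_distrib, ← Finset.sum_add_distrib]
      refine Finset.sum_congr rfl fun e _ => ?_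
      ring
    rw [hfil, hT, h1, h3]
    ring
  rw [hdec]
  have hA : |∑ e ∈ Sq N I, b e * (wt z e / m - π e)| ≤ Cp * Λ.card / m ^ 2 := by
    calc |∑ e ∈ Sq N I, b e * (wt z e / m - π e)|
        ≤ ∑ e ∈ Sq N I, |b e * (wt z e / m - π e)| := Finset.abs_sum_le_sum_abs _ _
      _ ≤ ∑ e ∈ Sq N I, Cp / m ^ 2 * (h e * wt z e) := by
          apply Finset.sum_le_sum
          intro e he
          rw [abs_mul, abs_of_nonneg (hb0 e), abs_sub_comm]
          calc b e * |π e - wt z e / m| ≤ b e * (Cp * wt z e / m ^ 2) :=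
                mul_le_mul_of_nonneg_left (hπ.near e he) (hb0 e)
            _ ≤ h e * (Cp * wt z e / m ^ 2) := by
                apply mul_le_mul_of_nonneg_right (hbh e)
                have := hwt0 e
                positivity
            _ = Cp / m ^ 2 * (h e * wt z e) := by ring
      _ = Cp / m ^ 2 * ∑ e ∈ Sq N I, h e * wt z e := by rw [Finset.mul_sum]
      _ ≤ Cp / m ^ 2 * Λ.card := mul_le_mul_of_nonneg_left hTle (by positivity)
      _ = Cp * Λ.card / m ^ 2 := by ring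
  have hB0 : 0 ≤ ∑ e ∈ Sq N I, (h e - b e) * (wt z e / m) := by
    apply Finset.sum_nonneg
    intro e _
    have h1 := hbh e
    have h2 := hwt0 e
    exact mul_nonneg (by linarith) (by positivity)
  have hB : ∑ e ∈ Sq N I, (h e - b e) * (wt z e / m) ≤ K * (Λ.card : ℝ) ^ 2 / m ^ 2 := by
    calc ∑ e ∈ Sq N I, (h e - b e) * (wt z e / m)
        ≤ ∑ e ∈ Sq N I, p e * (K / m ^ 2) := by
          apply Finset.sum_le_sum
          intro e he
          have h1 := hbh e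
          have h2 := hwt0 e
          have h3 : wt z e / m ≤ K / m ^ 2 := by
            have h4 := div_le_div_of_nonneg_right (hw e he) hm0.le
            calc wt z e / m ≤ K / m / m := h4
              _ = K / m ^ 2 := by field_simp
          exact mul_le_mul (hhp e) h3 (by positivity) (hp0 e)
      _ = K / m ^ 2 * ∑ l ∈ Λ, ∑ l' ∈ Λ, ∑ e ∈ Sq N I,
            (if l ≠ l' ∧ On e l ∧ On e l' then (1 : ℝ) else 0) := by
          rw [← Finset.sum_mul, mul_comm]
          congr 1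
          simp only [hp]
          rw [Finset.sum_comm]
          refine Finset.sum_congr rfl fun l _ => ?_
          rw [Finset.sum_comm]
      _ ≤ K / m ^ 2 * ∑ _l ∈ Λ, ∑ _l' ∈ Λ, (1 : ℝ) := by
          apply mul_le_mul_of_nonneg_left _ (by positivity)
          exact Finset.sum_le_sum fun l _ => Finset.sum_le_sum fun l' _ => pair_le l l'
      _ = K * (Λ.card : ℝ) ^ 2 / m ^ 2 := by
          simp only [Finset.sum_const, nsmul_eq_mul, mul_one]
          ring
  have hcard : (Λ.card : ℝ) ≤ (Λ.card : ℝ) ^ 2 := by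
    have : Λ.card ≤ Λ.card ^ 2 := Nat.le_self_pow two_ne_zero _
    exact_mod_cast this
  calc |∑ e ∈ Sq N I, b e * (wt z e / m - π e) + ∑ e ∈ Sq N I, (h e - b e) * (wt z e / m)|
      ≤ |∑ e ∈ Sq N I, b e * (wt z e / m - π e)| + |∑ e ∈ Sq N I, (h e - b e) * (wt z e / m)| :=
        abs_add_le _ _
    _ ≤ Cp * Λ.card / m ^ 2 + K * (Λ.card : ℝ) ^ 2 / m ^ 2 := by
        rw [abs_of_nonneg hB0]
        exact add_le_add hA hB
    _ ≤ Cp * (Λ.card : ℝ) ^ 2 / m ^ 2 + K * (Λ.card : ℝ) ^ 2 / m ^ 2 := by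
        gcongr
    _ = (Cp + K) * (Λ.card : ℝ) ^ 2 / m ^ 2 := by ring

end Pool.Agent.NQL
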