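import Pool.Agent.NQL.Defs
import Pool.Agent.NQL.ABas
import Pool.Agent.NQL.AVal
import Pool.Agent.NQL.CSur

/-!
# NQL-CBin: binomial moments of the number of free squares on a diagonal
-/

set_option autoImplicit false

open Finset

namespace Pool.Agent.NQL

open Pool.Agent.NQ (board dsum F Ent Dg phi ln Q Qset QS NonAtt bern)
open Pool.Agent.NQR (Adm Opt Bd Rf hS hD hh InR)

open Classical in
/-- binomial moment of the number of free squares on the diagonal `l`, target size `k` -/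
noncomputable def EN (Cn : ℝ) (N k m : ℕ) (I : Finset Li) (l : Li) : ℝ :=
  if l ∈ I then ((Nat.choose (Sl N I l).card (Nat.sqrt k) : ℕ) : ℝ) /
      ((Nat.choose ⌈8 * ((k : ℝ) ^ 2 / N + (k : ℝ) ^ (3 / 4 : ℝ))⌉₊ (Nat.sqrt k) : ℕ) : ℝ) *
    ((k : ℝ) / m) ^ (2 * Nat.sqrt k) * Real.exp (Cn * (Nat.sqrt k : ℝ) ^ 2 * (1 / k - 1 / m)) else 0

private theorem en_fac {X : ℝ} (hX : 0 ≤ X) {κ m k : ℕ} (hk : 1 ≤ k) (hkm : k < m) :
    (1 - 2 * (κ : ℝ) / m + 4 * X * (κ : ℝ) ^ 2 / m ^ 2) *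
      (((k : ℝ) / ((m - 1 : ℕ) : ℝ)) ^ (2 * κ) *
        Real.exp ((4 * X + 2) * (κ : ℝ) ^ 2 * (1 / k - 1 / ((m - 1 : ℕ) : ℝ)))) ≤
      ((k : ℝ) / m) ^ (2 * κ) * Real.exp ((4 * X + 2) * (κ : ℝ) ^ 2 * (1 / k - 1 / m)) := by
  obtain ⟨M, rfl⟩ : ∃ M, m = M + 1 := ⟨m - 1, by omega⟩
  have hM : 1 ≤ M := by omega
  have hM0 : (0 : ℝ) < M := by exact_mod_cast hM
  rw [Nat.add_sub_cancel]
  set a : ℝ := (M : ℝ) with ha
  have hm : ((M + 1 : ℕ) : ℝ) = a + 1 := by push_cast; rfl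
  rw [hm]
  have ha1 : (0 : ℝ) < a + 1 := by positivity
  have e1 : ((k : ℝ) / a) ^ (2 * κ) = ((k : ℝ) / (a + 1)) ^ (2 * κ) * ((a + 1) / a) ^ (2 * κ) := by
    rw [← mul_pow]
    congr 1
    field_simp
  have h1 : 1 - 2 * (κ : ℝ) / (a + 1) + 4 * X * (κ : ℝ) ^ 2 / (a + 1) ^ 2 ≤
      Real.exp (-(2 * (κ : ℝ) / (a + 1)) + 4 * X * (κ : ℝ) ^ 2 / (a + 1) ^ 2) := by
    have := Real.add_one_le_exp (-(2 * (κ : ℝ) / (a + 1)) + 4 * X * (κ : ℝ) ^ 2 / (a + 1) ^ 2)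
    linarith
  have h2 : ((a + 1) / a) ^ (2 * κ) ≤ Real.exp (2 * κ / a) := by
    have h3 : (a + 1) / a ≤ Real.exp (1 / a) := by
      have h4 := Real.add_one_le_exp (1 / a)
      refine le_trans (le_of_eq ?_) h4
      field_simp
      ring
    refine (pow_le_pow_left₀ (by positivity) h3 (2 * κ)).trans (le_of_eq ?_)
    rw [← Real.exp_nat_mul]
    congr 1
    push_cast
    ring
  have hκ : (κ : ℝ) ≤ (κ : ℝ) ^ 2 := by
    have : κ ≤ κ ^ 2 := Nat.le_self_pow two_ne_zero κ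
    exact_mod_cast this
  have hκ0 : (0 : ℝ) ≤ κ := Nat.cast_nonneg κ
  have h5 : (-(2 * (κ : ℝ) / (a + 1)) + 4 * X * (κ : ℝ) ^ 2 / (a + 1) ^ 2) + 2 * κ / a +
      (4 * X + 2) * (κ : ℝ) ^ 2 * (1 / k - 1 / a) ≤
      (4 * X + 2) * (κ : ℝ) ^ 2 * (1 / k - 1 / (a + 1)) := by
    have e2 : 2 * (κ : ℝ) / a - 2 * (κ : ℝ) / (a + 1) = 2 * κ / (a * (a + 1)) := by
      field_simp
      ring
    have e3 : (4 * X + 2) * (κ : ℝ) ^ 2 * (1 / k - 1 / (a + 1)) -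
        (4 * X + 2) * (κ : ℝ) ^ 2 * (1 / k - 1 / a) =
        (4 * X + 2) * (κ : ℝ) ^ 2 / (a * (a + 1)) := by
      field_simp
      ring
    have e4 : 4 * X * (κ : ℝ) ^ 2 / (a + 1) ^ 2 ≤ 4 * X * (κ : ℝ) ^ 2 / (a * (a + 1)) := by
      apply div_le_div_of_nonneg_left (by positivity) (by positivity)
      nlinarith
    have e5 : 2 * (κ : ℝ) / (a * (a + 1)) ≤ 2 * (κ : ℝ) ^ 2 / (a * (a + 1)) := by
      apply div_le_div_of_nonneg_right _ (by positivity)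
      linarith
    have e6 : (4 * X + 2) * (κ : ℝ) ^ 2 / (a * (a + 1)) =
        4 * X * (κ : ℝ) ^ 2 / (a * (a + 1)) + 2 * (κ : ℝ) ^ 2 / (a * (a + 1)) := by ring
    linarith
  calc (1 - 2 * (κ : ℝ) / (a + 1) + 4 * X * (κ : ℝ) ^ 2 / (a + 1) ^ 2) *
      (((k : ℝ) / a) ^ (2 * κ) * Real.exp ((4 * X + 2) * (κ : ℝ) ^ 2 * (1 / k - 1 / a)))
      ≤ Real.exp (-(2 * (κ : ℝ) / (a + 1)) + 4 * X * (κ : ℝ) ^ 2 / (a + 1) ^ 2) *
      (((k : ℝ) / a) ^ (2 * κ) * Real.exp ((4 * X + 2) * (κ : ℝ) ^ 2 * (1 / k - 1 / a))) :=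
        mul_le_mul_of_nonneg_right h1 (by positivity)
    _ = ((k : ℝ) / (a + 1)) ^ (2 * κ) * Real.exp ((4 * X + 2) * (κ : ℝ) ^ 2 * (1 / k - 1 / a)) *
        Real.exp (-(2 * (κ : ℝ) / (a + 1)) + 4 * X * (κ : ℝ) ^ 2 / (a + 1) ^ 2) *
        ((a + 1) / a) ^ (2 * κ) := by
        rw [e1]
        ring
    _ ≤ ((k : ℝ) / (a + 1)) ^ (2 * κ) * Real.exp ((4 * X + 2) * (κ : ℝ) ^ 2 * (1 / k - 1 / a)) *
        Real.exp (-(2 * (κ : ℝ) / (a + 1)) + 4 * X * (κ : ℝ) ^ 2 / (a + 1) ^ 2) *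
        Real.exp (2 * κ / a) := mul_le_mul_of_nonneg_left h2 (by positivity)
    _ = ((k : ℝ) / (a + 1)) ^ (2 * κ) *
        Real.exp ((-(2 * (κ : ℝ) / (a + 1)) + 4 * X * (κ : ℝ) ^ 2 / (a + 1) ^ 2) + 2 * κ / a +
          (4 * X + 2) * (κ : ℝ) ^ 2 * (1 / k - 1 / a)) := by
        rw [Real.exp_add (-(2 * (κ : ℝ) / (a + 1)) + 4 * X * (κ : ℝ) ^ 2 / (a + 1) ^ 2 +
          2 * κ / a), Real.exp_add (-(2 * (κ : ℝ) / (a + 1)) +
          4 * X * (κ : ℝ) ^ 2 / (a + 1) ^ 2)]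
        ring
    _ ≤ _ := mul_le_mul_of_nonneg_left (Real.exp_le_exp.2 h5) (by positivity)

/-- rows and columns of the squares of `T` -/
private noncomputable def Lam (T : Finset (ℤ × ℤ)) : Finset Li :=
  T.image (fun e => ((0 : Fin 4), ln 0 e)) ∪ T.image (fun e => ((1 : Fin 4), ln 1 e))

private theorem mem_Lam {T : Finset (ℤ × ℤ)} {l : Li} (h : l ∈ Lam T) :
    ∃ e ∈ T, ln l.1 e = l.2 ∧ rc l := by
  unfold Lam at h
  rw [mem_union, mem_image, mem_image] at h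
  rcases h with ⟨e, he, rfl⟩ | ⟨e, he, rfl⟩
  · exact ⟨e, he, rfl, by unfold rc; norm_num⟩
  · exact ⟨e, he, rfl, by unfold rc; norm_num⟩

private theorem card_Lam {N : ℕ} {I : Finset Li} {l : Li} (hl : ¬ rc l) {T : Finset (ℤ × ℤ)}
    (hT : T ⊆ Sl N I l) : (Lam T).card = 2 * T.card := by
  have h0 : l.1 ≠ 0 := by
    intro h
    apply hl
    unfold rc
    rw [h]
    norm_num
  have h1 : l.1 ≠ 1 := by
    intro h
    apply hl
    unfold rc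
    rw [h]
    norm_num
  have hd : Disjoint (T.image (fun e => ((0 : Fin 4), ln 0 e)))
      (T.image (fun e => ((1 : Fin 4), ln 1 e))) := by
    rw [disjoint_left]
    intro x hx hy
    rw [mem_image] at hx hy
    obtain ⟨e, _, rfl⟩ := hx
    obtain ⟨e', _, h⟩ := hy
    have := congrArg Prod.fst h
    simp at this
  have hinj : ∀ k : Fin 4, l.1 ≠ k → Set.InjOn (fun e : ℤ × ℤ => (k, ln k e)) (T : Set (ℤ × ℤ)) := by
    intro k hk e he e' he' h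
    have h2 := (mem_Sl.1 (hT (mem_coe.1 he))).2
    have h3 := (mem_Sl.1 (hT (mem_coe.1 he'))).2
    exact two_lines hk (h2.trans h3.symm) (congrArg Prod.snd h)
  unfold Lam
  rw [card_union_of_disjoint hd, card_image_of_injOn (hinj 0 h0), card_image_of_injOn (hinj 1 h1)]
  ring

theorem en_step {K Cp : ℝ} (hK : 1 ≤ K) (hCp : 0 ≤ Cp) {N m k : ℕ} {I : Finset Li} {z : Li → ℝ}
    {π : ℤ × ℤ → ℝ} (hk : 1 ≤ k) (hkm : k < m) (hv : Vd N m I) (hz : St N I z)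
    (hw : ∀ e ∈ Sq N I, wt z e ≤ K / m) (hπ : Tp Cp N m I z π) {l : Li} (hl : ¬ rc l) :
    ∑ e ∈ Sq N I, π e * EN (4 * (Cp + K) + 2) N k (m - 1) (rm I e) l ≤ EN (4 * (Cp + K) + 2) N k m I l := by
  classical
  have hX : 0 ≤ Cp + K := by linarith
  set κ : ℕ := Nat.sqrt k with hκ
  set th : ℕ := ⌈8 * ((k : ℝ) ^ 2 / N + (k : ℝ) ^ (3 / 4 : ℝ))⌉₊ with hth
  by_cases hlI : l ∈ I
  · have hm0 : (0 : ℝ) < m := by exact_mod_cast (by omega : 0 < m)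
    set R : ℝ := ((k : ℝ) / ((m - 1 : ℕ) : ℝ)) ^ (2 * κ) *
        Real.exp ((4 * (Cp + K) + 2) * (κ : ℝ) ^ 2 * (1 / k - 1 / ((m - 1 : ℕ) : ℝ))) with hR
    have hR0 : 0 ≤ R := by
      rw [hR]
      positivity
    have hcount : ∀ e ∈ Sq N I, EN (4 * (Cp + K) + 2) N k (m - 1) (rm I e) l ≤
        (∑ T ∈ (Sl N I l).powersetCard κ, if ∀ l' ∈ Lam T, ¬ On e l' then (1 : ℝ) else 0) /
          ((Nat.choose th κ : ℕ) : ℝ) * R := by
      intro e he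
      unfold EN
      by_cases hle : l ∈ rm I e
      · rw [if_pos hle, mul_assoc]
        refine mul_le_mul_of_nonneg_right ?_ hR0
        refine div_le_div_of_nonneg_right ?_ (Nat.cast_nonneg _)
        rw [← card_powersetCard, ← sum_filter, sum_const, nsmul_eq_mul, mul_one]
        have hsub : (Sl N (rm I e) l).powersetCard (Nat.sqrt k) ⊆
            ((Sl N I l).powersetCard κ).filter (fun T => ∀ l' ∈ Lam T, ¬ On e l') := by
          intro T hT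
          obtain ⟨h1, h2⟩ := mem_powersetCard.1 hT
          rw [mem_filter, mem_powersetCard]
          refine ⟨⟨?_, h2⟩, ?_⟩
          · intro e' he'
            obtain ⟨h3, h4⟩ := mem_Sl.1 (h1 he')
            exact mem_Sl.2 ⟨(mem_Sq_rm.1 h3).1, h4⟩
          · intro l' hl' hOn
            obtain ⟨e', he', h5, _⟩ := mem_Lam hl'
            obtain ⟨h3, _⟩ := mem_Sl.1 (h1 he')
            exact (mem_Sq_rm.1 h3).2 l'.1 (h5.trans hOn.symm)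
        exact_mod_cast card_le_card hsub
      · rw [if_neg hle]
        refine mul_nonneg (div_nonneg (sum_nonneg fun T _ => ?_) (Nat.cast_nonneg _)) hR0
        split_ifs <;> norm_num
    have hT : ∀ T ∈ (Sl N I l).powersetCard κ,
        ∑ e ∈ (Sq N I).filter (fun e => ∀ l' ∈ Lam T, ¬ On e l'), π e ≤
          1 - 2 * (κ : ℝ) / m + 4 * (Cp + K) * (κ : ℝ) ^ 2 / m ^ 2 := by
      intro T hT
      obtain ⟨h1, h2⟩ := mem_powersetCard.1 hT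
      have hΛ : Lam T ⊆ I := by
        intro l' hl'
        obtain ⟨e', he', h5, _⟩ := mem_Lam hl'
        have h6 := (mem_Sq.1 (mem_Sl.1 (h1 he')).1).2 l'.1
        rw [h5] at h6
        exact h6
      have h3 := surv hK hCp (by omega : 1 ≤ m) hv hz hw hπ hΛ
      have h4 : ∑ l' ∈ Lam T, ∑ e ∈ Sl N I l', wt z e = 2 * κ := by
        have h5 : ∀ l' ∈ Lam T, ∑ e ∈ Sl N I l', wt z e = 1 := by
          intro l' hl'
          obtain ⟨_, _, _, hrc⟩ := mem_Lam hl'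
          exact (mass_dg hz (hΛ hl')).2.2.2 hrc
        rw [sum_congr rfl h5, sum_const, nsmul_eq_mul, mul_one, card_Lam hl h1, h2]
        push_cast
        ring
      have hc : ((Lam T).card : ℝ) = 2 * κ := by
        rw [card_Lam hl h1, h2]
        push_cast
        ring
      rw [h4, hc] at h3
      have h6 := le_of_abs_le h3
      have e1 : (Cp + K) * (2 * (κ : ℝ)) ^ 2 / m ^ 2 = 4 * (Cp + K) * (κ : ℝ) ^ 2 / m ^ 2 := by
        ring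
      rw [e1] at h6
      linarith
    have hsum : ∑ e ∈ Sq N I, π e *
        (∑ T ∈ (Sl N I l).powersetCard κ, if ∀ l' ∈ Lam T, ¬ On e l' then (1 : ℝ) else 0) ≤
        ((Nat.choose (Sl N I l).card κ : ℕ) : ℝ) *
          (1 - 2 * (κ : ℝ) / m + 4 * (Cp + K) * (κ : ℝ) ^ 2 / m ^ 2) := by
      have e1 : ∑ e ∈ Sq N I, π e *
          (∑ T ∈ (Sl N I l).powersetCard κ, if ∀ l' ∈ Lam T, ¬ On e l' then (1 : ℝ) else 0) =
          ∑ T ∈ (Sl N I l).powersetCard κ,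
            ∑ e ∈ (Sq N I).filter (fun e => ∀ l' ∈ Lam T, ¬ On e l'), π e := by
        rw [sum_congr rfl fun e _ => mul_sum _ _ _, sum_comm]
        refine sum_congr rfl fun T _ => ?_
        rw [sum_filter]
        refine sum_congr rfl fun e _ => ?_
        split_ifs
        · rw [mul_one]
        · rw [mul_zero]
      rw [e1]
      refine (sum_le_sum hT).trans (le_of_eq ?_)
      rw [sum_const, card_powersetCard, nsmul_eq_mul]
    calc ∑ e ∈ Sq N I, π e * EN (4 * (Cp + K) + 2) N k (m - 1) (rm I e) l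
        ≤ ∑ e ∈ Sq N I, π e * ((∑ T ∈ (Sl N I l).powersetCard κ,
          if ∀ l' ∈ Lam T, ¬ On e l' then (1 : ℝ) else 0) /
            ((Nat.choose th κ : ℕ) : ℝ) * R) :=
          sum_le_sum fun e he => mul_le_mul_of_nonneg_left (hcount e he) (hπ.nn e he)
      _ = (∑ e ∈ Sq N I, π e * (∑ T ∈ (Sl N I l).powersetCard κ,
          if ∀ l' ∈ Lam T, ¬ On e l' then (1 : ℝ) else 0)) /
            ((Nat.choose th κ : ℕ) : ℝ) * R := by
          rw [sum_div, sum_mul]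
          refine sum_congr rfl fun e _ => ?_
          ring
      _ ≤ (((Nat.choose (Sl N I l).card κ : ℕ) : ℝ) *
          (1 - 2 * (κ : ℝ) / m + 4 * (Cp + K) * (κ : ℝ) ^ 2 / m ^ 2)) /
            ((Nat.choose th κ : ℕ) : ℝ) * R :=
          mul_le_mul_of_nonneg_right
            (div_le_div_of_nonneg_right hsum (Nat.cast_nonneg _)) hR0
      _ = ((Nat.choose (Sl N I l).card κ : ℕ) : ℝ) / ((Nat.choose th κ : ℕ) : ℝ) *
          ((1 - 2 * (κ : ℝ) / m + 4 * (Cp + K) * (κ : ℝ) ^ 2 / m ^ 2) * R) := by ring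
      _ ≤ ((Nat.choose (Sl N I l).card κ : ℕ) : ℝ) / ((Nat.choose th κ : ℕ) : ℝ) *
          (((k : ℝ) / m) ^ (2 * κ) *
            Real.exp ((4 * (Cp + K) + 2) * (κ : ℝ) ^ 2 * (1 / k - 1 / m))) :=
          mul_le_mul_of_nonneg_left (en_fac hX hk hkm) (by positivity)
      _ = EN (4 * (Cp + K) + 2) N k m I l := by
          unfold EN
          rw [if_pos hlI]
          exact (mul_assoc _ _ _).symm
  · have h1 : ∀ e ∈ Sq N I, π e * EN (4 * (Cp + K) + 2) N k (m - 1) (rm I e) l = 0 := by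
      intro e _
      unfold EN
      rw [if_neg, mul_zero]
      intro h
      exact hlI (mem_rm.1 h).1
    rw [sum_congr rfl h1, sum_const_zero]
    unfold EN
    rw [if_neg hlI]

private theorem sqrt_le_rpow {k : ℕ} (hk : 1 ≤ k) : ((Nat.sqrt k : ℕ) : ℝ) ≤ (k : ℝ) ^ (3 / 4 : ℝ) := by
  have hk1 : (1 : ℝ) ≤ k := by exact_mod_cast hk
  have h1 : ((Nat.sqrt k : ℕ) : ℝ) ≤ Real.sqrt k := Real.nat_sqrt_le_real_sqrt
  refine h1.trans ?_
  rw [Real.sqrt_eq_rpow]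
  exact Real.rpow_le_rpow_of_exponent_le hk1 (by norm_num)

theorem en_start {Cn : ℝ} (hC : 0 ≤ Cn) {N k : ℕ} (hk : 1 ≤ k) (hkN : k ≤ N) {l : Li} (hl : l ∈ full N) :
    EN Cn N k N (full N) l ≤ Real.exp Cn * (1 / 4) ^ Nat.sqrt k := by
  have hk0 : (0 : ℝ) < k := by exact_mod_cast hk
  have hN0 : (0 : ℝ) < N := by exact_mod_cast (by omega : 0 < N)
  set κ : ℕ := Nat.sqrt k with hκ
  set th : ℕ := ⌈8 * ((k : ℝ) ^ 2 / N + (k : ℝ) ^ (3 / 4 : ℝ))⌉₊ with hth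
  have hr := sqrt_le_rpow hk
  rw [← hκ] at hr
  have hth1 : 8 * ((k : ℝ) ^ 2 / N + (k : ℝ) ^ (3 / 4 : ℝ)) ≤ th := Nat.le_ceil _
  have hq0 : (0 : ℝ) ≤ (k : ℝ) ^ 2 / N := by positivity
  have hr0 : (0 : ℝ) ≤ (k : ℝ) ^ (3 / 4 : ℝ) := by positivity
  have hκth : (κ : ℝ) ≤ th := by linarith
  have hκth' : κ ≤ th := by exact_mod_cast hκth
  have hd : (((th + 1 - κ : ℕ)) : ℝ) = (th : ℝ) + 1 - κ := by
    rw [Nat.cast_sub (by omega)]
    push_cast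
    ring
  have hd0 : 4 * ((k : ℝ) ^ 2 / N) < (((th + 1 - κ : ℕ)) : ℝ) := by
    rw [hd]
    linarith
  have hdpos : (0 : ℝ) < (((th + 1 - κ : ℕ)) : ℝ) := lt_of_le_of_lt (by positivity) hd0
  have h1 : ((Nat.choose (Sl N (full N) l).card κ : ℕ) : ℝ) ≤ (N : ℝ) ^ κ / (κ.factorial : ℝ) := by
    have h2 : (Sl N (full N) l).card ≤ N := Sl_card (vd_full (by omega)) hl
    have h3 : ((Nat.choose (Sl N (full N) l).card κ : ℕ) : ℝ) ≤ ((Nat.choose N κ : ℕ) : ℝ) := by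
      exact_mod_cast Nat.choose_le_choose κ h2
    exact h3.trans (Nat.choose_le_pow_div κ N)
  have h2 : (((th + 1 - κ : ℕ)) : ℝ) ^ κ / (κ.factorial : ℝ) ≤ ((Nat.choose th κ : ℕ) : ℝ) :=
    Nat.pow_le_choose κ th
  have hf : (0 : ℝ) < (κ.factorial : ℝ) := by exact_mod_cast Nat.factorial_pos κ
  have h3 : ((Nat.choose (Sl N (full N) l).card κ : ℕ) : ℝ) / ((Nat.choose th κ : ℕ) : ℝ) ≤
      (N : ℝ) ^ κ / (((th + 1 - κ : ℕ)) : ℝ) ^ κ := by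
    have h4 : (0 : ℝ) < (((th + 1 - κ : ℕ)) : ℝ) ^ κ / (κ.factorial : ℝ) := by positivity
    refine (div_le_div₀ (by positivity) h1 h4 h2).trans (le_of_eq ?_)
    field_simp
  have h5 : (N : ℝ) ^ κ / (((th + 1 - κ : ℕ)) : ℝ) ^ κ * ((k : ℝ) / N) ^ (2 * κ) ≤ (1 / 4) ^ κ := by
    rw [pow_mul, ← div_pow, ← mul_pow]
    refine pow_le_pow_left₀ (by positivity) ?_ κ
    have e1 : (N : ℝ) / (((th + 1 - κ : ℕ)) : ℝ) * ((k : ℝ) / N) ^ 2 =
        ((k : ℝ) ^ 2 / N) / (((th + 1 - κ : ℕ)) : ℝ) := by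
      field_simp
    rw [e1, div_le_iff₀ hdpos]
    linarith
  have h6 : Real.exp (Cn * (κ : ℝ) ^ 2 * (1 / k - 1 / N)) ≤ Real.exp Cn := by
    apply Real.exp_le_exp.2
    have h7 : (κ : ℝ) ^ 2 ≤ k := by
      have : κ ^ 2 ≤ k := Nat.sqrt_le' k
      exact_mod_cast this
    have h8 : (κ : ℝ) ^ 2 * (1 / k - 1 / N) ≤ 1 := by
      have h9 : 1 / (k : ℝ) - 1 / N ≤ 1 / k := by
        have : (0 : ℝ) ≤ 1 / N := by positivity
        linarith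
      have h10 : (κ : ℝ) ^ 2 * (1 / k - 1 / N) ≤ (κ : ℝ) ^ 2 * (1 / k) :=
        mul_le_mul_of_nonneg_left h9 (by positivity)
      have h11 : (κ : ℝ) ^ 2 * (1 / k) ≤ 1 := by
        rw [mul_one_div, div_le_one hk0]
        exact h7
      linarith
    rw [mul_assoc]
    have := mul_le_mul_of_nonneg_left h8 hC
    linarith
  unfold EN
  rw [if_pos hl]
  calc ((Nat.choose (Sl N (full N) l).card κ : ℕ) : ℝ) / ((Nat.choose th κ : ℕ) : ℝ) *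
        ((k : ℝ) / N) ^ (2 * κ) * Real.exp (Cn * (κ : ℝ) ^ 2 * (1 / k - 1 / N))
      ≤ (N : ℝ) ^ κ / (((th + 1 - κ : ℕ)) : ℝ) ^ κ * ((k : ℝ) / N) ^ (2 * κ) *
        Real.exp (Cn * (κ : ℝ) ^ 2 * (1 / k - 1 / N)) :=
        mul_le_mul_of_nonneg_right (mul_le_mul_of_nonneg_right h3 (by positivity)) (by positivity)
    _ ≤ (1 / 4) ^ κ * Real.exp Cn := mul_le_mul h5 h6 (by positivity) (by positivity)
    _ = Real.exp Cn * (1 / 4) ^ κ := mul_comm _ _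

theorem en_nonneg (Cn : ℝ) (N k m : ℕ) (I : Finset Li) (l : Li) : 0 ≤ EN Cn N k m I l := by
  unfold EN
  split_ifs
  · positivity
  · exact le_refl _

theorem en_viol {Cn : ℝ} {N m : ℕ} {I : Finset Li} {l : Li} (hm : 1 ≤ m) (hl : l ∈ I)
    (h : 8 * ((m : ℝ) ^ 2 / N + (m : ℝ) ^ (3 / 4 : ℝ)) ≤ (Sl N I l).card) : 1 ≤ EN Cn N m m I l := by
  have hm0 : (0 : ℝ) < m := by exact_mod_cast hm
  have hr := sqrt_le_rpow hm
  have hq0 : (0 : ℝ) ≤ (m : ℝ) ^ 2 / N := by positivity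
  have hr0 : (0 : ℝ) ≤ (m : ℝ) ^ (3 / 4 : ℝ) := by positivity
  have hth1 : 8 * ((m : ℝ) ^ 2 / N + (m : ℝ) ^ (3 / 4 : ℝ)) ≤
      (⌈8 * ((m : ℝ) ^ 2 / N + (m : ℝ) ^ (3 / 4 : ℝ))⌉₊ : ℝ) := Nat.le_ceil _
  have h1 : ⌈8 * ((m : ℝ) ^ 2 / N + (m : ℝ) ^ (3 / 4 : ℝ))⌉₊ ≤ (Sl N I l).card := Nat.ceil_le.2 h
  have h2 : Nat.sqrt m ≤ ⌈8 * ((m : ℝ) ^ 2 / N + (m : ℝ) ^ (3 / 4 : ℝ))⌉₊ := by
    have h3 : ((Nat.sqrt m : ℕ) : ℝ) ≤ (⌈8 * ((m : ℝ) ^ 2 / N + (m : ℝ) ^ (3 / 4 : ℝ))⌉₊ : ℝ) := by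
      linarith
    exact_mod_cast h3
  have h3 : (0 : ℝ) < ((Nat.choose ⌈8 * ((m : ℝ) ^ 2 / N + (m : ℝ) ^ (3 / 4 : ℝ))⌉₊
      (Nat.sqrt m) : ℕ) : ℝ) := by
    exact_mod_cast Nat.choose_pos h2
  unfold EN
  rw [if_pos hl, div_self hm0.ne', one_pow, sub_self, mul_zero, Real.exp_zero, mul_one, mul_one,
    le_div_iff₀ h3, one_mul]
  exact_mod_cast Nat.choose_le_choose _ h1

end Pool.Agent.NQL
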