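import Pool.Agent.NQL.Defs
import Pool.Agent.NQL.ABas
import Pool.Agent.NQL.AVal
import Pool.Agent.NQL.BNom
import Pool.Agent.NQL.CSur

/-!
# NQL-CDrf: drift and increments of the line masses
-/

set_option autoImplicit false

open Finset

namespace Pool.Agent.NQL

open Pool.Agent.NQ (board dsum F Ent Dg phi ln Q Qset QS NonAtt bern)
open Pool.Agent.NQR (Adm Opt Bd Rf hS hD hh InR)

private theorem Sl_rm_eq {N : ℕ} {I : Finset Li} {e' : ℤ × ℤ} {l : Li} :
    Sl N (rm I e') l = (Sl N I l).filter (fun e => ∀ k, ln k e ≠ ln k e') := by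
  ext e
  rw [mem_filter, mem_Sl, mem_Sl, mem_Sq_rm]
  tauto

private noncomputable def La (e : ℤ × ℤ) : Finset Li := univ.image (fun k : Fin 4 => (k, ln k e))

private theorem La_inj (e : ℤ × ℤ) : Function.Injective (fun k : Fin 4 => ((k, ln k e) : Li)) :=
  fun _ _ h => congrArg Prod.fst h

private theorem card_La (e : ℤ × ℤ) : (La e).card = 4 := by
  unfold La
  rw [card_image_of_injective _ (La_inj e), card_univ, Fintype.card_fin]

private theorem sum_La (e : ℤ × ℤ) (f : Li → ℝ) : ∑ l ∈ La e, f l = ∑ k : Fin 4, f (k, ln k e) := by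
  unfold La
  rw [sum_image]
  exact fun a _ b _ h => La_inj e h

private theorem La_sub {N : ℕ} {I : Finset Li} {e : ℤ × ℤ} (he : e ∈ Sq N I) : La e ⊆ I := by
  intro l hl
  unfold La at hl
  obtain ⟨k, _, rfl⟩ := mem_image.1 hl
  exact (mem_Sq.1 he).2 k

private theorem La_iff {e e' : ℤ × ℤ} : (∀ l ∈ La e, ¬ On e' l) ↔ ∀ k, ln k e ≠ ln k e' := by
  unfold La
  constructor
  · intro h k hk
    exact h (k, ln k e) (mem_image.2 ⟨k, mem_univ k, rfl⟩) hk.symm
  · intro h l hl hOn
    obtain ⟨k, _, rfl⟩ := mem_image.1 hl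
    exact h k hOn.symm

private theorem point_bd {W W' P a b x1 x2 : ℝ} (hW : 0 ≤ W) (h1 : |W' - W * (1 + a)| ≤ W * x1)
    (hP0 : 0 ≤ P) (hP1 : P ≤ 1) (h2 : |P - (1 - b)| ≤ x2) :
    |W' * P - W * (1 + a - b)| ≤ W * (x1 + (1 + |a|) * x2 + |a| * |b|) := by
  have e1 : W' * P - W * (1 + a - b) =
      (W' - W * (1 + a)) * P + W * (1 + a) * (P - (1 - b)) - W * (a * b) := by ring
  rw [e1]
  have hx2 : 0 ≤ x2 := (abs_nonneg _).trans h2
  have b1 : |(W' - W * (1 + a)) * P| ≤ W * x1 := by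
    rw [abs_mul, abs_of_nonneg hP0]
    have := mul_le_of_le_one_right (abs_nonneg (W' - W * (1 + a))) hP1
    linarith
  have b2 : |W * (1 + a) * (P - (1 - b))| ≤ W * ((1 + |a|) * x2) := by
    rw [abs_mul, abs_mul, abs_of_nonneg hW, mul_assoc]
    refine mul_le_mul_of_nonneg_left ?_ hW
    refine mul_le_mul ?_ h2 (abs_nonneg _) (by positivity)
    refine (abs_add_le _ _).trans ?_
    rw [abs_one]
  have b3 : |W * (a * b)| = W * (|a| * |b|) := by
    rw [abs_mul, abs_mul, abs_of_nonneg hW]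
  calc |(W' - W * (1 + a)) * P + W * (1 + a) * (P - (1 - b)) - W * (a * b)|
      ≤ |(W' - W * (1 + a)) * P + W * (1 + a) * (P - (1 - b))| + |W * (a * b)| := abs_sub _ _
    _ ≤ |(W' - W * (1 + a)) * P| + |W * (1 + a) * (P - (1 - b))| + |W * (a * b)| := by
        have := abs_add_le ((W' - W * (1 + a)) * P) (W * (1 + a) * (P - (1 - b)))
        linarith
    _ ≤ W * x1 + W * ((1 + |a|) * x2) + W * (|a| * |b|) := by linarith
    _ = _ := by ring

/-- the final algebra -/
private theorem final_bd {M X T T' Y v P A S1 G d E : ℝ} (hM : 2 ≤ M) (hX : 0 ≤ X)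
    (hT0 : 0 ≤ T) (hT1 : T ≤ 1) (hY0 : 0 ≤ Y) (hY2 : Y ≤ 2) (hv0 : 0 ≤ v) (hv1 : v ≤ 1)
    (hP0 : 0 ≤ P) (hP1 : P ≤ 1) (hP : |P - (1 - v / M)| ≤ X / M ^ 2)
    (hT : |T' - T - T * (T - 1) / M| ≤ 4 / M ^ 2) (hA : |A - S1| ≤ E * 2 / M ^ 2)
    (hS1 : S1 = Y * (1 - 1 / M) + (T - v) * Y / M + G / M) (hG : |G| ≤ 3 * Y * d) :
    |A - P * (T' - T + Y)| ≤ ((1 - T) * |Y - T| + 3 * Y * d) / M +
      (2 * E + 5 + 3 * X) / M ^ 2 := by
  have hM0 : 0 < M := by linarith
  have e1 : A - P * (T' - T + Y) = -((1 - T) * (Y - T)) / M + G / M + (A - S1) +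
      v * (T * (T - 1)) / M ^ 2 - (P - (1 - v / M)) * (Y + T * (T - 1) / M) -
      P * (T' - T - T * (T - 1) / M) := by
    rw [hS1]
    field_simp
    ring
  rw [e1]
  have hTT : |T * (T - 1)| ≤ 1 := by
    rw [abs_le]
    constructor <;> nlinarith
  have b1 : |-((1 - T) * (Y - T)) / M| = (1 - T) * |Y - T| / M := by
    rw [abs_div, abs_neg, abs_mul, abs_of_nonneg (sub_nonneg.2 hT1), abs_of_pos hM0]
  have b2 : |G / M| ≤ 3 * Y * d / M := by
    rw [abs_div, abs_of_pos hM0]
    exact div_le_div_of_nonneg_right hG hM0.le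
  have b4 : |v * (T * (T - 1)) / M ^ 2| ≤ 1 / M ^ 2 := by
    rw [abs_div, abs_of_pos (pow_pos hM0 2), abs_mul, abs_of_nonneg hv0]
    refine div_le_div_of_nonneg_right ?_ (by positivity)
    have := mul_le_mul hv1 hTT (abs_nonneg _) zero_le_one
    linarith
  have b5 : |(P - (1 - v / M)) * (Y + T * (T - 1) / M)| ≤ 3 * X / M ^ 2 := by
    rw [abs_mul]
    have h1 : |Y + T * (T - 1) / M| ≤ 3 := by
      have h2 : |T * (T - 1) / M| ≤ 1 := by
        rw [abs_div, abs_of_pos hM0, div_le_one hM0]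
        linarith
      have h3 := abs_add_le Y (T * (T - 1) / M)
      rw [abs_of_nonneg hY0] at h3
      linarith
    have h4 := mul_le_mul hP h1 (abs_nonneg _) (by positivity)
    refine h4.trans (le_of_eq ?_)
    ring
  have b6 : |P * (T' - T - T * (T - 1) / M)| ≤ 4 / M ^ 2 := by
    rw [abs_mul, abs_of_nonneg hP0]
    have := mul_le_mul hP1 hT (abs_nonneg _) zero_le_one
    linarith
  have e2 : ((1 - T) * |Y - T| + 3 * Y * d) / M + (2 * E + 5 + 3 * X) / M ^ 2 =
      (1 - T) * |Y - T| / M + 3 * Y * d / M + E * 2 / M ^ 2 + 1 / M ^ 2 + 3 * X / M ^ 2 +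
        4 / M ^ 2 := by ring
  rw [e2, ← b1]
  set p1 := -((1 - T) * (Y - T)) / M
  set p2 := G / M
  set p3 := A - S1
  set p4 := v * (T * (T - 1)) / M ^ 2
  set p5 := (P - (1 - v / M)) * (Y + T * (T - 1) / M)
  set p6 := P * (T' - T - T * (T - 1) / M)
  calc |p1 + p2 + p3 + p4 - p5 - p6| ≤ |p1 + p2 + p3 + p4 - p5| + |p6| := abs_sub _ _
    _ ≤ |p1 + p2 + p3 + p4| + |p5| + |p6| := by
        have := abs_sub (p1 + p2 + p3 + p4) p5
        linarith
    _ ≤ |p1 + p2 + p3| + |p4| + |p5| + |p6| := by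
        have := abs_add_le (p1 + p2 + p3) p4
        linarith
    _ ≤ |p1 + p2| + |p3| + |p4| + |p5| + |p6| := by
        have := abs_add_le (p1 + p2) p3
        linarith
    _ ≤ |p1| + |p2| + |p3| + |p4| + |p5| + |p6| := by
        have := abs_add_le p1 p2
        linarith
    _ ≤ _ := by linarith

theorem drift (L K Cp : ℝ) (hL : 1 ≤ L) (hK : 1 ≤ K) (hCp : 0 ≤ Cp) : ∃ C : ℝ, 1 ≤ C ∧
    ∀ (N m : ℕ) (I : Finset Li) (W : ℤ × ℤ → ℝ) (A B : ℤ → ℝ) (z : Li → ℝ) (π : ℤ × ℤ → ℝ) (d : ℝ),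
      2 ≤ m → m ≤ N → Rf L N W A B → Vd N m I → St N I z → (∀ e ∈ Sq N I, wt z e ≤ K / m) → Tp Cp N m I z π →
      Cl d N m W I z → ∀ l ∈ I, YY N W m I l ≤ 2 →
      |∑ e ∈ (Sq N I).filter (fun e => ¬ On e l), π e *
        ((YY N W (m - 1) (rm I e) l - TT N W (m - 1) l) - (YY N W m I l - TT N W m l))| ≤
        ((1 - TT N W m l) * |YY N W m I l - TT N W m l| + 3 * YY N W m I l * d) / m + C / m ^ 2 ∧
      ∀ e ∈ Sq N I, ¬ On e l →
        |(YY N W (m - 1) (rm I e) l - TT N W (m - 1) l) - (YY N W m I l - TT N W m l)| ≤ C / m := by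
  have hL3 : 1 ≤ L ^ 3 := one_le_pow₀ hL
  refine ⟨300 + 83 * (Cp + K) + 8 * L ^ 3, by nlinarith, ?_⟩
  intro N m I W A B z π d h2m hmN hR hv hz hw hπ hCl l hl hY2
  classical
  have hX : 0 ≤ Cp + K := by linarith
  have hM2 : (2 : ℝ) ≤ m := by exact_mod_cast h2m
  have hM0 : (0 : ℝ) < m := by linarith
  have hM1 : (1 : ℝ) ≤ m := by linarith
  have hsq : (0 : ℝ) < (m : ℝ) ^ 2 := by positivity
  have hT01 : ∀ l' : Li, 0 ≤ TT N W m l' ∧ TT N W m l' ≤ 1 := by
    intro l'
    by_cases hrc : rc l'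
    · rw [tt_rc hrc]
      exact ⟨zero_le_one, le_refl _⟩
    · obtain ⟨h1, _, h3⟩ := tt_bd hL hR (by omega : 1 ≤ m) hmN hrc
      refine ⟨h1, h3.trans ?_⟩
      have : (0 : ℝ) ≤ 1 / L := by positivity
      linarith
  obtain ⟨hW1, hT1⟩ := one_step hL hR h2m hmN
  have hbd : ∀ e ∈ Sl N I l, e ∈ board N := fun e he => (mem_Sq.1 (mem_Sl.1 he).1).1
  have hSq : ∀ e ∈ Sl N I l, e ∈ Sq N I := fun e he => (mem_Sl.1 he).1
  have hWn0 : ∀ e ∈ Sl N I l, 0 ≤ Wn N W m e := by
    intro e he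
    have h1 := (wn_bd hL hR (by omega : 1 ≤ m) hmN (hbd e he)).1
    exact le_trans (by positivity) h1
  set Y : ℝ := YY N W m I l with hYdef
  set T : ℝ := TT N W m l with hTdef
  set T' : ℝ := TT N W (m - 1) l with hT'def
  have hY0 : 0 ≤ Y := sum_nonneg hWn0
  have hYsum : ∑ e ∈ Sl N I l, Wn N W m e = Y := rfl
  set v : Li → ℝ := fun l' => ∑ e ∈ Sl N I l', wt z e with hvdef
  have hv01 : ∀ l' ∈ I, 0 ≤ v l' ∧ v l' ≤ 1 := fun l' hl' =>
    ⟨(mass_dg hz hl').1, (mass_dg hz hl').2.1⟩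
  have hsumT : ∀ e : ℤ × ℤ, 1 ≤ (∑ k : Fin 4, TT N W m (k, ln k e)) ∧
      (∑ k : Fin 4, TT N W m (k, ln k e)) ≤ 4 := by
    intro e
    constructor
    · have h1 : TT N W m ((0 : Fin 4), ln 0 e) = 1 := tt_rc (by unfold rc; norm_num)
      rw [← h1]
      exact single_le_sum (f := fun k : Fin 4 => TT N W m (k, ln k e))
        (fun k _ => (hT01 _).1) (mem_univ 0)
    · refine (sum_le_sum fun k _ => (hT01 (k, ln k e)).2).trans (le_of_eq ?_)
      rw [sum_const, card_univ, Fintype.card_fin]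
      norm_num
  have ha : ∀ e : ℤ × ℤ, |((∑ k : Fin 4, TT N W m (k, ln k e)) - 1) / m| ≤ 3 / m := by
    intro e
    obtain ⟨h1, h3⟩ := hsumT e
    rw [abs_div, abs_of_pos hM0]
    refine div_le_div_of_nonneg_right ?_ hM0.le
    rw [abs_le]
    constructor <;> linarith
  have hlI := hv01 l hl
  have hTl := hT01 l
  have hTT : |T * (T - 1)| ≤ 1 := by
    rw [abs_le]
    constructor <;> nlinarith [hTl.1, hTl.2]
  constructor
  · -- the probabilities
    set P : ℤ × ℤ → ℝ := fun e => ∑ e' ∈ (Sq N I).filter (fun e' => ∀ l' ∈ La e, ¬ On e' l'), π e'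
      with hPdef
    set Pl : ℝ := ∑ e' ∈ (Sq N I).filter (fun e' => ¬ On e' l), π e' with hPldef
    have hle1 : ∀ S : Finset (ℤ × ℤ), S ⊆ Sq N I → 0 ≤ ∑ e' ∈ S, π e' ∧ ∑ e' ∈ S, π e' ≤ 1 := by
      intro S hS
      refine ⟨sum_nonneg fun e he => hπ.nn e (hS he), ?_⟩
      rw [← hπ.sum]
      exact sum_le_sum_of_subset_of_nonneg hS fun e he _ => hπ.nn e he
    have hP : ∀ e ∈ Sl N I l, |P e - (1 - (∑ k : Fin 4, v (k, ln k e)) / m)| ≤
        16 * (Cp + K) / m ^ 2 := by
      intro e he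
      have h1 := surv hK hCp (by omega : 1 ≤ m) hv hz hw hπ (La_sub (hSq e he))
      rw [card_La, sum_La] at h1
      refine h1.trans (le_of_eq ?_)
      push_cast
      ring
    have hPl : |Pl - (1 - v l / m)| ≤ (Cp + K) / m ^ 2 := by
      have h1 := surv hK hCp (by omega : 1 ≤ m) hv hz hw hπ (Λ := {l}) (singleton_subset_iff.2 hl)
      rw [card_singleton, sum_singleton] at h1
      have h2 : (Sq N I).filter (fun e => ∀ l' ∈ ({l} : Finset Li), ¬ On e l') =
          (Sq N I).filter (fun e => ¬ On e l) := by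
        refine filter_congr fun e _ => ?_
        constructor
        · intro h
          exact h l (mem_singleton_self l)
        · intro h l' hl'
          rw [mem_singleton.1 hl']
          exact h
      rw [h2] at h1
      refine h1.trans (le_of_eq ?_)
      push_cast
      ring
    -- exchange of sums
    have hA : ∑ e' ∈ (Sq N I).filter (fun e' => ¬ On e' l), π e' * YY N W (m - 1) (rm I e') l =
        ∑ e ∈ Sl N I l, Wn N W (m - 1) e * P e := by
      have h1 : ∀ e' ∈ (Sq N I).filter (fun e' => ¬ On e' l),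
          π e' * YY N W (m - 1) (rm I e') l =
            ∑ e ∈ Sl N I l, if ∀ k, ln k e ≠ ln k e' then Wn N W (m - 1) e * π e' else 0 := by
        intro e' _
        unfold YY
        rw [Sl_rm_eq, sum_filter, mul_sum]
        refine sum_congr rfl fun e _ => ?_
        split_ifs
        · ring
        · ring
      rw [sum_congr rfl h1, sum_comm]
      refine sum_congr rfl fun e he => ?_
      simp only [hPdef]
      rw [mul_sum, ← sum_filter, filter_filter]
      refine sum_congr ?_ fun e' _ => rfl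
      refine filter_congr fun e' _ => ?_
      rw [La_iff]
      constructor
      · exact fun h => h.2
      · intro h
        refine ⟨fun hOn => ?_, h⟩
        have h3 := (mem_Sl.1 he).2
        exact h l.1 (h3.trans hOn.symm)
    set S1 : ℝ := ∑ e ∈ Sl N I l, Wn N W m e *
      (1 + ((∑ k : Fin 4, TT N W m (k, ln k e)) - 1) / m - (∑ k : Fin 4, v (k, ln k e)) / m)
      with hS1def
    set G : ℝ := ∑ e ∈ Sl N I l, Wn N W m e *
      ∑ k ∈ univ.erase l.1, (TT N W m (k, ln k e) - v (k, ln k e)) with hGdef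
    have hS1 : S1 = Y * (1 - 1 / m) + (T - v l) * Y / m + G / m := by
      have h1 : ∀ e ∈ Sl N I l, Wn N W m e *
          (1 + ((∑ k : Fin 4, TT N W m (k, ln k e)) - 1) / m - (∑ k : Fin 4, v (k, ln k e)) / m) =
          Wn N W m e * (1 - 1 / m) + (T - v l) / m * Wn N W m e +
            1 / m * (Wn N W m e *
              ∑ k ∈ univ.erase l.1, (TT N W m (k, ln k e) - v (k, ln k e))) := by
        intro e he
        have h3 := (mem_Sl.1 he).2
        have h4 : ((l.1, ln l.1 e) : Li) = l := by rw [h3]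
        have h5 : (∑ k : Fin 4, TT N W m (k, ln k e)) - (∑ k : Fin 4, v (k, ln k e)) =
            (T - v l) + ∑ k ∈ univ.erase l.1, (TT N W m (k, ln k e) - v (k, ln k e)) := by
          rw [← sum_sub_distrib, ← add_sum_erase univ _ (mem_univ l.1), h4]
        have h6 : 1 + ((∑ k : Fin 4, TT N W m (k, ln k e)) - 1) / m -
            (∑ k : Fin 4, v (k, ln k e)) / m = (1 - 1 / m) +
              ((∑ k : Fin 4, TT N W m (k, ln k e)) - (∑ k : Fin 4, v (k, ln k e))) / m := by
          ring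
        rw [h6, h5]
        ring
      rw [hS1def, sum_congr rfl h1, sum_add_distrib, sum_add_distrib, ← sum_mul, ← mul_sum,
        ← mul_sum, hYsum]
      ring
    have hG : |G| ≤ 3 * Y * d := by
      have h1 : ∀ e ∈ Sl N I l, |Wn N W m e *
          ∑ k ∈ univ.erase l.1, (TT N W m (k, ln k e) - v (k, ln k e))| ≤
            Wn N W m e * (3 * d) := by
        intro e he
        rw [abs_mul, abs_of_nonneg (hWn0 e he)]
        refine mul_le_mul_of_nonneg_left ?_ (hWn0 e he)
        refine (abs_sum_le_sum_abs _ _).trans ?_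
        refine (sum_le_sum fun k _ => hCl (k, ln k e) ((mem_Sq.1 (hSq e he)).2 k)).trans
          (le_of_eq ?_)
        rw [sum_const, card_erase_of_mem (mem_univ _), card_univ, Fintype.card_fin]
        norm_num
      refine (abs_sum_le_sum_abs _ _).trans ((sum_le_sum h1).trans (le_of_eq ?_))
      rw [← sum_mul, hYsum]
      ring
    have hAS : |(∑ e ∈ Sl N I l, Wn N W (m - 1) e * P e) - S1| ≤
        (112 + 40 * (Cp + K)) * 2 / m ^ 2 := by
      rw [hS1def, ← sum_sub_distrib]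
      have h1 : ∀ e ∈ Sl N I l, |Wn N W (m - 1) e * P e - Wn N W m e *
          (1 + ((∑ k : Fin 4, TT N W m (k, ln k e)) - 1) / m -
            (∑ k : Fin 4, v (k, ln k e)) / m)| ≤
          Wn N W m e * ((112 + 40 * (Cp + K)) / m ^ 2) := by
        intro e he
        have h3 : |Wn N W (m - 1) e -
            Wn N W m e * (1 + ((∑ k : Fin 4, TT N W m (k, ln k e)) - 1) / m)| ≤
            Wn N W m e * (100 / m ^ 2) := by
          refine (hW1 e (hbd e he)).trans (le_of_eq ?_)
          ring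
        have h4 := hle1 _ (filter_subset (fun e' => ∀ l' ∈ La e, ¬ On e' l') (Sq N I))
        refine (point_bd (hWn0 e he) h3 h4.1 h4.2 (hP e he)).trans ?_
        refine mul_le_mul_of_nonneg_left ?_ (hWn0 e he)
        have h5 := ha e
        have h6 : |(∑ k : Fin 4, v (k, ln k e)) / m| ≤ 4 / m := by
          have h7 : 0 ≤ ∑ k : Fin 4, v (k, ln k e) :=
            sum_nonneg fun k _ => (hv01 _ ((mem_Sq.1 (hSq e he)).2 k)).1
          have h8 : ∑ k : Fin 4, v (k, ln k e) ≤ 4 := by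
            refine (sum_le_sum fun k _ => (hv01 _ ((mem_Sq.1 (hSq e he)).2 k)).2).trans
              (le_of_eq ?_)
            rw [sum_const, card_univ, Fintype.card_fin]
            norm_num
          rw [abs_of_nonneg (div_nonneg h7 hM0.le)]
          exact div_le_div_of_nonneg_right h8 hM0.le
        have h9 : |((∑ k : Fin 4, TT N W m (k, ln k e)) - 1) / m| *
            |(∑ k : Fin 4, v (k, ln k e)) / m| ≤ 12 / m ^ 2 := by
          refine (mul_le_mul h5 h6 (abs_nonneg _) (by positivity)).trans (le_of_eq ?_)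
          field_simp
          norm_num
        have h10 : (1 + |((∑ k : Fin 4, TT N W m (k, ln k e)) - 1) / m|) *
            (16 * (Cp + K) / m ^ 2) ≤ 40 * (Cp + K) / m ^ 2 := by
          have h11 : 1 + |((∑ k : Fin 4, TT N W m (k, ln k e)) - 1) / m| ≤ 5 / 2 := by
            have h12 : 3 / (m : ℝ) ≤ 3 / 2 := by
              rw [div_le_div_iff₀ hM0 two_pos]
              linarith
            linarith
          refine (mul_le_mul_of_nonneg_right h11 (by positivity)).trans (le_of_eq ?_)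
          ring
        have e3 : (112 + 40 * (Cp + K)) / (m : ℝ) ^ 2 = 100 / (m : ℝ) ^ 2 +
            40 * (Cp + K) / (m : ℝ) ^ 2 + 12 / (m : ℝ) ^ 2 := by ring
        rw [e3]
        linarith
      refine (abs_sum_le_sum_abs _ _).trans ((sum_le_sum h1).trans ?_)
      rw [← sum_mul, hYsum]
      have h3 : 0 ≤ (112 + 40 * (Cp + K)) / (m : ℝ) ^ 2 := by positivity
      refine (mul_le_mul_of_nonneg_right hY2 h3).trans (le_of_eq ?_)
      ring
    have hPl01 := hle1 _ (filter_subset (fun e' => ¬ On e' l) (Sq N I))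
    have hfin := final_bd hM2 hX hTl.1 hTl.2 hY0 hY2 hlI.1 hlI.2 hPl01.1 hPl01.2 hPl
      (hT1 l) hAS hS1 hG
    have e4 : ∑ e ∈ (Sq N I).filter (fun e => ¬ On e l), π e *
        ((YY N W (m - 1) (rm I e) l - T') - (Y - T)) =
        (∑ e ∈ Sl N I l, Wn N W (m - 1) e * P e) - Pl * (T' - T + Y) := by
      rw [← hA, hPldef, sum_mul, ← sum_sub_distrib]
      refine sum_congr rfl fun e _ => ?_
      ring
    rw [e4]
    refine hfin.trans ?_
    have h12 : (2 * (112 + 40 * (Cp + K)) + 5 + 3 * (Cp + K)) / (m : ℝ) ^ 2 ≤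
        (300 + 83 * (Cp + K) + 8 * L ^ 3) / (m : ℝ) ^ 2 := by
      refine div_le_div_of_nonneg_right ?_ hsq.le
      linarith
    linarith
  · intro e' _ hOn
    -- increments
    have hm1 : ((m - 1 : ℕ) : ℝ) = m - 1 := by
      rw [Nat.cast_sub (by omega)]
      norm_num
    have hWn' : ∀ e ∈ Sl N I l, 0 ≤ Wn N W (m - 1) e ∧ Wn N W (m - 1) e ≤ 2 * L ^ 3 / m := by
      intro e he
      obtain ⟨h1, h3⟩ := wn_bd hL hR (by omega : 1 ≤ m - 1) (by omega : m - 1 ≤ N) (hbd e he)
      rw [hm1] at h1 h3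
      have hm10 : (0 : ℝ) < m - 1 := by linarith
      refine ⟨le_trans (by positivity) h1, h3.trans ?_⟩
      rw [div_le_div_iff₀ hm10 hM0]
      nlinarith
    have hW2 : ∀ e ∈ Sl N I l, |Wn N W (m - 1) e - Wn N W m e| ≤ Wn N W m e * (103 / m) := by
      intro e he
      have h1 := hW1 e (hbd e he)
      have h3 := ha e
      set a : ℝ := ((∑ k : Fin 4, TT N W m (k, ln k e)) - 1) / m
      have e1 : Wn N W (m - 1) e - Wn N W m e =
          (Wn N W (m - 1) e - Wn N W m e * (1 + a)) + Wn N W m e * a := by ring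
      rw [e1]
      refine (abs_add_le _ _).trans ?_
      rw [abs_mul, abs_of_nonneg (hWn0 e he)]
      have h4 : Wn N W m e * |a| ≤ Wn N W m e * (3 / m) :=
        mul_le_mul_of_nonneg_left h3 (hWn0 e he)
      have h5 : 100 * Wn N W m e / (m : ℝ) ^ 2 ≤ Wn N W m e * (100 / m) := by
        rw [div_le_iff₀ hsq]
        have e2 : Wn N W m e * (100 / m) * (m : ℝ) ^ 2 = 100 * Wn N W m e * m := by
          field_simp
        rw [e2]
        exact le_mul_of_one_le_right (mul_nonneg (by norm_num) (hWn0 e he)) hM1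
      have e3 : Wn N W m e * (103 / m) = Wn N W m e * (100 / m) + Wn N W m e * (3 / m) := by ring
      rw [e3]
      linarith
    set Wb : Finset (ℤ × ℤ) := (Sl N I l).filter (fun e => ¬ ∀ k, ln k e ≠ ln k e') with hWb
    have hYY : YY N W (m - 1) (rm I e') l = (∑ e ∈ Sl N I l, Wn N W (m - 1) e) -
        ∑ e ∈ Wb, Wn N W (m - 1) e := by
      unfold YY
      rw [Sl_rm_eq, ← sum_filter_add_sum_filter_not (Sl N I l) (fun e => ∀ k, ln k e ≠ ln k e')
        (Wn N W (m - 1)), hWb]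
      ring
    have hWbc : (Wb.card : ℝ) ≤ 4 := by
      have h1 : Wb ⊆ (univ : Finset (Fin 4)).biUnion
          (fun k => (Sl N I l).filter (fun e => ln k e = ln k e')) := by
        intro e he
        obtain ⟨h3, h4⟩ := mem_filter.1 he
        push Not at h4
        obtain ⟨k, hk⟩ := h4
        exact mem_biUnion.2 ⟨k, mem_univ k, mem_filter.2 ⟨h3, hk⟩⟩
      have h3 : ∀ k ∈ (univ : Finset (Fin 4)),
          ((Sl N I l).filter (fun e => ln k e = ln k e')).card ≤ 1 := by
        intro k _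
        rw [card_le_one]
        intro e1 he1 e2 he2
        obtain ⟨h4, h5⟩ := mem_filter.1 he1
        obtain ⟨h6, h7⟩ := mem_filter.1 he2
        have h8 := (mem_Sl.1 h4).2
        have h9 := (mem_Sl.1 h6).2
        by_cases hk : l.1 = k
        · exfalso
          apply hOn
          unfold On
          rw [hk, ← h5, ← hk]
          exact h8
        · exact two_lines hk (h8.trans h9.symm) (h5.trans h7.symm)
      have h4 : Wb.card ≤ 4 := by
        refine (card_le_card h1).trans (card_biUnion_le.trans ((sum_le_sum h3).trans ?_))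
        rw [sum_const, card_univ, Fintype.card_fin]
        norm_num
      exact_mod_cast h4
    have hWs : |∑ e ∈ Wb, Wn N W (m - 1) e| ≤ 8 * L ^ 3 / m := by
      have hsub : ∀ e ∈ Wb, e ∈ Sl N I l := fun e he => (mem_filter.1 he).1
      rw [abs_of_nonneg (sum_nonneg fun e he => (hWn' e (hsub e he)).1)]
      refine (sum_le_sum fun e he => (hWn' e (hsub e he)).2).trans ?_
      rw [sum_const, nsmul_eq_mul]
      refine (mul_le_mul_of_nonneg_right hWbc (by positivity)).trans (le_of_eq ?_)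
      ring
    have hdif : |(∑ e ∈ Sl N I l, Wn N W (m - 1) e) - Y| ≤ 206 / m := by
      rw [← hYsum, ← sum_sub_distrib]
      refine (abs_sum_le_sum_abs _ _).trans ((sum_le_sum hW2).trans ?_)
      rw [← sum_mul, hYsum]
      refine (mul_le_mul_of_nonneg_right hY2 (by positivity)).trans (le_of_eq ?_)
      ring
    have hTd : |T' - T| ≤ 5 / m := by
      have h1 := hT1 l
      have e1 : T' - T = (T' - T - T * (T - 1) / m) + T * (T - 1) / m := by ring
      rw [e1]
      refine (abs_add_le _ _).trans ?_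
      have h3 : |T * (T - 1) / m| ≤ 1 / m := by
        rw [abs_div, abs_of_pos hM0]
        exact div_le_div_of_nonneg_right hTT hM0.le
      have h4 : 4 / (m : ℝ) ^ 2 ≤ 4 / m := by
        apply div_le_div_of_nonneg_left (by norm_num) hM0
        nlinarith
      have e2 : 5 / (m : ℝ) = 4 / m + 1 / m := by ring
      rw [e2]
      linarith
    have e1 : (YY N W (m - 1) (rm I e') l - T') - (Y - T) =
        ((∑ e ∈ Sl N I l, Wn N W (m - 1) e) - Y) - (∑ e ∈ Wb, Wn N W (m - 1) e) - (T' - T) := by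
      rw [hYY]
      ring
    rw [e1]
    have h1 := abs_sub (((∑ e ∈ Sl N I l, Wn N W (m - 1) e) - Y) -
      (∑ e ∈ Wb, Wn N W (m - 1) e)) (T' - T)
    have h3 := abs_sub ((∑ e ∈ Sl N I l, Wn N W (m - 1) e) - Y) (∑ e ∈ Wb, Wn N W (m - 1) e)
    have h4 : 206 / (m : ℝ) + 8 * L ^ 3 / m + 5 / m ≤
        (300 + 83 * (Cp + K) + 8 * L ^ 3) / (m : ℝ) := by
      rw [← add_div, ← add_div]
      refine div_le_div_of_nonneg_right ?_ hM0.le
      linarith
    linarith

end Pool.Agent.NQL
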