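import Pool.Agent.NQL.Defs
import Pool.Agent.NQL.ABas
import Pool.Agent.NQL.AVal
import Pool.Agent.NQL.AExp
import Pool.Agent.NQL.BNom
import Pool.Agent.NQL.CSur
import Pool.Agent.NQL.CDrf

/-!
# NQL-CFam: exponential family of one line
-/

set_option autoImplicit false

open Finset

namespace Pool.Agent.NQL

open Pool.Agent.NQ (board dsum F Ent Dg phi ln Q Qset QS NonAtt bern)
open Pool.Agent.NQR (Adm Opt Bd Rf hS hD hh InR)

/-- partial sums of the budget -/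
noncomputable def Bs (b : ℕ → ℝ) (m : ℕ) : ℝ := ∑ j ∈ Finset.range (m + 1), b j

open Classical in
/-- exponential function of the deviation of one line, target size `k` -/
noncomputable def EL (c C : ℝ) (γ b : ℕ → ℝ) (N : ℕ) (W : ℤ × ℤ → ℝ) (k m : ℕ) (I : Finset Li) (l : Li)
    (s : ℝ) : ℝ :=
  if l ∈ I then ((k : ℝ) / m) ^ (if rc l then 1 else 0) *
    Real.exp (γ k * k / (4 * c ^ 2) * (s * (YY N W m I l - TT N W m l) - γ k + (Bs b m - Bs b k)) +
      ((γ k * k / (4 * c ^ 2)) ^ 2 * c ^ 2 + C) * (1 / k - 1 / m)) else 0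

private theorem el_in {c C : ℝ} {γ b : ℕ → ℝ} {N : ℕ} {W : ℤ × ℤ → ℝ} {k m : ℕ} {I : Finset Li} {l : Li}
    {s : ℝ} (hl : l ∈ I) : EL c C γ b N W k m I l s = ((k : ℝ) / m) ^ (if rc l then 1 else 0) *
    Real.exp (γ k * k / (4 * c ^ 2) * (s * (YY N W m I l - TT N W m l) - γ k + (Bs b m - Bs b k)) +
      ((γ k * k / (4 * c ^ 2)) ^ 2 * c ^ 2 + C) * (1 / k - 1 / m)) := if_pos hl

private theorem el_out {c C : ℝ} {γ b : ℕ → ℝ} {N : ℕ} {W : ℤ × ℤ → ℝ} {k m : ℕ} {I : Finset Li} {l : Li}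
    {s : ℝ} (hl : l ∉ I) : EL c C γ b N W k m I l s = 0 := if_neg hl

private theorem bs_step (b : ℕ → ℝ) {m : ℕ} (hm : 1 ≤ m) : Bs b m = Bs b (m - 1) + b m := by
  unfold Bs
  rw [Nat.sub_add_cancel hm, Finset.sum_range_succ]

private theorem cast_pred {m : ℕ} (hm : 1 ≤ m) : ((m - 1 : ℕ) : ℝ) = (m : ℝ) - 1 := by
  rw [Nat.cast_sub hm, Nat.cast_one]

theorem el_step (L K Cp : ℝ) (hL : 1 ≤ L) (hK : 1 ≤ K) (hCp : 0 ≤ Cp) : ∃ c C : ℝ, 1 ≤ c ∧ 1 ≤ C ∧
    ∀ (γ b : ℕ → ℝ) (N m k : ℕ) (I : Finset Li) (W : ℤ × ℤ → ℝ) (A B : ℤ → ℝ) (z : Li → ℝ) (π : ℤ × ℤ → ℝ)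
      (d : ℝ), 1 ≤ k → k < m → m ≤ N → Rf L N W A B → Vd N m I → St N I z → (∀ e ∈ Sq N I, wt z e ≤ K / m) →
      Tp Cp N m I z π → Cl d N m W I z → 0 < γ k → γ k ≤ 1 → ∀ l ∈ I, YY N W m I l ≤ 2 →
      ((1 - TT N W m l) * |YY N W m I l - TT N W m l| + 6 * d) / m + c / m ^ 2 ≤ b m →
      ∀ s : ℝ, (s = 1 ∨ s = -1) →
        ∑ e ∈ Sq N I, π e * EL c C γ b N W k (m - 1) (rm I e) l s ≤ EL c C γ b N W k m I l s := by
  obtain ⟨cd, hcd, hdrift⟩ := drift L K Cp hL hK hCp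
  refine ⟨cd, cd + Cp + K + 2, hcd, by linarith, ?_⟩
  intro γ b N m k I W A B z π d hk hkm hmN hR hv hz hw hπ hCl hγ hγ1 l hl hY hb s hs
  have hm2 : 2 ≤ m := by omega
  obtain ⟨hd1, hd2⟩ := hdrift N m I W A B z π d hm2 hmN hR hv hz hw hπ hCl l hl hY
  have hm2' : (2 : ℝ) ≤ m := by exact_mod_cast hm2
  have hk1 : (1 : ℝ) ≤ k := by exact_mod_cast hk
  have hkm' : (k : ℝ) ≤ m := by exact_mod_cast hkm.le
  have hd0 : 0 ≤ d := (abs_nonneg _).trans (hCl l hl)
  obtain ⟨θ, hθd⟩ : ∃ θ, θ = γ k * k / (4 * cd ^ 2) := ⟨_, rfl⟩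
  have hcd2 : (0 : ℝ) < 4 * cd ^ 2 := by positivity
  have hθ : 0 ≤ θ := by
    rw [hθd]
    exact div_nonneg (mul_nonneg hγ.le (by linarith)) hcd2.le
  have hθc : θ * cd ≤ m := by
    rw [hθd, div_mul_eq_mul_div, div_le_iff₀ hcd2]
    have h1 : γ k * k * cd ≤ m * cd := by
      refine mul_le_mul_of_nonneg_right ?_ (by linarith)
      calc γ k * k ≤ 1 * k := mul_le_mul_of_nonneg_right hγ1 (by linarith)
        _ ≤ m := by linarith
    have h2 : (m : ℝ) * cd ≤ m * (4 * cd ^ 2) :=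
      mul_le_mul_of_nonneg_left (by nlinarith) (by linarith)
    linarith
  have hs1 : |s| = 1 := by
    rcases hs with h | h <;> rw [h] <;> simp
  obtain ⟨a, ha⟩ : ∃ a : ℕ, a = (if rc l then 1 else 0) := ⟨_, rfl⟩
  have ha2 : a ≤ 2 := by
    rw [ha]
    split_ifs <;> omega
  obtain ⟨D, hD⟩ : ∃ D, D = YY N W m I l - TT N W m l := ⟨_, rfl⟩
  rw [← hD] at hd1 hd2
  -- sums of the probabilities
  have hnn : ∀ e ∈ (Sq N I).filter (fun e => ¬ On e l), 0 ≤ π e :=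
    fun e he => hπ.nn e (Finset.mem_filter.mp he).1
  have hsum1 : ∑ e ∈ (Sq N I).filter (fun e => ¬ On e l), π e ≤ 1 := by
    rw [← hπ.sum]
    exact Finset.sum_le_sum_of_subset_of_nonneg (Finset.filter_subset _ _)
      fun e he _ => hπ.nn e he
  have hsum2 : ∑ e ∈ (Sq N I).filter (fun e => ¬ On e l), π e ≤
      1 - a / m + (cd + Cp + K) / m ^ 2 := by
    have hm3 : (0 : ℝ) < (m : ℝ) ^ 2 := by positivity
    by_cases hrc : rc l
    · have ha1 : a = 1 := by rw [ha, if_pos hrc]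
      have h1 := surv hK hCp (by omega) hv hz hw hπ (Finset.singleton_subset_iff.mpr hl)
      have e1 : (Sq N I).filter (fun e => ∀ l' ∈ ({l} : Finset Li), ¬ On e l') =
          (Sq N I).filter (fun e => ¬ On e l) := by
        refine Finset.filter_congr fun e _ => ?_
        exact ⟨fun h => h l (Finset.mem_singleton_self l), fun h l' hl' => by
          rw [Finset.mem_singleton.mp hl']
          exact h⟩
      rw [e1, Finset.sum_singleton, (mass_dg hz hl).2.2.2 hrc, Finset.card_singleton] at h1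
      have h2 := (abs_le.mp h1).2
      have h3 : (Cp + K) * ((1 : ℕ) : ℝ) ^ 2 / (m : ℝ) ^ 2 ≤ (cd + Cp + K) / m ^ 2 := by
        rw [Nat.cast_one, one_pow, mul_one]
        exact div_le_div_of_nonneg_right (by linarith) hm3.le
      rw [ha1, Nat.cast_one]
      linarith
    · have ha1 : a = 0 := by rw [ha, if_neg hrc]
      have h3 : 0 ≤ (cd + Cp + K) / (m : ℝ) ^ 2 := div_nonneg (by linarith) hm3.le
      rw [ha1, Nat.cast_zero, zero_div]
      linarith
  have hY0 : 3 * YY N W m I l * d ≤ 6 * d := mul_le_mul_of_nonneg_right (by linarith) hd0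
  have hfb : ∑ e ∈ (Sq N I).filter (fun e => ¬ On e l), π e *
      (s * ((YY N W (m - 1) (rm I e) l - TT N W (m - 1) l) - D)) ≤ b m := by
    have e1 : ∑ e ∈ (Sq N I).filter (fun e => ¬ On e l), π e *
        (s * ((YY N W (m - 1) (rm I e) l - TT N W (m - 1) l) - D)) =
        s * ∑ e ∈ (Sq N I).filter (fun e => ¬ On e l), π e *
        ((YY N W (m - 1) (rm I e) l - TT N W (m - 1) l) - D) := by
      rw [Finset.mul_sum]
      exact Finset.sum_congr rfl fun e _ => by ring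
    rw [e1]
    refine (le_abs_self _).trans ?_
    rw [abs_mul, hs1, one_mul]
    refine hd1.trans (le_trans ?_ hb)
    rw [← hD]
    have h1 : ((1 - TT N W m l) * |D| + 3 * YY N W m I l * d) / m ≤
        ((1 - TT N W m l) * |D| + 6 * d) / m :=
      div_le_div_of_nonneg_right (by linarith) (by linarith)
    linarith
  have hfc : ∀ e ∈ (Sq N I).filter (fun e => ¬ On e l),
      |s * ((YY N W (m - 1) (rm I e) l - TT N W (m - 1) l) - D)| ≤ cd / m := by
    intro e he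
    rw [abs_mul, hs1, one_mul]
    exact hd2 e (Finset.mem_filter.mp he).1 (Finset.mem_filter.mp he).2
  have key := exp_step ((Sq N I).filter (fun e => ¬ On e l)) π
    (fun e => s * ((YY N W (m - 1) (rm I e) l - TT N W (m - 1) l) - D)) hm2 ha2 hnn
    (by linarith) hsum2 hsum1 hfb hfc hθ hθc
  obtain ⟨E, hE⟩ : ∃ E, E = θ * (s * D - γ k + (Bs b (m - 1) - Bs b k)) +
      (θ ^ 2 * cd ^ 2 + (cd + Cp + K + 2)) * (1 / k - 1 / ((m : ℝ) - 1)) := ⟨_, rfl⟩
  have hL1 : ∑ e ∈ Sq N I, π e * EL cd (cd + Cp + K + 2) γ b N W k (m - 1) (rm I e) l s =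
      ((k : ℝ) / m) ^ a * Real.exp E * (((m : ℝ) / (m - 1)) ^ a *
        ∑ e ∈ (Sq N I).filter (fun e => ¬ On e l), π e *
          Real.exp (θ * (s * ((YY N W (m - 1) (rm I e) l - TT N W (m - 1) l) - D)))) := by
    rw [Finset.sum_filter, Finset.mul_sum, Finset.mul_sum]
    refine Finset.sum_congr rfl fun e _ => ?_
    by_cases hOn : On e l
    · rw [if_neg (not_not.mpr hOn), el_out (fun h => (mem_rm.mp h).2 hOn)]
      ring
    · rw [if_pos hOn, el_in (mem_rm.mpr ⟨hl, hOn⟩), cast_pred (by omega), ← ha, ← hθd]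
      have e1 : θ * (s * (YY N W (m - 1) (rm I e) l - TT N W (m - 1) l) - γ k +
          (Bs b (m - 1) - Bs b k)) +
          (θ ^ 2 * cd ^ 2 + (cd + Cp + K + 2)) * (1 / k - 1 / ((m : ℝ) - 1)) =
          E + θ * (s * ((YY N W (m - 1) (rm I e) l - TT N W (m - 1) l) - D)) := by
        rw [hE]
        ring
      have e2 : ((k : ℝ) / ((m : ℝ) - 1)) ^ a = ((k : ℝ) / m) ^ a * ((m : ℝ) / (m - 1)) ^ a := by
        rw [← mul_pow]
        congr 1
        have h1 : (m : ℝ) ≠ 0 := by linarith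
        have h2 : (m : ℝ) - 1 ≠ 0 := by linarith
        field_simp
      rw [e1, e2, Real.exp_add]
      ring
  rw [hL1, el_in hl, ← ha, ← hθd, ← hD]
  have h1 : ((k : ℝ) / m) ^ a * Real.exp E * (((m : ℝ) / (m - 1)) ^ a *
        ∑ e ∈ (Sq N I).filter (fun e => ¬ On e l), π e *
          Real.exp (θ * (s * ((YY N W (m - 1) (rm I e) l - TT N W (m - 1) l) - D)))) ≤
      ((k : ℝ) / m) ^ a * Real.exp E * Real.exp (θ * b m +
        (θ ^ 2 * cd ^ 2 + (cd + Cp + K) + 2) * (1 / ((m : ℝ) - 1) - 1 / m)) :=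
    mul_le_mul_of_nonneg_left key (by positivity)
  refine h1.trans (le_of_eq ?_)
  rw [mul_assoc, ← Real.exp_add]
  congr 2
  rw [hE, bs_step b (by omega : 1 ≤ m)]
  ring

theorem el_start {L : ℝ} (hL : 1 ≤ L) {c C : ℝ} (hc : 1 ≤ c) (hC : 1 ≤ C) {γ b : ℕ → ℝ} {N k : ℕ}
    {W : ℤ × ℤ → ℝ} {A B : ℤ → ℝ} (hR : Rf L N W A B) (hk : 1 ≤ k) (hkN : k ≤ N) (hN : 2 ≤ N) (hγ : 0 < γ k)
    (hB : Bs b N - Bs b k ≤ γ k / 2) {l : Li} (hl : l ∈ full N) {s : ℝ} :
    EL c C γ b N W k N (full N) l s ≤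
      ((k : ℝ) / N) ^ (if rc l then 1 else 0) * Real.exp (C - γ k ^ 2 * k / (16 * c ^ 2)) := by
  have hk1 : (1 : ℝ) ≤ k := by exact_mod_cast hk
  have hN2 : (2 : ℝ) ≤ N := by exact_mod_cast hN
  have hN0 : (N : ℝ) ≠ 0 := by linarith
  have hNN : (N : ℝ) / N = 1 := div_self hN0
  have hWn : ∀ e, Wn N W N e = W e := by
    intro e
    unfold Wn
    rw [hNN]
    simp
  have hY : YY N W N (full N) l = dsum N W l.1 l.2 := by
    unfold YY dsum Sl On
    rw [Sq_full]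
    exact Finset.sum_congr rfl fun e _ => hWn e
  have hT : YY N W N (full N) l = TT N W N l := by
    rw [hY]
    by_cases hrc : rc l
    · rw [tt_rc hrc]
      obtain ⟨e, he, hel⟩ := mem_full.mp hl
      have he' := he
      unfold board at he'
      rw [Finset.mem_product, Finset.mem_Ico, Finset.mem_Ico] at he'
      have hlt : (l.1 : ℕ) < 2 := hrc
      rcases (by omega : (l.1 : ℕ) = 0 ∨ (l.1 : ℕ) = 1) with h | h
      · have h0 : l.1 = 0 := Fin.ext h
        rw [h0] at hel ⊢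
        rw [NQ.ln_zero] at hel
        rw [← hel]
        exact hR.adm.row _ he'.1.1 he'.1.2
      · have h0 : l.1 = 1 := Fin.ext h
        rw [h0] at hel ⊢
        rw [NQ.ln_one] at hel
        rw [← hel]
        exact hR.adm.col _ he'.2.1 he'.2.2
    · unfold TT
      rw [if_neg hrc, hNN]
      simp
  rw [el_in hl, hT, sub_self, mul_zero]
  refine mul_le_mul_of_nonneg_left (Real.exp_le_exp.mpr ?_) (by positivity)
  obtain ⟨g, hg⟩ : ∃ g, g = γ k := ⟨_, rfl⟩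
  rw [← hg] at hγ hB ⊢
  have hc0 : (0 : ℝ) < c ^ 2 := by positivity
  have h1 : g * k / (4 * c ^ 2) * (0 - g + (Bs b N - Bs b k)) ≤
      g * k / (4 * c ^ 2) * (-(g / 2)) := by
    refine mul_le_mul_of_nonneg_left (by linarith) ?_
    exact div_nonneg (mul_nonneg hγ.le (by linarith)) (by positivity)
  have h2 : ((g * k / (4 * c ^ 2)) ^ 2 * c ^ 2 + C) * (1 / k - 1 / N) ≤
      ((g * k / (4 * c ^ 2)) ^ 2 * c ^ 2 + C) * (1 / k) := by
    refine mul_le_mul_of_nonneg_left ?_ (by positivity)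
    have : (0 : ℝ) ≤ 1 / N := by positivity
    linarith
  have h3 : ((g * k / (4 * c ^ 2)) ^ 2 * c ^ 2 + C) * (1 / k) =
      g ^ 2 * k / (16 * c ^ 2) + C * (1 / k) := by
    have hk0 : (k : ℝ) ≠ 0 := by linarith
    have hcn : c ≠ 0 := by linarith
    field_simp
    ring
  have h4 : C * (1 / k) ≤ C := by
    have : (1 : ℝ) / k ≤ 1 := by
      rw [div_le_one (by linarith)]
      exact hk1
    nlinarith
  have h5 : g * k / (4 * c ^ 2) * (-(g / 2)) = -(2 * (g ^ 2 * k / (16 * c ^ 2))) := by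
    have hcn : c ≠ 0 := by linarith
    field_simp
    norm_num
  linarith

theorem el_nonneg (c C : ℝ) (γ b : ℕ → ℝ) (N : ℕ) (W : ℤ × ℤ → ℝ) (k m : ℕ) (I : Finset Li) (l : Li) (s : ℝ) :
    0 ≤ EL c C γ b N W k m I l s := by
  by_cases hl : l ∈ I
  · rw [el_in hl]
    positivity
  · rw [el_out hl]

theorem el_viol {c C : ℝ} (hc : 1 ≤ c) {γ b : ℕ → ℝ} {N m : ℕ} {W : ℤ × ℤ → ℝ} {I : Finset Li} {l : Li}
    (hm : 1 ≤ m) (hl : l ∈ I) (hγ : 0 < γ m) (h : γ m < |YY N W m I l - TT N W m l|) :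
    1 ≤ EL c C γ b N W m m I l 1 + EL c C γ b N W m m I l (-1) := by
  have hm0 : (m : ℝ) ≠ 0 := by
    have : (1 : ℝ) ≤ m := by exact_mod_cast hm
    linarith
  have hθ : 0 ≤ γ m * m / (4 * c ^ 2) := by
    have : (0 : ℝ) ≤ m := Nat.cast_nonneg m
    positivity
  have key : ∀ s : ℝ, γ m ≤ s * (YY N W m I l - TT N W m l) → 1 ≤ EL c C γ b N W m m I l s := by
    intro s hs
    rw [el_in hl, div_self hm0, one_pow, one_mul, sub_self, sub_self, mul_zero, add_zero, add_zero]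
    exact Real.one_le_exp (mul_nonneg hθ (by linarith))
  have h1 := el_nonneg c C γ b N W m m I l 1
  have h2 := el_nonneg c C γ b N W m m I l (-1)
  rcases le_total 0 (YY N W m I l - TT N W m l) with h0 | h0
  · rw [abs_of_nonneg h0] at h
    have := key 1 (by linarith)
    linarith
  · rw [abs_of_nonpos h0] at h
    have := key (-1) (by linarith)
    linarith

end Pool.Agent.NQL
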