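import Pool.Agent.NQL.Defs
import Pool.Agent.NQL.ABas
import Pool.Agent.NQL.AVal
import Pool.Agent.NQL.BNom
import Pool.Agent.NQL.CSur

/-! # NQL-CDrG: drift and increments of the codegrees -/

set_option autoImplicit false

open Finset

namespace Pool.Agent.NQL

open Pool.Agent.NQ (board dsum F Ent Dg phi ln Q Qset QS NonAtt bern)
open Pool.Agent.NQR (Adm Opt Bd Rf hS hD hh InR)

/-- `u = 1 + c ε + O(R ε²)` -/
private def Nr (ε c R u : ℝ) : Prop := |u - 1 - c * ε| ≤ R * ε ^ 2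

private theorem Nr.mul {ε c c' R R' u u' : ℝ} (h0 : 0 ≤ ε) (h1 : ε ≤ 1) (hR : 0 ≤ R) (hR' : 0 ≤ R')
    (hc : |c| ≤ 16) (hc' : |c'| ≤ 16) (h : Nr ε c R u) (h' : Nr ε c' R' u') :
    Nr ε (c + c') (256 + R * (17 + R') + R' * 17) (u * u') := by
  unfold Nr at *
  obtain ⟨r, hr⟩ : ∃ r, r = u - 1 - c * ε := ⟨_, rfl⟩
  obtain ⟨r', hr'⟩ : ∃ r', r' = u' - 1 - c' * ε := ⟨_, rfl⟩
  rw [← hr] at h
  rw [← hr'] at h'
  have hu : u = 1 + c * ε + r := by rw [hr]; ring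
  have hu' : u' = 1 + c' * ε + r' := by rw [hr']; ring
  have e1 : u * u' - 1 - (c + c') * ε =
      c * c' * ε ^ 2 + r * (1 + c' * ε + r') + r' * (1 + c * ε) := by
    rw [hu, hu']; ring
  have hε2 : ε ^ 2 ≤ 1 := pow_le_one₀ h0 h1
  have hce : |c * ε| ≤ 16 := by
    rw [abs_mul, abs_of_nonneg h0]
    calc |c| * ε ≤ 16 * 1 := mul_le_mul hc h1 h0 (by norm_num)
      _ = 16 := by norm_num
  have hce' : |c' * ε| ≤ 16 := by
    rw [abs_mul, abs_of_nonneg h0]
    calc |c'| * ε ≤ 16 * 1 := mul_le_mul hc' h1 h0 (by norm_num)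
      _ = 16 := by norm_num
  have hr1 : |r'| ≤ R' := h'.trans (by
    calc R' * ε ^ 2 ≤ R' * 1 := mul_le_mul_of_nonneg_left hε2 hR'
      _ = R' := mul_one _)
  have b1 : |c * c' * ε ^ 2| ≤ 256 * ε ^ 2 := by
    rw [abs_mul, abs_mul, abs_of_nonneg (sq_nonneg ε)]
    refine mul_le_mul_of_nonneg_right ?_ (sq_nonneg _)
    calc |c| * |c'| ≤ 16 * 16 := mul_le_mul hc hc' (abs_nonneg _) (by norm_num)
      _ = 256 := by norm_num
  have b2 : |1 + c' * ε + r'| ≤ 17 + R' := by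
    have a1 := abs_add_le (1 + c' * ε) r'
    have a2 := abs_add_le 1 (c' * ε)
    rw [abs_one] at a2
    linarith
  have b3 : |1 + c * ε| ≤ 17 := by
    have a2 := abs_add_le 1 (c * ε)
    rw [abs_one] at a2
    linarith
  have b4 : |r * (1 + c' * ε + r')| ≤ R * ε ^ 2 * (17 + R') := by
    rw [abs_mul]
    exact mul_le_mul h b2 (abs_nonneg _) (by positivity)
  have b5 : |r' * (1 + c * ε)| ≤ R' * ε ^ 2 * 17 := by
    rw [abs_mul]
    exact mul_le_mul h' b3 (abs_nonneg _) (by positivity)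
  rw [e1]
  have a1 := abs_add_le (c * c' * ε ^ 2 + r * (1 + c' * ε + r')) (r' * (1 + c * ε))
  have a2 := abs_add_le (c * c' * ε ^ 2) (r * (1 + c' * ε + r'))
  nlinarith

private theorem nr_div {m w w1 α : ℝ} (hm : 2 ≤ m) (hw : 0 < w)
    (h : |w1 - w * (1 + α / m)| ≤ 100 * w / m ^ 2) : Nr (1 / m) α 100 (w1 / w) := by
  unfold Nr
  have hm0 : (0 : ℝ) < m := by linarith
  have e1 : w1 / w - 1 - α * (1 / m) = (w1 - w * (1 + α / m)) / w := by
    field_simp
    ring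
  rw [e1, abs_div, abs_of_pos hw, div_le_iff₀ hw]
  refine h.trans (le_of_eq ?_)
  field_simp

private theorem nr_fac {m w w' w1 w1' α β : ℝ} (hm : 2 ≤ m) (hw : 0 < w) (hw' : 0 < w')
    (hα : |α| ≤ 4) (hβ : |β| ≤ 4)
    (h : |w1 - w * (1 + α / m)| ≤ 100 * w / m ^ 2)
    (h' : |w1' - w' * (1 + β / m)| ≤ 100 * w' / m ^ 2) :
    Nr (1 / m) (α + β - 1) 230808 ((1 - 1 / m) * (w1 / w) * (w1' / w')) := by
  have hm0 : (0 : ℝ) < m := by linarith
  have h0 : 0 ≤ 1 / m := by positivity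
  have h1 : 1 / m ≤ 1 := by
    rw [div_le_one hm0]
    linarith
  have k0 : Nr (1 / m) (-1) 0 (1 - 1 / m) := by
    unfold Nr
    have : 1 - 1 / m - 1 - -1 * (1 / m) = 0 := by ring
    rw [this, abs_zero, zero_mul]
  have k1 := Nr.mul h0 h1 le_rfl (by norm_num : (0 : ℝ) ≤ 100) (by norm_num)
    (hα.trans (by norm_num)) k0 (nr_div hm hw h)
  have hc : |(-1 : ℝ) + α| ≤ 16 := by
    have a1 := abs_add_le (-1) α
    rw [abs_neg, abs_one] at a1
    linarith
  have k2 := Nr.mul h0 h1 (by norm_num) (by norm_num : (0 : ℝ) ≤ 100) hc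
    (hβ.trans (by norm_num)) k1 (nr_div hm hw' h')
  have e1 : -1 + α + β = α + β - 1 := by ring
  rw [e1] at k2
  norm_num at k2 ⊢
  exact k2

private theorem mww {L m w w' : ℝ} (hm : 2 ≤ m) (hw : 0 < w) (hw' : 0 < w') (hL : 1 ≤ L)
    (hwL : w ≤ L ^ 3 / m) (hwL' : w' ≤ L ^ 3 / m) : m * (w * w') ≤ L ^ 6 / m := by
  have hm0 : (0 : ℝ) < m := by linarith
  calc m * (w * w') ≤ m * (L ^ 3 / m * (L ^ 3 / m)) := by gcongr
    _ = L ^ 6 / m := by
      field_simp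

private theorem per_y {L m w w' w1 w1' α β V P PS Q Q' : ℝ} (hm : 2 ≤ m) (hw : 0 < w)
    (hw' : 0 < w') (hL : 1 ≤ L) (hwL : w ≤ L ^ 3 / m) (hwL' : w' ≤ L ^ 3 / m)
    (hα : |α| ≤ 4) (hβ : |β| ≤ 4) (hV : |V| ≤ 8) (hQ : 0 ≤ Q) (hQ' : 0 ≤ Q')
    (h : |w1 - w * (1 + α / m)| ≤ 100 * w / m ^ 2)
    (h' : |w1' - w' * (1 + β / m)| ≤ 100 * w' / m ^ 2)
    (hP : |P - (1 - V / m)| ≤ Q / m ^ 2) (hPS : |PS - (1 - 2 / m)| ≤ Q' / m ^ 2) :
    |(m - 1) * (w1 * w1') * P - m * (w * w') * PS| ≤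
      L ^ 6 / m * (|1 + α + β - V| / m + (256 + 230808 * (17 + Q) + Q * 17 + Q') / m ^ 2) := by
  have hm0 : (0 : ℝ) < m := by linarith
  have h0 : 0 ≤ 1 / m := by positivity
  have h1 : 1 / m ≤ 1 := by
    rw [div_le_one hm0]
    linarith
  have k1 := nr_fac hm hw hw' hα hβ h h'
  have k2 : Nr (1 / m) (-V) Q P := by
    unfold Nr
    have e1 : P - 1 - -V * (1 / m) = P - (1 - V / m) := by ring
    have e2 : Q * (1 / m) ^ 2 = Q / m ^ 2 := by
      field_simp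
    rw [e1, e2]
    exact hP
  have hc : |α + β - 1| ≤ 16 := by
    rw [abs_le] at hα hβ ⊢
    constructor <;> linarith [hα.1, hα.2, hβ.1, hβ.2]
  have k3 := Nr.mul h0 h1 (by norm_num) hQ hc (by rw [abs_neg]; linarith) k1 k2
  unfold Nr at k3
  have e1 : (m - 1) * (w1 * w1') * P - m * (w * w') * PS =
      m * (w * w') * ((1 - 1 / m) * (w1 / w) * (w1' / w') * P - PS) := by
    field_simp
  rw [e1, abs_mul, abs_of_pos (by positivity : 0 < m * (w * w'))]
  refine mul_le_mul (mww hm hw hw' hL hwL hwL') ?_ (abs_nonneg _) (by positivity)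
  generalize (1 - 1 / m) * (w1 / w) * (w1' / w') * P = X at k3 ⊢
  have e2 : X - PS = (X - 1 - (α + β - 1 + -V) * (1 / m)) - (PS - (1 - 2 / m)) +
      (1 + α + β - V) / m := by
    field_simp
    ring
  have a1 := abs_add_le ((X - 1 - (α + β - 1 + -V) * (1 / m)) - (PS - (1 - 2 / m)))
    ((1 + α + β - V) / m)
  have a2 := abs_sub (X - 1 - (α + β - 1 + -V) * (1 / m)) (PS - (1 - 2 / m))
  have a3 : |(1 + α + β - V) / m| = |1 + α + β - V| / m := by
    rw [abs_div, abs_of_pos hm0]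
  have a4 : (256 + 230808 * (17 + Q) + Q * 17) * (1 / m) ^ 2 =
      (256 + 230808 * (17 + Q) + Q * 17) / m ^ 2 := by
    field_simp
  have a5 : (256 + 230808 * (17 + Q) + Q * 17 + Q') / m ^ 2 =
      (256 + 230808 * (17 + Q) + Q * 17) / m ^ 2 + Q' / m ^ 2 := by
    rw [add_div]
  rw [e2, a5]
  rw [a4] at k3
  linarith

private theorem per_y2 {L m w w' w1 w1' α β : ℝ} (hm : 2 ≤ m) (hw : 0 < w)
    (hw' : 0 < w') (hL : 1 ≤ L) (hwL : w ≤ L ^ 3 / m) (hwL' : w' ≤ L ^ 3 / m)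
    (hα : |α| ≤ 4) (hβ : |β| ≤ 4)
    (h : |w1 - w * (1 + α / m)| ≤ 100 * w / m ^ 2)
    (h' : |w1' - w' * (1 + β / m)| ≤ 100 * w' / m ^ 2) :
    |(m - 1) * (w1 * w1') - m * (w * w')| ≤ L ^ 6 / m * (230824 / m) := by
  have hm0 : (0 : ℝ) < m := by linarith
  have h0 : 0 ≤ 1 / m := by positivity
  have h1 : 1 / m ≤ 1 := by
    rw [div_le_one hm0]
    linarith
  have k1 := nr_fac hm hw hw' hα hβ h h'
  have hc : |α + β - 1| ≤ 16 := by
    rw [abs_le] at hα hβ ⊢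
    constructor <;> linarith [hα.1, hα.2, hβ.1, hβ.2]
  unfold Nr at k1
  have e1 : (m - 1) * (w1 * w1') - m * (w * w') =
      m * (w * w') * ((1 - 1 / m) * (w1 / w) * (w1' / w') - 1) := by
    field_simp
  rw [e1, abs_mul, abs_of_pos (by positivity : 0 < m * (w * w'))]
  refine mul_le_mul (mww hm hw hw' hL hwL hwL') ?_ (abs_nonneg _) (by positivity)
  generalize (1 - 1 / m) * (w1 / w) * (w1' / w') = X at k1 ⊢
  have e2 : X - 1 = (X - 1 - (α + β - 1) * (1 / m)) + (α + β - 1) * (1 / m) := by ring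
  have a1 := abs_add_le (X - 1 - (α + β - 1) * (1 / m)) ((α + β - 1) * (1 / m))
  have a2 : |(α + β - 1) * (1 / m)| ≤ 16 * (1 / m) := by
    rw [abs_mul, abs_of_nonneg h0]
    exact mul_le_mul_of_nonneg_right hc h0
  have a3 : (1 / m) ^ 2 ≤ 1 / m := by
    rw [pow_two]
    exact mul_le_of_le_one_left h0 h1
  have a4 : 230824 / m = 230824 * (1 / m) := by ring
  rw [← e2] at a1
  rw [a4]
  linarith

/-- the lines through the squares `(x, y)`, `(x', y)` -/
private def Lam (x x' y : ℤ) : Finset Li :=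
  {(0, x), (0, x'), (1, y), (2, x + y), (2, x' + y), (3, x - y), (3, x' - y)}

private theorem mem_Lam {x x' y : ℤ} {l : Li} : l ∈ Lam x x' y ↔ l = (0, x) ∨ l = (0, x') ∨
    l = (1, y) ∨ l = (2, x + y) ∨ l = (2, x' + y) ∨ l = (3, x - y) ∨ l = (3, x' - y) := by
  unfold Lam
  simp only [Finset.mem_insert, Finset.mem_singleton]

private theorem Lam_sum {x x' : ℤ} (y : ℤ) (hx : x ≠ x') (f : Li → ℝ) :
    ∑ l ∈ Lam x x' y, f l = f (0, x) + (f (0, x') + (f (1, y) + (f (2, x + y) + (f (2, x' + y) +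
      (f (3, x - y) + f (3, x' - y)))))) := by
  unfold Lam
  rw [Finset.sum_insert, Finset.sum_insert, Finset.sum_insert, Finset.sum_insert,
    Finset.sum_insert, Finset.sum_insert, Finset.sum_singleton]
  · simp [Prod.ext_iff, hx]
  · simp [Prod.ext_iff]
  · simp [Prod.ext_iff, hx]
  · simp [Prod.ext_iff]
  · simp [Prod.ext_iff]
  · simp [Prod.ext_iff, hx]

private theorem Lam_card {x x' : ℤ} (y : ℤ) (hx : x ≠ x') : ((Lam x x' y).card : ℝ) = 7 := by
  have h := Lam_sum y hx (fun _ => 1)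
  rw [Finset.sum_const, nsmul_eq_mul, mul_one] at h
  rw [h]
  norm_num

/-- the columns for which both squares are free -/
private noncomputable def Yf (N : ℕ) (I : Finset Li) (x x' : ℤ) : Finset ℤ :=
  (Finset.Ico (0 : ℤ) N).filter (fun y => (x, y) ∈ Sq N I ∧ (x', y) ∈ Sq N I)

private theorem cg_eq (N : ℕ) (W : ℤ × ℤ → ℝ) (m : ℕ) (I : Finset Li) (x x' : ℤ) :
    Cg N W m I x x' = m * ∑ y ∈ Yf N I x x', Wn N W m (x, y) * Wn N W m (x', y) := by
  unfold Cg Yf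
  rw [Finset.sum_filter]

private theorem mem_Yf {N : ℕ} {I : Finset Li} {x x' y : ℤ} (h : y ∈ Yf N I x x') :
    (x, y) ∈ Sq N I ∧ (x', y) ∈ Sq N I := by
  unfold Yf at h
  exact (Finset.mem_filter.1 h).2

private theorem Yf_card {N m : ℕ} {I : Finset Li} (hv : Vd N m I) {x x' : ℤ}
    (hx : ((0, x) : Li) ∈ I) : (Yf N I x x').card ≤ m := by
  refine le_trans ?_ (Sl_card hv hx)
  refine Finset.card_le_card_of_injOn (fun y => (x, y)) ?_ ?_
  · intro y hy
    have h := mem_Yf (Finset.mem_coe.1 hy)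
    exact Finset.mem_coe.2 (mem_Sl.2 ⟨h.1, rfl⟩)
  · intro y _ y' _ h
    exact congrArg Prod.snd h

private theorem Yf_rm (N : ℕ) (I : Finset Li) (x x' : ℤ) (e : ℤ × ℤ) :
    Yf N (rm I e) x x' = (Yf N I x x').filter (fun y => ∀ l ∈ Lam x x' y, ¬ On e l) := by
  unfold Yf
  rw [Finset.filter_filter]
  refine Finset.filter_congr fun y _ => ?_
  rw [mem_Sq_rm, mem_Sq_rm]
  constructor
  · rintro ⟨⟨h1, h2⟩, h3, h4⟩
    refine ⟨⟨h1, h3⟩, fun l hl ho => ?_⟩
    unfold On at ho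
    rcases mem_Lam.1 hl with rfl | rfl | rfl | rfl | rfl | rfl | rfl
    · exact h2 0 ho.symm
    · exact h4 0 ho.symm
    · exact h2 1 ho.symm
    · exact h2 2 ho.symm
    · exact h4 2 ho.symm
    · exact h2 3 ho.symm
    · exact h4 3 ho.symm
  · rintro ⟨⟨h1, h3⟩, h5⟩
    refine ⟨⟨h1, fun k hk => ?_⟩, h3, fun k hk => ?_⟩
    · fin_cases k
      · exact h5 (0, x) (mem_Lam.2 (Or.inl rfl)) hk.symm
      · exact h5 (1, y) (mem_Lam.2 (Or.inr (Or.inr (Or.inl rfl)))) hk.symm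
      · exact h5 (2, x + y) (mem_Lam.2 (Or.inr (Or.inr (Or.inr (Or.inl rfl))))) hk.symm
      · exact h5 (3, x - y)
          (mem_Lam.2 (Or.inr (Or.inr (Or.inr (Or.inr (Or.inr (Or.inl rfl))))))) hk.symm
    · fin_cases k
      · exact h5 (0, x') (mem_Lam.2 (Or.inr (Or.inl rfl))) hk.symm
      · exact h5 (1, y) (mem_Lam.2 (Or.inr (Or.inr (Or.inl rfl)))) hk.symm
      · exact h5 (2, x' + y)
          (mem_Lam.2 (Or.inr (Or.inr (Or.inr (Or.inr (Or.inl rfl)))))) hk.symm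
      · exact h5 (3, x' - y)
          (mem_Lam.2 (Or.inr (Or.inr (Or.inr (Or.inr (Or.inr (Or.inr rfl))))))) hk.symm

private theorem Lam_sub {N : ℕ} {I : Finset Li} {x x' y : ℤ} (h : y ∈ Yf N I x x') :
    Lam x x' y ⊆ I := by
  obtain ⟨h1, h2⟩ := mem_Yf h
  rw [mem_Sq] at h1 h2
  intro l hl
  rcases mem_Lam.1 hl with rfl | rfl | rfl | rfl | rfl | rfl | rfl
  · exact h1.2 0
  · exact h2.2 0
  · exact h1.2 1
  · exact h1.2 2
  · exact h2.2 2
  · exact h1.2 3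
  · exact h2.2 3

private theorem kill_card (N : ℕ) (I : Finset Li) (x x' : ℤ) (e : ℤ × ℤ)
    (h0 : ¬ On e (0, x)) (h0' : ¬ On e (0, x')) :
    ((Yf N I x x').filter (fun y => ¬ ∀ l ∈ Lam x x' y, ¬ On e l)).card ≤ 5 := by
  refine (Finset.card_le_card (t := {e.2, e.1 + e.2 - x, e.1 + e.2 - x', x - e.1 + e.2,
    x' - e.1 + e.2}) ?_).trans Finset.card_le_five
  intro y hy
  obtain ⟨-, h1⟩ := Finset.mem_filter.1 hy
  push Not at h1
  obtain ⟨l, hl, ho⟩ := h1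
  simp only [Finset.mem_insert, Finset.mem_singleton]
  rcases mem_Lam.1 hl with rfl | rfl | rfl | rfl | rfl | rfl | rfl
  · exact absurd ho h0
  · exact absurd ho h0'
  · left
    have h2 : e.2 = y := ho
    exact h2.symm
  · right; left
    have h2 : e.1 + e.2 = x + y := ho
    omega
  · right; right; left
    have h2 : e.1 + e.2 = x' + y := ho
    omega
  · right; right; right; left
    have h2 : e.1 - e.2 = x - y := ho
    omega
  · right; right; right; right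
    have h2 : e.1 - e.2 = x' - y := ho
    omega

private theorem tt01 {L : ℝ} (hL : 1 ≤ L) {N m : ℕ} {W : ℤ × ℤ → ℝ} {A B : ℤ → ℝ}
    (hR : Rf L N W A B) (h1 : 1 ≤ m) (h2 : m ≤ N) (l : Li) :
    0 ≤ TT N W m l ∧ TT N W m l ≤ 1 := by
  by_cases hl : rc l
  · rw [tt_rc hl]
    exact ⟨zero_le_one, le_rfl⟩
  · obtain ⟨a1, -, a3⟩ := tt_bd hL hR h1 h2 hl
    refine ⟨a1, a3.trans ?_⟩
    have : 0 ≤ 1 / L := by positivity
    linarith

private theorem tt_sum {N m : ℕ} {W : ℤ × ℤ → ℝ} (e : ℤ × ℤ) :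
    (∑ k : Fin 4, TT N W m (k, ln k e)) - 1 =
      1 + TT N W m (2, e.1 + e.2) + TT N W m (3, e.1 - e.2) := by
  rw [Fin.sum_univ_four]
  have h0 : TT N W m (0, ln 0 e) = 1 := tt_rc (by unfold rc; norm_num)
  have h1 : TT N W m (1, ln 1 e) = 1 := tt_rc (by unfold rc; norm_num)
  rw [h0, h1]
  have h2 : ln 2 e = e.1 + e.2 := rfl
  have h3 : ln 3 e = e.1 - e.2 := rfl
  rw [h2, h3]
  ring

theorem drift_cg (L K Cp : ℝ) (hL : 1 ≤ L) (hK : 1 ≤ K) (hCp : 0 ≤ Cp) : ∃ C : ℝ, 1 ≤ C ∧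
    ∀ (N m : ℕ) (I : Finset Li) (W : ℤ × ℤ → ℝ) (A B : ℤ → ℝ) (z : Li → ℝ) (π : ℤ × ℤ → ℝ) (d : ℝ),
      2 ≤ m → m ≤ N → Rf L N W A B → Vd N m I → St N I z → (∀ e ∈ Sq N I, wt z e ≤ K / m) → Tp Cp N m I z π →
      Cl d N m W I z → ∀ x x' : ℤ, ((0, x) : Li) ∈ I → ((0, x') : Li) ∈ I → x ≠ x' →
      |∑ e ∈ (Sq N I).filter (fun e => ¬ On e (0, x) ∧ ¬ On e (0, x')), π e *
        (Cg N W (m - 1) (rm I e) x x' - Cg N W m I x x')| ≤ C * d / m + C / m ^ 2 ∧
      ∀ e ∈ Sq N I, ¬ On e (0, x) → ¬ On e (0, x') →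
        |Cg N W (m - 1) (rm I e) x x' - Cg N W m I x x'| ≤ C / m := by
  obtain ⟨Q, hQ⟩ : ∃ Q : ℝ, Q = (Cp + K) * 49 := ⟨_, rfl⟩
  obtain ⟨Q', hQ'⟩ : ∃ Q' : ℝ, Q' = (Cp + K) * 4 := ⟨_, rfl⟩
  have hQ0 : 0 ≤ Q := by rw [hQ]; nlinarith
  have hQ0' : 0 ≤ Q' := by rw [hQ']; nlinarith
  obtain ⟨R, hR⟩ : ∃ R : ℝ, R = 256 + 230808 * (17 + Q) + Q * 17 + Q' := ⟨_, rfl⟩
  have hR0 : 0 ≤ R := by rw [hR]; positivity
  have hL6 : 1 ≤ L ^ 6 := one_le_pow₀ hL
  have hL60 : 0 ≤ L ^ 6 := by positivity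
  refine ⟨L ^ 6 * (4 + R + 230829), ?_, ?_⟩
  · nlinarith
  intro N m I W A B z π d hm hmN hRf hv hz hw hπ hcl x x' hx hx' hne
  have hm1 : 1 ≤ m := by omega
  have hm2 : (2 : ℝ) ≤ m := by exact_mod_cast hm
  have hm0 : (0 : ℝ) < m := by linarith
  have hcast : ((m - 1 : ℕ) : ℝ) = (m : ℝ) - 1 := by
    rw [Nat.cast_sub hm1, Nat.cast_one]
  have hd : 0 ≤ d := (abs_nonneg _).trans (hcl _ hx)
  obtain ⟨Y, hY⟩ : ∃ Y, Y = Yf N I x x' := ⟨_, rfl⟩
  have hYc : (Y.card : ℝ) ≤ m := by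
    rw [hY]
    exact_mod_cast Yf_card hv hx
  -- the weights
  have hb : ∀ y ∈ Y, (x, y) ∈ board N ∧ (x', y) ∈ board N := by
    intro y hy
    rw [hY] at hy
    obtain ⟨h1, h2⟩ := mem_Yf hy
    exact ⟨(mem_Sq.1 h1).1, (mem_Sq.1 h2).1⟩
  have hpos : ∀ e ∈ board N, 0 < Wn N W m e := by
    intro e he
    refine lt_of_lt_of_le ?_ (wn_bd hL hRf hm1 hmN he).1
    have : 0 < L := by linarith
    positivity
  have hup : ∀ e ∈ board N, Wn N W m e ≤ L ^ 3 / m := fun e he => (wn_bd hL hRf hm1 hmN he).2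
  have hst : ∀ e ∈ board N, |Wn N W (m - 1) e - Wn N W m e *
      (1 + (1 + TT N W m (2, e.1 + e.2) + TT N W m (3, e.1 - e.2)) / m)| ≤
        100 * Wn N W m e / m ^ 2 := by
    intro e he
    have h := (one_step hL hRf hm hmN).1 e he
    rwa [tt_sum] at h
  have hal : ∀ e : ℤ × ℤ, |1 + TT N W m (2, e.1 + e.2) + TT N W m (3, e.1 - e.2)| ≤ 4 := by
    intro e
    obtain ⟨a1, a2⟩ := tt01 hL hRf hm1 hmN (2, e.1 + e.2)
    obtain ⟨a3, a4⟩ := tt01 hL hRf hm1 hmN (3, e.1 - e.2)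
    rw [abs_le]
    constructor <;> linarith
  -- the codegrees after the removal of `e`
  have hCg : ∀ e, Cg N W (m - 1) (rm I e) x x' = ∑ y ∈ Y,
      if ∀ l ∈ Lam x x' y, ¬ On e l then
        ((m : ℝ) - 1) * (Wn N W (m - 1) (x, y) * Wn N W (m - 1) (x', y)) else 0 := by
    intro e
    rw [cg_eq, hcast, Yf_rm, ← hY, Finset.sum_filter, Finset.mul_sum]
    refine Finset.sum_congr rfl fun y _ => ?_
    split_ifs
    · rfl
    · rw [mul_zero]
  have hCg0 : Cg N W m I x x' = ∑ y ∈ Y, (m : ℝ) * (Wn N W m (x, y) * Wn N W m (x', y)) := by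
    rw [cg_eq, ← hY, Finset.mul_sum]
  constructor
  · obtain ⟨P, hP⟩ : ∃ P : ℤ → ℝ, P = fun y =>
      ∑ e ∈ (Sq N I).filter (fun e => ∀ l ∈ Lam x x' y, ¬ On e l), π e := ⟨_, rfl⟩
    obtain ⟨PS, hPS⟩ : ∃ PS : ℝ, PS =
      ∑ e ∈ (Sq N I).filter (fun e => ¬ On e (0, x) ∧ ¬ On e (0, x')), π e := ⟨_, rfl⟩
    have hA : ∑ e ∈ (Sq N I).filter (fun e => ¬ On e (0, x) ∧ ¬ On e (0, x')),
        π e * Cg N W (m - 1) (rm I e) x x' = ∑ y ∈ Y, ((m : ℝ) - 1) *
          (Wn N W (m - 1) (x, y) * Wn N W (m - 1) (x', y)) * P y := by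
      calc _ = ∑ e ∈ (Sq N I).filter (fun e => ¬ On e (0, x) ∧ ¬ On e (0, x')),
            ∑ y ∈ Y, ((m : ℝ) - 1) * (Wn N W (m - 1) (x, y) * Wn N W (m - 1) (x', y)) *
              (if ∀ l ∈ Lam x x' y, ¬ On e l then π e else 0) := by
            refine Finset.sum_congr rfl fun e _ => ?_
            rw [hCg e, Finset.mul_sum]
            refine Finset.sum_congr rfl fun y _ => ?_
            split_ifs <;> ring
        _ = ∑ y ∈ Y, ∑ e ∈ (Sq N I).filter (fun e => ¬ On e (0, x) ∧ ¬ On e (0, x')),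
            ((m : ℝ) - 1) * (Wn N W (m - 1) (x, y) * Wn N W (m - 1) (x', y)) *
              (if ∀ l ∈ Lam x x' y, ¬ On e l then π e else 0) := Finset.sum_comm
        _ = _ := by
            refine Finset.sum_congr rfl fun y _ => ?_
            rw [← Finset.mul_sum]
            congr 1
            rw [hP, ← Finset.sum_filter, Finset.filter_filter]
            refine Finset.sum_congr (Finset.filter_congr fun e _ => ?_) fun _ _ => rfl
            constructor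
            · exact fun h => h.2
            · exact fun h => ⟨⟨h _ (mem_Lam.2 (Or.inl rfl)), h _ (mem_Lam.2 (Or.inr (Or.inl rfl)))⟩,
                h⟩
    have hB : ∑ e ∈ (Sq N I).filter (fun e => ¬ On e (0, x) ∧ ¬ On e (0, x')),
        π e * Cg N W m I x x' = ∑ y ∈ Y, (m : ℝ) *
          (Wn N W m (x, y) * Wn N W m (x', y)) * PS := by
      rw [← Finset.sum_mul, ← hPS, hCg0, Finset.mul_sum]
      refine Finset.sum_congr rfl fun y _ => ?_
      ring
    have hS : ∑ e ∈ (Sq N I).filter (fun e => ¬ On e (0, x) ∧ ¬ On e (0, x')), π e *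
        (Cg N W (m - 1) (rm I e) x x' - Cg N W m I x x') = ∑ y ∈ Y, (((m : ℝ) - 1) *
          (Wn N W (m - 1) (x, y) * Wn N W (m - 1) (x', y)) * P y - (m : ℝ) *
          (Wn N W m (x, y) * Wn N W m (x', y)) * PS) := by
      rw [Finset.sum_sub_distrib, ← hA, ← hB, ← Finset.sum_sub_distrib]
      refine Finset.sum_congr rfl fun e _ => ?_
      ring
    -- survival of the two rows
    have hPS2 : |PS - (1 - 2 / m)| ≤ Q' / m ^ 2 := by
      obtain ⟨Λ2, hΛ2⟩ : ∃ Λ2 : Finset Li, Λ2 = {(0, x), (0, x')} := ⟨_, rfl⟩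
      have hmem : ∀ l, l ∈ Λ2 ↔ l = (0, x) ∨ l = (0, x') := by
        intro l
        rw [hΛ2, Finset.mem_insert, Finset.mem_singleton]
      have hsub : Λ2 ⊆ I := by
        intro l hl
        rcases (hmem l).1 hl with rfl | rfl
        · exact hx
        · exact hx'
      have h := surv hK hCp hm1 hv hz hw hπ hsub
      have e1 : ∑ e ∈ (Sq N I).filter (fun e => ∀ l ∈ Λ2, ¬ On e l), π e = PS := by
        rw [hPS]
        refine Finset.sum_congr (Finset.filter_congr fun e _ => ?_) fun _ _ => rfl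
        constructor
        · intro h
          exact ⟨h _ ((hmem _).2 (Or.inl rfl)), h _ ((hmem _).2 (Or.inr rfl))⟩
        · rintro ⟨h1, h2⟩ l hl
          rcases (hmem l).1 hl with rfl | rfl
          · exact h1
          · exact h2
      rw [e1, hΛ2] at h
      have hn : ((0, x) : Li) ∉ ({(0, x')} : Finset Li) := by
        simp [Prod.ext_iff, hne]
      rw [Finset.sum_insert hn, Finset.sum_singleton, Finset.card_insert_of_notMem hn,
        Finset.card_singleton, (mass_dg hz hx).2.2.2 (by unfold rc; norm_num),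
        (mass_dg hz hx').2.2.2 (by unfold rc; norm_num)] at h
      rw [hQ']
      norm_num at h ⊢
      exact h
    have hterm : ∀ y ∈ Y, |((m : ℝ) - 1) * (Wn N W (m - 1) (x, y) * Wn N W (m - 1) (x', y)) * P y -
        (m : ℝ) * (Wn N W m (x, y) * Wn N W m (x', y)) * PS| ≤
          L ^ 6 / m * (4 * d / m + R / m ^ 2) := by
      intro y hy
      obtain ⟨b1, b2⟩ := hb y hy
      have hsub : Lam x x' y ⊆ I := Lam_sub (hY ▸ hy)
      have h := surv hK hCp hm1 hv hz hw hπ hsub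
      rw [Lam_card y hne, Lam_sum y hne] at h
      have hl : ∀ l, l ∈ Lam x x' y → l ∈ I := fun l hl => hsub hl
      have i0 := hl (0, x) (mem_Lam.2 (Or.inl rfl))
      have i0' := hl (0, x') (mem_Lam.2 (Or.inr (Or.inl rfl)))
      have i1 := hl (1, y) (mem_Lam.2 (Or.inr (Or.inr (Or.inl rfl))))
      have i2 := hl (2, x + y) (mem_Lam.2 (Or.inr (Or.inr (Or.inr (Or.inl rfl)))))
      have i2' := hl (2, x' + y) (mem_Lam.2 (Or.inr (Or.inr (Or.inr (Or.inr (Or.inl rfl))))))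
      have i3 := hl (3, x - y)
        (mem_Lam.2 (Or.inr (Or.inr (Or.inr (Or.inr (Or.inr (Or.inl rfl)))))))
      have i3' := hl (3, x' - y)
        (mem_Lam.2 (Or.inr (Or.inr (Or.inr (Or.inr (Or.inr (Or.inr rfl)))))))
      rw [(mass_dg hz i0).2.2.2 (by unfold rc; norm_num),
        (mass_dg hz i0').2.2.2 (by unfold rc; norm_num),
        (mass_dg hz i1).2.2.2 (by unfold rc; norm_num)] at h
      obtain ⟨c1, c2, -, -⟩ := mass_dg hz i2
      obtain ⟨c1', c2', -, -⟩ := mass_dg hz i2'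
      obtain ⟨c3, c4, -, -⟩ := mass_dg hz i3
      obtain ⟨c3', c4', -, -⟩ := mass_dg hz i3'
      have d2 := hcl _ i2
      have d2' := hcl _ i2'
      have d3 := hcl _ i3
      have d3' := hcl _ i3'
      generalize ∑ e ∈ Sl N I (2, x + y), wt z e = v2 at h c1 c2 d2
      generalize ∑ e ∈ Sl N I (2, x' + y), wt z e = v2' at h c1' c2' d2'
      generalize ∑ e ∈ Sl N I (3, x - y), wt z e = v3 at h c3 c4 d3
      generalize ∑ e ∈ Sl N I (3, x' - y), wt z e = v3' at h c3' c4' d3'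
      have hP2 : |P y - (1 - (1 + (1 + (1 + (v2 + (v2' + (v3 + v3')))))) / m)| ≤ Q / m ^ 2 := by
        rw [hP, hQ]
        norm_num at h ⊢
        exact h
      have hV : |1 + (1 + (1 + (v2 + (v2' + (v3 + v3')))))| ≤ 8 := by
        rw [abs_le]
        constructor <;> linarith
      have hmain := per_y hm2 (hpos _ b1) (hpos _ b2) hL (hup _ b1) (hup _ b2) (hal (x, y))
        (hal (x', y)) hV hQ0 hQ0' (hst _ b1) (hst _ b2) hP2 hPS2
      refine hmain.trans (mul_le_mul_of_nonneg_left ?_ (by positivity))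
      rw [← hR]
      refine add_le_add ?_ le_rfl
      refine div_le_div_of_nonneg_right ?_ hm0.le
      simp only at d2 d2' d3 d3' ⊢
      rw [abs_le] at d2 d2' d3 d3' ⊢
      constructor <;> linarith [d2.1, d2.2, d2'.1, d2'.2, d3.1, d3.2, d3'.1, d3'.2]
    rw [hS]
    calc _ ≤ ∑ y ∈ Y, |((m : ℝ) - 1) * (Wn N W (m - 1) (x, y) * Wn N W (m - 1) (x', y)) * P y -
        (m : ℝ) * (Wn N W m (x, y) * Wn N W m (x', y)) * PS| := Finset.abs_sum_le_sum_abs _ _
      _ ≤ ∑ y ∈ Y, L ^ 6 / m * (4 * d / m + R / m ^ 2) := Finset.sum_le_sum hterm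
      _ = Y.card * (L ^ 6 / m * (4 * d / m + R / m ^ 2)) := by
        rw [Finset.sum_const, nsmul_eq_mul]
      _ ≤ m * (L ^ 6 / m * (4 * d / m + R / m ^ 2)) :=
        mul_le_mul_of_nonneg_right hYc (by positivity)
      _ = L ^ 6 * 4 * d / m + L ^ 6 * R / m ^ 2 := by
        field_simp
      _ ≤ _ := by
        refine add_le_add ?_ ?_
        · refine div_le_div_of_nonneg_right ?_ hm0.le
          refine mul_le_mul_of_nonneg_right ?_ hd
          nlinarith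
        · refine div_le_div_of_nonneg_right ?_ (by positivity)
          nlinarith
  · intro e _ he he'
    have hS : Cg N W (m - 1) (rm I e) x x' - Cg N W m I x x' = ∑ y ∈ Y,
        ((if ∀ l ∈ Lam x x' y, ¬ On e l then
          ((m : ℝ) - 1) * (Wn N W (m - 1) (x, y) * Wn N W (m - 1) (x', y)) else 0) -
            (m : ℝ) * (Wn N W m (x, y) * Wn N W m (x', y))) := by
      rw [hCg, hCg0, Finset.sum_sub_distrib]
    have hterm : ∀ y ∈ Y, |(if ∀ l ∈ Lam x x' y, ¬ On e l then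
          ((m : ℝ) - 1) * (Wn N W (m - 1) (x, y) * Wn N W (m - 1) (x', y)) else 0) -
            (m : ℝ) * (Wn N W m (x, y) * Wn N W m (x', y))| ≤
        L ^ 6 / m * (230824 / m) + (if ¬ ∀ l ∈ Lam x x' y, ¬ On e l then L ^ 6 / m else 0) := by
      intro y hy
      obtain ⟨b1, b2⟩ := hb y hy
      by_cases hc : ∀ l ∈ Lam x x' y, ¬ On e l
      · rw [if_pos hc, if_neg (not_not.2 hc), add_zero]
        exact per_y2 hm2 (hpos _ b1) (hpos _ b2) hL (hup _ b1) (hup _ b2) (hal (x, y))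
          (hal (x', y)) (hst _ b1) (hst _ b2)
      · rw [if_neg hc, if_pos hc, zero_sub, abs_neg]
        have p1 := hpos _ b1
        have p2 := hpos _ b2
        rw [abs_of_pos (by positivity)]
        have h1 := mww hm2 p1 p2 hL (hup _ b1) (hup _ b2)
        have h2 : 0 ≤ L ^ 6 / m * (230824 / m) := by positivity
        linarith
    have hk := kill_card N I x x' e he he'
    rw [← hY] at hk
    have hk' : (((Y.filter (fun y => ¬ ∀ l ∈ Lam x x' y, ¬ On e l)).card : ℕ) : ℝ) ≤ 5 := by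
      exact_mod_cast hk
    rw [hS]
    calc _ ≤ ∑ y ∈ Y, |(if ∀ l ∈ Lam x x' y, ¬ On e l then
          ((m : ℝ) - 1) * (Wn N W (m - 1) (x, y) * Wn N W (m - 1) (x', y)) else 0) -
            (m : ℝ) * (Wn N W m (x, y) * Wn N W m (x', y))| := Finset.abs_sum_le_sum_abs _ _
      _ ≤ ∑ y ∈ Y, (L ^ 6 / m * (230824 / m) +
          (if ¬ ∀ l ∈ Lam x x' y, ¬ On e l then L ^ 6 / m else 0)) := Finset.sum_le_sum hterm
      _ = Y.card * (L ^ 6 / m * (230824 / m)) +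
          (Y.filter (fun y => ¬ ∀ l ∈ Lam x x' y, ¬ On e l)).card * (L ^ 6 / m) := by
        rw [Finset.sum_add_distrib, Finset.sum_const, nsmul_eq_mul, ← Finset.sum_filter,
          Finset.sum_const, nsmul_eq_mul]
      _ ≤ m * (L ^ 6 / m * (230824 / m)) + 5 * (L ^ 6 / m) :=
        add_le_add (mul_le_mul_of_nonneg_right hYc (by positivity))
          (mul_le_mul_of_nonneg_right hk' (by positivity))
      _ = L ^ 6 * 230829 / m := by
        field_simp
        ring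
      _ ≤ _ := by
        refine div_le_div_of_nonneg_right ?_ hm0.le
        nlinarith

end Pool.Agent.NQL
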