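import Pool.Agent.NQL.Defs
import Pool.Agent.NQL.ABas
import Pool.Agent.NQL.AVal
import Pool.Agent.NQL.AExp
import Pool.Agent.NQL.BNom
import Pool.Agent.NQL.BFul
import Pool.Agent.NQL.CSur
import Pool.Agent.NQL.CDrG
import Pool.Agent.NQL.CFam

/-!
# NQL-CGam: exponential family of a codegree

Supermartingale-type step for the exponential functional of a codegree, starting value and violation.
-/

set_option autoImplicit false

open Finset

namespace Pool.Agent.NQL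

open Pool.Agent.NQ (board dsum F Ent Dg phi ln Q Qset QS NonAtt bern)
open Pool.Agent.NQR (Adm Opt Bd Rf hS hD hh InR)

open Classical in
/-- exponential function of a codegree, target size `k` -/
noncomputable def EG (L c C : ℝ) (b : ℕ → ℝ) (N : ℕ) (W : ℤ × ℤ → ℝ) (k m : ℕ) (I : Finset Li)
    (x x' : ℤ) : ℝ :=
  if ((0, x) : Li) ∈ I ∧ ((0, x') : Li) ∈ I then ((k : ℝ) / m) ^ 2 *
    Real.exp (k / (8 * L ^ 2 * c ^ 2) * (1 / (2 * L ^ 2) - Cg N W m I x x' + c * (Bs b m - Bs b k)) +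
      ((k / (8 * L ^ 2 * c ^ 2)) ^ 2 * c ^ 2 + C) * (1 / k - 1 / m)) else 0

theorem eg_step (L K Cp : ℝ) (hL : 1 ≤ L) (hK : 1 ≤ K) (hCp : 0 ≤ Cp) : ∃ c C : ℝ, 1 ≤ c ∧ 1 ≤ C ∧
    ∀ (b : ℕ → ℝ) (N m k : ℕ) (I : Finset Li) (W : ℤ × ℤ → ℝ) (A B : ℤ → ℝ) (z : Li → ℝ) (π : ℤ × ℤ → ℝ)
      (d : ℝ), 1 ≤ k → k < m → m ≤ N → Rf L N W A B → Vd N m I → St N I z → (∀ e ∈ Sq N I, wt z e ≤ K / m) →
      Tp Cp N m I z π → Cl d N m W I z → (d + 1 / m) / m ≤ b m → ∀ x x' : ℤ, x ≠ x' →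
        ∑ e ∈ Sq N I, π e * EG L c C b N W k (m - 1) (rm I e) x x' ≤ EG L c C b N W k m I x x' := by
  obtain ⟨C0, hC0, hdr⟩ := drift_cg L K Cp hL hK hCp
  have hL0 : 0 < L := by linarith
  have hC00 : 0 < C0 := by linarith
  refine ⟨C0, 4 * (Cp + K) + 2, hC0, by linarith, ?_⟩
  intro b N m k I W A B z π d hk hkm hmN hR hv hz hw hπ hCl hb x x' hne
  by_cases hI : ((0, x) : Li) ∈ I ∧ ((0, x') : Li) ∈ I
  · have hm2 : 2 ≤ m := by omega
    have hmr : (2 : ℝ) ≤ m := by exact_mod_cast hm2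
    have hm0 : (0 : ℝ) < m := by linarith
    have hm1 : (0 : ℝ) < (m : ℝ) - 1 := by linarith
    have hkr : (1 : ℝ) ≤ k := by exact_mod_cast hk
    have hkmr : (k : ℝ) ≤ m := by exact_mod_cast hkm.le
    have hcast : ((m - 1 : ℕ) : ℝ) = (m : ℝ) - 1 := by
      rw [Nat.cast_sub (by omega), Nat.cast_one]
    obtain ⟨hd1, hd2⟩ := hdr N m I W A B z π d hm2 hmN hR hv hz hw hπ hCl x x' hI.1 hI.2 hne
    obtain ⟨θ, hθd⟩ : ∃ θ : ℝ, θ = (k : ℝ) / (8 * L ^ 2 * C0 ^ 2) := ⟨_, rfl⟩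
    have hθ0 : 0 ≤ θ := by
      rw [hθd]
      positivity
    have hθc : θ * C0 ≤ m := by
      have h1 : (1 : ℝ) ≤ 8 * L ^ 2 * C0 := by nlinarith [one_le_pow₀ hL (n := 2)]
      have h2 : θ * C0 = k / (8 * L ^ 2 * C0) := by
        rw [hθd]
        field_simp
      rw [h2]
      exact (div_le_self (by linarith) h1).trans hkmr
    -- the survival probability
    have hsurv : ∑ e ∈ (Sq N I).filter (fun e => ¬ On e (0, x) ∧ ¬ On e (0, x')), π e ≤
        1 - ((2 : ℕ) : ℝ) / m + 4 * (Cp + K) / m ^ 2 := by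
      have hll : ((0, x) : Li) ≠ (0, x') := fun h => hne (congrArg Prod.snd h)
      have hΛ : ({(0, x), (0, x')} : Finset Li) ⊆ I := by
        intro l hl
        rcases mem_insert.1 hl with rfl | hl
        · exact hI.1
        · rw [mem_singleton.1 hl]
          exact hI.2
      have h1 := surv hK hCp (by omega) hv hz hw hπ hΛ
      have hrow : ∀ t : ℤ, ((0, t) : Li) ∈ I → ∑ e ∈ Sl N I (0, t), wt z e = 1 := by
        intro t ht
        have h2 := hz (0, t) ht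
        have h3 : dg ((0, t) : Li) = 0 := if_pos (by show ((0 : Fin 4) : ℕ) < 2; decide)
        rw [h3] at h2
        linarith
      rw [sum_pair hll, hrow x hI.1, hrow x' hI.2, card_pair hll] at h1
      have h4a : ∀ Λ : Finset Li, (∀ e : ℤ × ℤ, (∀ l ∈ Λ, ¬ On e l) ↔ (¬ On e (0, x) ∧ ¬ On e (0, x'))) →
          (Sq N I).filter (fun e => ∀ l ∈ Λ, ¬ On e l) =
          (Sq N I).filter (fun e => ¬ On e (0, x) ∧ ¬ On e (0, x')) :=
        fun Λ h => filter_congr fun e _ => h e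
      have h4 := h4a {(0, x), (0, x')} (by
        intro e
        constructor
        · intro h
          exact ⟨h _ (mem_insert_self _ _), h _ (mem_insert_of_mem (mem_singleton_self _))⟩
        · rintro ⟨ha, hb⟩ l hl
          rcases mem_insert.1 hl with rfl | hl
          · exact ha
          · rw [mem_singleton.1 hl]
            exact hb)
      rw [h4] at h1
      have h5 := (abs_le.1 h1).2
      have h6 : (Cp + K) * ((2 : ℕ) : ℝ) ^ 2 / m ^ 2 = 4 * (Cp + K) / m ^ 2 := by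
        push_cast
        ring
      have h7 : (1 + 1 : ℝ) / m = ((2 : ℕ) : ℝ) / m := by
        push_cast
        norm_num
      rw [h6, h7] at h5
      linarith
    have hs1 : ∑ e ∈ (Sq N I).filter (fun e => ¬ On e (0, x) ∧ ¬ On e (0, x')), π e ≤ 1 := by
      rw [← hπ.sum]
      exact sum_le_sum_of_subset_of_nonneg (filter_subset _ _) fun e he _ => hπ.nn e he
    have hbb : ∑ e ∈ (Sq N I).filter (fun e => ¬ On e (0, x) ∧ ¬ On e (0, x')),
        π e * (Cg N W m I x x' - Cg N W (m - 1) (rm I e) x x') ≤ C0 * b m := by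
      have h1 : ∑ e ∈ (Sq N I).filter (fun e => ¬ On e (0, x) ∧ ¬ On e (0, x')),
          π e * (Cg N W m I x x' - Cg N W (m - 1) (rm I e) x x') =
          - ∑ e ∈ (Sq N I).filter (fun e => ¬ On e (0, x) ∧ ¬ On e (0, x')),
            π e * (Cg N W (m - 1) (rm I e) x x' - Cg N W m I x x') := by
        rw [← sum_neg_distrib]
        exact sum_congr rfl fun e _ => by ring
      have h2 := (abs_le.1 hd1).1
      have h3 : C0 * d / m + C0 / m ^ 2 = C0 * ((d + 1 / m) / m) := by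
        field_simp
      have h4 : C0 * ((d + 1 / m) / m) ≤ C0 * b m := mul_le_mul_of_nonneg_left hb hC00.le
      rw [h1]
      linarith
    have hstep := exp_step ((Sq N I).filter (fun e => ¬ On e (0, x) ∧ ¬ On e (0, x'))) π
      (fun e => Cg N W m I x x' - Cg N W (m - 1) (rm I e) x x') (m := m) (a := 2) hm2 le_rfl
      (b := C0 * b m) (c := C0) (C := 4 * (Cp + K)) (θ := θ)
      (fun e he => hπ.nn e (mem_filter.1 he).1) (by linarith) hsurv hs1 hbb
      (fun e he => by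
        obtain ⟨h1, h2, h3⟩ := mem_filter.1 he
        rw [abs_sub_comm]
        exact hd2 e h1 h2 h3) hθ0 hθc
    -- rewrite the left side
    have hlhs : ∑ e ∈ Sq N I, π e * EG L C0 (4 * (Cp + K) + 2) b N W k (m - 1) (rm I e) x x' =
        ((k : ℝ) / m) ^ 2 * Real.exp (θ * (1 / (2 * L ^ 2) - Cg N W m I x x' + C0 * (Bs b (m - 1) - Bs b k)) +
          (θ ^ 2 * C0 ^ 2 + (4 * (Cp + K) + 2)) * (1 / k - 1 / ((m : ℝ) - 1))) *
        (((m : ℝ) / (m - 1)) ^ 2 * ∑ e ∈ (Sq N I).filter (fun e => ¬ On e (0, x) ∧ ¬ On e (0, x')),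
          π e * Real.exp (θ * (Cg N W m I x x' - Cg N W (m - 1) (rm I e) x x'))) := by
      rw [← sum_filter_add_sum_filter_not (Sq N I) (fun e => ¬ On e (0, x) ∧ ¬ On e (0, x'))]
      have hz0 : ∑ e ∈ (Sq N I).filter (fun e => ¬ (¬ On e (0, x) ∧ ¬ On e (0, x'))),
          π e * EG L C0 (4 * (Cp + K) + 2) b N W k (m - 1) (rm I e) x x' = 0 := by
        refine sum_eq_zero fun e he => ?_
        have h1 := (mem_filter.1 he).2
        have h2 : ¬ (((0, x) : Li) ∈ rm I e ∧ ((0, x') : Li) ∈ rm I e) := by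
          rintro ⟨ha, hb⟩
          exact h1 ⟨(mem_rm.1 ha).2, (mem_rm.1 hb).2⟩
        unfold EG
        rw [if_neg h2, mul_zero]
      rw [hz0, add_zero, mul_sum, mul_sum]
      refine sum_congr rfl fun e he => ?_
      obtain ⟨h1, h2, h3⟩ := mem_filter.1 he
      have h4 : ((0, x) : Li) ∈ rm I e ∧ ((0, x') : Li) ∈ rm I e :=
        ⟨mem_rm.2 ⟨hI.1, h2⟩, mem_rm.2 ⟨hI.2, h3⟩⟩
      unfold EG
      rw [if_pos h4, hcast, ← hθd]
      have h5 : θ * (1 / (2 * L ^ 2) - Cg N W (m - 1) (rm I e) x x' + C0 * (Bs b (m - 1) - Bs b k)) +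
          (θ ^ 2 * C0 ^ 2 + (4 * (Cp + K) + 2)) * (1 / k - 1 / ((m : ℝ) - 1)) =
          (θ * (1 / (2 * L ^ 2) - Cg N W m I x x' + C0 * (Bs b (m - 1) - Bs b k)) +
          (θ ^ 2 * C0 ^ 2 + (4 * (Cp + K) + 2)) * (1 / k - 1 / ((m : ℝ) - 1))) +
          θ * (Cg N W m I x x' - Cg N W (m - 1) (rm I e) x x') := by ring
      have h6 : ((k : ℝ) / (m - 1)) ^ 2 = (k / m) ^ 2 * ((m : ℝ) / (m - 1)) ^ 2 := by
        rw [← mul_pow]
        congr 1
        field_simp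
      rw [h5, Real.exp_add, h6]
      ring
    rw [hlhs]
    have hBs : Bs b m = Bs b (m - 1) + b m := by
      unfold Bs
      have h1 : m - 1 + 1 = m := by omega
      rw [h1, sum_range_succ]
    have hrhs : EG L C0 (4 * (Cp + K) + 2) b N W k m I x x' =
        ((k : ℝ) / m) ^ 2 * Real.exp (θ * (1 / (2 * L ^ 2) - Cg N W m I x x' + C0 * (Bs b (m - 1) - Bs b k)) +
          (θ ^ 2 * C0 ^ 2 + (4 * (Cp + K) + 2)) * (1 / k - 1 / ((m : ℝ) - 1))) *
        Real.exp (θ * (C0 * b m) + (θ ^ 2 * C0 ^ 2 + 4 * (Cp + K) + 2) * (1 / ((m : ℝ) - 1) - 1 / m)) := by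
      unfold EG
      rw [if_pos hI, ← hθd, mul_assoc, ← Real.exp_add, hBs]
      congr 2
      ring
    rw [hrhs]
    exact mul_le_mul_of_nonneg_left hstep (by positivity)
  · have h0 : ∑ e ∈ Sq N I, π e * EG L C0 (4 * (Cp + K) + 2) b N W k (m - 1) (rm I e) x x' = 0 := by
      refine sum_eq_zero fun e _ => ?_
      have h2 : ¬ (((0, x) : Li) ∈ rm I e ∧ ((0, x') : Li) ∈ rm I e) := by
        rintro ⟨ha, hb⟩
        exact hI ⟨(mem_rm.1 ha).1, (mem_rm.1 hb).1⟩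
      unfold EG
      rw [if_neg h2, mul_zero]
    rw [h0]
    unfold EG
    rw [if_neg hI]

theorem eg_start {L : ℝ} (hL : 1 ≤ L) {c C : ℝ} (hc : 1 ≤ c) (hC : 1 ≤ C) {b : ℕ → ℝ} {N k : ℕ}
    {W : ℤ × ℤ → ℝ} {A B : ℤ → ℝ} (hR : Rf L N W A B) (hk : 1 ≤ k) (hkN : k ≤ N) (hN : 2 ≤ N)
    (hB : c * (Bs b N - Bs b k) ≤ 1 / (4 * L ^ 2)) {x x' : ℤ} (hx : 0 ≤ x ∧ x < N) (hx' : 0 ≤ x' ∧ x' < N) :
    EG L c C b N W k N (full N) x x' ≤
      ((k : ℝ) / N) ^ 2 * Real.exp (C - k / (64 * L ^ 4 * c ^ 2)) := by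
  have hL0 : 0 < L := by linarith
  have hc0 : 0 < c := by linarith
  have hkr : (1 : ℝ) ≤ k := by exact_mod_cast hk
  have hNr : (0 : ℝ) < N := by
    have : 0 < N := by omega
    exact_mod_cast this
  unfold EG
  split_ifs with hI
  · apply mul_le_mul_of_nonneg_left _ (by positivity)
    apply Real.exp_le_exp.2
    have hCg := (full_st hL hN hR).2.2.2 x x' hx.1 hx.2 hx'.1 hx'.2
    obtain ⟨θ, hθd⟩ : ∃ θ : ℝ, θ = (k : ℝ) / (8 * L ^ 2 * c ^ 2) := ⟨_, rfl⟩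
    have hθ0 : 0 ≤ θ := by
      rw [hθd]
      positivity
    rw [← hθd]
    have h1 : θ * (1 / (2 * L ^ 2) - Cg N W N (full N) x x' + c * (Bs b N - Bs b k)) ≤
        θ * (-(1 / (4 * L ^ 2))) := by
      apply mul_le_mul_of_nonneg_left _ hθ0
      have h2 : 1 / (2 * L ^ 2) - 1 / L ^ 2 + 1 / (4 * L ^ 2) = -(1 / (4 * L ^ 2)) := by
        field_simp
        ring
      linarith
    have h3 : (θ ^ 2 * c ^ 2 + C) * (1 / k - 1 / N) ≤ (θ ^ 2 * c ^ 2 + C) * (1 / k) := by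
      apply mul_le_mul_of_nonneg_left _ (by positivity)
      have : 0 ≤ 1 / (N : ℝ) := by positivity
      linarith
    have h4 : C * (1 / (k : ℝ)) ≤ C := by
      have h5 : 1 / (k : ℝ) ≤ 1 := by
        rw [div_le_one (by linarith)]
        exact hkr
      nlinarith
    have h6 : θ * (-(1 / (4 * L ^ 2))) + θ ^ 2 * c ^ 2 * (1 / k) = -(k / (64 * L ^ 4 * c ^ 2)) := by
      rw [hθd]
      field_simp
      ring
    have h7 : (θ ^ 2 * c ^ 2 + C) * (1 / (k : ℝ)) = θ ^ 2 * c ^ 2 * (1 / k) + C * (1 / k) := by ring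
    linarith
  · positivity

theorem eg_nonneg (L c C : ℝ) (b : ℕ → ℝ) (N : ℕ) (W : ℤ × ℤ → ℝ) (k m : ℕ) (I : Finset Li) (x x' : ℤ) :
    0 ≤ EG L c C b N W k m I x x' := by
  unfold EG
  split_ifs
  · positivity
  · exact le_rfl

theorem eg_viol {L c C : ℝ} (hL : 1 ≤ L) (hc : 1 ≤ c) {b : ℕ → ℝ} {N m : ℕ} {W : ℤ × ℤ → ℝ} {I : Finset Li}
    {x x' : ℤ} (hm : 1 ≤ m) (hx : ((0, x) : Li) ∈ I) (hx' : ((0, x') : Li) ∈ I)
    (h : Cg N W m I x x' < 1 / (2 * L ^ 2)) : 1 ≤ EG L c C b N W m m I x x' := by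
  have hmr : (1 : ℝ) ≤ m := by exact_mod_cast hm
  have hm0 : (m : ℝ) ≠ 0 := by
    intro h0
    linarith
  unfold EG
  rw [if_pos ⟨hx, hx'⟩, div_self hm0, one_pow, one_mul]
  apply Real.one_le_exp
  rw [sub_self, mul_zero, add_zero, sub_self, mul_zero, add_zero]
  exact mul_nonneg (by positivity) (by linarith)

end Pool.Agent.NQL
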