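import Pool.Agent.NQL.Defs
import Pool.Agent.NQL.ABas
import Pool.Agent.NQL.AVal
import Pool.Agent.NQL.CSur

/-!
# NQL-CPar: pairs of free squares on a common diagonal

The number of ordered pairs of free squares on common diagonals decreases on average by the factor
`1 - 4/m` (`surv` for the two rows and two columns of a pair).
-/

set_option autoImplicit false

open Finset

namespace Pool.Agent.NQL

open Pool.Agent.NQ (board dsum F Ent Dg phi ln Q Qset QS NonAtt bern)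
open Pool.Agent.NQR (Adm Opt Bd Rf hS hD hh InR)

open Classical in
/-- number of ordered pairs of free squares on common diagonals, target size `k` -/
noncomputable def EP (Cn : ℝ) (N k m : ℕ) (I : Finset Li) : ℝ :=
  (∑ l ∈ I.filter (fun l => ¬ rc l), ((Sl N I l).card : ℝ) * ((Sl N I l).card - 1)) *
    ((k : ℝ) / m) ^ 4 * Real.exp (Cn * (1 / k - 1 / m))

private theorem nat_pair (c : ℕ) : (0 : ℝ) ≤ (c : ℝ) * ((c : ℝ) - 1) := by
  rcases Nat.eq_zero_or_pos c with h | h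
  · rw [h]
    simp
  · have h1 : (1 : ℝ) ≤ c := by exact_mod_cast h
    exact mul_nonneg (Nat.cast_nonneg _) (by linarith)

private theorem off_card (s : Finset (ℤ × ℤ)) :
    ((s.offDiag.card : ℕ) : ℝ) = (s.card : ℝ) * ((s.card : ℝ) - 1) := by
  rw [Finset.offDiag_card, Nat.cast_sub (Nat.le_mul_self _)]
  push_cast
  ring

/-- the rows and columns of a pair -/
private def Lam (p : (ℤ × ℤ) × (ℤ × ℤ)) : Finset Li :=
  {((0, ln 0 p.1) : Li), ((1, ln 1 p.1) : Li), ((0, ln 0 p.2) : Li), ((1, ln 1 p.2) : Li)}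

private theorem rc_Lam {p : (ℤ × ℤ) × (ℤ × ℤ)} {l : Li} (hl : l ∈ Lam p) : rc l := by
  unfold Lam at hl
  simp only [mem_insert, mem_singleton] at hl
  rcases hl with rfl | rfl | rfl | rfl
  · show ((0 : Fin 4) : ℕ) < 2
    decide
  · show ((1 : Fin 4) : ℕ) < 2
    decide
  · show ((0 : Fin 4) : ℕ) < 2
    decide
  · show ((1 : Fin 4) : ℕ) < 2
    decide

private theorem sub_Lam {N : ℕ} {I : Finset Li} {l : Li} {p : (ℤ × ℤ) × (ℤ × ℤ)}
    (hp : p ∈ (Sl N I l).offDiag) : Lam p ⊆ I := by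
  rw [mem_offDiag] at hp
  have h1 := (mem_Sq.1 (mem_Sl.1 hp.1).1).2
  have h2 := (mem_Sq.1 (mem_Sl.1 hp.2.1).1).2
  intro l' hl'
  unfold Lam at hl'
  simp only [mem_insert, mem_singleton] at hl'
  rcases hl' with rfl | rfl | rfl | rfl
  · exact h1 0
  · exact h1 1
  · exact h2 0
  · exact h2 1

private theorem card_Lam {N : ℕ} {I : Finset Li} {l : Li} (hl : ¬ rc l) {p : (ℤ × ℤ) × (ℤ × ℤ)}
    (hp : p ∈ (Sl N I l).offDiag) : (Lam p).card = 4 := by
  rw [mem_offDiag] at hp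
  obtain ⟨h1, h2, h3⟩ := hp
  have e1 := (mem_Sl.1 h1).2
  have e2 := (mem_Sl.1 h2).2
  have hk0 : (0 : Fin 4) ≠ l.1 := fun h => hl (by unfold rc; rw [← h]; decide)
  have hk1 : (1 : Fin 4) ≠ l.1 := fun h => hl (by unfold rc; rw [← h]; decide)
  have n0 : ln 0 p.1 ≠ ln 0 p.2 := fun h => h3 (two_lines hk0 h (e1.trans e2.symm))
  have n1 : ln 1 p.1 ≠ ln 1 p.2 := fun h => h3 (two_lines hk1 h (e1.trans e2.symm))
  have c01 : (0 : Fin 4) ≠ 1 := by decide
  unfold Lam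
  rw [card_insert_of_notMem, card_insert_of_notMem, card_insert_of_notMem, card_singleton]
  · rw [mem_singleton]
    intro h
    exact c01 (Prod.ext_iff.1 h).1
  · simp only [mem_insert, mem_singleton, not_or]
    exact ⟨fun h => c01 (Prod.ext_iff.1 h).1.symm, fun h => n1 (Prod.ext_iff.1 h).2⟩
  · simp only [mem_insert, mem_singleton, not_or]
    exact ⟨fun h => c01 (Prod.ext_iff.1 h).1, fun h => n0 (Prod.ext_iff.1 h).2,
      fun h => c01 (Prod.ext_iff.1 h).1⟩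

private theorem pair_rm {N : ℕ} {I : Finset Li} (e : ℤ × ℤ) :
    ∑ l ∈ (rm I e).filter (fun l => ¬ rc l),
      ((Sl N (rm I e) l).card : ℝ) * ((Sl N (rm I e) l).card - 1) ≤
    ∑ l ∈ I.filter (fun l => ¬ rc l), ∑ p ∈ (Sl N I l).offDiag,
      (if ∀ l' ∈ Lam p, ¬ On e l' then (1 : ℝ) else 0) := by
  have h1 : ∀ l ∈ (rm I e).filter (fun l => ¬ rc l),
      ((Sl N (rm I e) l).card : ℝ) * ((Sl N (rm I e) l).card - 1) ≤
      ∑ p ∈ (Sl N I l).offDiag, (if ∀ l' ∈ Lam p, ¬ On e l' then (1 : ℝ) else 0) := by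
    intro l _
    rw [← off_card, Finset.sum_boole]
    have h2 : (Sl N (rm I e) l).offDiag ⊆
        (Sl N I l).offDiag.filter (fun p => ∀ l' ∈ Lam p, ¬ On e l') := by
      intro p hp
      rw [mem_offDiag] at hp
      obtain ⟨a1, a2, a3⟩ := hp
      obtain ⟨b1, b2⟩ := mem_Sl.1 a1
      obtain ⟨b3, b4⟩ := mem_Sl.1 a2
      obtain ⟨c1, c2⟩ := mem_Sq_rm.1 b1
      obtain ⟨c3, c4⟩ := mem_Sq_rm.1 b3
      refine mem_filter.2 ⟨mem_offDiag.2 ⟨mem_Sl.2 ⟨c1, b2⟩, mem_Sl.2 ⟨c3, b4⟩, a3⟩, ?_⟩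
      intro l' hl' hon
      unfold Lam at hl'
      simp only [mem_insert, mem_singleton] at hl'
      rcases hl' with rfl | rfl | rfl | rfl
      · exact c2 0 hon.symm
      · exact c2 1 hon.symm
      · exact c4 0 hon.symm
      · exact c4 1 hon.symm
    exact_mod_cast card_le_card h2
  refine (Finset.sum_le_sum h1).trans ?_
  refine Finset.sum_le_sum_of_subset_of_nonneg ?_ ?_
  · intro l hl
    obtain ⟨a1, a2⟩ := mem_filter.1 hl
    exact mem_filter.2 ⟨(mem_rm.1 a1).1, a2⟩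
  · intro l _ _
    refine Finset.sum_nonneg fun p _ => ?_
    split_ifs <;> norm_num

private theorem num_step {A : ℝ} (hA : 0 ≤ A) {m k : ℝ} (hm : 2 ≤ m) (hk : 0 < k) :
    (1 - 4 / m + A / m ^ 2) * ((k / (m - 1)) ^ 4 * Real.exp ((A + 4) * (1 / k - 1 / (m - 1)))) ≤
      (k / m) ^ 4 * Real.exp ((A + 4) * (1 / k - 1 / m)) := by
  have hm0 : 0 < m := by linarith
  have hm1 : 0 < m - 1 := by linarith
  have h1 : 1 - 4 / m + A / m ^ 2 ≤ Real.exp (-(4 / m) + A / m ^ 2) := by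
    have := Real.add_one_le_exp (-(4 / m) + A / m ^ 2)
    linarith
  have h2 : m / (m - 1) ≤ Real.exp (1 / (m - 1)) := by
    have := Real.add_one_le_exp (1 / (m - 1))
    have h3 : m / (m - 1) = 1 / (m - 1) + 1 := by
      field_simp
      ring
    rw [h3]
    exact this
  have h3 : (m / (m - 1)) ^ 4 ≤ Real.exp (4 / (m - 1)) := by
    have h4 := pow_le_pow_left₀ (div_nonneg hm0.le hm1.le) h2 4
    rw [← Real.exp_nat_mul] at h4
    have h5 : ((4 : ℕ) : ℝ) * (1 / (m - 1)) = 4 / (m - 1) := by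
      push_cast
      ring
    rw [h5] at h4
    exact h4
  have h4 : (k / (m - 1)) ^ 4 = (k / m) ^ 4 * (m / (m - 1)) ^ 4 := by
    rw [← mul_pow]
    congr 1
    field_simp
  have hkm : 0 ≤ (k / m) ^ 4 := by positivity
  have hmm : 0 ≤ (m / (m - 1)) ^ 4 := by positivity
  have h5 : (1 - 4 / m + A / m ^ 2) * (m / (m - 1)) ^ 4 ≤
      Real.exp (-(4 / m) + A / m ^ 2) * Real.exp (4 / (m - 1)) :=
    (mul_le_mul_of_nonneg_right h1 hmm).trans
      (mul_le_mul_of_nonneg_left h3 (Real.exp_pos _).le)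
  have h6 : Real.exp (-(4 / m) + A / m ^ 2) * Real.exp (4 / (m - 1)) *
      Real.exp ((A + 4) * (1 / k - 1 / (m - 1))) ≤ Real.exp ((A + 4) * (1 / k - 1 / m)) := by
    rw [← Real.exp_add, ← Real.exp_add]
    apply Real.exp_le_exp.2
    have e1 : (A + 4) * (1 / k - 1 / m) -
        (-(4 / m) + A / m ^ 2 + 4 / (m - 1) + (A + 4) * (1 / k - 1 / (m - 1))) =
        A / (m ^ 2 * (m - 1)) := by
      field_simp
      ring
    have e2 : 0 ≤ A / (m ^ 2 * (m - 1)) := by positivity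
    linarith
  calc (1 - 4 / m + A / m ^ 2) * ((k / (m - 1)) ^ 4 * Real.exp ((A + 4) * (1 / k - 1 / (m - 1))))
      = (k / m) ^ 4 * (((1 - 4 / m + A / m ^ 2) * (m / (m - 1)) ^ 4) *
          Real.exp ((A + 4) * (1 / k - 1 / (m - 1)))) := by rw [h4]; ring
    _ ≤ (k / m) ^ 4 * (Real.exp (-(4 / m) + A / m ^ 2) * Real.exp (4 / (m - 1)) *
          Real.exp ((A + 4) * (1 / k - 1 / (m - 1)))) :=
        mul_le_mul_of_nonneg_left (mul_le_mul_of_nonneg_right h5 (Real.exp_pos _).le) hkm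
    _ ≤ (k / m) ^ 4 * Real.exp ((A + 4) * (1 / k - 1 / m)) :=
        mul_le_mul_of_nonneg_left h6 hkm

theorem ep_step {K Cp : ℝ} (hK : 1 ≤ K) (hCp : 0 ≤ Cp) {N m k : ℕ} {I : Finset Li} {z : Li → ℝ}
    {π : ℤ × ℤ → ℝ} (hk : 1 ≤ k) (hkm : k < m) (hv : Vd N m I) (hz : St N I z)
    (hw : ∀ e ∈ Sq N I, wt z e ≤ K / m) (hπ : Tp Cp N m I z π) :
    ∑ e ∈ Sq N I, π e * EP (16 * (Cp + K) + 4) N k (m - 1) (rm I e) ≤ EP (16 * (Cp + K) + 4) N k m I := by
  have hm1 : 1 ≤ m := by omega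
  have hm2 : (2 : ℝ) ≤ m := by
    have : 2 ≤ m := by omega
    exact_mod_cast this
  have hk0 : (0 : ℝ) < k := by exact_mod_cast hk
  have hcast : ((m - 1 : ℕ) : ℝ) = (m : ℝ) - 1 := by
    rw [Nat.cast_sub hm1, Nat.cast_one]
  set A : ℝ := 16 * (Cp + K) with hA
  have hA0 : 0 ≤ A := by positivity
  -- the expected number of pairs
  have hS : ∑ e ∈ Sq N I, π e * (∑ l ∈ (rm I e).filter (fun l => ¬ rc l),
      ((Sl N (rm I e) l).card : ℝ) * ((Sl N (rm I e) l).card - 1)) ≤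
      (∑ l ∈ I.filter (fun l => ¬ rc l), ((Sl N I l).card : ℝ) * ((Sl N I l).card - 1)) *
        (1 - 4 / m + A / m ^ 2) := by
    have h1 : ∑ e ∈ Sq N I, π e * (∑ l ∈ (rm I e).filter (fun l => ¬ rc l),
        ((Sl N (rm I e) l).card : ℝ) * ((Sl N (rm I e) l).card - 1)) ≤
        ∑ e ∈ Sq N I, π e * ∑ l ∈ I.filter (fun l => ¬ rc l), ∑ p ∈ (Sl N I l).offDiag,
          (if ∀ l' ∈ Lam p, ¬ On e l' then (1 : ℝ) else 0) :=
      Finset.sum_le_sum fun e he => mul_le_mul_of_nonneg_left (pair_rm e) (hπ.nn e he)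
    refine h1.trans ?_
    have h2 : ∑ e ∈ Sq N I, π e * ∑ l ∈ I.filter (fun l => ¬ rc l), ∑ p ∈ (Sl N I l).offDiag,
          (if ∀ l' ∈ Lam p, ¬ On e l' then (1 : ℝ) else 0) =
        ∑ l ∈ I.filter (fun l => ¬ rc l), ∑ p ∈ (Sl N I l).offDiag,
          ∑ e ∈ (Sq N I).filter (fun e => ∀ l' ∈ Lam p, ¬ On e l'), π e := by
      simp only [Finset.mul_sum]
      rw [Finset.sum_comm]
      refine Finset.sum_congr rfl fun l _ => ?_
      rw [Finset.sum_comm]
      refine Finset.sum_congr rfl fun p _ => ?_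
      rw [Finset.sum_filter]
      refine Finset.sum_congr rfl fun e _ => ?_
      split_ifs <;> simp
    rw [h2, Finset.sum_mul]
    refine Finset.sum_le_sum fun l hl => ?_
    have hrc := (mem_filter.1 hl).2
    rw [← off_card, ← nsmul_eq_mul, ← Finset.sum_const]
    refine Finset.sum_le_sum fun p hp => ?_
    have h3 := surv hK hCp hm1 hv hz hw hπ (sub_Lam hp)
    have h4 : ∑ l' ∈ Lam p, ∑ e ∈ Sl N I l', wt z e = 4 := by
      have h5 : ∀ l' ∈ Lam p, ∑ e ∈ Sl N I l', wt z e = 1 := fun l' hl' =>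
        (mass_dg hz (sub_Lam hp hl')).2.2.2 (rc_Lam hl')
      rw [Finset.sum_congr rfl h5, Finset.sum_const, card_Lam hrc hp]
      norm_num
    rw [h4, card_Lam hrc hp] at h3
    have h6 := (abs_le.1 h3).2
    have h7 : (Cp + K) * ((4 : ℕ) : ℝ) ^ 2 / (m : ℝ) ^ 2 = A / (m : ℝ) ^ 2 := by
      rw [hA]
      push_cast
      ring
    rw [h7] at h6
    linarith
  set c : ℝ := ((k : ℝ) / ((m : ℝ) - 1)) ^ 4 * Real.exp ((A + 4) * (1 / k - 1 / ((m : ℝ) - 1))) with hc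
  have hc0 : 0 ≤ c := by
    have : (0 : ℝ) < (m : ℝ) - 1 := by linarith
    positivity
  have hL : ∑ e ∈ Sq N I, π e * EP (A + 4) N k (m - 1) (rm I e) =
      (∑ e ∈ Sq N I, π e * (∑ l ∈ (rm I e).filter (fun l => ¬ rc l),
        ((Sl N (rm I e) l).card : ℝ) * ((Sl N (rm I e) l).card - 1))) * c := by
    rw [Finset.sum_mul]
    refine Finset.sum_congr rfl fun e _ => ?_
    unfold EP
    rw [hcast, hc]
    ring_nf
  rw [hL]
  have hS0 : 0 ≤ ∑ l ∈ I.filter (fun l => ¬ rc l), ((Sl N I l).card : ℝ) * ((Sl N I l).card - 1) :=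
    Finset.sum_nonneg fun l _ => nat_pair _
  have h8 := num_step hA0 hm2 hk0
  have h9 := mul_le_mul_of_nonneg_left h8 hS0
  refine (mul_le_mul_of_nonneg_right hS hc0).trans ?_
  have hR : EP (A + 4) N k m I =
      (∑ l ∈ I.filter (fun l => ¬ rc l), ((Sl N I l).card : ℝ) * ((Sl N I l).card - 1)) *
        (((k : ℝ) / m) ^ 4 * Real.exp ((A + 4) * (1 / k - 1 / m))) := by
    unfold EP
    rw [← mul_assoc]
  rw [hR]
  refine le_trans (le_of_eq ?_) h9
  rw [hc]
  ring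

theorem ep_nonneg (Cn : ℝ) (N k m : ℕ) (I : Finset Li) : 0 ≤ EP Cn N k m I := by
  unfold EP
  refine mul_nonneg (mul_nonneg (Finset.sum_nonneg fun l _ => nat_pair _) (by positivity))
    (Real.exp_pos _).le

theorem ep_start {Cn : ℝ} (hC : 0 ≤ Cn) {N k : ℕ} (hk : 1 ≤ k) (hkN : k ≤ N) :
    EP Cn N k N (full N) ≤ 4 * Real.exp Cn * (k : ℝ) ^ 4 / N := by
  classical
  have hN : 1 ≤ N := hk.trans hkN
  have hN0 : (0 : ℝ) < N := by exact_mod_cast hN
  have hk1 : (1 : ℝ) ≤ k := by exact_mod_cast hk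
  have hv := vd_full hN
  have h1 : ∑ l ∈ (full N).filter (fun l => ¬ rc l),
      ((Sl N (full N) l).card : ℝ) * ((Sl N (full N) l).card - 1) ≤ 4 * (N : ℝ) ^ 3 := by
    have h2 : ∀ l ∈ (full N).filter (fun l => ¬ rc l),
        ((Sl N (full N) l).card : ℝ) * ((Sl N (full N) l).card - 1) ≤ (N : ℝ) ^ 2 := by
      intro l hl
      have h3 := Sl_card hv (mem_filter.1 hl).1
      have h4 : ((Sl N (full N) l).card : ℝ) ≤ N := by exact_mod_cast h3
      have h5 : (0 : ℝ) ≤ ((Sl N (full N) l).card : ℝ) := Nat.cast_nonneg _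
      nlinarith
    have h6 : (((full N).filter (fun l => ¬ rc l)).card : ℝ) ≤ 4 * N := by
      have h7 : (full N).filter (fun l => ¬ rc l) ⊆
          (full N).filter (fun l => l.1 = 2) ∪ (full N).filter (fun l => l.1 = 3) := by
        intro l hl
        obtain ⟨a1, a2⟩ := mem_filter.1 hl
        have a3 : l.1 = 2 ∨ l.1 = 3 := by
          unfold rc at a2
          have := l.1.2
          rcases Nat.lt_or_ge (l.1 : ℕ) 3 with h | h
          · left
            exact Fin.ext (by show (l.1 : ℕ) = 2; omega)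
          · right
            exact Fin.ext (by show (l.1 : ℕ) = 3; omega)
        rcases a3 with a3 | a3
        · exact mem_union_left _ (mem_filter.2 ⟨a1, a3⟩)
        · exact mem_union_right _ (mem_filter.2 ⟨a1, a3⟩)
      have h8 := (card_le_card h7).trans (card_union_le _ _)
      have h9 := hv.cdg 2 (by decide)
      have h10 := hv.cdg 3 (by decide)
      have h11 : ((full N).filter (fun l => ¬ rc l)).card ≤ 4 * N := by omega
      exact_mod_cast h11
    refine (Finset.sum_le_sum h2).trans ?_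
    rw [Finset.sum_const, nsmul_eq_mul]
    have h12 := mul_le_mul_of_nonneg_right h6 (sq_nonneg (N : ℝ))
    nlinarith
  have h2 : Real.exp (Cn * (1 / k - 1 / N)) ≤ Real.exp Cn := by
    apply Real.exp_le_exp.2
    have h3 : 1 / (k : ℝ) ≤ 1 := by
      rw [div_le_one (by linarith)]
      exact hk1
    have h4 : 0 ≤ 1 / (N : ℝ) := by positivity
    have h5 : Cn * (1 / k - 1 / N) ≤ Cn * 1 := mul_le_mul_of_nonneg_left (by linarith) hC
    linarith
  unfold EP
  have h3 : (0 : ℝ) ≤ ((k : ℝ) / N) ^ 4 := by positivity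
  have h4 : (∑ l ∈ (full N).filter (fun l => ¬ rc l),
      ((Sl N (full N) l).card : ℝ) * ((Sl N (full N) l).card - 1)) * ((k : ℝ) / N) ^ 4 *
      Real.exp (Cn * (1 / k - 1 / N)) ≤ 4 * (N : ℝ) ^ 3 * ((k : ℝ) / N) ^ 4 * Real.exp Cn :=
    mul_le_mul (mul_le_mul_of_nonneg_right h1 h3) h2 (Real.exp_pos _).le (by positivity)
  have h5 : 4 * (N : ℝ) ^ 3 * ((k : ℝ) / N) ^ 4 * Real.exp Cn = 4 * Real.exp Cn * (k : ℝ) ^ 4 / N := by
    field_simp
  rw [← h5]
  refine le_trans (le_of_eq ?_) h4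
  congr!

theorem ep_viol {Cn : ℝ} {N m : ℕ} {I : Finset Li} (hm : 1 ≤ m) {l : Li} (hl : l ∈ I) (hrc : ¬ rc l)
    (h : 2 ≤ (Sl N I l).card) : 1 ≤ EP Cn N m m I := by
  have hm0 : (m : ℝ) ≠ 0 := by
    have : 0 < m := hm
    exact_mod_cast this.ne'
  unfold EP
  rw [div_self hm0, sub_self, mul_zero, Real.exp_zero, one_pow, mul_one, mul_one]
  have h1 : ((Sl N I l).card : ℝ) * ((Sl N I l).card - 1) ≤
      ∑ l ∈ I.filter (fun l => ¬ rc l), ((Sl N I l).card : ℝ) * ((Sl N I l).card - 1) :=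
    Finset.single_le_sum (f := fun l => ((Sl N I l).card : ℝ) * ((Sl N I l).card - 1))
      (fun l _ => nat_pair _) (mem_filter.2 ⟨hl, hrc⟩)
  have h2 : (2 : ℝ) ≤ ((Sl N I l).card : ℝ) := by exact_mod_cast h
  have h3 : (1 : ℝ) ≤ ((Sl N I l).card : ℝ) * ((Sl N I l).card - 1) := by nlinarith
  refine h3.trans (h1.trans (le_of_eq ?_))
  congr!

end Pool.Agent.NQL
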