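import Pool.Agent.NQL.Defs
import Pool.Agent.NQL.CFam
import Pool.Agent.NQL.CGam
import Pool.Agent.NQL.CBin
import Pool.Agent.NQL.CPar

/-!
# NQL-CPsD: the supermartingale function: definition and one step
-/

set_option autoImplicit false

open Finset

namespace Pool.Agent.NQL

open Pool.Agent.NQ (board dsum F Ent Dg phi ln Q Qset QS NonAtt bern)
open Pool.Agent.NQR (Adm Opt Bd Rf hS hD hh InR)

open Classical in
/-- sum of all exponential functions with target sizes between `m0` and `m` -/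
noncomputable def Psi (L c1 C1 c2 C2 Cn1 Cn2 t1 : ℝ) (γ b : ℕ → ℝ) (m0 m1 N : ℕ) (W : ℤ × ℤ → ℝ) (m : ℕ)
    (I : Finset Li) : ℝ :=
  ∑ k ∈ Finset.Icc m0 m,
    ((∑ l ∈ full N, if rc l ∨ t1 * N ≤ (k : ℝ) then
        EL c1 C1 γ b N W k m I l 1 + EL c1 C1 γ b N W k m I l (-1) else 0) +
      (∑ x ∈ Finset.Ico (0 : ℤ) N, ∑ x' ∈ Finset.Ico (0 : ℤ) N,
        if x = x' then 0 else EG L c2 C2 b N W k m I x x') +
      (∑ l ∈ full N, if ¬ rc l ∧ m1 < k then EN Cn1 N k m I l else 0) +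
      (if k ≤ m1 then EP Cn2 N k m I else 0))

private lemma ex_sum {ι : Type*} (S : Finset (ℤ × ℤ)) (π : ℤ × ℤ → ℝ) (F : Finset ι)
    (X : ι → (ℤ × ℤ) → ℝ) (Y : ι → ℝ) (h : ∀ i ∈ F, ∑ e ∈ S, π e * X i e ≤ Y i) :
    ∑ e ∈ S, π e * ∑ i ∈ F, X i e ≤ ∑ i ∈ F, Y i := by
  have h1 : ∑ e ∈ S, π e * ∑ i ∈ F, X i e = ∑ i ∈ F, ∑ e ∈ S, π e * X i e := by
    rw [sum_comm]
    refine sum_congr rfl fun e _ => ?_
    rw [mul_sum]
  rw [h1]
  exact sum_le_sum h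

private lemma ex_add (S : Finset (ℤ × ℤ)) (π : ℤ × ℤ → ℝ) {X X' : (ℤ × ℤ) → ℝ} {Y Y' : ℝ}
    (h : ∑ e ∈ S, π e * X e ≤ Y) (h' : ∑ e ∈ S, π e * X' e ≤ Y') :
    ∑ e ∈ S, π e * (X e + X' e) ≤ Y + Y' := by
  have h1 : ∑ e ∈ S, π e * (X e + X' e) = ∑ e ∈ S, π e * X e + ∑ e ∈ S, π e * X' e := by
    rw [← sum_add_distrib]
    refine sum_congr rfl fun e _ => ?_
    rw [mul_add]
  rw [h1]
  exact add_le_add h h'

private lemma ex_ite (S : Finset (ℤ × ℤ)) (π : ℤ × ℤ → ℝ) {X : (ℤ × ℤ) → ℝ} {Y : ℝ} (c : Prop)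
    [Decidable c] (h : c → ∑ e ∈ S, π e * X e ≤ Y) :
    ∑ e ∈ S, π e * (if c then X e else 0) ≤ if c then Y else 0 := by
  by_cases hc : c
  · simp only [if_pos hc]
    exact h hc
  · simp only [if_neg hc, mul_zero, sum_const_zero]
    exact le_rfl

private lemma ex_ite' (S : Finset (ℤ × ℤ)) (π : ℤ × ℤ → ℝ) {X : (ℤ × ℤ) → ℝ} {Y : ℝ} (c : Prop)
    [Decidable c] (h : ¬ c → ∑ e ∈ S, π e * X e ≤ Y) :
    ∑ e ∈ S, π e * (if c then 0 else X e) ≤ if c then 0 else Y := by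
  by_cases hc : c
  · simp only [if_pos hc, mul_zero, sum_const_zero]
    exact le_rfl
  · simp only [if_neg hc]
    exact h hc

private lemma term_nonneg (L c1 C1 c2 C2 Cn1 Cn2 t1 : ℝ) (γ b : ℕ → ℝ) (m1 N : ℕ) (W : ℤ × ℤ → ℝ)
    (m k : ℕ) (I : Finset Li) : 0 ≤
    ((∑ l ∈ full N, if rc l ∨ t1 * N ≤ (k : ℝ) then
        EL c1 C1 γ b N W k m I l 1 + EL c1 C1 γ b N W k m I l (-1) else 0) +
      (∑ x ∈ Finset.Ico (0 : ℤ) N, ∑ x' ∈ Finset.Ico (0 : ℤ) N,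
        if x = x' then 0 else EG L c2 C2 b N W k m I x x') +
      (∑ l ∈ full N, if ¬ rc l ∧ m1 < k then EN Cn1 N k m I l else 0) +
      (if k ≤ m1 then EP Cn2 N k m I else 0)) := by
  refine add_nonneg (add_nonneg (add_nonneg ?_ ?_) ?_) ?_
  · refine sum_nonneg fun l _ => ?_
    split_ifs
    · exact add_nonneg (el_nonneg _ _ _ _ _ _ _ _ _ _ _) (el_nonneg _ _ _ _ _ _ _ _ _ _ _)
    · exact le_rfl
  · refine sum_nonneg fun x _ => sum_nonneg fun x' _ => ?_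
    split_ifs
    · exact le_rfl
    · exact eg_nonneg _ _ _ _ _ _ _ _ _ _ _
  · refine sum_nonneg fun l _ => ?_
    split_ifs
    · exact en_nonneg _ _ _ _ _ _
    · exact le_rfl
  · split_ifs
    · exact ep_nonneg _ _ _ _ _
    · exact le_rfl

theorem psi_nonneg (L c1 C1 c2 C2 Cn1 Cn2 t1 : ℝ) (γ b : ℕ → ℝ) (m0 m1 N : ℕ) (W : ℤ × ℤ → ℝ) (m : ℕ)
    (I : Finset Li) : 0 ≤ Psi L c1 C1 c2 C2 Cn1 Cn2 t1 γ b m0 m1 N W m I := by
  unfold Psi
  exact sum_nonneg fun k _ => term_nonneg _ _ _ _ _ _ _ _ _ _ _ _ _ _ _ _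

theorem psi_step (L K Cp : ℝ) (hL : 1 ≤ L) (hK : 1 ≤ K) (hCp : 0 ≤ Cp) : ∃ c1 C1 c2 C2 : ℝ, 1 ≤ c1 ∧ 1 ≤ C1 ∧
    1 ≤ c2 ∧ 1 ≤ C2 ∧ ∀ (t1 : ℝ) (γ b : ℕ → ℝ) (m0 m1 N m : ℕ) (I : Finset Li) (W : ℤ × ℤ → ℝ)
      (A B : ℤ → ℝ) (z : Li → ℝ) (π : ℤ × ℤ → ℝ) (d : ℝ), 1 ≤ m0 → m0 < m → m ≤ N → Rf L N W A B → Vd N m I →
      St N I z → (∀ e ∈ Sq N I, wt z e ≤ K / m) → Tp Cp N m I z π → Cl d N m W I z →
      (∀ k, 0 < γ k ∧ γ k ≤ 1 / 4) → (∀ l ∈ I, rc l → |YY N W m I l - 1| ≤ γ m) →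
      (t1 * N ≤ m → ∀ l ∈ I, ¬ rc l → |YY N W m I l - TT N W m l| ≤ γ m) →
      ((if t1 * N ≤ m then γ m else 0) + 6 * d) / m + c1 / m ^ 2 ≤ b m → (d + 1 / m) / m ≤ b m →
      ∑ e ∈ Sq N I, π e *
        Psi L c1 C1 c2 C2 (4 * (Cp + K) + 2) (16 * (Cp + K) + 4) t1 γ b m0 m1 N W (m - 1) (rm I e) ≤
      Psi L c1 C1 c2 C2 (4 * (Cp + K) + 2) (16 * (Cp + K) + 4) t1 γ b m0 m1 N W m I := by
  obtain ⟨c1, C1, hc1, hC1, hel⟩ := el_step L K Cp hL hK hCp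
  obtain ⟨c2, C2, hc2, hC2, heg⟩ := eg_step L K Cp hL hK hCp
  refine ⟨c1, C1, c2, C2, hc1, hC1, hc2, hC2, ?_⟩
  intro t1 γ b m0 m1 N m I W A B z π d hm0 hm0m hmN hR hv hz hw hπ hcl hγ hrc hdg hb1 hb2
  have hm : 1 ≤ m := by omega
  have hmr : (0 : ℝ) < m := by exact_mod_cast hm
  have hI0 : ∀ e l, l ∉ I → l ∉ rm I e := fun e l hl h => hl (mem_rm.1 h).1
  -- the single lines
  have hEL : ∀ k, 1 ≤ k → k < m → ∀ l, (rc l ∨ t1 * N ≤ (k : ℝ)) → ∀ s : ℝ, (s = 1 ∨ s = -1) →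
      ∑ e ∈ Sq N I, π e * EL c1 C1 γ b N W k (m - 1) (rm I e) l s ≤ EL c1 C1 γ b N W k m I l s := by
    intro k hk hkm l hl s hs
    by_cases hlI : l ∈ I
    · by_cases hr : rc l
      · have h1 := tt_rc (N := N) (m := m) (W := W) hr
        have h2 := hrc l hlI hr
        refine hel γ b N m k I W A B z π d hk hkm hmN hR hv hz hw hπ hcl (hγ k).1
          (by linarith [(hγ k).2]) l hlI ?_ ?_ s hs
        · linarith [(abs_le.1 h2).2, (hγ m).2]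
        · rw [h1, sub_self, zero_mul, zero_add]
          refine le_trans ?_ hb1
          have h3 : (0 : ℝ) ≤ if t1 * N ≤ (m : ℝ) then γ m else 0 := by
            split_ifs
            · exact (hγ m).1.le
            · exact le_rfl
          gcongr
          linarith
      · have hk1 : t1 * N ≤ (k : ℝ) := hl.resolve_left hr
        have hkm' : (k : ℝ) ≤ m := by exact_mod_cast hkm.le
        have ht : t1 * N ≤ (m : ℝ) := hk1.trans hkm'
        have h2 := hdg ht l hlI hr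
        obtain ⟨h3, h4, h5⟩ := tt_bd hL hR hm hmN hr
        have hL0 : (0 : ℝ) ≤ 1 / L := by positivity
        refine hel γ b N m k I W A B z π d hk hkm hmN hR hv hz hw hπ hcl (hγ k).1
          (by linarith [(hγ k).2]) l hlI ?_ ?_ s hs
        · linarith [(abs_le.1 h2).2, (hγ m).2]
        · refine le_trans ?_ hb1
          rw [if_pos ht]
          have h6 : (1 - TT N W m l) * |YY N W m I l - TT N W m l| ≤ γ m := by
            calc (1 - TT N W m l) * |YY N W m I l - TT N W m l| ≤ 1 * γ m :=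
                  mul_le_mul (by linarith) h2 (abs_nonneg _) zero_le_one
              _ = γ m := one_mul _
          gcongr
    · have h1 : ∀ e, EL c1 C1 γ b N W k (m - 1) (rm I e) l s = 0 := fun e => by
        unfold EL
        rw [if_neg (hI0 e l hlI)]
      have h2 : EL c1 C1 γ b N W k m I l s = 0 := by
        unfold EL
        rw [if_neg hlI]
      rw [h2]
      simp only [h1, mul_zero, sum_const_zero]
      exact le_rfl
  unfold Psi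
  have hsub : Finset.Icc m0 (m - 1) ⊆ Finset.Icc m0 m := Finset.Icc_subset_Icc_right (by omega)
  refine le_trans ?_ (sum_le_sum_of_subset_of_nonneg hsub
    fun k _ _ => term_nonneg _ _ _ _ _ _ _ _ _ _ _ _ _ _ _ _)
  refine ex_sum _ _ _ _ _ fun k hk => ?_
  rw [mem_Icc] at hk
  have hk1 : 1 ≤ k := by omega
  have hkm : k < m := by omega
  refine ex_add _ _ (ex_add _ _ (ex_add _ _ ?_ ?_) ?_) ?_
  · refine ex_sum _ _ _ _ _ fun l _ => ex_ite _ _ _ fun hc => ?_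
    exact ex_add _ _ (hEL k hk1 hkm l hc 1 (Or.inl rfl)) (hEL k hk1 hkm l hc (-1) (Or.inr rfl))
  · refine ex_sum _ _ _ _ _ fun x _ => ex_sum _ _ _ _ _ fun x' _ => ex_ite' _ _ _ fun hc => ?_
    exact heg b N m k I W A B z π d hk1 hkm hmN hR hv hz hw hπ hcl hb2 x x' hc
  · refine ex_sum _ _ _ _ _ fun l _ => ex_ite _ _ _ fun hc => ?_
    exact en_step hK hCp hk1 hkm hv hz hw hπ hc.1
  · exact ex_ite _ _ _ fun _ => ep_step hK hCp hk1 hkm hv hz hw hπ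

end Pool.Agent.NQL
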