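import Pool.Agent.NQL.Defs
import Pool.Agent.NQL.ABas
import Pool.Agent.NQL.CFam
import Pool.Agent.NQL.CGam
import Pool.Agent.NQL.CBin
import Pool.Agent.NQL.CPar
import Pool.Agent.NQL.CPsD

/-!
# NQL-CPsV: the supermartingale function at bad instances

PLAN. The term `k = m` of `Psi`: if `lrc` fails for `l`: `el_viol` (`TT = 1`, `rc l`); if `ldg` fails: `t1 N ≤ m`, `el_viol`; if `big` fails: `m1 < m`, `en_viol`; if `sma` fails: `m ≤ m1`, `ep_viol`; if `cg`
fails for `x ≠ x'`: `x, x' ∈ [0,N)` because `I ⊆ full N`, `eg_viol`. All other terms are nonnegative; `l ∈ I ⊆ full N`.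
-/

set_option autoImplicit false

open Finset

namespace Pool.Agent.NQL

open Pool.Agent.NQ (board dsum F Ent Dg phi ln Q Qset QS NonAtt bern)
open Pool.Agent.NQR (Adm Opt Bd Rf hS hD hh InR)

theorem psi_viol {L c1 C1 c2 C2 Cn1 Cn2 t1 : ℝ} (hL : 1 ≤ L) (hc1 : 1 ≤ c1) (hc2 : 1 ≤ c2) {γ b : ℕ → ℝ}
    {m0 m1 N m : ℕ} {W : ℤ × ℤ → ℝ} {I : Finset Li} (h0 : 1 ≤ m0) (hm : m0 ≤ m) (hγ : ∀ k, 0 < γ k)
    (hv : Vd N m I) (h : ¬ GLo L t1 γ m1 N m W I) :
    1 ≤ Psi L c1 C1 c2 C2 Cn1 Cn2 t1 γ b m0 m1 N W m I := by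
  classical
  have hm1 : 1 ≤ m := h0.trans hm
  -- the four sums
  set fA : ℕ → Li → ℝ := fun k l => if rc l ∨ t1 * N ≤ (k : ℝ) then
        EL c1 C1 γ b N W k m I l 1 + EL c1 C1 γ b N W k m I l (-1) else 0 with hfA
  set fB : ℕ → ℤ → ℤ → ℝ := fun k x x' => if x = x' then 0 else EG L c2 C2 b N W k m I x x' with hfB
  set fC : ℕ → Li → ℝ := fun k l => if ¬ rc l ∧ m1 < k then EN Cn1 N k m I l else 0 with hfC
  set fD : ℕ → ℝ := fun k => if k ≤ m1 then EP Cn2 N k m I else 0 with hfD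
  have nA : ∀ k l, 0 ≤ fA k l := by
    intro k l
    simp only [hfA]
    split_ifs
    · exact add_nonneg (el_nonneg _ _ _ _ _ _ _ _ _ _ _) (el_nonneg _ _ _ _ _ _ _ _ _ _ _)
    · exact le_rfl
  have nB : ∀ k x x', 0 ≤ fB k x x' := by
    intro k x x'
    simp only [hfB]
    split_ifs
    · exact le_rfl
    · exact eg_nonneg _ _ _ _ _ _ _ _ _ _ _
  have nC : ∀ k l, 0 ≤ fC k l := by
    intro k l
    simp only [hfC]
    split_ifs
    · exact en_nonneg _ _ _ _ _ _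
    · exact le_rfl
  have nD : ∀ k, 0 ≤ fD k := by
    intro k
    simp only [hfD]
    split_ifs
    · exact ep_nonneg _ _ _ _ _
    · exact le_rfl
  have sA : ∀ k, 0 ≤ ∑ l ∈ full N, fA k l := fun k => Finset.sum_nonneg fun l _ => nA k l
  have sB : ∀ k, 0 ≤ ∑ x ∈ Finset.Ico (0 : ℤ) N, ∑ x' ∈ Finset.Ico (0 : ℤ) N, fB k x x' :=
    fun k => Finset.sum_nonneg fun x _ => Finset.sum_nonneg fun x' _ => nB k x x'
  have sC : ∀ k, 0 ≤ ∑ l ∈ full N, fC k l := fun k => Finset.sum_nonneg fun l _ => nC k l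
  have hterm : (∑ l ∈ full N, fA m l) + (∑ x ∈ Finset.Ico (0 : ℤ) N, ∑ x' ∈ Finset.Ico (0 : ℤ) N, fB m x x') +
      (∑ l ∈ full N, fC m l) + fD m ≤ Psi L c1 C1 c2 C2 Cn1 Cn2 t1 γ b m0 m1 N W m I := by
    have h1 := Finset.single_le_sum (s := Finset.Icc m0 m)
      (f := fun k => (∑ l ∈ full N, fA k l) +
        (∑ x ∈ Finset.Ico (0 : ℤ) N, ∑ x' ∈ Finset.Ico (0 : ℤ) N, fB k x x') +
        (∑ l ∈ full N, fC k l) + fD k)
      (fun k _ => add_nonneg (add_nonneg (add_nonneg (sA k) (sB k)) (sC k)) (nD k))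
      (Finset.mem_Icc.2 ⟨hm, le_rfl⟩)
    refine h1.trans (le_of_eq ?_)
    unfold Psi
    rfl
  have hA : ∀ l ∈ full N, (rc l ∨ t1 * N ≤ (m : ℝ)) →
      EL c1 C1 γ b N W m m I l 1 + EL c1 C1 γ b N W m m I l (-1) ≤
        Psi L c1 C1 c2 C2 Cn1 Cn2 t1 γ b m0 m1 N W m I := by
    intro l hl hrc
    have h1 : fA m l ≤ ∑ l ∈ full N, fA m l :=
      Finset.single_le_sum (fun l _ => nA m l) hl
    have h2 : fA m l = EL c1 C1 γ b N W m m I l 1 + EL c1 C1 γ b N W m m I l (-1) := if_pos hrc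
    have h3 := sB m
    have h4 := sC m
    have h5 := nD m
    rw [← h2]
    linarith
  have hB : ∀ x ∈ Finset.Ico (0 : ℤ) N, ∀ x' ∈ Finset.Ico (0 : ℤ) N, x ≠ x' →
      EG L c2 C2 b N W m m I x x' ≤ Psi L c1 C1 c2 C2 Cn1 Cn2 t1 γ b m0 m1 N W m I := by
    intro x hx x' hx' hne
    have h1 : ∑ x' ∈ Finset.Ico (0 : ℤ) N, fB m x x' ≤
        ∑ x ∈ Finset.Ico (0 : ℤ) N, ∑ x' ∈ Finset.Ico (0 : ℤ) N, fB m x x' :=
      Finset.single_le_sum (f := fun x => ∑ x' ∈ Finset.Ico (0 : ℤ) N, fB m x x')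
        (fun x _ => Finset.sum_nonneg fun x' _ => nB m x x') hx
    have h1' : fB m x x' ≤ ∑ x' ∈ Finset.Ico (0 : ℤ) N, fB m x x' :=
      Finset.single_le_sum (fun x' _ => nB m x x') hx'
    have h2 : fB m x x' = EG L c2 C2 b N W m m I x x' := if_neg hne
    have h3 := sA m
    have h4 := sC m
    have h5 := nD m
    rw [← h2]
    linarith
  have hC : ∀ l ∈ full N, (¬ rc l ∧ m1 < m) → EN Cn1 N m m I l ≤
        Psi L c1 C1 c2 C2 Cn1 Cn2 t1 γ b m0 m1 N W m I := by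
    intro l hl hrc
    have h1 : fC m l ≤ ∑ l ∈ full N, fC m l :=
      Finset.single_le_sum (fun l _ => nC m l) hl
    have h2 : fC m l = EN Cn1 N m m I l := if_pos hrc
    have h3 := sB m
    have h4 := sA m
    have h5 := nD m
    rw [← h2]
    linarith
  have hD : m ≤ m1 → EP Cn2 N m m I ≤ Psi L c1 C1 c2 C2 Cn1 Cn2 t1 γ b m0 m1 N W m I := by
    intro hmm
    have h2 : fD m = EP Cn2 N m m I := if_pos hmm
    have h3 := sB m
    have h4 := sA m
    have h5 := sC m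
    rw [← h2]
    linarith
  by_contra hlt
  push Not at hlt
  apply h
  refine ⟨hv, ?_, ?_, ?_, ?_, ?_⟩
  · intro l hl hrc
    by_contra hcon
    push Not at hcon
    have hTT : TT N W m l = 1 := if_pos hrc
    have h1 := el_viol (b := b) (C := C1) hc1 hm1 hl (hγ m) (W := W) (N := N) (by rw [hTT]; exact hcon)
    have h2 := hA l (hv.sub hl) (Or.inl hrc)
    linarith
  · intro ht l hl hrc
    by_contra hcon
    push Not at hcon
    have h1 := el_viol (b := b) (C := C1) hc1 hm1 hl (hγ m) (W := W) (N := N) hcon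
    have h2 := hA l (hv.sub hl) (Or.inr ht)
    linarith
  · intro hmm l hl hrc
    by_contra hcon
    push Not at hcon
    have h1 := en_viol (Cn := Cn1) hm1 hl hcon
    have h2 := hC l (hv.sub hl) ⟨hrc, hmm⟩
    linarith
  · intro hmm l hl hrc
    by_contra hcon
    push Not at hcon
    have h1 := ep_viol (Cn := Cn2) (N := N) hm1 hl hrc (by omega)
    have h2 := hD hmm
    linarith
  · intro x x' hx hx' hne
    by_contra hcon
    push Not at hcon
    have h1 := eg_viol (C := C2) (b := b) hL hc2 hm1 hx hx' hcon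
    have hmem : ∀ y : ℤ, ((0, y) : Li) ∈ I → y ∈ Finset.Ico (0 : ℤ) N := by
      intro y hy
      obtain ⟨e, he, hey⟩ := mem_full.1 (hv.sub hy)
      have he1 : e.1 = y := hey
      rw [board, Finset.mem_product] at he
      rw [← he1]
      exact he.1
    have h2 := hB x (hmem x hx) x' (hmem x' hx') hne
    linarith

end Pool.Agent.NQL
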