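import Pool.Agent.NQL.Defs
import Pool.Agent.NQL.ABas
import Pool.Agent.NQL.BNom

/-!
# NQL-BGlo: instances for the lower bound are good

PLAN. `lmi`: `YY ≤ (L³/m) card (Sl l)` (`wn_bd`); for `m1 < m`: `< 8 L³ (m/N + m^(-1/4))` because `m^(3/4)/m = m^(-1/4)`; for `m ≤ m1`: `≤ L³/m ≤ L³ m^(-1/4)`.
-/

set_option autoImplicit false

open Finset

namespace Pool.Agent.NQL

open Pool.Agent.NQ (board dsum F Ent Dg phi ln Q Qset QS NonAtt bern)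
open Pool.Agent.NQR (Adm Opt Bd Rf hS hD hh InR)

theorem glo_good {L t1 ε ε' : ℝ} (hL : 1 ≤ L) {γ : ℕ → ℝ} {m1 N m : ℕ} {W : ℤ × ℤ → ℝ} {A B : ℤ → ℝ}
    {I : Finset Li} (hR : Rf L N W A B) (h1 : 1 ≤ m) (h2 : m ≤ N) (hγ : γ m ≤ ε) (hγ' : t1 * N ≤ m → γ m ≤ ε')
    (h : GLo L t1 γ m1 N m W I) : Good L ε t1 ε' N m W I := by
  refine ⟨h.vd, fun l hl hr => (h.lrc l hl hr).trans hγ,
    fun ht l hl hr => (h.ldg ht l hl hr).trans (hγ' ht), ?_, h.cg⟩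
  intro l hl hr
  have hm1 : (1 : ℝ) ≤ m := by exact_mod_cast h1
  have hm0 : (0 : ℝ) < m := by linarith
  have hL3 : (0 : ℝ) ≤ L ^ 3 / m := by positivity
  have hYY : YY N W m I l ≤ (Sl N I l).card * (L ^ 3 / m) := by
    unfold YY
    calc ∑ e ∈ Sl N I l, Wn N W m e ≤ ∑ e ∈ Sl N I l, L ^ 3 / m :=
          sum_le_sum fun e he => (wn_bd hL hR h1 h2 (mem_Sq.1 (mem_Sl.1 he).1).1).2
      _ = (Sl N I l).card * (L ^ 3 / m) := by rw [sum_const, nsmul_eq_mul]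
  have hN0 : (0 : ℝ) ≤ (m : ℝ) / N := by positivity
  have hq0 : 0 ≤ (m : ℝ) ^ (-(1 / 4) : ℝ) := Real.rpow_nonneg hm0.le _
  have hL30 : 0 ≤ L ^ 3 := by positivity
  rcases lt_or_ge m1 m with hmm | hmm
  · have h3 := (h.big hmm l hl hr).le
    have h4 : (m : ℝ) ^ (3 / 4 : ℝ) = m * (m : ℝ) ^ (-(1 / 4) : ℝ) := by
      have h5 : (m : ℝ) * (m : ℝ) ^ (-(1 / 4) : ℝ) = (m : ℝ) ^ (1 : ℝ) * (m : ℝ) ^ (-(1 / 4) : ℝ) := by
        rw [Real.rpow_one]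
      rw [h5, ← Real.rpow_add hm0]
      norm_num
    calc YY N W m I l ≤ (Sl N I l).card * (L ^ 3 / m) := hYY
      _ ≤ 8 * ((m : ℝ) ^ 2 / N + (m : ℝ) ^ (3 / 4 : ℝ)) * (L ^ 3 / m) :=
          mul_le_mul_of_nonneg_right h3 hL3
      _ = 8 * L ^ 3 * ((m : ℝ) / N + (m : ℝ) ^ (-(1 / 4) : ℝ)) := by
          rw [h4]
          field_simp
  · have h3 : ((Sl N I l).card : ℝ) ≤ 1 := by exact_mod_cast h.sma hmm l hl hr
    have h4 : 1 / (m : ℝ) ≤ (m : ℝ) ^ (-(1 / 4) : ℝ) := by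
      have h5 : 1 / (m : ℝ) = (m : ℝ) ^ (-1 : ℝ) := by
        rw [Real.rpow_neg_one, one_div]
      rw [h5]
      exact Real.rpow_le_rpow_of_exponent_le hm1 (by norm_num)
    calc YY N W m I l ≤ (Sl N I l).card * (L ^ 3 / m) := hYY
      _ ≤ 1 * (L ^ 3 / m) := mul_le_mul_of_nonneg_right h3 hL3
      _ = L ^ 3 * (1 / m) := by ring
      _ ≤ L ^ 3 * (m : ℝ) ^ (-(1 / 4) : ℝ) := mul_le_mul_of_nonneg_left h4 hL30
      _ ≤ 8 * L ^ 3 * ((m : ℝ) / N + (m : ℝ) ^ (-(1 / 4) : ℝ)) := by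
          nlinarith [mul_nonneg hL30 hN0, mul_nonneg hL30 hq0]

end Pool.Agent.NQL
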