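import Pool.Agent.NQL.Defs
import Pool.Agent.NQL.ABas
import Pool.Agent.NQL.AExp

/-!
# NQL-AStab: a nearly stationary point is close to a stationary point

PLAN. Minimise `G~ δ = Gw δ + gs(δ)²/(4m)` over the box `{δ : δ l ∈ [-1,1] for l ∈ I, δ l = 0 otherwise}` (compact, `G~` continuous:
work with functions on the finite type `{l // l ∈ I}` or with `Set.pi`); let `δ` be a minimiser, `g l = gr 0 l`.
(1) For `|x| ≤ 4`: `exp x - 1 - x ≥ exp(-4) x²/2` (`exp_lb`), so `0 ≥ G~ δ - G~ 0 ≥ ∑ g δ + (exp(-4)/2) lam ∑ δ²` (the gauge term `gs²/(4m)` is at least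
`exp(-4)/2` times `gs²/(2m)`), hence `√(∑ δ²) ≤ 2 exp 4 β √m/lam`.
(2) Let `r l = gr δ l + ga l * gs δ/(2m)` (partial derivative of `G~`). One variable calculus: `δ l < 1 → 0 ≤ r l`, `-1 < δ l → r l ≤ 0`
(move the coordinate `l` a little; `G~` is differentiable in it). `exp (δ l) * T l = 1 + r l - ga l gs δ/(2m)`,
`T l = ∑_{Sl l} w exp (ds δ e - δ l) + c l`. `|T l - (1 + g l)| ≤ ∑_{Sl l} w |exp (ds δ e - δ l) - 1| ≤ exp 3 ∑_{Sl l} w ∑_{k ≠ l.1} |δ (k, ln k e)|`
`≤ 3 exp 3 √(∑_{Sl l} w²) √(∑ δ²)` (`cross`), `∑_{Sl l} w² ≤ (K/m) ∑_{Sl l} w ≤ 2K/m` (`∑_{Sl l} w ≤ 1 + g l ≤ 2`), so `|T l - 1| ≤ C' β`.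
`|gs δ/(2m)| ≤ √(2m) √(∑ δ²)/(2m) ≤ C'' β`. If `δ l = 1`: `r l ≤ 0` and `e (1 - C' β) ≤ 1 + C'' β`, impossible for small `β`; `δ l = -1`
similarly. So `|δ l| < 1`, `r l = 0`, `exp (δ l) = (1 + O(C'' β))/(1 + O(C' β))`, `|δ l| ≤ C3 β`.
(3) `r = 0` on `I`: `gr δ l = - ga l gs δ/(2m)`; multiply by `ga l` and sum: the left side is
`∑ ga l ∑_{Sl l} w exp + 0 - ∑ ga l = 0` (`ga_line`, `c = 0` where `ga ≠ 0`, `ga_sum`), the right side `- gs δ`. So `gs δ = 0`, `gr δ = 0`.
-/

set_option autoImplicit false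

open Finset

namespace Pool.Agent.NQL

open Pool.Agent.NQ (board dsum F Ent Dg phi ln Q Qset QS NonAtt bern)
open Pool.Agent.NQR (Adm Opt Bd Rf hS hD hh InR)

/-- the functional with gauge term -/
private noncomputable def sb_G (N m : ℕ) (I : Finset Li) (w : ℤ × ℤ → ℝ) (c δ : Li → ℝ) : ℝ :=
  Gw N I w c δ + gs I δ ^ 2 / (4 * m)

private theorem sb_ds (δ : Li → ℝ) (l : Li) (h : ℝ) (e : ℤ × ℤ) :
    ds (Function.update δ l (δ l + h)) e = ds δ e + if ln l.1 e = l.2 then h else 0 := by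
  obtain ⟨k0, a⟩ := l
  unfold ds
  have h1 : ∀ k : Fin 4, Function.update δ (k0, a) (δ (k0, a) + h) (k, ln k e) =
      δ (k, ln k e) + if k = k0 then (if ln k0 e = a then h else 0) else 0 := by
    intro k
    rw [Function.update_apply]
    by_cases hk : k = k0
    · subst hk
      by_cases ha : ln k e = a
      · rw [if_pos (by rw [ha]), if_pos rfl, if_pos ha, ha]
      · rw [if_neg (by rw [Prod.mk.injEq]; tauto), if_pos rfl, if_neg ha, add_zero]
    · rw [if_neg (by rw [Prod.mk.injEq]; tauto), if_neg hk, add_zero]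
  rw [Finset.sum_congr rfl fun k _ => h1 k, Finset.sum_add_distrib, Finset.sum_ite_eq' Finset.univ,
    if_pos (Finset.mem_univ _)]

private theorem sb_diff (N m : ℕ) (I : Finset Li) (w : ℤ × ℤ → ℝ) (c δ : Li → ℝ) {l : Li}
    (hl : l ∈ I) (h : ℝ) :
    sb_G N m I w c (Function.update δ l (δ l + h)) - sb_G N m I w c δ =
      (Real.exp h - 1) * (gr N I w c δ l + 1) - h +
        ((gs I δ + ga l * h) ^ 2 - gs I δ ^ 2) / (4 * m) := by
  have h1 : gs I (Function.update δ l (δ l + h)) = gs I δ + ga l * h := by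
    unfold gs
    have h2 : ∀ l' ∈ I, ga l' * Function.update δ l (δ l + h) l' =
        ga l' * δ l' + if l' = l then ga l * h else 0 := by
      intro l' _
      rw [Function.update_apply]
      by_cases hk : l' = l
      · rw [if_pos hk, if_pos hk, hk]
        ring
      · rw [if_neg hk, if_neg hk, add_zero]
    rw [Finset.sum_congr rfl h2, Finset.sum_add_distrib, Finset.sum_ite_eq' I, if_pos hl]
  have h3 : ∑ e ∈ Sq N I, w e * Real.exp (ds (Function.update δ l (δ l + h)) e) =
      ∑ e ∈ Sq N I, w e * Real.exp (ds δ e) +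
        (Real.exp h - 1) * ∑ e ∈ Sl N I l, w e * Real.exp (ds δ e) := by
    unfold Sl
    rw [Finset.sum_filter, Finset.mul_sum, ← Finset.sum_add_distrib]
    refine Finset.sum_congr rfl fun e _ => ?_
    rw [sb_ds]
    by_cases he : ln l.1 e = l.2
    · rw [if_pos he, if_pos (show On e l from he), Real.exp_add]
      ring
    · rw [if_neg he, if_neg (show ¬ On e l from he), add_zero]
      ring
  have h4 : ∑ l' ∈ I, (c l' * Real.exp (Function.update δ l (δ l + h) l') -
      Function.update δ l (δ l + h) l') = ∑ l' ∈ I, (c l' * Real.exp (δ l') - δ l') +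
        ((Real.exp h - 1) * (c l * Real.exp (δ l)) - h) := by
    have h2 : ∀ l' ∈ I, (c l' * Real.exp (Function.update δ l (δ l + h) l') -
        Function.update δ l (δ l + h) l') = (c l' * Real.exp (δ l') - δ l') +
          if l' = l then ((Real.exp h - 1) * (c l * Real.exp (δ l)) - h) else 0 := by
      intro l' _
      rw [Function.update_apply]
      by_cases hk : l' = l
      · rw [if_pos hk, if_pos hk, hk, Real.exp_add]
        ring
      · rw [if_neg hk, if_neg hk, add_zero]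
    rw [Finset.sum_congr rfl h2, Finset.sum_add_distrib, Finset.sum_ite_eq' I, if_pos hl]
  unfold sb_G Gw gr
  rw [h1, h3, h4]
  ring

private theorem sb_cont (N m : ℕ) (I : Finset Li) (w : ℤ × ℤ → ℝ) (c : Li → ℝ) :
    Continuous (sb_G N m I w c) := by
  unfold sb_G Gw gs ds
  fun_prop

private theorem sb_gr0 (N : ℕ) (I : Finset Li) (w : ℤ × ℤ → ℝ) (c : Li → ℝ) (l : Li) :
    gr N I w c 0 l = ∑ e ∈ Sl N I l, w e + c l - 1 := by
  unfold gr ds
  simp

private theorem sb_low {N m : ℕ} {I : Finset Li} {w : ℤ × ℤ → ℝ} {c δ : Li → ℝ} {lam : ℝ}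
    (hm : 1 ≤ m) (hw : ∀ e ∈ Sq N I, 0 ≤ w e) (hc : ∀ l ∈ I, 0 ≤ c l) (hco : Co N m I w c lam)
    (hδ : ∀ l ∈ I, |δ l| ≤ 1) :
    ∑ l ∈ I, gr N I w c 0 l * δ l + Real.exp (-4) / 2 * lam * ∑ l ∈ I, δ l ^ 2 ≤
      sb_G N m I w c δ - sb_G N m I w c 0 := by
  obtain ⟨κ, hκ⟩ : ∃ κ, κ = Real.exp (-4) / 2 := ⟨_, rfl⟩
  have hκ0 : 0 ≤ κ := by
    rw [hκ]
    positivity
  have hκ1 : κ ≤ 1 / 2 := by
    rw [hκ]
    have : Real.exp (-4) ≤ 1 := Real.exp_le_one_iff.2 (by norm_num)
    linarith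
  rw [← hκ]
  have hx : ∀ x : ℝ, |x| ≤ 4 → x + κ * x ^ 2 ≤ Real.exp x - 1 := by
    intro x hx
    have h1 := exp_lb x
    have h2 : Real.exp (-4) ≤ Real.exp (-|x|) := Real.exp_le_exp.2 (by linarith)
    have h3 : κ * x ^ 2 ≤ Real.exp (-|x|) / 2 * x ^ 2 := by
      apply mul_le_mul_of_nonneg_right _ (sq_nonneg x)
      rw [hκ]
      linarith
    linarith
  have hds : ∀ e ∈ Sq N I, |ds δ e| ≤ 4 := by
    intro e he
    unfold ds
    refine (Finset.abs_sum_le_sum_abs _ _).trans ?_
    have h1 : ∀ k ∈ (Finset.univ : Finset (Fin 4)), |δ (k, ln k e)| ≤ 1 := fun k _ =>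
      hδ _ ((mem_Sq.1 he).2 k)
    refine (Finset.sum_le_sum h1).trans ?_
    simp
  have e1 : ∑ e ∈ Sq N I, (w e * ds δ e + κ * (w e * ds δ e ^ 2)) ≤
      ∑ e ∈ Sq N I, (w e * Real.exp (ds δ e) - w e) := by
    refine Finset.sum_le_sum fun e he => ?_
    have h1 := mul_le_mul_of_nonneg_left (hx _ (hds e he)) (hw e he)
    linarith
  have e2 : ∑ l ∈ I, (c l * δ l + κ * (c l * δ l ^ 2) - δ l) ≤
      ∑ l ∈ I, ((c l * Real.exp (δ l) - δ l) - c l) := by
    refine Finset.sum_le_sum fun l hl => ?_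
    have h1 := mul_le_mul_of_nonneg_left (hx (δ l) ((hδ l hl).trans (by norm_num))) (hc l hl)
    linarith
  have e3 : ∑ l ∈ I, gr N I w c 0 l * δ l =
      ∑ e ∈ Sq N I, w e * ds δ e + ∑ l ∈ I, (c l * δ l - δ l) := by
    have h1 := line_sum (N := N) (I := I) fun e l => w e * δ l
    have h2 : ∑ e ∈ Sq N I, w e * ds δ e = ∑ e ∈ Sq N I, ∑ k : Fin 4, w e * δ (k, ln k e) := by
      refine Finset.sum_congr rfl fun e _ => ?_
      unfold ds
      rw [Finset.mul_sum]
    rw [h2, ← h1, ← Finset.sum_add_distrib]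
    refine Finset.sum_congr rfl fun l _ => ?_
    rw [sb_gr0, ← Finset.sum_mul]
    ring
  have e4 := hco δ
  have hm0 : (0 : ℝ) < m := by exact_mod_cast hm
  have e5 : κ * (gs I δ ^ 2 / (2 * m)) ≤ gs I δ ^ 2 / (4 * m) := by
    have h1 : gs I δ ^ 2 / (4 * m) = 1 / 2 * (gs I δ ^ 2 / (2 * m)) := by
      field_simp
      norm_num
    rw [h1]
    exact mul_le_mul_of_nonneg_right hκ1 (by positivity)
  have e6 : κ * lam * ∑ l ∈ I, δ l ^ 2 ≤ κ * Qf N I w c δ + gs I δ ^ 2 / (4 * m) := by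
    have h1 := mul_le_mul_of_nonneg_left e4 hκ0
    linarith
  have e7 : κ * Qf N I w c δ = ∑ e ∈ Sq N I, κ * (w e * ds δ e ^ 2) +
      ∑ l ∈ I, κ * (c l * δ l ^ 2) := by
    unfold Qf
    rw [mul_add, Finset.mul_sum, Finset.mul_sum]
  have e8 : sb_G N m I w c δ - sb_G N m I w c 0 =
      ∑ e ∈ Sq N I, (w e * Real.exp (ds δ e) - w e) +
        ∑ l ∈ I, ((c l * Real.exp (δ l) - δ l) - c l) + gs I δ ^ 2 / (4 * m) := by
    unfold sb_G Gw
    have h1 : gs I 0 = 0 := by
      unfold gs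
      simp
    have h2 : ∀ e, ds 0 e = 0 := by
      intro e
      unfold ds
      simp
    rw [h1]
    simp only [h2, Pi.zero_apply, Real.exp_zero, mul_one, sub_zero, Finset.sum_sub_distrib]
    ring
  rw [e8, e3]
  rw [Finset.sum_add_distrib] at e1
  have e9 : ∑ l ∈ I, (c l * δ l + κ * (c l * δ l ^ 2) - δ l) =
      ∑ l ∈ I, (c l * δ l - δ l) + ∑ l ∈ I, κ * (c l * δ l ^ 2) := by
    rw [← Finset.sum_add_distrib]
    exact Finset.sum_congr rfl fun l _ => by ring
  rw [e9] at e2
  linarith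

private theorem sb_opt1 {r M b : ℝ} (hb : 0 < b) (h : ∀ x : ℝ, 0 < x → x ≤ b → 0 ≤ x * r + x ^ 2 * M) :
    0 ≤ r := by
  by_contra hr
  push Not at hr
  rcases le_or_gt M 0 with hM | hM
  · have h1 := h b hb le_rfl
    have h2 : b * r < 0 := mul_neg_of_pos_of_neg hb hr
    have h3 : b ^ 2 * M ≤ 0 := mul_nonpos_of_nonneg_of_nonpos (sq_nonneg b) hM
    linarith
  · obtain ⟨x, hx⟩ : ∃ x, x = min b (-r / (2 * M)) := ⟨_, rfl⟩
    have hp : 0 < -r / (2 * M) := div_pos (by linarith) (by linarith)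
    have hx0 : 0 < x := by
      rw [hx]
      exact lt_min hb hp
    have hxb : x ≤ b := by
      rw [hx]
      exact min_le_left _ _
    have hx2 : x ≤ -r / (2 * M) := by
      rw [hx]
      exact min_le_right _ _
    have h1 := h x hx0 hxb
    have h2 : x * (2 * M) ≤ -r := by
      rwa [le_div_iff₀ (by linarith)] at hx2
    have h3 : 0 ≤ r + x * M := by
      by_contra h4
      push Not at h4
      have h5 : x * (r + x * M) < 0 := mul_neg_of_pos_of_neg hx0 h4
      have h6 : x * r + x ^ 2 * M = x * (r + x * M) := by ring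
      linarith
    linarith

private theorem sb_ga (l : Li) : ga l ^ 2 ≤ 1 ∧ |ga l| ≤ 1 := by
  unfold ga
  split_ifs <;> norm_num

theorem stab {K lam : ℝ} (hK : 1 ≤ K) (hl : 0 < lam) (hl1 : lam ≤ 1) : ∃ β0 C3 : ℝ, 0 < β0 ∧ β0 ≤ 1 ∧ 1 ≤ C3 ∧
    ∀ (N m : ℕ) (I : Finset Li) (w : ℤ × ℤ → ℝ) (c : Li → ℝ) (β : ℝ), 1 ≤ m → Vd N m I →
      (∀ e ∈ Sq N I, 0 ≤ w e ∧ w e ≤ K / m) → (∀ l ∈ I, 0 ≤ c l) → (∀ l ∈ I, rc l → c l = 0) →
      Co N m I w c lam → 0 ≤ β → β ≤ β0 → (∀ l ∈ I, |gr N I w c 0 l| ≤ β) →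
      ∑ l ∈ I, gr N I w c 0 l ^ 2 ≤ β ^ 2 * m →
      ∃ δ : Li → ℝ, (∀ l, l ∉ I → δ l = 0) ∧ (∀ l ∈ I, |δ l| ≤ C3 * β) ∧ ∀ l ∈ I, gr N I w c δ l = 0 := by
  obtain ⟨A, hA⟩ : ∃ A, A = 2 * Real.exp 4 / lam := ⟨_, rfl⟩
  obtain ⟨C', hC'⟩ : ∃ C', C' = 1 + 6 * Real.exp 3 * K * A := ⟨_, rfl⟩
  have hA2 : 2 ≤ A := by
    rw [hA, le_div_iff₀ hl]
    have : 1 ≤ Real.exp 4 := Real.one_le_exp (by norm_num)
    nlinarith
  have hC1 : 1 ≤ C' := by
    rw [hC']
    have : 0 ≤ 6 * Real.exp 3 * K * A := by positivity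
    linarith
  obtain ⟨D, hD⟩ : ∃ D, D = A + C' := ⟨_, rfl⟩
  have hD1 : 1 ≤ D := by rw [hD]; linarith
  refine ⟨1 / (4 * D), 2 * D, by positivity, ?_, by linarith, ?_⟩
  · rw [div_le_one (by positivity)]
    linarith
  intro N m I w c β hm hV hw hc hrc hco hβ hββ hg hg2
  have hm0 : (0 : ℝ) < m := by exact_mod_cast hm
  have hDβ : D * β ≤ 1 / 4 := by
    have h1 := mul_le_mul_of_nonneg_left hββ (by linarith : (0 : ℝ) ≤ D)
    have h2 : D * (1 / (4 * D)) = 1 / 4 := by
      field_simp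
    linarith
  have hAβ : A * β ≤ 1 / 4 := by
    have : 0 ≤ C' * β := by positivity
    have h2 : D * β = A * β + C' * β := by rw [hD]; ring
    linarith
  have hCβ : C' * β ≤ 1 / 4 := by
    have : 0 ≤ A * β := by positivity
    have h2 : D * β = A * β + C' * β := by rw [hD]; ring
    linarith
  have hβ1 : β ≤ 1 := by nlinarith
  -- the minimiser
  obtain ⟨δ, hδB, hmin⟩ : ∃ δ ∈ Set.pi Set.univ (fun l : Li => if l ∈ I then Set.Icc (-1 : ℝ) 1
      else {0}), ∀ δ' ∈ Set.pi Set.univ (fun l : Li => if l ∈ I then Set.Icc (-1 : ℝ) 1 else {0}),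
        sb_G N m I w c δ ≤ sb_G N m I w c δ' := by
    have hcpt : IsCompact (Set.pi Set.univ (fun l : Li => if l ∈ I then Set.Icc (-1 : ℝ) 1
        else {0})) := by
      apply isCompact_univ_pi
      intro l
      split_ifs
      · exact isCompact_Icc
      · exact isCompact_singleton
    have hne : (Set.pi Set.univ (fun l : Li => if l ∈ I then Set.Icc (-1 : ℝ) 1
        else {0})).Nonempty := by
      refine ⟨0, fun l _ => ?_⟩
      show (0 : ℝ) ∈ (if l ∈ I then Set.Icc (-1 : ℝ) 1 else {0})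
      split_ifs
      · simp
      · simp
    obtain ⟨δ, h1, h2⟩ := hcpt.exists_isMinOn hne (sb_cont N m I w c).continuousOn
    exact ⟨δ, h1, fun δ' h' => h2 h'⟩
  have hδI : ∀ l ∈ I, -1 ≤ δ l ∧ δ l ≤ 1 := by
    intro l hl
    have h1 := hδB l (Set.mem_univ l)
    simp only [hl, if_true] at h1
    exact h1
  have hδ0 : ∀ l, l ∉ I → δ l = 0 := by
    intro l hl
    have h1 := hδB l (Set.mem_univ l)
    simp only [hl, if_false] at h1
    exact h1
  have hδabs : ∀ l ∈ I, |δ l| ≤ 1 := fun l hl => abs_le.2 (hδI l hl)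
  have hupd : ∀ l ∈ I, ∀ x : ℝ, -1 ≤ δ l + x → δ l + x ≤ 1 →
      sb_G N m I w c δ ≤ sb_G N m I w c (Function.update δ l (δ l + x)) := by
    intro l hl x h1 h2
    apply hmin
    intro l' _
    by_cases hll : l' = l
    · subst hll
      simp only [hl, if_true, Function.update_self]
      exact ⟨h1, h2⟩
    · rw [Function.update_of_ne hll]
      exact hδB l' (Set.mem_univ l')
  -- (1)
  obtain ⟨S, hS⟩ : ∃ S, S = ∑ l ∈ I, δ l ^ 2 := ⟨_, rfl⟩
  have hS0 : 0 ≤ S := by
    rw [hS]
    exact Finset.sum_nonneg fun l _ => sq_nonneg _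
  have hSle : S ≤ (A * β) ^ 2 * m := by
    have h1 := sb_low hm (fun e he => (hw e he).1) hc hco hδabs
    have h2 : sb_G N m I w c δ ≤ sb_G N m I w c 0 := by
      apply hmin
      intro l _
      show (0 : ℝ) ∈ (if l ∈ I then Set.Icc (-1 : ℝ) 1 else {0})
      split_ifs
      · simp
      · simp
    have h3 : (∑ l ∈ I, gr N I w c 0 l * δ l) ^ 2 ≤
        (∑ l ∈ I, gr N I w c 0 l ^ 2) * ∑ l ∈ I, δ l ^ 2 :=
      Finset.sum_mul_sq_le_sq_mul_sq _ _ _
    rw [← hS] at h1 h3
    obtain ⟨κ, hκ⟩ : ∃ κ, κ = Real.exp (-4) / 2 * lam := ⟨_, rfl⟩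
    have hκ0 : 0 < κ := by
      rw [hκ]
      positivity
    have hκA : κ * A = 1 := by
      rw [hκ, hA]
      have : Real.exp (-4) * Real.exp 4 = 1 := by
        rw [← Real.exp_add]
        norm_num
      field_simp
      linarith
    rw [← hκ] at h1
    have h4 : κ * S ≤ -∑ l ∈ I, gr N I w c 0 l * δ l := by linarith
    have h5 : (κ * S) ^ 2 ≤ (∑ l ∈ I, gr N I w c 0 l * δ l) ^ 2 := by
      rw [← neg_sq (∑ l ∈ I, gr N I w c 0 l * δ l)]
      exact pow_le_pow_left₀ (by positivity) h4 2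
    have h6 : (κ * S) ^ 2 ≤ β ^ 2 * m * S :=
      h5.trans (h3.trans (mul_le_mul_of_nonneg_right hg2 hS0))
    rcases hS0.eq_or_lt with h7 | h7
    · rw [← h7]
      positivity
    · have h8 : κ ^ 2 * S ≤ β ^ 2 * m := by
        have h9 : κ ^ 2 * S * S ≤ β ^ 2 * m * S := by
          calc κ ^ 2 * S * S = (κ * S) ^ 2 := by ring
            _ ≤ _ := h6
        exact le_of_mul_le_mul_right h9 h7
      calc S = (κ * A) ^ 2 * S := by rw [hκA]; ring
        _ = A ^ 2 * (κ ^ 2 * S) := by ring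
        _ ≤ A ^ 2 * (β ^ 2 * m) := mul_le_mul_of_nonneg_left h8 (sq_nonneg A)
        _ = (A * β) ^ 2 * m := by ring
  -- gauge bound
  have hgs : |gs I δ / (2 * m)| ≤ A * β := by
    have h1 : (gs I δ) ^ 2 ≤ (∑ l ∈ I, ga l ^ 2) * ∑ l ∈ I, δ l ^ 2 :=
      Finset.sum_mul_sq_le_sq_mul_sq _ _ _
    rw [(ga_sum hV).1, ← hS] at h1
    have h2 : gs I δ ^ 2 ≤ (A * β * (2 * m)) ^ 2 := by
      have h3 : 2 * (m : ℝ) * S ≤ 2 * m * ((A * β) ^ 2 * m) :=
        mul_le_mul_of_nonneg_left hSle (by positivity)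
      have h4 : 0 ≤ (A * β * m) ^ 2 := sq_nonneg _
      nlinarith
    rw [abs_div, abs_of_pos (by positivity : (0 : ℝ) < 2 * m), div_le_iff₀ (by positivity)]
    exact abs_le_of_sq_le_sq h2 (by positivity)
  have hqb : ∀ l, |ga l * gs I δ / (2 * m)| ≤ A * β := by
    intro l
    rw [mul_div_assoc, abs_mul]
    calc |ga l| * |gs I δ / (2 * m)| ≤ 1 * |gs I δ / (2 * m)| :=
          mul_le_mul_of_nonneg_right (sb_ga l).2 (abs_nonneg _)
      _ ≤ A * β := by rw [one_mul]; exact hgs
  -- optimality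
  have hgrp : ∀ l ∈ I, 0 ≤ gr N I w c δ l + 1 := by
    intro l hl
    unfold gr
    have h1 : 0 ≤ ∑ e ∈ Sl N I l, w e * Real.exp (ds δ e) :=
      Finset.sum_nonneg fun e he => mul_nonneg (hw e (mem_Sl.1 he).1).1 (Real.exp_pos _).le
    have h2 : 0 ≤ c l * Real.exp (δ l) := mul_nonneg (hc l hl) (Real.exp_pos _).le
    linarith
  have hkey : ∀ l ∈ I, ∀ x : ℝ, |x| ≤ 1 → -1 ≤ δ l + x → δ l + x ≤ 1 →
      0 ≤ x * (gr N I w c δ l + ga l * gs I δ / (2 * m)) +
        x ^ 2 * (gr N I w c δ l + 1 + ga l ^ 2 / (4 * m)) := by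
    intro l hl x hx h1 h2
    have h3 := hupd l hl x h1 h2
    have h4 := sb_diff N m I w c δ hl x
    have h5 : Real.exp x - 1 ≤ x + x ^ 2 := by
      have := (abs_le.1 (exp_q hx)).2
      linarith
    have h6 := mul_le_mul_of_nonneg_right h5 (hgrp l hl)
    have h7 : ((gs I δ + ga l * x) ^ 2 - gs I δ ^ 2) / (4 * m) =
        x * (ga l * gs I δ / (2 * m)) + x ^ 2 * (ga l ^ 2 / (4 * m)) := by
      field_simp
      ring
    rw [h7] at h4
    nlinarith
  have hopt1 : ∀ l ∈ I, δ l < 1 → 0 ≤ gr N I w c δ l + ga l * gs I δ / (2 * m) := by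
    intro l hl h1
    refine sb_opt1 (b := min 1 (1 - δ l)) (lt_min one_pos (by linarith))
      (M := gr N I w c δ l + 1 + ga l ^ 2 / (4 * m)) fun x hx0 hxb => ?_
    have h2 := hxb.trans (min_le_left _ _)
    have h3 := hxb.trans (min_le_right _ _)
    refine hkey l hl x ?_ ?_ ?_
    · rw [abs_of_pos hx0]
      exact h2
    · have := (hδI l hl).1
      linarith
    · linarith
  have hopt2 : ∀ l ∈ I, -1 < δ l → gr N I w c δ l + ga l * gs I δ / (2 * m) ≤ 0 := by
    intro l hl h1
    have h0 : 0 ≤ -(gr N I w c δ l + ga l * gs I δ / (2 * m)) := by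
      refine sb_opt1 (b := min 1 (1 + δ l)) (lt_min one_pos (by linarith))
        (M := gr N I w c δ l + 1 + ga l ^ 2 / (4 * m)) fun x hx0 hxb => ?_
      have h2 := hxb.trans (min_le_left _ _)
      have h3 := hxb.trans (min_le_right _ _)
      have h4 := hkey l hl (-x) (by rw [abs_neg, abs_of_pos hx0]; exact h2) (by linarith)
        (by have := (hδI l hl).2; linarith)
      have h5 : -x * (gr N I w c δ l + ga l * gs I δ / (2 * m)) +
          (-x) ^ 2 * (gr N I w c δ l + 1 + ga l ^ 2 / (4 * m)) =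
          x * -(gr N I w c δ l + ga l * gs I δ / (2 * m)) +
          x ^ 2 * (gr N I w c δ l + 1 + ga l ^ 2 / (4 * m)) := by ring
      rwa [h5] at h4
    linarith
  -- the line sums
  have hT : ∀ l ∈ I, ∃ T : ℝ, gr N I w c δ l + 1 = Real.exp (δ l) * T ∧ |T - 1| ≤ C' * β := by
    intro l hl
    refine ⟨∑ e ∈ Sl N I l, w e * Real.exp (ds δ e - δ l) + c l, ?_, ?_⟩
    · unfold gr
      rw [mul_add, Finset.mul_sum]
      have h1 : ∀ e ∈ Sl N I l, Real.exp (δ l) * (w e * Real.exp (ds δ e - δ l)) =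
          w e * Real.exp (ds δ e) := by
        intro e _
        have h2 : Real.exp (ds δ e) = Real.exp (δ l) * Real.exp (ds δ e - δ l) := by
          rw [← Real.exp_add]
          congr 1
          ring
        rw [h2]
        ring
      rw [Finset.sum_congr rfl h1]
      ring
    · have hg1 := abs_le.1 (hg l hl)
      rw [sb_gr0] at hg1
      have hsw : ∑ e ∈ Sl N I l, w e ≤ 2 := by
        have := hc l hl
        linarith
      have hw2 : ∑ e ∈ Sl N I l, w e ^ 2 ≤ 2 * K / m := by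
        calc ∑ e ∈ Sl N I l, w e ^ 2 ≤ ∑ e ∈ Sl N I l, K / m * w e := by
              refine Finset.sum_le_sum fun e he => ?_
              have h1 := hw e (mem_Sl.1 he).1
              rw [pow_two]
              exact mul_le_mul_of_nonneg_right h1.2 h1.1
          _ = K / m * ∑ e ∈ Sl N I l, w e := by rw [Finset.mul_sum]
          _ ≤ K / m * 2 := mul_le_mul_of_nonneg_left hsw (by positivity)
          _ = 2 * K / m := by ring
      have hcr : Real.sqrt (∑ e ∈ Sl N I l, w e ^ 2) * Real.sqrt (∑ l' ∈ I, δ l' ^ 2) ≤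
          2 * K * A * β := by
        rw [← hS, ← Real.sqrt_mul (Finset.sum_nonneg fun e _ => sq_nonneg _)]
        rw [Real.sqrt_le_left (by positivity)]
        calc (∑ e ∈ Sl N I l, w e ^ 2) * S ≤ 2 * K / m * ((A * β) ^ 2 * m) :=
              mul_le_mul hw2 hSle hS0 (by positivity)
          _ = 2 * K * (A * β) ^ 2 := by
              field_simp
          _ ≤ 4 * K ^ 2 * (A * β) ^ 2 := by
              apply mul_le_mul_of_nonneg_right _ (sq_nonneg _)
              nlinarith
          _ = (2 * K * A * β) ^ 2 := by ring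
      have hxe : ∀ e ∈ Sl N I l, ds δ e - δ l = ∑ k ∈ Finset.univ.erase l.1, δ (k, ln k e) := by
        intro e he
        unfold ds
        rw [← Finset.add_sum_erase Finset.univ (fun k => δ (k, ln k e)) (Finset.mem_univ l.1)]
        have h1 : ((l.1, ln l.1 e) : Li) = l := by
          rw [(mem_Sl.1 he).2]
        rw [h1]
        ring
      have hcard : ((Finset.univ.erase l.1 : Finset (Fin 4)).card : ℝ) = 3 := by
        rw [Finset.card_erase_of_mem (Finset.mem_univ _), Finset.card_univ, Fintype.card_fin]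
        norm_num
      have hxa : ∀ e ∈ Sl N I l, |ds δ e - δ l| ≤ ∑ k ∈ Finset.univ.erase l.1, |δ (k, ln k e)| := by
        intro e he
        rw [hxe e he]
        exact Finset.abs_sum_le_sum_abs _ _
      have hx3 : ∀ e ∈ Sl N I l, |ds δ e - δ l| ≤ 3 := by
        intro e he
        refine (hxa e he).trans ?_
        have h1 : ∀ k ∈ (Finset.univ.erase l.1 : Finset (Fin 4)), |δ (k, ln k e)| ≤ 1 :=
          fun k _ => hδabs _ ((mem_Sq.1 (mem_Sl.1 he).1).2 k)
        refine (Finset.sum_le_sum h1).trans ?_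
        rw [Finset.sum_const, nsmul_eq_mul, hcard, mul_one]
      have h1 : |∑ e ∈ Sl N I l, w e * (Real.exp (ds δ e - δ l) - 1)| ≤
          Real.exp 3 * (3 * (2 * K * A * β)) := by
        calc |∑ e ∈ Sl N I l, w e * (Real.exp (ds δ e - δ l) - 1)|
            ≤ ∑ e ∈ Sl N I l, |w e * (Real.exp (ds δ e - δ l) - 1)| :=
              Finset.abs_sum_le_sum_abs _ _
          _ ≤ ∑ e ∈ Sl N I l, Real.exp 3 *
                ∑ k ∈ Finset.univ.erase l.1, |w e * δ (k, ln k e)| := by
              refine Finset.sum_le_sum fun e he => ?_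
              have hwe := (hw e (mem_Sl.1 he).1).1
              have h2 : |Real.exp (ds δ e - δ l) - 1| ≤
                  Real.exp 3 * ∑ k ∈ Finset.univ.erase l.1, |δ (k, ln k e)| := by
                refine (exp_l _).trans ?_
                rw [mul_comm]
                exact mul_le_mul (Real.exp_le_exp.2 (hx3 e he)) (hxa e he) (abs_nonneg _)
                  (Real.exp_pos _).le
              rw [abs_mul, abs_of_nonneg hwe]
              calc w e * |Real.exp (ds δ e - δ l) - 1|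
                  ≤ w e * (Real.exp 3 * ∑ k ∈ Finset.univ.erase l.1, |δ (k, ln k e)|) :=
                    mul_le_mul_of_nonneg_left h2 hwe
                _ = Real.exp 3 * ∑ k ∈ Finset.univ.erase l.1, |w e * δ (k, ln k e)| := by
                    have h3 : ∀ k ∈ (Finset.univ.erase l.1 : Finset (Fin 4)),
                        |w e * δ (k, ln k e)| = w e * |δ (k, ln k e)| := by
                      intro k _
                      rw [abs_mul, abs_of_nonneg hwe]
                    rw [Finset.sum_congr rfl h3, ← Finset.mul_sum]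
                    ring
          _ = Real.exp 3 * ∑ k ∈ Finset.univ.erase l.1, ∑ e ∈ Sl N I l,
                |w e * δ (k, ln k e)| := by
              rw [← Finset.mul_sum, Finset.sum_comm]
          _ ≤ Real.exp 3 * ∑ k ∈ (Finset.univ.erase l.1 : Finset (Fin 4)), 2 * K * A * β := by
              refine mul_le_mul_of_nonneg_left (Finset.sum_le_sum fun k hk => ?_)
                (Real.exp_pos _).le
              exact (cross l (Finset.ne_of_mem_erase hk) w δ).trans hcr
          _ = Real.exp 3 * (3 * (2 * K * A * β)) := by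
              rw [Finset.sum_const, nsmul_eq_mul, hcard]
      have h2 : ∑ e ∈ Sl N I l, w e * Real.exp (ds δ e - δ l) + c l - 1 =
          ∑ e ∈ Sl N I l, w e * (Real.exp (ds δ e - δ l) - 1) +
            (∑ e ∈ Sl N I l, w e + c l - 1) := by
        have h3 : ∀ e ∈ Sl N I l, w e * Real.exp (ds δ e - δ l) =
            w e * (Real.exp (ds δ e - δ l) - 1) + w e := by
          intro e _
          ring
        rw [Finset.sum_congr rfl h3, Finset.sum_add_distrib]
        ring
      rw [h2]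
      refine (abs_add_le _ _).trans ?_
      have h4 : |∑ e ∈ Sl N I l, w e + c l - 1| ≤ β := abs_le.2 hg1
      have h5 : C' * β = β + Real.exp 3 * (3 * (2 * K * A * β)) := by
        rw [hC']
        ring
      linarith
  -- interior
  have hint : ∀ l ∈ I, gr N I w c δ l + ga l * gs I δ / (2 * m) = 0 ∧ |δ l| ≤ 2 * D * β := by
    intro l hl
    obtain ⟨T, hT1, hT2⟩ := hT l hl
    have hT3 := abs_le.1 hT2
    have hq := abs_le.1 (hqb l)
    obtain ⟨q, hqe⟩ : ∃ q, q = ga l * gs I δ / (2 * m) := ⟨_, rfl⟩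
    rw [← hqe] at hq
    have o1 := hopt1 l hl
    have o2 := hopt2 l hl
    rw [← hqe] at o1 o2 ⊢
    have hDe : D * β = A * β + C' * β := by rw [hD]; ring
    have hlt : δ l < 1 := by
      rcases (hδI l hl).2.eq_or_lt with h | h
      · exfalso
        have h1 := o2 (by rw [h]; norm_num)
        rw [h] at hT1
        have h2 : 2 ≤ Real.exp 1 := by
          have := Real.add_one_le_exp 1
          linarith
        have h3 : 2 * T ≤ Real.exp 1 * T := mul_le_mul_of_nonneg_right h2 (by linarith)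
        linarith
      · exact h
    have hgt : -1 < δ l := by
      rcases (hδI l hl).1.eq_or_lt with h | h
      · exfalso
        have h1 := o1 (by rw [← h]; norm_num)
        rw [← h] at hT1
        have h2 : Real.exp (-1) ≤ 1 / 2 := by
          rw [Real.exp_neg, ← one_div]
          have := Real.add_one_le_exp 1
          exact one_div_le_one_div_of_le (by norm_num) (by linarith)
        have h3 : Real.exp (-1) * T ≤ 1 / 2 * T := mul_le_mul_of_nonneg_right h2 (by linarith)
        linarith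
      · exact h
    have hr : gr N I w c δ l + q = 0 := le_antisymm (o2 hgt) (o1 hlt)
    refine ⟨hr, ?_⟩
    have hE : Real.exp (δ l) * T = 1 - q := by linarith
    rw [abs_le]
    constructor
    · have h1 := Real.add_one_le_exp (-δ l)
      have h2 : (1 - q) * Real.exp (-δ l) = T := by
        rw [← hE, Real.exp_neg]
        field_simp
      by_contra h3
      push Not at h3
      have h4 : (1 - q) * (-δ l) ≤ (1 - q) * (Real.exp (-δ l) - 1) :=
        mul_le_mul_of_nonneg_left (by linarith) (by linarith)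
      have h5 : 3 / 4 * (-δ l) ≤ (1 - q) * (-δ l) := by
        apply mul_le_mul_of_nonneg_right (by linarith)
        have : 0 ≤ 2 * D * β := by positivity
        linarith
      nlinarith
    · have h1 := Real.add_one_le_exp (δ l)
      by_contra h3
      push Not at h3
      have h4 : T * (δ l) ≤ T * (Real.exp (δ l) - 1) :=
        mul_le_mul_of_nonneg_left (by linarith) (by linarith)
      have h5 : 3 / 4 * (δ l) ≤ T * (δ l) := by
        apply mul_le_mul_of_nonneg_right (by linarith)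
        have : 0 ≤ 2 * D * β := by positivity
        linarith
      nlinarith
  -- (3)
  have hgs0 : gs I δ = 0 := by
    have h1 : ∑ l ∈ I, ga l * gr N I w c δ l = - gs I δ := by
      have h2 : ∀ l ∈ I, ga l * gr N I w c δ l = -(ga l ^ 2 * (gs I δ / (2 * m))) := by
        intro l hl
        have h3 : gr N I w c δ l = -(ga l * gs I δ / (2 * m)) := by
          have := (hint l hl).1
          linarith
        rw [h3]
        ring
      rw [Finset.sum_congr rfl h2, Finset.sum_neg_distrib, ← Finset.sum_mul, (ga_sum hV).1]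
      field_simp
    have h4 : ∑ l ∈ I, ga l * gr N I w c δ l = 0 := by
      have h5 : ∀ l ∈ I, ga l * gr N I w c δ l =
          ga l * ∑ e ∈ Sl N I l, w e * Real.exp (ds δ e) - ga l := by
        intro l hl
        have h6 : ga l * c l = 0 := by
          by_cases hr : rc l
          · rw [hrc l hl hr, mul_zero]
          · have h7 : ga l = 0 := by
              unfold ga
              unfold rc at hr
              rw [if_neg, if_neg]
              · intro h
                rw [h] at hr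
                exact hr (by norm_num)
              · intro h
                rw [h] at hr
                exact hr (by norm_num)
            rw [h7, zero_mul]
        unfold gr
        linear_combination Real.exp (δ l) * h6
      rw [Finset.sum_congr rfl h5, Finset.sum_sub_distrib, ga_line, (ga_sum hV).2, sub_zero]
    linarith
  refine ⟨δ, hδ0, fun l hl => (hint l hl).2, fun l hl => ?_⟩
  have h1 := (hint l hl).1
  rw [hgs0, mul_zero, zero_div, add_zero] at h1
  exact h1

end Pool.Agent.NQL
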