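import Pool.Agent.NQL.Defs
import Pool.Agent.NQL.ABas
import Pool.Agent.NQL.ACo
import Pool.Agent.NQL.AExp
import Pool.Agent.NQL.ACvx
import Pool.Agent.NQL.AStab
import Pool.Agent.NQL.BNom

/-!
# NQL-BSim: a stationary point near the nominal one

By `stab` at the nominal potentials and `coer` (nominal and final weights).
-/

set_option autoImplicit false

open Finset

namespace Pool.Agent.NQL

open Pool.Agent.NQ (board dsum F Ent Dg phi ln Q Qset QS NonAtt bern)
open Pool.Agent.NQR (Adm Opt Bd Rf hS hD hh InR)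

private theorem bs_wt (z δ : Li → ℝ) (e : ℤ × ℤ) : wt (z + δ) e = wt z e * Real.exp (ds δ e) := by
  have h1 : ds (z + δ) e = ds z e + ds δ e := by
    unfold ds
    rw [← Finset.sum_add_distrib]
    rfl
  unfold wt
  rw [h1, Real.exp_add]

private theorem bs_half : Real.exp (1 / 2) ≤ 2 ∧ 1 / 2 ≤ Real.exp (-(1 / 2)) := by
  have h1 : Real.exp (1 / 2) ≤ 2 := by
    have h2 := Real.log_two_gt_d9
    have h3 : Real.exp (1 / 2) ≤ Real.exp (Real.log 2) := Real.exp_le_exp.2 (by linarith)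
    rwa [Real.exp_log (by norm_num)] at h3
  refine ⟨h1, ?_⟩
  rw [Real.exp_neg, one_div 2]
  rw [one_div] at h1
  exact inv_anti₀ (Real.exp_pos _) h1


theorem near_nominal (L : ℝ) (hL : 1 ≤ L) : ∃ β0 C3 : ℝ, 0 < β0 ∧ β0 ≤ 1 / 4 ∧ 1 ≤ C3 ∧
    ∀ (N m : ℕ) (I : Finset Li) (W : ℤ × ℤ → ℝ) (A B : ℤ → ℝ) (β : ℝ), 1 ≤ m → m ≤ N → Rf L N W A B →
      Vd N m I → 0 ≤ β → β ≤ β0 → (∀ l ∈ I, |YY N W m I l - TT N W m l| ≤ β) →
      ∑ l ∈ I, (YY N W m I l - TT N W m l) ^ 2 ≤ β ^ 2 * m →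
      (∀ x x' : ℤ, ((0, x) : Li) ∈ I → ((0, x') : Li) ∈ I → x ≠ x' → 1 / (2 * L ^ 2) ≤ Cg N W m I x x') →
      ∃ z : Li → ℝ, Reg (32 * L ^ 3) (1 / (3200 * L ^ 3)) N m I z ∧
        (∀ e ∈ Sq N I, Wn N W m e / 2 ≤ wt z e ∧ wt z e ≤ 2 * Wn N W m e) ∧ Cl (C3 * β) N m W I z := by
  have hL0 : 0 < L := by linarith
  have hL2 : 1 ≤ L ^ 2 := one_le_pow₀ hL
  have hL3 : 1 ≤ L ^ 3 := one_le_pow₀ hL
  have hlam : (0 : ℝ) < 1 / (400 * L ^ 3) := by positivity
  have hlam1 : 1 / (400 * L ^ 3) ≤ 1 := by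
    rw [div_le_one (by positivity)]
    linarith
  obtain ⟨b0, C, hb0, hb1, hC1, hst⟩ := stab hL3 hlam hlam1
  have hC0 : 0 < C := by linarith
  refine ⟨min b0 (1 / (8 * C)), 1 + 16 * C, lt_min hb0 (by positivity), ?_, by linarith, ?_⟩
  · refine (min_le_right _ _).trans ?_
    rw [div_le_div_iff₀ (by positivity) (by norm_num)]
    linarith
  intro N m I W A B β hm hmN hR hv hβ hββ hY hY2 hcg
  have hβb : β ≤ b0 := hββ.trans (min_le_left _ _)
  have hβC : 8 * C * β ≤ 1 := by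
    have h1 := hββ.trans (min_le_right _ _)
    rw [le_div_iff₀ (by positivity)] at h1
    linarith
  have hβ4 : β ≤ 1 / 8 := by nlinarith
  have hm0 : (0 : ℝ) < m := by exact_mod_cast hm
  obtain ⟨z0, hz0⟩ : ∃ z0, z0 = zn N W A B m := ⟨_, rfl⟩
  have hboard : ∀ e ∈ Sq N I, e ∈ board N := fun e he => (mem_Sq.1 he).1
  have hw0 : ∀ e ∈ Sq N I, wt z0 e = Wn N W m e := fun e he => by
    rw [hz0]
    exact zn_wt hL hR hm hmN (hboard e he)
  have hWb : ∀ e ∈ Sq N I, 1 / (L * m) ≤ Wn N W m e ∧ Wn N W m e ≤ L ^ 3 / m := fun e he =>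
    wn_bd hL hR hm hmN (hboard e he)
  have hW0 : ∀ e ∈ Sq N I, 0 < Wn N W m e := fun e he =>
    lt_of_lt_of_le (by positivity) (hWb e he).1
  have hSl : ∀ l, ∀ e ∈ Sl N I l, e ∈ Sq N I := fun l e he => (mem_Sl.1 he).1
  have hsum0 : ∀ l, ∑ e ∈ Sl N I l, wt z0 e = YY N W m I l := fun l => by
    unfold YY
    exact Finset.sum_congr rfl fun e he => hw0 e (hSl l e he)
  have hYrc : ∀ l ∈ I, rc l → 1 / 2 ≤ YY N W m I l ∧ YY N W m I l ≤ 2 := by
    intro l hl hr
    have h1 := hY l hl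
    rw [tt_rc hr, abs_le] at h1
    constructor <;> linarith [h1.1, h1.2]
  have hYdg : ∀ l ∈ I, ¬ rc l → YY N W m I l ≤ 2 := by
    intro l hl hr
    have h1 := hY l hl
    rw [abs_le] at h1
    have h2 := (tt_bd hL hR hm hmN (l := l) hr).2.2
    have h3 : 0 < 1 / L := by positivity
    linarith [h1.2]
  have hYt : ∀ l ∈ I, YY N W m I l ≤ 2 := by
    intro l hl
    by_cases hr : rc l
    · exact (hYrc l hl hr).2
    · exact hYdg l hl hr
  have hdg0 : ∀ l, rc l → dg l = 0 := fun l hr => by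
    unfold dg
    rw [if_pos hr]
  have hdg1 : ∀ l, ¬ rc l → dg l = 1 := fun l hr => by
    unfold dg
    rw [if_neg hr]
  have hdgn : ∀ l, 0 ≤ dg l := fun l => by
    unfold dg
    split_ifs <;> norm_num
  have hz0dg : ∀ l, ¬ rc l → 1 / L ≤ Real.exp (z0 l) := by
    intro l hr
    rw [hz0, zn_dg hL hR hm hmN hr]
    have h2 := (tt_bd hL hR hm hmN (l := l) hr).2.2
    linarith
  have hcg' : ∀ x x' : ℤ, ((0, x) : Li) ∈ I → ((0, x') : Li) ∈ I → x ≠ x' → 1 / (2 * L ^ 2) / m ≤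
      ∑ y ∈ Finset.Ico (0 : ℤ) N, if (x, y) ∈ Sq N I ∧ (x', y) ∈ Sq N I then
        Wn N W m (x, y) * Wn N W m (x', y) else 0 := by
    intro x x' h1 h2 h3
    have h4 := hcg x x' h1 h2 h3
    unfold Cg at h4
    rw [div_le_iff₀ hm0]
    have h5 := h4.trans (le_of_eq (mul_comm _ _))
    convert h5
  have hco0 : Co N m I (wt z0) (fun l => dg l * Real.exp (z0 l)) (1 / (400 * L ^ 3)) := by
    have h1 : (1 / L) * (1 / (2 * L ^ 2)) / 200 = 1 / (400 * L ^ 3) := by
      field_simp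
      norm_num
    rw [← h1]
    refine coer (by positivity) ?_ (by positivity) ?_ hm hv ?_ ?_ ?_ ?_ ?_ ?_
    · rw [div_le_one hL0]
      exact hL
    · rw [div_le_one (by positivity)]
      linarith
    · intro e he
      exact (Real.exp_pos _).le
    · intro l hl hr
      rw [hsum0]
      exact hYrc l hl hr
    · intro l hl hr
      rw [hsum0]
      exact hYdg l hl hr
    · intro l _
      exact mul_nonneg (hdgn l) (Real.exp_pos _).le
    · intro l _ hr
      change 1 / L ≤ dg l * Real.exp (z0 l)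
      rw [hdg1 l hr, one_mul]
      exact hz0dg l hr
    · intro x x' h2 h3 h4
      refine (hcg' x x' h2 h3 h4).trans (le_of_eq (Finset.sum_congr rfl fun y _ => ?_))
      by_cases h : (x, y) ∈ Sq N I ∧ (x', y) ∈ Sq N I
      · rw [if_pos h, if_pos h, hw0 _ h.1, hw0 _ h.2]
      · rw [if_neg h, if_neg h]
  have hgr : ∀ l, gr N I (wt z0) (fun l => dg l * Real.exp (z0 l)) 0 l =
      YY N W m I l - TT N W m l := by
    intro l
    rw [hz0]
    exact gr_zn hL hR hm hmN l
  obtain ⟨δ, hδ0, hδ, hgδ⟩ := hst N m I (wt z0) (fun l => dg l * Real.exp (z0 l)) β hm hv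
    (fun e he => ⟨(Real.exp_pos _).le, by
      rw [hw0 e he]
      exact (hWb e he).2⟩)
    (fun l _ => mul_nonneg (hdgn l) (Real.exp_pos _).le)
    (fun l _ hr => by
      change dg l * Real.exp (z0 l) = 0
      rw [hdg0 l hr, zero_mul]) hco0 hβ hβb
    (fun l hl => by
      rw [hgr]
      exact hY l hl)
    (by
      refine le_trans (le_of_eq ?_) hY2
      exact Finset.sum_congr rfl fun l _ => by rw [hgr])
  have hSt : St N I (z0 + δ) := by
    intro l hl
    have h1 := hgδ l hl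
    rw [gr_add] at h1
    linarith
  have hdsδ : ∀ e ∈ Sq N I, |ds δ e| ≤ 4 * C * β := by
    intro e he
    unfold ds
    refine (Finset.abs_sum_le_sum_abs _ _).trans ?_
    refine (Finset.sum_le_card_nsmul _ _ (C * β) fun k _ => hδ _ ((mem_Sq.1 he).2 k)).trans ?_
    rw [Finset.card_univ, Fintype.card_fin, nsmul_eq_mul]
    push_cast
    linarith
  obtain ⟨hh1, hh2⟩ := bs_half
  have hexp : ∀ x : ℝ, |x| ≤ 1 / 2 → 1 / 2 ≤ Real.exp x ∧ Real.exp x ≤ 2 := by
    intro x hx
    rw [abs_le] at hx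
    exact ⟨hh2.trans (Real.exp_le_exp.2 hx.1), (Real.exp_le_exp.2 hx.2).trans hh1⟩
  have hwt : ∀ e ∈ Sq N I, wt (z0 + δ) e = Wn N W m e * Real.exp (ds δ e) := by
    intro e he
    rw [bs_wt, hw0 e he]
  have hfac : ∀ e ∈ Sq N I, Wn N W m e / 2 ≤ wt (z0 + δ) e ∧ wt (z0 + δ) e ≤ 2 * Wn N W m e := by
    intro e he
    have h1 := hexp (ds δ e) ((hdsδ e he).trans (by linarith))
    have h2 := hW0 e he
    rw [hwt e he]
    constructor <;> nlinarith [h1.1, h1.2]
  have hdif : ∀ e ∈ Sq N I, |Wn N W m e - wt (z0 + δ) e| ≤ 8 * C * β * Wn N W m e := by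
    intro e he
    have h2 := hW0 e he
    have h3 := hdsδ e he
    have h4 := exp_l (ds δ e)
    have h5 : Real.exp |ds δ e| ≤ 2 := (hexp _ (by
      rw [abs_abs]
      exact h3.trans (by linarith))).2
    have h6 : |Real.exp (ds δ e) - 1| ≤ 4 * C * β * 2 :=
      h4.trans (mul_le_mul h3 h5 (Real.exp_pos _).le (by positivity))
    rw [hwt e he]
    have e1 : Wn N W m e - Wn N W m e * Real.exp (ds δ e) =
        -(Wn N W m e * (Real.exp (ds δ e) - 1)) := by ring
    rw [e1, abs_neg, abs_mul, abs_of_pos h2]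
    have h7 := mul_le_mul_of_nonneg_left h6 h2.le
    linarith
  refine ⟨z0 + δ, ⟨hSt, ?_, ?_⟩, hfac, ?_⟩
  · intro e he
    have h1 := (hfac e he).2
    have h2 := (hWb e he).2
    have h3 : 0 < L ^ 3 / m := by positivity
    have e1 : 32 * L ^ 3 / m = 32 * (L ^ 3 / m) := by ring
    rw [e1]
    linarith
  · have h1 : (1 / (2 * L)) * (1 / (8 * L ^ 2)) / 200 = 1 / (3200 * L ^ 3) := by
      field_simp
      norm_num
    rw [← h1]
    refine coer (by positivity) ?_ (by positivity) ?_ hm hv ?_ ?_ ?_ ?_ ?_ ?_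
    · rw [div_le_one (by positivity)]
      linarith
    · rw [div_le_one (by positivity)]
      linarith
    · intro e he
      exact (Real.exp_pos _).le
    · intro l hl hr
      have h2 := hSt l hl
      rw [hdg0 l hr, zero_mul, add_zero] at h2
      rw [h2]
      norm_num
    · intro l hl hr
      have h2 := hSt l hl
      have h3 := mul_nonneg (hdgn l) (Real.exp_pos ((z0 + δ) l)).le
      linarith
    · intro l _
      exact mul_nonneg (hdgn l) (Real.exp_pos _).le
    · intro l hl hr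
      change 1 / (2 * L) ≤ dg l * Real.exp (z0 l + δ l)
      rw [hdg1 l hr, one_mul, Real.exp_add]
      have h2 := hz0dg l hr
      have h3 := (hexp (δ l) ((hδ l hl).trans (by nlinarith))).1
      have h4 : 1 / L * (1 / 2) ≤ Real.exp (z0 l) * Real.exp (δ l) :=
        mul_le_mul h2 h3 (by norm_num) (Real.exp_pos _).le
      have e1 : 1 / (2 * L) = 1 / L * (1 / 2) := by
        field_simp
      rw [e1]
      exact h4
    · intro x x' h2 h3 h4
      have h5 := hcg' x x' h2 h3 h4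
      have e1 : 1 / (8 * L ^ 2) / (m : ℝ) = 1 / 4 * (1 / (2 * L ^ 2) / m) := by
        field_simp
        norm_num
      rw [e1]
      refine (mul_le_mul_of_nonneg_left h5 (by norm_num)).trans ?_
      rw [Finset.mul_sum]
      refine Finset.sum_le_sum fun y _ => ?_
      by_cases h : (x, y) ∈ Sq N I ∧ (x', y) ∈ Sq N I
      · rw [if_pos h, if_pos h]
        have h6 := (hfac _ h.1).1
        have h7 := (hfac _ h.2).1
        have h8 := hW0 _ h.1
        have h9 := hW0 _ h.2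
        have h10 := mul_le_mul h6 h7 (by linarith) (Real.exp_pos _).le
        linarith
      · rw [if_neg h, if_neg h, mul_zero]
  · intro l hl
    have h1 := hY l hl
    have h2 : |YY N W m I l - ∑ e ∈ Sl N I l, wt (z0 + δ) e| ≤ 8 * C * β * 2 := by
      have h3 : YY N W m I l - ∑ e ∈ Sl N I l, wt (z0 + δ) e =
          ∑ e ∈ Sl N I l, (Wn N W m e - wt (z0 + δ) e) := by
        unfold YY
        rw [Finset.sum_sub_distrib]
      rw [h3]
      refine (Finset.abs_sum_le_sum_abs _ _).trans ?_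
      refine (Finset.sum_le_sum fun e he => hdif e (hSl l e he)).trans ?_
      rw [← Finset.mul_sum]
      exact mul_le_mul_of_nonneg_left (hYt l hl) (by positivity)
    have e1 : TT N W m l - ∑ e ∈ Sl N I l, wt (z0 + δ) e =
        -(YY N W m I l - TT N W m l) + (YY N W m I l - ∑ e ∈ Sl N I l, wt (z0 + δ) e) := by ring
    rw [e1]
    refine (abs_add_le _ _).trans ?_
    rw [abs_neg]
    linarith

end Pool.Agent.NQL
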