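import Pool.Agent.NQL.Defs
import Pool.Agent.NQL.ABas
import Pool.Agent.NQL.AVal
import Pool.Agent.NQL.BNom
import Pool.Agent.NQL.BSim

/-!
# NQL-BMac: macroscopic instances: the stationary point is close to the nominal one

PLAN. `near_nominal` with `β = d √(2 + 4/t1)` (`I` has `2m` rows and columns and `2 (N + m - 1) ≤ 4 N ≤ 4 m/t1` diagonals), `d0` so small that `β ≤ β0` and
`d0 ≤ L t1`. `CB = C3 √(2 + 4/t1)`. `P2`: `p_l = ∑ wt z ≤ 2 YY ≤ 2 (TT + d) ≤ 4 L m/N`, `∑ p_l = 2m`.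
-/

set_option autoImplicit false

open Finset

namespace Pool.Agent.NQL

open Pool.Agent.NQ (board dsum F Ent Dg phi ln Q Qset QS NonAtt bern)
open Pool.Agent.NQR (Adm Opt Bd Rf hS hD hh InR)

private theorem bmac_card {N m : ℕ} {I : Finset Li} (h : Vd N m I) (hm : 1 ≤ m) (hmN : m ≤ N) :
    (I.card : ℝ) ≤ 2 * m + 4 * N := by
  have h1 : I.card = ∑ k : Fin 4, (I.filter (fun l => l.1 = k)).card :=
    Finset.card_eq_sum_card_fiberwise (f := fun l : Li => l.1) (t := Finset.univ)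
      (fun _ _ => Finset.mem_coe.2 (Finset.mem_univ _))
  rw [Fin.sum_univ_four] at h1
  have c0 := h.crc 0 (by norm_num)
  have c1 := h.crc 1 (by norm_num)
  have c2 := h.cdg 2 (by decide)
  have c3 := h.cdg 3 (by decide)
  have h2 : I.card ≤ 2 * m + 4 * N := by omega
  exact_mod_cast h2

private theorem bmac_p2 {L : ℝ} (hL : 1 ≤ L) {N m : ℕ} {I : Finset Li} {z : Li → ℝ} {c : ℝ}
    (hv : Vd N m I) (hz : St N I z) (hc : ∀ l ∈ I, ¬ rc l → ∑ e ∈ Sl N I l, wt z e ≤ c) :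
    P2 I z ≤ c * (2 * m) := by
  rw [← sum_dg hv hz, Finset.mul_sum]
  unfold P2
  refine Finset.sum_le_sum fun l hl => ?_
  obtain ⟨h1, h2, h3, -⟩ := mass_dg hz hl
  by_cases hr : rc l
  · have e1 : dg l = 0 := by unfold dg; rw [if_pos hr]
    rw [e1]
    simp
  · have e1 : dg l = 1 := by unfold dg; rw [if_neg hr]
    have e2 := hc l hl hr
    rw [e1, ← h3 hr]
    nlinarith

theorem macro_close (L : ℝ) (hL : 1 ≤ L) {t1 : ℝ} (ht : 0 < t1) : ∃ CB d0 : ℝ, 1 ≤ CB ∧ 0 < d0 ∧ d0 ≤ 1 / 4 ∧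
    ∀ (N m : ℕ) (I : Finset Li) (W : ℤ × ℤ → ℝ) (A B : ℤ → ℝ) (d : ℝ), 1 ≤ m → m ≤ N → t1 * N ≤ m →
      Rf L N W A B → Vd N m I → 0 ≤ d → d ≤ d0 → (∀ l ∈ I, |YY N W m I l - TT N W m l| ≤ d) →
      (∀ x x' : ℤ, ((0, x) : Li) ∈ I → ((0, x') : Li) ∈ I → x ≠ x' → 1 / (2 * L ^ 2) ≤ Cg N W m I x x') →
      ∃ z : Li → ℝ, Reg (32 * L ^ 3) (1 / (3200 * L ^ 3)) N m I z ∧
        (∀ e ∈ Sq N I, Wn N W m e / 2 ≤ wt z e ∧ wt z e ≤ 2 * Wn N W m e) ∧ Cl (CB * d) N m W I z ∧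
        P2 I z ≤ 32 * L ^ 3 * m * ((m : ℝ) / N + (m : ℝ) ^ (-(1 / 4) : ℝ)) := by
  obtain ⟨β0, C3, hβ0, -, hC3, H⟩ := near_nominal L hL
  obtain ⟨s, hs⟩ : ∃ s, s = Real.sqrt (2 + 4 / t1) := ⟨_, rfl⟩
  have hpos : 0 < 4 / t1 := by positivity
  have hs1 : 1 ≤ s := by
    rw [hs, Real.one_le_sqrt]
    linarith
  have hs2 : s ^ 2 = 2 + 4 / t1 := by
    rw [hs, Real.sq_sqrt (by linarith)]
  have hs0 : 0 < s := by linarith
  refine ⟨C3 * s, min (β0 / s) (min (1 / 4) (L * t1)), ?_, ?_, ?_, ?_⟩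
  · nlinarith
  · refine lt_min (div_pos hβ0 hs0) (lt_min (by norm_num) (by positivity))
  · exact (min_le_right _ _).trans (min_le_left _ _)
  intro N m I W A B d hm hmN htm hR hV hd hd0 hY hCg
  have hd1 : d ≤ β0 / s := hd0.trans (min_le_left _ _)
  have hd2 : d ≤ L * t1 := (hd0.trans (min_le_right _ _)).trans (min_le_right _ _)
  have hdd : d ≤ d * s := by nlinarith
  have hN : 1 ≤ N := hm.trans hmN
  have hNr : (0 : ℝ) < N := by exact_mod_cast hN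
  have hmr : (0 : ℝ) < m := by exact_mod_cast hm
  have hcard := bmac_card hV hm hmN
  have hN2 : (N : ℝ) ≤ m / t1 := by
    rw [le_div_iff₀ ht]
    linarith
  obtain ⟨z, hz1, hz2, hz3⟩ := H N m I W A B (d * s) hm hmN hR hV (by positivity)
    (by rw [le_div_iff₀ hs0] at hd1; exact hd1) (fun l hl => (hY l hl).trans hdd) (by
      have e1 : ∑ l ∈ I, (YY N W m I l - TT N W m l) ^ 2 ≤ ∑ _l ∈ I, d ^ 2 := by
        refine Finset.sum_le_sum fun l hl => ?_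
        exact sq_le_sq' (by linarith [(abs_le.1 (hY l hl)).1]) (abs_le.1 (hY l hl)).2
      rw [Finset.sum_const, nsmul_eq_mul] at e1
      have e2 : (I.card : ℝ) ≤ s ^ 2 * m := by
        rw [hs2]
        have e3 : (2 + 4 / t1) * (m : ℝ) = 2 * m + 4 * (m / t1) := by ring
        rw [e3]
        linarith
      calc _ ≤ (I.card : ℝ) * d ^ 2 := e1
        _ ≤ (s ^ 2 * m) * d ^ 2 := mul_le_mul_of_nonneg_right e2 (sq_nonneg d)
        _ = (d * s) ^ 2 * m := by ring) hCg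
  refine ⟨z, hz1, hz2, ?_, ?_⟩
  · have e1 : C3 * s * d = C3 * (d * s) := by ring
    rw [e1]
    exact hz3
  · have hc : ∀ l ∈ I, ¬ rc l → ∑ e ∈ Sl N I l, wt z e ≤ 4 * (L * m / N) := by
      intro l hl hr
      have e1 : ∑ e ∈ Sl N I l, wt z e ≤ 2 * YY N W m I l := by
        unfold YY
        rw [Finset.mul_sum]
        exact Finset.sum_le_sum fun e he => (hz2 e (mem_Sl.1 he).1).2
      have e2 := (abs_le.1 (hY l hl)).2
      have e3 := (tt_bd hL hR hm hmN hr).2.1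
      have e4 : L * t1 ≤ L * m / N := by
        rw [mul_div_assoc]
        refine mul_le_mul_of_nonneg_left ?_ (by linarith)
        rw [le_div_iff₀ hNr]
        exact htm
      linarith
    have h1 := bmac_p2 hL hV hz1.st hc
    have hp : 0 ≤ (m : ℝ) ^ (-(1 / 4) : ℝ) := Real.rpow_nonneg hmr.le _
    have hL3 : L ≤ L ^ 3 := by nlinarith [sq_nonneg (L - 1), sq_nonneg L]
    have hmN0 : 0 ≤ (m : ℝ) / N := by positivity
    calc P2 I z ≤ 4 * (L * m / N) * (2 * m) := h1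
      _ = 8 * L * (m * ((m : ℝ) / N)) := by ring
      _ ≤ 32 * L ^ 3 * (m * ((m : ℝ) / N)) := by
          refine mul_le_mul_of_nonneg_right ?_ (by positivity)
          nlinarith
      _ ≤ 32 * L ^ 3 * (m * ((m : ℝ) / N + (m : ℝ) ^ (-(1 / 4) : ℝ))) := by
          refine mul_le_mul_of_nonneg_left ?_ (by positivity)
          refine mul_le_mul_of_nonneg_left ?_ hmr.le
          linarith
      _ = 32 * L ^ 3 * m * ((m : ℝ) / N + (m : ℝ) ^ (-(1 / 4) : ℝ)) := by ring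

end Pool.Agent.NQL
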