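import Pool.Agent.NQL.Defs
import Pool.Agent.NQL.ABas
import Pool.Agent.NQL.AVal
import Pool.Agent.NQL.BNom
import Pool.Agent.NQL.BSim

/-!
# NQL-BReg: good instances have a regular stationary point

The masses of a good instance are close to the nominal ones, in `l²` (macroscopic case: by the
tolerance `ε'`; microscopic case: all diagonal masses are small), so `near_nominal` applies.
-/

set_option autoImplicit false

open Finset

namespace Pool.Agent.NQL

open Pool.Agent.NQ (board dsum F Ent Dg phi ln Q Qset QS NonAtt bern)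
open Pool.Agent.NQR (Adm Opt Bd Rf hS hD hh InR)

private theorem br_type {N m : ℕ} {I : Finset Li} {W : ℤ × ℤ → ℝ} (k0 : Fin 4) :
    ∑ l ∈ I.filter (fun l => l.1 = k0), YY N W m I l = ∑ e ∈ Sq N I, Wn N W m e := by
  have h := line_sum (N := N) (I := I) (fun e l => if l.1 = k0 then Wn N W m e else 0)
  rw [Finset.sum_filter]
  have h1 : ∀ l ∈ I, (if l.1 = k0 then YY N W m I l else 0) =
      ∑ e ∈ Sl N I l, if l.1 = k0 then Wn N W m e else 0 := by
    intro l _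
    unfold YY
    split_ifs
    · rfl
    · rw [Finset.sum_const_zero]
  rw [Finset.sum_congr rfl h1, h]
  refine Finset.sum_congr rfl fun e _ => ?_
  show (∑ k : Fin 4, if k = k0 then Wn N W m e else 0) = Wn N W m e
  rw [Finset.sum_ite_eq' univ k0 (fun _ => Wn N W m e), if_pos (Finset.mem_univ _)]

private theorem br_split (I : Finset Li) (f : Li → ℝ) :
    ∑ l ∈ I, f l = ∑ k : Fin 4, ∑ l ∈ I.filter (fun l => l.1 = k), f l :=
  (Finset.sum_fiberwise I (fun l => l.1) f).symm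

private theorem br_rc {l : Li} {k : Fin 4} (h : l.1 = k) : rc l ↔ (k : ℕ) < 2 := by
  unfold rc
  rw [h]

private theorem br_ab {a b r : ℝ} (ha : 0 ≤ a) (hb : 0 ≤ b) (har : a ≤ r) (hbr : b ≤ r) :
    |a - b| ≤ r ∧ (a - b) ^ 2 ≤ r * (a + b) := by
  have h1 : |a - b| ≤ r := by
    rw [abs_le]
    constructor <;> linarith
  have h2 : |a - b| ≤ a + b := by
    rw [abs_le]
    constructor <;> linarith
  refine ⟨h1, ?_⟩
  rw [← sq_abs, pow_two]
  exact mul_le_mul h1 h2 (abs_nonneg _) (le_trans (abs_nonneg _) h1)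

private theorem br_tend {κ : ℝ} (hκ : 0 < κ) : ∃ m0 : ℕ, 1 ≤ m0 ∧ ∀ m : ℕ, m0 ≤ m →
    (m : ℝ) ^ (-(1 / 4) : ℝ) ≤ κ := by
  have h1 := (tendsto_rpow_neg_atTop (by norm_num : (0 : ℝ) < 1 / 4)).comp
    (tendsto_natCast_atTop_atTop (R := ℝ))
  obtain ⟨m0, hm0⟩ := Filter.eventually_atTop.1 (h1.eventually_le_const hκ)
  exact ⟨max m0 1, le_max_right _ _, fun m hm => hm0 m ((le_max_left _ _).trans hm)⟩

private theorem br_yy_nonneg {L : ℝ} (hL : 1 ≤ L) {N m : ℕ} {W : ℤ × ℤ → ℝ} {A B : ℤ → ℝ}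
    (hR : Rf L N W A B) (h1 : 1 ≤ m) (h2 : m ≤ N) (I : Finset Li) (l : Li) :
    0 ≤ YY N W m I l := by
  unfold YY
  refine Finset.sum_nonneg fun e he => ?_
  have he' : e ∈ board N := (mem_Sq.1 (mem_Sl.1 he).1).1
  have h3 := (wn_bd hL hR h1 h2 he').1
  have hm : (0 : ℝ) < m := by exact_mod_cast h1
  have h4 : 0 < 1 / (L * m) := by positivity
  linarith

private theorem br_P2 {L : ℝ} (hL : 1 ≤ L) {N m : ℕ} {W : ℤ × ℤ → ℝ} {I : Finset Li}
    {z : Li → ℝ} {r : ℝ} (hv : Vd N m I) (hz : St N I z)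
    (hw : ∀ e ∈ Sq N I, wt z e ≤ 2 * Wn N W m e)
    (hl : ∀ l ∈ I, ¬ rc l → YY N W m I l ≤ 8 * L ^ 3 * r) :
    P2 I z ≤ 32 * L ^ 3 * m * r := by
  have h1 : P2 I z ≤ ∑ l ∈ I, 16 * L ^ 3 * r * (dg l * (1 - Real.exp (z l))) := by
    unfold P2
    refine Finset.sum_le_sum fun l hlI => ?_
    by_cases h : rc l
    · unfold dg
      rw [if_pos h]
      simp
    · obtain ⟨a1, a2, a3, a4⟩ := mass_dg hz hlI
      rw [a3 h] at a1
      have h2 : 1 - Real.exp (z l) ≤ 16 * L ^ 3 * r := by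
        rw [← a3 h]
        calc ∑ e ∈ Sl N I l, wt z e ≤ ∑ e ∈ Sl N I l, 2 * Wn N W m e :=
              Finset.sum_le_sum fun e he => hw e (mem_Sl.1 he).1
          _ = 2 * YY N W m I l := by unfold YY; rw [Finset.mul_sum]
          _ ≤ 2 * (8 * L ^ 3 * r) := by linarith [hl l hlI h]
          _ = 16 * L ^ 3 * r := by ring
      unfold dg
      rw [if_neg h, one_mul, one_mul, pow_two]
      exact mul_le_mul_of_nonneg_right h2 a1
  rw [← Finset.mul_sum, sum_dg hv hz] at h1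
  refine h1.trans (le_of_eq ?_)
  ring

private theorem br_cardd {N m : ℕ} {I : Finset Li} (hv : Vd N m I) (hmN : m ≤ N) {k : Fin 4}
    (hk : 2 ≤ (k : ℕ)) : ((I.filter (fun l => l.1 = k)).card : ℝ) ≤ 2 * N := by
  have h := hv.cdg k hk
  have h1 : (I.filter (fun l => l.1 = k)).card ≤ 2 * N := by omega
  exact_mod_cast h1

theorem good_reg (L : ℝ) (hL : 1 ≤ L) : ∃ ε t1s : ℝ, 0 < ε ∧ ε ≤ 1 / 4 ∧ 0 < t1s ∧ t1s ≤ 1 / 4 ∧
    ∀ t1 : ℝ, 0 < t1 → t1 ≤ t1s → ∃ (ε' : ℝ) (m0 : ℕ), 0 < ε' ∧ ε' ≤ ε ∧ 1 ≤ m0 ∧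
      ∀ (N m : ℕ) (I : Finset Li) (W : ℤ × ℤ → ℝ) (A B : ℤ → ℝ), m0 ≤ m → m ≤ N → Rf L N W A B →
        Good L ε t1 ε' N m W I →
        ∃ z : Li → ℝ, Reg (32 * L ^ 3) (1 / (3200 * L ^ 3)) N m I z ∧
          (∀ e ∈ Sq N I, Wn N W m e / 2 ≤ wt z e ∧ wt z e ≤ 2 * Wn N W m e) ∧
          P2 I z ≤ 32 * L ^ 3 * m * ((m : ℝ) / N + (m : ℝ) ^ (-(1 / 4) : ℝ)) := by
  obtain ⟨β0, C3, hβ0, hβ1, hC3, hnn⟩ := near_nominal L hL
  have hL0 : 0 < L := by linarith
  have hL4 : 1 ≤ L ^ 4 := one_le_pow₀ hL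
  obtain ⟨κ, hκ⟩ : ∃ κ : ℝ, κ = β0 ^ 2 / (224 * L ^ 4) := ⟨_, rfl⟩
  have hκ0 : 0 < κ := by rw [hκ]; positivity
  have hκ1 : κ ≤ 1 / 4 := by
    rw [hκ, div_le_iff₀ (by positivity)]
    nlinarith
  refine ⟨β0 / 2, κ, by linarith, by linarith, hκ0, hκ1, ?_⟩
  intro t1 ht1 ht1κ
  obtain ⟨m0, hm01, hm0⟩ := br_tend hκ0
  have hsq0 : 0 < Real.sqrt t1 := Real.sqrt_pos.2 ht1
  have hsq : Real.sqrt t1 ^ 2 = t1 := Real.sq_sqrt ht1.le
  have hsq1 : Real.sqrt t1 ≤ 1 := by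
    rw [Real.sqrt_le_one]
    linarith
  refine ⟨β0 * Real.sqrt t1 / 4, m0, by positivity, ?_, hm01, ?_⟩
  · have : β0 * Real.sqrt t1 ≤ β0 * 1 := mul_le_mul_of_nonneg_left hsq1 hβ0.le
    linarith
  intro N m I W A B hm hmN hR hG
  have hm1 : 1 ≤ m := hm01.trans hm
  have hmr : (0 : ℝ) < m := by exact_mod_cast hm1
  have hNr : (0 : ℝ) < N := by exact_mod_cast (hm1.trans hmN)
  obtain ⟨q, hq⟩ : ∃ q : ℝ, q = (m : ℝ) / N + (m : ℝ) ^ (-(1 / 4) : ℝ) := ⟨_, rfl⟩
  have hrp : 0 ≤ (m : ℝ) ^ (-(1 / 4) : ℝ) := Real.rpow_nonneg hmr.le _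
  have hmNq : (m : ℝ) / N ≤ q := by rw [hq]; linarith
  have hq0 : 0 ≤ q := le_trans (by positivity) hmNq
  have hlmi : ∀ l ∈ I, ¬ rc l → YY N W m I l ≤ 8 * L ^ 3 * q := by
    intro l hl h
    rw [hq]
    exact hG.lmi l hl h
  have hYY0 := br_yy_nonneg hL hR hm1 hmN I
  have hL3 : L ≤ 8 * L ^ 3 := by
    have h1 : 1 ≤ L ^ 2 := one_le_pow₀ hL
    have h2 : L * 1 ≤ L * L ^ 2 := mul_le_mul_of_nonneg_left h1 hL0.le
    have h3 : L ^ 3 = L * L ^ 2 := by ring
    rw [h3]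
    nlinarith
  -- nominal masses of diagonals
  have hTT : ∀ l, ¬ rc l → 0 ≤ TT N W m l ∧ TT N W m l ≤ L * (m / N) ∧
      TT N W m l ≤ 8 * L ^ 3 * q := by
    intro l hl
    obtain ⟨a1, a2, -⟩ := tt_bd hL hR hm1 hmN hl
    have a3 : TT N W m l ≤ L * (m / N) := by
      refine a2.trans (le_of_eq ?_)
      ring
    refine ⟨a1, a3, a3.trans ?_⟩
    exact mul_le_mul hL3 hmNq (by positivity) (by positivity)
  -- in the microscopic case all diagonal masses are small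
  have hmic : ¬ t1 * N ≤ m → 8 * L ^ 3 * q ≤ β0 ^ 2 / (14 * L) := by
    intro h
    have h1 : (m : ℝ) / N ≤ κ := by
      rw [div_le_iff₀ hNr]
      have h2 : (m : ℝ) < t1 * N := not_le.1 h
      have h3 : t1 * N ≤ κ * N := mul_le_mul_of_nonneg_right ht1κ hNr.le
      linarith
    have h2 : q ≤ 2 * κ := by
      rw [hq]
      linarith [hm0 m hm]
    have h3 : 8 * L ^ 3 * q ≤ 8 * L ^ 3 * (2 * κ) := mul_le_mul_of_nonneg_left h2 (by positivity)
    refine h3.trans (le_of_eq ?_)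
    rw [hκ]
    field_simp
    norm_num
  have hβL : β0 ^ 2 / (14 * L) ≤ β0 := by
    rw [div_le_iff₀ (by positivity)]
    nlinarith
  -- the differences
  have hD : ∀ l ∈ I, |YY N W m I l - TT N W m l| ≤ β0 := by
    intro l hl
    by_cases h : rc l
    · rw [tt_rc h]
      have := hG.lrc l hl h
      linarith
    · by_cases hmac : t1 * N ≤ m
      · have h1 := hG.ldg hmac l hl h
        have : β0 * Real.sqrt t1 ≤ β0 * 1 := mul_le_mul_of_nonneg_left hsq1 hβ0.le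
        linarith
      · obtain ⟨a1, -, a3⟩ := hTT l h
        exact ((br_ab (hYY0 l) a1 (hlmi l hl h) a3).1.trans (hmic hmac)).trans hβL
  have hrow : ∀ k : Fin 4, (k : ℕ) < 2 →
      ∑ l ∈ I.filter (fun l => l.1 = k), (YY N W m I l - TT N W m l) ^ 2 ≤ β0 ^ 2 * m / 4 := by
    intro k hk
    have h1 : ∀ l ∈ I.filter (fun l => l.1 = k), (YY N W m I l - TT N W m l) ^ 2 ≤
        (β0 / 2) ^ 2 := by
      intro l hl
      rw [Finset.mem_filter] at hl
      have h2 : rc l := (br_rc hl.2).2 hk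
      rw [tt_rc h2, ← sq_abs]
      exact pow_le_pow_left₀ (abs_nonneg _) (hG.lrc l hl.1 h2) 2
    refine (Finset.sum_le_sum h1).trans (le_of_eq ?_)
    rw [Finset.sum_const, nsmul_eq_mul, hG.vd.crc k hk]
    ring
  have hdia : ∀ k : Fin 4, 2 ≤ (k : ℕ) →
      ∑ l ∈ I.filter (fun l => l.1 = k), (YY N W m I l - TT N W m l) ^ 2 ≤ β0 ^ 2 * m / 4 := by
    intro k hk
    have hcard := br_cardd hG.vd hmN hk
    have hnrc : ∀ l ∈ I.filter (fun l => l.1 = k), l ∈ I ∧ ¬ rc l := by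
      intro l hl
      rw [Finset.mem_filter] at hl
      refine ⟨hl.1, fun h => ?_⟩
      have := (br_rc hl.2).1 h
      omega
    by_cases hmac : t1 * N ≤ m
    · have h1 : ∀ l ∈ I.filter (fun l => l.1 = k), (YY N W m I l - TT N W m l) ^ 2 ≤
          β0 ^ 2 * t1 / 16 := by
        intro l hl
        obtain ⟨hl1, hl2⟩ := hnrc l hl
        rw [← sq_abs]
        have h2 : (β0 * Real.sqrt t1 / 4) ^ 2 = β0 ^ 2 * t1 / 16 := by
          rw [div_pow, mul_pow, hsq]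
          norm_num
        rw [← h2]
        exact pow_le_pow_left₀ (abs_nonneg _) (hG.ldg hmac l hl1 hl2) 2
      refine (Finset.sum_le_sum h1).trans ?_
      rw [Finset.sum_const, nsmul_eq_mul]
      have h3 : ((I.filter (fun l => l.1 = k)).card : ℝ) * (β0 ^ 2 * t1 / 16) ≤
          2 * N * (β0 ^ 2 * t1 / 16) := mul_le_mul_of_nonneg_right hcard (by positivity)
      refine h3.trans ?_
      have h4 : 2 * N * (β0 ^ 2 * t1 / 16) = β0 ^ 2 * (t1 * N) / 8 := by ring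
      rw [h4]
      have h5 : β0 ^ 2 * (t1 * N) ≤ β0 ^ 2 * m := mul_le_mul_of_nonneg_left hmac (by positivity)
      have h6 : 0 ≤ β0 ^ 2 * m := by positivity
      linarith
    · have h1 : ∀ l ∈ I.filter (fun l => l.1 = k), (YY N W m I l - TT N W m l) ^ 2 ≤
          β0 ^ 2 / (14 * L) * (YY N W m I l + L * (m / N)) := by
        intro l hl
        obtain ⟨hl1, hl2⟩ := hnrc l hl
        obtain ⟨a1, a2, a3⟩ := hTT l hl2
        refine (br_ab (hYY0 l) a1 ((hlmi l hl1 hl2).trans (hmic hmac))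
          (a3.trans (hmic hmac))).2.trans ?_
        exact mul_le_mul_of_nonneg_left (by linarith) (by positivity)
      refine (Finset.sum_le_sum h1).trans ?_
      rw [← Finset.mul_sum, Finset.sum_add_distrib, br_type k, ← br_type (0 : Fin 4),
        Finset.sum_const, nsmul_eq_mul]
      have h2 : ∑ l ∈ I.filter (fun l => l.1 = (0 : Fin 4)), YY N W m I l ≤ m * (5 / 4) := by
        have h3 : ∀ l ∈ I.filter (fun l => l.1 = (0 : Fin 4)), YY N W m I l ≤ 5 / 4 := by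
          intro l hl
          rw [Finset.mem_filter] at hl
          have h4 : rc l := (br_rc hl.2).2 (by norm_num)
          have h5 := (abs_le.1 (hG.lrc l hl.1 h4)).2
          linarith
        refine (Finset.sum_le_sum h3).trans (le_of_eq ?_)
        rw [Finset.sum_const, nsmul_eq_mul, hG.vd.crc 0 (by norm_num)]
      have h6 : ((I.filter (fun l => l.1 = k)).card : ℝ) * (L * (m / N)) ≤ 2 * L * m := by
        have h7 : ((I.filter (fun l => l.1 = k)).card : ℝ) * (L * (m / N)) ≤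
            2 * N * (L * (m / N)) := mul_le_mul_of_nonneg_right hcard (by positivity)
        refine h7.trans (le_of_eq ?_)
        field_simp
      have h8 : ∑ l ∈ I.filter (fun l => l.1 = (0 : Fin 4)), YY N W m I l +
          ((I.filter (fun l => l.1 = k)).card : ℝ) * (L * (m / N)) ≤ 7 / 2 * L * m := by
        have h9 : (m : ℝ) * 1 ≤ m * L := mul_le_mul_of_nonneg_left hL hmr.le
        nlinarith
      refine (mul_le_mul_of_nonneg_left h8 (by positivity)).trans (le_of_eq ?_)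
      field_simp
      norm_num
  have hsum : ∑ l ∈ I, (YY N W m I l - TT N W m l) ^ 2 ≤ β0 ^ 2 * m := by
    rw [br_split, Fin.sum_univ_four]
    have r0 := hrow 0 (by norm_num)
    have r1 := hrow 1 (by norm_num)
    have r2 := hdia 2 (by norm_num)
    have r3 := hdia 3 (by norm_num)
    linarith
  obtain ⟨z, hz1, hz2, -⟩ := hnn N m I W A B β0 hm1 hmN hR hG.vd hβ0.le le_rfl hD hsum hG.cg
  refine ⟨z, hz1, hz2, ?_⟩
  rw [← hq]
  exact br_P2 hL hG.vd hz1.st (fun e he => (hz2 e he).2) hlmi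

end Pool.Agent.NQL
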