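import Pool.Agent.NQL.Defs
import Pool.Agent.NQL.ABas
import Pool.Agent.NQL.AVal
import Pool.Agent.NQL.BNom
import Pool.Agent.NQL.BReg
import Pool.Agent.NQL.BMac
import Pool.Agent.NQL.BGlo

/-!
# NQL-CReg: regular stationary points for the lower bound
-/

set_option autoImplicit false

open Finset

namespace Pool.Agent.NQL

open Pool.Agent.NQ (board dsum F Ent Dg phi ln Q Qset QS NonAtt bern)
open Pool.Agent.NQR (Adm Opt Bd Rf hS hD hh InR)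

open Classical in
theorem glo_reg (L : ℝ) (hL : 1 ≤ L) : ∃ εg t1s : ℝ, 0 < εg ∧ εg ≤ 1 / 4 ∧ 0 < t1s ∧ t1s ≤ 1 / 4 ∧
    ∀ t1 : ℝ, 0 < t1 → t1 ≤ t1s → ∃ (CB ε'g : ℝ) (m0 : ℕ), 1 ≤ CB ∧ 0 < ε'g ∧ ε'g ≤ εg ∧ 1 ≤ m0 ∧
      ∀ (γ : ℕ → ℝ) (m1 N m : ℕ) (I : Finset Li) (W : ℤ × ℤ → ℝ) (A B : ℤ → ℝ), m0 ≤ m → m ≤ N →
        Rf L N W A B → γ m ≤ εg → (t1 * N ≤ m → 0 ≤ γ m ∧ γ m ≤ ε'g) → GLo L t1 γ m1 N m W I →
        ∃ z : Li → ℝ, Reg (32 * L ^ 3) (1 / (3200 * L ^ 3)) N m I z ∧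
          Cl (if t1 * N ≤ m then CB * γ m else 16 * L ^ 3 * ((m : ℝ) / N + (m : ℝ) ^ (-(1 / 4) : ℝ))) N m W I z ∧
          P2 I z ≤ 32 * L ^ 3 * m * ((m : ℝ) / N + (m : ℝ) ^ (-(1 / 4) : ℝ)) := by
  obtain ⟨ε, t1s, hε, hε4, hts, hts4, H⟩ := good_reg L hL
  refine ⟨ε, t1s, hε, hε4, hts, hts4, ?_⟩
  intro t1 ht1 ht1s
  obtain ⟨ε', m0, hε', hε'ε, hm0, H2⟩ := H t1 ht1 ht1s
  obtain ⟨CB, d0, hCB, hd0, hd04, H3⟩ := macro_close L hL ht1
  refine ⟨CB, min ε' d0, m0, hCB, lt_min hε' hd0, (min_le_left _ _).trans hε'ε, hm0, ?_⟩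
  intro γ m1 N m I W A B hm hmN hR hγ hγ' hG
  have hm1 : 1 ≤ m := hm0.trans hm
  have hmr : (0 : ℝ) < m := by exact_mod_cast hm1
  have hNr : (0 : ℝ) < N := by exact_mod_cast (hm1.trans hmN)
  by_cases hmac : t1 * N ≤ m
  · obtain ⟨g0, g1⟩ := hγ' hmac
    obtain ⟨z, hz1, hz2, hz3, hz4⟩ := H3 N m I W A B (γ m) hm1 hmN hmac hR hG.vd g0
      (g1.trans (min_le_right _ _)) (by
        intro l hl
        by_cases h : rc l
        · rw [tt_rc h]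
          exact hG.lrc l hl h
        · exact hG.ldg hmac l hl h) hG.cg
    refine ⟨z, hz1, ?_, hz4⟩
    rw [if_pos hmac]
    exact hz3
  · have hgood : Good L ε t1 ε' N m W I := glo_good hL hR hm1 hmN hγ (fun h => absurd h hmac) hG
    obtain ⟨z, hz1, hz2, hz3⟩ := H2 N m I W A B hm hmN hR hgood
    refine ⟨z, hz1, ?_, hz3⟩
    rw [if_neg hmac]
    intro l hl
    obtain ⟨a1, a2, a3, a4⟩ := mass_dg hz1.st hl
    have hp : 0 ≤ (m : ℝ) ^ (-(1 / 4) : ℝ) := Real.rpow_nonneg hmr.le _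
    have hmN0 : 0 ≤ (m : ℝ) / N := by positivity
    have hL0 : 0 < L := by linarith
    obtain ⟨q, hq⟩ : ∃ q : ℝ, q = (m : ℝ) / N + (m : ℝ) ^ (-(1 / 4) : ℝ) := ⟨_, rfl⟩
    have hmq : (m : ℝ) / N ≤ q := by rw [hq]; linarith
    have hq0 : 0 ≤ q := hmN0.trans hmq
    by_cases h : rc l
    · rw [tt_rc h, a4 h, sub_self, abs_zero, ← hq]
      positivity
    · obtain ⟨b1, b2, -⟩ := tt_bd (N := N) (m := m) (W := W) hL hR hm1 hmN h
      have hlm := hgood.lmi l hl h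
      rw [← hq] at hlm ⊢
      have e1 : ∑ e ∈ Sl N I l, wt z e ≤ 2 * YY N W m I l := by
        unfold YY
        rw [Finset.mul_sum]
        exact Finset.sum_le_sum fun e he => (hz2 e (mem_Sl.1 he).1).2
      have e2 : TT N W m l ≤ 16 * L ^ 3 * q := by
        have e3 : L ≤ 16 * L ^ 3 := by
          have h1 : 1 ≤ L ^ 2 := one_le_pow₀ hL
          have h2 : L * 1 ≤ L * L ^ 2 := mul_le_mul_of_nonneg_left h1 hL0.le
          have h3 : L ^ 3 = L * L ^ 2 := by ring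
          have h4 : 0 ≤ L ^ 3 := by positivity
          linarith
        calc TT N W m l ≤ L * m / N := b2
          _ = L * ((m : ℝ) / N) := by ring
          _ ≤ 16 * L ^ 3 * q := mul_le_mul e3 hmq hmN0 (by positivity)
      rw [abs_le]
      constructor
      · linarith
      · linarith

end Pool.Agent.NQL
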