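import Pool.Agent.NQL.Defs
import Pool.Agent.NQL.CFam

/-!
# NQL-CSeq: choice of the tolerances and budgets (real analysis)

Given `L`, `c`, `C`, `Cs`, `ε`, `t1s` one chooses `t1`, then the constants `CB`, `ε'` (depending on `t1`) are given,
then the sequences: `γ N m = γ0 exp (h (1 - m/N))` for `t1 N ≤ m` and `ε` below it; `b N m` is the required
lower bound.
-/

set_option autoImplicit false

open Finset

namespace Pool.Agent.NQL

open Pool.Agent.NQ (board dsum F Ent Dg phi ln Q Qset QS NonAtt bern)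
open Pool.Agent.NQR (Adm Opt Bd Rf hS hD hh InR)

private theorem quart_step (k : ℕ) (hk : 1 ≤ k) :
    ((k + 1 : ℕ) : ℝ) ^ (-(1 / 4) : ℝ) / ((k + 1 : ℕ) : ℝ) ≤
      4 * ((k : ℝ) ^ (-(1 / 4) : ℝ) - ((k + 1 : ℕ) : ℝ) ^ (-(1 / 4) : ℝ)) := by
  have hk0 : (0 : ℝ) < k := by exact_mod_cast hk
  have hk1 : (0 : ℝ) < ((k + 1 : ℕ) : ℝ) := by positivity
  have hu0 : 0 < (k : ℝ) ^ ((1 / 4 : ℝ)) := Real.rpow_pos_of_pos hk0 _
  have hv0 : 0 < ((k + 1 : ℕ) : ℝ) ^ ((1 / 4 : ℝ)) := Real.rpow_pos_of_pos hk1 _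
  have hu4 : ((k : ℝ) ^ ((1 / 4 : ℝ))) ^ 4 = k := by
    rw [← Real.rpow_natCast, ← Real.rpow_mul hk0.le]; norm_num
  have hv4 : (((k + 1 : ℕ) : ℝ) ^ ((1 / 4 : ℝ))) ^ 4 = ((k + 1 : ℕ) : ℝ) := by
    rw [← Real.rpow_natCast, ← Real.rpow_mul hk1.le]; norm_num
  have e1 : (k : ℝ) ^ (-(1 / 4) : ℝ) = ((k : ℝ) ^ ((1 / 4 : ℝ)))⁻¹ := Real.rpow_neg hk0.le _
  have e2 : ((k + 1 : ℕ) : ℝ) ^ (-(1 / 4) : ℝ) = (((k + 1 : ℕ) : ℝ) ^ ((1 / 4 : ℝ)))⁻¹ :=
    Real.rpow_neg hk1.le _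
  have huv : (k : ℝ) ^ ((1 / 4 : ℝ)) ≤ ((k + 1 : ℕ) : ℝ) ^ ((1 / 4 : ℝ)) :=
    Real.rpow_le_rpow hk0.le (by push_cast; linarith) (by norm_num)
  rw [e1, e2]
  generalize (k : ℝ) ^ ((1 / 4 : ℝ)) = u at *
  generalize ((k + 1 : ℕ) : ℝ) ^ ((1 / 4 : ℝ)) = v at *
  have h1 : v ^ 4 - u ^ 4 = 1 := by rw [hv4, hu4]; push_cast; ring
  have h2 : 1 ≤ (v - u) * (4 * v ^ 3) := by
    have a0 : 0 ≤ v - u := sub_nonneg.2 huv
    have a1 : v ^ 2 * u ≤ v ^ 2 * v := mul_le_mul_of_nonneg_left huv (by positivity)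
    have a2 : v * u ^ 2 ≤ v * v ^ 2 :=
      mul_le_mul_of_nonneg_left (pow_le_pow_left₀ hu0.le huv 2) hv0.le
    have a3 : u ^ 3 ≤ v ^ 3 := pow_le_pow_left₀ hu0.le huv 3
    calc (1 : ℝ) = (v - u) * (v ^ 3 + v ^ 2 * u + v * u ^ 2 + u ^ 3) := by rw [← h1]; ring
      _ ≤ (v - u) * (4 * v ^ 3) := by
        refine mul_le_mul_of_nonneg_left ?_ a0
        nlinarith [a1, a2, a3]
  rw [← hv4, div_le_iff₀ (by positivity)]
  have e3 : 4 * (u⁻¹ - v⁻¹) * v ^ 4 = (v - u) * (4 * v ^ 3) * u⁻¹ := by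
    field_simp
  have h3 : v⁻¹ ≤ u⁻¹ := inv_anti₀ hu0 huv
  rw [e3]
  calc v⁻¹ ≤ u⁻¹ := h3
    _ = 1 * u⁻¹ := (one_mul _).symm
    _ ≤ _ := mul_le_mul_of_nonneg_right h2 (by positivity)

private theorem quart_sum (k N : ℕ) (hk : 1 ≤ k) (hkN : k ≤ N) :
    ∑ j ∈ Ioc k N, (j : ℝ) ^ (-(1 / 4) : ℝ) / j ≤
      4 * ((k : ℝ) ^ (-(1 / 4) : ℝ) - (N : ℝ) ^ (-(1 / 4) : ℝ)) := by
  induction N, hkN using Nat.le_induction with
  | base => simp
  | succ N hN ih =>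
    have e : Ioc k (N + 1) = insert (N + 1) (Ioc k N) := by
      ext x; simp only [mem_Ioc, mem_insert]; omega
    rw [e, sum_insert (by simp)]
    have := quart_step N (hk.trans hN)
    linarith

private theorem geo_sum (γ0 h : ℝ) (hγ : 0 < γ0) (hh : 0 < h) (N k M : ℕ) (hN : 1 ≤ N) (hk : k ≤ M) :
    ∑ j ∈ Ioc k M, γ0 * Real.exp (h * (1 - (j : ℝ) / N)) ≤
      (N / h) * (γ0 * Real.exp (h * (1 - (k : ℝ) / N)) - γ0 * Real.exp (h * (1 - (M : ℝ) / N))) := by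
  have hN0 : (0 : ℝ) < N := by exact_mod_cast hN
  induction M, hk using Nat.le_induction with
  | base => simp
  | succ M hM ih =>
    have e : Ioc k (M + 1) = insert (M + 1) (Ioc k M) := by
      ext x; simp only [mem_Ioc, mem_insert]; omega
    rw [e, sum_insert (by simp)]
    have e1 : Real.exp (h * (1 - (M : ℝ) / N)) =
        Real.exp (h / N) * Real.exp (h * (1 - ((M + 1 : ℕ) : ℝ) / N)) := by
      rw [← Real.exp_add]
      congr 1
      push_cast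
      field_simp
      ring
    have e2 : h / N + 1 ≤ Real.exp (h / N) := Real.add_one_le_exp _
    rw [e1] at ih
    set X := Real.exp (h * (1 - ((M + 1 : ℕ) : ℝ) / N)) with hX
    have hX0 : 0 < X := Real.exp_pos _
    have e3 : (h / N + 1) * X ≤ Real.exp (h / N) * X := mul_le_mul_of_nonneg_right e2 hX0.le
    have e4 : (N / h) * ((h / N + 1) * X) ≤ (N / h) * (Real.exp (h / N) * X) :=
      mul_le_mul_of_nonneg_left e3 (by positivity)
    have e5 : (N / h) * ((h / N + 1) * X) = X + (N / h) * X := by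
      field_simp
    have e6 : γ0 * (X + (N / h) * X) ≤ γ0 * ((N / h) * (Real.exp (h / N) * X)) := by
      rw [← e5]
      exact mul_le_mul_of_nonneg_left e4 hγ.le
    have e7 : (N / h) * (γ0 * Real.exp (h * (1 - (k : ℝ) / N)) - γ0 * (Real.exp (h / N) * X)) =
      (N / h) * (γ0 * Real.exp (h * (1 - (k : ℝ) / N))) - γ0 * ((N / h) * (Real.exp (h / N) * X)) := by
      ring
    have e8 : (N / h) * (γ0 * Real.exp (h * (1 - (k : ℝ) / N)) - γ0 * X) =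
      (N / h) * (γ0 * Real.exp (h * (1 - (k : ℝ) / N))) - γ0 * ((N / h) * X) := by
      ring
    rw [e7] at ih
    rw [e8]
    linarith

/-- number of small indices -/
private theorem card_small (T : ℝ) (hT : 0 ≤ T) (k N : ℕ) :
    (((Ioc k N).filter (fun j : ℕ => ¬ T ≤ (j : ℝ))).card : ℝ) ≤ T := by
  have h1 : (Ioc k N).filter (fun j : ℕ => ¬ T ≤ (j : ℝ)) ⊆ Ioc 0 ⌊T⌋₊ := by
    intro j hj
    rw [mem_filter, mem_Ioc] at hj
    rw [mem_Ioc]
    exact ⟨by omega, Nat.le_floor (not_le.1 hj.2).le⟩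
  have h2 := card_le_card h1
  rw [Nat.card_Ioc, Nat.sub_zero] at h2
  exact (Nat.cast_le.2 h2).trans (Nat.floor_le hT)

private theorem tail_small (r η : ℝ) (hr : 0 ≤ r) (hr1 : r < 1) (hη : 0 < η) :
    ∃ m0 : ℕ, ∀ t : Finset ℕ, (∀ k ∈ t, m0 ≤ k) → ∑ k ∈ t, (k : ℝ) * r ^ k ≤ η := by
  have hs : Summable (fun k : ℕ => (k : ℝ) ^ 1 * r ^ k) :=
    summable_pow_mul_geometric_of_norm_lt_one 1 (by rwa [Real.norm_of_nonneg hr])
  obtain ⟨s, hs'⟩ := summable_iff_vanishing_norm.1 hs η hη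
  refine ⟨s.sup id + 1, fun t ht => ?_⟩
  have hd : Disjoint t s := by
    rw [disjoint_left]
    intro k hk hks
    have h1 : k ≤ s.sup id := le_sup (f := id) hks
    have h2 := ht k hk
    omega
  have h3 := hs' t hd
  simp only [pow_one] at h3
  exact (le_abs_self _).trans h3.le

theorem seqs (L c C Cs ε t1s : ℝ) (hL : 1 ≤ L) (hc : 1 ≤ c) (hC : 1 ≤ C) (hCs : 1 ≤ Cs) (hε : 0 < ε)
    (hε1 : ε ≤ 1 / 4) (ht : 0 < t1s) (ht1 : t1s ≤ 1 / 4) : ∃ t1 : ℝ, 0 < t1 ∧ t1 ≤ t1s ∧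
    ∀ CB ε' η : ℝ, 1 ≤ CB → 0 < ε' → ε' ≤ ε → 0 < η → ∃ (m0 : ℕ) (γ b : ℕ → ℕ → ℝ), 2 ≤ m0 ∧
      (∀ N m : ℕ, 0 < γ N m ∧ γ N m ≤ ε ∧ (t1 * N ≤ m → γ N m ≤ ε')) ∧
      (∀ N m : ℕ, m0 ≤ m → m ≤ N → t1 * N ≤ m → Cs * (CB * γ N m + 1 / m) / m ≤ b N m) ∧
      (∀ N m : ℕ, m0 ≤ m → m ≤ N → ¬ t1 * N ≤ m →
        Cs * (16 * L ^ 3 * ((m : ℝ) / N + (m : ℝ) ^ (-(1 / 4) : ℝ)) + 1 / m) / m ≤ b N m) ∧
      ∀ m0' : ℕ, m0 ≤ m0' → ∃ N0 : ℕ, ∀ N : ℕ, N0 ≤ N →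
        (∀ k : ℕ, m0' ≤ k → k ≤ N → Bs (b N) N - Bs (b N) k ≤ γ N k / 2) ∧
        ∑ k ∈ Finset.Icc m0' N, (k : ℝ) * Real.exp (C - γ N k ^ 2 * k / (16 * c ^ 2)) ≤ η ∧
        ∑ k ∈ (Finset.Icc m0' N).filter (fun k : ℕ => t1 * N ≤ (k : ℝ)),
          (N : ℝ) * Real.exp (C - γ N k ^ 2 * k / (16 * c ^ 2)) ≤ η := by
  have hL0 : 0 < L := by linarith
  have hc0 : 0 < c := by linarith
  have hCs0 : 0 < Cs := by linarith
  obtain ⟨t1, ht1p, ht1s, ht1b⟩ : ∃ t1 : ℝ, 0 < t1 ∧ t1 ≤ t1s ∧ 16 * L ^ 3 * Cs * t1 ≤ ε / 64 := by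
    refine ⟨min t1s (ε / (64 * (16 * L ^ 3 * Cs))), lt_min ht (by positivity), min_le_left _ _, ?_⟩
    calc 16 * L ^ 3 * Cs * min t1s (ε / (64 * (16 * L ^ 3 * Cs)))
        ≤ 16 * L ^ 3 * Cs * (ε / (64 * (16 * L ^ 3 * Cs))) :=
          mul_le_mul_of_nonneg_left (min_le_right _ _) (by positivity)
      _ = ε / 64 := by field_simp
  refine ⟨t1, ht1p, ht1s, ?_⟩
  intro CB ε' η hCB hε' hεε' hη
  have hCB0 : 0 < CB := by linarith
  obtain ⟨h, hh, hheq⟩ : ∃ h : ℝ, 0 < h ∧ Cs * CB / (t1 * h) = 1 / 16 :=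
    ⟨16 * CB * Cs / t1, by positivity, by field_simp⟩
  obtain ⟨γ0, hγ0, hγe⟩ : ∃ γ0 : ℝ, 0 < γ0 ∧ γ0 * Real.exp h = ε' :=
    ⟨ε' * Real.exp (-h), by positivity, by rw [mul_assoc, ← Real.exp_add, neg_add_cancel, Real.exp_zero, mul_one]⟩
  -- the function `g`
  obtain ⟨g, hg⟩ : ∃ g : ℕ → ℕ → ℝ, ∀ N m, g N m = γ0 * Real.exp (h * (1 - (m : ℝ) / N)) := ⟨_, fun _ _ => rfl⟩
  have hgpos : ∀ N m, 0 < g N m := fun N m => by rw [hg]; positivity
  have hgle : ∀ N m, g N m ≤ ε' := by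
    intro N m
    rw [hg, ← hγe]
    refine mul_le_mul_of_nonneg_left (Real.exp_le_exp.2 ?_) hγ0.le
    have : 0 ≤ (m : ℝ) / N := by positivity
    nlinarith
  have hgge : ∀ N m : ℕ, 1 ≤ N → m ≤ N → γ0 ≤ g N m := by
    intro N m hN hm
    have hN0 : (0 : ℝ) < N := by exact_mod_cast hN
    have h1 : (m : ℝ) / N ≤ 1 := (div_le_one hN0).2 (by exact_mod_cast hm)
    rw [hg]
    have h2 : 1 ≤ Real.exp (h * (1 - (m : ℝ) / N)) := Real.one_le_exp (mul_nonneg hh.le (by linarith))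
    nlinarith
  obtain ⟨γ, hγm, hγM⟩ : ∃ γ : ℕ → ℕ → ℝ, (∀ N m : ℕ, t1 * N ≤ m → γ N m = g N m) ∧
      (∀ N m : ℕ, ¬ t1 * N ≤ m → γ N m = ε) := by
    classical
    exact ⟨fun N m => if t1 * N ≤ m then g N m else ε, fun N m h => if_pos h, fun N m h => if_neg h⟩
  obtain ⟨b, hbm, hbM⟩ : ∃ b : ℕ → ℕ → ℝ,
      (∀ N m : ℕ, t1 * N ≤ m → b N m = Cs * (CB * g N m + 1 / m) / m) ∧
      (∀ N m : ℕ, ¬ t1 * N ≤ m →
        b N m = Cs * (16 * L ^ 3 * ((m : ℝ) / N + (m : ℝ) ^ (-(1 / 4) : ℝ)) + 1 / m) / m) := by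
    classical
    exact ⟨fun N m => if t1 * N ≤ m then Cs * (CB * g N m + 1 / m) / m else
      Cs * (16 * L ^ 3 * ((m : ℝ) / N + (m : ℝ) ^ (-(1 / 4) : ℝ)) + 1 / m) / m,
      fun N m h => if_pos h, fun N m h => if_neg h⟩
  -- the budget
  have hbud : ∀ N k : ℕ, 1 ≤ N → 1 ≤ k → k ≤ N → ∑ j ∈ Ioc k N, b N j ≤ g N k / 16 + Cs / k +
      (if t1 * N ≤ k then 0 else ε / 64 + 64 * L ^ 3 * Cs * (k : ℝ) ^ (-(1 / 4) : ℝ)) := by
    intro N k hN hk hkN
    have hN0 : (0 : ℝ) < N := by exact_mod_cast hN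
    have hk0 : (0 : ℝ) < k := by exact_mod_cast hk
    have hpt : ∀ j ∈ Ioc k N, b N j ≤ Cs * CB / (t1 * N) * g N j + Cs * ((j : ℝ) ^ 2)⁻¹ +
        (if t1 * N ≤ j then 0 else 16 * L ^ 3 * Cs * (1 / N + (j : ℝ) ^ (-(1 / 4) : ℝ) / j)) := by
      intro j hj
      rw [mem_Ioc] at hj
      have hj0 : (0 : ℝ) < j := by exact_mod_cast (show 0 < j by omega)
      by_cases hjT : t1 * N ≤ j
      · rw [hbm N j hjT, if_pos hjT, add_zero]
        have e1 : Cs * (CB * g N j + 1 / j) / j = Cs * CB / j * g N j + Cs * ((j : ℝ) ^ 2)⁻¹ := by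
          field_simp
        rw [e1]
        have e2 : Cs * CB / j ≤ Cs * CB / (t1 * N) :=
          div_le_div_of_nonneg_left (by positivity) (by positivity) hjT
        have := mul_le_mul_of_nonneg_right e2 (hgpos N j).le
        linarith
      · rw [hbM N j hjT, if_neg hjT]
        have e1 : Cs * (16 * L ^ 3 * ((j : ℝ) / N + (j : ℝ) ^ (-(1 / 4) : ℝ)) + 1 / j) / j =
            Cs * ((j : ℝ) ^ 2)⁻¹ + 16 * L ^ 3 * Cs * (1 / N + (j : ℝ) ^ (-(1 / 4) : ℝ) / j) := by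
          field_simp
          ring
        rw [e1]
        have : 0 ≤ Cs * CB / (t1 * N) * g N j := by have := hgpos N j; positivity
        linarith
    refine (sum_le_sum hpt).trans ?_
    rw [sum_add_distrib, sum_add_distrib, ← mul_sum, ← mul_sum]
    have s1 : Cs * CB / (t1 * N) * ∑ j ∈ Ioc k N, g N j ≤ g N k / 16 := by
      have h1 := geo_sum γ0 h hγ0 hh N k N hN hkN
      have h2 : ∑ j ∈ Ioc k N, g N j ≤ (N / h) * g N k := by
        rw [sum_congr rfl fun j _ => hg N j, hg]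
        refine h1.trans (mul_le_mul_of_nonneg_left ?_ (by positivity))
        have : 0 < γ0 * Real.exp (h * (1 - (N : ℝ) / N)) := by positivity
        linarith
      calc Cs * CB / (t1 * N) * ∑ j ∈ Ioc k N, g N j
          ≤ Cs * CB / (t1 * N) * ((N / h) * g N k) := mul_le_mul_of_nonneg_left h2 (by positivity)
        _ = Cs * CB / (t1 * h) * g N k := by field_simp
        _ = g N k / 16 := by rw [hheq]; ring
    have s2 : Cs * ∑ j ∈ Ioc k N, ((j : ℝ) ^ 2)⁻¹ ≤ Cs / k := by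
      have h1 : ∑ j ∈ Ioc k N, ((j : ℝ) ^ 2)⁻¹ ≤ (k : ℝ)⁻¹ - (N : ℝ)⁻¹ :=
        sum_Ioc_inv_sq_le_sub (by omega) hkN
      have h2 : 0 < (N : ℝ)⁻¹ := by positivity
      rw [div_eq_mul_inv]
      exact mul_le_mul_of_nonneg_left (by linarith) hCs0.le
    have s3 : ∑ j ∈ Ioc k N, (if t1 * N ≤ (j : ℝ) then 0 else
          16 * L ^ 3 * Cs * (1 / N + (j : ℝ) ^ (-(1 / 4) : ℝ) / j)) ≤
        (if t1 * N ≤ (k : ℝ) then 0 else ε / 64 + 64 * L ^ 3 * Cs * (k : ℝ) ^ (-(1 / 4) : ℝ)) := by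
      by_cases hkT : t1 * N ≤ k
      · rw [if_pos hkT]
        refine le_of_eq (sum_eq_zero fun j hj => if_pos ?_)
        rw [mem_Ioc] at hj
        exact hkT.trans (by exact_mod_cast hj.1.le)
      · rw [if_neg hkT]
        have e0 : ∑ j ∈ Ioc k N, (if t1 * N ≤ (j : ℝ) then 0 else
            16 * L ^ 3 * Cs * (1 / N + (j : ℝ) ^ (-(1 / 4) : ℝ) / j)) =
            ∑ j ∈ (Ioc k N).filter (fun j : ℕ => ¬ t1 * N ≤ (j : ℝ)),
              16 * L ^ 3 * Cs * (1 / N + (j : ℝ) ^ (-(1 / 4) : ℝ) / j) := by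
          rw [sum_filter]
          refine sum_congr rfl fun j _ => ?_
          by_cases h : t1 * N ≤ (j : ℝ)
          · rw [if_pos h, if_neg (not_not.2 h)]
          · rw [if_neg h, if_pos h]
        rw [e0, ← mul_sum, sum_add_distrib, sum_const, nsmul_eq_mul]
        have c1 := card_small (t1 * N) (by positivity) k N
        have c2 : (((Ioc k N).filter (fun j : ℕ => ¬ t1 * N ≤ (j : ℝ))).card : ℝ) * (1 / N) ≤ t1 := by
          calc _ ≤ (t1 * N) * (1 / N) := mul_le_mul_of_nonneg_right c1 (by positivity)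
            _ = t1 := by field_simp
        have c3 : ∑ j ∈ (Ioc k N).filter (fun j : ℕ => ¬ t1 * N ≤ (j : ℝ)),
            (j : ℝ) ^ (-(1 / 4) : ℝ) / j ≤ 4 * (k : ℝ) ^ (-(1 / 4) : ℝ) := by
          refine (sum_le_sum_of_subset_of_nonneg (filter_subset _ _) fun j _ _ => by positivity).trans ?_
          have := quart_sum k N hk hkN
          have : 0 ≤ (N : ℝ) ^ (-(1 / 4) : ℝ) := by positivity
          linarith
        calc 16 * L ^ 3 * Cs * (_ + _) ≤ 16 * L ^ 3 * Cs * (t1 + 4 * (k : ℝ) ^ (-(1 / 4) : ℝ)) :=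
              mul_le_mul_of_nonneg_left (add_le_add c2 c3) (by positivity)
          _ = 16 * L ^ 3 * Cs * t1 + 64 * L ^ 3 * Cs * (k : ℝ) ^ (-(1 / 4) : ℝ) := by ring
          _ ≤ _ := by linarith
    linarith
  -- the threshold `m0`
  have hr0 : 0 < ε ^ 2 / (16 * c ^ 2) := by positivity
  obtain ⟨mA, hmA⟩ := tail_small (Real.exp (-(ε ^ 2 / (16 * c ^ 2)))) (η / (2 * Real.exp C))
    (Real.exp_pos _).le (by rw [Real.exp_lt_one_iff]; linarith) (by positivity)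
  have hlimq : Filter.Tendsto (fun k : ℕ => 64 * L ^ 3 * Cs * (k : ℝ) ^ (-(1 / 4) : ℝ)) Filter.atTop (nhds 0) := by
    have h1 : Filter.Tendsto (fun k : ℕ => (k : ℝ) ^ (-(1 / 4) : ℝ)) Filter.atTop (nhds 0) :=
      (tendsto_rpow_neg_atTop (by norm_num : (0 : ℝ) < 1 / 4)).comp tendsto_natCast_atTop_atTop
    have := h1.const_mul (64 * L ^ 3 * Cs)
    rwa [mul_zero] at this
  have hlimc : Filter.Tendsto (fun k : ℕ => Cs / (k : ℝ)) Filter.atTop (nhds 0) :=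
    tendsto_const_div_atTop_nhds_zero_nat Cs
  obtain ⟨mB, hmB⟩ := Filter.eventually_atTop.1 (hlimq.eventually_le_const (show (0 : ℝ) < ε / 16 by positivity))
  obtain ⟨mC, hmC⟩ := Filter.eventually_atTop.1 (hlimc.eventually_le_const (show (0 : ℝ) < ε / 16 by positivity))
  refine ⟨max 2 (max mA (max mB mC)), γ, b, le_max_left _ _, ?_, ?_, ?_, ?_⟩
  · intro N m
    by_cases hm : t1 * N ≤ m
    · rw [hγm N m hm]
      exact ⟨hgpos _ _, (hgle _ _).trans hεε', fun _ => hgle _ _⟩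
    · rw [hγM N m hm]
      exact ⟨hε, le_rfl, fun h => absurd h hm⟩
  · intro N m _ _ hm
    rw [hγm N m hm, hbm N m hm]
  · intro N m _ _ hm
    rw [hbM N m hm]
  intro m0' hm0'
  -- the threshold `N0`
  have ha0 : 0 < γ0 ^ 2 * t1 / (16 * c ^ 2) := by positivity
  have hlim2 : Filter.Tendsto (fun N : ℕ => 2 * Real.exp C * ((N : ℝ) ^ 2 *
      Real.exp (-(γ0 ^ 2 * t1 / (16 * c ^ 2))) ^ N)) Filter.atTop (nhds 0) := by
    have h1 := tendsto_pow_const_mul_const_pow_of_abs_lt_one 2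
      (r := Real.exp (-(γ0 ^ 2 * t1 / (16 * c ^ 2))))
      (by rw [abs_of_pos (Real.exp_pos _), Real.exp_lt_one_iff]; linarith)
    have := h1.const_mul (2 * Real.exp C)
    rwa [mul_zero] at this
  have hlim3 : Filter.Tendsto (fun N : ℕ => (Cs / t1) / (N : ℝ)) Filter.atTop (nhds 0) :=
    tendsto_const_div_atTop_nhds_zero_nat _
  obtain ⟨nA, hnA⟩ := Filter.eventually_atTop.1 (hlim2.eventually_le_const (show (0 : ℝ) < η / 2 by positivity))
  obtain ⟨nB, hnB⟩ := Filter.eventually_atTop.1 (hlim3.eventually_le_const (show (0 : ℝ) < γ0 / 16 by positivity))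
  refine ⟨max 1 (max nA nB), fun N hN => ?_⟩
  have hN1 : 1 ≤ N := (le_max_left _ _).trans hN
  have hNA := hnA N ((le_max_left _ _).trans ((le_max_right _ _).trans hN))
  have hNB := hnB N ((le_max_right _ _).trans ((le_max_right _ _).trans hN))
  have hN0 : (0 : ℝ) < N := by exact_mod_cast hN1
  have hm2 : 2 ≤ m0' := (le_max_left _ _).trans hm0'
  have hmA' : mA ≤ m0' := (le_max_left _ _).trans ((le_max_right _ _).trans hm0')
  have hmB' : mB ≤ m0' :=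
    (le_max_left _ _).trans ((le_max_right _ _).trans ((le_max_right _ _).trans hm0'))
  have hmC' : mC ≤ m0' :=
    (le_max_right _ _).trans ((le_max_right _ _).trans ((le_max_right _ _).trans hm0'))
  -- the sum over large indices
  have hmac : ∑ k ∈ (Finset.Icc m0' N).filter (fun k : ℕ => t1 * N ≤ (k : ℝ)),
      (N : ℝ) * Real.exp (C - γ N k ^ 2 * k / (16 * c ^ 2)) ≤ η / 2 := by
    have hterm : ∀ k ∈ (Finset.Icc m0' N).filter (fun k : ℕ => t1 * N ≤ (k : ℝ)),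
        (N : ℝ) * Real.exp (C - γ N k ^ 2 * k / (16 * c ^ 2)) ≤
          N * (Real.exp C * Real.exp (-(γ0 ^ 2 * t1 / (16 * c ^ 2))) ^ N) := by
      intro k hk
      rw [mem_filter, mem_Icc] at hk
      refine mul_le_mul_of_nonneg_left ?_ hN0.le
      rw [← Real.exp_nat_mul, ← Real.exp_add]
      refine Real.exp_le_exp.2 ?_
      have h1 : γ0 ≤ γ N k := by rw [hγm N k hk.2]; exact hgge N k hN1 hk.1.2
      have h2 : γ0 ^ 2 * (t1 * N) ≤ γ N k ^ 2 * k :=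
        mul_le_mul (pow_le_pow_left₀ hγ0.le h1 2) hk.2 (by positivity) (by positivity)
      have h3 : γ0 ^ 2 * (t1 * N) / (16 * c ^ 2) ≤ γ N k ^ 2 * k / (16 * c ^ 2) :=
        div_le_div_of_nonneg_right h2 (by positivity)
      have h4 : (N : ℝ) * -(γ0 ^ 2 * t1 / (16 * c ^ 2)) = -(γ0 ^ 2 * (t1 * N) / (16 * c ^ 2)) := by ring
      rw [h4]
      linarith
    refine (sum_le_sum hterm).trans ?_
    rw [sum_const, nsmul_eq_mul]
    have hcard : (((Finset.Icc m0' N).filter (fun k : ℕ => t1 * N ≤ (k : ℝ))).card : ℝ) ≤ N := by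
      have h1 := card_filter_le (Finset.Icc m0' N) (fun k : ℕ => t1 * N ≤ (k : ℝ))
      rw [Nat.card_Icc] at h1
      have h2 : ((Finset.Icc m0' N).filter (fun k : ℕ => t1 * N ≤ (k : ℝ))).card ≤ N := by omega
      exact_mod_cast h2
    have hpos : 0 ≤ (N : ℝ) * (Real.exp C * Real.exp (-(γ0 ^ 2 * t1 / (16 * c ^ 2))) ^ N) := by positivity
    calc _ ≤ (N : ℝ) * (N * (Real.exp C * Real.exp (-(γ0 ^ 2 * t1 / (16 * c ^ 2))) ^ N)) :=
          mul_le_mul_of_nonneg_right hcard hpos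
      _ ≤ 2 * Real.exp C * ((N : ℝ) ^ 2 * Real.exp (-(γ0 ^ 2 * t1 / (16 * c ^ 2))) ^ N) := by
          have : 0 ≤ Real.exp C * ((N : ℝ) ^ 2 * Real.exp (-(γ0 ^ 2 * t1 / (16 * c ^ 2))) ^ N) := by
            positivity
          linarith
      _ ≤ η / 2 := hNA
  refine ⟨?_, ?_, hmac.trans (by linarith)⟩
  · intro k hk hkN
    have hk1 : 1 ≤ k := by omega
    have hk0 : (0 : ℝ) < k := by exact_mod_cast hk1
    have e1 : Bs (b N) N - Bs (b N) k = ∑ j ∈ Ioc k N, b N j := by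
      unfold Bs
      have : Ioc k N = Ico (k + 1) (N + 1) := by ext x; simp only [mem_Ioc, mem_Ico]; omega
      rw [this, sum_Ico_eq_sub _ (by omega)]
    rw [e1]
    refine (hbud N k hN1 hk1 hkN).trans ?_
    by_cases hkT : t1 * N ≤ k
    · rw [if_pos hkT, hγm N k hkT]
      have h1 : Cs / k ≤ γ0 / 16 := by
        refine le_trans ?_ hNB
        rw [div_div]
        exact div_le_div_of_nonneg_left hCs0.le (by positivity) hkT
      have h2 := hgge N k hN1 hkN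
      linarith
    · rw [if_neg hkT, hγM N k hkT]
      have h1 := hmB k (hmB'.trans hk)
      have h2 := hmC k (hmC'.trans hk)
      have h3 := hgle N k
      linarith
  · have hsplit : ∑ k ∈ Finset.Icc m0' N, (k : ℝ) * Real.exp (C - γ N k ^ 2 * k / (16 * c ^ 2)) =
        ∑ k ∈ (Finset.Icc m0' N).filter (fun k : ℕ => t1 * N ≤ (k : ℝ)),
          (k : ℝ) * Real.exp (C - γ N k ^ 2 * k / (16 * c ^ 2)) +
        ∑ k ∈ (Finset.Icc m0' N).filter (fun k : ℕ => ¬ t1 * N ≤ (k : ℝ)),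
          (k : ℝ) * Real.exp (C - γ N k ^ 2 * k / (16 * c ^ 2)) :=
      (sum_filter_add_sum_filter_not _ _ _).symm
    have hA : ∑ k ∈ (Finset.Icc m0' N).filter (fun k : ℕ => t1 * N ≤ (k : ℝ)),
        (k : ℝ) * Real.exp (C - γ N k ^ 2 * k / (16 * c ^ 2)) ≤ η / 2 := by
      refine (sum_le_sum fun k hk => ?_).trans hmac
      rw [mem_filter, mem_Icc] at hk
      exact mul_le_mul_of_nonneg_right (by exact_mod_cast hk.1.2) (Real.exp_pos _).le
    have hB : ∑ k ∈ (Finset.Icc m0' N).filter (fun k : ℕ => ¬ t1 * N ≤ (k : ℝ)),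
        (k : ℝ) * Real.exp (C - γ N k ^ 2 * k / (16 * c ^ 2)) ≤ η / 2 := by
      have h1 := hmA ((Finset.Icc m0' N).filter (fun k : ℕ => ¬ t1 * N ≤ (k : ℝ))) (fun k hk => by
        rw [mem_filter, mem_Icc] at hk
        exact hmA'.trans hk.1.1)
      have h2 : ∑ k ∈ (Finset.Icc m0' N).filter (fun k : ℕ => ¬ t1 * N ≤ (k : ℝ)),
          (k : ℝ) * Real.exp (C - γ N k ^ 2 * k / (16 * c ^ 2)) =
          Real.exp C * ∑ k ∈ (Finset.Icc m0' N).filter (fun k : ℕ => ¬ t1 * N ≤ (k : ℝ)),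
            (k : ℝ) * Real.exp (-(ε ^ 2 / (16 * c ^ 2))) ^ k := by
        rw [mul_sum]
        refine sum_congr rfl fun k hk => ?_
        rw [mem_filter] at hk
        rw [hγM N k hk.2, ← Real.exp_nat_mul, mul_left_comm, ← Real.exp_add]
        congr 2
        ring
      rw [h2]
      calc _ ≤ Real.exp C * (η / (2 * Real.exp C)) := mul_le_mul_of_nonneg_left h1 (Real.exp_pos _).le
        _ = η / 2 := by field_simp
    rw [hsplit]
    linarith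

end Pool.Agent.NQL
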