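import Pool.Agent.NQL.Defs

/-!
# NQL-CTail: small sums (real analysis, Mathlib only)
-/

set_option autoImplicit false

open Finset

namespace Pool.Agent.NQL

open Pool.Agent.NQ (board dsum F Ent Dg phi ln Q Qset QS NonAtt bern)
open Pool.Agent.NQR (Adm Opt Bd Rf hS hD hh InR)

theorem tail_exp (C a η : ℝ) (ha : 0 < a) (hη : 0 < η) : ∃ m0 : ℕ, ∀ m N : ℕ, m0 ≤ m →
    ∑ k ∈ Finset.Icc m N, (k : ℝ) ^ 2 * Real.exp (C - a * k) ≤ η := by
  have h1 : Summable (fun k : ℕ => (k : ℝ) ^ 2 * Real.exp (C - a * k)) := by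
    have hr : ‖Real.exp (-a)‖ < 1 := by
      rw [Real.norm_of_nonneg (Real.exp_pos _).le]
      exact (Real.exp_lt_exp.mpr (show -a < 0 by linarith)).trans_eq Real.exp_zero
    have h2 := (summable_pow_mul_geometric_of_norm_lt_one 2 hr).mul_left (Real.exp C)
    refine h2.congr fun k => ?_
    rw [← Real.exp_nat_mul]
    have h3 : Real.exp (C - a * k) = Real.exp C * Real.exp (k * -a) := by
      rw [← Real.exp_add]
      congr 1
      ring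
    rw [h3]
    ring
  obtain ⟨s, hs⟩ := summable_iff_vanishing_norm.1 h1 η hη
  refine ⟨s.sup id + 1, fun m N hm => ?_⟩
  have h2 : Disjoint (Finset.Icc m N) s := by
    rw [Finset.disjoint_left]
    intro k hk hks
    have h3 : k ≤ s.sup id := Finset.le_sup (f := id) hks
    have h4 := (Finset.mem_Icc.mp hk).1
    omega
  exact (le_abs_self _).trans (hs _ h2).le

theorem tail_bin (C η : ℝ) (hη : 0 < η) : ∃ N0 : ℕ, ∀ N m1 : ℕ, N0 ≤ N → N < (m1 + 1) ^ 6 →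
    ∑ k ∈ Finset.Ioc m1 N, 4 * (N : ℝ) * (Real.exp C * (1 / 4) ^ Nat.sqrt k) ≤ η := by
  have hC : 0 < Real.exp C := Real.exp_pos C
  have ht : Filter.Tendsto (fun q : ℕ => 16 * Real.exp C * (((q + 1 : ℕ) : ℝ) ^ 24 *
      (1 / 4 : ℝ) ^ (q + 1))) Filter.atTop (nhds 0) := by
    have h1 := tendsto_pow_const_mul_const_pow_of_abs_lt_one 24
      (show |(1 / 4 : ℝ)| < 1 by rw [abs_of_pos (by norm_num)]; norm_num)
    have h2 := ((Filter.tendsto_add_atTop_iff_nat 1).2 h1).const_mul (16 * Real.exp C)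
    rw [mul_zero] at h2
    exact h2
  obtain ⟨q0, hq0⟩ := Filter.eventually_atTop.1 (ht.eventually_le_const hη)
  refine ⟨(q0 + 1) ^ 12, fun N m1 hN hm => ?_⟩
  set q := Nat.sqrt (m1 + 1) with hq
  have hq1 : m1 + 1 < (q + 1) ^ 2 := by
    rw [pow_two]
    exact Nat.lt_succ_sqrt (m1 + 1)
  have hq2 : (m1 + 1) ^ 6 < (q + 1) ^ 12 := by
    calc (m1 + 1) ^ 6 < ((q + 1) ^ 2) ^ 6 := Nat.pow_lt_pow_left hq1 (by norm_num)
      _ = (q + 1) ^ 12 := by rw [← pow_mul]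
  have hq3 : q0 ≤ q := by
    have h1 : (q0 + 1) ^ 12 < (q + 1) ^ 12 := by omega
    have h2 := lt_of_pow_lt_pow_left' 12 h1
    omega
  have hfin := hq0 q hq3
  have hN1 : (N : ℝ) ≤ ((q + 1 : ℕ) : ℝ) ^ 12 := by
    have : N ≤ (q + 1) ^ 12 := by omega
    exact_mod_cast this
  have hterm : ∀ k ∈ Finset.Ioc m1 N, 4 * (N : ℝ) * (Real.exp C * (1 / 4) ^ Nat.sqrt k) ≤
      4 * (N : ℝ) * (Real.exp C * (1 / 4) ^ q) := by
    intro k hk
    have hk1 := (Finset.mem_Ioc.mp hk).1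
    have h1 : q ≤ Nat.sqrt k := Nat.sqrt_le_sqrt (by omega)
    have h2 : (1 / 4 : ℝ) ^ Nat.sqrt k ≤ (1 / 4) ^ q :=
      pow_le_pow_of_le_one (by norm_num) (by norm_num) h1
    gcongr
  have hsum := Finset.sum_le_sum hterm
  rw [Finset.sum_const, nsmul_eq_mul] at hsum
  have hcard : ((Finset.Ioc m1 N).card : ℝ) ≤ N := by
    rw [Nat.card_Ioc]
    exact_mod_cast Nat.sub_le N m1
  have hnn : 0 ≤ 4 * (N : ℝ) * (Real.exp C * (1 / 4) ^ q) := by positivity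
  calc ∑ k ∈ Finset.Ioc m1 N, 4 * (N : ℝ) * (Real.exp C * (1 / 4) ^ Nat.sqrt k)
      ≤ ((Finset.Ioc m1 N).card : ℝ) * (4 * (N : ℝ) * (Real.exp C * (1 / 4) ^ q)) := hsum
    _ ≤ N * (4 * (N : ℝ) * (Real.exp C * (1 / 4) ^ q)) := mul_le_mul_of_nonneg_right hcard hnn
    _ = 4 * Real.exp C * (1 / 4) ^ q * ((N : ℝ) * N) := by ring
    _ ≤ 4 * Real.exp C * (1 / 4) ^ q *
        (((q + 1 : ℕ) : ℝ) ^ 12 * ((q + 1 : ℕ) : ℝ) ^ 12) := by
        gcongr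
    _ = 16 * Real.exp C * (((q + 1 : ℕ) : ℝ) ^ 24 * (1 / 4 : ℝ) ^ (q + 1)) := by
        rw [pow_succ (1 / 4 : ℝ) q]
        ring
    _ ≤ η := hfin

theorem tail_par (C η : ℝ) (hη : 0 < η) : ∃ N0 : ℕ, ∀ N m1 : ℕ, N0 ≤ N → m1 ^ 6 ≤ N →
    ∑ k ∈ Finset.Icc 1 m1, 4 * Real.exp C * (k : ℝ) ^ 4 / N ≤ η := by
  have hC : 0 < Real.exp C := Real.exp_pos C
  set A : ℝ := 4 * Real.exp C / η with hA
  have hA0 : 0 < A := by positivity
  refine ⟨⌈A ^ 6⌉₊ + 1, fun N m1 hN hm => ?_⟩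
  have hN1 : A ^ 6 ≤ N := by
    have h1 := Nat.le_ceil (A ^ 6)
    have h2 : ((⌈A ^ 6⌉₊ + 1 : ℕ) : ℝ) ≤ N := by exact_mod_cast hN
    push_cast at h2
    linarith
  have hN0 : (0 : ℝ) < N := by
    have : 0 < N := by omega
    exact_mod_cast this
  have hm' : (m1 : ℝ) ^ 6 ≤ N := by exact_mod_cast hm
  have hterm : ∀ k ∈ Finset.Icc 1 m1, 4 * Real.exp C * (k : ℝ) ^ 4 / N ≤
      4 * Real.exp C * (m1 : ℝ) ^ 4 / N := by
    intro k hk
    have hk1 : (k : ℝ) ≤ m1 := by exact_mod_cast (Finset.mem_Icc.mp hk).2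
    gcongr
  have hsum := Finset.sum_le_sum hterm
  rw [Finset.sum_const, nsmul_eq_mul, Nat.card_Icc, Nat.add_sub_cancel] at hsum
  have hkey : A * (m1 : ℝ) ^ 5 ≤ N := by
    have hm0 : (0 : ℝ) ≤ m1 := Nat.cast_nonneg _
    rcases le_total A (m1 : ℝ) with h | h
    · calc A * (m1 : ℝ) ^ 5 ≤ m1 * (m1 : ℝ) ^ 5 := by gcongr
        _ = (m1 : ℝ) ^ 6 := by ring
        _ ≤ N := hm'
    · calc A * (m1 : ℝ) ^ 5 ≤ A * A ^ 5 := by gcongr
        _ = A ^ 6 := by ring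
        _ ≤ N := hN1
  refine hsum.trans ?_
  have h1 : (m1 : ℝ) * (4 * Real.exp C * (m1 : ℝ) ^ 4 / N) = η * (A * (m1 : ℝ) ^ 5) / N := by
    rw [hA]
    field_simp
  rw [h1, div_le_iff₀ hN0]
  exact mul_le_mul_of_nonneg_left hkey hη.le

end Pool.Agent.NQL
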