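import Pool.Agent.NQL.Defs
import Pool.Agent.NQL.ABas
import Pool.Agent.NQL.BNom
import Pool.Agent.NQL.BFul
import Pool.Agent.NQL.CFam
import Pool.Agent.NQL.CGam
import Pool.Agent.NQL.CBin
import Pool.Agent.NQL.CPar
import Pool.Agent.NQL.CSeq
import Pool.Agent.NQL.CTail
import Pool.Agent.NQL.CPsD
import Pool.Agent.NQL.CPsV
import Pool.Agent.NQL.CPsI
import Pool.Agent.NQL.CReg

/-!
# NQL-CPsi: existence of the supermartingale function (assembly)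

PLAN. `K = 32 L³`. `psi_step` gives `c1, C1, c2, C2`; `glo_reg` gives `εg`, `t1s`. `ε = min εg (1/(2 L² c2))`. `seqs` with `c = c1`, `C = C1`, `Cs = 7 + c1`: `t1`; `glo_reg` for `t1`: `CB`, `ε'g`, `m0'`; `seqs` with `CB`,
`ε' = min ε'g ε`, `η = 1/100`: `m02`, `γ`, `b`. `tail_exp` (`C2`, `a = 1/(64 L⁴ c2²)`, `1/100`): `m03`. `m0` = maximum of `mX` and all these and 2; `N0` from `seqs` for this `m0`, `tail_bin`, `tail_par`, `N0 ≥ (m0+1)^6 + 2` (so that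
`m0 ≤ m1`). `dd N m = if t1 N ≤ m then CB γ N m else 16 L³ (..)`. `Ψ = Psi ..`. (P1) `psi_viol`; (P2) `psi_step`: `(γ [macro] + 6 dd)/m + c1/m² ≤ Cs (dd + 1/m)/m ≤ b` because `CB ≥ 1`; (P3) `psi_init`,
`c2 (Bs b N - Bs b k) ≤ c2 γ/2 ≤ c2 ε/2 ≤ 1/(4L²)`; (R) `glo_reg`. Full board: `YY = TT` (`full_st`), `Sl_card`: `card (Sl) ≤ N ..`: `GLo` at `m = N`: `big`: `card ≤ N < 8 (N + ..)`; `N > m1`; `cg` by `full_st`.
-/

set_option autoImplicit false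

open Finset

namespace Pool.Agent.NQL

open Pool.Agent.NQ (board dsum F Ent Dg phi ln Q Qset QS NonAtt bern)
open Pool.Agent.NQR (Adm Opt Bd Rf hS hD hh InR)

theorem exists_psi (L Cp : ℝ) (hL : 1 ≤ L) (hCp : 0 ≤ Cp) (mX : ℕ) :
    ∃ (t1 : ℝ) (m0 N0 : ℕ) (γ dd : ℕ → ℕ → ℝ), 0 < t1 ∧ mX ≤ m0 ∧ 2 ≤ m0 ∧ (∀ N m, 0 ≤ dd N m) ∧
    ∀ N : ℕ, N0 ≤ N → ∀ (W : ℤ × ℤ → ℝ) (A B : ℤ → ℝ), Rf L N W A B →
      ∀ m1 : ℕ, m1 ^ 6 ≤ N → N < (m1 + 1) ^ 6 → m0 ≤ m1 ∧ m0 < N ∧ GLo L t1 (γ N) m1 N N W (full N) ∧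
      ∃ Ψ : ℕ → Finset Li → ℝ,
        (∀ m I, 0 ≤ Ψ m I) ∧
        (∀ m I, m0 ≤ m → m ≤ N → Vd N m I → ¬ GLo L t1 (γ N) m1 N m W I → 1 ≤ Ψ m I) ∧
        (∀ m I z π, m0 < m → m ≤ N → GLo L t1 (γ N) m1 N m W I → Reg (32 * L ^ 3) (1 / (3200 * L ^ 3)) N m I z →
          Cl (dd N m) N m W I z → Tp Cp N m I z π → ∑ e ∈ Sq N I, π e * Ψ (m - 1) (rm I e) ≤ Ψ m I) ∧
        Ψ N (full N) ≤ 1 / 2 ∧
        (∀ m I, m0 ≤ m → m ≤ N → GLo L t1 (γ N) m1 N m W I → ∃ z : Li → ℝ,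
          Reg (32 * L ^ 3) (1 / (3200 * L ^ 3)) N m I z ∧ Cl (dd N m) N m W I z ∧
          P2 I z ≤ 32 * L ^ 3 * m * ((m : ℝ) / N + (m : ℝ) ^ (-(1 / 4) : ℝ))) := by
  have hL3 : (1 : ℝ) ≤ L ^ 3 := one_le_pow₀ hL
  have hL2 : (1 : ℝ) ≤ L ^ 2 := one_le_pow₀ hL
  have hK : (1 : ℝ) ≤ 32 * L ^ 3 := by linarith
  obtain ⟨c1, C1, c2, C2, hc1, hC1, hc2, hC2, HS⟩ := psi_step L (32 * L ^ 3) Cp hL hK hCp
  obtain ⟨εg, t1s, hεg, hεg4, ht1s, ht1s4, HG⟩ := glo_reg L hL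
  obtain ⟨ε, hεdef⟩ : ∃ ε : ℝ, ε = min εg (1 / (2 * L ^ 2 * c2)) := ⟨_, rfl⟩
  have hε : 0 < ε := by rw [hεdef]; exact lt_min hεg (by positivity)
  have hεεg : ε ≤ εg := by rw [hεdef]; exact min_le_left _ _
  have hεc : ε ≤ 1 / (2 * L ^ 2 * c2) := by rw [hεdef]; exact min_le_right _ _
  obtain ⟨t1, ht1, ht1s', HQ⟩ := seqs L c1 C1 (7 + c1) ε t1s hL hc1 hC1 (by linarith) hε (by linarith) ht1s ht1s4
  obtain ⟨CB, ε'g, m0g, hCB, hε'g, hε'gε, hm0g, HR⟩ := HG t1 ht1 ht1s'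
  obtain ⟨m02, γ, b, hm02, hγ, hb1, hb2, HN⟩ := HQ CB (min ε'g ε) (1 / 100) hCB (lt_min hε'g hε)
    (min_le_right _ _) (by norm_num)
  obtain ⟨m03, hm03⟩ := tail_exp C2 (1 / (64 * L ^ 4 * c2 ^ 2)) (1 / 100) (by positivity) (by norm_num)
  obtain ⟨m0, hm0⟩ : ∃ m0 : ℕ, m0 = max (max mX m02) (max m0g m03) := ⟨_, rfl⟩
  have hm0X : mX ≤ m0 := by omega
  have hm02' : m02 ≤ m0 := by omega
  have hm0g' : m0g ≤ m0 := by omega
  have hm03' : m03 ≤ m0 := by omega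
  have hm0two : 2 ≤ m0 := by omega
  obtain ⟨N1, HN1⟩ := HN m0 hm02'
  obtain ⟨N2, HN2⟩ := tail_bin (4 * (Cp + 32 * L ^ 3) + 2) (1 / 100) (by norm_num)
  obtain ⟨N3, HN3⟩ := tail_par (16 * (Cp + 32 * L ^ 3) + 4) (1 / 100) (by norm_num)
  obtain ⟨dd, hdd⟩ : ∃ dd : ℕ → ℕ → ℝ, dd = fun (N m : ℕ) => if t1 * (N : ℝ) ≤ (m : ℝ) then CB * γ N m else
    16 * L ^ 3 * ((m : ℝ) / N + (m : ℝ) ^ (-(1 / 4) : ℝ)) := ⟨_, rfl⟩
  have hmac : ∀ N m : ℕ, t1 * N ≤ m → dd N m = CB * γ N m := by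
    intro N m h
    rw [hdd]
    exact if_pos h
  have hmic : ∀ N m : ℕ, ¬ t1 * N ≤ m → dd N m = 16 * L ^ 3 * ((m : ℝ) / N + (m : ℝ) ^ (-(1 / 4) : ℝ)) := by
    intro N m h
    rw [hdd]
    exact if_neg h
  have hdd0 : ∀ N m, 0 ≤ dd N m := by
    intro N m
    by_cases h : t1 * N ≤ m
    · rw [hmac N m h]
      exact mul_nonneg (by linarith) (hγ N m).1.le
    · rw [hmic N m h]
      positivity
  refine ⟨t1, m0, max (max N1 N2) (max N3 ((m0 + 1) ^ 6 + 2)), γ, dd, ht1, hm0X, hm0two, hdd0, ?_⟩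
  intro N hN W A B hR m1 hm1 hm1'
  have hNN1 : N1 ≤ N := by omega
  have hNN2 : N2 ≤ N := by omega
  have hNN3 : N3 ≤ N := by omega
  have hNN4 : (m0 + 1) ^ 6 + 2 ≤ N := by omega
  have hm01 : m0 ≤ m1 := by
    by_contra h
    have h1 : m1 + 1 ≤ m0 + 1 := by omega
    have h2 : (m1 + 1) ^ 6 ≤ (m0 + 1) ^ 6 := Nat.pow_le_pow_left h1 6
    omega
  have hm0N : m0 < N := by
    have h1 : m0 + 1 ≤ (m0 + 1) ^ 6 := Nat.le_self_pow (by norm_num) _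
    omega
  have hm1N : m1 < N := by
    have h1 : m1 < m1 ^ 6 := by
      calc m1 = m1 ^ 1 := (pow_one _).symm
        _ < m1 ^ 6 := Nat.pow_lt_pow_right (by omega) (by norm_num)
    omega
  have hN2 : 2 ≤ N := by omega
  obtain ⟨_, _, hY, hC⟩ := full_st hL hN2 hR
  have hNpos : (0 : ℝ) < N := by
    have : 0 < N := by omega
    exact_mod_cast this
  have hvf : Vd N N (full N) := vd_full (by omega)
  have hGf : GLo L t1 (γ N) m1 N N W (full N) := by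
    refine ⟨hvf, ?_, ?_, ?_, ?_, ?_⟩
    · intro l hl hrc
      rw [hY l hl, tt_rc hrc]
      simpa using (hγ N N).1.le
    · intro _ l hl _
      rw [hY l hl]
      simpa using (hγ N N).1.le
    · intro _ l hl _
      have h1 := Sl_card hvf hl
      have h2 : ((Sl N (full N) l).card : ℝ) ≤ N := by exact_mod_cast h1
      have h3 : (N : ℝ) ^ 2 / N = N := by field_simp
      have h4 : (0 : ℝ) ≤ (N : ℝ) ^ (3 / 4 : ℝ) := Real.rpow_nonneg hNpos.le _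
      rw [h3]
      linarith
    · intro h
      omega
    · intro x x' hx hx' _
      obtain ⟨e, he, h⟩ := mem_full.1 hx
      obtain ⟨e', he', h'⟩ := mem_full.1 hx'
      rw [Pool.Agent.NQ.mem_board] at he he'
      simp only [Pool.Agent.NQ.ln_zero] at h h'
      have h3 := hC x x' (by omega) (by omega) (by omega) (by omega)
      refine le_trans ?_ h3
      apply one_div_le_one_div_of_le (by positivity)
      linarith
  have hγ4 : ∀ k, 0 < γ N k ∧ γ N k ≤ 1 / 4 := by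
    intro k
    exact ⟨(hγ N k).1, (hγ N k).2.1.trans (by linarith)⟩
  refine ⟨hm01, hm0N, hGf, Psi L c1 C1 c2 C2 (4 * (Cp + 32 * L ^ 3) + 2) (16 * (Cp + 32 * L ^ 3) + 4) t1
    (γ N) (b N) m0 m1 N W, ?_, ?_, ?_, ?_, ?_⟩
  · intro m I
    exact psi_nonneg _ _ _ _ _ _ _ _ _ _ _ _ _ _ _ _
  · intro m I hm hmN hv hG
    exact psi_viol hL hc1 hc2 (by omega) hm (fun k => (hγ N k).1) hv hG
  · intro m I z π hm hmN hG hReg hCl hTp
    have hmpos : (0 : ℝ) < m := by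
      have : 0 < m := by omega
      exact_mod_cast this
    have hbb : (7 + c1) * (dd N m + 1 / m) / m ≤ b N m := by
      by_cases h : t1 * N ≤ m
      · rw [hmac N m h]
        exact hb1 N m (by omega) hmN h
      · rw [hmic N m h]
        exact hb2 N m (by omega) hmN h
    have hd0 := hdd0 N m
    have h1m : 0 < 1 / (m : ℝ) := by positivity
    refine HS t1 (γ N) (b N) m0 m1 N m I W A B z π (dd N m) (by omega) hm hmN hR hG.vd hReg.st hReg.up hTp hCl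
      hγ4 hG.lrc hG.ldg ?_ ?_
    · refine le_trans ?_ hbb
      have hif : (if t1 * N ≤ m then γ N m else 0) ≤ dd N m := by
        by_cases h : t1 * N ≤ m
        · rw [if_pos h, hmac N m h]
          have := (hγ N m).1
          nlinarith
        · rw [if_neg h]
          exact hd0
      have e1 : c1 / (m : ℝ) ^ 2 = c1 * (1 / m) / m := by
        field_simp
      rw [e1, ← add_div]
      apply div_le_div_of_nonneg_right _ hmpos.le
      nlinarith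
    · refine le_trans ?_ hbb
      apply div_le_div_of_nonneg_right _ hmpos.le
      nlinarith
  · obtain ⟨H1, H2, H3⟩ := HN1 N hNN1
    refine psi_init hL hc1 hC1 hc2 hC2 (by positivity) (by positivity) hR (by omega) hN2 (fun k => (hγ N k).1)
      H1 ?_ H2 ?_ (hm03 m0 N hm03') (HN2 N m1 hNN2 hm1') (HN3 N m1 hNN3 hm1) hm1N.le
    · intro k hk hkN
      have h1 := H1 k hk hkN
      have h2 := (hγ N k).2.1
      have h3 : Bs (b N) N - Bs (b N) k ≤ ε / 2 := by linarith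
      calc c2 * (Bs (b N) N - Bs (b N) k) ≤ c2 * (ε / 2) := mul_le_mul_of_nonneg_left h3 (by linarith)
        _ ≤ c2 * (1 / (2 * L ^ 2 * c2) / 2) := by
            apply mul_le_mul_of_nonneg_left _ (by linarith)
            linarith
        _ = 1 / (4 * L ^ 2) := by
            field_simp
            ring
    · convert H3 using 2
  · intro m I hm hmN hG
    obtain ⟨z, hz1, hz2, hz3⟩ := HR (γ N) m1 N m I W A B (by omega) hmN hR ((hγ N m).2.1.trans hεεg)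
      (fun h => ⟨(hγ N m).1.le, ((hγ N m).2.2 h).trans (min_le_left _ _)⟩) hG
    refine ⟨z, hz1, ?_, hz3⟩
    rw [hdd]
    convert hz2 using 2

end Pool.Agent.NQL
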