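import Pool.Agent.NQL.Defs
import Pool.Agent.NQL.ABas
import Pool.Agent.NQL.AVal
import Pool.Agent.NQL.AXi
import Pool.Agent.NQL.CHal
import Pool.Agent.NQL.CBas
import Pool.Agent.NQL.CNor
import Pool.Agent.NQL.CPsi

/-!
# NQL-CInd: the induction for the lower bound

Induction over the size with the supermartingale function.
-/

set_option autoImplicit false

open Finset

namespace Pool.Agent.NQL

open Pool.Agent.NQ (board dsum F Ent Dg phi ln Q Qset QS NonAtt bern)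
open Pool.Agent.NQR (Adm Opt Bd Rf hS hD hh InR)

private theorem li_err {L C1 : ℝ} (hL : 1 ≤ L) (hC1 : 1 ≤ C1) {m N : ℕ} (hm : 1 ≤ m) (hN : 1 ≤ N)
    {P : ℝ} (hP : P ≤ 32 * L ^ 3 * m * ((m : ℝ) / N + (m : ℝ) ^ (-(1 / 4) : ℝ))) :
    C1 * (1 + P) / m ^ 2 ≤ C1 * (1 + 32 * L ^ 3) * (1 / (N : ℝ) + (m : ℝ) ^ (-(5 / 4) : ℝ)) := by
  have hm' : (1 : ℝ) ≤ m := by exact_mod_cast hm
  have hm0 : (0 : ℝ) < m := by linarith
  have hN' : (0 : ℝ) < N := by exact_mod_cast hN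
  have h1 : (m : ℝ) ^ (-(1 / 4) : ℝ) = (m : ℝ) ^ (-(5 / 4) : ℝ) * m := by
    have h := Real.rpow_add hm0 (-(5 / 4) : ℝ) 1
    rw [Real.rpow_one] at h
    rw [← h]
    norm_num
  have h2 : 1 ≤ (m : ℝ) ^ 2 * (m : ℝ) ^ (-(5 / 4) : ℝ) := by
    have h3 : (m : ℝ) ^ 2 * (m : ℝ) ^ (-(5 / 4) : ℝ) = (m : ℝ) ^ (3 / 4 : ℝ) := by
      rw [← Real.rpow_natCast, ← Real.rpow_add hm0]
      norm_num
    rw [h3]
    exact Real.one_le_rpow hm' (by norm_num)
  rw [h1] at hP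
  generalize (m : ℝ) ^ (-(5 / 4) : ℝ) = y at *
  rw [div_le_iff₀ (by positivity)]
  have h4 : 32 * L ^ 3 * (m : ℝ) * ((m : ℝ) / N + y * m) =
      32 * L ^ 3 * ((m : ℝ) ^ 2 * (1 / N + y)) := by
    field_simp
  have h5 : 1 ≤ (m : ℝ) ^ 2 * (1 / N + y) := by
    have h6 : 0 ≤ (m : ℝ) ^ 2 * (1 / N) := by positivity
    linarith
  rw [h4] at hP
  have h7 : 1 + P ≤ (1 + 32 * L ^ 3) * ((m : ℝ) ^ 2 * (1 / N + y)) := by linarith
  calc C1 * (1 + P) ≤ C1 * ((1 + 32 * L ^ 3) * ((m : ℝ) ^ 2 * (1 / N + y))) :=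
        mul_le_mul_of_nonneg_left h7 (by linarith)
    _ = C1 * (1 + 32 * L ^ 3) * (1 / N + y) * m ^ 2 := by ring

private theorem li_root (N : ℕ) : ∃ m1 : ℕ, m1 ^ 6 ≤ N ∧ N < (m1 + 1) ^ 6 := by
  have h : ∃ k : ℕ, N < k ^ 6 := ⟨N + 1, by
    calc N < N + 1 := Nat.lt_succ_self N
      _ = (N + 1) ^ 1 := (pow_one _).symm
      _ ≤ (N + 1) ^ 6 := Nat.pow_le_pow_right (Nat.succ_pos N) (by norm_num)⟩
  classical
  have h1 := Nat.find_spec h
  have h2 : Nat.find h ≠ 0 := by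
    intro h0
    rw [h0] at h1
    simp at h1
  obtain ⟨k, hk⟩ := Nat.exists_eq_succ_of_ne_zero h2
  refine ⟨k, ?_, ?_⟩
  · have h3 := Nat.find_min h (m := k) (by omega)
    exact not_lt.1 h3
  · rw [hk] at h1
    exact h1

theorem low_ind (L : ℝ) (hL : 1 ≤ L) : ∃ (C : ℝ) (m0 N0 : ℕ), 1 ≤ m0 ∧ 0 ≤ C ∧ ∀ N : ℕ, N0 ≤ N → m0 < N →
    ∀ (W : ℤ × ℤ → ℝ) (A B : ℤ → ℝ), Rf L N W A B → ∃ z : Li → ℝ, St N (full N) z ∧
      1 / 2 * Real.exp (Vf N N (full N) z +
        ∑ j ∈ Finset.Ioc m0 N, (1 / (2 * (j : ℝ)) - C * (1 / (N : ℝ) + (j : ℝ) ^ (-(5 / 4) : ℝ))) - C) ≤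
      zz N N (full N) := by
  have hL3 : (1 : ℝ) ≤ L ^ 3 := one_le_pow₀ hL
  have hK : (1 : ℝ) ≤ 32 * L ^ 3 := by linarith
  have hl : (0 : ℝ) < 1 / (3200 * L ^ 3) := by positivity
  obtain ⟨C0, mA, hC0, hmA, hxi⟩ := xi hK hl
  obtain ⟨C1, hC1, hnor⟩ := nor (lam := 1 / (3200 * L ^ 3)) hK hC0
  obtain ⟨t1, m0, N0, γ, dd, ht1, hmX, hm02, hdd, hpsi⟩ :=
    exists_psi L (20 * C0) hL (by linarith) (max mA ⌈16 * C0⌉₊)
  obtain ⟨Cb, hCb, hbase⟩ := base_bd m0 (by omega)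
  have hCC : 0 ≤ C1 * (1 + 32 * L ^ 3) := by positivity
  refine ⟨C1 * (1 + 32 * L ^ 3) + Cb, m0, N0, by omega, by linarith, ?_⟩
  intro N hN hmN W A B hR
  obtain ⟨m1, hm1, hm1'⟩ := li_root N
  obtain ⟨hm01, -, hG, Ψ, hΨ0, hΨ1, hΨ2, hΨ3, hΨ4⟩ := hpsi N hN W A B hR m1 hm1 hm1'
  generalize hC : C1 * (1 + 32 * L ^ 3) + Cb = C
  have hC1' : C1 * (1 + 32 * L ^ 3) ≤ C := by linarith
  have hCbC : Cb ≤ C := by linarith
  set s : ℕ → ℝ := fun j => 1 / (2 * (j : ℝ)) - C * (1 / (N : ℝ) + (j : ℝ) ^ (-(5 / 4) : ℝ)) with hs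
  have claim : ∀ m, m0 ≤ m → m ≤ N → ∀ (I : Finset Li) (z : Li → ℝ), GLo L t1 (γ N) m1 N m W I →
      Reg (32 * L ^ 3) (1 / (3200 * L ^ 3)) N m I z → Cl (dd N m) N m W I z →
      P2 I z ≤ 32 * L ^ 3 * m * ((m : ℝ) / N + (m : ℝ) ^ (-(1 / 4) : ℝ)) →
      (1 - Ψ m I) * Real.exp (Vf N m I z + ∑ j ∈ Finset.Ioc m0 m, s j - C) ≤ zz N m I := by
    intro m hm
    induction m, hm using Nat.le_induction with
    | base =>
      intro _ I z hG hz _ _
      have h1 := hall hG.vd hz.st (hG.sma hm01)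
      have h2 := (abs_le.1 (hbase N I z hG.vd hz.st).1).2
      rw [Finset.Ioc_self, Finset.sum_empty, add_zero]
      have h3 : Real.exp (Vf N m0 I z - C) ≤ 1 := Real.exp_le_one_iff.2 (by linarith)
      have h4 := Real.exp_pos (Vf N m0 I z - C)
      have h5 := hΨ0 m0 I
      nlinarith
    | succ m hm ih =>
      intro hmN' I z hG hz hcl hp2
      have hM : (1 : ℝ) ≤ ((m + 1 : ℕ) : ℝ) := by exact_mod_cast Nat.succ_le_succ (Nat.zero_le m)
      have hMp : (0 : ℝ) < ((m + 1 : ℕ) : ℝ) := by linarith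
      by_cases h1 : 1 ≤ Ψ (m + 1) I
      · exact (mul_nonpos_of_nonpos_of_nonneg (by linarith) (Real.exp_pos _).le).trans
          (zz_nonneg _ _ _)
      have h1' : Ψ (m + 1) I < 1 := not_le.1 h1
      have hA : mA ≤ m + 1 := ((le_max_left _ _).trans hmX).trans (by omega)
      have h16 : 16 * C0 ≤ ((m + 1 : ℕ) : ℝ) := by
        have h2 : ⌈16 * C0⌉₊ ≤ m + 1 := ((le_max_right _ _).trans hmX).trans (by omega)
        exact (Nat.le_ceil _).trans (by exact_mod_cast h2)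
      obtain ⟨ξ, x1, x2, x3, x4⟩ := hxi N (m + 1) I z hA hG.vd hz
      obtain ⟨n1, n2, n3, n4⟩ := hnor N (m + 1) I z ξ h16 hG.vd hz x1 x4
      have h7 := hΨ2 (m + 1) I z _ (by omega) hmN' hG hz hcl n2
      beta_reduce at h7
      rw [Nat.add_sub_cancel] at h7
      have herr := li_err hL hC1 (by omega : 1 ≤ m + 1) (by omega : 1 ≤ N) hp2
      have hrp : 0 ≤ 1 / (N : ℝ) + ((m + 1 : ℕ) : ℝ) ^ (-(5 / 4) : ℝ) :=
        add_nonneg (by positivity) (Real.rpow_nonneg hMp.le _)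
      have hsS : Real.exp (s (m + 1)) ≤
          ∑ e ∈ Sq N I, wt z e / ((m + 1 : ℕ) : ℝ) *
            Real.exp (ξ e - C0 / ((m + 1 : ℕ) : ℝ) ^ 2) := by
        refine le_trans (Real.exp_le_exp.2 ?_) n3
        have h8 := mul_le_mul_of_nonneg_right hC1' hrp
        rw [hs]
        beta_reduce
        linarith
      set E := Vf N (m + 1) I z + ∑ j ∈ Finset.Ioc m0 m, s j - C with hE
      have hsq : ∀ e ∈ Sq N I, (1 - Ψ m (rm I e)) * (Real.exp E * (wt z e *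
          Real.exp (ξ e - C0 / ((m + 1 : ℕ) : ℝ) ^ 2))) ≤ zz N m (rm I e) := by
        intro e he
        by_cases h2 : 1 ≤ Ψ m (rm I e)
        · refine le_trans ?_ (zz_nonneg _ _ _)
          refine mul_nonpos_of_nonpos_of_nonneg (by linarith) ?_
          exact mul_nonneg (Real.exp_pos _).le (mul_nonneg (Real.exp_pos _).le (Real.exp_pos _).le)
        · have hv := vd_rm hG.vd he
          have h2' : Ψ m (rm I e) < 1 := not_le.1 h2
          have hG' : GLo L t1 (γ N) m1 N m W (rm I e) := by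
            by_contra hcon
            exact h2 (hΨ1 m (rm I e) hm (by omega) hv hcon)
          obtain ⟨z', r1, r2, r3⟩ := hΨ4 m (rm I e) hm (by omega) hG'
          refine le_trans ?_ (ih (by omega) _ z' hG' r1 r2 r3)
          refine mul_le_mul_of_nonneg_left ?_ (by linarith)
          have h3 := x3 e he z'
          rw [Nat.add_sub_cancel] at h3
          rw [wt, ← Real.exp_add, ← Real.exp_add]
          apply Real.exp_le_exp.2
          rw [hE]
          linarith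
      have hz1 : zz N (m + 1) I = (∑ e ∈ Sq N I, zz N m (rm I e)) / ((m + 1 : ℕ) : ℝ) := by
        rw [zz]
        push_cast
        rfl
      rw [hz1, le_div_iff₀ hMp]
      refine le_trans ?_ (Finset.sum_le_sum hsq)
      rw [Finset.sum_Ioc_succ_top (by omega : m0 ≤ m)]
      have hexp : Real.exp (Vf N (m + 1) I z + (∑ j ∈ Finset.Ioc m0 m, s j + s (m + 1)) - C) =
          Real.exp E * Real.exp (s (m + 1)) := by
        rw [← Real.exp_add, hE]
        congr 1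
        ring
      rw [hexp]
      generalize hMM : ((m + 1 : ℕ) : ℝ) = M at *
      generalize hSS : ∑ e ∈ Sq N I, wt z e / M * Real.exp (ξ e - C0 / M ^ 2) = S at *
      have h5 : ∑ e ∈ Sq N I, (1 - Ψ m (rm I e)) * (Real.exp E * (wt z e *
          Real.exp (ξ e - C0 / M ^ 2))) = Real.exp E * M * S * (1 - ∑ e ∈ Sq N I,
            wt z e / M * Real.exp (ξ e - C0 / M ^ 2) / S * Ψ m (rm I e)) := by
        have h6 : S * ∑ e ∈ Sq N I, wt z e / M * Real.exp (ξ e - C0 / M ^ 2) / S *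
            Ψ m (rm I e) = ∑ e ∈ Sq N I, wt z e / M * Real.exp (ξ e - C0 / M ^ 2) *
              Ψ m (rm I e) := by
          rw [Finset.mul_sum]
          refine Finset.sum_congr rfl fun e _ => ?_
          have := n1.ne'
          field_simp
        rw [mul_assoc (Real.exp E * M), mul_sub, mul_one, h6, ← hSS, ← Finset.sum_sub_distrib,
          Finset.mul_sum]
        refine Finset.sum_congr rfl fun e _ => ?_
        have := hMp.ne'
        field_simp
      rw [h5]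
      have hEp := Real.exp_pos E
      calc (1 - Ψ (m + 1) I) * (Real.exp E * Real.exp (s (m + 1))) * M
          ≤ (1 - Ψ (m + 1) I) * (Real.exp E * S) * M := by
            refine mul_le_mul_of_nonneg_right ?_ hMp.le
            refine mul_le_mul_of_nonneg_left ?_ (by linarith)
            exact mul_le_mul_of_nonneg_left hsS hEp.le
        _ = Real.exp E * M * S * (1 - Ψ (m + 1) I) := by ring
        _ ≤ Real.exp E * M * S * (1 - ∑ e ∈ Sq N I,
            wt z e / M * Real.exp (ξ e - C0 / M ^ 2) / S * Ψ m (rm I e)) := by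
            refine mul_le_mul_of_nonneg_left (by linarith) ?_
            exact (mul_pos (mul_pos hEp hMp) n1).le
  obtain ⟨z, hz, hcl, hp2⟩ := hΨ4 N (full N) hmN.le le_rfl hG
  refine ⟨z, hz.st, ?_⟩
  refine le_trans ?_ (claim N hmN.le le_rfl _ z hG hz hcl hp2)
  exact mul_le_mul_of_nonneg_right (by linarith) (Real.exp_pos _).le

end Pool.Agent.NQL
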