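import Pool.Agent.NQL.Defs

/-!
# NQL-CSum: harmonic sums (Mathlib only)

PLAN. `1/j ≤ log j - log (j-1) ≤ 1/(j-1)` for `j ≥ 2`: `∑_{j ∈ Ioc m0 N} 1/(2j)` is between `(1/2)(log (N+1) - log (m0+1))` and `(1/2)(log N - log m0)` (`m0 ≥ 1`). `∑ 1/N ≤ 1`; `j^(-5/4) ≤ 4 ((j-1)^(-1/4) - j^(-1/4))` for `j ≥ 2`, so the sum is `≤ 4`.
-/

set_option autoImplicit false

open Finset

namespace Pool.Agent.NQL

open Pool.Agent.NQ (board dsum F Ent Dg phi ln Q Qset QS NonAtt bern)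
open Pool.Agent.NQR (Adm Opt Bd Rf hS hD hh InR)

private theorem step_up (j : ℕ) (hj : 1 ≤ j) :
    1 / ((j : ℝ) + 1) ≤ Real.log ((j : ℝ) + 1) - Real.log j := by
  have h1 : (1 : ℝ) ≤ j := by exact_mod_cast hj
  have hx : (0 : ℝ) < ((j : ℝ) + 1) / j := by positivity
  have h := Real.one_sub_inv_le_log_of_pos hx
  rw [Real.log_div (by positivity) (by positivity)] at h
  have e : 1 - (((j : ℝ) + 1) / j)⁻¹ = 1 / ((j : ℝ) + 1) := by
    field_simp
    ring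
  rw [e] at h
  exact h

private theorem step_lo (j : ℕ) (hj : 1 ≤ j) :
    Real.log ((j : ℝ) + 1) - Real.log j ≤ 1 / (j : ℝ) := by
  have h1 : (1 : ℝ) ≤ j := by exact_mod_cast hj
  have hx : (0 : ℝ) < ((j : ℝ) + 1) / j := by positivity
  have h := Real.log_le_sub_one_of_pos hx
  rw [Real.log_div (by positivity) (by positivity)] at h
  have e : ((j : ℝ) + 1) / j - 1 = 1 / (j : ℝ) := by
    field_simp
    ring
  rw [e] at h
  exact h

private theorem step_pow (j : ℕ) (hj : 1 ≤ j) :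
    ((j : ℝ) + 1) ^ (-(5 / 4) : ℝ) ≤
      4 * ((j : ℝ) ^ (-(1 / 4) : ℝ) - ((j : ℝ) + 1) ^ (-(1 / 4) : ℝ)) := by
  have h1 : (1 : ℝ) ≤ j := by exact_mod_cast hj
  have hJ : (0 : ℝ) < (j : ℝ) + 1 := by positivity
  set J : ℝ := (j : ℝ) + 1 with hJd
  have hj0 : (0 : ℝ) < j := by linarith
  have hb : 0 < J ^ (1 / 4 : ℝ) := Real.rpow_pos_of_pos hJ _
  have ha : 0 < (j : ℝ) ^ (1 / 4 : ℝ) := Real.rpow_pos_of_pos hj0 _
  have hab : (j : ℝ) ^ (1 / 4 : ℝ) ≤ J ^ (1 / 4 : ℝ) * (1 - 1 / (4 * J)) := by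
    have e1 : (j : ℝ) = J * (1 + -(1 / J)) := by
      rw [hJd]
      field_simp
      ring
    have hs : -1 ≤ -(1 / J) := by
      have : 1 / J ≤ 1 := by
        rw [div_le_one hJ]
        linarith
      linarith
    have hB := rpow_one_add_le_one_add_mul_self hs (by norm_num : (0 : ℝ) ≤ 1 / 4)
      (by norm_num : (1 / 4 : ℝ) ≤ 1)
    have h0 : (0 : ℝ) ≤ 1 + -(1 / J) := by linarith
    calc (j : ℝ) ^ (1 / 4 : ℝ) = (J * (1 + -(1 / J))) ^ (1 / 4 : ℝ) := by rw [← e1]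
      _ = J ^ (1 / 4 : ℝ) * (1 + -(1 / J)) ^ (1 / 4 : ℝ) := Real.mul_rpow hJ.le h0
      _ ≤ J ^ (1 / 4 : ℝ) * (1 + 1 / 4 * -(1 / J)) := mul_le_mul_of_nonneg_left hB hb.le
      _ = J ^ (1 / 4 : ℝ) * (1 - 1 / (4 * J)) := by
          congr 1
          field_simp
          ring
  have e2 : J ^ (-(5 / 4) : ℝ) = 1 / (J ^ (1 / 4 : ℝ) * J) := by
    rw [Real.rpow_neg hJ.le, one_div, show (5 / 4 : ℝ) = 1 / 4 + 1 by norm_num,
      Real.rpow_add hJ, Real.rpow_one]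
  have e3 : J ^ (-(1 / 4) : ℝ) = 1 / J ^ (1 / 4 : ℝ) := by
    rw [Real.rpow_neg hJ.le]
    exact (one_div _).symm
  have e4 : (j : ℝ) ^ (-(1 / 4) : ℝ) = 1 / (j : ℝ) ^ (1 / 4 : ℝ) := by
    rw [Real.rpow_neg hj0.le]
    exact (one_div _).symm
  rw [e2, e3, e4]
  set a := (j : ℝ) ^ (1 / 4 : ℝ) with had
  set b := J ^ (1 / 4 : ℝ) with hbd
  have h5 : (1 + 1 / (4 * J)) / b ≤ 1 / a := by
    rw [div_le_div_iff₀ hb ha]
    have hp : 0 ≤ 1 / (4 * J) := by positivity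
    have : (1 + 1 / (4 * J)) * a ≤ (1 + 1 / (4 * J)) * (b * (1 - 1 / (4 * J))) :=
      mul_le_mul_of_nonneg_left hab (by linarith)
    nlinarith [mul_nonneg hb.le (mul_nonneg hp hp)]
  have h6 : (1 + 1 / (4 * J)) / b = 1 / b + 1 / (4 * (b * J)) := by
    field_simp
  rw [h6] at h5
  have h7 : 1 / (b * J) = 4 * (1 / (4 * (b * J))) := by
    field_simp
  rw [h7]
  linarith

theorem harm (m0 : ℕ) (h0 : 1 ≤ m0) : ∃ C : ℝ, 0 ≤ C ∧ ∀ N : ℕ, m0 < N →
    |∑ j ∈ Finset.Ioc m0 N, 1 / (2 * (j : ℝ)) - Real.log N / 2| ≤ C ∧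
    ∑ j ∈ Finset.Ioc m0 N, (1 / (N : ℝ) + (j : ℝ) ^ (-(5 / 4) : ℝ)) ≤ 5 := by
  have hm : (1 : ℝ) ≤ m0 := by exact_mod_cast h0
  have hup : ∀ N : ℕ, m0 ≤ N → ∑ j ∈ Finset.Ioc m0 N, 1 / (2 * (j : ℝ)) ≤
      (Real.log N - Real.log m0) / 2 := by
    intro N hN
    induction N, hN using Nat.le_induction with
    | base => simp
    | succ N hN ih =>
      rw [Finset.sum_Ioc_succ_top hN]
      have h := step_up N (le_trans h0 hN)
      push_cast
      have e : 1 / (2 * ((N : ℝ) + 1)) = 1 / ((N : ℝ) + 1) / 2 := by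
        field_simp
      rw [e]
      linarith
  have hlo : ∀ N : ℕ, m0 ≤ N → (Real.log ((N : ℝ) + 1) - Real.log ((m0 : ℝ) + 1)) / 2 ≤
      ∑ j ∈ Finset.Ioc m0 N, 1 / (2 * (j : ℝ)) := by
    intro N hN
    induction N, hN using Nat.le_induction with
    | base => simp
    | succ N hN ih =>
      rw [Finset.sum_Ioc_succ_top hN]
      have h := step_lo (N + 1) (by omega)
      push_cast at h ⊢
      have e : 1 / (2 * ((N : ℝ) + 1)) = 1 / ((N : ℝ) + 1) / 2 := by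
        field_simp
      rw [e]
      linarith
  have hpw : ∀ N : ℕ, m0 ≤ N → ∑ j ∈ Finset.Ioc m0 N, (j : ℝ) ^ (-(5 / 4) : ℝ) ≤
      4 * ((m0 : ℝ) ^ (-(1 / 4) : ℝ) - (N : ℝ) ^ (-(1 / 4) : ℝ)) := by
    intro N hN
    induction N, hN using Nat.le_induction with
    | base => simp
    | succ N hN ih =>
      rw [Finset.sum_Ioc_succ_top hN]
      have h := step_pow N (le_trans h0 hN)
      push_cast
      linarith
  refine ⟨Real.log ((m0 : ℝ) + 1) / 2, ?_, ?_⟩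
  · have : 0 ≤ Real.log ((m0 : ℝ) + 1) := Real.log_nonneg (by linarith)
    linarith
  · intro N hN
    have hN0 : (0 : ℝ) < N := by
      have : 0 < N := by omega
      exact_mod_cast this
    constructor
    · have h1 := hup N hN.le
      have h2 := hlo N hN.le
      have h3 : Real.log N ≤ Real.log ((N : ℝ) + 1) := Real.log_le_log hN0 (by linarith)
      have h4 : 0 ≤ Real.log (m0 : ℝ) := Real.log_nonneg hm
      have h5 : 0 ≤ Real.log ((m0 : ℝ) + 1) := Real.log_nonneg (by linarith)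
      rw [abs_le]
      constructor <;> linarith
    · rw [Finset.sum_add_distrib]
      have h1 := hpw N hN.le
      have h2 : ∑ _j ∈ Finset.Ioc m0 N, 1 / (N : ℝ) ≤ 1 := by
        rw [Finset.sum_const, nsmul_eq_mul, Nat.card_Ioc, mul_one_div, div_le_one hN0]
        exact_mod_cast Nat.sub_le N m0
      have h3 : (m0 : ℝ) ^ (-(1 / 4) : ℝ) ≤ 1 :=
        Real.rpow_le_one_of_one_le_of_nonpos hm (by norm_num)
      have h4 : 0 ≤ (N : ℝ) ^ (-(1 / 4) : ℝ) := Real.rpow_nonneg hN0.le _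
      linarith

end Pool.Agent.NQL
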