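import Pool.Agent.NQL.Defs
import Pool.Agent.NQL.ABas
import Pool.Agent.NQL.ACvx
import Pool.Agent.NQL.BFul
import Pool.Agent.NQL.DCnt
import Pool.Agent.NQL.CSum
import Pool.Agent.NQL.CInd

/-!
# NQL-CLow: the lower bound

PLAN. `low_ind`, `harm`. `Vf N N (full N) z = Vf N N (full N) (zn ..) = F N W - N` (`full_st`: both are stationary, `st_min` in both directions gives equal `Gf`). `zz_full`. Take logarithms.
-/

set_option autoImplicit false

open Finset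

namespace Pool.Agent.NQL

open Pool.Agent.NQ (board dsum F Ent Dg phi ln Q Qset QS NonAtt bern)
open Pool.Agent.NQR (Adm Opt Bd Rf hS hD hh InR)

theorem lower (L : ℝ) (hL : 1 ≤ L) : ∃ (C : ℝ) (N0 : ℕ), ∀ N : ℕ, N0 ≤ N → ∀ (W : ℤ × ℤ → ℝ) (A B : ℤ → ℝ),
    Rf L N W A B → 0 < Q N ∧ F N W - N + Real.log N / 2 - C ≤ Real.log (Q N) := by
  obtain ⟨C, m0, N0, hm0, hC, H⟩ := low_ind L hL
  obtain ⟨C', hC', HH⟩ := harm m0 hm0
  refine ⟨1 + C' + 6 * C, max N0 (m0 + 2), ?_⟩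
  intro N hN W A B hR
  have h1 : N0 ≤ N := by omega
  have h2 : m0 < N := by omega
  have h3 : 2 ≤ N := by omega
  obtain ⟨z, hz, hle⟩ := H N h1 h2 W A B hR
  obtain ⟨hs, hv, _, _⟩ := full_st hL h3 hR
  obtain ⟨ha, hb⟩ := HH N h2
  have hV : Vf N N (full N) z = F N W - N := by
    rw [← hv]
    have e1 := st_min hz (zn N W A B N)
    have e2 := st_min hs z
    unfold Vf
    linarith
  have hQpos : (0 : ℝ) < zz N N (full N) := by
    refine lt_of_lt_of_le ?_ hle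
    positivity
  have hsum : ∑ j ∈ Finset.Ioc m0 N, (1 / (2 * (j : ℝ)) - C * (1 / (N : ℝ) + (j : ℝ) ^ (-(5 / 4) : ℝ))) =
      ∑ j ∈ Finset.Ioc m0 N, 1 / (2 * (j : ℝ)) -
        C * ∑ j ∈ Finset.Ioc m0 N, (1 / (N : ℝ) + (j : ℝ) ^ (-(5 / 4) : ℝ)) := by
    rw [Finset.sum_sub_distrib, Finset.mul_sum]
  have hlog : Real.log (1 / 2) + (Vf N N (full N) z +
        ∑ j ∈ Finset.Ioc m0 N, (1 / (2 * (j : ℝ)) - C * (1 / (N : ℝ) + (j : ℝ) ^ (-(5 / 4) : ℝ))) - C) ≤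
      Real.log (zz N N (full N)) := by
    have h := Real.log_le_log (by positivity) hle
    rw [Real.log_mul (by norm_num) (Real.exp_pos _).ne', Real.log_exp] at h
    exact h
  rw [zz_full] at hQpos hlog
  have hQ' : 0 < Q N := by exact_mod_cast hQpos
  refine ⟨hQ', ?_⟩
  have hl2 : -1 ≤ Real.log (1 / 2) := by
    rw [one_div, Real.log_inv]
    have := Real.log_two_lt_d9
    linarith
  have h5 : C * ∑ j ∈ Finset.Ioc m0 N, (1 / (N : ℝ) + (j : ℝ) ^ (-(5 / 4) : ℝ)) ≤ C * 5 :=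
    mul_le_mul_of_nonneg_left hb hC
  have h6 := (abs_le.1 ha).1
  rw [hsum, hV] at hlog
  linarith

end Pool.Agent.NQL
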