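import Pool.Agent.NQL.Defs
import Pool.Agent.NQL.ABas
import Pool.Agent.NQL.DCnt

/-!
# NQL-DIns: instances of a configuration

`P ∈ Qset N` (a configuration of `N` queens), `R ⊆ P`: the instance `rmS (full N) (P \ R)` is obtained by removing the
lines of the queens of `P \ R` one after the other.
-/

set_option autoImplicit false

open Finset

namespace Pool.Agent.NQL

open Pool.Agent.NQ (board dsum F Ent Dg phi ln Q Qset QS NonAtt bern)
open Pool.Agent.NQR (Adm Opt Bd Rf hS hD hh InR)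

theorem mem_rmS {I : Finset Li} {T : Finset (ℤ × ℤ)} {l : Li} : l ∈ rmS I T ↔ l ∈ I ∧ ∀ e ∈ T, ¬ On e l := by
  unfold rmS
  rw [Finset.mem_filter]


theorem sq_rmS {N : ℕ} {T : Finset (ℤ × ℤ)} {e : ℤ × ℤ} :
    e ∈ Sq N (rmS (full N) T) ↔ e ∈ board N ∧ ∀ q ∈ T, ∀ k, ln k q ≠ ln k e := by
  rw [mem_Sq]
  constructor
  · rintro ⟨h1, h2⟩
    exact ⟨h1, fun q hq k => (mem_rmS.1 (h2 k)).2 q hq⟩
  · rintro ⟨h1, h2⟩
    refine ⟨h1, fun k => mem_rmS.2 ⟨mem_full.2 ⟨e, h1, rfl⟩, fun q hq => h2 q hq k⟩⟩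


theorem rc_occ {N : ℕ} {P : Finset (ℤ × ℤ)} (hP : P ∈ Qset N) {l : Li} (hl : l ∈ full N) (h : rc l) :
    ∃ q ∈ P, On q l := by
  classical
  have hQ := Pool.Agent.NQ.mem_Qset.1 hP
  obtain ⟨e, he, hle⟩ := mem_full.1 hl
  have hrange : ∀ x : ℤ × ℤ, x ∈ board N → ln l.1 x ∈ Finset.Ico (0 : ℤ) N := by
    intro x hx
    rw [Pool.Agent.NQ.mem_board] at hx
    rw [Finset.mem_Ico]
    have h1 : l.1 = 0 ∨ l.1 = 1 := by
      unfold rc at h
      have : (l.1 : ℕ) = 0 ∨ (l.1 : ℕ) = 1 := by omega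
      rcases this with h1 | h1
      · left; exact Fin.ext h1
      · right; exact Fin.ext h1
    rcases h1 with h1 | h1
    · rw [h1]; exact hx.1
    · rw [h1]; exact hx.2
  have h2 : P.image (ln l.1) ⊆ Finset.Ico (0 : ℤ) N := by
    intro y hy
    obtain ⟨q, hq, rfl⟩ := Finset.mem_image.1 hy
    exact hrange q (hQ.1 hq)
  have h3 : (P.image (ln l.1)).card = N := by
    rw [Finset.card_image_of_injOn, hQ.2.1]
    intro a ha b hb hab
    by_contra hne
    exact hQ.2.2 a ha b hb hne l.1 hab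
  have h4 : P.image (ln l.1) = Finset.Ico (0 : ℤ) N := by
    apply Finset.eq_of_subset_of_card_le h2
    rw [h3, Int.card_Ico]
    simp
  have h5 : l.2 ∈ P.image (ln l.1) := by
    rw [h4, ← hle]
    exact hrange e he
  obtain ⟨q, hq, hq2⟩ := Finset.mem_image.1 h5
  exact ⟨q, hq, hq2⟩


theorem on_unique {N : ℕ} {P : Finset (ℤ × ℤ)} (hP : P ∈ Qset N) {l : Li} {q q' : ℤ × ℤ} (hq : q ∈ P)
    (hq' : q' ∈ P) (h : On q l) (h' : On q' l) : q = q' := by
  by_contra hne
  have hQ := Pool.Agent.NQ.mem_Qset.1 hP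
  have h1 : ln l.1 q = l.2 := h
  have h2 : ln l.1 q' = l.2 := h'
  exact hQ.2.2 q hq q' hq' hne l.1 (h1.trans h2.symm)


private theorem vi_aux {N : ℕ} (hN : 1 ≤ N) {P : Finset (ℤ × ℤ)} (hP : P ∈ Qset N)
    (T : Finset (ℤ × ℤ)) : T ⊆ P → ∀ j : ℕ, T.card + j = N → Vd N j (rmS (full N) T) := by
  classical
  induction T using Finset.induction_on with
  | empty =>
    intro _ j hj
    rw [Finset.card_empty, zero_add] at hj
    subst hj
    have h1 : rmS (full j) ∅ = full j := by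
      ext l
      rw [mem_rmS]
      exact ⟨fun h => h.1, fun h => ⟨h, fun e he => absurd he (Finset.notMem_empty e)⟩⟩
    rw [h1]
    exact vd_full hN
  | insert e T he ih =>
    intro hT j hj
    rw [Finset.card_insert_of_notMem he] at hj
    have h1 := ih (fun x hx => hT (Finset.mem_insert_of_mem hx)) (j + 1) (by omega)
    have heP : e ∈ P := hT (Finset.mem_insert_self e T)
    have hQ := Pool.Agent.NQ.mem_Qset.1 hP
    have h2 : e ∈ Sq N (rmS (full N) T) := by
      rw [sq_rmS]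
      refine ⟨hQ.1 heP, fun q hq k => ?_⟩
      exact hQ.2.2 q (hT (Finset.mem_insert_of_mem hq)) e heP (fun h => he (h ▸ hq)) k
    have h3 : rmS (full N) (insert e T) = rm (rmS (full N) T) e := by
      ext l
      rw [mem_rmS, mem_rm, mem_rmS]
      constructor
      · rintro ⟨a, b⟩
        exact ⟨⟨a, fun x hx => b x (Finset.mem_insert_of_mem hx)⟩, b e (Finset.mem_insert_self e T)⟩
      · rintro ⟨⟨a, b⟩, c⟩
        refine ⟨a, fun x hx => ?_⟩
        rcases Finset.mem_insert.1 hx with h | h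
        · rw [h]; exact c
        · exact b x h
    rw [h3]
    exact vd_rm h1 h2

theorem vd_rmS {N k : ℕ} (hN : 1 ≤ N) {P R : Finset (ℤ × ℤ)} (hP : P ∈ Qset N) (hR : R ⊆ P) (hk : R.card = k) :
    Vd N k (rmS (full N) (P \ R)) := by
  classical
  have hQ := Pool.Agent.NQ.mem_Qset.1 hP
  have h1 := Finset.card_sdiff_add_card_eq_card hR
  rw [hk, hQ.2.1] at h1
  exact vi_aux hN hP (P \ R) Finset.sdiff_subset k h1


end Pool.Agent.NQL
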