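import Pool.Agent.NQL.Defs
import Pool.Agent.NQL.ABas
import Pool.Agent.NQL.BNom
import Pool.Agent.NQL.DIns

/-!
# NQL-DExp: expectation of the mass of a line under random removal

`t = k/N`, each queen of `P` is kept with probability `t` (`bern P`), the queens on the line `l` are always kept.

PLAN. For a square `e` of `l`: `e ∈ Sq N (rmS (full N) (P \ (R ∪ P.filter (On · l))))` iff every queen of `P` that shares a line with `e` and is not on `l` belongs to `R`. If `e ∉ P`: the queens on the lines `(k', ln k' e)`, `k' ≠ l.1`, are different from each other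
(`two_lines`: a queen on two lines of `e` is `e`) and not on `l`; their number is the number of occupied lines among the three; the probability that all are in `R` is `t ^ number` (`NQR.bern_prod` with `S2 = ∅`, or `sum over supersets`) `= ∏_{k' ≠ l.1} (if occupied then t else 1)`.
If `e ∈ P` (at most one such `e` on `l`): probability `1`; difference at most `Wn e ≤ L³/k`. Sum over `e` (exchange of sums).
-/

set_option autoImplicit false

open Finset

namespace Pool.Agent.NQL

open Pool.Agent.NQ (board dsum F Ent Dg phi ln Q Qset QS NonAtt bern)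
open Pool.Agent.NQR (Adm Opt Bd Rf hS hD hh InR)

private theorem de_super {ι : Type*} [DecidableEq ι] (A : Finset ι) (t : ℝ) {S : Finset ι}
    (hS : S ⊆ A) :
    ∑ T ∈ A.powerset, bern A (fun _ => t) T * (if S ⊆ T then 1 else 0) = t ^ S.card := by
  have e1 : ∏ i ∈ A, (t + (if i ∈ S then 0 else 1 - t)) =
      ∑ T ∈ A.powerset, bern A (fun _ => t) T * (if S ⊆ T then 1 else 0) := by
    rw [prod_add]
    refine sum_congr rfl fun T hT => ?_
    unfold bern
    split_ifs with h
    · rw [mul_one]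
      congr 1
      refine prod_congr rfl fun i hi => ?_
      rw [if_neg]
      exact fun h' => (mem_sdiff.1 hi).2 (h h')
    · rw [mul_zero]
      obtain ⟨i, hi1, hiT⟩ := not_subset.1 h
      have : i ∈ A \ T := mem_sdiff.2 ⟨hS hi1, hiT⟩
      rw [prod_eq_zero this (by rw [if_pos hi1]), mul_zero]
  have e2 : ∏ i ∈ A, (t + (if i ∈ S then 0 else 1 - t)) = ∏ i ∈ A, (if i ∈ S then t else 1) := by
    refine prod_congr rfl fun i _ => ?_
    by_cases hi : i ∈ S
    · rw [if_pos hi, if_pos hi, add_zero]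
    · rw [if_neg hi, if_neg hi]
      ring
  rw [← e1, e2, prod_ite_mem, inter_eq_right.2 hS, prod_const]

open Classical in
/-- the queens that must be kept -/
private noncomputable def deS (P : Finset (ℤ × ℤ)) (l : Li) (e : ℤ × ℤ) : Finset (ℤ × ℤ) :=
  P.filter (fun q => ¬ On q l ∧ ∃ k' : Fin 4, ln k' q = ln k' e)

open Classical in
private theorem mem_deS {P : Finset (ℤ × ℤ)} {l : Li} {e q : ℤ × ℤ} :
    q ∈ deS P l e ↔ q ∈ P ∧ ¬ On q l ∧ ∃ k' : Fin 4, ln k' q = ln k' e := by
  unfold deS
  rw [mem_filter]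

open Classical in
private theorem de_YY (N : ℕ) (W : ℤ × ℤ → ℝ) (k : ℕ) (P R : Finset (ℤ × ℤ)) (l : Li) :
    YY N W k (rmS (full N) (P \ (R ∪ P.filter (fun q => On q l)))) l =
      ∑ e ∈ (board N).filter (fun e => On e l),
        Wn N W k e * (if deS P l e ⊆ R then 1 else 0) := by
  have h1 : Sl N (rmS (full N) (P \ (R ∪ P.filter (fun q => On q l)))) l =
      ((board N).filter (fun e => On e l)).filter (fun e => deS P l e ⊆ R) := by
    ext e
    rw [mem_Sl, sq_rmS, mem_filter, mem_filter]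
    constructor
    · rintro ⟨⟨hb, h⟩, hl⟩
      refine ⟨⟨hb, hl⟩, fun q hq => ?_⟩
      obtain ⟨hqP, hql, k', hk'⟩ := mem_deS.1 hq
      by_contra hR
      refine h q ?_ k' hk'
      rw [mem_sdiff, mem_union, mem_filter]
      refine ⟨hqP, ?_⟩
      rintro (h2 | h2)
      · exact hR h2
      · exact hql h2.2
    · rintro ⟨⟨hb, hl⟩, h⟩
      refine ⟨⟨hb, fun q hq k' hk' => ?_⟩, hl⟩
      rw [mem_sdiff, mem_union, mem_filter] at hq
      obtain ⟨hqP, hq2⟩ := hq
      apply hq2
      by_cases hql : On q l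
      · exact Or.inr ⟨hqP, hql⟩
      · exact Or.inl (h (mem_deS.2 ⟨hqP, hql, k', hk'⟩))
  unfold YY
  rw [h1, sum_filter]
  refine sum_congr rfl fun e _ => ?_
  split_ifs
  · rw [mul_one]
  · rw [mul_zero]

open Classical in
private theorem de_card {N : ℕ} {P : Finset (ℤ × ℤ)} (hP : P ∈ Qset N) {l : Li} {e : ℤ × ℤ}
    (hel : On e l) (heP : e ∉ P) :
    (deS P l e).card =
      ((Finset.univ.erase l.1).filter (fun k' => ∃ q ∈ P, On q (k', ln k' e))).card := by
  symm
  refine Finset.card_bij (fun k' hk' => (mem_filter.1 hk').2.choose) ?_ ?_ ?_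
  · intro k' hk'
    obtain ⟨h1, h2⟩ := (mem_filter.1 hk').2.choose_spec
    rw [mem_deS]
    refine ⟨h1, fun h3 => ?_, k', h2⟩
    have h4 : ln l.1 ((mem_filter.1 hk').2.choose) = ln l.1 e := by
      have h5 : ln l.1 ((mem_filter.1 hk').2.choose) = l.2 := h3
      have h6 : ln l.1 e = l.2 := hel
      rw [h5, h6]
    have h7 := two_lines (Finset.ne_of_mem_erase (mem_filter.1 hk').1) h2 h4
    rw [h7] at h1
    exact heP h1
  · intro k1 hk1 k2 hk2 h12
    by_contra hne
    obtain ⟨h1, h2⟩ := (mem_filter.1 hk1).2.choose_spec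
    obtain ⟨h3, h4⟩ := (mem_filter.1 hk2).2.choose_spec
    have h12' : (mem_filter.1 hk1).2.choose = (mem_filter.1 hk2).2.choose := h12
    rw [← h12'] at h4
    have h7 := two_lines hne h2 h4
    rw [h7] at h1
    exact heP h1
  · intro q hq
    obtain ⟨hqP, hql, k', hk'⟩ := mem_deS.1 hq
    have hne : k' ≠ l.1 := by
      rintro rfl
      apply hql
      show ln l.1 q = l.2
      rw [hk']
      exact hel
    have hmem : k' ∈ (Finset.univ.erase l.1).filter (fun k' => ∃ q ∈ P, On q (k', ln k' e)) := by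
      rw [mem_filter, mem_erase]
      exact ⟨⟨hne, mem_univ _⟩, q, hqP, hk'⟩
    refine ⟨k', hmem, ?_⟩
    obtain ⟨h1, h2⟩ := (mem_filter.1 hmem).2.choose_spec
    exact on_unique hP h1 hqP h2 (show On q (k', ln k' e) from hk')

private theorem de_prod (s : Finset (Fin 4)) (p : Fin 4 → Prop) [DecidablePred p] (t : ℝ) :
    ∏ k' ∈ s, (if p k' then t else 1) = t ^ (s.filter p).card := by
  rw [← prod_filter, prod_const]

open Classical in
/-- the expected mass of the line `l` given the occupied lines of `P` -/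
noncomputable def fl (N : ℕ) (W : ℤ × ℤ → ℝ) (k : ℕ) (P : Finset (ℤ × ℤ)) (l : Li) : ℝ :=
  ∑ e ∈ (board N).filter (fun e => On e l), Wn N W k e *
    ∏ k' ∈ Finset.univ.erase l.1, (if ∃ q ∈ P, On q (k', ln k' e) then (k : ℝ) / N else 1)

open Classical in
theorem exp_line {L : ℝ} (hL : 1 ≤ L) {N k : ℕ} {W : ℤ × ℤ → ℝ} {A B : ℤ → ℝ} (hR : Rf L N W A B)
    (hk : 1 ≤ k) (hkN : k ≤ N) {P : Finset (ℤ × ℤ)} (hP : P ∈ Qset N) {l : Li} (hl : l ∈ full N) :
    |∑ R ∈ P.powerset, bern P (fun _ => (k : ℝ) / N) R *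
      YY N W k (rmS (full N) (P \ (R ∪ P.filter (fun q => On q l)))) l - fl N W k P l| ≤ L ^ 3 / k := by
  have hkr : (1 : ℝ) ≤ k := by exact_mod_cast hk
  have hN : 0 < N := lt_of_lt_of_le hk hkN
  have hNr : (0 : ℝ) < N := by exact_mod_cast hN
  obtain ⟨t, ht⟩ : ∃ t, t = (k : ℝ) / N := ⟨_, rfl⟩
  have ht0 : 0 ≤ t := by
    rw [ht]
    positivity
  have ht1 : t ≤ 1 := by
    rw [ht, div_le_one hNr]
    exact_mod_cast hkN
  unfold fl
  rw [← ht]
  have h1 : ∑ R ∈ P.powerset, bern P (fun _ => t) R *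
      YY N W k (rmS (full N) (P \ (R ∪ P.filter (fun q => On q l)))) l =
      ∑ e ∈ (board N).filter (fun e => On e l), Wn N W k e * t ^ (deS P l e).card := by
    have h2 : ∀ R ∈ P.powerset, bern P (fun _ => t) R *
        YY N W k (rmS (full N) (P \ (R ∪ P.filter (fun q => On q l)))) l =
        ∑ e ∈ (board N).filter (fun e => On e l),
          Wn N W k e * (bern P (fun _ => t) R * (if deS P l e ⊆ R then 1 else 0)) := by
      intro R _
      rw [de_YY, mul_sum]
      exact sum_congr rfl fun e _ => by ring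
    rw [sum_congr rfl h2, sum_comm]
    refine sum_congr rfl fun e _ => ?_
    rw [← mul_sum, ← de_super P t (S := deS P l e) (fun q hq => (mem_deS.1 hq).1)]
  rw [h1, ← sum_sub_distrib]
  have hL0 : (0 : ℝ) ≤ L ^ 3 / k := by positivity
  have hterm : ∀ e ∈ (board N).filter (fun e => On e l),
      |Wn N W k e * t ^ (deS P l e).card - Wn N W k e *
        ∏ k' ∈ Finset.univ.erase l.1, (if ∃ q ∈ P, On q (k', ln k' e) then t else 1)| ≤
        if e ∈ P then L ^ 3 / k else 0 := by
    intro e he
    obtain ⟨heb, hel⟩ := mem_filter.1 he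
    by_cases heP : e ∈ P
    · rw [if_pos heP]
      have h3 : deS P l e = ∅ := by
        rw [Finset.eq_empty_iff_forall_notMem]
        intro q hq
        obtain ⟨hqP, hql, k', hk'⟩ := mem_deS.1 hq
        apply hql
        have h4 : q = e := on_unique hP hqP heP (show On q (k', ln k' e) from hk')
          (show On e (k', ln k' e) from rfl)
        rw [h4]
        exact hel
      rw [h3, card_empty, pow_zero, mul_one, de_prod]
      obtain ⟨n, hn⟩ : ∃ n, n = ((Finset.univ.erase l.1).filter
        (fun k' => ∃ q ∈ P, On q (k', ln k' e))).card := ⟨_, rfl⟩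
      rw [← hn]
      have h5 : 0 ≤ t ^ n := pow_nonneg ht0 n
      have h6 : t ^ n ≤ 1 := pow_le_one₀ ht0 ht1
      obtain ⟨h7, h8⟩ := wn_bd hL hR hk hkN heb
      have h9 : 0 ≤ Wn N W k e := le_trans (by positivity) h7
      rw [show Wn N W k e - Wn N W k e * t ^ n = Wn N W k e * (1 - t ^ n) by ring, abs_mul,
        abs_of_nonneg h9, abs_of_nonneg (by linarith)]
      calc Wn N W k e * (1 - t ^ n) ≤ Wn N W k e * 1 :=
            mul_le_mul_of_nonneg_left (by linarith) h9
        _ ≤ L ^ 3 / k := by rw [mul_one]; exact h8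
    · rw [if_neg heP, de_prod, de_card hP hel heP, sub_self, abs_zero]
  refine (abs_sum_le_sum_abs _ _).trans ((sum_le_sum hterm).trans ?_)
  rw [← sum_filter, sum_const, nsmul_eq_mul]
  have hc : (((board N).filter (fun e => On e l)).filter (fun e => e ∈ P)).card ≤ 1 := by
    rw [card_le_one]
    intro a ha b hb
    rw [mem_filter, mem_filter] at ha hb
    exact on_unique hP ha.2 hb.2 ha.1.2 hb.1.2
  have hc' : ((((board N).filter (fun e => On e l)).filter (fun e => e ∈ P)).card : ℝ) ≤ 1 := by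
    exact_mod_cast hc
  calc ((((board N).filter (fun e => On e l)).filter (fun e => e ∈ P)).card : ℝ) * (L ^ 3 / k)
      ≤ 1 * (L ^ 3 / k) := mul_le_mul_of_nonneg_right hc' hL0
    _ = L ^ 3 / k := one_mul _

theorem bern_super {ι : Type*} [DecidableEq ι] (A : Finset ι) (t : ℝ) {S : Finset ι} (hS : S ⊆ A) :
    ∑ T ∈ A.powerset, bern A (fun _ => t) T * (if S ⊆ T then 1 else 0) = t ^ S.card := by
  exact de_super A t hS

end Pool.Agent.NQL
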