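import Pool.Agent.NQL.Defs
import Pool.Agent.NQL.ABas
import Pool.Agent.NQL.BNom
import Pool.Agent.NQL.DIns

/-!
# NQL-DLip: the mass of a line and the codegrees change little if one queen is removed

If `q` is on `l` nothing changes. Otherwise the squares of `l` that become free share a line with `q` of a type `≠ l.1`: at
most three (`two_lines`), each of weight `≤ L³/k`. Codegrees: the changed `y` are those for which `(x,y)` or `(x',y)` shares
a line with `q`: at most 5 values; each term is `≤ k (L³/k)²`.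
-/

set_option autoImplicit false

open Finset

namespace Pool.Agent.NQL

open Pool.Agent.NQ (board dsum F Ent Dg phi ln Q Qset QS NonAtt bern)
open Pool.Agent.NQR (Adm Opt Bd Rf hS hD hh InR)

private theorem dl_sub {N : ℕ} {P R G : Finset (ℤ × ℤ)} {q e : ℤ × ℤ}
    (h : e ∈ Sq N (rmS (full N) (P \ (R ∪ G)))) : e ∈ Sq N (rmS (full N) (P \ (insert q R ∪ G))) := by
  rw [sq_rmS] at h ⊢
  refine ⟨h.1, fun q' hq' k => h.2 q' ?_ k⟩
  rw [mem_sdiff, mem_union, mem_insert, not_or, not_or] at hq'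
  rw [mem_sdiff, mem_union, not_or]
  exact ⟨hq'.1, hq'.2.1.2, hq'.2.2⟩

private theorem dl_new {N : ℕ} {P R G : Finset (ℤ × ℤ)} {q e : ℤ × ℤ}
    (h : e ∈ Sq N (rmS (full N) (P \ (insert q R ∪ G)))) (h2 : e ∉ Sq N (rmS (full N) (P \ (R ∪ G)))) :
    ∃ k, ln k q = ln k e := by
  by_contra hc
  apply h2
  rw [sq_rmS] at h ⊢
  refine ⟨h.1, fun q' hq' k => ?_⟩
  by_cases hqq : q' = q
  · rw [hqq]
    exact fun h3 => hc ⟨k, h3⟩
  · apply h.2 q' _ k
    rw [mem_sdiff, mem_union, not_or] at hq'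
    rw [mem_sdiff, mem_union, mem_insert, not_or, not_or]
    exact ⟨hq'.1, ⟨hqq, hq'.2.1⟩, hq'.2.2⟩

private theorem dl_three {D : Finset (ℤ × ℤ)} {l : Li} {q : ℤ × ℤ} (h1 : ∀ e ∈ D, ln l.1 e = l.2)
    (h2 : ∀ e ∈ D, ∃ k, k ≠ l.1 ∧ ln k q = ln k e) : D.card ≤ 3 := by
  have h3 : D ⊆ (univ.erase l.1).biUnion (fun k => D.filter (fun e => ln k q = ln k e)) := by
    intro e he
    obtain ⟨k, hk, hk2⟩ := h2 e he
    rw [mem_biUnion]
    exact ⟨k, mem_erase.2 ⟨hk, mem_univ k⟩, mem_filter.2 ⟨he, hk2⟩⟩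
  have h4 := card_biUnion_le_card_mul (univ.erase l.1) (fun k => D.filter (fun e => ln k q = ln k e)) 1 (by
    intro k hk
    rw [card_le_one]
    intro a ha b hb
    rw [mem_filter] at ha hb
    exact two_lines (mem_erase.1 hk).1 (ha.2.symm.trans hb.2) ((h1 a ha.1).trans (h1 b hb.1).symm))
  have h5 : (univ.erase l.1).card = 3 := by
    rw [card_erase_of_mem (mem_univ _), card_univ, Fintype.card_fin]
  rw [h5] at h4
  exact (card_le_card h3).trans h4

open Classical in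
theorem lip_line {L : ℝ} (hL : 1 ≤ L) {N k : ℕ} {W : ℤ × ℤ → ℝ} {A B : ℤ → ℝ} (hR : Rf L N W A B)
    (hk : 1 ≤ k) (hkN : k ≤ N) {P : Finset (ℤ × ℤ)} (hP : P ∈ Qset N) (l : Li) {q : ℤ × ℤ} (hq : q ∈ P)
    (R : Finset (ℤ × ℤ)) :
    |YY N W k (rmS (full N) (P \ (insert q R ∪ P.filter (fun q => On q l)))) l -
      YY N W k (rmS (full N) (P \ (R ∪ P.filter (fun q => On q l)))) l| ≤ 3 * L ^ 3 / k := by
  have hL0 : 0 < L := by linarith
  have hk0 : (0 : ℝ) < k := by exact_mod_cast hk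
  set G := P.filter (fun q => On q l) with hG
  by_cases hqR : q ∈ R ∪ G
  · rw [insert_union, insert_eq_of_mem hqR, sub_self, abs_zero]
    positivity
  · have hql : ¬ ln l.1 q = l.2 := by
      intro h
      apply hqR
      rw [mem_union, hG, mem_filter]
      exact Or.inr ⟨hq, h⟩
    unfold YY
    set D' := Sl N (rmS (full N) (P \ (insert q R ∪ G))) l with hD'
    set D := Sl N (rmS (full N) (P \ (R ∪ G))) l with hDd
    have hsub : D ⊆ D' := by
      intro e he
      rw [hDd, mem_Sl] at he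
      rw [hD', mem_Sl]
      exact ⟨dl_sub he.1, he.2⟩
    have h1 : ∑ e ∈ D', Wn N W k e - ∑ e ∈ D, Wn N W k e = ∑ e ∈ D' \ D, Wn N W k e := by
      rw [← sum_sdiff hsub]
      ring
    have hc : (D' \ D).card ≤ 3 := by
      apply dl_three (l := l) (q := q)
      · intro e he
        rw [mem_sdiff, hD', mem_Sl] at he
        exact he.1.2
      · intro e he
        rw [mem_sdiff, hD', hDd, mem_Sl, mem_Sl] at he
        obtain ⟨⟨h2, h3⟩, h4⟩ := he
        obtain ⟨j, hj⟩ := dl_new h2 (fun h5 => h4 ⟨h5, h3⟩)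
        refine ⟨j, ?_, hj⟩
        intro h6
        apply hql
        rw [← h6, hj, h6, h3]
    have hb : ∀ e ∈ D' \ D, |Wn N W k e| ≤ L ^ 3 / k := by
      intro e he
      rw [mem_sdiff, hD', mem_Sl, mem_Sq] at he
      obtain ⟨h2, h3⟩ := wn_bd hL hR hk hkN he.1.1.1
      have h4 : 0 ≤ 1 / (L * (k : ℝ)) := by positivity
      rw [abs_of_nonneg (h4.trans h2)]
      exact h3
    rw [h1]
    have h5 : 0 ≤ L ^ 3 / (k : ℝ) := by positivity
    have h6 : ((D' \ D).card : ℝ) ≤ 3 := by exact_mod_cast hc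
    calc |∑ e ∈ D' \ D, Wn N W k e| ≤ ∑ e ∈ D' \ D, |Wn N W k e| := abs_sum_le_sum_abs _ _
      _ ≤ ∑ _e ∈ D' \ D, L ^ 3 / (k : ℝ) := sum_le_sum hb
      _ = (D' \ D).card * (L ^ 3 / (k : ℝ)) := by rw [sum_const, nsmul_eq_mul]
      _ ≤ 3 * (L ^ 3 / (k : ℝ)) := mul_le_mul_of_nonneg_right h6 h5
      _ = 3 * L ^ 3 / k := by ring

private theorem dl_five {x x' y : ℤ} {q : ℤ × ℤ} (h1 : q.1 ≠ x) (h2 : q.1 ≠ x') {k : Fin 4}
    (h : ln k q = ln k (x, y) ∨ ln k q = ln k (x', y)) :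
    y ∈ ({q.2, q.1 + q.2 - x, x - q.1 + q.2, q.1 + q.2 - x', x' - q.1 + q.2} : Finset ℤ) := by
  simp only [mem_insert, mem_singleton]
  fin_cases k
  · rcases h with h | h
    · exact absurd h h1
    · exact absurd h h2
  · rcases h with h | h
    · have h3 : q.2 = y := h
      omega
    · have h3 : q.2 = y := h
      omega
  · rcases h with h | h
    · have h3 : q.1 + q.2 = x + y := h
      omega
    · have h3 : q.1 + q.2 = x' + y := h
      omega
  · rcases h with h | h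
    · have h3 : q.1 - q.2 = x - y := h
      omega
    · have h3 : q.1 - q.2 = x' - y := h
      omega

open Classical in
theorem lip_cg {L : ℝ} (hL : 1 ≤ L) {N k : ℕ} {W : ℤ × ℤ → ℝ} {A B : ℤ → ℝ} (hR : Rf L N W A B)
    (hk : 1 ≤ k) (hkN : k ≤ N) {P : Finset (ℤ × ℤ)} (hP : P ∈ Qset N) (x x' : ℤ) {q : ℤ × ℤ} (hq : q ∈ P)
    (R : Finset (ℤ × ℤ)) :
    |Cg N W k (rmS (full N) (P \ (insert q R ∪ P.filter (fun q => q.1 = x ∨ q.1 = x')))) x x' -
      Cg N W k (rmS (full N) (P \ (R ∪ P.filter (fun q => q.1 = x ∨ q.1 = x')))) x x'| ≤ 5 * L ^ 6 / k := by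
  have hL0 : 0 < L := by linarith
  have hk0 : (0 : ℝ) < k := by exact_mod_cast hk
  set G := P.filter (fun q => q.1 = x ∨ q.1 = x') with hG
  by_cases hqR : q ∈ R ∪ G
  · rw [insert_union, insert_eq_of_mem hqR, sub_self, abs_zero]
    positivity
  · have hq1 : q.1 ≠ x := by
      intro h
      apply hqR
      rw [mem_union, hG, mem_filter]
      exact Or.inr ⟨hq, Or.inl h⟩
    have hq2 : q.1 ≠ x' := by
      intro h
      apply hqR
      rw [mem_union, hG, mem_filter]
      exact Or.inr ⟨hq, Or.inr h⟩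
    unfold Cg
    set I' := rmS (full N) (P \ (insert q R ∪ G)) with hI'
    set I := rmS (full N) (P \ (R ∪ G)) with hI
    set S : Finset ℤ := {q.2, q.1 + q.2 - x, x - q.1 + q.2, q.1 + q.2 - x', x' - q.1 + q.2} with hS
    have hS5 : S.card ≤ 5 := card_le_five
    have hB : 0 ≤ (L ^ 3 / (k : ℝ)) ^ 2 := by positivity
    -- the terms are between 0 and (L^3/k)^2
    have hb : ∀ (J : Finset Li) (y : ℤ), 0 ≤ (if (x, y) ∈ Sq N J ∧ (x', y) ∈ Sq N J then
        Wn N W k (x, y) * Wn N W k (x', y) else 0) ∧ (if (x, y) ∈ Sq N J ∧ (x', y) ∈ Sq N J then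
        Wn N W k (x, y) * Wn N W k (x', y) else 0) ≤ (L ^ 3 / (k : ℝ)) ^ 2 := by
      intro J y
      split_ifs with h
      · obtain ⟨h1, h2⟩ := wn_bd hL hR hk hkN (mem_Sq.1 h.1).1
        obtain ⟨h3, h4⟩ := wn_bd hL hR hk hkN (mem_Sq.1 h.2).1
        have h5 : 0 ≤ 1 / (L * (k : ℝ)) := by positivity
        have h6 := h5.trans h1
        have h7 := h5.trans h3
        refine ⟨mul_nonneg h6 h7, ?_⟩
        rw [sq]
        exact mul_le_mul h2 h4 h7 (h6.trans h2)
      · exact ⟨le_rfl, hB⟩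
    have hterm : ∀ y ∈ Finset.Ico (0 : ℤ) N, |(if (x, y) ∈ Sq N I' ∧ (x', y) ∈ Sq N I' then
        Wn N W k (x, y) * Wn N W k (x', y) else 0) - (if (x, y) ∈ Sq N I ∧ (x', y) ∈ Sq N I then
        Wn N W k (x, y) * Wn N W k (x', y) else 0)| ≤ if y ∈ S then (L ^ 3 / (k : ℝ)) ^ 2 else 0 := by
      intro y _
      by_cases hy : y ∈ S
      · rw [if_pos hy]
        obtain ⟨h1, h2⟩ := hb I' y
        obtain ⟨h3, h4⟩ := hb I y
        rw [abs_le]
        constructor <;> linarith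
      · rw [if_neg hy]
        have h1 : (x, y) ∈ Sq N I' ↔ (x, y) ∈ Sq N I := by
          constructor
          · intro h
            by_contra h2
            obtain ⟨j, hj⟩ := dl_new h h2
            exact hy (dl_five hq1 hq2 (Or.inl hj))
          · exact dl_sub
        have h2 : (x', y) ∈ Sq N I' ↔ (x', y) ∈ Sq N I := by
          constructor
          · intro h
            by_contra h2
            obtain ⟨j, hj⟩ := dl_new h h2
            exact hy (dl_five hq1 hq2 (Or.inr hj))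
          · exact dl_sub
        simp only [h1, h2, sub_self, abs_zero, le_refl]
    rw [← mul_sub, ← sum_sub_distrib, abs_mul, abs_of_pos hk0]
    have hc : (((Finset.Ico (0 : ℤ) N).filter (fun y => y ∈ S)).card : ℝ) ≤ 5 := by
      have h1 : (Finset.Ico (0 : ℤ) N).filter (fun y => y ∈ S) ⊆ S := by
        intro y hy
        exact (mem_filter.1 hy).2
      exact_mod_cast (card_le_card h1).trans hS5
    have h1 : |∑ y ∈ Finset.Ico (0 : ℤ) N, ((if (x, y) ∈ Sq N I' ∧ (x', y) ∈ Sq N I' then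
        Wn N W k (x, y) * Wn N W k (x', y) else 0) - (if (x, y) ∈ Sq N I ∧ (x', y) ∈ Sq N I then
        Wn N W k (x, y) * Wn N W k (x', y) else 0))| ≤ 5 * (L ^ 3 / (k : ℝ)) ^ 2 := by
      refine (abs_sum_le_sum_abs _ _).trans ((sum_le_sum hterm).trans ?_)
      rw [← sum_filter, sum_const, nsmul_eq_mul]
      exact mul_le_mul_of_nonneg_right hc hB
    refine (mul_le_mul_of_nonneg_left h1 hk0.le).trans (le_of_eq ?_)
    field_simp

end Pool.Agent.NQL
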