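import Pool.Agent.NQL.Defs

/-!
# NQL-DMcd: bounded differences for rare elements; point probabilities
-/

set_option autoImplicit false

open Finset

namespace Pool.Agent.NQL

open Pool.Agent.NQ (board dsum F Ent Dg phi ln Q Qset QS NonAtt bern)
open Pool.Agent.NQR (Adm Opt Bd Rf hS hD hh InR)

private theorem bern_out2 {I : Type*} [DecidableEq I] {A : Finset I} {i : I} (hi : i ∉ A)
    (p : I → ℝ) {T : Finset I} (hT : T ⊆ A) :
    bern (insert i A) p T = (1 - p i) * bern A p T := by
  unfold bern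
  have h1 : insert i A \ T = insert i (A \ T) := insert_sdiff_of_notMem _ fun h => hi (hT h)
  have h2 : i ∉ A \ T := fun h => hi (mem_sdiff.1 h).1
  rw [h1, prod_insert h2]
  ring

private theorem bern_in2 {I : Type*} [DecidableEq I] {A : Finset I} {i : I} (hi : i ∉ A)
    (p : I → ℝ) {T : Finset I} (hT : T ⊆ A) :
    bern (insert i A) p (insert i T) = p i * bern A p T := by
  unfold bern
  have h1 : insert i A \ insert i T = A \ T := by
    ext x
    simp only [mem_sdiff, mem_insert, not_or]
    constructor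
    · rintro ⟨h2 | h2, h3, h4⟩
      · exact absurd h2 h3
      · exact ⟨h2, h4⟩
    · rintro ⟨h2, h3⟩
      exact ⟨Or.inr h2, fun h4 => hi (h4 ▸ h2), h3⟩
  have h2 : i ∉ T := fun h => hi (hT h)
  rw [h1, prod_insert h2]
  ring

private theorem bern_step2 {I : Type*} [DecidableEq I] {A : Finset I} {i : I} (hi : i ∉ A)
    (p : I → ℝ) (f : Finset I → ℝ) :
    ∑ T ∈ (insert i A).powerset, bern (insert i A) p T * f T =
      ∑ T ∈ A.powerset, bern A p T * ((1 - p i) * f T + p i * f (insert i T)) := by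
  rw [sum_powerset_insert hi, ← sum_add_distrib]
  refine sum_congr rfl fun T hT => ?_
  rw [bern_out2 hi p (mem_powerset.1 hT), bern_in2 hi p (mem_powerset.1 hT)]
  ring

private theorem bern_nonneg2 {I : Type*} [DecidableEq I] (A : Finset I) (p : I → ℝ)
    (hp : ∀ i ∈ A, 0 ≤ p i ∧ p i ≤ 1) {T : Finset I} (hT : T ⊆ A) : 0 ≤ bern A p T := by
  unfold bern
  refine mul_nonneg (prod_nonneg fun i hi => (hp i (hT hi)).1) (prod_nonneg fun i hi => ?_)
  exact sub_nonneg.2 (hp i (mem_sdiff.1 hi).1).2

private theorem two_point2 {p x u c : ℝ} (hp0 : 0 ≤ p) (hc1 : c ≤ 1) (hu : |u| ≤ c) :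
    (1 - p) * Real.exp x + p * Real.exp (x + u) ≤
      Real.exp ((1 - p) * x + p * (x + u)) * Real.exp (c ^ 2 * p) := by
  have hc : u ^ 2 ≤ c ^ 2 := by
    rw [← sq_abs u]
    exact pow_le_pow_left₀ (abs_nonneg u) hu 2
  have h1 := Real.abs_exp_sub_one_sub_id_le (hu.trans hc1)
  have h2 := le_abs_self (Real.exp u - 1 - u)
  have h3 : Real.exp u ≤ 1 + u + c ^ 2 := by linarith
  have h4 : (1 - p) + p * Real.exp u ≤ Real.exp (p * u + c ^ 2 * p) := by
    have h5 := Real.add_one_le_exp (p * u + c ^ 2 * p)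
    have h6 := mul_le_mul_of_nonneg_left h3 hp0
    nlinarith
  have e1 : (1 - p) * Real.exp x + p * Real.exp (x + u) =
      Real.exp x * ((1 - p) + p * Real.exp u) := by
    rw [Real.exp_add]
    ring
  have e2 : Real.exp ((1 - p) * x + p * (x + u)) * Real.exp (c ^ 2 * p) =
      Real.exp x * Real.exp (p * u + c ^ 2 * p) := by
    rw [← Real.exp_add, ← Real.exp_add]
    congr 1
    ring
  rw [e1, e2]
  exact mul_le_mul_of_nonneg_left h4 (Real.exp_pos _).le

theorem mcd2 {ι : Type*} [DecidableEq ι] (A : Finset ι) (p : ι → ℝ) (hp : ∀ i ∈ A, 0 ≤ p i ∧ p i ≤ 1)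
    (f : Finset ι → ℝ) {c : ℝ} (hc0 : 0 ≤ c) (hc1 : c ≤ 1)
    (hc : ∀ i ∈ A, ∀ T : Finset ι, T ⊆ A.erase i → |f (insert i T) - f T| ≤ c) :
    ∑ T ∈ A.powerset, bern A p T * Real.exp (f T) ≤
      Real.exp ((∑ T ∈ A.powerset, bern A p T * f T) + c ^ 2 * ∑ i ∈ A, p i) := by
  induction A using Finset.induction_on generalizing f with
  | empty => simp [bern]
  | insert i A hi ih =>
    have hpi := hp i (mem_insert_self i A)
    have hpA : ∀ j ∈ A, 0 ≤ p j ∧ p j ≤ 1 := fun j hj => hp j (mem_insert_of_mem hj)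
    rw [bern_step2 hi, bern_step2 hi, sum_insert hi]
    set g : Finset ι → ℝ := fun T => (1 - p i) * f T + p i * f (insert i T) with hg
    have h1 : ∀ T ∈ A.powerset, bern A p T *
        ((1 - p i) * Real.exp (f T) + p i * Real.exp (f (insert i T))) ≤
          bern A p T * Real.exp (g T) * Real.exp (c ^ 2 * p i) := by
      intro T hT
      have hTA := mem_powerset.1 hT
      rw [mul_assoc]
      apply mul_le_mul_of_nonneg_left _ (bern_nonneg2 A p hpA hTA)
      have hu : |f (insert i T) - f T| ≤ c := by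
        apply hc i (mem_insert_self i A)
        rw [erase_insert hi]
        exact hTA
      have h2 := two_point2 (x := f T) hpi.1 hc1 hu
      have e1 : f T + (f (insert i T) - f T) = f (insert i T) := by ring
      rw [e1] at h2
      exact h2
    have hcg : ∀ j ∈ A, ∀ T : Finset ι, T ⊆ A.erase j → |g (insert j T) - g T| ≤ c := by
      intro j hj T hT
      have hji : j ≠ i := fun h => hi (h ▸ hj)
      have hiT : i ∉ T := fun h => hi (erase_subset _ _ (hT h))
      have a1 : |f (insert j T) - f T| ≤ c := by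
        apply hc j (mem_insert_of_mem hj)
        intro x hx
        have hx2 := hT hx
        rw [mem_erase] at hx2 ⊢
        exact ⟨hx2.1, mem_insert_of_mem hx2.2⟩
      have a2 : |f (insert j (insert i T)) - f (insert i T)| ≤ c := by
        apply hc j (mem_insert_of_mem hj)
        intro x hx
        rw [mem_erase]
        rcases mem_insert.1 hx with h | h
        · rw [h]
          exact ⟨hji.symm, mem_insert_self i A⟩
        · have hx2 := mem_erase.1 (hT h)
          exact ⟨hx2.1, mem_insert_of_mem hx2.2⟩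
      have e1 : g (insert j T) - g T = (1 - p i) * (f (insert j T) - f T) +
          p i * (f (insert j (insert i T)) - f (insert i T)) := by
        simp only [hg]
        rw [insert_comm i j T]
        ring
      rw [e1]
      have h0 : 0 ≤ 1 - p i := sub_nonneg.2 hpi.2
      calc |(1 - p i) * (f (insert j T) - f T) +
          p i * (f (insert j (insert i T)) - f (insert i T))|
          ≤ |(1 - p i) * (f (insert j T) - f T)| +
            |p i * (f (insert j (insert i T)) - f (insert i T))| := abs_add_le _ _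
        _ = (1 - p i) * |f (insert j T) - f T| +
            p i * |f (insert j (insert i T)) - f (insert i T)| := by
            rw [abs_mul, abs_mul, abs_of_nonneg h0, abs_of_nonneg hpi.1]
        _ ≤ (1 - p i) * c + p i * c :=
            add_le_add (mul_le_mul_of_nonneg_left a1 h0) (mul_le_mul_of_nonneg_left a2 hpi.1)
        _ = c := by ring
    have h2 := ih hpA g hcg
    calc ∑ T ∈ A.powerset, bern A p T *
          ((1 - p i) * Real.exp (f T) + p i * Real.exp (f (insert i T)))
        ≤ ∑ T ∈ A.powerset, bern A p T * Real.exp (g T) * Real.exp (c ^ 2 * p i) :=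
          sum_le_sum h1
      _ = (∑ T ∈ A.powerset, bern A p T * Real.exp (g T)) * Real.exp (c ^ 2 * p i) := by
          rw [sum_mul]
      _ ≤ Real.exp ((∑ T ∈ A.powerset, bern A p T * g T) + c ^ 2 * ∑ i ∈ A, p i) *
          Real.exp (c ^ 2 * p i) := mul_le_mul_of_nonneg_right h2 (Real.exp_pos _).le
      _ = Real.exp ((∑ T ∈ A.powerset, bern A p T * g T) +
          c ^ 2 * (p i + ∑ i ∈ A, p i)) := by
          rw [← Real.exp_add]
          congr 1
          ring

private theorem one_le_part1 {N k : ℕ} (hkN : k < N) :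
    1 ≤ (∏ i ∈ range k, (1 - (i : ℝ) / N)) * (1 - (k : ℝ) / N) ^ (N - k) * Real.exp k := by
  have hN : (0 : ℝ) < N := by exact_mod_cast (by omega : 0 < N)
  induction k with
  | zero => simp
  | succ k ih =>
    have h1 := ih (by omega)
    refine h1.trans ?_
    obtain ⟨M, hM⟩ : ∃ M, N = k + 1 + (M + 1) := ⟨N - k - 2, by omega⟩
    have e1 : N - k = M + 1 + 1 := by omega
    have e2 : N - (k + 1) = M + 1 := by omega
    have hNr : (N : ℝ) = k + 1 + (M + 1) := by rw [hM]; push_cast; ring
    have hM0 : (0 : ℝ) < (M : ℝ) + 1 := by positivity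
    have e3 : 1 - (k : ℝ) / N = ((M : ℝ) + 2) / N := by
      field_simp
      rw [hNr]
      ring
    have e4 : 1 - ((k + 1 : ℕ) : ℝ) / N = ((M : ℝ) + 1) / N := by
      field_simp
      rw [hNr]
      push_cast
      ring
    have hprod : 0 ≤ ∏ i ∈ range k, (1 - (i : ℝ) / N) := by
      refine prod_nonneg fun i hi => ?_
      have hi2 : (i : ℝ) ≤ N := by
        have := mem_range.1 hi
        exact_mod_cast (by omega : i ≤ N)
      rw [sub_nonneg, div_le_one hN]
      exact hi2
    have h2 : ((M : ℝ) + 2) ^ (M + 1) ≤ ((M : ℝ) + 1) ^ (M + 1) * Real.exp 1 := by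
      have h3 : ((M : ℝ) + 2) / (M + 1) ≤ Real.exp (1 / (M + 1)) := by
        have h4 := Real.add_one_le_exp (1 / ((M : ℝ) + 1))
        refine le_trans (le_of_eq ?_) h4
        field_simp
        ring
      have h5 : (((M : ℝ) + 2) / (M + 1)) ^ (M + 1) ≤ Real.exp 1 := by
        refine (pow_le_pow_left₀ (by positivity) h3 (M + 1)).trans (le_of_eq ?_)
        rw [← Real.exp_nat_mul]
        congr 1
        push_cast
        field_simp
      rw [div_pow, div_le_iff₀ (by positivity)] at h5
      linarith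
    rw [prod_range_succ, e1, e2, e3, e4]
    have e5 : Real.exp ((k + 1 : ℕ) : ℝ) = Real.exp k * Real.exp 1 := by
      rw [← Real.exp_add]
      push_cast
      rfl
    rw [e5]
    have h6 : (((M : ℝ) + 2) / N) ^ (M + 1) ≤ (((M : ℝ) + 1) / N) ^ (M + 1) * Real.exp 1 := by
      rw [div_pow, div_pow, div_mul_eq_mul_div]
      exact div_le_div_of_nonneg_right h2 (by positivity)
    calc (∏ i ∈ range k, (1 - (i : ℝ) / N)) * (((M : ℝ) + 2) / N) ^ (M + 1 + 1) * Real.exp k
        = (∏ i ∈ range k, (1 - (i : ℝ) / N)) * (((M : ℝ) + 2) / N) * Real.exp k *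
          (((M : ℝ) + 2) / N) ^ (M + 1) := by ring
      _ ≤ (∏ i ∈ range k, (1 - (i : ℝ) / N)) * (((M : ℝ) + 2) / N) * Real.exp k *
          ((((M : ℝ) + 1) / N) ^ (M + 1) * Real.exp 1) := by
          refine mul_le_mul_of_nonneg_left h6 ?_
          exact mul_nonneg (mul_nonneg hprod (by positivity)) (Real.exp_pos _).le
      _ = _ := by ring

private theorem one_le_part2 {k : ℕ} (hk : 1 ≤ k) :
    1 ≤ 3 * (k : ℝ) * ((k : ℝ) ^ k / (k.factorial : ℝ)) * Real.exp (-k) := by
  induction k, hk using Nat.le_induction with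
  | base =>
    have h1 : Real.exp 1 < 3 := Real.exp_one_lt_three
    rw [Real.exp_neg]
    have h2 := Real.exp_pos 1
    simp only [Nat.cast_one, mul_one, one_pow, Nat.factorial_one, div_one]
    rw [← div_eq_mul_inv, le_div_iff₀ h2]
    linarith
  | succ k hk ih =>
    refine ih.trans ?_
    have hk0 : (0 : ℝ) < k := by exact_mod_cast hk
    have hf : (0 : ℝ) < (k.factorial : ℝ) := by exact_mod_cast Nat.factorial_pos k
    have h1 : Real.exp 1 ≤ (((k : ℝ) + 1) / k) ^ (k + 1) := by
      have h2 := Real.one_sub_inv_le_log_of_pos (show (0 : ℝ) < ((k : ℝ) + 1) / k by positivity)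
      have h3 : 1 - (((k : ℝ) + 1) / k)⁻¹ = 1 / (k + 1) := by
        field_simp
        ring
      rw [h3] at h2
      rw [← Real.le_log_iff_exp_le (by positivity), Real.log_pow]
      push_cast
      have h4 : (0 : ℝ) < (k : ℝ) + 1 := by positivity
      calc (1 : ℝ) = ((k : ℝ) + 1) * (1 / (k + 1)) := by field_simp
        _ ≤ ((k : ℝ) + 1) * Real.log (((k : ℝ) + 1) / k) := mul_le_mul_of_nonneg_left h2 h4.le
    have h5 : (k : ℝ) ^ (k + 1) * Real.exp 1 ≤ ((k : ℝ) + 1) ^ (k + 1) := by
      rw [div_pow, le_div_iff₀ (by positivity)] at h1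
      linarith
    have e1 : Real.exp (-((k + 1 : ℕ) : ℝ)) = Real.exp (-k) / Real.exp 1 := by
      rw [← Real.exp_sub]
      congr 1
      push_cast
      ring
    rw [e1, Nat.factorial_succ]
    push_cast
    have h6 := Real.exp_pos (-(k : ℝ))
    have h7 := Real.exp_pos 1
    have e2 : 3 * ((k : ℝ) + 1) * (((k : ℝ) + 1) ^ (k + 1) / (((k : ℝ) + 1) * k.factorial)) *
        (Real.exp (-k) / Real.exp 1) =
        3 * Real.exp (-k) / (k.factorial * Real.exp 1) * ((k : ℝ) + 1) ^ (k + 1) := by
      field_simp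
    have e3 : 3 * (k : ℝ) * ((k : ℝ) ^ k / (k.factorial : ℝ)) * Real.exp (-k) =
        3 * Real.exp (-k) / (k.factorial * Real.exp 1) * ((k : ℝ) ^ (k + 1) * Real.exp 1) := by
      field_simp
      ring
    rw [e2, e3]
    exact mul_le_mul_of_nonneg_left h5 (by positivity)

theorem bin_lb {N k : ℕ} (hk : 1 ≤ k) (hkN : k < N) :
    1 ≤ 3 * (k : ℝ) * ((N.choose k : ℕ) * ((k : ℝ) / N) ^ k * (1 - (k : ℝ) / N) ^ (N - k)) := by
  have hN : (0 : ℝ) < N := by exact_mod_cast (by omega : 0 < N)
  have hf : (0 : ℝ) < (k.factorial : ℝ) := by exact_mod_cast Nat.factorial_pos k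
  have h1 := one_le_part1 hkN
  have h2 := one_le_part2 hk
  have e1 : ((N.choose k : ℕ) : ℝ) * (k.factorial : ℝ) =
      (N : ℝ) ^ k * ∏ i ∈ range k, (1 - (i : ℝ) / N) := by
    have h3 : (k.factorial : ℝ) * ((N.choose k : ℕ) : ℝ) = ∏ i ∈ range k, ((N : ℝ) - i) := by
      have h4 := Nat.descFactorial_eq_factorial_mul_choose N k
      have h5 := Nat.descFactorial_eq_prod_range N k
      rw [h5] at h4
      have h6 : ((∏ i ∈ range k, (N - i) : ℕ) : ℝ) = ∏ i ∈ range k, ((N : ℝ) - i) := by
        rw [Nat.cast_prod]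
        refine prod_congr rfl fun i hi => ?_
        have := mem_range.1 hi
        rw [Nat.cast_sub (by omega)]
      rw [← h6, h4]
      push_cast
      ring
    rw [mul_comm, h3]
    have e2 : ∏ i ∈ range k, ((N : ℝ) - i) = ∏ i ∈ range k, ((N : ℝ) * (1 - (i : ℝ) / N)) := by
      refine prod_congr rfl fun i _ => ?_
      field_simp
    rw [e2, prod_mul_distrib, prod_const, card_range]
  have e2 : ((N.choose k : ℕ) : ℝ) = (N : ℝ) ^ k * (∏ i ∈ range k, (1 - (i : ℝ) / N)) /
      (k.factorial : ℝ) := by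
    rw [← e1]
    field_simp
  have e3 : 3 * (k : ℝ) * ((N.choose k : ℕ) * ((k : ℝ) / N) ^ k * (1 - (k : ℝ) / N) ^ (N - k)) =
      (3 * (k : ℝ) * ((k : ℝ) ^ k / (k.factorial : ℝ)) * Real.exp (-k)) *
      ((∏ i ∈ range k, (1 - (i : ℝ) / N)) * (1 - (k : ℝ) / N) ^ (N - k) * Real.exp k) := by
    rw [e2, div_pow, Real.exp_neg]
    have h8 := Real.exp_pos (k : ℝ)
    field_simp
  rw [e3]
  exact one_le_mul_of_one_le_of_one_le h2 h1

open Classical in
theorem sub_bern {ι : Type*} (P : Finset ι) {N k : ℕ} (hP : P.card = N) (hk : 1 ≤ k) (hkN : k < N)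
    (E : Finset ι → Prop) :
    (((P.powersetCard k).filter E).card : ℝ) / (N.choose k : ℕ) ≤
      3 * k * ∑ R ∈ P.powerset.filter E, bern P (fun _ => (k : ℝ) / N) R := by
  have hN : (0 : ℝ) < N := by exact_mod_cast (by omega : 0 < N)
  have hkN1 : (k : ℝ) / N ≤ 1 := by
    rw [div_le_one hN]
    exact_mod_cast hkN.le
  have hk0 : 0 ≤ (k : ℝ) / N := by positivity
  have hch : (0 : ℝ) < ((N.choose k : ℕ) : ℝ) := by exact_mod_cast Nat.choose_pos hkN.le
  set b : ℝ := ((k : ℝ) / N) ^ k * (1 - (k : ℝ) / N) ^ (N - k) with hb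
  have h1 : (((P.powersetCard k).filter E).card : ℝ) * b ≤
      ∑ R ∈ P.powerset.filter E, bern P (fun _ => (k : ℝ) / N) R := by
    have h2 : ∑ R ∈ (P.powersetCard k).filter E, bern P (fun _ => (k : ℝ) / N) R =
        (((P.powersetCard k).filter E).card : ℝ) * b := by
      rw [← nsmul_eq_mul, ← sum_const]
      refine sum_congr rfl fun R hR => ?_
      obtain ⟨h3, h4⟩ := mem_powersetCard.1 (mem_filter.1 hR).1
      unfold bern
      rw [prod_const, prod_const, card_sdiff_of_subset h3, h4, hP]
    rw [← h2]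
    refine sum_le_sum_of_subset_of_nonneg ?_ ?_
    · intro R hR
      have h3 := mem_filter.1 hR
      exact mem_filter.2 ⟨mem_powerset.2 (mem_powersetCard.1 h3.1).1, h3.2⟩
    · intro R hR _
      exact bern_nonneg2 P _ (fun i _ => ⟨hk0, hkN1⟩) (mem_powerset.1 (mem_filter.1 hR).1)
  have h2 := bin_lb hk hkN
  have h3 : (0 : ℝ) ≤ (((P.powersetCard k).filter E).card : ℝ) := Nat.cast_nonneg _
  rw [div_le_iff₀ hch]
  calc (((P.powersetCard k).filter E).card : ℝ)
      ≤ (((P.powersetCard k).filter E).card : ℝ) * (3 * (k : ℝ) * ((N.choose k : ℕ) *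
        ((k : ℝ) / N) ^ k * (1 - (k : ℝ) / N) ^ (N - k))) := le_mul_of_one_le_right h3 h2
    _ = 3 * k * ((((P.powersetCard k).filter E).card : ℝ) * b) * (N.choose k : ℕ) := by
        rw [hb]
        ring
    _ ≤ _ := by
        refine mul_le_mul_of_nonneg_right (mul_le_mul_of_nonneg_left h1 (by positivity)) hch.le

open Classical in
private theorem sub_all_aux {ι : Type*} (J : Finset ι) : ∀ (P : Finset ι) (k : ℕ), J ⊆ P →
    k ≤ P.card → (((P.powersetCard k).filter (fun R => J ⊆ R)).card : ℝ) ≤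
      ((k : ℝ) / P.card) ^ J.card * (P.card.choose k : ℕ) := by
  induction J using Finset.induction_on with
  | empty =>
    intro P k _ _
    simp
  | insert a J' ha ih =>
    intro P k hJ hk
    have haP : a ∈ P := hJ (mem_insert_self a J')
    obtain ⟨s, hs, hP⟩ : ∃ s, a ∉ s ∧ P = insert a s :=
      ⟨P.erase a, notMem_erase a P, (insert_erase haP).symm⟩
    have hJs : J' ⊆ s := by
      intro x hx
      have hx2 := hJ (mem_insert_of_mem hx)
      rw [hP] at hx2
      rcases mem_insert.1 hx2 with h | h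
      · exact absurd (h ▸ hx) ha
      · exact h
    have hPc : P.card = s.card + 1 := by rw [hP, card_insert_of_notMem hs]
    rcases Nat.eq_zero_or_pos k with h0 | h0
    · have h1 : (P.powersetCard k).filter (fun R => insert a J' ⊆ R) = ∅ := by
        rw [h0, powersetCard_zero]
        ext R
        simp only [mem_filter, mem_singleton, notMem_empty, iff_false, not_and]
        intro hR hc
        rw [hR] at hc
        exact notMem_empty a (hc (mem_insert_self a J'))
      rw [h1, card_empty, Nat.cast_zero]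
      positivity
    · obtain ⟨k', rfl⟩ : ∃ k', k = k' + 1 := ⟨k - 1, by omega⟩
      have hk' : k' ≤ s.card := by omega
      have h1 : (P.powersetCard (k' + 1)).filter (fun R => insert a J' ⊆ R) ⊆
          ((s.powersetCard k').filter (fun R => J' ⊆ R)).image (insert a) := by
        intro R hR
        obtain ⟨h2, h3⟩ := mem_filter.1 hR
        obtain ⟨h4, h5⟩ := mem_powersetCard.1 h2
        have haR : a ∈ R := h3 (mem_insert_self a J')
        rw [mem_image]
        refine ⟨R.erase a, ?_, insert_erase haR⟩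
        rw [mem_filter, mem_powersetCard]
        refine ⟨⟨?_, ?_⟩, ?_⟩
        · intro x hx
          obtain ⟨hxa, hxR⟩ := mem_erase.1 hx
          have hxP := h4 hxR
          rw [hP] at hxP
          exact mem_of_mem_insert_of_ne hxP hxa
        · rw [card_erase_of_mem haR, h5]
          rfl
        · intro x hx
          refine mem_erase.2 ⟨fun h => ha (h ▸ hx), h3 (mem_insert_of_mem hx)⟩
      have h2 : (((P.powersetCard (k' + 1)).filter (fun R => insert a J' ⊆ R)).card : ℝ) ≤
          (((s.powersetCard k').filter (fun R => J' ⊆ R)).card : ℝ) := by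
        exact_mod_cast (card_le_card h1).trans card_image_le
      refine h2.trans ((ih s k' hJs hk').trans ?_)
      rw [hPc, card_insert_of_notMem ha]
      have hch : ((s.card.choose k' : ℕ) : ℝ) =
          (((k' + 1 : ℕ) : ℝ) / ((s.card + 1 : ℕ) : ℝ)) * (((s.card + 1).choose (k' + 1) : ℕ) : ℝ) := by
        have h3 := Nat.add_one_mul_choose_eq s.card k'
        have h4 : (((s.card + 1 : ℕ) : ℝ)) * ((s.card.choose k' : ℕ) : ℝ) =
            (((s.card + 1).choose (k' + 1) : ℕ) : ℝ) * (((k' + 1 : ℕ) : ℝ)) := by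
          exact_mod_cast h3
        have h5 : (((s.card + 1 : ℕ) : ℝ)) ≠ 0 := by positivity
        field_simp
        linarith
      have hle : (k' : ℝ) / s.card ≤ ((k' + 1 : ℕ) : ℝ) / ((s.card + 1 : ℕ) : ℝ) := by
        rcases Nat.eq_zero_or_pos s.card with h3 | h3
        · rw [h3]
          simp
          positivity
        · have h4 : (0 : ℝ) < s.card := by exact_mod_cast h3
          have h5 : (k' : ℝ) ≤ s.card := by exact_mod_cast hk'
          rw [div_le_div_iff₀ h4 (by positivity)]
          push_cast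
          nlinarith
      rw [hch, pow_succ, mul_assoc]
      refine mul_le_mul_of_nonneg_right (pow_le_pow_left₀ (by positivity) hle _) (by positivity)

open Classical in
theorem sub_all {ι : Type*} (P J : Finset ι) {N k : ℕ} (hP : P.card = N) (hJ : J ⊆ P) (hkN : k ≤ N) (hN : 1 ≤ N) :
    (((P.powersetCard k).filter (fun R => J ⊆ R)).card : ℝ) / (N.choose k : ℕ) ≤ ((k : ℝ) / N) ^ J.card := by
  have hch : (0 : ℝ) < ((N.choose k : ℕ) : ℝ) := by exact_mod_cast Nat.choose_pos hkN
  rw [div_le_iff₀ hch, ← hP]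
  exact sub_all_aux J P k hJ (by omega)

end Pool.Agent.NQL
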