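import Pool.Agent.NQL.Defs
import Pool.Agent.NQL.ABas
import Pool.Agent.NQL.BNom
import Pool.Agent.NQL.DMcd
import Pool.Agent.NQL.DIns
import Pool.Agent.NQL.DExp
import Pool.Agent.NQL.DLip

/-!
# NQL-DDev: deviations of the line masses under random removal
-/

set_option autoImplicit false

open Finset

namespace Pool.Agent.NQL

open Pool.Agent.NQ (board dsum F Ent Dg phi ln Q Qset QS NonAtt bern)
open Pool.Agent.NQR (Adm Opt Bd Rf hS hD hh InR)

private theorem dv_out {I : Type*} [DecidableEq I] {A : Finset I} {i : I} (hi : i ∉ A)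
    (p : I → ℝ) {T : Finset I} (hT : T ⊆ A) :
    bern (insert i A) p T = (1 - p i) * bern A p T := by
  unfold bern
  have h1 : insert i A \ T = insert i (A \ T) := insert_sdiff_of_notMem _ fun h => hi (hT h)
  have h2 : i ∉ A \ T := fun h => hi (mem_sdiff.1 h).1
  rw [h1, prod_insert h2]
  ring

private theorem dv_in {I : Type*} [DecidableEq I] {A : Finset I} {i : I} (hi : i ∉ A)
    (p : I → ℝ) {T : Finset I} (hT : T ⊆ A) :
    bern (insert i A) p (insert i T) = p i * bern A p T := by
  unfold bern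
  have h1 : insert i A \ insert i T = A \ T := by
    ext x
    simp only [mem_sdiff, mem_insert, not_or]
    constructor
    · rintro ⟨h2 | h2, h3, h4⟩
      · exact absurd h2 h3
      · exact ⟨h2, h4⟩
    · rintro ⟨h2, h3⟩
      exact ⟨Or.inr h2, fun h4 => hi (h4 ▸ h2), h3⟩
  have h2 : i ∉ T := fun h => hi (hT h)
  rw [h1, prod_insert h2]
  ring

private theorem dv_step {I : Type*} [DecidableEq I] {A : Finset I} {i : I} (hi : i ∉ A)
    (p : I → ℝ) (f : Finset I → ℝ) :
    ∑ T ∈ (insert i A).powerset, bern (insert i A) p T * f T =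
      ∑ T ∈ A.powerset, bern A p T * ((1 - p i) * f T + p i * f (insert i T)) := by
  rw [sum_powerset_insert hi, ← sum_add_distrib]
  refine sum_congr rfl fun T hT => ?_
  rw [dv_out hi p (mem_powerset.1 hT), dv_in hi p (mem_powerset.1 hT)]
  ring

private theorem dv_nonneg {I : Type*} [DecidableEq I] (A : Finset I) {t : ℝ} (h0 : 0 ≤ t)
    (h1 : t ≤ 1) {T : Finset I} : 0 ≤ bern A (fun _ => t) T := by
  unfold bern
  exact mul_nonneg (prod_nonneg fun i _ => h0) (prod_nonneg fun i _ => sub_nonneg.2 h1)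

/-- the event that a fixed element is present is independent of functions that ignore it -/
private theorem dv_indep {I : Type*} [DecidableEq I] {P : Finset I} {q : I} (hq : q ∈ P) (t : ℝ)
    (g : Finset I → ℝ) (hg : ∀ T, g (insert q T) = g T) :
    ∑ R ∈ P.powerset, bern P (fun _ => t) R * ((if q ∈ R then 1 else 0) * g R) =
      t * ∑ R ∈ P.powerset, bern P (fun _ => t) R * g R := by
  have hqA : q ∉ P.erase q := notMem_erase q P
  rw [← insert_erase hq, dv_step hqA, dv_step hqA, mul_sum]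
  refine sum_congr rfl fun T hT => ?_
  have h1 : q ∉ T := fun h => hqA (mem_powerset.1 hT h)
  rw [if_neg h1, if_pos (mem_insert_self q T), hg]
  ring

/-- the tail bound -/
private theorem dv_tail {I : Type*} [DecidableEq I] (P : Finset I) {t : ℝ} (h0 : 0 ≤ t)
    (h1 : t ≤ 1) (f g : Finset I → ℝ) {lam b v : ℝ} (hlam : 0 < lam) (hb : 0 < b) (hv : 0 < v)
    (hlb : lam ≤ 2 * b * v)
    (hf : ∀ i ∈ P, ∀ T, |f (insert i T) - f T| ≤ b) (hs : ∑ _i ∈ P, t ≤ v) (hg0 : ∀ R, g R ≤ 1)
    (hg : ∀ R, ¬ lam < |f R - ∑ R ∈ P.powerset, bern P (fun _ => t) R * f R| → g R ≤ 0) :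
    ∑ R ∈ P.powerset, bern P (fun _ => t) R * g R ≤
      2 * Real.exp (-(lam ^ 2 / (4 * b ^ 2 * v))) := by
  obtain ⟨θ, hθ⟩ : ∃ θ, θ = lam / (2 * b ^ 2 * v) := ⟨_, rfl⟩
  have hθ0 : 0 < θ := by rw [hθ]; positivity
  obtain ⟨E, hE⟩ : ∃ E, E = ∑ R ∈ P.powerset, bern P (fun _ => t) R * f R := ⟨_, rfl⟩
  rw [← hE] at hg
  have hc1 : θ * b ≤ 1 := by
    rw [hθ, div_mul_eq_mul_div, div_le_one (by positivity)]
    nlinarith
  have hcv : (θ * b) ^ 2 * ∑ _i ∈ P, t ≤ (θ * b) ^ 2 * v :=
    mul_le_mul_of_nonneg_left hs (by positivity)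
  have hcv2 : (θ * b) ^ 2 * v - θ * lam = -(lam ^ 2 / (4 * b ^ 2 * v)) := by
    rw [hθ]
    field_simp
    ring
  have m1 := mcd2 P (fun _ => t) (fun i _ => ⟨h0, h1⟩) (fun R => θ * f R) (c := θ * b)
    (by positivity) hc1 (fun i hi T _ => by
      rw [← mul_sub, abs_mul, abs_of_pos hθ0]
      exact mul_le_mul_of_nonneg_left (hf i hi T) hθ0.le)
  have m2 := mcd2 P (fun _ => t) (fun i _ => ⟨h0, h1⟩) (fun R => -(θ * f R)) (c := θ * b)
    (by positivity) hc1 (fun i hi T _ => by
      have e : -(θ * f (insert i T)) - -(θ * f T) = -(θ * (f (insert i T) - f T)) := by ring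
      rw [e, abs_neg, abs_mul, abs_of_pos hθ0]
      exact mul_le_mul_of_nonneg_left (hf i hi T) hθ0.le)
  have e1 : ∑ T ∈ P.powerset, bern P (fun _ => t) T * (θ * f T) = θ * E := by
    rw [hE, mul_sum]
    exact sum_congr rfl fun T _ => by ring
  have e2 : ∑ T ∈ P.powerset, bern P (fun _ => t) T * -(θ * f T) = -(θ * E) := by
    rw [hE, mul_sum, ← sum_neg_distrib]
    exact sum_congr rfl fun T _ => by ring
  rw [e1] at m1
  rw [e2] at m2
  have hpt : ∀ R ∈ P.powerset, bern P (fun _ => t) R * g R ≤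
      Real.exp (-(θ * E) - θ * lam) * (bern P (fun _ => t) R * Real.exp (θ * f R)) +
      Real.exp (θ * E - θ * lam) * (bern P (fun _ => t) R * Real.exp (-(θ * f R))) := by
    intro R _
    have hbn : 0 ≤ bern P (fun _ => t) R := dv_nonneg P h0 h1
    have key : g R ≤ Real.exp (-(θ * E) - θ * lam + θ * f R) +
        Real.exp (θ * E - θ * lam + -(θ * f R)) := by
      by_cases hR : lam < |f R - E|
      · refine (hg0 R).trans ?_
        rcases le_total 0 (f R - E) with h | h
        · rw [abs_of_nonneg h] at hR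
          have h2 : 1 ≤ Real.exp (-(θ * E) - θ * lam + θ * f R) := by
            apply Real.one_le_exp
            nlinarith
          have h3 := Real.exp_pos (θ * E - θ * lam + -(θ * f R))
          linarith
        · rw [abs_of_nonpos h] at hR
          have h2 : 1 ≤ Real.exp (θ * E - θ * lam + -(θ * f R)) := by
            apply Real.one_le_exp
            nlinarith
          have h3 := Real.exp_pos (-(θ * E) - θ * lam + θ * f R)
          linarith
      · exact (hg R hR).trans (by positivity)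
    have h4 := mul_le_mul_of_nonneg_left key hbn
    refine h4.trans (le_of_eq ?_)
    rw [Real.exp_add (-(θ * E) - θ * lam), Real.exp_add (θ * E - θ * lam)]
    ring
  refine (sum_le_sum hpt).trans ?_
  rw [sum_add_distrib, ← mul_sum, ← mul_sum]
  have n1 : Real.exp (-(θ * E) - θ * lam) *
      ∑ R ∈ P.powerset, bern P (fun _ => t) R * Real.exp (θ * f R) ≤
      Real.exp (-(lam ^ 2 / (4 * b ^ 2 * v))) := by
    refine (mul_le_mul_of_nonneg_left m1 (Real.exp_pos _).le).trans ?_
    rw [← Real.exp_add]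
    apply Real.exp_le_exp.mpr
    linarith
  have n2 : Real.exp (θ * E - θ * lam) *
      ∑ R ∈ P.powerset, bern P (fun _ => t) R * Real.exp (-(θ * f R)) ≤
      Real.exp (-(lam ^ 2 / (4 * b ^ 2 * v))) := by
    refine (mul_le_mul_of_nonneg_left m2 (Real.exp_pos _).le).trans ?_
    rw [← Real.exp_add]
    apply Real.exp_le_exp.mpr
    linarith
  linarith

open Classical in
theorem dev_line {L : ℝ} (hL : 1 ≤ L) {N k : ℕ} {W : ℤ × ℤ → ℝ} {A B : ℤ → ℝ} (hR : Rf L N W A B)
    (hk : 1 ≤ k) (hkN : k ≤ N) {P : Finset (ℤ × ℤ)} (hP : P ∈ Qset N) {l : Li} (hl : l ∈ full N) {lam : ℝ}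
    (h0 : 0 < lam) (h1 : lam ≤ 1) :
    ∑ R ∈ P.powerset.filter (fun R => l ∈ rmS (full N) (P \ R) ∧
        lam + L ^ 3 / k < |YY N W k (rmS (full N) (P \ R)) l - fl N W k P l|),
      bern P (fun _ => (k : ℝ) / N) R ≤
      (if rc l then (k : ℝ) / N else 1) * (2 * Real.exp (-(lam ^ 2 * k / (36 * L ^ 6)))) := by
  have hk1 : (1 : ℝ) ≤ k := by exact_mod_cast hk
  have hkN' : (k : ℝ) ≤ N := by exact_mod_cast hkN
  have hN0 : (0 : ℝ) < N := by linarith
  have ht0 : 0 ≤ (k : ℝ) / N := by positivity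
  have ht1 : (k : ℝ) / N ≤ 1 := by
    rw [div_le_one hN0]
    exact hkN'
  have hL3 : 0 < L ^ 3 := by positivity
  obtain ⟨hPb, hPc, hPna⟩ := NQ.mem_Qset.1 hP
  obtain ⟨f, hf⟩ : ∃ f : Finset (ℤ × ℤ) → ℝ, f = fun R =>
      YY N W k (rmS (full N) (P \ (R ∪ P.filter (fun q => On q l)))) l := ⟨_, rfl⟩
  have hexp := exp_line hL hR hk hkN hP hl
  have hfR : ∀ R, f R = YY N W k (rmS (full N) (P \ (R ∪ P.filter (fun q => On q l)))) l := by
    intro R
    rw [hf]
  obtain ⟨E, hE⟩ : ∃ E, E = ∑ R ∈ P.powerset, bern P (fun _ => (k : ℝ) / N) R * f R := ⟨_, rfl⟩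
  have hexp' : |E - fl N W k P l| ≤ L ^ 3 / k := by
    rw [hE]
    simp only [hfR]
    exact hexp
  obtain ⟨g, hg⟩ : ∃ g : Finset (ℤ × ℤ) → ℝ, g = fun R => if lam < |f R - E| then 1 else 0 :=
    ⟨_, rfl⟩
  have hg1 : ∀ R, lam < |f R - E| → g R = 1 := by
    intro R h
    rw [hg]
    exact if_pos h
  have hg2 : ∀ R, ¬ lam < |f R - E| → g R = 0 := by
    intro R h
    rw [hg]
    exact if_neg h
  have hg0 : ∀ R, 0 ≤ g R ∧ g R ≤ 1 := by
    intro R
    by_cases h : lam < |f R - E|
    · rw [hg1 R h]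
      norm_num
    · rw [hg2 R h]
      norm_num
  have htail : ∑ R ∈ P.powerset, bern P (fun _ => (k : ℝ) / N) R * g R ≤
      2 * Real.exp (-(lam ^ 2 * k / (36 * L ^ 6))) := by
    have h2 := dv_tail P ht0 ht1 f g (lam := lam) (b := 3 * L ^ 3 / k) (v := k) h0
      (by positivity) (by linarith)
      (by
        have e : 2 * (3 * L ^ 3 / (k : ℝ)) * k = 6 * L ^ 3 := by
          field_simp
          norm_num
        rw [e]
        have : 1 ≤ L ^ 3 := one_le_pow₀ hL
        linarith)
      (by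
        intro q hq T
        rw [hfR, hfR]
        exact lip_line hL hR hk hkN hP l hq T)
      (by
        rw [sum_const, hPc, nsmul_eq_mul]
        exact le_of_eq (by field_simp))
      (fun R => (hg0 R).2)
      (by
        intro R h
        rw [← hE] at h
        rw [hg2 R h])
    refine h2.trans (le_of_eq ?_)
    congr 3
    field_simp
    norm_num
  -- the event
  have hev : ∀ R, (l ∈ rmS (full N) (P \ R) ∧
      lam + L ^ 3 / k < |YY N W k (rmS (full N) (P \ R)) l - fl N W k P l|) →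
      (∀ q ∈ P, On q l → q ∈ R) ∧ g R = 1 := by
    intro R hR'
    have hQ : ∀ q ∈ P, On q l → q ∈ R := by
      intro q hq hql
      by_contra hqR
      exact (mem_rmS.1 hR'.1).2 q (mem_sdiff.2 ⟨hq, hqR⟩) hql
    refine ⟨hQ, hg1 R ?_⟩
    have e : R ∪ P.filter (fun q => On q l) = R := by
      apply union_eq_left.2
      intro q hq
      exact hQ q (mem_filter.1 hq).1 (mem_filter.1 hq).2
    have e2 : f R = YY N W k (rmS (full N) (P \ R)) l := by
      rw [hfR, e]
    rw [e2]
    have h3 := hR'.2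
    have h4 := abs_sub_le (YY N W k (rmS (full N) (P \ R)) l) E (fl N W k P l)
    linarith
  rw [sum_filter]
  by_cases hrc : rc l
  · rw [if_pos hrc]
    obtain ⟨q, hq, hql⟩ := rc_occ hP hl hrc
    have hQq : P.filter (fun q => On q l) = {q} := by
      ext q'
      rw [mem_filter, mem_singleton]
      constructor
      · rintro ⟨h5, h6⟩
        exact on_unique hP h5 hq h6 hql
      · intro h5
        rw [h5]
        exact ⟨hq, hql⟩
    have hgi : ∀ T, g (insert q T) = g T := by
      intro T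
      have e : f (insert q T) = f T := by
        rw [hfR, hfR, hQq]
        congr 3
        ext x
        simp only [mem_union, mem_insert, mem_singleton]
        tauto
      by_cases h : lam < |f T - E|
      · rw [hg1 T h, hg1 _ (by rw [e]; exact h)]
      · rw [hg2 T h, hg2 _ (by rw [e]; exact h)]
    have h5 := dv_indep hq ((k : ℝ) / N) g hgi
    refine (sum_le_sum (g := fun R => bern P (fun _ => (k : ℝ) / N) R *
      ((if q ∈ R then 1 else 0) * g R)) ?_).trans ?_
    · intro R _
      have hbn : 0 ≤ bern P (fun _ => (k : ℝ) / N) R := dv_nonneg P ht0 ht1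
      by_cases h : (l ∈ rmS (full N) (P \ R) ∧
          lam + L ^ 3 / k < |YY N W k (rmS (full N) (P \ R)) l - fl N W k P l|)
      · rw [if_pos h]
        obtain ⟨h6, h7⟩ := hev R h
        simp only [h7, if_pos (h6 q hq hql), mul_one]
        exact le_rfl
      · rw [if_neg h]
        refine mul_nonneg hbn (mul_nonneg ?_ (hg0 R).1)
        split_ifs <;> norm_num
    · rw [h5]
      exact mul_le_mul_of_nonneg_left htail ht0
  · rw [if_neg hrc, one_mul]
    refine (sum_le_sum (g := fun R => bern P (fun _ => (k : ℝ) / N) R * g R) ?_).trans htail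
    intro R _
    have hbn : 0 ≤ bern P (fun _ => (k : ℝ) / N) R := dv_nonneg P ht0 ht1
    by_cases h : (l ∈ rmS (full N) (P \ R) ∧
        lam + L ^ 3 / k < |YY N W k (rmS (full N) (P \ R)) l - fl N W k P l|)
    · rw [if_pos h]
      simp only [(hev R h).2, mul_one]
      exact le_rfl
    · rw [if_neg h]
      exact mul_nonneg hbn (hg0 R).1

end Pool.Agent.NQL
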