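import Pool.Agent.NQL.Defs
import Pool.Agent.NQL.ABas
import Pool.Agent.NQL.BNom
import Pool.Agent.NQL.DMcd
import Pool.Agent.NQL.DIns
import Pool.Agent.NQL.DExp
import Pool.Agent.NQL.DLip

/-!
# NQL-DDvG: deviations of the codegrees under random removal

`Q = P.filter (q.1 = x ∨ q.1 = x')` has two elements; if the rows `x`, `x'` are in the instance of `R` then `Q ⊆ R`.
The codegree `C~ R` of the instance of `R ∪ Q` is independent of `R ∩ Q` (`dg_indep`). Its expectation is at least `fg`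
(`dg_exp`): both squares of the column `y` are free if the queens on the column `y` and on the four diagonals are in `R`.
Markov with `θ = λ k/(50 L¹²)` and `mcd2`.
-/

set_option autoImplicit false

open Finset

namespace Pool.Agent.NQL

open Pool.Agent.NQ (board dsum F Ent Dg phi ln Q Qset QS NonAtt bern)
open Pool.Agent.NQR (Adm Opt Bd Rf hS hD hh InR)

private theorem dg_out {ι : Type*} [DecidableEq ι] {A : Finset ι} {i : ι} (hi : i ∉ A)
    (p : ι → ℝ) {T : Finset ι} (hT : T ⊆ A) :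
    bern (insert i A) p T = (1 - p i) * bern A p T := by
  unfold bern
  have h1 : insert i A \ T = insert i (A \ T) := insert_sdiff_of_notMem _ fun h => hi (hT h)
  have h2 : i ∉ A \ T := fun h => hi (mem_sdiff.1 h).1
  rw [h1, prod_insert h2]
  ring

private theorem dg_in {ι : Type*} [DecidableEq ι] {A : Finset ι} {i : ι} (hi : i ∉ A)
    (p : ι → ℝ) {T : Finset ι} (hT : T ⊆ A) :
    bern (insert i A) p (insert i T) = p i * bern A p T := by
  unfold bern
  have h1 : insert i A \ insert i T = A \ T := by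
    ext x
    simp only [mem_sdiff, mem_insert, not_or]
    constructor
    · rintro ⟨h2 | h2, h3, h4⟩
      · exact absurd h2 h3
      · exact ⟨h2, h4⟩
    · rintro ⟨h2, h3⟩
      exact ⟨Or.inr h2, fun h4 => hi (h4 ▸ h2), h3⟩
  have h2 : i ∉ T := fun h => hi (hT h)
  rw [h1, prod_insert h2]
  ring

private theorem dg_step {ι : Type*} [DecidableEq ι] {A : Finset ι} {i : ι} (hi : i ∉ A)
    (p : ι → ℝ) (f : Finset ι → ℝ) :
    ∑ T ∈ (insert i A).powerset, bern (insert i A) p T * f T =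
      ∑ T ∈ A.powerset, bern A p T * ((1 - p i) * f T + p i * f (insert i T)) := by
  rw [sum_powerset_insert hi, ← sum_add_distrib]
  refine sum_congr rfl fun T hT => ?_
  rw [dg_out hi p (mem_powerset.1 hT), dg_in hi p (mem_powerset.1 hT)]
  ring

private theorem dg_sum {ι : Type*} [DecidableEq ι] (A : Finset ι) (p : ι → ℝ) :
    ∑ T ∈ A.powerset, bern A p T = 1 := by
  have h : ∏ i ∈ A, (p i + (1 - p i)) = ∑ T ∈ A.powerset, bern A p T := prod_add _ _ _
  rw [← h]
  exact prod_eq_one fun i _ => by ring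

private theorem dg_nn {ι : Type*} [DecidableEq ι] (A : Finset ι) (p : ι → ℝ)
    (hp : ∀ i ∈ A, 0 ≤ p i ∧ p i ≤ 1) {T : Finset ι} (hT : T ⊆ A) : 0 ≤ bern A p T := by
  unfold bern
  refine mul_nonneg (prod_nonneg fun i hi => (hp i (hT hi)).1) (prod_nonneg fun i hi => ?_)
  exact sub_nonneg.2 (hp i (mem_sdiff.1 hi).1).2

private theorem dg_one {ι : Type*} [DecidableEq ι] {A : Finset ι} {i : ι} (hi : i ∈ A)
    (p : ι → ℝ) (h : Finset ι → ℝ) :
    ∑ T ∈ A.powerset, bern A p T * (if i ∈ T then h T else 0) =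
      p i * ∑ T ∈ A.powerset, bern A p T * h (insert i T) := by
  obtain ⟨B, hB, rfl⟩ : ∃ B, i ∉ B ∧ A = insert i B :=
    ⟨A.erase i, notMem_erase i A, (insert_erase hi).symm⟩
  rw [dg_step hB p (fun T => if i ∈ T then h T else 0), dg_step hB p (fun T => h (insert i T)), mul_sum]
  refine sum_congr rfl fun T hT => ?_
  have h1 : i ∉ T := fun h => hB (mem_powerset.1 hT h)
  simp only [if_neg h1, if_pos (mem_insert_self i T), insert_idem]
  ring

private theorem dg_indep {ι : Type*} [DecidableEq ι] {A : Finset ι} (p : ι → ℝ) {S : Finset ι}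
    (hS : S ⊆ A) (h : Finset ι → ℝ) :
    ∑ T ∈ A.powerset, bern A p T * (if S ⊆ T then h T else 0) =
      (∏ i ∈ S, p i) * ∑ T ∈ A.powerset, bern A p T * h (T ∪ S) := by
  induction S using Finset.induction_on generalizing h with
  | empty => simp
  | insert i S hi ih =>
    have h1 : ∀ T : Finset ι, (if insert i S ⊆ T then h T else 0) =
        if i ∈ T then (if S ⊆ T then h T else 0) else 0 := by
      intro T
      by_cases h2 : i ∈ T <;> by_cases h3 : S ⊆ T <;> simp [insert_subset_iff, h2, h3]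
    have h4 : ∀ T : Finset ι, (if S ⊆ insert i T then h (insert i T) else 0) =
        if S ⊆ T then h (insert i T) else 0 := by
      intro T
      have h5 : S ⊆ insert i T ↔ S ⊆ T := subset_insert_iff_of_notMem hi
      by_cases h3 : S ⊆ T
      · rw [if_pos h3, if_pos (h5.2 h3)]
      · rw [if_neg h3, if_neg (fun h6 => h3 (h5.1 h6))]
    calc ∑ T ∈ A.powerset, bern A p T * (if insert i S ⊆ T then h T else 0)
        = ∑ T ∈ A.powerset, bern A p T * (if i ∈ T then (if S ⊆ T then h T else 0) else 0) :=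
          sum_congr rfl fun T _ => by rw [h1]
      _ = p i * ∑ T ∈ A.powerset, bern A p T * (if S ⊆ insert i T then h (insert i T) else 0) :=
          dg_one (hS (mem_insert_self i S)) p (fun T => if S ⊆ T then h T else 0)
      _ = p i * ∑ T ∈ A.powerset, bern A p T * (if S ⊆ T then h (insert i T) else 0) := by
          congr 1
          exact sum_congr rfl fun T _ => by rw [h4]
      _ = p i * ((∏ i ∈ S, p i) * ∑ T ∈ A.powerset, bern A p T * h (insert i (T ∪ S))) := by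
          rw [ih ((subset_insert i S).trans hS) (fun T => h (insert i T))]
      _ = (∏ i ∈ insert i S, p i) * ∑ T ∈ A.powerset, bern A p T * h (T ∪ insert i S) := by
          rw [prod_insert hi, mul_assoc]
          simp only [union_insert]

open Classical in
/-- lower bound for the expected codegree given the occupied lines of `P` -/
noncomputable def fg (N : ℕ) (W : ℤ × ℤ → ℝ) (k : ℕ) (P : Finset (ℤ × ℤ)) (x x' : ℤ) : ℝ :=
  k * ∑ y ∈ Finset.Ico (0 : ℤ) N, Wn N W k (x, y) * Wn N W k (x', y) * ((k : ℝ) / N) *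
    ((if ∃ q ∈ P, On q (2, x + y) then (k : ℝ) / N else 1) * (if ∃ q ∈ P, On q (3, x - y) then (k : ℝ) / N else 1) *
      ((if ∃ q ∈ P, On q (2, x' + y) then (k : ℝ) / N else 1) *
        (if ∃ q ∈ P, On q (3, x' - y) then (k : ℝ) / N else 1)))

private theorem dg_card {N : ℕ} {P : Finset (ℤ × ℤ)} (hP : P ∈ Qset N) (l : Li) :
    (P.filter (fun q => On q l)).card ≤ 1 := by
  rw [card_le_one]
  intro a ha b hb
  rw [mem_filter] at ha hb
  exact on_unique hP ha.1 hb.1 ha.2 hb.2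

private theorem dg_occ1 {N : ℕ} {P : Finset (ℤ × ℤ)} (hP : P ∈ Qset N) (l : Li) {t : ℝ} (h0 : 0 ≤ t)
    (h1 : t ≤ 1) : t ≤ t ^ (P.filter (fun q => On q l)).card := by
  calc t = t ^ 1 := (pow_one t).symm
    _ ≤ t ^ (P.filter (fun q => On q l)).card := pow_le_pow_of_le_one h0 h1 (dg_card hP l)

open Classical in
private theorem dg_occ {N : ℕ} {P : Finset (ℤ × ℤ)} (hP : P ∈ Qset N) (l : Li) {t : ℝ} (h0 : 0 ≤ t)
    (h1 : t ≤ 1) :
    (if ∃ q ∈ P, On q l then t else 1) ≤ t ^ (P.filter (fun q => On q l)).card := by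
  by_cases h : ∃ q ∈ P, On q l
  · rw [if_pos h]
    exact dg_occ1 hP l h0 h1
  · rw [if_neg h]
    have h2 : P.filter (fun q => On q l) = ∅ := by
      rw [filter_eq_empty_iff]
      intro q hq hq2
      exact h ⟨q, hq, hq2⟩
    rw [h2, card_empty, pow_zero]

open Classical in
private theorem dg_occ0 {P : Finset (ℤ × ℤ)} (l : Li) {t : ℝ} (h0 : 0 ≤ t) :
    0 ≤ (if ∃ q ∈ P, On q l then t else 1) := by
  split_ifs
  · exact h0
  · exact zero_le_one

private theorem dg_free {N : ℕ} {P : Finset (ℤ × ℤ)} {x x' y z : ℤ} (hz : z = x ∨ z = x')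
    (hz1 : 0 ≤ z ∧ z < N) (hy : 0 ≤ y ∧ y < N) {R : Finset (ℤ × ℤ)}
    (h1 : P.filter (fun q => On q (1, y)) ⊆ R) (h2 : P.filter (fun q => On q (2, z + y)) ⊆ R)
    (h3 : P.filter (fun q => On q (3, z - y)) ⊆ R) :
    (z, y) ∈ Sq N (rmS (full N) (P \ (R ∪ P.filter (fun q => q.1 = x ∨ q.1 = x')))) := by
  rw [sq_rmS, NQ.mem_board]
  refine ⟨⟨hz1, hy⟩, ?_⟩
  intro q hq k hk
  rw [mem_sdiff, mem_union, not_or, mem_filter] at hq
  obtain ⟨hqP, hqR, hqx⟩ := hq
  fin_cases k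
  · have hk' : q.1 = z := hk
    apply hqx
    refine ⟨hqP, ?_⟩
    rcases hz with h | h
    · exact Or.inl (hk'.trans h)
    · exact Or.inr (hk'.trans h)
  · exact hqR (h1 (mem_filter.2 ⟨hqP, hk⟩))
  · exact hqR (h2 (mem_filter.2 ⟨hqP, hk⟩))
  · exact hqR (h3 (mem_filter.2 ⟨hqP, hk⟩))

open Classical in
private theorem dg_prob {N k : ℕ} (hkN : k ≤ N) {P : Finset (ℤ × ℤ)} (hP : P ∈ Qset N) {x x' y : ℤ}
    (hx : 0 ≤ x ∧ x < N) (hx' : 0 ≤ x' ∧ x' < N) (hy : 0 ≤ y ∧ y < N) {w : ℝ} (hw : 0 ≤ w) :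
    w * ((k : ℝ) / N) *
    ((if ∃ q ∈ P, On q (2, x + y) then (k : ℝ) / N else 1) * (if ∃ q ∈ P, On q (3, x - y) then (k : ℝ) / N else 1) *
      ((if ∃ q ∈ P, On q (2, x' + y) then (k : ℝ) / N else 1) *
        (if ∃ q ∈ P, On q (3, x' - y) then (k : ℝ) / N else 1))) ≤
      ∑ R ∈ P.powerset, bern P (fun _ => (k : ℝ) / N) R *
        (if (x, y) ∈ Sq N (rmS (full N) (P \ (R ∪ P.filter (fun q => q.1 = x ∨ q.1 = x')))) ∧
          (x', y) ∈ Sq N (rmS (full N) (P \ (R ∪ P.filter (fun q => q.1 = x ∨ q.1 = x')))) then w else 0) := by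
  have h0 : (0 : ℝ) ≤ (k : ℝ) / N := by positivity
  have h1 : (k : ℝ) / N ≤ 1 := div_le_one_of_le₀ (by exact_mod_cast hkN) (by positivity)
  set t : ℝ := (k : ℝ) / N with ht
  set F1 := P.filter (fun q => On q (1, y)) with hF1
  set F2 := P.filter (fun q => On q (2, x + y)) with hF2
  set F3 := P.filter (fun q => On q (3, x - y)) with hF3
  set F4 := P.filter (fun q => On q (2, x' + y)) with hF4
  set F5 := P.filter (fun q => On q (3, x' - y)) with hF5
  set S : Finset (ℤ × ℤ) := F1 ∪ ((F2 ∪ F3) ∪ (F4 ∪ F5)) with hSd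
  have hF1P : F1 ⊆ P := filter_subset _ _
  have hF2P : F2 ⊆ P := filter_subset _ _
  have hF3P : F3 ⊆ P := filter_subset _ _
  have hF4P : F4 ⊆ P := filter_subset _ _
  have hF5P : F5 ⊆ P := filter_subset _ _
  have hSP : S ⊆ P := union_subset hF1P (union_subset (union_subset hF2P hF3P) (union_subset hF4P hF5P))
  have hSc : S.card ≤ F1.card + ((F2.card + F3.card) + (F4.card + F5.card)) := by
    refine (card_union_le _ _).trans (Nat.add_le_add_left ?_ _)
    refine (card_union_le _ _).trans (Nat.add_le_add (card_union_le _ _) (card_union_le _ _))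
  have e1 : t ^ (F1.card + ((F2.card + F3.card) + (F4.card + F5.card))) ≤ t ^ S.card :=
    pow_le_pow_of_le_one h0 h1 hSc
  rw [pow_add, pow_add, pow_add, pow_add] at e1
  have e2 : t * ((if ∃ q ∈ P, On q (2, x + y) then t else 1) * (if ∃ q ∈ P, On q (3, x - y) then t else 1) *
      ((if ∃ q ∈ P, On q (2, x' + y) then t else 1) *
        (if ∃ q ∈ P, On q (3, x' - y) then t else 1))) ≤
        t ^ F1.card * (t ^ F2.card * t ^ F3.card * (t ^ F4.card * t ^ F5.card)) := by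
    have a0 : ∀ l : Li, 0 ≤ (if ∃ q ∈ P, On q l then t else 1) := fun l => dg_occ0 l h0
    have a1 : ∀ n : ℕ, 0 ≤ t ^ n := fun n => pow_nonneg h0 n
    refine mul_le_mul (dg_occ1 hP _ h0 h1) ?_ ?_ (a1 _)
    · refine mul_le_mul ?_ ?_ ?_ ?_
      · exact mul_le_mul (dg_occ hP _ h0 h1) (dg_occ hP _ h0 h1) (a0 _) (a1 _)
      · exact mul_le_mul (dg_occ hP _ h0 h1) (dg_occ hP _ h0 h1) (a0 _) (a1 _)
      · exact mul_nonneg (a0 _) (a0 _)
      · exact mul_nonneg (a1 _) (a1 _)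
    · exact mul_nonneg (mul_nonneg (a0 _) (a0 _)) (mul_nonneg (a0 _) (a0 _))
  have e3 := bern_super P t hSP
  have e4 : w * t ^ S.card = ∑ R ∈ P.powerset, bern P (fun _ => t) R * (if S ⊆ R then w else 0) := by
    rw [← e3, mul_sum]
    refine sum_congr rfl fun R _ => ?_
    by_cases h : S ⊆ R
    · rw [if_pos h, if_pos h]
      ring
    · rw [if_neg h, if_neg h]
      ring
  have e5 : ∑ R ∈ P.powerset, bern P (fun _ => t) R * (if S ⊆ R then w else 0) ≤
      ∑ R ∈ P.powerset, bern P (fun _ => t) R *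
        (if (x, y) ∈ Sq N (rmS (full N) (P \ (R ∪ P.filter (fun q => q.1 = x ∨ q.1 = x')))) ∧
          (x', y) ∈ Sq N (rmS (full N) (P \ (R ∪ P.filter (fun q => q.1 = x ∨ q.1 = x')))) then w else 0) := by
    refine sum_le_sum fun R hR => ?_
    refine mul_le_mul_of_nonneg_left ?_ (dg_nn P _ (fun _ _ => ⟨h0, h1⟩) (mem_powerset.1 hR))
    by_cases h : S ⊆ R
    · have b1 : F1 ⊆ R := subset_union_left.trans h
      have b2 : (F2 ∪ F3) ∪ (F4 ∪ F5) ⊆ R := subset_union_right.trans h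
      have b3 : F2 ∪ F3 ⊆ R := subset_union_left.trans b2
      have b4 : F4 ∪ F5 ⊆ R := subset_union_right.trans b2
      have c1 := dg_free (N := N) (P := P) (x := x) (x' := x') (y := y) (z := x) (R := R) (Or.inl rfl) hx hy b1
        (subset_union_left.trans b3) (subset_union_right.trans b3)
      have c2 := dg_free (N := N) (P := P) (x := x) (x' := x') (y := y) (z := x') (R := R) (Or.inr rfl) hx' hy b1
        (subset_union_left.trans b4) (subset_union_right.trans b4)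
      rw [if_pos h, if_pos ⟨c1, c2⟩]
    · rw [if_neg h]
      split_ifs
      · exact hw
      · exact le_rfl
  calc _ = w * (t * ((if ∃ q ∈ P, On q (2, x + y) then t else 1) * (if ∃ q ∈ P, On q (3, x - y) then t else 1) *
      ((if ∃ q ∈ P, On q (2, x' + y) then t else 1) *
        (if ∃ q ∈ P, On q (3, x' - y) then t else 1)))) := by ring
    _ ≤ w * t ^ S.card := mul_le_mul_of_nonneg_left (e2.trans e1) hw
    _ ≤ _ := e4.le.trans e5

open Classical in
private theorem dg_exp {L : ℝ} (hL : 1 ≤ L) {N k : ℕ} {W : ℤ × ℤ → ℝ} {A B : ℤ → ℝ} (hR : Rf L N W A B)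
    (hk : 1 ≤ k) (hkN : k ≤ N) {P : Finset (ℤ × ℤ)} (hP : P ∈ Qset N) {x x' : ℤ} (hx : 0 ≤ x ∧ x < N)
    (hx' : 0 ≤ x' ∧ x' < N) :
    fg N W k P x x' ≤ ∑ R ∈ P.powerset, bern P (fun _ => (k : ℝ) / N) R *
      Cg N W k (rmS (full N) (P \ (R ∪ P.filter (fun q => q.1 = x ∨ q.1 = x')))) x x' := by
  have hL0 : 0 < L := by linarith
  have hk0 : (0 : ℝ) < k := by exact_mod_cast hk
  unfold fg Cg
  have e1 : ∑ R ∈ P.powerset, bern P (fun _ => (k : ℝ) / N) R *
      ((k : ℝ) * ∑ y ∈ Finset.Ico (0 : ℤ) N,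
        if (x, y) ∈ Sq N (rmS (full N) (P \ (R ∪ P.filter (fun q => q.1 = x ∨ q.1 = x')))) ∧
          (x', y) ∈ Sq N (rmS (full N) (P \ (R ∪ P.filter (fun q => q.1 = x ∨ q.1 = x')))) then
          Wn N W k (x, y) * Wn N W k (x', y) else 0) =
      (k : ℝ) * ∑ y ∈ Finset.Ico (0 : ℤ) N, ∑ R ∈ P.powerset, bern P (fun _ => (k : ℝ) / N) R *
        (if (x, y) ∈ Sq N (rmS (full N) (P \ (R ∪ P.filter (fun q => q.1 = x ∨ q.1 = x')))) ∧
          (x', y) ∈ Sq N (rmS (full N) (P \ (R ∪ P.filter (fun q => q.1 = x ∨ q.1 = x')))) then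
          Wn N W k (x, y) * Wn N W k (x', y) else 0) := by
    rw [sum_comm, mul_sum]
    refine sum_congr rfl fun R _ => ?_
    rw [mul_left_comm, mul_sum]
  rw [e1]
  refine mul_le_mul_of_nonneg_left ?_ hk0.le
  refine sum_le_sum fun y hy => ?_
  rw [Finset.mem_Ico] at hy
  have hb : ∀ z : ℤ, 0 ≤ z ∧ z < N → 0 ≤ Wn N W k (z, y) := by
    intro z hz
    have h1 := (wn_bd hL hR hk hkN (e := (z, y)) (NQ.mem_board.2 ⟨hz, hy⟩)).1
    have h2 : 0 ≤ 1 / (L * (k : ℝ)) := by positivity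
    exact h2.trans h1
  exact dg_prob hkN hP hx hx' hy (mul_nonneg (hb x hx) (hb x' hx'))

open Classical in
theorem dev_cg {L : ℝ} (hL : 1 ≤ L) {N k : ℕ} {W : ℤ × ℤ → ℝ} {A B : ℤ → ℝ} (hR : Rf L N W A B)
    (hk : 1 ≤ k) (hkN : k ≤ N) {P : Finset (ℤ × ℤ)} (hP : P ∈ Qset N) {x x' : ℤ} (hx : 0 ≤ x ∧ x < N)
    (hx' : 0 ≤ x' ∧ x' < N) (hxx : x ≠ x') {lam : ℝ} (h0 : 0 < lam) (h1 : lam ≤ 1) :
    ∑ R ∈ P.powerset.filter (fun R => ((0, x) : Li) ∈ rmS (full N) (P \ R) ∧
        ((0, x') : Li) ∈ rmS (full N) (P \ R) ∧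
        Cg N W k (rmS (full N) (P \ R)) x x' < fg N W k P x x' - lam - 2 * L ^ 6 / k),
      bern P (fun _ => (k : ℝ) / N) R ≤
      ((k : ℝ) / N) ^ 2 * Real.exp (-(lam ^ 2 * k / (100 * L ^ 12))) := by
  have hL0 : 0 < L := by linarith
  have hk0 : (0 : ℝ) < k := by exact_mod_cast hk
  have hN1 : 1 ≤ N := hk.trans hkN
  have hN0 : (0 : ℝ) < N := by exact_mod_cast hN1
  have t0 : (0 : ℝ) ≤ (k : ℝ) / N := by positivity
  have t1 : (k : ℝ) / N ≤ 1 := div_le_one_of_le₀ (by exact_mod_cast hkN) (by positivity)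
  have hpp : ∀ i ∈ P, 0 ≤ (fun _ : ℤ × ℤ => (k : ℝ) / N) i ∧ (fun _ : ℤ × ℤ => (k : ℝ) / N) i ≤ 1 :=
    fun _ _ => ⟨t0, t1⟩
  have hQS := NQ.mem_Qset.1 hP
  set Q0 : Finset (ℤ × ℤ) := P.filter (fun q => q.1 = x ∨ q.1 = x') with hQ0
  have hQP : Q0 ⊆ P := filter_subset _ _
  set C : Finset (ℤ × ℤ) → ℝ := fun R => Cg N W k (rmS (full N) (P \ R)) x x' with hC
  set a : ℝ := fg N W k P x x' - lam - 2 * L ^ 6 / k with ha
  set th : ℝ := lam * k / (50 * L ^ 12) with hth
  have hth0 : 0 < th := by positivity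
  -- the two rows
  have hfull : ∀ z : ℤ, 0 ≤ z ∧ z < N → ((0, z) : Li) ∈ full N := by
    intro z hz
    rw [mem_full]
    have h2 : (0 : ℤ) < N := by exact_mod_cast hN1
    exact ⟨(z, 0), NQ.mem_board.2 ⟨hz, le_rfl, h2⟩, rfl⟩
  have hrow : ∀ z : ℤ, 0 ≤ z ∧ z < N → ∃ q ∈ P, q.1 = z := by
    intro z hz
    obtain ⟨q, hq, h⟩ := rc_occ hP (hfull z hz) (by unfold rc; norm_num)
    exact ⟨q, hq, h⟩
  have hcard : 2 ≤ Q0.card := by
    obtain ⟨q1, hq1, e1⟩ := hrow x hx
    obtain ⟨q2, hq2, e2⟩ := hrow x' hx'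
    have hne : q1 ≠ q2 := by
      intro h
      apply hxx
      rw [← e1, ← e2, h]
    have h3 : ({q1, q2} : Finset (ℤ × ℤ)) ⊆ Q0 := by
      intro q hq
      rw [mem_insert, mem_singleton] at hq
      rcases hq with h | h
      · rw [h]
        exact mem_filter.2 ⟨hq1, Or.inl e1⟩
      · rw [h]
        exact mem_filter.2 ⟨hq2, Or.inr e2⟩
    have h4 := card_le_card h3
    rwa [card_pair hne] at h4
  -- Markov
  have s1 : ∑ R ∈ P.powerset.filter (fun R => ((0, x) : Li) ∈ rmS (full N) (P \ R) ∧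
        ((0, x') : Li) ∈ rmS (full N) (P \ R) ∧
        Cg N W k (rmS (full N) (P \ R)) x x' < a),
      bern P (fun _ => (k : ℝ) / N) R ≤
      ∑ R ∈ P.powerset, bern P (fun _ => (k : ℝ) / N) R *
        (if Q0 ⊆ R then Real.exp (th * (a - C R)) else 0) := by
    rw [sum_filter]
    refine sum_le_sum fun R hRP => ?_
    have hb := dg_nn P _ hpp (mem_powerset.1 hRP)
    split_ifs with h h2 h2
    · obtain ⟨_, _, h3⟩ := h
      have h4 : 1 ≤ Real.exp (th * (a - C R)) := by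
        apply Real.one_le_exp
        apply mul_nonneg hth0.le
        have h5 : C R < a := h3
        linarith
      calc bern P (fun _ => (k : ℝ) / N) R = bern P (fun _ => (k : ℝ) / N) R * 1 := (mul_one _).symm
        _ ≤ _ := mul_le_mul_of_nonneg_left h4 hb
    · exfalso
      apply h2
      obtain ⟨h3, h4, _⟩ := h
      rw [mem_rmS] at h3 h4
      intro q hq
      rw [hQ0, mem_filter] at hq
      by_contra hqR
      have hq2 : q ∈ P \ R := mem_sdiff.2 ⟨hq.1, hqR⟩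
      rcases hq.2 with h5 | h5
      · exact h3.2 q hq2 h5
      · exact h4.2 q hq2 h5
    · exact mul_nonneg hb (Real.exp_pos _).le
    · rw [mul_zero]
  have s2 := dg_indep (A := P) (fun _ => (k : ℝ) / N) hQP (fun R => Real.exp (th * (a - C R)))
  rw [prod_const] at s2
  -- bounded differences
  set c : ℝ := th * (5 * L ^ 6 / k) with hc
  have hc0 : 0 ≤ c := by positivity
  have hcv : c = lam / (10 * L ^ 6) := by
    rw [hc, hth]
    field_simp
    norm_num
  have hL6 : 1 ≤ L ^ 6 := one_le_pow₀ hL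
  have hc1 : c ≤ 1 := by
    rw [hcv, div_le_one (by positivity)]
    linarith
  have s3 := mcd2 P (fun _ => (k : ℝ) / N) hpp (fun T => th * (a - C (T ∪ Q0))) hc0 hc1 (by
    intro q hq T _
    have h3 := lip_cg hL hR hk hkN hP x x' hq T
    have h4 : th * (a - C (insert q T ∪ Q0)) - th * (a - C (T ∪ Q0)) =
        -(th * (C (insert q T ∪ Q0) - C (T ∪ Q0))) := by ring
    rw [h4, abs_neg, abs_mul, abs_of_pos hth0]
    exact mul_le_mul_of_nonneg_left h3 hth0.le)
  have s4 : ∑ T ∈ P.powerset, bern P (fun _ => (k : ℝ) / N) T * (th * (a - C (T ∪ Q0))) =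
      th * (a - ∑ T ∈ P.powerset, bern P (fun _ => (k : ℝ) / N) T * C (T ∪ Q0)) := by
    have h3 : ∀ T : Finset (ℤ × ℤ), bern P (fun _ => (k : ℝ) / N) T * (th * (a - C (T ∪ Q0))) =
        th * a * bern P (fun _ => (k : ℝ) / N) T -
          th * (bern P (fun _ => (k : ℝ) / N) T * C (T ∪ Q0)) := fun T => by ring
    simp only [h3]
    rw [sum_sub_distrib, ← mul_sum, ← mul_sum, dg_sum]
    ring
  have s5 : fg N W k P x x' ≤ ∑ T ∈ P.powerset, bern P (fun _ => (k : ℝ) / N) T * C (T ∪ Q0) :=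
    dg_exp hL hR hk hkN hP hx hx'
  have s6 : c ^ 2 * ∑ i ∈ P, (fun _ : ℤ × ℤ => (k : ℝ) / N) i = lam ^ 2 * k / (100 * L ^ 12) := by
    have h3 : ∑ i ∈ P, (fun _ : ℤ × ℤ => (k : ℝ) / N) i = k := by
      simp only [sum_const, nsmul_eq_mul]
      rw [hQS.2.1]
      field_simp
    rw [h3, hcv]
    field_simp
    norm_num
  have s7 : th * (a - ∑ T ∈ P.powerset, bern P (fun _ => (k : ℝ) / N) T * C (T ∪ Q0)) ≤
      -(2 * (lam ^ 2 * k / (100 * L ^ 12))) := by
    have h3 : a - ∑ T ∈ P.powerset, bern P (fun _ => (k : ℝ) / N) T * C (T ∪ Q0) ≤ -lam := by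
      have h4 : 0 ≤ 2 * L ^ 6 / (k : ℝ) := by positivity
      rw [ha]
      linarith
    refine (mul_le_mul_of_nonneg_left h3 hth0.le).trans (le_of_eq ?_)
    rw [hth]
    field_simp
    norm_num
  have s8 : ∑ T ∈ P.powerset, bern P (fun _ => (k : ℝ) / N) T * Real.exp (th * (a - C (T ∪ Q0))) ≤
      Real.exp (-(lam ^ 2 * k / (100 * L ^ 12))) := by
    refine s3.trans (Real.exp_le_exp.2 ?_)
    rw [s6, s4]
    linarith
  have s9 : 0 ≤ ∑ T ∈ P.powerset, bern P (fun _ => (k : ℝ) / N) T * Real.exp (th * (a - C (T ∪ Q0))) :=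
    sum_nonneg fun T hT => mul_nonneg (dg_nn P _ hpp (mem_powerset.1 hT)) (Real.exp_pos _).le
  refine s1.trans ?_
  rw [s2]
  exact mul_le_mul (pow_le_pow_of_le_one t0 t1 hcard) s8 s9 (by positivity)

end Pool.Agent.NQL
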