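import Pool.Agent.NQL.Defs
import Pool.Agent.NQL.ABas
import Pool.Agent.NQL.DMcd
import Pool.Agent.NQL.DIns

/-!
# NQL-DPai: small instances have no two free squares on a common diagonal

PLAN. Union bound over ordered pairs `s = (x,y) ≠ s' = (x',y')` of squares of the board on a common diagonal (`x ≠ x'`, `y ≠ y'`). Both free for the instance of `R` implies that the queens in the rows `x`, `x'` and in the columns `y`, `y'` belong to `R`. Number `j` of different queens among these four: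
`j ≥ 3`, since `s ∈ P` and `s' ∈ P` is impossible (common diagonal), `(x,y') ∈ P` and `(x',y) ∈ P` is impossible (from `x - y = x' - y'` follows `x + y' = x' + y`: common sum diagonal; similarly for the other type), and two coincidences sharing a row or column are impossible. `j = 3` only if one of `s, s', (x,y'), (x',y)` is in
`P`: at most `8 N²` pairs (each of the four: `N` queens, `N` choices of the other coordinate, 2 diagonal types). All pairs: at most `2 N³`. `sub_all`: probability `≤ (k/N)^j`. Total `≤ 2 N³ (k/N)⁴ + 8 N² (k/N)³ ≤ 10 k⁴/N`.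
-/

set_option autoImplicit false

open Finset

namespace Pool.Agent.NQL

open Pool.Agent.NQ (board dsum F Ent Dg phi ln Q Qset QS NonAtt bern)
open Pool.Agent.NQR (Adm Opt Bd Rf hS hD hh InR)

private noncomputable def prs (N : ℕ) : Finset ((ℤ × ℤ) × (ℤ × ℤ)) :=
  (board N ×ˢ board N).filter (fun t => t.1.1 ≠ t.2.1 ∧ t.1.2 ≠ t.2.2 ∧
    (t.1.1 + t.1.2 = t.2.1 + t.2.2 ∨ t.1.1 - t.1.2 = t.2.1 - t.2.2))

private lemma mem_bd {N : ℕ} {e : ℤ × ℤ} :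
    e ∈ board N ↔ (0 ≤ e.1 ∧ e.1 < N) ∧ (0 ≤ e.2 ∧ e.2 < N) := by
  unfold Pool.Agent.NQ.board
  rw [Finset.mem_product, Finset.mem_Ico, Finset.mem_Ico]

private lemma mem_prs {N : ℕ} {t : (ℤ × ℤ) × (ℤ × ℤ)} :
    t ∈ prs N ↔ (((0 ≤ t.1.1 ∧ t.1.1 < N) ∧ (0 ≤ t.1.2 ∧ t.1.2 < N)) ∧
      ((0 ≤ t.2.1 ∧ t.2.1 < N) ∧ (0 ≤ t.2.2 ∧ t.2.2 < N))) ∧ t.1.1 ≠ t.2.1 ∧ t.1.2 ≠ t.2.2 ∧
    (t.1.1 + t.1.2 = t.2.1 + t.2.2 ∨ t.1.1 - t.1.2 = t.2.1 - t.2.2) := by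
  unfold prs
  rw [Finset.mem_filter, Finset.mem_product, mem_bd, mem_bd]

private lemma cnt {N : ℕ} {A : Finset (ℤ × ℤ)} (T' : Finset ((ℤ × ℤ) × (ℤ × ℤ)))
    (g : (ℤ × ℤ) × (ℤ × ℤ) → ℤ × ℤ) (h : (ℤ × ℤ) × (ℤ × ℤ) → ℤ)
    (hg : ∀ t ∈ T', g t ∈ A) (hh : ∀ t ∈ T', 0 ≤ h t ∧ h t < N)
    (hinj : ∀ t ∈ T', ∀ t' ∈ T', g t = g t' → h t = h t' →
      ((t.1.1 + t.1.2 = t.2.1 + t.2.2) ↔ (t'.1.1 + t'.1.2 = t'.2.1 + t'.2.2)) → t = t') :
    T'.card ≤ A.card * (N * 2) := by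
  have h1 : T'.card ≤ (A ×ˢ ((Finset.Ico (0 : ℤ) N) ×ˢ (Finset.univ : Finset Bool))).card := by
    apply Finset.card_le_card_of_injOn
      (fun t => (g t, h t, decide (t.1.1 + t.1.2 = t.2.1 + t.2.2)))
    · intro t ht
      have ht' : t ∈ T' := ht
      have h2 := hg t ht'
      have h3 := hh t ht'
      simp only [Finset.coe_product, Set.mem_prod, Finset.mem_coe, Finset.mem_Ico,
        Finset.mem_univ, and_true]
      exact ⟨h2, h3⟩
    · intro t ht t' ht' e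
      simp only [Prod.mk.injEq, decide_eq_decide] at e
      exact hinj t ht t' ht' e.1 e.2.1 e.2.2
  rw [Finset.card_product, Finset.card_product, Int.card_Ico, Finset.card_univ,
    Fintype.card_bool] at h1
  simpa using h1

private lemma cnt_all {N : ℕ} : (prs N).card ≤ N * N * (N * 2) := by
  have h := cnt (N := N) (A := board N) (prs N) (fun t => t.1) (fun t => t.2.1)
    (fun t ht => by
      have := mem_prs.1 ht
      exact mem_bd.2 this.1.1)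
    (fun t ht => (mem_prs.1 ht).1.2.1)
    (fun t ht t' ht' e1 e2 e3 => by
      have h1 := (mem_prs.1 ht).2.2.2
      have h2 := (mem_prs.1 ht').2.2.2
      obtain ⟨⟨x, y⟩, ⟨x', y'⟩⟩ := t
      obtain ⟨⟨z, w⟩, ⟨z', w'⟩⟩ := t'
      simp only [Prod.mk.injEq] at e1 e2 e3 h1 h2 ⊢
      omega)
  have h2 : (board N).card = N * N := by
    unfold Pool.Agent.NQ.board
    rw [Finset.card_product, Int.card_Ico]
    simp
  rwa [h2] at h

private lemma cnt_P {N : ℕ} {P : Finset (ℤ × ℤ)} (hc : P.card = N)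
    (g : (ℤ × ℤ) × (ℤ × ℤ) → ℤ × ℤ) (h : (ℤ × ℤ) × (ℤ × ℤ) → ℤ)
    (hh : ∀ t ∈ prs N, 0 ≤ h t ∧ h t < N)
    (hinj : ∀ t ∈ prs N, ∀ t' ∈ prs N, g t = g t' → h t = h t' →
      ((t.1.1 + t.1.2 = t.2.1 + t.2.2) ↔ (t'.1.1 + t'.1.2 = t'.2.1 + t'.2.2)) → t = t') :
    (∑ t ∈ prs N, (if g t ∈ P then (1 : ℝ) else 0)) ≤ N * (N * 2) := by
  rw [Finset.sum_boole]
  have h1 := cnt (N := N) (A := P) ((prs N).filter (fun t => g t ∈ P)) g h
    (fun t ht => (Finset.mem_filter.1 ht).2)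
    (fun t ht => hh t (Finset.mem_filter.1 ht).1)
    (fun t ht t' ht' => hinj t (Finset.mem_filter.1 ht).1 t' (Finset.mem_filter.1 ht').1)
  rw [hc] at h1
  exact_mod_cast h1

private lemma pow_J {N : ℕ} {P : Finset (ℤ × ℤ)} (hP : P ∈ Qset N) (hN : 1 ≤ N)
    {p : ℝ} (hp0 : 0 ≤ p) (hp1 : p ≤ 1) (t : (ℤ × ℤ) × (ℤ × ℤ)) (ht : t ∈ prs N) :
    p ^ (P.filter (fun q => q.1 = t.1.1 ∨ q.1 = t.2.1 ∨ q.2 = t.1.2 ∨ q.2 = t.2.2)).card ≤
      p ^ 4 + ((if t.1 ∈ P then (1 : ℝ) else 0) + (if t.2 ∈ P then (1 : ℝ) else 0) +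
        (if (t.1.1, t.2.2) ∈ P then (1 : ℝ) else 0) +
        (if (t.2.1, t.1.2) ∈ P then (1 : ℝ) else 0)) * p ^ 3 := by
  have hQ := Pool.Agent.NQ.mem_Qset.1 hP
  obtain ⟨hQ1, hQ2, hQ3⟩ := hQ
  obtain ⟨⟨⟨hx, hy⟩, ⟨hx', hy'⟩⟩, hxx, hyy, hd⟩ := mem_prs.1 ht
  have hrow : ∀ x : ℤ, 0 ≤ x ∧ x < N → ∃ q ∈ P, q.1 = x := by
    intro x hx
    obtain ⟨q, hq, hq2⟩ := rc_occ hP (l := ((0 : Fin 4), x)) (mem_full.2 ⟨(x, 0), mem_bd.2
      ⟨hx, le_refl _, by simpa using (show 0 < N from hN)⟩, rfl⟩) (by unfold rc; simp)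
    exact ⟨q, hq, hq2⟩
  have hcol : ∀ y : ℤ, 0 ≤ y ∧ y < N → ∃ q ∈ P, q.2 = y := by
    intro y hy
    obtain ⟨q, hq, hq2⟩ := rc_occ hP (l := ((1 : Fin 4), y)) (mem_full.2 ⟨(0, y), mem_bd.2
      ⟨⟨le_refl _, by simpa using (show 0 < N from hN)⟩, hy⟩, rfl⟩) (by unfold rc; simp)
    exact ⟨q, hq, hq2⟩
  obtain ⟨a, ha, hax⟩ := hrow _ hx
  obtain ⟨b, hb, hbx⟩ := hrow _ hx'
  obtain ⟨c, hc, hcy⟩ := hcol _ hy
  obtain ⟨d, hdm, hdy⟩ := hcol _ hy'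
  set J := P.filter (fun q => q.1 = t.1.1 ∨ q.1 = t.2.1 ∨ q.2 = t.1.2 ∨ q.2 = t.2.2) with hJ
  have haJ : a ∈ J := Finset.mem_filter.2 ⟨ha, Or.inl hax⟩
  have hbJ : b ∈ J := Finset.mem_filter.2 ⟨hb, Or.inr (Or.inl hbx)⟩
  have hcJ : c ∈ J := Finset.mem_filter.2 ⟨hc, Or.inr (Or.inr (Or.inl hcy))⟩
  have hdJ : d ∈ J := Finset.mem_filter.2 ⟨hdm, Or.inr (Or.inr (Or.inr hdy))⟩
  have hab : a ≠ b := fun h => hxx (by rw [← hax, ← hbx, h])
  have hcd : c ≠ d := fun h => hyy (by rw [← hcy, ← hdy, h])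
  have hnon : ¬ (a = c ∧ b = d) := by
    rintro ⟨h1, h2⟩
    subst h1
    subst h2
    rcases hd with hd | hd
    · exact hQ3 a ha b hb hab 2 (by rw [Pool.Agent.NQ.ln_two, Pool.Agent.NQ.ln_two]; omega)
    · exact hQ3 a ha b hb hab 3 (by rw [Pool.Agent.NQ.ln_three, Pool.Agent.NQ.ln_three]; omega)
  have hnon2 : ¬ (a = d ∧ b = c) := by
    rintro ⟨h1, h2⟩
    subst h1
    subst h2
    rcases hd with hd | hd
    · exact hQ3 a ha b hb hab 3 (by rw [Pool.Agent.NQ.ln_three, Pool.Agent.NQ.ln_three]; omega)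
    · exact hQ3 a ha b hb hab 2 (by rw [Pool.Agent.NQ.ln_two, Pool.Agent.NQ.ln_two]; omega)
  have hthree : ∀ u v w : ℤ × ℤ, u ∈ J → v ∈ J → w ∈ J → u ≠ v → u ≠ w → v ≠ w → 3 ≤ J.card := by
    intro u v w hu hv hw h1 h2 h3
    have h4 : ({u, v, w} : Finset (ℤ × ℤ)).card = 3 := by
      rw [Finset.card_insert_of_notMem, Finset.card_insert_of_notMem, Finset.card_singleton]
      · simpa using h3
      · simp [h1, h2]
    rw [← h4]
    apply Finset.card_le_card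
    intro z hz
    simp only [Finset.mem_insert, Finset.mem_singleton] at hz
    rcases hz with rfl | rfl | rfl <;> assumption
  have hp3 : 0 ≤ p ^ 3 := pow_nonneg hp0 3
  have hp4 : 0 ≤ p ^ 4 := pow_nonneg hp0 4
  have hind : ∀ q : ℤ × ℤ, (0 : ℝ) ≤ (if q ∈ P then (1 : ℝ) else 0) := fun q => by
    split_ifs <;> norm_num
  by_cases h1 : a = c
  · have hs : t.1 ∈ P := by
      have : t.1 = a := Prod.ext hax.symm (by rw [h1]; exact hcy.symm)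
      rw [this]; exact ha
    have h3 : 3 ≤ J.card := hthree a b d haJ hbJ hdJ hab (fun h => hcd (h1 ▸ h))
      (fun h => hnon ⟨h1, h⟩)
    have h4 : p ^ J.card ≤ p ^ 3 := pow_le_pow_of_le_one hp0 hp1 h3
    rw [if_pos hs]
    nlinarith [hind t.2, hind (t.1.1, t.2.2), hind (t.2.1, t.1.2), mul_nonneg (hind t.2) hp3,
      mul_nonneg (hind (t.1.1, t.2.2)) hp3, mul_nonneg (hind (t.2.1, t.1.2)) hp3]
  by_cases h2 : b = d
  · have hs : t.2 ∈ P := by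
      have : t.2 = b := Prod.ext hbx.symm (by rw [h2]; exact hdy.symm)
      rw [this]; exact hb
    have h3 : 3 ≤ J.card := hthree a b c haJ hbJ hcJ hab h1
      (fun h => hcd (by rw [← h, h2]))
    have h4 : p ^ J.card ≤ p ^ 3 := pow_le_pow_of_le_one hp0 hp1 h3
    rw [if_pos hs]
    nlinarith [mul_nonneg (hind t.1) hp3,
      mul_nonneg (hind (t.1.1, t.2.2)) hp3, mul_nonneg (hind (t.2.1, t.1.2)) hp3]
  by_cases h5 : a = d
  · have hs : (t.1.1, t.2.2) ∈ P := by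
      have : (t.1.1, t.2.2) = a := Prod.ext hax.symm (by rw [h5]; exact hdy.symm)
      rw [this]; exact ha
    have h3 : 3 ≤ J.card := hthree a b c haJ hbJ hcJ hab h1 (fun h => hnon2 ⟨h5, h⟩)
    have h4 : p ^ J.card ≤ p ^ 3 := pow_le_pow_of_le_one hp0 hp1 h3
    rw [if_pos hs]
    nlinarith [mul_nonneg (hind t.1) hp3, mul_nonneg (hind t.2) hp3,
      mul_nonneg (hind (t.2.1, t.1.2)) hp3]
  by_cases h6 : b = c
  · have hs : (t.2.1, t.1.2) ∈ P := by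
      have : (t.2.1, t.1.2) = b := Prod.ext hbx.symm (by rw [h6]; exact hcy.symm)
      rw [this]; exact hb
    have h3 : 3 ≤ J.card := hthree a b d haJ hbJ hdJ hab h5 h2
    have h4 : p ^ J.card ≤ p ^ 3 := pow_le_pow_of_le_one hp0 hp1 h3
    rw [if_pos hs]
    nlinarith [mul_nonneg (hind t.1) hp3, mul_nonneg (hind t.2) hp3,
      mul_nonneg (hind (t.1.1, t.2.2)) hp3]
  have h4 : 4 ≤ J.card := by
    have h7 : ({a, b, c, d} : Finset (ℤ × ℤ)).card = 4 := by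
      rw [Finset.card_insert_of_notMem, Finset.card_insert_of_notMem,
        Finset.card_insert_of_notMem, Finset.card_singleton]
      · simpa using hcd
      · simp [h6, h2]
      · simp [hab, h1, h5]
    rw [← h7]
    apply Finset.card_le_card
    intro z hz
    simp only [Finset.mem_insert, Finset.mem_singleton] at hz
    rcases hz with rfl | rfl | rfl | rfl <;> assumption
  have h8 : p ^ J.card ≤ p ^ 4 := pow_le_pow_of_le_one hp0 hp1 h4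
  nlinarith [mul_nonneg (hind t.1) hp3, mul_nonneg (hind t.2) hp3,
      mul_nonneg (hind (t.1.1, t.2.2)) hp3, mul_nonneg (hind (t.2.1, t.1.2)) hp3]

open Classical in
private lemma sub_all' {ι : Type*} (P J : Finset ι) {N k : ℕ} (hP : P.card = N) (hJ : J ⊆ P)
    (hkN : k ≤ N) (hN : 1 ≤ N) (S : Finset (Finset ι))
    (hS : ∀ R, R ∈ S ↔ R ∈ P.powersetCard k ∧ J ⊆ R) :
    (S.card : ℝ) / (N.choose k : ℕ) ≤ ((k : ℝ) / N) ^ J.card := by
  have h := sub_all P J hP hJ hkN hN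
  refine h.trans' (le_of_eq ?_)
  have key : ∀ T : Finset (Finset ι), (∀ R, R ∈ T ↔ R ∈ P.powersetCard k ∧ J ⊆ R) →
      (S.card : ℝ) / (N.choose k : ℕ) = (T.card : ℝ) / (N.choose k : ℕ) := by
    intro T hT
    rw [show S = T from Finset.ext fun R => (hS R).trans (hT R).symm]
  apply key
  intro R
  rw [Finset.mem_filter]

open Classical in
theorem pairs_le {N k : ℕ} (hN : 1 ≤ N) (hk : 1 ≤ k) (hkN : k ≤ N) {P : Finset (ℤ × ℤ)} (hP : P ∈ Qset N) :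
    (((P.powersetCard k).filter (fun R => ∃ l ∈ rmS (full N) (P \ R), ¬ rc l ∧
      2 ≤ (Sl N (rmS (full N) (P \ R)) l).card)).card : ℝ) / (N.choose k : ℕ) ≤ 12 * (k : ℝ) ^ 4 / N := by
  have hQ := Pool.Agent.NQ.mem_Qset.1 hP
  obtain ⟨hQ1, hQ2, hQ3⟩ := hQ
  have hN0 : (0 : ℝ) < N := by exact_mod_cast hN
  have hk1 : (1 : ℝ) ≤ k := by exact_mod_cast hk
  have hkN' : (k : ℝ) ≤ N := by exact_mod_cast hkN
  set p : ℝ := (k : ℝ) / N with hp
  have hp0 : 0 ≤ p := by positivity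
  have hp1 : p ≤ 1 := (div_le_one hN0).2 hkN'
  let J : (ℤ × ℤ) × (ℤ × ℤ) → Finset (ℤ × ℤ) := fun t =>
    P.filter (fun q => q.1 = t.1.1 ∨ q.1 = t.2.1 ∨ q.2 = t.1.2 ∨ q.2 = t.2.2)
  have hsub : (P.powersetCard k).filter (fun R => ∃ l ∈ rmS (full N) (P \ R), ¬ rc l ∧
      2 ≤ (Sl N (rmS (full N) (P \ R)) l).card) ⊆
      (prs N).biUnion (fun t => (P.powersetCard k).filter (fun R => J t ⊆ R)) := by
    intro R hR
    obtain ⟨hR1, l, hl, hrc, h2⟩ := Finset.mem_filter.1 hR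
    obtain ⟨s, hs, s', hs', hne⟩ := Finset.one_lt_card.1 h2
    obtain ⟨hs1, hs2⟩ := mem_Sl.1 hs
    obtain ⟨hs1', hs2'⟩ := mem_Sl.1 hs'
    obtain ⟨hb, hf⟩ := sq_rmS.1 hs1
    obtain ⟨hb', hf'⟩ := sq_rmS.1 hs1'
    have hll : ln l.1 s = ln l.1 s' := by rw [hs2, hs2']
    have hl0 : l.1 ≠ 0 := fun h => hrc (by unfold rc; rw [h]; simp)
    have hl1 : l.1 ≠ 1 := fun h => hrc (by unfold rc; rw [h]; simp)
    have hx : s.1 ≠ s'.1 := fun h => hne (two_lines (k := 0) (k' := l.1) hl0.symm h hll)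
    have hy : s.2 ≠ s'.2 := fun h => hne (two_lines (k := 1) (k' := l.1) hl1.symm h hll)
    have hd : s.1 + s.2 = s'.1 + s'.2 ∨ s.1 - s.2 = s'.1 - s'.2 := by
      have h4 : l.1 = 2 ∨ l.1 = 3 := by
        have h5 : ∀ i : Fin 4, i ≠ 0 → i ≠ 1 → i = 2 ∨ i = 3 := by decide
        exact h5 l.1 hl0 hl1
      rcases h4 with h4 | h4
      · left
        rw [h4] at hll
        exact hll
      · right
        rw [h4] at hll
        exact hll
    rw [Finset.mem_biUnion]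
    refine ⟨(s, s'), mem_prs.2 ⟨⟨mem_bd.1 hb, mem_bd.1 hb'⟩, hx, hy, hd⟩, ?_⟩
    refine Finset.mem_filter.2 ⟨hR1, ?_⟩
    intro q hq
    obtain ⟨hqP, hq2⟩ := Finset.mem_filter.1 hq
    by_contra hqR
    have hqPR : q ∈ P \ R := Finset.mem_sdiff.2 ⟨hqP, hqR⟩
    rcases hq2 with h | h | h | h
    · exact hf q hqPR 0 h
    · exact hf' q hqPR 0 h
    · exact hf q hqPR 1 h
    · exact hf' q hqPR 1 h
  have hch : (0 : ℝ) < (N.choose k : ℕ) := by exact_mod_cast Nat.choose_pos hkN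
  have h1 : (((P.powersetCard k).filter (fun R => ∃ l ∈ rmS (full N) (P \ R), ¬ rc l ∧
      2 ≤ (Sl N (rmS (full N) (P \ R)) l).card)).card : ℝ) / (N.choose k : ℕ) ≤
      ∑ t ∈ prs N, p ^ (J t).card := by
    have h2 : (((P.powersetCard k).filter (fun R => ∃ l ∈ rmS (full N) (P \ R), ¬ rc l ∧
      2 ≤ (Sl N (rmS (full N) (P \ R)) l).card)).card : ℝ) ≤
      ∑ t ∈ prs N, (((P.powersetCard k).filter (fun R => J t ⊆ R)).card : ℝ) := by
      exact_mod_cast (Finset.card_le_card hsub).trans Finset.card_biUnion_le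
    calc _ ≤ (∑ t ∈ prs N, (((P.powersetCard k).filter (fun R => J t ⊆ R)).card : ℝ)) /
          (N.choose k : ℕ) := div_le_div_of_nonneg_right h2 hch.le
      _ = ∑ t ∈ prs N, (((P.powersetCard k).filter (fun R => J t ⊆ R)).card : ℝ) /
          (N.choose k : ℕ) := Finset.sum_div _ _ _
      _ ≤ _ := Finset.sum_le_sum fun t _ =>
          sub_all' P (J t) hQ2 (Finset.filter_subset _ _) hkN hN _ (fun R => Finset.mem_filter)
  have h3 : ∑ t ∈ prs N, p ^ (J t).card ≤ ∑ t ∈ prs N,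
      (p ^ 4 + ((if t.1 ∈ P then (1 : ℝ) else 0) + (if t.2 ∈ P then (1 : ℝ) else 0) +
        (if (t.1.1, t.2.2) ∈ P then (1 : ℝ) else 0) +
        (if (t.2.1, t.1.2) ∈ P then (1 : ℝ) else 0)) * p ^ 3) :=
    Finset.sum_le_sum fun t ht => pow_J hP hN hp0 hp1 t ht
  have c0 : ((prs N).card : ℝ) ≤ N * N * (N * 2) := by exact_mod_cast cnt_all (N := N)
  have c1 := cnt_P (N := N) hQ2 (fun t => t.1) (fun t => t.2.1)
    (fun t ht => (mem_prs.1 ht).1.2.1)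
    (fun t ht t' ht' e1 e2 e3 => by
      have h1 := (mem_prs.1 ht).2.2.2
      have h2 := (mem_prs.1 ht').2.2.2
      obtain ⟨⟨x, y⟩, ⟨x', y'⟩⟩ := t
      obtain ⟨⟨z, w⟩, ⟨z', w'⟩⟩ := t'
      simp only [Prod.mk.injEq] at e1 e2 e3 h1 h2 ⊢
      omega)
  have c2 := cnt_P (N := N) hQ2 (fun t => t.2) (fun t => t.1.1)
    (fun t ht => (mem_prs.1 ht).1.1.1)
    (fun t ht t' ht' e1 e2 e3 => by
      have h1 := (mem_prs.1 ht).2.2.2
      have h2 := (mem_prs.1 ht').2.2.2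
      obtain ⟨⟨x, y⟩, ⟨x', y'⟩⟩ := t
      obtain ⟨⟨z, w⟩, ⟨z', w'⟩⟩ := t'
      simp only [Prod.mk.injEq] at e1 e2 e3 h1 h2 ⊢
      omega)
  have c3 := cnt_P (N := N) hQ2 (fun t => (t.1.1, t.2.2)) (fun t => t.2.1)
    (fun t ht => (mem_prs.1 ht).1.2.1)
    (fun t ht t' ht' e1 e2 e3 => by
      have h1 := (mem_prs.1 ht).2.2.2
      have h2 := (mem_prs.1 ht').2.2.2
      obtain ⟨⟨x, y⟩, ⟨x', y'⟩⟩ := t
      obtain ⟨⟨z, w⟩, ⟨z', w'⟩⟩ := t'
      simp only [Prod.mk.injEq] at e1 e2 e3 h1 h2 ⊢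
      omega)
  have c4 := cnt_P (N := N) hQ2 (fun t => (t.2.1, t.1.2)) (fun t => t.1.1)
    (fun t ht => (mem_prs.1 ht).1.1.1)
    (fun t ht t' ht' e1 e2 e3 => by
      have h1 := (mem_prs.1 ht).2.2.2
      have h2 := (mem_prs.1 ht').2.2.2
      obtain ⟨⟨x, y⟩, ⟨x', y'⟩⟩ := t
      obtain ⟨⟨z, w⟩, ⟨z', w'⟩⟩ := t'
      simp only [Prod.mk.injEq] at e1 e2 e3 h1 h2 ⊢
      omega)
  rw [Finset.sum_add_distrib, ← Finset.sum_mul, Finset.sum_add_distrib, Finset.sum_add_distrib,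
    Finset.sum_add_distrib, Finset.sum_const, nsmul_eq_mul] at h3
  have hp3 : 0 ≤ p ^ 3 := pow_nonneg hp0 3
  have hp4 : 0 ≤ p ^ 4 := pow_nonneg hp0 4
  have h5 : ((prs N).card : ℝ) * p ^ 4 ≤ N * N * (N * 2) * p ^ 4 :=
    mul_le_mul_of_nonneg_right c0 hp4
  have h6 : ((((∑ t ∈ prs N, if t.1 ∈ P then (1 : ℝ) else 0) +
      ∑ t ∈ prs N, if t.2 ∈ P then (1 : ℝ) else 0) +
      ∑ t ∈ prs N, if (t.1.1, t.2.2) ∈ P then (1 : ℝ) else 0) +
      ∑ t ∈ prs N, if (t.2.1, t.1.2) ∈ P then (1 : ℝ) else 0) * p ^ 3 ≤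
      (N * (N * 2) + N * (N * 2) + N * (N * 2) + N * (N * 2)) * p ^ 3 := by
    apply mul_le_mul_of_nonneg_right _ hp3
    linarith
  have h7 : (N : ℝ) * N * (N * 2) * p ^ 4 = 2 * (k : ℝ) ^ 4 / N := by
    rw [hp]
    field_simp
  have h8 : ((N : ℝ) * (N * 2) + N * (N * 2) + N * (N * 2) + N * (N * 2)) * p ^ 3 =
      8 * (k : ℝ) ^ 3 / N := by
    rw [hp]
    field_simp
    ring
  have h9 : 8 * (k : ℝ) ^ 3 / N ≤ 8 * (k : ℝ) ^ 4 / N := by
    apply div_le_div_of_nonneg_right _ hN0.le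
    have : (k : ℝ) ^ 3 ≤ (k : ℝ) ^ 4 := pow_le_pow_right₀ hk1 (by norm_num)
    linarith
  have h10 : 0 ≤ 2 * (k : ℝ) ^ 4 / N := by positivity
  have h11 : 12 * (k : ℝ) ^ 4 / N = 2 * (k : ℝ) ^ 4 / N + 8 * (k : ℝ) ^ 4 / N +
      2 * (k : ℝ) ^ 4 / N := by ring
  linarith

end Pool.Agent.NQL
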