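import Pool.Agent.NQL.Defs
import Pool.Agent.NQL.DExp
import Pool.Agent.NQL.DDvG

/-!
# NQL-DTyD: typical configurations (definition)

PLAN. Nothing to prove except `typ_mono`.
-/

set_option autoImplicit false

open Finset

namespace Pool.Agent.NQL

open Pool.Agent.NQ (board dsum F Ent Dg phi ln Q Qset QS NonAtt bern)
open Pool.Agent.NQR (Adm Opt Bd Rf hS hD hh InR)

/-- typical configurations: the line masses and codegrees expected from the occupied diagonals are close to the nominal ones -/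
def Typ (L tol : ℝ) (N : ℕ) (W : ℤ × ℤ → ℝ) (P : Finset (ℤ × ℤ)) : Prop :=
  (∀ k : ℕ, 1 ≤ k → k ≤ N → ∀ l ∈ full N, |fl N W k P l - TT N W k l| ≤ tol) ∧
  ∀ k : ℕ, 1 ≤ k → k ≤ N → ∀ x x' : ℤ, 0 ≤ x → x < N → 0 ≤ x' → x' < N → x ≠ x' →
    1 / L ^ 2 - tol ≤ fg N W k P x x'

theorem typ_mono {L tol tol' : ℝ} {N : ℕ} {W : ℤ × ℤ → ℝ} {P : Finset (ℤ × ℤ)} (h : tol ≤ tol')
    (hT : Typ L tol N W P) : Typ L tol' N W P := by
  refine ⟨fun k hk hkN l hl => (hT.1 k hk hkN l hl).trans h, fun k hk hkN x x' h0 h1 h2 h3 h4 => ?_⟩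
  exact le_trans (sub_le_sub_left h _) (hT.2 k hk hkN x x' h0 h1 h2 h3 h4)

end Pool.Agent.NQL
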