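import Pool.Agent.NQL.Defs
import Pool.Agent.NQL.ABas
import Pool.Agent.NQL.BNom
import Pool.Agent.NQL.BFul
import Pool.Agent.NQL.DMcd
import Pool.Agent.NQL.DIns
import Pool.Agent.NQL.DExp
import Pool.Agent.NQL.DLip
import Pool.Agent.NQL.DDev
import Pool.Agent.NQL.DDvG
import Pool.Agent.NQL.DPai
import Pool.Agent.NQL.DTyD

/-!
# NQL-DBaK: the proportion of bad instances of size `k`
-/

set_option autoImplicit false

open Finset

namespace Pool.Agent.NQL

open Pool.Agent.NQ (board dsum F Ent Dg phi ln Q Qset QS NonAtt bern)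
open Pool.Agent.NQR (Adm Opt Bd Rf hS hD hh InR)

open Classical in
/-- the proportion of the `R` with property `E` -/
private noncomputable def bkc (N k : ℕ) (P : Finset (ℤ × ℤ)) (E : Finset (ℤ × ℤ) → Prop) : ℝ :=
  (((P.powersetCard k).filter E).card : ℝ) / (N.choose k : ℕ)

private theorem bkc_sum {ι : Type*} {N k : ℕ} {P : Finset (ℤ × ℤ)} {E : Finset (ℤ × ℤ) → Prop}
    (S : Finset ι) (F : ι → Finset (ℤ × ℤ) → Prop)
    (h : ∀ R, R ⊆ P → R.card = k → E R → ∃ i ∈ S, F i R) :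
    bkc N k P E ≤ ∑ i ∈ S, bkc N k P (F i) := by
  classical
  unfold bkc
  rw [← Finset.sum_div]
  refine div_le_div_of_nonneg_right ?_ (Nat.cast_nonneg _)
  have h1 : (P.powersetCard k).filter E ⊆ S.biUnion (fun i => (P.powersetCard k).filter (F i)) := by
    intro R hR
    rw [Finset.mem_filter, Finset.mem_powersetCard] at hR
    obtain ⟨i, hi, hF⟩ := h R hR.1.1 hR.1.2 hR.2
    rw [Finset.mem_biUnion]
    refine ⟨i, hi, ?_⟩
    rw [Finset.mem_filter, Finset.mem_powersetCard]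
    exact ⟨hR.1, hF⟩
  have h2 := (Finset.card_le_card h1).trans Finset.card_biUnion_le
  exact_mod_cast h2

private theorem bkc_four {N k : ℕ} {P : Finset (ℤ × ℤ)} {E E1 E2 E3 E4 : Finset (ℤ × ℤ) → Prop}
    (h : ∀ R, R ⊆ P → R.card = k → E R → E1 R ∨ E2 R ∨ E3 R ∨ E4 R) :
    bkc N k P E ≤ bkc N k P E1 + bkc N k P E2 + bkc N k P E3 + bkc N k P E4 := by
  have h1 := bkc_sum (N := N) (P := P) (E := E) (k := k) (Finset.univ : Finset (Fin 4))
    (fun i => ![E1, E2, E3, E4] i) (by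
      intro R h2 h3 h4
      rcases h R h2 h3 h4 with h5 | h5 | h5 | h5
      · exact ⟨0, Finset.mem_univ _, h5⟩
      · exact ⟨1, Finset.mem_univ _, h5⟩
      · exact ⟨2, Finset.mem_univ _, h5⟩
      · exact ⟨3, Finset.mem_univ _, h5⟩)
  rw [Fin.sum_univ_four] at h1
  exact h1

private theorem bkc_false {N k : ℕ} {P : Finset (ℤ × ℤ)} {E : Finset (ℤ × ℤ) → Prop}
    (h : ∀ R, R ⊆ P → R.card = k → ¬ E R) : bkc N k P E = 0 := by
  classical
  unfold bkc
  have h1 : (P.powersetCard k).filter E = ∅ := by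
    rw [Finset.filter_eq_empty_iff]
    intro R hR
    rw [Finset.mem_powersetCard] at hR
    exact h R hR.1 hR.2
  rw [h1]
  simp

private theorem bk_inst {ι : Type*} (i1 i2 : DecidableEq ι) (A : Finset ι) (p : ι → ℝ)
    (T : Finset ι) : @bern ι i1 A p T = @bern ι i2 A p T := by
  have h : i1 = i2 := Subsingleton.elim _ _
  subst h
  rfl

private theorem bkc_bern {N k : ℕ} {P : Finset (ℤ × ℤ)} (hP : P.card = N) (hk : 1 ≤ k)
    (hkN : k < N) {E : Finset (ℤ × ℤ) → Prop} [DecidablePred E] {b : ℝ}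
    (h : ∑ R ∈ P.powerset.filter E, bern P (fun _ => (k : ℝ) / N) R ≤ b) :
    bkc N k P E ≤ 3 * k * b := by
  have h1 := sub_bern P hP hk hkN E
  unfold bkc
  refine h1.trans (mul_le_mul_of_nonneg_left ?_ (by positivity))
  refine le_trans (le_of_eq ?_) h
  refine Finset.sum_congr ?_ fun R _ => bk_inst _ _ _ _ _
  ext R
  simp only [Finset.mem_filter]

private theorem bk_rc_card {N : ℕ} (hN : 1 ≤ N) : ((full N).filter (fun l => rc l)).card ≤ 2 * N := by
  classical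
  have hv := vd_full hN
  have h0 := hv.crc 0 (by decide)
  have h1 := hv.crc 1 (by decide)
  have h2 : (full N).filter (fun l => rc l) ⊆
      (full N).filter (fun l => l.1 = 0) ∪ (full N).filter (fun l => l.1 = 1) := by
    intro l hl
    rw [Finset.mem_filter] at hl
    rw [Finset.mem_union, Finset.mem_filter, Finset.mem_filter]
    have h3 : (l.1 : ℕ) < 2 := hl.2
    have h4 : (l.1 : ℕ) = 0 ∨ (l.1 : ℕ) = 1 := by omega
    rcases h4 with h4 | h4
    · exact Or.inl ⟨hl.1, Fin.ext h4⟩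
    · exact Or.inr ⟨hl.1, Fin.ext h4⟩
  have h5 := (Finset.card_le_card h2).trans (Finset.card_union_le _ _)
  omega

private theorem bk_dg_card {N : ℕ} (hN : 1 ≤ N) :
    ((full N).filter (fun l => ¬ rc l)).card ≤ 4 * N := by
  classical
  have hv := vd_full hN
  have h0 := hv.cdg 2 (by decide)
  have h1 := hv.cdg 3 (by decide)
  have h2 : (full N).filter (fun l => ¬ rc l) ⊆
      (full N).filter (fun l => l.1 = 2) ∪ (full N).filter (fun l => l.1 = 3) := by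
    intro l hl
    rw [Finset.mem_filter] at hl
    rw [Finset.mem_union, Finset.mem_filter, Finset.mem_filter]
    have h3 : ¬ (l.1 : ℕ) < 2 := hl.2
    have h6 := l.1.isLt
    have h4 : (l.1 : ℕ) = 2 ∨ (l.1 : ℕ) = 3 := by omega
    rcases h4 with h4 | h4
    · exact Or.inl ⟨hl.1, Fin.ext h4⟩
    · exact Or.inr ⟨hl.1, Fin.ext h4⟩
  have h5 := (Finset.card_le_card h2).trans (Finset.card_union_le _ _)
  omega

/-- expected mass of a diagonal -/
private theorem bk_fl {L : ℝ} (hL : 1 ≤ L) {N k : ℕ} {W : ℤ × ℤ → ℝ} {A B : ℤ → ℝ}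
    (hR : Rf L N W A B) (hk : 1 ≤ k) (hkN : k ≤ N) {P : Finset (ℤ × ℤ)} (hP : P ∈ Qset N) {l : Li}
    (hl : l ∈ full N) (hd : ¬ rc l) : fl N W k P l ≤ L ^ 3 * k / N := by
  classical
  have hN : 1 ≤ N := hk.trans hkN
  have hNr : (0 : ℝ) < N := by exact_mod_cast hN
  have hkr : (0 : ℝ) < k := by exact_mod_cast hk
  have ht0 : (0 : ℝ) ≤ (k : ℝ) / N := by positivity
  have ht1 : (k : ℝ) / N ≤ 1 := by
    rw [div_le_one hNr]
    exact_mod_cast hkN
  have hcard : ((board N).filter (fun e => On e l)).card ≤ N := by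
    have h1 := Sl_card (vd_full hN) hl
    unfold Sl at h1
    rw [Sq_full] at h1
    exact h1
  unfold fl
  have hterm : ∀ e ∈ (board N).filter (fun e => On e l), Wn N W k e *
      ∏ k' ∈ Finset.univ.erase l.1, (if ∃ q ∈ P, On q (k', ln k' e) then (k : ℝ) / N else 1) ≤
      L ^ 3 / k * ((k : ℝ) / N) ^ 2 := by
    intro e he
    rw [Finset.mem_filter] at he
    have hw := wn_bd hL hR hk hkN he.1
    have hw0 : 0 ≤ Wn N W k e := le_trans (by positivity) hw.1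
    have hocc : ∀ k' : Fin 4, (k' : ℕ) < 2 → (∃ q ∈ P, On q (k', ln k' e)) := by
      intro k' hk'
      refine rc_occ hP ?_ hk'
      exact mem_full.2 ⟨e, he.1, rfl⟩
    have hpr : ∏ k' ∈ Finset.univ.erase l.1,
        (if ∃ q ∈ P, On q (k', ln k' e) then (k : ℝ) / N else 1) ≤ ((k : ℝ) / N) ^ 2 := by
      have h3 : ¬ (l.1 : ℕ) < 2 := hd
      have hsub : ({0, 1} : Finset (Fin 4)) ⊆ Finset.univ.erase l.1 := by
        intro x hx
        rw [Finset.mem_erase]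
        refine ⟨fun h => ?_, Finset.mem_univ _⟩
        rw [← h] at h3
        rw [Finset.mem_insert, Finset.mem_singleton] at hx
        rcases hx with rfl | rfl
        · exact h3 (by decide)
        · exact h3 (by decide)
      rw [← Finset.prod_sdiff hsub]
      have e1 : ∏ k' ∈ ({0, 1} : Finset (Fin 4)),
          (if ∃ q ∈ P, On q (k', ln k' e) then (k : ℝ) / N else 1) = ((k : ℝ) / N) ^ 2 := by
        rw [Finset.prod_insert (by decide), Finset.prod_singleton, if_pos (hocc 0 (by decide)),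
          if_pos (hocc 1 (by decide)), sq]
      rw [e1]
      have e2 : ∏ k' ∈ Finset.univ.erase l.1 \ ({0, 1} : Finset (Fin 4)),
          (if ∃ q ∈ P, On q (k', ln k' e) then (k : ℝ) / N else 1) ≤ 1 := by
        refine Finset.prod_le_one (fun i _ => ?_) fun i _ => ?_
        · split_ifs
          · exact ht0
          · exact zero_le_one
        · split_ifs
          · exact ht1
          · exact le_rfl
      calc _ ≤ 1 * ((k : ℝ) / N) ^ 2 := mul_le_mul_of_nonneg_right e2 (by positivity)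
        _ = ((k : ℝ) / N) ^ 2 := one_mul _
    have hpr0 : 0 ≤ ∏ k' ∈ Finset.univ.erase l.1,
        (if ∃ q ∈ P, On q (k', ln k' e) then (k : ℝ) / N else 1) := by
      refine Finset.prod_nonneg fun i _ => ?_
      split_ifs
      · exact ht0
      · exact zero_le_one
    exact mul_le_mul hw.2 hpr hpr0 (by positivity)
  refine (Finset.sum_le_sum hterm).trans ?_
  rw [Finset.sum_const, nsmul_eq_mul]
  have h5 : (((board N).filter (fun e => On e l)).card : ℝ) ≤ N := by exact_mod_cast hcard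
  calc (((board N).filter (fun e => On e l)).card : ℝ) * (L ^ 3 / k * ((k : ℝ) / N) ^ 2)
      ≤ N * (L ^ 3 / k * ((k : ℝ) / N) ^ 2) := mul_le_mul_of_nonneg_right h5 (by positivity)
    _ = L ^ 3 * k / N := by
        field_simp

/-- mass of a line with at most one free square -/
private theorem bk_one {L : ℝ} (hL : 1 ≤ L) {N k : ℕ} {W : ℤ × ℤ → ℝ} {A B : ℤ → ℝ}
    (hR : Rf L N W A B) (hk : 1 ≤ k) (hkN : k ≤ N) {I : Finset Li} {l : Li}
    (h : (Sl N I l).card ≤ 1) : YY N W k I l ≤ L ^ 3 / k := by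
  classical
  have hkr : (0 : ℝ) < k := by exact_mod_cast hk
  unfold YY
  have h1 : ∀ e ∈ Sl N I l, Wn N W k e ≤ L ^ 3 / k := by
    intro e he
    have h2 : e ∈ board N := (mem_Sq.1 (mem_Sl.1 he).1).1
    exact (wn_bd hL hR hk hkN h2).2
  refine (Finset.sum_le_sum h1).trans ?_
  rw [Finset.sum_const, nsmul_eq_mul]
  have h3 : ((Sl N I l).card : ℝ) ≤ 1 := by exact_mod_cast h
  have h4 : 0 ≤ L ^ 3 / (k : ℝ) := by positivity
  nlinarith

private theorem bk_rpow {k : ℕ} (hk : 1 ≤ k) : 1 / (k : ℝ) ≤ (k : ℝ) ^ (-(1 / 4) : ℝ) := by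
  have hkr : (1 : ℝ) ≤ k := by exact_mod_cast hk
  have h1 : (1 : ℝ) / k = (k : ℝ) ^ (-1 : ℝ) := by
    rw [Real.rpow_neg_one, one_div]
  rw [h1]
  exact Real.rpow_le_rpow_of_exponent_le hkr (by norm_num)

private theorem bk_rpow_sq {k : ℕ} (hk : 1 ≤ k) :
    ((k : ℝ) ^ (-(1 / 4) : ℝ)) ^ 2 * k = Real.sqrt k := by
  have hkr : (0 : ℝ) < k := by exact_mod_cast hk
  rw [← Real.rpow_natCast, ← Real.rpow_mul hkr.le]
  have h1 : ((k : ℝ) ^ (-(1 / 4) * ((2 : ℕ) : ℝ) : ℝ)) * k =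
      (k : ℝ) ^ (-(1 / 4) * ((2 : ℕ) : ℝ) : ℝ) * (k : ℝ) ^ (1 : ℝ) := by
    rw [Real.rpow_one]
  rw [h1, ← Real.rpow_add hkr, Real.sqrt_eq_rpow]
  congr 1
  norm_num

private theorem bk_lines {L : ℝ} (hL : 1 ≤ L) {N k : ℕ} {W : ℤ × ℤ → ℝ} {A B : ℤ → ℝ}
    (hR : Rf L N W A B) (hk : 1 ≤ k) (hkN : k < N) {P : Finset (ℤ × ℤ)} (hP : P ∈ Qset N)
    (hPc : P.card = N) {lam : ℝ} (h0 : 0 < lam) (h1 : lam ≤ 1) {E : Finset (ℤ × ℤ) → Prop}
    (h : ∀ R, R ⊆ P → R.card = k → E R → ∃ l ∈ (full N).filter (fun l => ¬ rc l),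
      l ∈ rmS (full N) (P \ R) ∧
        lam + L ^ 3 / k < |YY N W k (rmS (full N) (P \ R)) l - fl N W k P l|) :
    bkc N k P E ≤ 24 * (k : ℝ) * N * Real.exp (-(lam ^ 2 * k / (36 * L ^ 6))) := by
  classical
  have hN : 1 ≤ N := hk.trans hkN.le
  refine (bkc_sum _ _ h).trans ?_
  have h2 : ∀ l ∈ (full N).filter (fun l => ¬ rc l), bkc N k P (fun R =>
      l ∈ rmS (full N) (P \ R) ∧
        lam + L ^ 3 / k < |YY N W k (rmS (full N) (P \ R)) l - fl N W k P l|) ≤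
      3 * k * (1 * (2 * Real.exp (-(lam ^ 2 * k / (36 * L ^ 6))))) := by
    intro l hl
    rw [Finset.mem_filter] at hl
    have h3 := dev_line hL hR hk hkN.le hP hl.1 h0 h1
    rw [if_neg hl.2] at h3
    exact bkc_bern hPc hk hkN h3
  refine (Finset.sum_le_sum h2).trans ?_
  rw [Finset.sum_const, nsmul_eq_mul]
  have h4 : (((full N).filter (fun l => ¬ rc l)).card : ℝ) ≤ 4 * N := by
    exact_mod_cast bk_dg_card hN
  have h5 := Real.exp_pos (-(lam ^ 2 * k / (36 * L ^ 6)))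
  calc (((full N).filter (fun l => ¬ rc l)).card : ℝ) *
        (3 * k * (1 * (2 * Real.exp (-(lam ^ 2 * k / (36 * L ^ 6))))))
      ≤ (4 * N) * (3 * k * (1 * (2 * Real.exp (-(lam ^ 2 * k / (36 * L ^ 6)))))) :=
        mul_le_mul_of_nonneg_right h4 (by positivity)
    _ = 24 * (k : ℝ) * N * Real.exp (-(lam ^ 2 * k / (36 * L ^ 6))) := by ring

private theorem bk_rcs {L : ℝ} (hL : 1 ≤ L) {N k : ℕ} {W : ℤ × ℤ → ℝ} {A B : ℤ → ℝ}
    (hR : Rf L N W A B) (hk : 1 ≤ k) (hkN : k < N) {P : Finset (ℤ × ℤ)} (hP : P ∈ Qset N)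
    (hPc : P.card = N) {lam : ℝ} (h0 : 0 < lam) (h1 : lam ≤ 1) {E : Finset (ℤ × ℤ) → Prop}
    (h : ∀ R, R ⊆ P → R.card = k → E R → ∃ l ∈ (full N).filter (fun l => rc l),
      l ∈ rmS (full N) (P \ R) ∧
        lam + L ^ 3 / k < |YY N W k (rmS (full N) (P \ R)) l - fl N W k P l|) :
    bkc N k P E ≤ 12 * (k : ℝ) ^ 2 * Real.exp (-(lam ^ 2 * k / (36 * L ^ 6))) := by
  classical
  have hN : 1 ≤ N := hk.trans hkN.le
  have hNr : (0 : ℝ) < N := by exact_mod_cast hN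
  refine (bkc_sum _ _ h).trans ?_
  have h2 : ∀ l ∈ (full N).filter (fun l => rc l), bkc N k P (fun R =>
      l ∈ rmS (full N) (P \ R) ∧
        lam + L ^ 3 / k < |YY N W k (rmS (full N) (P \ R)) l - fl N W k P l|) ≤
      3 * k * ((k : ℝ) / N * (2 * Real.exp (-(lam ^ 2 * k / (36 * L ^ 6))))) := by
    intro l hl
    rw [Finset.mem_filter] at hl
    have h3 := dev_line hL hR hk hkN.le hP hl.1 h0 h1
    rw [if_pos hl.2] at h3
    exact bkc_bern hPc hk hkN h3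
  refine (Finset.sum_le_sum h2).trans ?_
  rw [Finset.sum_const, nsmul_eq_mul]
  have h4 : (((full N).filter (fun l => rc l)).card : ℝ) ≤ 2 * N := by
    exact_mod_cast bk_rc_card hN
  have h5 := Real.exp_pos (-(lam ^ 2 * k / (36 * L ^ 6)))
  calc (((full N).filter (fun l => rc l)).card : ℝ) *
        (3 * k * ((k : ℝ) / N * (2 * Real.exp (-(lam ^ 2 * k / (36 * L ^ 6))))))
      ≤ (2 * N) * (3 * k * ((k : ℝ) / N * (2 * Real.exp (-(lam ^ 2 * k / (36 * L ^ 6)))))) :=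
        mul_le_mul_of_nonneg_right h4 (by positivity)
    _ = 12 * (k : ℝ) ^ 2 * Real.exp (-(lam ^ 2 * k / (36 * L ^ 6))) := by
        field_simp
        ring

private theorem bk_cgs {L : ℝ} (hL : 1 ≤ L) {N k : ℕ} {W : ℤ × ℤ → ℝ} {A B : ℤ → ℝ}
    (hR : Rf L N W A B) (hk : 1 ≤ k) (hkN : k < N) {P : Finset (ℤ × ℤ)} (hP : P ∈ Qset N)
    (hPc : P.card = N) {lam : ℝ} (h0 : 0 < lam) (h1 : lam ≤ 1) {E : Finset (ℤ × ℤ) → Prop}
    (h : ∀ R, R ⊆ P → R.card = k → E R → ∃ x x' : ℤ, 0 ≤ x ∧ x < N ∧ 0 ≤ x' ∧ x' < N ∧ x ≠ x' ∧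
      ((0, x) : Li) ∈ rmS (full N) (P \ R) ∧ ((0, x') : Li) ∈ rmS (full N) (P \ R) ∧
         Cg N W k (rmS (full N) (P \ R)) x x' < fg N W k P x x' - lam - 2 * L ^ 6 / k) :
    bkc N k P E ≤ 3 * (k : ℝ) ^ 3 * Real.exp (-(lam ^ 2 * k / (100 * L ^ 12))) := by
  classical
  have hN : 1 ≤ N := hk.trans hkN.le
  have hNr : (0 : ℝ) < N := by exact_mod_cast hN
  have h' : ∀ R, R ⊆ P → R.card = k → E R →
      ∃ i ∈ (Finset.Ico (0 : ℤ) N ×ˢ Finset.Ico (0 : ℤ) N).filter (fun i => i.1 ≠ i.2),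
      ((0, i.1) : Li) ∈ rmS (full N) (P \ R) ∧ ((0, i.2) : Li) ∈ rmS (full N) (P \ R) ∧
         Cg N W k (rmS (full N) (P \ R)) i.1 i.2 < fg N W k P i.1 i.2 - lam - 2 * L ^ 6 / k := by
    intro R a1 a2 a3
    obtain ⟨x, x', b1, b2, b3, b4, b5, b6⟩ := h R a1 a2 a3
    refine ⟨(x, x'), ?_, b6⟩
    rw [Finset.mem_filter, Finset.mem_product, Finset.mem_Ico, Finset.mem_Ico]
    exact ⟨⟨⟨b1, b2⟩, ⟨b3, b4⟩⟩, b5⟩
  refine (bkc_sum _ _ h').trans ?_
  have h2 : ∀ i ∈ (Finset.Ico (0 : ℤ) N ×ˢ Finset.Ico (0 : ℤ) N).filter (fun i => i.1 ≠ i.2),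
      bkc N k P (fun R => ((0, i.1) : Li) ∈ rmS (full N) (P \ R) ∧
        ((0, i.2) : Li) ∈ rmS (full N) (P \ R) ∧
         Cg N W k (rmS (full N) (P \ R)) i.1 i.2 < fg N W k P i.1 i.2 - lam - 2 * L ^ 6 / k) ≤
      3 * k * (((k : ℝ) / N) ^ 2 * Real.exp (-(lam ^ 2 * k / (100 * L ^ 12)))) := by
    intro i hi
    rw [Finset.mem_filter, Finset.mem_product, Finset.mem_Ico, Finset.mem_Ico] at hi
    have h3 := dev_cg hL hR hk hkN.le hP hi.1.1 hi.1.2 hi.2 h0 h1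
    exact bkc_bern hPc hk hkN h3
  refine (Finset.sum_le_sum h2).trans ?_
  rw [Finset.sum_const, nsmul_eq_mul]
  have h4 : (((Finset.Ico (0 : ℤ) N ×ˢ Finset.Ico (0 : ℤ) N).filter
      (fun i => i.1 ≠ i.2)).card : ℝ) ≤ N ^ 2 := by
    have h6 : ((Finset.Ico (0 : ℤ) N ×ˢ Finset.Ico (0 : ℤ) N).filter
        (fun i => i.1 ≠ i.2)).card ≤ N ^ 2 := by
      refine (Finset.card_filter_le _ _).trans ?_
      rw [Finset.card_product, Int.card_Ico, sub_zero, Int.toNat_natCast, sq]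
    exact_mod_cast h6
  have h5 := Real.exp_pos (-(lam ^ 2 * k / (100 * L ^ 12)))
  calc (((Finset.Ico (0 : ℤ) N ×ˢ Finset.Ico (0 : ℤ) N).filter
      (fun i => i.1 ≠ i.2)).card : ℝ) *
        (3 * k * (((k : ℝ) / N) ^ 2 * Real.exp (-(lam ^ 2 * k / (100 * L ^ 12)))))
      ≤ (N ^ 2) * (3 * k * (((k : ℝ) / N) ^ 2 * Real.exp (-(lam ^ 2 * k / (100 * L ^ 12))))) :=
        mul_le_mul_of_nonneg_right h4 (by positivity)
    _ = 3 * (k : ℝ) ^ 3 * Real.exp (-(lam ^ 2 * k / (100 * L ^ 12))) := by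
        field_simp

open Classical in
theorem bad_k (L ε t1 ε' : ℝ) (hL : 1 ≤ L) (hε : 0 < ε) (hε1 : ε ≤ 1) (ht : 0 < t1) (hε' : 0 < ε')
    (hε'1 : ε' ≤ 1) : ∃ tol : ℝ, 0 < tol ∧ ∃ m0 : ℕ, 1 ≤ m0 ∧ ∀ (N k : ℕ) (W : ℤ × ℤ → ℝ) (A B : ℤ → ℝ), m0 ≤ k → k < N →
    Rf L N W A B → ∀ P ∈ Qset N, Typ L tol N W P →
      (((P.powersetCard k).filter (fun R =>
        ¬ Good L ε t1 ε' N k W (rmS (full N) (P \ R)))).card : ℝ) / (N.choose k : ℕ) ≤
      12 * (k : ℝ) ^ 2 * Real.exp (-(ε ^ 2 * k / (144 * L ^ 6))) +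
      (if t1 * N ≤ (k : ℝ) then 24 * (k : ℝ) * N * Real.exp (-(ε' ^ 2 * k / (144 * L ^ 6))) else 0) +
      (if k ^ 6 ≤ N then 12 * (k : ℝ) ^ 4 / N else 24 * (k : ℝ) * N * Real.exp (-(Real.sqrt k / (36 * L ^ 6)))) +
      3 * (k : ℝ) ^ 3 * Real.exp (-(k / (1600 * L ^ 16))) := by
  obtain ⟨m0, hm0⟩ := exists_nat_ge (max (8 * L ^ 3 / ε) (max (8 * L ^ 3 / ε') (16 * L ^ 8)))
  refine ⟨min (ε / 8) (min (ε' / 8) (1 / (8 * L ^ 2))), by positivity, max m0 1, le_max_right _ _, ?_⟩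
  intro N k W A B hmk hkN hRf P hP hT
  have hk : 1 ≤ k := (le_max_right _ _).trans hmk
  have hkm : m0 ≤ k := (le_max_left _ _).trans hmk
  have hN : 1 ≤ N := hk.trans hkN.le
  have hkr : (0 : ℝ) < k := by exact_mod_cast hk
  have hNr : (0 : ℝ) < N := by exact_mod_cast hN
  have hkm' : max (8 * L ^ 3 / ε) (max (8 * L ^ 3 / ε') (16 * L ^ 8)) ≤ (k : ℝ) :=
    hm0.trans (by exact_mod_cast hkm)
  have hL0 : 0 < L := by linarith
  have c1 : L ^ 3 / k ≤ ε / 8 := by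
    have h1 : 8 * L ^ 3 / ε ≤ k := (le_max_left _ _).trans hkm'
    rw [div_le_iff₀ hε] at h1
    rw [div_le_iff₀ hkr]
    linarith
  have c2 : L ^ 3 / k ≤ ε' / 8 := by
    have h1 : 8 * L ^ 3 / ε' ≤ k := ((le_max_left _ _).trans (le_max_right _ _)).trans hkm'
    rw [div_le_iff₀ hε'] at h1
    rw [div_le_iff₀ hkr]
    linarith
  have c3 : 2 * L ^ 6 / k ≤ 1 / (8 * L ^ 2) := by
    have h1 : 16 * L ^ 8 ≤ k := ((le_max_right _ _).trans (le_max_right _ _)).trans hkm'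
    rw [div_le_div_iff₀ hkr (by positivity)]
    have e : 2 * L ^ 6 * (8 * L ^ 2) = 16 * L ^ 8 := by ring
    rw [e]
    linarith
  have hPc : P.card = N := (Pool.Agent.NQ.mem_Qset.1 hP).2.1
  have tol1 : min (ε / 8) (min (ε' / 8) (1 / (8 * L ^ 2))) ≤ ε / 8 := min_le_left _ _
  have tol2 : min (ε / 8) (min (ε' / 8) (1 / (8 * L ^ 2))) ≤ ε' / 8 :=
    (min_le_right _ _).trans (min_le_left _ _)
  have tol3 : min (ε / 8) (min (ε' / 8) (1 / (8 * L ^ 2))) ≤ 1 / (8 * L ^ 2) :=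
    (min_le_right _ _).trans (min_le_right _ _)
  have hfull : ∀ R : Finset (ℤ × ℤ), ∀ l ∈ rmS (full N) (P \ R), l ∈ full N := fun R l hl =>
    (mem_rmS.1 hl).1
  have hq := bk_rpow hk
  have hq0 : 0 < (k : ℝ) ^ (-(1 / 4) : ℝ) := Real.rpow_pos_of_pos hkr _
  have hL3 : 1 ≤ L ^ 3 := one_le_pow₀ hL
  have hLk : L ^ 3 / (k : ℝ) ≤ L ^ 3 * (k : ℝ) ^ (-(1 / 4) : ℝ) := by
    have h1 : L ^ 3 / (k : ℝ) = L ^ 3 * (1 / k) := by ring
    rw [h1]
    exact mul_le_mul_of_nonneg_left hq (by positivity)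
  -- the four kinds of failure
  have main : bkc N k P (fun R => ¬ Good L ε t1 ε' N k W (rmS (full N) (P \ R))) ≤
      bkc N k P (fun R => ∃ l ∈ rmS (full N) (P \ R), rc l ∧
        ε < |YY N W k (rmS (full N) (P \ R)) l - 1|) +
      bkc N k P (fun R => t1 * N ≤ k ∧ ∃ l ∈ rmS (full N) (P \ R), ¬ rc l ∧
        ε' < |YY N W k (rmS (full N) (P \ R)) l - TT N W k l|) +
      bkc N k P (fun R => ∃ l ∈ rmS (full N) (P \ R), ¬ rc l ∧
        8 * L ^ 3 * ((k : ℝ) / N + (k : ℝ) ^ (-(1 / 4) : ℝ)) <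
          YY N W k (rmS (full N) (P \ R)) l) +
      bkc N k P (fun R => ∃ x x' : ℤ, ((0, x) : Li) ∈ rmS (full N) (P \ R) ∧
        ((0, x') : Li) ∈ rmS (full N) (P \ R) ∧ x ≠ x' ∧
          Cg N W k (rmS (full N) (P \ R)) x x' < 1 / (2 * L ^ 2)) := by
    refine bkc_four fun R hRP hRk hbad => ?_
    by_contra hcon
    push Not at hcon
    obtain ⟨g1, g2, g3, g4⟩ := hcon
    exact hbad
      { vd := vd_rmS hN hP hRP hRk
        lrc := fun l hl h => g1 l hl h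
        ldg := fun h l hl h' => g2 h l hl h'
        lmi := fun l hl h => g3 l hl h
        cg := fun x x' h1 h2 h3 => g4 x x' h1 h2 h3 }
  have b1 : bkc N k P (fun R => ∃ l ∈ rmS (full N) (P \ R), rc l ∧
        ε < |YY N W k (rmS (full N) (P \ R)) l - 1|) ≤
      12 * (k : ℝ) ^ 2 * Real.exp (-(ε ^ 2 * k / (144 * L ^ 6))) := by
    have h1 := bk_rcs hL hRf hk hkN hP hPc (lam := ε / 2) (by linarith) (by linarith)
      (E := fun R => ∃ l ∈ rmS (full N) (P \ R), rc l ∧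
        ε < |YY N W k (rmS (full N) (P \ R)) l - 1|) (by
        rintro R - - ⟨l, hl, hrc, hY⟩
        refine ⟨l, Finset.mem_filter.2 ⟨hfull R l hl, hrc⟩, hl, ?_⟩
        have h2 := hT.1 k hk hkN.le l (hfull R l hl)
        rw [tt_rc hrc] at h2
        have h3 : |YY N W k (rmS (full N) (P \ R)) l - 1| ≤
            |YY N W k (rmS (full N) (P \ R)) l - fl N W k P l| + |fl N W k P l - 1| :=
          abs_sub_le _ _ _
        linarith)
    have e : (ε / 2) ^ 2 * (k : ℝ) / (36 * L ^ 6) = ε ^ 2 * k / (144 * L ^ 6) := by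
      field_simp
      ring
    rw [e] at h1
    exact h1
  have b2 : bkc N k P (fun R => t1 * N ≤ k ∧ ∃ l ∈ rmS (full N) (P \ R), ¬ rc l ∧
        ε' < |YY N W k (rmS (full N) (P \ R)) l - TT N W k l|) ≤
      (if t1 * N ≤ (k : ℝ) then 24 * (k : ℝ) * N * Real.exp (-(ε' ^ 2 * k / (144 * L ^ 6)))
        else 0) := by
    split_ifs with ht1
    · have h1 := bk_lines hL hRf hk hkN hP hPc (lam := ε' / 2) (by linarith) (by linarith)
        (E := fun R => t1 * N ≤ k ∧ ∃ l ∈ rmS (full N) (P \ R), ¬ rc l ∧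
          ε' < |YY N W k (rmS (full N) (P \ R)) l - TT N W k l|) (by
          rintro R - - ⟨-, l, hl, hrc, hY⟩
          refine ⟨l, Finset.mem_filter.2 ⟨hfull R l hl, hrc⟩, hl, ?_⟩
          have h2 := hT.1 k hk hkN.le l (hfull R l hl)
          have h3 : |YY N W k (rmS (full N) (P \ R)) l - TT N W k l| ≤
              |YY N W k (rmS (full N) (P \ R)) l - fl N W k P l| +
                |fl N W k P l - TT N W k l| := abs_sub_le _ _ _
          linarith)
      have e : (ε' / 2) ^ 2 * (k : ℝ) / (36 * L ^ 6) = ε' ^ 2 * k / (144 * L ^ 6) := by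
        field_simp
        ring
      rw [e] at h1
      exact h1
    · exact (bkc_false fun R _ _ h => ht1 h.1).le
  have b3 : bkc N k P (fun R => ∃ l ∈ rmS (full N) (P \ R), ¬ rc l ∧
        8 * L ^ 3 * ((k : ℝ) / N + (k : ℝ) ^ (-(1 / 4) : ℝ)) <
          YY N W k (rmS (full N) (P \ R)) l) ≤
      (if k ^ 6 ≤ N then 12 * (k : ℝ) ^ 4 / N
        else 24 * (k : ℝ) * N * Real.exp (-(Real.sqrt k / (36 * L ^ 6)))) := by
    split_ifs with hk6
    · refine le_trans ?_ (pairs_le hN hk hkN.le hP)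
      unfold bkc
      refine div_le_div_of_nonneg_right ?_ (Nat.cast_nonneg _)
      refine Nat.cast_le.2 (Finset.card_le_card ?_)
      intro R hR
      simp only [Finset.mem_filter] at hR ⊢
      obtain ⟨hR1, l, hl, hrc, hY⟩ := hR
      refine ⟨hR1, l, hl, hrc, ?_⟩
      by_contra hlt
      have h2 : (Sl N (rmS (full N) (P \ R)) l).card ≤ 1 := by omega
      have h3 := bk_one hL hRf hk hkN.le h2
      have h4 : 0 ≤ L ^ 3 * ((k : ℝ) / N) := by positivity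
      have h5 : 0 < L ^ 3 * (k : ℝ) ^ (-(1 / 4) : ℝ) := by positivity
      have h6 : 8 * L ^ 3 * ((k : ℝ) / N + (k : ℝ) ^ (-(1 / 4) : ℝ)) =
          8 * (L ^ 3 * ((k : ℝ) / N)) + 8 * (L ^ 3 * (k : ℝ) ^ (-(1 / 4) : ℝ)) := by ring
      rw [h6] at hY
      linarith
    · have h1 := bk_lines hL hRf hk hkN hP hPc (lam := (k : ℝ) ^ (-(1 / 4) : ℝ)) hq0 (by
          have hk1 : (1 : ℝ) ≤ k := by exact_mod_cast hk
          exact Real.rpow_le_one_of_one_le_of_nonpos hk1 (by norm_num))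
        (E := fun R => ∃ l ∈ rmS (full N) (P \ R), ¬ rc l ∧
          8 * L ^ 3 * ((k : ℝ) / N + (k : ℝ) ^ (-(1 / 4) : ℝ)) <
            YY N W k (rmS (full N) (P \ R)) l) (by
          rintro R - - ⟨l, hl, hrc, hY⟩
          refine ⟨l, Finset.mem_filter.2 ⟨hfull R l hl, hrc⟩, hl, ?_⟩
          have h2 := bk_fl hL hRf hk hkN.le hP (hfull R l hl) hrc
          have h4 : 0 ≤ L ^ 3 * ((k : ℝ) / N) := by positivity
          have h5 : (k : ℝ) ^ (-(1 / 4) : ℝ) ≤ L ^ 3 * (k : ℝ) ^ (-(1 / 4) : ℝ) :=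
            le_mul_of_one_le_left hq0.le hL3
          have h6 : 8 * L ^ 3 * ((k : ℝ) / N + (k : ℝ) ^ (-(1 / 4) : ℝ)) =
              8 * (L ^ 3 * ((k : ℝ) / N)) + 8 * (L ^ 3 * (k : ℝ) ^ (-(1 / 4) : ℝ)) := by ring
          have h7 : L ^ 3 * (k : ℝ) / N = L ^ 3 * ((k : ℝ) / N) := by ring
          rw [h6] at hY
          rw [h7] at h2
          have h8 : YY N W k (rmS (full N) (P \ R)) l - fl N W k P l ≤
              |YY N W k (rmS (full N) (P \ R)) l - fl N W k P l| := le_abs_self _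
          linarith)
      rw [bk_rpow_sq hk] at h1
      exact h1
  have b4 : bkc N k P (fun R => ∃ x x' : ℤ, ((0, x) : Li) ∈ rmS (full N) (P \ R) ∧
        ((0, x') : Li) ∈ rmS (full N) (P \ R) ∧ x ≠ x' ∧
          Cg N W k (rmS (full N) (P \ R)) x x' < 1 / (2 * L ^ 2)) ≤
      3 * (k : ℝ) ^ 3 * Real.exp (-(k / (1600 * L ^ 16))) := by
    have hrow : ∀ x : ℤ, ((0, x) : Li) ∈ full N → 0 ≤ x ∧ x < N := by
      intro x hx
      obtain ⟨e, he, hex⟩ := mem_full.1 hx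
      unfold Pool.Agent.NQ.board at he
      rw [Finset.mem_product, Finset.mem_Ico] at he
      have h2 : e.1 = x := hex
      rw [← h2]
      exact he.1
    have hlam : 1 / (4 * L ^ 2) ≤ 1 := by
      rw [div_le_one (by positivity)]
      nlinarith [one_le_pow₀ (n := 2) hL]
    have h1 := bk_cgs hL hRf hk hkN hP hPc (lam := 1 / (4 * L ^ 2)) (by positivity) hlam
      (E := fun R => ∃ x x' : ℤ, ((0, x) : Li) ∈ rmS (full N) (P \ R) ∧
        ((0, x') : Li) ∈ rmS (full N) (P \ R) ∧ x ≠ x' ∧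
          Cg N W k (rmS (full N) (P \ R)) x x' < 1 / (2 * L ^ 2)) (by
        rintro R - - ⟨x, x', hx, hx', hne, hC⟩
        have r1 := hrow x (hfull R _ hx)
        have r2 := hrow x' (hfull R _ hx')
        refine ⟨x, x', r1.1, r1.2, r2.1, r2.2, hne, hx, hx', ?_⟩
        have h2 := hT.2 k hk hkN.le x x' r1.1 r1.2 r2.1 r2.2 hne
        have e1 : 1 / (2 * L ^ 2) = 1 / L ^ 2 * (1 / 2) := by
          field_simp
        have e2 : 1 / (4 * L ^ 2) = 1 / L ^ 2 * (1 / 4) := by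
          field_simp
        have e3 : 1 / (8 * L ^ 2) = 1 / L ^ 2 * (1 / 8) := by
          field_simp
        linarith)
    have e : (1 / (4 * L ^ 2)) ^ 2 * (k : ℝ) / (100 * L ^ 12) = k / (1600 * L ^ 16) := by
      field_simp
      ring
    rw [e] at h1
    exact h1
  have hfin := main.trans (add_le_add (add_le_add (add_le_add b1 b2) b3) b4)
  refine le_trans (le_of_eq ?_) hfin
  have e : ∀ (i1 i2 : DecidablePred (fun R : Finset (ℤ × ℤ) =>
      ¬ Good L ε t1 ε' N k W (rmS (full N) (P \ R)))),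
      ((@Finset.filter _ _ i1 (P.powersetCard k)).card : ℝ) =
        ((@Finset.filter _ _ i2 (P.powersetCard k)).card : ℝ) := by
    intro i1 i2
    have h : i1 = i2 := Subsingleton.elim _ _
    subst h
    rfl
  unfold bkc
  exact congrArg (fun x : ℝ => x / ((N.choose k : ℕ) : ℝ)) (e _ _)

end Pool.Agent.NQL
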