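import Pool.Agent.NQL.Defs
import Pool.Agent.NQL.ABas
import Pool.Agent.NQL.DCnt

/-!
# NQL-DRec: placements all of whose partial instances are good

`zu` counts pairs (placement, order of removal) such that all instances of size `≥ m0` satisfy `G`; `ab f k` is the average of `f` over the instances of size `k`.

`zu_le` is proved by induction from the recursions, `ab_eq` by induction from `pl_pairs` and the
exchange of the sums over the removed square and over the remaining placement.
-/

set_option autoImplicit false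

open Finset

namespace Pool.Agent.NQL

open Pool.Agent.NQ (board dsum F Ent Dg phi ln Q Qset QS NonAtt bern)
open Pool.Agent.NQR (Adm Opt Bd Rf hS hD hh InR)

open Classical in
/-- pairs (placement, order) with good instances down to size `m0` -/
noncomputable def zu (G : ℕ → Finset Li → Prop) (m0 N : ℕ) : ℕ → Finset Li → ℝ
  | 0, _ => 0
  | (m + 1), I => if G (m + 1) I then
      (if m + 1 ≤ m0 then zz N (m + 1) I else (∑ e ∈ Sq N I, zu G m0 N m (rm I e)) / (m + 1)) else 0

open Classical in
/-- average of `f` over the instances of size `k` -/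
noncomputable def ab (f : Finset Li → ℝ) (k N : ℕ) : ℕ → Finset Li → ℝ
  | 0, _ => 0
  | (m + 1), I => if m + 1 = k then f I * zz N (m + 1) I else
      if m + 1 < k then 0 else (∑ e ∈ Sq N I, ab f k N m (rm I e)) / (m + 1)

private theorem zz_nn (N m : ℕ) (I : Finset Li) : 0 ≤ zz N m I := by
  rw [zz_card]
  exact Nat.cast_nonneg _

private theorem ab_nn (f : Finset Li → ℝ) (hf : ∀ J, 0 ≤ f J) (k N m : ℕ) (I : Finset Li) :
    0 ≤ ab f k N m I := by
  induction m generalizing I with
  | zero => exact le_refl _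
  | succ m ih =>
    unfold ab
    split_ifs with h1 h2
    · exact mul_nonneg (hf I) (zz_nn _ _ _)
    · exact le_refl _
    · exact div_nonneg (Finset.sum_nonneg (fun e _ => ih _)) (by positivity)

private theorem ab_lt (f : Finset Li → ℝ) {k m : ℕ} (h : k ≤ m) (N : ℕ) (I : Finset Li) :
    ab f k N (m + 1) I = (∑ e ∈ Sq N I, ab f k N m (rm I e)) / (m + 1) := by
  rw [ab]
  rw [if_neg (by omega), if_neg (by omega)]

private theorem ab_self (f : Finset Li → ℝ) (m N : ℕ) (I : Finset Li) :
    ab f (m + 1) N (m + 1) I = f I * zz N (m + 1) I := by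
  rw [ab]
  rw [if_pos rfl]

open Classical in
theorem zu_le (G : ℕ → Finset Li → Prop) {m0 N m : ℕ} (h0 : 1 ≤ m0) (hm : m0 ≤ m) (I : Finset Li) :
    zz N m I - zu G m0 N m I ≤
      ∑ k ∈ Finset.Icc m0 m, ab (fun J => if G k J then 0 else 1) k N m I := by
  have hf : ∀ (k : ℕ) (J : Finset Li), (0 : ℝ) ≤ (fun J => if G k J then (0 : ℝ) else 1) J := by
    intro k J
    show (0 : ℝ) ≤ if G k J then (0 : ℝ) else 1
    split_ifs
    · exact le_refl _
    · exact zero_le_one
  induction m generalizing I with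
  | zero => omega
  | succ m ih =>
    have hnn : ∀ k ∈ Finset.Icc m0 (m + 1), 0 ≤ ab (fun J => if G k J then 0 else 1) k N (m + 1) I :=
      fun k _ => ab_nn _ (hf k) k N (m + 1) I
    by_cases hG : G (m + 1) I
    · by_cases h1 : m + 1 ≤ m0
      · have h2 : zu G m0 N (m + 1) I = zz N (m + 1) I := by
          rw [zu]
          rw [if_pos hG, if_pos h1]
        rw [h2, sub_self]
        exact Finset.sum_nonneg hnn
      · have h2 : zu G m0 N (m + 1) I = (∑ e ∈ Sq N I, zu G m0 N m (rm I e)) / (m + 1) := by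
          rw [zu]
          rw [if_pos hG, if_neg h1]
        have h3 : zz N (m + 1) I = (∑ e ∈ Sq N I, zz N m (rm I e)) / (m + 1) := rfl
        rw [h2, h3, ← sub_div, ← Finset.sum_sub_distrib]
        have h4 : Finset.Icc m0 (m + 1) = insert (m + 1) (Finset.Icc m0 m) := by
          ext k
          rw [Finset.mem_insert, Finset.mem_Icc, Finset.mem_Icc]
          omega
        rw [h4, Finset.sum_insert (by rw [Finset.mem_Icc]; omega)]
        have h5 := ab_nn (fun J => if G (m + 1) J then 0 else 1) (hf (m + 1)) (m + 1) N (m + 1) I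
        have h6 : ∑ k ∈ Finset.Icc m0 m, ab (fun J => if G k J then 0 else 1) k N (m + 1) I =
            (∑ e ∈ Sq N I, ∑ k ∈ Finset.Icc m0 m, ab (fun J => if G k J then 0 else 1) k N m (rm I e)) /
              (m + 1) := by
          rw [Finset.sum_comm, Finset.sum_div]
          refine Finset.sum_congr rfl (fun k hk => ?_)
          rw [Finset.mem_Icc] at hk
          exact ab_lt _ hk.2 N I
        have h7 : (∑ e ∈ Sq N I, (zz N m (rm I e) - zu G m0 N m (rm I e))) / ((m : ℝ) + 1) ≤
            (∑ e ∈ Sq N I, ∑ k ∈ Finset.Icc m0 m, ab (fun J => if G k J then 0 else 1) k N m (rm I e)) /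
              (m + 1) := by
          apply div_le_div_of_nonneg_right _ (by positivity)
          exact Finset.sum_le_sum (fun e _ => ih (by omega) (rm I e))
        linarith
    · have h2 : zu G m0 N (m + 1) I = 0 := by
        rw [zu]
        rw [if_neg hG]
      have h3 := Finset.single_le_sum hnn (Finset.mem_Icc.2 ⟨hm, le_refl (m + 1)⟩)
      rw [ab_self] at h3
      simp only [if_neg hG, one_mul] at h3
      rw [h2, sub_zero]
      exact h3

private theorem pl_mem {N m : ℕ} {I : Finset Li} {P : Finset (ℤ × ℤ)} :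
    P ∈ Pl N m I ↔ P ⊆ Sq N I ∧ P.card = m ∧ NonAtt P := by
  classical
  unfold Pl
  rw [Finset.mem_filter, Finset.mem_powersetCard]
  exact and_assoc

private theorem pl_not {N m : ℕ} {I : Finset Li} {P : Finset (ℤ × ℤ)} {e : ℤ × ℤ}
    (hP : P ∈ Pl N m (rm I e)) : e ∉ P := by
  intro h
  rw [pl_mem] at hP
  have h1 := hP.1 h
  rw [mem_Sq_rm] at h1
  exact h1.2 0 rfl

private theorem rmS_empty (I : Finset Li) : rmS I ∅ = I := by
  unfold rmS
  rw [Finset.filter_eq_self]
  intro l _ e he
  exact absurd he (Finset.notMem_empty e)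

private theorem rmS_rm (I : Finset Li) (e : ℤ × ℤ) (T : Finset (ℤ × ℤ)) :
    rmS (rm I e) T = rmS I (insert e T) := by
  unfold rmS rm
  ext l
  rw [Finset.mem_filter, Finset.mem_filter, Finset.mem_filter]
  constructor
  · rintro ⟨⟨h1, h2⟩, h3⟩
    refine ⟨h1, fun e' he' => ?_⟩
    rcases Finset.mem_insert.1 he' with h | h
    · rw [h]
      exact h2
    · exact h3 e' h
  · rintro ⟨h1, h2⟩
    exact ⟨⟨h1, h2 e (Finset.mem_insert_self _ _)⟩, fun e' he' => h2 e' (Finset.mem_insert_of_mem he')⟩

private theorem sum_swap {k n : ℕ} (P : Finset (ℤ × ℤ)) (hP : P.card = n + 1) (hk : k ≤ n)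
    (F : Finset (ℤ × ℤ) → ℝ) :
    ∑ e ∈ P, ∑ R ∈ (P.erase e).powersetCard k, F R =
      ((n + 1 - k : ℕ) : ℝ) * ∑ R ∈ P.powersetCard k, F R := by
  have h1 : ∑ e ∈ P, ∑ R ∈ (P.erase e).powersetCard k, F R =
      ∑ R ∈ P.powersetCard k, ∑ _e ∈ P \ R, F R := by
    apply Finset.sum_comm'
    intro e R
    rw [Finset.mem_powersetCard, Finset.mem_powersetCard, Finset.mem_sdiff, Finset.subset_erase]
    tauto
  rw [h1, Finset.mul_sum]
  refine Finset.sum_congr rfl (fun R hR => ?_)
  rw [Finset.mem_powersetCard] at hR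
  rw [Finset.sum_const, nsmul_eq_mul]
  have h2 := Finset.card_sdiff_add_card_eq_card hR.1
  have h3 : (P \ R).card = n + 1 - k := by omega
  rw [h3]

theorem ab_eq (f : Finset Li → ℝ) {k N m : ℕ} (hk : 1 ≤ k) (hm : k ≤ m) (I : Finset Li) :
    ab f k N m I = (∑ P ∈ Pl N m I, ∑ R ∈ P.powersetCard k, f (rmS I (P \ R))) / (m.choose k : ℕ) := by
  induction m generalizing I with
  | zero => omega
  | succ n ih =>
    by_cases h : k = n + 1
    · subst h
      rw [ab_self, Nat.choose_self, Nat.cast_one, div_one, zz_card]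
      have h1 : ∑ P ∈ Pl N (n + 1) I, ∑ R ∈ P.powersetCard (n + 1), f (rmS I (P \ R)) =
          ∑ _P ∈ Pl N (n + 1) I, f I := by
        refine Finset.sum_congr rfl (fun P hP => ?_)
        rw [pl_mem] at hP
        rw [← hP.2.1, Finset.powersetCard_self, Finset.sum_singleton, Finset.sdiff_self, rmS_empty]
      rw [h1, Finset.sum_const, nsmul_eq_mul, mul_comm]
    · have hkn : k ≤ n := by omega
      rw [ab_lt f hkn N I]
      have h1 := pl_pairs (N := N) (m := n) (I := I)
        (fun P e => ∑ R ∈ (P.erase e).powersetCard k, f (rmS I (P \ R)))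
      have h2 : ∑ P ∈ Pl N (n + 1) I, ∑ e ∈ P, ∑ R ∈ (P.erase e).powersetCard k, f (rmS I (P \ R)) =
          ((n + 1 - k : ℕ) : ℝ) * ∑ P ∈ Pl N (n + 1) I, ∑ R ∈ P.powersetCard k, f (rmS I (P \ R)) := by
        rw [Finset.mul_sum]
        refine Finset.sum_congr rfl (fun P hP => ?_)
        rw [pl_mem] at hP
        exact sum_swap P hP.2.1 hkn (fun R => f (rmS I (P \ R)))
      have h3 : ∑ e ∈ Sq N I, ∑ P ∈ Pl N n (rm I e),
          ∑ R ∈ ((insert e P).erase e).powersetCard k, f (rmS I (insert e P \ R)) =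
          ∑ e ∈ Sq N I, ∑ P ∈ Pl N n (rm I e), ∑ R ∈ P.powersetCard k, f (rmS (rm I e) (P \ R)) := by
        refine Finset.sum_congr rfl (fun e _ => Finset.sum_congr rfl (fun P hP => ?_))
        have hn := pl_not hP
        rw [Finset.erase_insert hn]
        refine Finset.sum_congr rfl (fun R hR => ?_)
        rw [Finset.mem_powersetCard] at hR
        rw [rmS_rm, Finset.insert_sdiff_of_notMem _ (fun h => hn (hR.1 h))]
      have h4 : ∑ e ∈ Sq N I, ab f k N n (rm I e) =
          (((n + 1 - k : ℕ) : ℝ) * ∑ P ∈ Pl N (n + 1) I, ∑ R ∈ P.powersetCard k, f (rmS I (P \ R))) /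
            (n.choose k : ℕ) := by
        rw [← h2]
        rw [h1]
        show _ = (∑ e ∈ Sq N I, ∑ P ∈ Pl N n (rm I e),
          ∑ R ∈ ((insert e P).erase e).powersetCard k, f (rmS I (insert e P \ R))) / (n.choose k : ℕ)
        rw [h3, Finset.sum_div]
        exact Finset.sum_congr rfl (fun e _ => ih hkn (rm I e))
      rw [h4]
      have h5 := Nat.choose_mul_succ_eq n k
      have h6 : ((n.choose k : ℕ) : ℝ) * ((n : ℝ) + 1) =
          (((n + 1).choose k : ℕ) : ℝ) * ((n + 1 - k : ℕ) : ℝ) := by
        exact_mod_cast h5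
      have h7 : ((n.choose k : ℕ) : ℝ) ≠ 0 := by
        have := Nat.choose_pos hkn
        positivity
      have h8 : (((n + 1).choose k : ℕ) : ℝ) ≠ 0 := by
        have := Nat.choose_pos hm
        positivity
      have h9 : (n : ℝ) + 1 ≠ 0 := by positivity
      rw [div_div, h6, div_eq_div_iff _ h8]
      · ring
      · rw [← h6]
        exact mul_ne_zero h7 h9

end Pool.Agent.NQL
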