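import Pool.Agent.NQL.Defs
import Pool.Agent.NQL.ABas
import Pool.Agent.NQL.AVal
import Pool.Agent.NQL.AXi
import Pool.Agent.NQL.ACvx
import Pool.Agent.NQL.BFul
import Pool.Agent.NQL.CBas
import Pool.Agent.NQL.CNor
import Pool.Agent.NQL.CSum
import Pool.Agent.NQL.DRec

/-!
# NQL-DInd: the induction for the upper bound
-/

set_option autoImplicit false

open Finset

namespace Pool.Agent.NQL

open Pool.Agent.NQ (board dsum F Ent Dg phi ln Q Qset QS NonAtt bern)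
open Pool.Agent.NQR (Adm Opt Bd Rf hS hD hh InR)

private theorem err_bd {C1 K P : ℝ} {m N : ℕ} (hC1 : 0 ≤ C1) (hm : 1 ≤ m)
    (hP : P ≤ K * m * ((m : ℝ) / N + (m : ℝ) ^ (-(1 / 4) : ℝ))) :
    C1 * (1 + P) / (m : ℝ) ^ 2 ≤
      C1 * (1 + K) * (1 / (N : ℝ) + (m : ℝ) ^ (-(5 / 4) : ℝ)) := by
  have hm1 : (1 : ℝ) ≤ m := by exact_mod_cast hm
  have hm0 : (0 : ℝ) < m := by linarith
  obtain ⟨r, hr⟩ : ∃ r : ℝ, r = (m : ℝ) ^ (-(5 / 4) : ℝ) := ⟨_, rfl⟩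
  have hr1 : (m : ℝ) ^ (-(1 / 4) : ℝ) = m * r := by
    rw [hr]
    have h1 := Real.rpow_add hm0 1 (-(5 / 4))
    rw [Real.rpow_one] at h1
    rw [← h1]
    norm_num
  have hr2 : 1 / (m : ℝ) ^ 2 ≤ r := by
    rw [hr, one_div, ← Real.rpow_natCast, ← Real.rpow_neg hm0.le]
    exact Real.rpow_le_rpow_of_exponent_le hm1 (by norm_num)
  rw [← hr]
  rw [hr1] at hP
  have hN : 0 ≤ 1 / (N : ℝ) := by positivity
  have hm2 : (0 : ℝ) < (m : ℝ) ^ 2 := by positivity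
  have h2 : P / (m : ℝ) ^ 2 ≤ K * (1 / (N : ℝ) + r) := by
    rw [div_le_iff₀ hm2]
    calc P ≤ K * m * ((m : ℝ) / N + m * r) := hP
      _ = K * (1 / (N : ℝ) + r) * (m : ℝ) ^ 2 := by ring
  have h3 : C1 * (1 + P) / (m : ℝ) ^ 2 = C1 * (1 / (m : ℝ) ^ 2 + P / (m : ℝ) ^ 2) := by ring
  rw [h3]
  calc C1 * (1 / (m : ℝ) ^ 2 + P / (m : ℝ) ^ 2) ≤ C1 * (r + K * (1 / (N : ℝ) + r)) :=
        mul_le_mul_of_nonneg_left (add_le_add hr2 h2) hC1
    _ ≤ C1 * ((1 / (N : ℝ) + r) + K * (1 / (N : ℝ) + r)) := by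
        refine mul_le_mul_of_nonneg_left ?_ hC1
        linarith
    _ = _ := by ring

open Classical in
private theorem upper_aux (K lam : ℝ) (hK : 1 ≤ K) (hl : 0 < lam) : ∃ mX : ℕ, 2 ≤ mX ∧
    ∀ m0 : ℕ, mX ≤ m0 → 1 ≤ m0 → ∃ C' Cb : ℝ, 0 ≤ C' ∧ 0 ≤ Cb ∧
    ∀ (G : ℕ → Finset Li → Prop) (N : ℕ),
      (∀ m I, m0 ≤ m → m ≤ N → G m I → Vd N m I ∧ ∃ z : Li → ℝ, Reg K lam N m I z ∧
        P2 I z ≤ K * m * ((m : ℝ) / N + (m : ℝ) ^ (-(1 / 4) : ℝ))) →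
      ∀ m : ℕ, m0 ≤ m → m ≤ N → ∀ (I : Finset Li) (z : Li → ℝ), G m I → Reg K lam N m I z →
        P2 I z ≤ K * m * ((m : ℝ) / N + (m : ℝ) ^ (-(1 / 4) : ℝ)) →
        zu G m0 N m I ≤ Real.exp (Vf N m I z + ∑ j ∈ Finset.Ioc m0 m,
          (1 / (2 * (j : ℝ)) + C' * (1 / (N : ℝ) + (j : ℝ) ^ (-(5 / 4) : ℝ))) + 2 * Cb) := by
  obtain ⟨C0, mA, hC0, hmA, hxi⟩ := xi hK hl
  obtain ⟨C1, hC1, hnor⟩ := nor (lam := lam) hK hC0
  refine ⟨max mA ⌈16 * C0⌉₊, le_trans hmA (le_max_left _ _), ?_⟩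
  intro m0 hm0 h1
  obtain ⟨Cb, hCb, hbase⟩ := base_bd m0 h1
  refine ⟨C1 * (1 + K), Cb, by positivity, hCb, ?_⟩
  intro G N hG m hm
  have hmA0 : mA ≤ m0 := le_trans (le_max_left _ _) hm0
  have h16 : 16 * C0 ≤ (m0 : ℝ) := (Nat.le_ceil _).trans (by exact_mod_cast le_trans (le_max_right _ _) hm0)
  induction m, hm using Nat.le_induction with
  | base =>
    intro hmN I z hGI hR _
    have hv := (hG m0 I le_rfl hmN hGI).1
    obtain ⟨hV, hz⟩ := hbase N I z hv hR.st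
    rw [Finset.Ioc_self, Finset.sum_empty, add_zero]
    have hzu : zu G m0 N m0 I = zz N m0 I := by
      obtain ⟨n, hn⟩ := Nat.exists_eq_succ_of_ne_zero (by omega : m0 ≠ 0)
      have hd : zu G m0 N (n + 1) I = if G (n + 1) I then
        (if n + 1 ≤ m0 then zz N (n + 1) I else (∑ e ∈ Sq N I, zu G m0 N n (rm I e)) / (n + 1))
        else 0 := rfl
      have hn' : n + 1 = m0 := hn.symm
      have hd' := hd
      rw [if_pos (by rw [hn']; exact hGI), if_pos (by omega)] at hd'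
      rw [hn'] at hd'
      exact hd'
    rw [hzu]
    refine hz.trans (Real.exp_le_exp.2 ?_)
    have := (abs_le.1 hV).1
    linarith
  | succ n hn ih =>
    intro hmN I z hGI hR hP
    have hn1 : 1 ≤ n := h1.trans hn
    have hv := (hG (n + 1) I (by omega) hmN hGI).1
    obtain ⟨ξ, hξ1, hξ2, -, hξ4⟩ := hxi N (n + 1) I z (by omega) hv hR
    have hm16 : 16 * C0 ≤ ((n + 1 : ℕ) : ℝ) := h16.trans (by exact_mod_cast (by omega : m0 ≤ n + 1))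
    obtain ⟨-, -, -, hup⟩ := hnor N (n + 1) I z ξ hm16 hv hR hξ1 hξ4
    have hm0' : (0 : ℝ) < ((n + 1 : ℕ) : ℝ) := by positivity
    obtain ⟨m, hmd⟩ : ∃ m : ℝ, m = ((n + 1 : ℕ) : ℝ) := ⟨_, rfl⟩
    obtain ⟨S, hS⟩ : ∃ S : ℝ, S = ∑ j ∈ Finset.Ioc m0 n,
          (1 / (2 * (j : ℝ)) + C1 * (1 + K) * (1 / (N : ℝ) + (j : ℝ) ^ (-(5 / 4) : ℝ))) := ⟨_, rfl⟩
    have hzu : zu G m0 N (n + 1) I = (∑ e ∈ Sq N I, zu G m0 N n (rm I e)) / (n + 1) := by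
      have hd : zu G m0 N (n + 1) I = if G (n + 1) I then
        (if n + 1 ≤ m0 then zz N (n + 1) I else (∑ e ∈ Sq N I, zu G m0 N n (rm I e)) / (n + 1))
        else 0 := rfl
      rw [hd, if_pos hGI, if_neg (by omega)]
    have hterm : ∀ e ∈ Sq N I, zu G m0 N n (rm I e) ≤
        Real.exp (Vf N (n + 1) I z + S + 2 * Cb) *
          (wt z e * Real.exp (ξ e + C0 / ((n + 1 : ℕ) : ℝ) ^ 2)) := by
      intro e he
      by_cases hg : G n (rm I e)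
      · obtain ⟨hv', z', hR', hP'⟩ := hG n (rm I e) hn (by omega) hg
        have h2 := ih (by omega) (rm I e) z' hg hR' hP'
        rw [← hS] at h2
        have h3 := hξ2 e he z' hR'.st
        rw [Nat.add_sub_cancel] at h3
        refine h2.trans ?_
        unfold wt
        rw [← Real.exp_add, ← Real.exp_add]
        refine Real.exp_le_exp.2 ?_
        linarith
      · have h4 : zu G m0 N n (rm I e) = 0 := by
          obtain ⟨n', hn'⟩ := Nat.exists_eq_succ_of_ne_zero (by omega : n ≠ 0)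
          have hd : zu G m0 N (n' + 1) (rm I e) = if G (n' + 1) (rm I e) then
            (if n' + 1 ≤ m0 then zz N (n' + 1) (rm I e) else
              (∑ e' ∈ Sq N (rm I e), zu G m0 N n' (rm (rm I e) e')) / (n' + 1)) else 0 := rfl
          have hn2 : n' + 1 = n := hn'.symm
          rw [hn2] at hd
          rw [hd, if_neg hg]
        rw [h4]
        unfold wt
        positivity
    have hsum : zu G m0 N (n + 1) I ≤ Real.exp (Vf N (n + 1) I z + S + 2 * Cb) *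
        ∑ e ∈ Sq N I, wt z e / ((n + 1 : ℕ) : ℝ) * Real.exp (ξ e + C0 / ((n + 1 : ℕ) : ℝ) ^ 2) := by
      rw [hzu]
      have h5 := Finset.sum_le_sum hterm
      rw [← Finset.mul_sum] at h5
      have h6 : (∑ e ∈ Sq N I, zu G m0 N n (rm I e)) / ((n : ℝ) + 1) ≤
          (Real.exp (Vf N (n + 1) I z + S + 2 * Cb) * ∑ e ∈ Sq N I,
            wt z e * Real.exp (ξ e + C0 / ((n + 1 : ℕ) : ℝ) ^ 2)) / ((n : ℝ) + 1) :=
        div_le_div_of_nonneg_right h5 (by positivity)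
      refine h6.trans (le_of_eq ?_)
      rw [mul_div_assoc, Finset.sum_div]
      congr 1
      refine Finset.sum_congr rfl fun e _ => ?_
      push_cast
      ring
    refine hsum.trans ?_
    have hE := err_bd (C1 := C1) (K := K) (P := P2 I z) (m := n + 1) (N := N) (by linarith)
      (by omega) hP
    have h7 : ∑ j ∈ Finset.Ioc m0 (n + 1),
          (1 / (2 * (j : ℝ)) + C1 * (1 + K) * (1 / (N : ℝ) + (j : ℝ) ^ (-(5 / 4) : ℝ))) =
        S + (1 / (2 * ((n + 1 : ℕ) : ℝ)) +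
          C1 * (1 + K) * (1 / (N : ℝ) + ((n + 1 : ℕ) : ℝ) ^ (-(5 / 4) : ℝ))) := by
      rw [Finset.sum_Ioc_succ_top hn, hS]
    rw [h7]
    calc Real.exp (Vf N (n + 1) I z + S + 2 * Cb) *
        ∑ e ∈ Sq N I, wt z e / ((n + 1 : ℕ) : ℝ) * Real.exp (ξ e + C0 / ((n + 1 : ℕ) : ℝ) ^ 2)
        ≤ Real.exp (Vf N (n + 1) I z + S + 2 * Cb) *
          Real.exp (1 / (2 * ((n + 1 : ℕ) : ℝ)) + C1 * (1 + P2 I z) / ((n + 1 : ℕ) : ℝ) ^ 2) :=
          mul_le_mul_of_nonneg_left hup (Real.exp_pos _).le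
      _ = Real.exp (Vf N (n + 1) I z + S + 2 * Cb + (1 / (2 * ((n + 1 : ℕ) : ℝ)) +
          C1 * (1 + P2 I z) / ((n + 1 : ℕ) : ℝ) ^ 2)) := by rw [← Real.exp_add]
      _ ≤ _ := Real.exp_le_exp.2 (by linarith)

theorem upper_zu (L : ℝ) (hL : 1 ≤ L) : ∃ mX : ℕ, ∀ m0 : ℕ, mX ≤ m0 → 1 ≤ m0 → ∃ C : ℝ,
    ∀ (G : ℕ → Finset Li → Prop) (N : ℕ) (W : ℤ × ℤ → ℝ) (A B : ℤ → ℝ), m0 < N → Rf L N W A B →
      G N (full N) →
      (∀ m I, m0 ≤ m → m ≤ N → G m I → Vd N m I ∧ ∃ z : Li → ℝ,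
        Reg (32 * L ^ 3) (1 / (3200 * L ^ 3)) N m I z ∧
        P2 I z ≤ 32 * L ^ 3 * m * ((m : ℝ) / N + (m : ℝ) ^ (-(1 / 4) : ℝ))) →
      zu G m0 N N (full N) ≤ Real.exp (F N W - N + Real.log N / 2 + C) := by
  have hL3 : 1 ≤ L ^ 3 := one_le_pow₀ hL
  obtain ⟨mX, hmX2, hmX⟩ := upper_aux (32 * L ^ 3) (1 / (3200 * L ^ 3)) (by linarith)
    (by positivity)
  refine ⟨mX, fun m0 hm0 h1 => ?_⟩
  obtain ⟨C', Cb, hC', hCb, hmain⟩ := hmX m0 hm0 h1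
  obtain ⟨Ch, hCh, hharm⟩ := harm m0 h1
  refine ⟨Ch + C' * 5 + 2 * Cb, ?_⟩
  intro G N W A B hN hRf hGN hG
  obtain ⟨hv, z, hR, hP⟩ := hG N (full N) hN.le le_rfl hGN
  have h2 := hmain G N hG N hN.le le_rfl (full N) z hGN hR hP
  obtain ⟨hst, hval, -, -⟩ := full_st hL (by omega : 2 ≤ N) hRf
  have h3 : Vf N N (full N) z ≤ F N W - N := by
    rw [← hval]
    have h4 := st_min hR.st (zn N W A B N)
    unfold Vf
    linarith
  obtain ⟨hh1, hh2⟩ := hharm N hN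
  have h5 : ∑ j ∈ Finset.Ioc m0 N,
      (1 / (2 * (j : ℝ)) + C' * (1 / (N : ℝ) + (j : ℝ) ^ (-(5 / 4) : ℝ))) ≤
      Real.log N / 2 + Ch + C' * 5 := by
    rw [Finset.sum_add_distrib, ← Finset.mul_sum]
    have h6 := (abs_le.1 hh1).2
    have h7 := mul_le_mul_of_nonneg_left hh2 hC'
    linarith
  refine h2.trans (Real.exp_le_exp.2 ?_)
  linarith

end Pool.Agent.NQL
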