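import Pool.Agent.NQL.Defs
import Pool.Agent.NQL.ABas
import Pool.Agent.NQL.BNom
import Pool.Agent.NQL.DIns
import Pool.Agent.NQL.DExp
import Pool.Agent.NQL.DDvG
import Pool.Agent.NQL.DTyD
import Pool.Agent.NQR.BMcd

/-!
# NQL-TFun: the expected masses as functions of the set of occupied diagonals

`oP P` = occupied diagonals of a configuration. `t = k/N`.
-/

set_option autoImplicit false

open Finset

namespace Pool.Agent.NQL

open Pool.Agent.NQ (board dsum F Ent Dg phi ln Q Qset QS NonAtt bern)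
open Pool.Agent.NQR (Adm Opt Bd Rf hS hD hh InR)

open Pool.Agent.NQR (gd pp)

/-- occupied diagonals -/
noncomputable def oP (P : Finset (ℤ × ℤ)) : Finset (ℤ ⊕ ℤ) :=
  (P.image (fun q => Sum.inl (q.1 - q.2))) ∪ (P.image (fun q => Sum.inr (q.1 + q.2)))

/-- factor of the line of type `k'` of the square `e` -/
noncomputable def af (t : ℝ) (U : Finset (ℤ ⊕ ℤ)) (k' : Fin 4) (e : ℤ × ℤ) : ℝ :=
  if (k' : ℕ) < 2 then t else if k' = 2 then (if Sum.inr (e.1 + e.2) ∈ U then t else 1) else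
    (if Sum.inl (e.1 - e.2) ∈ U then t else 1)

/-- `fl` as a function of the occupied diagonals -/
noncomputable def FL (N : ℕ) (W : ℤ × ℤ → ℝ) (k : ℕ) (l : Li) (U : Finset (ℤ ⊕ ℤ)) : ℝ :=
  ∑ e ∈ (board N).filter (fun e => On e l), Wn N W k e *
    ∏ k' ∈ Finset.univ.erase l.1, af ((k : ℝ) / N) U k' e

/-- `fg` as a function of the occupied diagonals -/
noncomputable def FG (N : ℕ) (W : ℤ × ℤ → ℝ) (k : ℕ) (x x' : ℤ) (U : Finset (ℤ ⊕ ℤ)) : ℝ :=
  k * ∑ y ∈ Finset.Ico (0 : ℤ) N, Wn N W k (x, y) * Wn N W k (x', y) * ((k : ℝ) / N) *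
    (af ((k : ℝ) / N) U 2 (x, y) * af ((k : ℝ) / N) U 3 (x, y) *
      (af ((k : ℝ) / N) U 2 (x', y) * af ((k : ℝ) / N) U 3 (x', y)))

/-! ### The factors -/

private theorem af0 (t : ℝ) (U : Finset (ℤ ⊕ ℤ)) (e : ℤ × ℤ) : af t U 0 e = t := by
  unfold af
  rw [if_pos (by decide)]

private theorem af1 (t : ℝ) (U : Finset (ℤ ⊕ ℤ)) (e : ℤ × ℤ) : af t U 1 e = t := by
  unfold af
  rw [if_pos (by decide)]

private theorem af2 (t : ℝ) (U : Finset (ℤ ⊕ ℤ)) (e : ℤ × ℤ) :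
    af t U 2 e = if Sum.inr (e.1 + e.2) ∈ U then t else 1 := by
  unfold af
  rw [if_neg (by decide), if_pos rfl]

private theorem af3 (t : ℝ) (U : Finset (ℤ ⊕ ℤ)) (e : ℤ × ℤ) :
    af t U 3 e = if Sum.inl (e.1 - e.2) ∈ U then t else 1 := by
  unfold af
  rw [if_neg (by decide), if_neg (by decide)]

private theorem cases4 (j : Fin 4) : j = 0 ∨ j = 1 ∨ j = 2 ∨ j = 3 := by
  fin_cases j <;> simp

private theorem af_bd {t : ℝ} (h0 : 0 ≤ t) (h1 : t ≤ 1) (U : Finset (ℤ ⊕ ℤ)) (j : Fin 4)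
    (e : ℤ × ℤ) : 0 ≤ af t U j e ∧ af t U j e ≤ 1 := by
  rcases cases4 j with rfl | rfl | rfl | rfl
  · rw [af0]; exact ⟨h0, h1⟩
  · rw [af1]; exact ⟨h0, h1⟩
  · rw [af2]
    split_ifs
    · exact ⟨h0, h1⟩
    · exact ⟨zero_le_one, le_rfl⟩
  · rw [af3]
    split_ifs
    · exact ⟨h0, h1⟩
    · exact ⟨zero_le_one, le_rfl⟩

private theorem af_ins {t : ℝ} {U : Finset (ℤ ⊕ ℤ)} {u : ℤ ⊕ ℤ} {j : Fin 4} {e : ℤ × ℤ}
    (h2 : j = 2 → u ≠ Sum.inr (e.1 + e.2)) (h3 : j = 3 → u ≠ Sum.inl (e.1 - e.2)) :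
    af t (insert u U) j e = af t U j e := by
  rcases cases4 j with rfl | rfl | rfl | rfl
  · rw [af0, af0]
  · rw [af1, af1]
  · rw [af2, af2]
    have h := h2 rfl
    have h' : (Sum.inr (e.1 + e.2) ∈ insert u U) ↔ (Sum.inr (e.1 + e.2) ∈ U) := by
      rw [mem_insert]
      exact or_iff_right h.symm
    simp only [h']
  · rw [af3, af3]
    have h := h3 rfl
    have h' : (Sum.inl (e.1 - e.2) ∈ insert u U) ↔ (Sum.inl (e.1 - e.2) ∈ U) := by
      rw [mem_insert]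
      exact or_iff_right h.symm
    simp only [h']

private theorem er0 (f : Fin 4 → ℝ) : ∏ j ∈ univ.erase (0 : Fin 4), f j = f 1 * (f 2 * f 3) := by
  have h : univ.erase (0 : Fin 4) = {1, 2, 3} := by decide
  rw [h, prod_insert (by decide), prod_insert (by decide), prod_singleton]

private theorem er1 (f : Fin 4 → ℝ) : ∏ j ∈ univ.erase (1 : Fin 4), f j = f 0 * (f 2 * f 3) := by
  have h : univ.erase (1 : Fin 4) = {0, 2, 3} := by decide
  rw [h, prod_insert (by decide), prod_insert (by decide), prod_singleton]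

private theorem er2 (f : Fin 4 → ℝ) : ∏ j ∈ univ.erase (2 : Fin 4), f j = f 0 * (f 1 * f 3) := by
  have h : univ.erase (2 : Fin 4) = {0, 1, 3} := by decide
  rw [h, prod_insert (by decide), prod_insert (by decide), prod_singleton]

private theorem er3 (f : Fin 4 → ℝ) : ∏ j ∈ univ.erase (3 : Fin 4), f j = f 0 * (f 1 * f 2) := by
  have h : univ.erase (3 : Fin 4) = {0, 1, 2} := by decide
  rw [h, prod_insert (by decide), prod_insert (by decide), prod_singleton]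

private theorem pr_bd {t : ℝ} (h0 : 0 ≤ t) (h1 : t ≤ 1) (U : Finset (ℤ ⊕ ℤ)) (j : Fin 4)
    (e : ℤ × ℤ) :
    0 ≤ ∏ k' ∈ univ.erase j, af t U k' e ∧ ∏ k' ∈ univ.erase j, af t U k' e ≤ t := by
  refine ⟨prod_nonneg fun k' _ => (af_bd h0 h1 U k' e).1, ?_⟩
  have a1 := af_bd h0 h1 U 1 e
  have a2 := af_bd h0 h1 U 2 e
  have a3 := af_bd h0 h1 U 3 e
  rcases cases4 j with rfl | rfl | rfl | rfl
  · rw [er0, af1]
    exact mul_le_of_le_one_right h0 (mul_le_one₀ a2.2 a3.1 a3.2)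
  · rw [er1, af0]
    exact mul_le_of_le_one_right h0 (mul_le_one₀ a2.2 a3.1 a3.2)
  · rw [er2, af0]
    exact mul_le_of_le_one_right h0 (mul_le_one₀ a1.2 a3.1 a3.2)
  · rw [er3, af0]
    exact mul_le_of_le_one_right h0 (mul_le_one₀ a1.2 a2.1 a2.2)

private theorem tf_t {N k : ℕ} (hk : 1 ≤ k) (hkN : k ≤ N) :
    (0 : ℝ) < (k : ℝ) / N ∧ (k : ℝ) / N ≤ 1 ∧ (0 : ℝ) < k ∧ (0 : ℝ) < N := by
  have h1 : (0 : ℝ) < k := by exact_mod_cast hk
  have h2 : (0 : ℝ) < N := by exact_mod_cast hk.trans hkN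
  have h3 : (k : ℝ) ≤ N := by exact_mod_cast hkN
  exact ⟨div_pos h1 h2, (div_le_one h2).2 h3, h1, h2⟩

private theorem mem_oP_inl {P : Finset (ℤ × ℤ)} {s : ℤ} :
    Sum.inl s ∈ oP P ↔ ∃ q ∈ P, q.1 - q.2 = s := by
  unfold oP
  simp

private theorem mem_oP_inr {P : Finset (ℤ × ℤ)} {s : ℤ} :
    Sum.inr s ∈ oP P ↔ ∃ q ∈ P, q.1 + q.2 = s := by
  unfold oP
  simp

theorem fl_eq {N k : ℕ} {W : ℤ × ℤ → ℝ} {P : Finset (ℤ × ℤ)} (hP : P ∈ Qset N) (l : Li) :
    fl N W k P l = FL N W k l (oP P) := by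
  unfold fl FL
  refine sum_congr rfl fun e he => ?_
  congr 1
  refine prod_congr rfl fun j _ => ?_
  have heb := (mem_filter.1 he).1
  rcases cases4 j with rfl | rfl | rfl | rfl
  · have h : rc ((0, ln 0 e) : Li) := by
      show ((0 : Fin 4) : ℕ) < 2
      decide
    rw [af0, if_pos (rc_occ hP (mem_full.2 ⟨e, heb, rfl⟩) h)]
  · have h : rc ((1, ln 1 e) : Li) := by
      show ((1 : Fin 4) : ℕ) < 2
      decide
    rw [af1, if_pos (rc_occ hP (mem_full.2 ⟨e, heb, rfl⟩) h)]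
  · rw [af2]
    simp only [mem_oP_inr]
    rfl
  · rw [af3]
    simp only [mem_oP_inl]
    rfl

theorem fg_eq {N k : ℕ} {W : ℤ × ℤ → ℝ} {P : Finset (ℤ × ℤ)} (hP : P ∈ Qset N) (x x' : ℤ) :
    fg N W k P x x' = FG N W k x x' (oP P) := by
  unfold fg FG
  congr 1
  refine sum_congr rfl fun y _ => ?_
  rw [af2, af3, af2, af3]
  simp only [mem_oP_inr, mem_oP_inl]
  rfl

theorem FL_lip {L : ℝ} (hL : 1 ≤ L) {N k : ℕ} {W : ℤ × ℤ → ℝ} {A B : ℤ → ℝ} (hR : Rf L N W A B)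
    (hk : 1 ≤ k) (hkN : k ≤ N) (l : Li) (u : ℤ ⊕ ℤ) (U : Finset (ℤ ⊕ ℤ)) :
    |FL N W k l (insert u U) - FL N W k l U| ≤ L ^ 3 / N := by
  obtain ⟨ht0, ht1, hk0, hN0⟩ := tf_t hk hkN
  have hL3 : 0 ≤ L ^ 3 / N := by positivity
  have e1 : FL N W k l (insert u U) - FL N W k l U =
      ∑ e ∈ (board N).filter (fun e => On e l), Wn N W k e *
        (∏ k' ∈ univ.erase l.1, af ((k : ℝ) / N) (insert u U) k' e -
          ∏ k' ∈ univ.erase l.1, af ((k : ℝ) / N) U k' e) := by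
    unfold FL
    rw [← sum_sub_distrib]
    exact sum_congr rfl fun e _ => by ring
  rw [e1]
  have key : ∀ e, (∏ k' ∈ univ.erase l.1, af ((k : ℝ) / N) (insert u U) k' e -
      ∏ k' ∈ univ.erase l.1, af ((k : ℝ) / N) U k' e) ≠ 0 →
      ∃ j, j ≠ l.1 ∧ ((j = 2 ∧ u = Sum.inr (ln 2 e)) ∨ (j = 3 ∧ u = Sum.inl (ln 3 e))) := by
    intro e he
    by_contra hcon
    push Not at hcon
    apply he
    rw [sub_eq_zero]
    refine prod_congr rfl fun j hj => ?_
    have h := hcon j (mem_erase.1 hj).1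
    exact af_ins (fun h2 => h.1 h2) (fun h3 => h.2 h3)
  by_cases hex : ∃ e₀ ∈ (board N).filter (fun e => On e l),
      (∏ k' ∈ univ.erase l.1, af ((k : ℝ) / N) (insert u U) k' e₀ -
        ∏ k' ∈ univ.erase l.1, af ((k : ℝ) / N) U k' e₀) ≠ 0
  · obtain ⟨e₀, he₀, hne⟩ := hex
    have hon₀ : ln l.1 e₀ = l.2 := (mem_filter.1 he₀).2
    rw [Finset.sum_eq_single_of_mem e₀ he₀]
    · obtain ⟨-, hw⟩ := wn_bd hL hR hk hkN (mem_filter.1 he₀).1
      have hw0 : 0 ≤ Wn N W k e₀ := by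
        refine le_trans ?_ (wn_bd hL hR hk hkN (mem_filter.1 he₀).1).1
        positivity
      have hb1 := pr_bd ht0.le ht1 (insert u U) l.1 e₀
      have hb2 := pr_bd ht0.le ht1 U l.1 e₀
      rw [abs_mul, abs_of_nonneg hw0]
      have h1 : |(∏ k' ∈ univ.erase l.1, af ((k : ℝ) / N) (insert u U) k' e₀ -
          ∏ k' ∈ univ.erase l.1, af ((k : ℝ) / N) U k' e₀)| ≤ (k : ℝ) / N := by
        rw [abs_le]
        constructor <;> linarith [hb1.1, hb1.2, hb2.1, hb2.2]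
      calc Wn N W k e₀ * _ ≤ L ^ 3 / k * ((k : ℝ) / N) :=
            mul_le_mul hw h1 (abs_nonneg _) (by positivity)
        _ = L ^ 3 / N := by field_simp
    · intro e he hee
      by_contra h0
      obtain ⟨j, hj, hjj⟩ := key e (right_ne_zero_of_mul h0)
      obtain ⟨j', hj', hjj'⟩ := key e₀ hne
      have hon : ln l.1 e = l.2 := (mem_filter.1 he).2
      have hll : ln l.1 e = ln l.1 e₀ := by rw [hon, hon₀]
      rcases hjj with ⟨rfl, h1⟩ | ⟨rfl, h1⟩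
      · rcases hjj' with ⟨rfl, h2⟩ | ⟨rfl, h2⟩
        · rw [h1] at h2
          exact hee (two_lines hj (Sum.inr_injective h2) hll)
        · rw [h1] at h2
          exact absurd h2 (by simp)
      · rcases hjj' with ⟨rfl, h2⟩ | ⟨rfl, h2⟩
        · rw [h1] at h2
          exact absurd h2 (by simp)
        · rw [h1] at h2
          exact hee (two_lines hj (Sum.inl_injective h2) hll)
  · push Not at hex
    rw [sum_eq_zero fun e he => by rw [hex e he, mul_zero], abs_zero]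
    exact hL3

private theorem two_pts {N : ℕ} (f : ℤ → ℝ) (M : ℝ) (hM : 0 ≤ M) (a b : ℤ)
    (hf : ∀ y ∈ Ico (0 : ℤ) N, |f y| ≤ M) (h0 : ∀ y ∈ Ico (0 : ℤ) N, y ≠ a → y ≠ b → f y = 0) :
    |∑ y ∈ Ico (0 : ℤ) N, f y| ≤ 2 * M := by
  refine (abs_sum_le_sum_abs _ _).trans ?_
  have h1 : ∀ y ∈ Ico (0 : ℤ) N, |f y| ≤ (if y = a then M else 0) + (if y = b then M else 0) := by
    intro y hy
    by_cases ha : y = a
    · rw [if_pos ha]
      have : 0 ≤ (if y = b then M else 0) := by split_ifs <;> simp [hM]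
      linarith [hf y hy]
    · by_cases hb : y = b
      · rw [if_neg ha, if_pos hb, zero_add]
        exact hf y hy
      · rw [if_neg ha, if_neg hb, h0 y hy ha hb, abs_zero, add_zero]
  refine (sum_le_sum h1).trans ?_
  rw [sum_add_distrib, sum_ite_eq', sum_ite_eq', two_mul]
  refine add_le_add ?_ ?_
  · split_ifs
    · exact le_rfl
    · exact hM
  · split_ifs
    · exact le_rfl
    · exact hM

theorem FG_lip {L : ℝ} (hL : 1 ≤ L) {N k : ℕ} {W : ℤ × ℤ → ℝ} {A B : ℤ → ℝ} (hR : Rf L N W A B)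
    (hk : 1 ≤ k) (hkN : k ≤ N) {x x' : ℤ} (hx : 0 ≤ x ∧ x < N) (hx' : 0 ≤ x' ∧ x' < N) (u : ℤ ⊕ ℤ)
    (U : Finset (ℤ ⊕ ℤ)) : |FG N W k x x' (insert u U) - FG N W k x x' U| ≤ 2 * L ^ 6 / N := by
  obtain ⟨ht0, ht1, hk0, hN0⟩ := tf_t hk hkN
  obtain ⟨G, hG⟩ : ∃ G : Finset (ℤ ⊕ ℤ) → ℤ → ℝ, ∀ V y, G V y =
      (af ((k : ℝ) / N) V 2 (x, y) * af ((k : ℝ) / N) V 3 (x, y) *
      (af ((k : ℝ) / N) V 2 (x', y) * af ((k : ℝ) / N) V 3 (x', y))) := ⟨_, fun _ _ => rfl⟩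
  have hG1 : ∀ V y, 0 ≤ G V y ∧ G V y ≤ 1 := by
    intro V y
    rw [hG]
    have a1 := af_bd ht0.le ht1 V 2 (x, y)
    have a2 := af_bd ht0.le ht1 V 3 (x, y)
    have a3 := af_bd ht0.le ht1 V 2 (x', y)
    have a4 := af_bd ht0.le ht1 V 3 (x', y)
    exact ⟨mul_nonneg (mul_nonneg a1.1 a2.1) (mul_nonneg a3.1 a4.1),
      mul_le_one₀ (mul_le_one₀ a1.2 a2.1 a2.2) (mul_nonneg a3.1 a4.1)
        (mul_le_one₀ a3.2 a4.1 a4.2)⟩
  have hw : ∀ z : ℤ, 0 ≤ z ∧ z < N → ∀ y ∈ Ico (0 : ℤ) N,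
      0 ≤ Wn N W k (z, y) ∧ Wn N W k (z, y) ≤ L ^ 3 / k := by
    intro z hz y hy
    have hb : (z, y) ∈ board N := Pool.Agent.NQ.mem_board.2 ⟨hz, mem_Ico.1 hy⟩
    have h1 := wn_bd hL hR hk hkN hb
    exact ⟨le_trans (by positivity) h1.1, h1.2⟩
  have e1 : FG N W k x x' (insert u U) - FG N W k x x' U =
      k * ∑ y ∈ Ico (0 : ℤ) N, Wn N W k (x, y) * Wn N W k (x', y) * ((k : ℝ) / N) *
        (G (insert u U) y - G U y) := by
    unfold FG
    simp only [← hG]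
    rw [← mul_sub, ← sum_sub_distrib]
    congr 1
    exact sum_congr rfl fun y _ => by ring
  have e2 : |∑ y ∈ Ico (0 : ℤ) N, Wn N W k (x, y) * Wn N W k (x', y) * ((k : ℝ) / N) *
        (G (insert u U) y - G U y)| ≤ 2 * (L ^ 3 / k * (L ^ 3 / k) * ((k : ℝ) / N)) := by
    obtain ⟨a, b, hab⟩ : ∃ a b : ℤ, ∀ y, y ≠ a → y ≠ b → G (insert u U) y = G U y := by
      rcases u with s | s
      · refine ⟨x - s, x' - s, fun y ha hb => ?_⟩
        rw [hG, hG, af_ins (fun _ h => by simp at h) (fun h => absurd h (by decide)),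
          af_ins (fun h => absurd h (by decide)) (fun _ h => ha (by
            have := Sum.inl_injective h
            simp only at this
            omega)),
          af_ins (fun _ h => by simp at h) (fun h => absurd h (by decide)),
          af_ins (fun h => absurd h (by decide)) (fun _ h => hb (by
            have := Sum.inl_injective h
            simp only at this
            omega))]
      · refine ⟨s - x, s - x', fun y ha hb => ?_⟩
        rw [hG, hG, af_ins (fun _ h => ha (by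
            have := Sum.inr_injective h
            simp only at this
            omega)) (fun h => absurd h (by decide)),
          af_ins (fun h => absurd h (by decide)) (fun _ h => by simp at h),
          af_ins (fun _ h => hb (by
            have := Sum.inr_injective h
            simp only at this
            omega)) (fun h => absurd h (by decide)),
          af_ins (fun h => absurd h (by decide)) (fun _ h => by simp at h)]
    refine two_pts _ _ (by positivity) a b (fun y hy => ?_) (fun y _ ha hb => ?_)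
    · have w1 := hw x hx y hy
      have w2 := hw x' hx' y hy
      have g1 := hG1 (insert u U) y
      have g2 := hG1 U y
      have hd : |G (insert u U) y - G U y| ≤ 1 := by
        rw [abs_le]
        constructor <;> linarith [g1.1, g1.2, g2.1, g2.2]
      have h0 : 0 ≤ Wn N W k (x, y) * Wn N W k (x', y) * ((k : ℝ) / N) :=
        mul_nonneg (mul_nonneg w1.1 w2.1) ht0.le
      rw [abs_mul, abs_of_nonneg h0]
      calc Wn N W k (x, y) * Wn N W k (x', y) * ((k : ℝ) / N) * |G (insert u U) y - G U y|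
          ≤ Wn N W k (x, y) * Wn N W k (x', y) * ((k : ℝ) / N) * 1 :=
            mul_le_mul_of_nonneg_left hd h0
        _ ≤ _ := by
          rw [mul_one]
          exact mul_le_mul_of_nonneg_right (mul_le_mul w1.2 w2.2 w2.1 (by positivity)) ht0.le
    · rw [hab y ha hb, sub_self, mul_zero]
  rw [e1, abs_mul, abs_of_pos hk0]
  calc (k : ℝ) * _ ≤ k * (2 * (L ^ 3 / k * (L ^ 3 / k) * ((k : ℝ) / N))) :=
        mul_le_mul_of_nonneg_left e2 hk0.le
    _ = 2 * L ^ 6 / N := by field_simp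

/-! ### Expectations -/

private theorem bern_S {I : Type*} [DecidableEq I] (A : Finset I) (p : I → ℝ) (t : ℝ)
    {S : Finset I} (hS : S ⊆ A) :
    ∑ U ∈ A.powerset, bern A p U * ∏ i ∈ S, (if i ∈ U then t else 1) =
      ∏ i ∈ S, (1 - (1 - t) * p i) := by
  have h1 := prod_add (fun i => p i * (if i ∈ S then t else 1)) (fun i => 1 - p i) A
  have h2 : ∏ i ∈ A, (p i * (if i ∈ S then t else 1) + (1 - p i)) =
      ∏ i ∈ S, (1 - (1 - t) * p i) := by
    rw [← prod_sdiff hS, prod_eq_one (s := A \ S), one_mul]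
    · refine prod_congr rfl fun i hi => ?_
      rw [if_pos hi]
      ring
    · intro i hi
      rw [if_neg (mem_sdiff.1 hi).2]
      ring
  rw [← h2, h1]
  refine sum_congr rfl fun U hU => ?_
  have hUA := mem_powerset.1 hU
  unfold bern
  have h3 : ∏ i ∈ S, (if i ∈ U then t else 1) = ∏ i ∈ U, (if i ∈ S then t else 1) := by
    rw [prod_ite, prod_ite, prod_const_one, prod_const_one, mul_one, mul_one, prod_const,
      prod_const]
    congr 2
    ext i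
    simp only [mem_filter]
    exact and_comm
  rw [h3, prod_mul_distrib]
  ring

/-- the expectation under the Bernoulli measure of the diagonals -/
private noncomputable def ex (N : ℕ) (W : ℤ × ℤ → ℝ) (κ : ℝ) (f : Finset (ℤ ⊕ ℤ) → ℝ) : ℝ :=
  ∑ U ∈ (gd N).powerset, bern (gd N) (pp N W κ) U * f U

private theorem ex_mul (N : ℕ) (W : ℤ × ℤ → ℝ) (κ c : ℝ) (f : Finset (ℤ ⊕ ℤ) → ℝ) :
    ex N W κ (fun U => c * f U) = c * ex N W κ f := by
  unfold ex
  rw [mul_sum]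
  exact sum_congr rfl fun U _ => by ring

private theorem ex_sum {ι : Type*} (N : ℕ) (W : ℤ × ℤ → ℝ) (κ : ℝ) (s : Finset ι)
    (f : ι → Finset (ℤ ⊕ ℤ) → ℝ) :
    ex N W κ (fun U => ∑ i ∈ s, f i U) = ∑ i ∈ s, ex N W κ (f i) := by
  unfold ex
  simp only [mul_sum]
  rw [sum_comm]

private theorem mem_gd {N : ℕ} {e : ℤ × ℤ} (he : e ∈ board N) :
    Sum.inr (e.1 + e.2) ∈ gd N ∧ Sum.inl (e.1 - e.2) ∈ gd N := by
  have h := Pool.Agent.NQ.mem_board.1 he
  unfold gd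
  rw [inr_mem_disjSum, inl_mem_disjSum, mem_Icc, mem_Icc]
  refine ⟨⟨?_, ?_⟩, ⟨?_, ?_⟩⟩ <;> omega

/-- expectations of the factors -/
private theorem ex2 {N : ℕ} (W : ℤ × ℤ → ℝ) (κ t : ℝ) {e : ℤ × ℤ} (he : e ∈ board N) :
    ex N W κ (fun U => af t U 2 e) = 1 - (1 - t) * pp N W κ (Sum.inr (e.1 + e.2)) := by
  have h := bern_S (gd N) (pp N W κ) t (S := {Sum.inr (e.1 + e.2)})
    (by simpa using (mem_gd he).1)
  rw [prod_singleton] at h
  rw [← h]
  unfold ex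
  refine sum_congr rfl fun U _ => ?_
  rw [prod_singleton]
  simp only [af2]

private theorem ex3 {N : ℕ} (W : ℤ × ℤ → ℝ) (κ t : ℝ) {e : ℤ × ℤ} (he : e ∈ board N) :
    ex N W κ (fun U => af t U 3 e) = 1 - (1 - t) * pp N W κ (Sum.inl (e.1 - e.2)) := by
  have h := bern_S (gd N) (pp N W κ) t (S := {Sum.inl (e.1 - e.2)})
    (by simpa using (mem_gd he).2)
  rw [prod_singleton] at h
  rw [← h]
  unfold ex
  refine sum_congr rfl fun U _ => ?_
  rw [prod_singleton]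
  simp only [af3]

private theorem ex23 {N : ℕ} (W : ℤ × ℤ → ℝ) (κ t : ℝ) {e : ℤ × ℤ} (he : e ∈ board N) :
    ex N W κ (fun U => af t U 2 e * af t U 3 e) =
      (1 - (1 - t) * pp N W κ (Sum.inr (e.1 + e.2))) *
        (1 - (1 - t) * pp N W κ (Sum.inl (e.1 - e.2))) := by
  have hs : ({Sum.inr (e.1 + e.2), Sum.inl (e.1 - e.2)} : Finset (ℤ ⊕ ℤ)) ⊆ gd N := by
    intro u hu
    rw [mem_insert, mem_singleton] at hu
    rcases hu with rfl | rfl
    · exact (mem_gd he).1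
    · exact (mem_gd he).2
  have hne : (Sum.inr (e.1 + e.2) : ℤ ⊕ ℤ) ≠ Sum.inl (e.1 - e.2) := by simp
  have h := bern_S (gd N) (pp N W κ) t hs
  rw [prod_pair hne] at h
  rw [← h]
  unfold ex
  refine sum_congr rfl fun U _ => ?_
  rw [prod_pair hne]
  simp only [af2, af3]

private theorem ex4 {N : ℕ} (W : ℤ × ℤ → ℝ) (κ t : ℝ) {e e' : ℤ × ℤ} (he : e ∈ board N)
    (he' : e' ∈ board N) (h2 : e.1 + e.2 ≠ e'.1 + e'.2) (h3 : e.1 - e.2 ≠ e'.1 - e'.2) :
    ex N W κ (fun U => af t U 2 e * af t U 3 e * (af t U 2 e' * af t U 3 e')) =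
      (1 - (1 - t) * pp N W κ (Sum.inr (e.1 + e.2))) *
        (1 - (1 - t) * pp N W κ (Sum.inl (e.1 - e.2))) *
      ((1 - (1 - t) * pp N W κ (Sum.inr (e'.1 + e'.2))) *
        (1 - (1 - t) * pp N W κ (Sum.inl (e'.1 - e'.2)))) := by
  have hs : ({Sum.inr (e.1 + e.2), Sum.inl (e.1 - e.2), Sum.inr (e'.1 + e'.2),
      Sum.inl (e'.1 - e'.2)} : Finset (ℤ ⊕ ℤ)) ⊆ gd N := by
    intro u hu
    rw [mem_insert, mem_insert, mem_insert, mem_singleton] at hu
    rcases hu with rfl | rfl | rfl | rfl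
    · exact (mem_gd he).1
    · exact (mem_gd he).2
    · exact (mem_gd he').1
    · exact (mem_gd he').2
  have hp : ∀ f : ℤ ⊕ ℤ → ℝ, ∏ i ∈ ({Sum.inr (e.1 + e.2), Sum.inl (e.1 - e.2),
      Sum.inr (e'.1 + e'.2), Sum.inl (e'.1 - e'.2)} : Finset (ℤ ⊕ ℤ)), f i =
      f (Sum.inr (e.1 + e.2)) * f (Sum.inl (e.1 - e.2)) *
        (f (Sum.inr (e'.1 + e'.2)) * f (Sum.inl (e'.1 - e'.2))) := by
    intro f
    rw [prod_insert (by simp [h2]), prod_insert (by simp [h3]), prod_pair (by simp)]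
    ring
  have h := bern_S (gd N) (pp N W κ) t hs
  rw [hp] at h
  rw [← h]
  unfold ex
  refine sum_congr rfl fun U _ => ?_
  rw [hp]
  simp only [af2, af3]

/-- the relevant inequalities for one diagonal -/
private theorem dia {t κ p L : ℝ} (ht0 : 0 < t) (ht1 : t ≤ 1) (hp0 : 0 ≤ p) (hL : 1 ≤ L)
    (hp : 1 / L ≤ 1 - p) (hκ : 0 < κ) (hκ1 : κ ≤ 1) :
    0 ≤ 1 - (1 - t) * max p κ ∧ 1 - (1 - t) * max p κ ≤ 1 ∧ 0 < 1 - (1 - t) * p ∧
      1 - (1 - t) * p ≤ 1 ∧ 1 - (1 - t) * p - κ ≤ 1 - (1 - t) * max p κ ∧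
      1 - (1 - t) * max p κ ≤ 1 - (1 - t) * p := by
  have hL0 : 0 < 1 / L := by positivity
  have hp1 : p ≤ 1 := by linarith
  have h1 : max p κ ≤ 1 := max_le hp1 hκ1
  have h2 : 0 ≤ max p κ := hκ.le.trans (le_max_right _ _)
  have h3 : max p κ ≤ p + κ := max_le (by linarith) (by linarith)
  have h4 : p ≤ max p κ := le_max_left _ _
  have h5 : 0 ≤ 1 - t := by linarith
  have h6 : (1 - t) * max p κ ≤ 1 := mul_le_one₀ (by linarith) h2 h1
  have h7 : 0 ≤ (1 - t) * max p κ := mul_nonneg h5 h2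
  have h8 : (1 - t) * p ≤ p := mul_le_of_le_one_left hp0 (by linarith)
  have h9 : 0 ≤ (1 - t) * p := mul_nonneg h5 hp0
  have h10 : (1 - t) * max p κ ≤ (1 - t) * (p + κ) := mul_le_mul_of_nonneg_left h3 h5
  have h11 : (1 - t) * κ ≤ κ := mul_le_of_le_one_left hκ.le (by linarith)
  have h12 : (1 - t) * p ≤ (1 - t) * max p κ := mul_le_mul_of_nonneg_left h4 h5
  refine ⟨by linarith, by linarith, by linarith, by linarith, by nlinarith, by linarith⟩

private theorem dsum_nn {L : ℝ} {N : ℕ} {W : ℤ × ℤ → ℝ} {A B : ℤ → ℝ} (hR : Rf L N W A B)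
    (j : Fin 4) (s : ℤ) : 0 ≤ dsum N W j s :=
  sum_nonneg fun e _ => hR.adm.nn e

theorem FL_exp {L : ℝ} (hL : 1 ≤ L) {N k : ℕ} {W : ℤ × ℤ → ℝ} {A B : ℤ → ℝ} (hR : Rf L N W A B)
    (hk : 1 ≤ k) (hkN : k ≤ N) {l : Li} (hl : l ∈ full N) {κ : ℝ} (hκ : 0 < κ) (hκ1 : κ ≤ 1) :
    |∑ U ∈ (gd N).powerset, bern (gd N) (pp N W κ) U * FL N W k l U - TT N W k l| ≤ 2 * L ^ 3 * κ := by
  obtain ⟨ht0, ht1, hk0, hN0⟩ := tf_t hk hkN
  obtain ⟨t, ht⟩ : ∃ t : ℝ, t = (k : ℝ) / N := ⟨_, rfl⟩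
  rw [← ht] at ht0 ht1
  obtain ⟨S, hS⟩ : ∃ S, S = (board N).filter (fun e => On e l) := ⟨_, rfl⟩
  have hSb : ∀ e ∈ S, e ∈ board N := fun e he => by
    rw [hS] at he
    exact (mem_filter.1 he).1
  have hSon : ∀ e ∈ S, ln l.1 e = l.2 := fun e he => by
    rw [hS] at he
    exact (mem_filter.1 he).2
  have hScard : (S.card : ℝ) ≤ N := by
    have h1 := Sl_card (vd_full (hk.trans hkN)) hl
    have h2 : Sl N (full N) l = S := by
      unfold Sl
      rw [Sq_full, hS]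
    rw [h2] at h1
    exact_mod_cast h1
  have hw : ∀ e ∈ S, 0 ≤ Wn N W k e ∧ Wn N W k e ≤ L ^ 3 / k := fun e he => by
    have h1 := wn_bd hL hR hk hkN (hSb e he)
    exact ⟨le_trans (by positivity) h1.1, h1.2⟩
  -- reduction
  have hred : ∀ m m0 : ℤ × ℤ → ℝ,
      (∀ e ∈ S, ex N W κ (fun U => ∏ k' ∈ univ.erase l.1, af t U k' e) = m e) →
      (∀ e ∈ S, |m e - m0 e| ≤ t * (2 * κ)) → (∑ e ∈ S, Wn N W k e * m0 e = TT N W k l) →
      |∑ U ∈ (gd N).powerset, bern (gd N) (pp N W κ) U * FL N W k l U - TT N W k l| ≤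
        2 * L ^ 3 * κ := by
    intro m m0 hm hmm h0
    have e1 : ∑ U ∈ (gd N).powerset, bern (gd N) (pp N W κ) U * FL N W k l U =
        ∑ e ∈ S, Wn N W k e * m e := by
      have e2 : ∑ U ∈ (gd N).powerset, bern (gd N) (pp N W κ) U * FL N W k l U =
          ex N W κ (fun U => ∑ e ∈ S, Wn N W k e * ∏ k' ∈ univ.erase l.1, af t U k' e) := by
        unfold ex FL
        rw [hS, ht]
      rw [e2, ex_sum]
      refine sum_congr rfl fun e he => ?_
      rw [ex_mul, hm e he]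
    rw [e1, ← h0, ← sum_sub_distrib]
    refine (abs_sum_le_sum_abs _ _).trans ?_
    calc ∑ e ∈ S, |Wn N W k e * m e - Wn N W k e * m0 e|
        ≤ ∑ e ∈ S, L ^ 3 / k * (t * (2 * κ)) := by
          refine sum_le_sum fun e he => ?_
          rw [← mul_sub, abs_mul, abs_of_nonneg (hw e he).1]
          exact mul_le_mul (hw e he).2 (hmm e he) (abs_nonneg _) (by positivity)
      _ = S.card * (L ^ 3 / k * (t * (2 * κ))) := by rw [sum_const, nsmul_eq_mul]
      _ ≤ N * (L ^ 3 / k * (t * (2 * κ))) :=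
          mul_le_mul_of_nonneg_right hScard (by positivity)
      _ = 2 * L ^ 3 * κ := by
          rw [ht]
          field_simp
  -- the diagonals
  have hq2 : ∀ e : ℤ × ℤ, 1 / L ≤ 1 - dsum N W 2 (e.1 + e.2) := fun e => hR.bd.sd _
  have hq3 : ∀ e : ℤ × ℤ, 1 / L ≤ 1 - dsum N W 3 (e.1 - e.2) := fun e => hR.bd.dd _
  have d2 := fun e : ℤ × ℤ => dia ht0 ht1 (dsum_nn hR 2 (e.1 + e.2)) hL (hq2 e) hκ hκ1
  have d3 := fun e : ℤ × ℤ => dia ht0 ht1 (dsum_nn hR 3 (e.1 - e.2)) hL (hq3 e) hκ hκ1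
  have hWn : ∀ e : ℤ × ℤ, Wn N W k e * (t * ((1 - (1 - t) * dsum N W 2 (e.1 + e.2)) *
      (1 - (1 - t) * dsum N W 3 (e.1 - e.2)))) = W e := by
    intro e
    unfold Wn
    rw [← ht, mul_assoc t]
    exact div_mul_cancel₀ _ (mul_pos ht0 (mul_pos (d2 e).2.2.1 (d3 e).2.2.1)).ne'
  have hsum : ∑ e ∈ S, W e = dsum N W l.1 l.2 := by
    unfold dsum
    rw [hS]
    rfl
  have hprod2 : ∀ e : ℤ × ℤ, |(1 - (1 - t) * max (dsum N W 2 (e.1 + e.2)) κ) *
      (1 - (1 - t) * max (dsum N W 3 (e.1 - e.2)) κ) - (1 - (1 - t) * dsum N W 2 (e.1 + e.2)) *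
      (1 - (1 - t) * dsum N W 3 (e.1 - e.2))| ≤ 2 * κ := by
    intro e
    obtain ⟨a1, a2, a3, a4, a5, a6⟩ := d2 e
    obtain ⟨b1, b2, b3, b4, b5, b6⟩ := d3 e
    generalize 1 - (1 - t) * max (dsum N W 2 (e.1 + e.2)) κ = g2 at *
    generalize 1 - (1 - t) * max (dsum N W 3 (e.1 - e.2)) κ = g3 at *
    generalize 1 - (1 - t) * dsum N W 2 (e.1 + e.2) = q2 at *
    generalize 1 - (1 - t) * dsum N W 3 (e.1 - e.2) = q3 at *
    have h1 : g2 * g3 - q2 * q3 = -((q2 - g2) * q3 + g2 * (q3 - g3)) := by ring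
    have h2 : 0 ≤ (q2 - g2) * q3 := mul_nonneg (by linarith) b3.le
    have h3 : 0 ≤ g2 * (q3 - g3) := mul_nonneg a1 (by linarith)
    have h4 : (q2 - g2) * q3 ≤ κ * 1 := mul_le_mul (by linarith) b4 b3.le hκ.le
    have h5 : g2 * (q3 - g3) ≤ 1 * κ := mul_le_mul a2 (by linarith) (by linarith) zero_le_one
    rw [h1, abs_neg, abs_of_nonneg (by linarith)]
    linarith
  have hone : ∀ g q : ℝ, q - κ ≤ g → g ≤ q → |t * (t * g) - t * (t * q)| ≤ t * (2 * κ) := by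
    intro g q h1 h2
    have h3 : t * (t * g) - t * (t * q) = -(t * (t * (q - g))) := by ring
    have h4 : 0 ≤ t * (t * (q - g)) := mul_nonneg ht0.le (mul_nonneg ht0.le (by linarith))
    rw [h3, abs_neg, abs_of_nonneg h4]
    refine mul_le_mul_of_nonneg_left ?_ ht0.le
    calc t * (q - g) ≤ 1 * κ := mul_le_mul ht1 (by linarith) (by linarith) zero_le_one
      _ ≤ 2 * κ := by linarith
  rcases cases4 l.1 with h | h | h | h
  · -- rows
    have hrc : rc l := by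
      unfold rc
      rw [h]
      decide
    refine hred (fun e => t * ((1 - (1 - t) * max (dsum N W 2 (e.1 + e.2)) κ) *
      (1 - (1 - t) * max (dsum N W 3 (e.1 - e.2)) κ)))
      (fun e => t * ((1 - (1 - t) * dsum N W 2 (e.1 + e.2)) *
      (1 - (1 - t) * dsum N W 3 (e.1 - e.2)))) (fun e he => ?_) (fun e he => ?_) ?_
    · rw [h]
      simp only [er0, af1]
      rw [ex_mul, ex23 W κ t (hSb e he)]
      rfl
    · rw [← mul_sub, abs_mul, abs_of_pos ht0]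
      exact mul_le_mul_of_nonneg_left (hprod2 e) ht0.le
    · rw [tt_rc hrc, sum_congr rfl fun e _ => hWn e, hsum, h]
      obtain ⟨e, he, hel⟩ := mem_full.1 hl
      rw [h] at hel
      have hb := Pool.Agent.NQ.mem_board.1 he
      rw [← hel]
      exact hR.adm.row _ hb.1.1 hb.1.2
  · -- columns
    have hrc : rc l := by
      unfold rc
      rw [h]
      decide
    refine hred (fun e => t * ((1 - (1 - t) * max (dsum N W 2 (e.1 + e.2)) κ) *
      (1 - (1 - t) * max (dsum N W 3 (e.1 - e.2)) κ)))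
      (fun e => t * ((1 - (1 - t) * dsum N W 2 (e.1 + e.2)) *
      (1 - (1 - t) * dsum N W 3 (e.1 - e.2)))) (fun e he => ?_) (fun e he => ?_) ?_
    · rw [h]
      simp only [er1, af0]
      rw [ex_mul, ex23 W κ t (hSb e he)]
      rfl
    · rw [← mul_sub, abs_mul, abs_of_pos ht0]
      exact mul_le_mul_of_nonneg_left (hprod2 e) ht0.le
    · rw [tt_rc hrc, sum_congr rfl fun e _ => hWn e, hsum, h]
      obtain ⟨e, he, hel⟩ := mem_full.1 hl
      rw [h] at hel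
      have hb := Pool.Agent.NQ.mem_board.1 he
      rw [← hel]
      exact hR.adm.col _ hb.2.1 hb.2.2
  · -- sum diagonals
    have hrc : ¬ rc l := by
      unfold rc
      rw [h]
      decide
    refine hred (fun e => t * (t * (1 - (1 - t) * max (dsum N W 3 (e.1 - e.2)) κ)))
      (fun e => t * (t * (1 - (1 - t) * dsum N W 3 (e.1 - e.2)))) (fun e he => ?_)
      (fun e he => hone _ _ (d3 e).2.2.2.2.1 (d3 e).2.2.2.2.2) ?_
    · rw [h]
      simp only [er2, af0, af1]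
      rw [ex_mul, ex_mul, ex3 W κ t (hSb e he)]
      rfl
    · obtain ⟨q, hq⟩ : ∃ q, q = 1 - (1 - t) * dsum N W l.1 l.2 := ⟨_, rfl⟩
      have hql : ∀ e ∈ S, 1 - (1 - t) * dsum N W 2 (e.1 + e.2) = q := by
        intro e he
        have h1 := hSon e he
        rw [hq, h]
        rw [h] at h1
        rw [← h1]
        rfl
      obtain ⟨e₀, he₀, hel⟩ := mem_full.1 hl
      have hq0 : q ≠ 0 := by
        rw [← hql e₀ (by rw [hS]; exact mem_filter.2 ⟨he₀, hel⟩)]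
        exact (d2 e₀).2.2.1.ne'
      unfold TT
      rw [if_neg hrc, ← ht, ← hq, eq_div_iff hq0, ← hsum, sum_mul, mul_sum]
      refine sum_congr rfl fun e he => ?_
      rw [← hWn e, hql e he]
      ring
  · -- difference diagonals
    have hrc : ¬ rc l := by
      unfold rc
      rw [h]
      decide
    refine hred (fun e => t * (t * (1 - (1 - t) * max (dsum N W 2 (e.1 + e.2)) κ)))
      (fun e => t * (t * (1 - (1 - t) * dsum N W 2 (e.1 + e.2)))) (fun e he => ?_)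
      (fun e he => hone _ _ (d2 e).2.2.2.2.1 (d2 e).2.2.2.2.2) ?_
    · rw [h]
      simp only [er3, af0, af1]
      rw [ex_mul, ex_mul, ex2 W κ t (hSb e he)]
      rfl
    · obtain ⟨q, hq⟩ : ∃ q, q = 1 - (1 - t) * dsum N W l.1 l.2 := ⟨_, rfl⟩
      have hql : ∀ e ∈ S, 1 - (1 - t) * dsum N W 3 (e.1 - e.2) = q := by
        intro e he
        have h1 := hSon e he
        rw [hq, h]
        rw [h] at h1
        rw [← h1]
        rfl
      obtain ⟨e₀, he₀, hel⟩ := mem_full.1 hl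
      have hq0 : q ≠ 0 := by
        rw [← hql e₀ (by rw [hS]; exact mem_filter.2 ⟨he₀, hel⟩)]
        exact (d3 e₀).2.2.1.ne'
      unfold TT
      rw [if_neg hrc, ← ht, ← hq, eq_div_iff hq0, ← hsum, sum_mul, mul_sum]
      refine sum_congr rfl fun e he => ?_
      rw [← hWn e, hql e he]
      ring

theorem FG_exp {L : ℝ} (hL : 1 ≤ L) {N k : ℕ} {W : ℤ × ℤ → ℝ} {A B : ℤ → ℝ} (hR : Rf L N W A B)
    (hk : 1 ≤ k) (hkN : k ≤ N) {x x' : ℤ} (hx : 0 ≤ x ∧ x < N) (hx' : 0 ≤ x' ∧ x' < N) (hxx : x ≠ x') {κ : ℝ}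
    (hκ : 0 < κ) (hκ1 : κ ≤ 1) :
    1 / L ^ 2 - 4 * L ^ 6 * κ ≤ ∑ U ∈ (gd N).powerset, bern (gd N) (pp N W κ) U * FG N W k x x' U := by
  obtain ⟨ht0, ht1, hk0, hN0⟩ := tf_t hk hkN
  obtain ⟨t, ht⟩ : ∃ t : ℝ, t = (k : ℝ) / N := ⟨_, rfl⟩
  rw [← ht] at ht0 ht1
  have hq2 : ∀ e : ℤ × ℤ, 1 / L ≤ 1 - dsum N W 2 (e.1 + e.2) := fun e => hR.bd.sd _
  have hq3 : ∀ e : ℤ × ℤ, 1 / L ≤ 1 - dsum N W 3 (e.1 - e.2) := fun e => hR.bd.dd _
  have d2 := fun e : ℤ × ℤ => dia ht0 ht1 (dsum_nn hR 2 (e.1 + e.2)) hL (hq2 e) hκ hκ1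
  have d3 := fun e : ℤ × ℤ => dia ht0 ht1 (dsum_nn hR 3 (e.1 - e.2)) hL (hq3 e) hκ hκ1
  have hWn : ∀ e : ℤ × ℤ, Wn N W k e * (t * ((1 - (1 - t) * dsum N W 2 (e.1 + e.2)) *
      (1 - (1 - t) * dsum N W 3 (e.1 - e.2)))) = W e := by
    intro e
    unfold Wn
    rw [← ht, mul_assoc t]
    exact div_mul_cancel₀ _ (mul_pos ht0 (mul_pos (d2 e).2.2.1 (d3 e).2.2.1)).ne'
  have hbx : ∀ y ∈ Ico (0 : ℤ) N, (x, y) ∈ board N := fun y hy =>
    Pool.Agent.NQ.mem_board.2 ⟨hx, mem_Ico.1 hy⟩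
  have hbx' : ∀ y ∈ Ico (0 : ℤ) N, (x', y) ∈ board N := fun y hy =>
    Pool.Agent.NQ.mem_board.2 ⟨hx', mem_Ico.1 hy⟩
  have hw : ∀ e ∈ board N, 0 ≤ Wn N W k e ∧ Wn N W k e ≤ L ^ 3 / k := fun e he => by
    have h1 := wn_bd hL hR hk hkN he
    exact ⟨le_trans (by positivity) h1.1, h1.2⟩
  have e1 : ∑ U ∈ (gd N).powerset, bern (gd N) (pp N W κ) U * FG N W k x x' U =
      k * ∑ y ∈ Ico (0 : ℤ) N, Wn N W k (x, y) * Wn N W k (x', y) * t *
        ex N W κ (fun U => af t U 2 (x, y) * af t U 3 (x, y) *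
          (af t U 2 (x', y) * af t U 3 (x', y))) := by
    have e2 : ∑ U ∈ (gd N).powerset, bern (gd N) (pp N W κ) U * FG N W k x x' U =
        ex N W κ (fun U => k * ∑ y ∈ Ico (0 : ℤ) N, Wn N W k (x, y) * Wn N W k (x', y) * t *
          (af t U 2 (x, y) * af t U 3 (x, y) * (af t U 2 (x', y) * af t U 3 (x', y)))) := by
      unfold ex FG
      rw [ht]
    rw [e2, ex_mul, ex_sum]
    congr 1
    exact sum_congr rfl fun y _ => ex_mul _ _ _ _ _
  have key : ∀ y ∈ Ico (0 : ℤ) N, 1 / (L * N) * (1 / (L * N)) / t -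
      L ^ 3 / k * (L ^ 3 / k) * t * (4 * κ) ≤
      Wn N W k (x, y) * Wn N W k (x', y) * t *
        ex N W κ (fun U => af t U 2 (x, y) * af t U 3 (x, y) *
          (af t U 2 (x', y) * af t U 3 (x', y))) := by
    intro y hy
    rw [ex4 W κ t (hbx y hy) (hbx' y hy) (by simp [hxx]) (by simp [hxx])]
    obtain ⟨a1, a2, a3, a4, a5, a6⟩ := d2 (x, y)
    obtain ⟨b1, b2, b3, b4, b5, b6⟩ := d3 (x, y)
    obtain ⟨c1, c2, c3, c4, c5, c6⟩ := d2 (x', y)
    obtain ⟨f1, f2, f3, f4, f5, f6⟩ := d3 (x', y)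
    have w1 := hw _ (hbx y hy)
    have w2 := hw _ (hbx' y hy)
    have l1 := hR.bd.lo _ (hbx y hy)
    have l2 := hR.bd.lo _ (hbx' y hy)
    rw [← hWn] at l1 l2
    show _ ≤ Wn N W k (x, y) * Wn N W k (x', y) * t *
      ((1 - (1 - t) * max (dsum N W 2 ((x, y).1 + (x, y).2)) κ) *
        (1 - (1 - t) * max (dsum N W 3 ((x, y).1 - (x, y).2)) κ) *
      ((1 - (1 - t) * max (dsum N W 2 ((x', y).1 + (x', y).2)) κ) *
        (1 - (1 - t) * max (dsum N W 3 ((x', y).1 - (x', y).2)) κ)))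
    generalize 1 - (1 - t) * max (dsum N W 2 ((x, y).1 + (x, y).2)) κ = g1 at *
    generalize 1 - (1 - t) * max (dsum N W 3 ((x, y).1 - (x, y).2)) κ = g2 at *
    generalize 1 - (1 - t) * max (dsum N W 2 ((x', y).1 + (x', y).2)) κ = g3 at *
    generalize 1 - (1 - t) * max (dsum N W 3 ((x', y).1 - (x', y).2)) κ = g4 at *
    generalize 1 - (1 - t) * dsum N W 2 ((x, y).1 + (x, y).2) = q1 at *
    generalize 1 - (1 - t) * dsum N W 3 ((x, y).1 - (x, y).2) = q2 at *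
    generalize 1 - (1 - t) * dsum N W 2 ((x', y).1 + (x', y).2) = q3 at *
    generalize 1 - (1 - t) * dsum N W 3 ((x', y).1 - (x', y).2) = q4 at *
    generalize Wn N W k (x, y) = w at *
    generalize Wn N W k (x', y) = w' at *
    have hg : q1 * q2 * (q3 * q4) - 4 * κ ≤ g1 * g2 * (g3 * g4) := by
      have i1 : q1 * q2 * (q3 * q4) - g1 * g2 * (g3 * g4) = (q1 - g1) * (q2 * (q3 * q4)) +
          (q2 - g2) * (g1 * (q3 * q4)) + (q3 - g3) * (g1 * (g2 * q4)) +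
          (q4 - g4) * (g1 * (g2 * g3)) := by ring
      have j1 : (q1 - g1) * (q2 * (q3 * q4)) ≤ κ * 1 := mul_le_mul (by linarith)
        (mul_le_one₀ b4 (by positivity) (mul_le_one₀ c4 f3.le f4)) (by positivity) hκ.le
      have j2 : (q2 - g2) * (g1 * (q3 * q4)) ≤ κ * 1 := mul_le_mul (by linarith)
        (mul_le_one₀ a2 (by positivity) (mul_le_one₀ c4 f3.le f4)) (by positivity) hκ.le
      have j3 : (q3 - g3) * (g1 * (g2 * q4)) ≤ κ * 1 := mul_le_mul (by linarith)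
        (mul_le_one₀ a2 (by positivity) (mul_le_one₀ b2 f3.le f4)) (by positivity) hκ.le
      have j4 : (q4 - g4) * (g1 * (g2 * g3)) ≤ κ * 1 := mul_le_mul (by linarith)
        (mul_le_one₀ a2 (by positivity) (mul_le_one₀ b2 c1 c2)) (by positivity) hκ.le
      linarith
    have hc0 : 0 ≤ w * w' * t := mul_nonneg (mul_nonneg w1.1 w2.1) ht0.le
    have h1 := mul_le_mul_of_nonneg_left hg hc0
    have h2 : w * w' * t ≤ L ^ 3 / k * (L ^ 3 / k) * t :=
      mul_le_mul_of_nonneg_right (mul_le_mul w1.2 w2.2 w2.1 (by positivity)) ht0.le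
    have h3 : w * w' * t * (4 * κ) ≤ L ^ 3 / k * (L ^ 3 / k) * t * (4 * κ) :=
      mul_le_mul_of_nonneg_right h2 (by positivity)
    have h4 : 1 / (L * N) * (1 / (L * N)) ≤
        w * (t * (q1 * q2)) * (w' * (t * (q3 * q4))) :=
      mul_le_mul l1 l2 (by positivity)
        (mul_nonneg w1.1 (mul_nonneg ht0.le (mul_nonneg a3.le b3.le)))
    have h5 : 1 / (L * N) * (1 / (L * N)) / t ≤ w * w' * t * (q1 * q2 * (q3 * q4)) := by
      rw [div_le_iff₀ ht0]
      refine h4.trans (le_of_eq ?_)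
      ring
    linarith
  rw [e1]
  have h6 : (∑ _y ∈ Ico (0 : ℤ) N, (1 / (L * N) * (1 / (L * N)) / t -
      L ^ 3 / k * (L ^ 3 / k) * t * (4 * κ))) = N * (1 / (L * N) * (1 / (L * N)) / t -
      L ^ 3 / k * (L ^ 3 / k) * t * (4 * κ)) := by
    rw [sum_const, Int.card_Ico, sub_zero, Int.toNat_natCast, nsmul_eq_mul]
  have h7 := mul_le_mul_of_nonneg_left (sum_le_sum key) hk0.le
  rw [h6] at h7
  refine le_trans (le_of_eq ?_) h7
  rw [ht]
  have hL0 : L ≠ 0 := by positivity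
  field_simp

end Pool.Agent.NQL
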