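import Pool.Agent.NQL.Defs
import Pool.Agent.NQR.PLow
import Pool.Agent.NQR.SL1
import Pool.Agent.NQR.SL1b
import Pool.Agent.NQR.YCnt

/-! # NQL-TLow: the number of configurations with a hole and of full configurations -/

set_option autoImplicit false

open Finset

namespace Pool.Agent.NQL

open Pool.Agent.NQ (board dsum F Ent Dg phi ln Q Qset QS NonAtt bern)
open Pool.Agent.NQR (Adm Opt Bd Rf hS hD hh InR)

open Pool.Agent.NQR (Ys)
open Pool.Agent.NQ (st cellD)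
open Pool.Agent.NQR (ll ro cl DI SI cY hole YF Wh class_ref si_card)

private theorem plow_le_one {N : ℕ} {W : ℤ × ℤ → ℝ} (hW : Adm N W) : (∀ s, dsum N W 0 s ≤ 1) ∧
    ∀ s, dsum N W 1 s ≤ 1 := by
  constructor
  · intro s
    by_cases hs : 0 ≤ s ∧ s < N
    · exact (hW.row s hs.1 hs.2).le
    · have h1 : (board N).filter (fun e => ln 0 e = s) = ∅ := by
        rw [filter_eq_empty_iff]
        intro e he h2
        rw [Pool.Agent.NQ.mem_board] at he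
        have h3 : e.1 = s := h2
        rw [h3] at he
        exact hs he.1
      unfold dsum
      rw [h1, sum_empty]
      exact zero_le_one
  · intro s
    by_cases hs : 0 ≤ s ∧ s < N
    · exact (hW.col s hs.1 hs.2).le
    · have h1 : (board N).filter (fun e => ln 1 e = s) = ∅ := by
        rw [filter_eq_empty_iff]
        intro e he h2
        rw [Pool.Agent.NQ.mem_board] at he
        have h3 : e.2 = s := h2
        rw [h3] at he
        exact hs he.2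
      unfold dsum
      rw [h1, sum_empty]
      exact zero_le_one

private theorem plow_tot {N : ℕ} {W : ℤ × ℤ → ℝ} (hW : Adm N W) : ∑ e ∈ board N, W e = N := by
  have h1 : ∑ e ∈ board N, W e = ∑ x ∈ Finset.Ico (0 : ℤ) N, dsum N W 0 x := by
    unfold dsum
    refine (sum_fiberwise_of_maps_to (g := fun e => ln 0 e) (fun e he => ?_) _).symm
    rw [Pool.Agent.NQ.mem_board] at he
    exact mem_Ico.2 he.1
  rw [h1, sum_congr rfl fun x hx => hW.row x (mem_Ico.1 hx).1 (mem_Ico.1 hx).2, sum_const, Int.card_Ico,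
    sub_zero, Int.toNat_natCast, nsmul_eq_mul, mul_one]

theorem low2 (L : ℝ) (hL : 1 ≤ L) : ∃ z0 : ℕ, ∀ z N : ℕ, z0 ≤ z → InR z N → ∀ W : ℤ × ℤ → ℝ, Adm N W →
    Bd L N W → 0 < Q N ∧ F N W - N - N / (2 * (z : ℝ) ^ 39) ≤ Real.log (Q N) := by
  obtain ⟨Λ0, C, h⟩ := Pool.Agent.NQ.lower
  refine ⟨Λ0 + 2 * C + ⌈L⌉₊ + 2, ?_⟩
  intro z N hz hR W hW hB
  have hz1 : (1 : ℝ) ≤ z := by exact_mod_cast (by omega : 1 ≤ z)
  have hz0 : (0 : ℝ) < z := by linarith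
  have hLz : L ≤ z := (Nat.le_ceil L).trans (by exact_mod_cast (by omega : ⌈L⌉₊ ≤ z))
  have hCz : 2 * (C : ℝ) ≤ z := by exact_mod_cast (by omega : 2 * C ≤ z)
  have hzL : z ≤ z ^ 40 := Nat.le_self_pow (by norm_num) z
  obtain ⟨Λ, hΛ⟩ : ∃ Λ : ℕ, Λ = z ^ 40 := ⟨_, rfl⟩
  have hΛr : (Λ : ℝ) = (z : ℝ) ^ 40 := by rw [hΛ]; push_cast; ring
  have hzΛ : (z : ℝ) ≤ Λ := by rw [hΛ]; exact_mod_cast hzL
  have hΛ1 : (1 : ℝ) ≤ Λ := hz1.trans hzΛ
  have hLΛ : L ≤ Λ := hLz.trans hzΛ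
  have hL0 : 0 < L := by linarith
  have hN1 : (z ^ 40) ^ 500 ≤ N := hR.1
  have hN : 0 < N := lt_of_lt_of_le (pow_pos (pow_pos (by omega : 0 < z) 40) 500) hN1
  have hNr : (0 : ℝ) < N := by exact_mod_cast hN
  have hΛ2 : L ≤ (Λ : ℝ) ^ 2 := hLΛ.trans (le_self_pow₀ hΛ1 (by norm_num))
  have hΛ60 : L ≤ (Λ : ℝ) ^ 60 := hLΛ.trans (le_self_pow₀ hΛ1 (by norm_num))
  have hsq : 1 / (10 * (Λ : ℝ) ^ 2) ≤ 1 / L := by
    refine one_div_le_one_div_of_le hL0 ?_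
    have : 0 ≤ (Λ : ℝ) ^ 2 := by positivity
    linarith
  have hG : Pool.Agent.NQ.GW Λ N W := by
    refine ⟨fun e he => ?_, fun e he => ?_, (plow_le_one hW).1, (plow_le_one hW).2, fun s => ?_,
      fun s => ?_, ?_⟩
    · refine le_trans ?_ (hB.lo e he)
      refine one_div_le_one_div_of_le (by positivity) ?_
      have : 0 ≤ (Λ : ℝ) ^ 2 := by positivity
      exact mul_le_mul_of_nonneg_right (by linarith) hNr.le
    · refine (hB.hi e he).trans ?_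
      exact div_le_div_of_nonneg_right hΛ60 hNr.le
    · have h1 := hB.sd s
      unfold hS at h1
      linarith
    · have h1 := hB.dd s
      unfold hD at h1
      linarith
    · rw [plow_tot hW]
      have h1 : 0 ≤ 1 / (Λ : ℝ) ^ 28 := by positivity
      nlinarith
  have h1 := h Λ N (by rw [hΛ]; omega) (by rw [hΛ]; exact hR.1) (by rw [hΛ]; exact hR.2) W hG
  refine ⟨h1.1, le_trans ?_ h1.2⟩
  have h2 : (C : ℝ) * N / Λ ≤ N / (2 * (z : ℝ) ^ 39) := by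
    rw [hΛr, div_le_div_iff₀ (by positivity) (by positivity)]
    have h3 : (z : ℝ) ^ 40 = z * z ^ 39 := by ring
    rw [h3]
    have h4 : 0 ≤ (N : ℝ) * z ^ 39 := by positivity
    nlinarith [mul_le_mul_of_nonneg_right hCz h4]
  linarith

private theorem pow40 (z a b : ℕ) (h : 40 * b = a) : (z ^ 40) ^ b = z ^ a := by
  rw [← pow_mul, h]

private theorem num_ll {z N : ℕ} (hz : 2 ≤ z) (h : InR z N) :
    0 < ll z N ∧ Even (ll z N) ∧ ll z N ≤ N ∧ ((ll z N : ℤ) : ℝ) ≤ 2 * N / (z : ℝ) ^ 80 ∧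
      (N : ℝ) / (z : ℝ) ^ 80 ≤ (ll z N : ℤ) ∧ 2 * (z : ℝ) ^ 200 ≤ (ll z N : ℤ) := by
  have hz1 : 1 ≤ z := by omega
  have hN : z ^ 280 ≤ N := by
    refine le_trans ?_ h.1
    rw [pow40 z 20000 500 (by norm_num)]
    exact Nat.pow_le_pow_right hz1 (by norm_num)
  have hzp : 0 < z ^ 80 := by positivity
  obtain ⟨q, hq⟩ : ∃ q, q = N / z ^ 80 := ⟨_, rfl⟩
  have hl : ll z N = 2 * (q : ℤ) := by
    unfold ll
    rw [hq]
  have hq200 : z ^ 200 ≤ q := by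
    rw [hq, Nat.le_div_iff_mul_le hzp, ← pow_add]
    exact hN
  have hq1 : 1 ≤ q := le_trans (Nat.one_le_pow _ _ hz1) hq200
  have hmul : q * z ^ 80 ≤ N := by
    rw [hq]
    exact Nat.div_mul_le_self _ _
  have hlt : N < (q + 1) * z ^ 80 := by
    have h1 := Nat.div_add_mod N (z ^ 80)
    have h2 := Nat.mod_lt N hzp
    rw [← hq] at h1
    nlinarith
  have h2 : 2 ≤ z ^ 80 := le_trans hz (Nat.le_self_pow (by norm_num) z)
  have hZp : (0 : ℝ) < (z : ℝ) ^ 80 := by positivity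
  rw [hl]
  refine ⟨by omega, even_two_mul _, ?_, ?_, ?_, ?_⟩
  · have h3 : 2 * q ≤ N := le_trans (by nlinarith) hmul
    exact_mod_cast h3
  · push_cast
    rw [le_div_iff₀ hZp]
    have h3 : (q : ℝ) * (z : ℝ) ^ 80 ≤ N := by exact_mod_cast hmul
    nlinarith
  · push_cast
    rw [div_le_iff₀ hZp]
    have h3 : (N : ℝ) ≤ ((q : ℝ) + 1) * (z : ℝ) ^ 80 := by exact_mod_cast hlt.le
    have h4 : (1 : ℝ) ≤ q := by exact_mod_cast hq1
    refine h3.trans ?_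
    exact mul_le_mul_of_nonneg_right (by linarith) hZp.le
  · push_cast
    have h3 : (z : ℝ) ^ 200 ≤ q := by exact_mod_cast hq200
    linarith

private theorem num_N {z N : ℕ} (hz : 2 ≤ z) (h : InR z N) :
    (z : ℝ) ^ 280 ≤ N ∧ Real.log N ≤ 40040 * z := by
  have hz1 : 1 ≤ z := by omega
  have hN : z ^ 280 ≤ N := by
    refine le_trans ?_ h.1
    rw [pow40 z 20000 500 (by norm_num)]
    exact Nat.pow_le_pow_right hz1 (by norm_num)
  have hN1 : 1 ≤ N := le_trans (Nat.one_le_pow _ _ hz1) hN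
  have hNp : (0 : ℝ) < N := by exact_mod_cast hN1
  have hzp : (0 : ℝ) < z := by exact_mod_cast hz1
  constructor
  · exact_mod_cast hN
  · have h1 : (N : ℝ) ≤ (z : ℝ) ^ 40040 := by
      have h2 := h.2
      rw [pow40 z 40040 1001 (by norm_num)] at h2
      calc (N : ℝ) ≤ ((z ^ 40040 : ℕ) : ℝ) := Nat.cast_le.2 h2
        _ = (z : ℝ) ^ 40040 := Nat.cast_pow z 40040
    have h2 := Real.log_le_log hNp h1
    rw [Real.log_pow] at h2
    have h3 : Real.log z ≤ z := (Real.log_le_sub_one_of_pos hzp).trans (by linarith)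
    have h4 : ((40040 : ℕ) : ℝ) = 40040 := by norm_num
    rw [h4] at h2
    linarith

private theorem num_err {Z R l : ℝ} (hZ : 2 ≤ Z) (hR : Z ^ 280 ≤ R) (hl0 : 0 < l)
    (hl1 : l ≤ 2 * R / Z ^ 80) (hl2 : 2 * Z ^ 200 ≤ l) :
    2 / ((1 / Z ^ 40) ^ 2 * l) ≤ 1 ∧ R * Real.sqrt (l / R) + l ≤ 4 * (R / Z ^ 40) ∧
    R * Real.sqrt (l / R) + l + (1 / Z ^ 40) * R +
      R * (2 / ((1 / Z ^ 40) ^ 2 * l)) ^ (1 / 3 : ℝ) + 1 ≤ 7 * (R / Z ^ 40) := by
  have hZ0 : 0 < Z := by linarith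
  have hZ1 : 1 ≤ Z := by linarith
  have h280 : (0 : ℝ) < Z ^ 280 := by positivity
  have hR0 : 0 < R := lt_of_lt_of_le h280 hR
  have h40 : (0 : ℝ) < Z ^ 40 := by positivity
  have h401 : (1 : ℝ) ≤ Z ^ 40 := one_le_pow₀ hZ1
  have h80 : Z ^ 80 = Z ^ 40 * Z ^ 40 := by rw [← pow_add]
  have hsq : Real.sqrt (l / R) ≤ 2 / Z ^ 40 := by
    rw [Real.sqrt_le_iff]
    refine ⟨by positivity, ?_⟩
    rw [div_le_iff₀ hR0, div_pow]
    refine hl1.trans ?_
    have h1 : (Z ^ 40) ^ 2 = Z ^ 80 := by rw [← pow_mul]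
    rw [h1, div_mul_eq_mul_div]
    apply div_le_div_of_nonneg_right _ (by positivity)
    nlinarith
  have hb : 2 / ((1 / Z ^ 40) ^ 2 * l) ≤ (1 / Z ^ 40) ^ 3 := by
    have h1 : (0 : ℝ) < (1 / Z ^ 40) ^ 2 * l := by positivity
    rw [div_le_iff₀ h1]
    have h2 : (1 / Z ^ 40) ^ 3 * ((1 / Z ^ 40) ^ 2 * l) = l / Z ^ 200 := by
      rw [one_div, inv_pow, inv_pow, ← pow_mul, ← pow_mul]
      have h3 : Z ^ 200 = Z ^ (40 * 3) * Z ^ (40 * 2) := by rw [← pow_add]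
      rw [h3]
      field_simp
    rw [h2, le_div_iff₀ (by positivity)]
    exact hl2
  have hk1 : 1 / Z ^ 40 ≤ 1 := by
    rw [div_le_one h40]
    exact h401
  have hk0 : 0 ≤ 1 / Z ^ 40 := by positivity
  have hcube : (2 / ((1 / Z ^ 40) ^ 2 * l)) ^ (1 / 3 : ℝ) ≤ 1 / Z ^ 40 := by
    have h1 : (2 / ((1 / Z ^ 40) ^ 2 * l)) ^ (1 / 3 : ℝ) ≤ ((1 / Z ^ 40) ^ 3) ^ (1 / 3 : ℝ) :=
      Real.rpow_le_rpow (by positivity) hb (by norm_num)
    have h2 : ((1 / Z ^ 40) ^ 3) ^ (1 / 3 : ℝ) = 1 / Z ^ 40 := by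
      have h3 : (1 / 3 : ℝ) = ((3 : ℕ) : ℝ)⁻¹ := by norm_num
      rw [h3]
      exact Real.pow_rpow_inv_natCast hk0 (by norm_num)
    rw [h2] at h1
    exact h1
  obtain ⟨t, ht⟩ : ∃ t, t = R / Z ^ 40 := ⟨_, rfl⟩
  have ht0 : 0 < t := by
    rw [ht]
    positivity
  have hRt : R * (2 / Z ^ 40) = 2 * t := by
    rw [ht]
    ring
  have hRk : 1 / Z ^ 40 * R = t := by
    rw [ht]
    ring
  have hlt : l ≤ 2 * t := by
    refine hl1.trans ?_
    rw [ht, h80, ← mul_div_assoc]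
    apply div_le_div_of_nonneg_left (by positivity) h40
    nlinarith
  have h1t : 1 ≤ t := by
    rw [ht, le_div_iff₀ h40, one_mul]
    exact (pow_le_pow_right₀ hZ1 (by norm_num)).trans hR
  have hA : R * Real.sqrt (l / R) ≤ 2 * t := by
    rw [← hRt]
    exact mul_le_mul_of_nonneg_left hsq hR0.le
  have hB : R * (2 / ((1 / Z ^ 40) ^ 2 * l)) ^ (1 / 3 : ℝ) ≤ t := by
    rw [← hRk, mul_comm (1 / Z ^ 40) R]
    exact mul_le_mul_of_nonneg_left hcube hR0.le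
  rw [← ht, hRk]
  refine ⟨hb.trans (pow_le_one₀ hk0 hk1), by linarith, by linarith⟩

private theorem q_board {n : ℕ} (Y : Fin n → Fin (n + 1)) (i : Fin n) :
    (ro i, cl (Y i)) ∈ board (n + 1) := by
  unfold board ro cl
  rw [mem_product, mem_Ico, mem_Ico]
  have h1 := i.isLt
  have h2 := (Y i).isLt
  push_cast
  refine ⟨⟨?_, ?_⟩, ?_, ?_⟩ <;> omega

private theorem cell_mem {N : ℕ} (l : ℤ) {e : ℤ × ℤ} (he : e ∈ board N) : cellD l e ∈ DI N l :=
  mem_image_of_mem _ he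

private theorem board_bd {N : ℕ} {e : ℤ × ℤ} (he : e ∈ board N) :
    (0 ≤ e.1 ∧ e.1 < N) ∧ 0 ≤ e.2 ∧ e.2 < N := by
  unfold board at he
  rw [mem_product, mem_Ico, mem_Ico] at he
  exact he

private theorem DI_sub {N : ℕ} {l : ℤ} {D : (ℤ × ℤ) × (ℤ × ℤ)} (hD : D ∈ DI N l) :
    D.1 ∈ SI N l ∧ D.2 ∈ SI N l := by
  obtain ⟨e, he, rfl⟩ := mem_image.1 hD
  have h := board_bd he
  constructor
  · exact mem_image.2 ⟨e.1 + e.2, mem_Icc.2 (by omega), rfl⟩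
  · exact mem_image.2 ⟨e.1 - e.2, mem_Icc.2 (by omega), rfl⟩

private theorem DI_card {N : ℕ} {l : ℤ} : (DI N l).card ≤ (SI N l).card ^ 2 := by
  have h : DI N l ⊆ SI N l ×ˢ SI N l := fun D hD => mem_product.2 (DI_sub hD)
  refine (card_le_card h).trans ?_
  rw [card_product, sq]

private theorem cY_zero {n : ℕ} (Y : Fin n → Fin (n + 1)) {l : ℤ} {D : (ℤ × ℤ) × (ℤ × ℤ)}
    (hD : D ∉ DI (n + 1) l) : cY l Y D = 0 := by
  unfold cY
  rw [card_eq_zero, filter_eq_empty_iff]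
  intro i _ h
  exact hD (h ▸ cell_mem l (q_board Y i))

private theorem cY_lt {n : ℕ} (Y : Fin n → Fin (n + 1)) (l : ℤ) (D : (ℤ × ℤ) × (ℤ × ℤ)) :
    cY l Y D < n + 1 := by
  unfold cY
  refine Nat.lt_succ_of_le ((card_filter_le _ _).trans ?_)
  rw [card_univ, Fintype.card_fin]

open Classical in
private theorem classes {n : ℕ} (l : ℤ) (S : Finset (Fin n → Fin (n + 1))) {E : ℝ} (hE0 : 0 ≤ E)
    (hE : ∀ Y0 ∈ S, ((S.filter (fun Y => hole Y = hole Y0 ∧ ∀ D, cY l Y D = cY l Y0 D)).card : ℝ) ≤ E) :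
    (S.card : ℝ) ≤ ((n : ℝ) + 1) ^ ((DI (n + 1) l).card + 1) * E := by
  let key : (Fin n → Fin (n + 1)) → Fin (n + 1) × ({D // D ∈ DI (n + 1) l} → Fin (n + 1)) :=
    fun Y => (hole Y, fun D => ⟨cY l Y D.1, cY_lt Y l D.1⟩)
  have h1 : (S.card : ℝ) = ∑ a ∈ S.image key, ((S.filter (fun Y => key Y = a)).card : ℝ) := by
    rw [card_eq_sum_card_image key S]
    push_cast
    rfl
  have h2 : ∀ a ∈ S.image key, ((S.filter (fun Y => key Y = a)).card : ℝ) ≤ E := by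
    intro a ha
    obtain ⟨Y0, hY0, rfl⟩ := mem_image.1 ha
    refine le_trans ?_ (hE Y0 hY0)
    refine Nat.cast_le.2 (card_le_card ?_)
    intro Y hY
    rw [mem_filter] at hY ⊢
    refine ⟨hY.1, congrArg Prod.fst hY.2, fun D => ?_⟩
    by_cases hD : D ∈ DI (n + 1) l
    · have h3 := congrFun (congrArg Prod.snd hY.2) ⟨D, hD⟩
      exact congrArg Fin.val h3
    · rw [cY_zero Y hD, cY_zero Y0 hD]
  have h3 : (((S.image key).card : ℕ) : ℝ) ≤ ((n : ℝ) + 1) ^ ((DI (n + 1) l).card + 1) := by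
    have h4 : (S.image key).card ≤ (n + 1) ^ ((DI (n + 1) l).card + 1) := by
      refine (card_le_univ _).trans ?_
      rw [Fintype.card_prod, Fintype.card_fun, Fintype.card_fin, Fintype.card_coe, pow_succ, mul_comm]
    calc (((S.image key).card : ℕ) : ℝ) ≤ (((n + 1) ^ ((DI (n + 1) l).card + 1) : ℕ) : ℝ) :=
          Nat.cast_le.2 h4
      _ = _ := by push_cast; rfl
  rw [h1]
  calc ∑ a ∈ S.image key, ((S.filter (fun Y => key Y = a)).card : ℝ)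
      ≤ ∑ _a ∈ S.image key, E := sum_le_sum h2
    _ = (S.image key).card * E := by rw [sum_const, nsmul_eq_mul]
    _ ≤ _ := mul_le_mul_of_nonneg_right h3 hE0

theorem ys_up (L : ℝ) (hL : 1 ≤ L) : ∃ z0 : ℕ, ∀ z n : ℕ, z0 ≤ z → InR z (n + 1) →
    ∀ (W : ℤ × ℤ → ℝ) (A B : ℤ → ℝ), Rf L (n + 1) W A B → 0 < (Ys n).card →
      Real.log (Ys n).card ≤ F (n + 1) W - (n + 1) + (n + 1) / (4 * (z : ℝ) ^ 39) := by
  classical
  obtain ⟨C, hC1, hC⟩ := class_ref L hL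
  obtain ⟨z0, hz0⟩ := exists_nat_ge (28 * C + 4044050)
  refine ⟨z0, ?_⟩
  intro z n hzz hin W A B hRf hcard
  have hZbig : 28 * C + 4044050 ≤ (z : ℝ) := hz0.trans (by exact_mod_cast hzz)
  have hZ2 : (2 : ℝ) ≤ z := by linarith
  have hz2 : 2 ≤ z := by exact_mod_cast hZ2
  obtain ⟨hl0, hle, hlN, hl1, hl1', hl2⟩ := num_ll hz2 hin
  obtain ⟨hN280, hlogN⟩ := num_N hz2 hin
  obtain ⟨l, hl⟩ : ∃ l, l = ll z (n + 1) := ⟨_, rfl⟩
  rw [← hl] at hl0 hle hlN hl1 hl1' hl2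
  obtain ⟨Z, hZ⟩ : ∃ Z, Z = (z : ℝ) := ⟨_, rfl⟩
  rw [← hZ] at hZbig hZ2 hl1 hl1' hl2 hN280 hlogN ⊢
  obtain ⟨R, hR⟩ : ∃ R, R = (n : ℝ) + 1 := ⟨_, rfl⟩
  have hRc : ((n + 1 : ℕ) : ℝ) = R := by
    rw [hR]
    push_cast
    rfl
  rw [hRc] at hl1 hl1' hN280 hlogN
  rw [← hR]
  have hZ0 : 0 < Z := by linarith
  have hZ1 : 1 ≤ Z := by linarith
  have hlr : (0 : ℝ) < (l : ℝ) := by exact_mod_cast hl0
  have hR0 : 0 < R := lt_of_lt_of_le (by positivity) hN280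
  obtain ⟨hη, herr1, herr2⟩ := num_err hZ2 hN280 hlr hl1 hl2
  obtain ⟨t, ht⟩ : ∃ t, t = R / Z ^ 40 := ⟨_, rfl⟩
  have ht0 : 0 < t := by
    rw [ht]
    positivity
  have e39 : R / (4 * Z ^ 39) = t * Z / 4 := by
    have h3 : Z ^ 40 = Z ^ 39 * Z := pow_succ Z 39
    rw [ht, h3]
    field_simp
  rw [← ht] at herr2
  -- the number of cells
  have hDI : ((DI (n + 1) l).card : ℝ) ≤ 100 * Z ^ 160 := by
    have h1 := si_card hl0 hlN
    rw [hRc] at h1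
    have h2 : 10 * R / (l : ℝ) ≤ 10 * Z ^ 80 := by
      rw [div_le_iff₀ hlr]
      rw [div_le_iff₀ (by positivity)] at hl1'
      nlinarith
    have h3 : (((DI (n + 1) l).card : ℕ) : ℝ) ≤ ((SI (n + 1) l).card : ℝ) ^ 2 := by
      exact_mod_cast DI_card
    refine h3.trans ?_
    calc ((SI (n + 1) l).card : ℝ) ^ 2 ≤ (10 * Z ^ 80) ^ 2 :=
          pow_le_pow_left₀ (Nat.cast_nonneg _) (h1.trans h2) 2
      _ = 100 * Z ^ 160 := by
          rw [mul_pow, ← pow_mul]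
          norm_num
  -- the number of classes
  have hcl : R ^ ((DI (n + 1) l).card + 1) ≤ Real.exp t := by
    rw [← Real.exp_log (pow_pos hR0 ((DI (n + 1) l).card + 1)), Real.log_pow]
    apply Real.exp_le_exp.2
    push_cast
    have hlog0 : 0 ≤ Real.log R := Real.log_nonneg (le_trans (one_le_pow₀ hZ1) hN280)
    have h161 : (0 : ℝ) < Z ^ 160 := by positivity
    have h1160 : (1 : ℝ) ≤ Z ^ 160 := one_le_pow₀ hZ1
    have h1 : ((DI (n + 1) l).card : ℝ) + 1 ≤ 101 * Z ^ 160 := by linarith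
    calc (((DI (n + 1) l).card : ℝ) + 1) * Real.log R ≤ (101 * Z ^ 160) * (40040 * Z) :=
          mul_le_mul h1 hlogN hlog0 (by positivity)
      _ = 4044040 * (Z ^ 160 * Z) := by ring
      _ ≤ Z * (Z ^ 160 * Z) := by
          apply mul_le_mul_of_nonneg_right _ (by positivity)
          linarith
      _ = Z ^ 162 := by ring
      _ ≤ Z ^ 240 := pow_le_pow_right₀ hZ1 (by norm_num)
      _ ≤ t := by
          rw [ht, le_div_iff₀ (by positivity), ← pow_add]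
          exact hN280
  have hM0 : (0 : ℝ) < (Ys n).card := by exact_mod_cast hcard
  -- the classes
  obtain ⟨E, hE⟩ : ∃ E, E = Real.exp (F (n + 1) W - R + C * (7 * t)) := ⟨_, rfl⟩
  have hE0 : 0 ≤ E := by
    rw [hE]
    exact (Real.exp_pos _).le
  have hcls : ∀ Y0 ∈ Ys n,
      (((Ys n).filter (fun Y => hole Y = hole Y0 ∧ ∀ D, cY l Y D = cY l Y0 D)).card : ℝ) ≤ E := by
    intro Y0 hY0
    obtain ⟨K, hK⟩ : ∃ K, K = (Ys n).filter (fun Y => hole Y = hole Y0 ∧ ∀ D, cY l Y D = cY l Y0 D) :=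
      ⟨_, rfl⟩
    rw [← hK]
    have hY0K : Y0 ∈ K := by
      rw [hK, mem_filter]
      exact ⟨hY0, rfl, fun _ => rfl⟩
    have hK0 : (0 : ℝ) < K.card := by exact_mod_cast card_pos.2 ⟨Y0, hY0K⟩
    have hn1 : 1 ≤ n := by
      by_contra hcon
      have h0 : n = 0 := by omega
      rw [h0] at hR
      have h3 : R = 1 := by rw [hR]; norm_num
      rw [h3] at hN280
      have h4 : (2 : ℝ) ≤ Z ^ 280 := hZ2.trans (le_self_pow₀ hZ1 (by norm_num))
      linarith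
    have h2 := hC n W A B hn1 hRf l hl0 hle (by exact_mod_cast hlN) (1 / Z ^ 40) (by positivity)
      (by
        rw [div_le_one (by positivity)]
        exact one_le_pow₀ hZ1) hη Y0 hY0 K (fun Y => by rw [hK, mem_filter])
    rw [← hR] at h2
    rw [← Real.exp_log hK0, hE]
    apply Real.exp_le_exp.2
    have h3 : C * (R * Real.sqrt (l / R) + l + 1 / Z ^ 40 * R +
        R * (2 / ((1 / Z ^ 40) ^ 2 * l)) ^ (1 / 3 : ℝ) + 1) ≤ C * (7 * t) :=
      mul_le_mul_of_nonneg_left herr2 (by linarith)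
    have h4 : 0 ≤ ∑ D ∈ DI (n + 1) l,
        (Real.sqrt (cY l Y0 D) - Real.sqrt (Wh (n + 1) W A B l D)) ^ 2 :=
      sum_nonneg fun _ _ => sq_nonneg _
    linarith
  have hfin := classes l (Ys n) hE0 hcls
  rw [← hR] at hfin
  have hfin2 := hfin.trans (mul_le_mul_of_nonneg_right hcl hE0)
  rw [hE, ← Real.exp_add] at hfin2
  have h5 := Real.log_le_log hM0 hfin2
  rw [Real.log_exp] at h5
  refine h5.trans ?_
  rw [e39]
  nlinarith

end Pool.Agent.NQL
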