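import Pool.Agent.NQL.Defs
import Pool.Agent.NQR.TTil
import Pool.Agent.NQR.TCap
import Pool.Agent.NQR.TSum
import Pool.Agent.NQR.BMcd
import Pool.Agent.NQR.YPot
import Pool.Agent.NQR.SL1b
import Pool.Agent.NQR.TMgf

/-!
# NQL-TOcc: Lipschitz functions of the occupied diagonals are concentrated (configurations with a hole)

The proof of `NQR.mgf` and `NQR.level2` with a function of the occupied diagonals.
-/

set_option autoImplicit false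

open Finset

namespace Pool.Agent.NQL

open Pool.Agent.NQ (board dsum F Ent Dg phi ln Q Qset QS NonAtt bern)
open Pool.Agent.NQR (Adm Opt Bd Rf hS hD hh InR)

open Pool.Agent.NQR (Ys occ gd pp)

open Pool.Agent.NQR (ro cl YF mem_Ys hole dev ll SU mcd tilt cap_le const_le su_le potential
  occ_subset level1)

private theorem to_pp_nonneg {N : ℕ} {W : ℤ × ℤ → ℝ} {κ : ℝ} (hκ : 0 ≤ κ) (u : ℤ ⊕ ℤ) :
    0 ≤ pp N W κ u := by
  cases u <;> exact le_max_of_le_right hκ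

private theorem to_pp_le {N : ℕ} {W : ℤ × ℤ → ℝ} {κ : ℝ} (h : Adm N W) (hκ : κ ≤ 1) (u : ℤ ⊕ ℤ) :
    pp N W κ u ≤ 1 := by
  cases u with
  | inl s => exact max_le (h.dd s) hκ
  | inr s => exact max_le (h.sd s) hκ

private theorem to_pp0_lt {L : ℝ} (hL : 1 ≤ L) {N : ℕ} {W : ℤ × ℤ → ℝ} (h : Bd L N W) (u : ℤ ⊕ ℤ) :
    0 < 1 - pp N W 0 u := by
  have hL0 : 0 < 1 / L := by positivity
  cases u with
  | inl s =>
    have h0 := h.dd s
    unfold hD at h0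
    show 0 < 1 - max (dsum N W 3 s) 0
    rcases max_cases (dsum N W 3 s) 0 with ⟨h1, _⟩ | ⟨h1, _⟩ <;> rw [h1] <;> linarith
  | inr s =>
    have h0 := h.sd s
    unfold hS at h0
    show 0 < 1 - max (dsum N W 2 s) 0
    rcases max_cases (dsum N W 2 s) 0 with ⟨h1, _⟩ | ⟨h1, _⟩ <;> rw [h1] <;> linarith

private theorem to_ro_rng {n : ℕ} (i : Fin n) : 0 ≤ ro i ∧ ro i < ((n + 1 : ℕ) : ℤ) := by
  unfold ro
  have := i.2
  constructor
  · positivity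
  · push_cast
    omega

private theorem to_cl_rng {n : ℕ} (b : Fin (n + 1)) : 0 ≤ cl b ∧ cl b < ((n + 1 : ℕ) : ℤ) := by
  unfold cl
  have := b.2
  constructor
  · positivity
  · exact_mod_cast this

private theorem to_A_pos {L : ℝ} (hL : 1 ≤ L) {n : ℕ} {W : ℤ × ℤ → ℝ} {A B : ℤ → ℝ}
    (h : Rf L (n + 1) W A B) (i : Fin n) : 0 < A (ro i) := by
  refine lt_of_lt_of_le ?_ (h.A1 _ (to_ro_rng i).1 (to_ro_rng i).2)
  have : (0 : ℝ) < ((n + 1 : ℕ) : ℝ) := by positivity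
  positivity

private theorem to_B_pos {L : ℝ} (hL : 1 ≤ L) {n : ℕ} {W : ℤ × ℤ → ℝ} {A B : ℤ → ℝ}
    (h : Rf L (n + 1) W A B) (b : Fin (n + 1)) : 0 < B (cl b) := by
  refine lt_of_lt_of_le ?_ (h.B1 _ (to_cl_rng b).1 (to_cl_rng b).2)
  have : (0 : ℝ) < ((n + 1 : ℕ) : ℝ) := by positivity
  positivity

private theorem to_gd_card (N : ℕ) : ((gd N).card : ℝ) = 4 * N + 2 := by
  unfold gd
  rw [Finset.card_disjSum, Int.card_Icc, Int.card_Icc]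
  have h1 : ((N : ℤ) + 1 - (-(N : ℤ))).toNat = 2 * N + 1 := by omega
  have h2 : (2 * (N : ℤ) + 1 - 0).toNat = 2 * N + 1 := by omega
  rw [h1, h2]
  push_cast
  ring

private theorem to_cube_le {L Z : ℝ} {n : ℕ} (hL : 1 ≤ L) (hZ : 648 * L ≤ Z)
    (hN : Z ^ 33 ≤ (n : ℝ) + 1) :
    3 * L / ((1 / Z ^ 4) ^ 2 * ((n : ℝ) + 1)) ≤ 1 ∧
      6 * n * (3 * L / ((1 / Z ^ 4) ^ 2 * ((n : ℝ) + 1))) ^ (1 / 3 : ℝ) ≤ ((n : ℝ) + 1) / Z ^ 8 := by
  have hZ0 : 0 < Z := by linarith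
  have hZ1 : 1 ≤ Z := by linarith
  have hN0 : (0 : ℝ) < (n : ℝ) + 1 := by positivity
  have e1 : 3 * L / ((1 / Z ^ 4) ^ 2 * ((n : ℝ) + 1)) = 3 * L * Z ^ 8 / ((n : ℝ) + 1) := by
    field_simp
  rw [e1]
  have h1 : 3 * L * Z ^ 8 / ((n : ℝ) + 1) ≤ (1 / (6 * Z ^ 8)) ^ 3 := by
    rw [div_le_iff₀ hN0]
    have h2 : (1 / (6 * Z ^ 8)) ^ 3 * Z ^ 33 ≤ (1 / (6 * Z ^ 8)) ^ 3 * ((n : ℝ) + 1) :=
      mul_le_mul_of_nonneg_left hN (by positivity)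
    refine le_trans ?_ h2
    have h3 : (1 / (6 * Z ^ 8)) ^ 3 * Z ^ 33 = Z ^ 8 * Z / 216 := by
      field_simp
      norm_num
    rw [h3]
    have h4 : 0 < Z ^ 8 := by positivity
    nlinarith
  have h0 : 0 ≤ 3 * L * Z ^ 8 / ((n : ℝ) + 1) := by positivity
  constructor
  · refine h1.trans ?_
    refine pow_le_one₀ (by positivity) ?_
    rw [div_le_one (by positivity)]
    have : 1 ≤ Z ^ 8 := one_le_pow₀ hZ1
    linarith
  · have h2 : (3 * L * Z ^ 8 / ((n : ℝ) + 1)) ^ (1 / 3 : ℝ) ≤ 1 / (6 * Z ^ 8) := by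
      calc (3 * L * Z ^ 8 / ((n : ℝ) + 1)) ^ (1 / 3 : ℝ)
          ≤ ((1 / (6 * Z ^ 8)) ^ 3) ^ (1 / 3 : ℝ) := Real.rpow_le_rpow h0 h1 (by norm_num)
        _ = 1 / (6 * Z ^ 8) := by
          rw [← Real.rpow_natCast, ← Real.rpow_mul (by positivity)]
          norm_num
    have h3 : (0 : ℝ) ≤ 6 * n := by positivity
    calc 6 * n * (3 * L * Z ^ 8 / ((n : ℝ) + 1)) ^ (1 / 3 : ℝ)
        ≤ 6 * n * (1 / (6 * Z ^ 8)) := mul_le_mul_of_nonneg_left h2 h3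
      _ = n / Z ^ 8 := by field_simp
      _ ≤ ((n : ℝ) + 1) / Z ^ 8 := by
        apply div_le_div_of_nonneg_right _ (by positivity)
        linarith

/-- the number of elements of a fibre -/
private theorem to_fibre {L : ℝ} (hL : 1 ≤ L) {z n : ℕ} (hz1 : 1 ≤ (z : ℝ))
    (hz2 : 648 * L ≤ (z : ℝ)) (hN : (z : ℝ) ^ 33 ≤ (n : ℝ) + 1)
    {W : ℤ × ℤ → ℝ} {A B : ℤ → ℝ} (hR : Rf L (n + 1) W A B)
    (U : Finset (ℤ ⊕ ℤ)) (a' : Fin (n + 1))
    (C : Finset (Fin n → Fin (n + 1))) (hC : ∀ Y ∈ C, YF n Y ∧ occ Y = U ∧ hole Y = a')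
    (hCne : C.Nonempty)
    (hsu : SU n W (1 / (z : ℝ) ^ 4) U ≤ (n + 1) + (n + 1) / (z : ℝ) ^ 9) :
    (C.card : ℝ) ≤
      B (cl a') * ((∏ i : Fin n, A (ro i)) * (∏ b : Fin (n + 1), B (cl b)) *
        ∏ u ∈ gd (n + 1), (1 - pp (n + 1) W 0 u))⁻¹ * Real.exp (-(3 * (n : ℝ))) *
      Real.exp (24 * L * (1 / (z : ℝ) ^ 4) ^ 2 * ((n : ℝ) + 1) + 1 + ((n : ℝ) + 1) / (z : ℝ) ^ 9 +
        6 * n * (3 * L / ((1 / (z : ℝ) ^ 4) ^ 2 * ((n : ℝ) + 1))) ^ (1 / 3 : ℝ)) *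
      bern (gd (n + 1)) (pp (n + 1) W (1 / (z : ℝ) ^ 4)) U := by
  have hz0 : (0 : ℝ) < z := by linarith
  obtain ⟨κ, hκ⟩ : ∃ κ : ℝ, κ = 1 / (z : ℝ) ^ 4 := ⟨_, rfl⟩
  have hcube := to_cube_le hL hz2 hN
  rw [← hκ] at hcube
  rw [← hκ]
  rw [← hκ] at hsu
  have hκp : 0 < κ := by rw [hκ]; positivity
  have hz4 : (648 : ℝ) ≤ (z : ℝ) ^ 4 := by
    calc (648 : ℝ) ≤ z := by nlinarith
      _ ≤ (z : ℝ) ^ 4 := le_self_pow₀ hz1 (by norm_num)
  have hκh : κ ≤ 1 / 2 := by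
    rw [hκ]
    exact one_div_le_one_div_of_le (by norm_num) (by linarith)
  have hκN : 1 ≤ κ * ((n + 1 : ℕ) : ℝ) := by
    rw [hκ, one_div, inv_mul_eq_div, le_div_iff₀ (by positivity), one_mul]
    push_cast
    exact (pow_le_pow_right₀ hz1 (by norm_num)).trans hN
  obtain ⟨V, hV⟩ : ∃ V : ℝ, V = (∏ i : Fin n, A (ro i)) * (∏ b : Fin (n + 1), B (cl b)) *
        ∏ u ∈ gd (n + 1), (1 - pp (n + 1) W 0 u) := ⟨_, rfl⟩
  rw [← hV]
  have hVp : 0 < V := by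
    rw [hV]
    refine mul_pos (mul_pos ?_ ?_) ?_
    · exact Finset.prod_pos fun i _ => to_A_pos hL hR i
    · exact Finset.prod_pos fun b _ => to_B_pos hL hR b
    · exact Finset.prod_pos fun u _ => to_pp0_lt hL hR.bd u
  have hBp := to_B_pos hL hR a'
  obtain ⟨Y0, hY0⟩ := hCne
  obtain ⟨hYF0, hocc0, hhole0⟩ := hC Y0 hY0
  have hUgd : U ⊆ gd (n + 1) := by rw [← hocc0]; exact occ_subset Y0
  obtain ⟨P0, hP0⟩ : ∃ P0 : ℝ, P0 = ∏ u ∈ gd (n + 1) \ U, (1 - pp (n + 1) W 0 u) := ⟨_, rfl⟩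
  obtain ⟨Pκ, hPκ⟩ : ∃ Pκ : ℝ, Pκ = ∏ u ∈ gd (n + 1) \ U, (1 - pp (n + 1) W κ u) := ⟨_, rfl⟩
  obtain ⟨Q, hQ⟩ : ∃ Q : ℝ, Q = ∏ u ∈ U, pp (n + 1) W κ u := ⟨_, rfl⟩
  have hP0p : 0 < P0 := by
    rw [hP0]
    exact Finset.prod_pos fun u _ => to_pp0_lt hL hR.bd u
  have hQ0 : 0 ≤ Q := by
    rw [hQ]
    exact Finset.prod_nonneg fun u _ => to_pp_nonneg hκp.le u
  have hbern : bern (gd (n + 1)) (pp (n + 1) W κ) U = Q * Pκ := by
    rw [hQ, hPκ]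
    rfl
  have hPκ0 : 0 ≤ Pκ := by
    rw [hPκ]
    exact Finset.prod_nonneg fun u _ => sub_nonneg.2 (to_pp_le hR.adm (by linarith) u)
  have hcap := cap_le hL hR hκp hκh hκN U
  rw [← hP0, ← hPκ] at hcap
  push_cast at hcap
  have htilt := tilt hL U a' C hC hR.bd hκp (by linarith) (θ := 0) (by simp) hcube.1 a' none
    (fun _ _ => 0) (fun _ _ => ⟨le_refl _, zero_le_one⟩)
  rw [← hQ] at htilt
  simp only [zero_mul, Real.exp_zero, mul_one, sub_self, add_zero] at htilt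
  have hpt : ∀ Y ∈ C, (1 : ℝ) = B (cl a') * V⁻¹ * P0 * ∏ i, W (ro i, cl (Y i)) := by
    intro Y hY
    obtain ⟨hYF, hocc, hhole⟩ := hC Y hY
    have hpot := potential hYF hR
    rw [hocc, hhole, ← hP0] at hpot
    have e1 : (∏ i : Fin n, A (ro i)) * (∏ b : Fin (n + 1), B (cl b)) / B (cl a') *
        ∏ u ∈ gd (n + 1), (1 - pp (n + 1) W 0 u) = V / B (cl a') := by
      rw [hV]; ring
    rw [e1] at hpot
    have e2 : B (cl a') * V⁻¹ * ((∏ i, W (ro i, cl (Y i))) * P0) = 1 := by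
      rw [hpot]
      field_simp
    rw [← e2]
    ring
  obtain ⟨M, hM⟩ : ∃ M : ℝ, M = 6 * n * (3 * L / (κ ^ 2 * ((n : ℝ) + 1))) ^ (1 / 3 : ℝ) := ⟨_, rfl⟩
  rw [← hM] at htilt ⊢
  calc (C.card : ℝ) = ∑ Y ∈ C, (1 : ℝ) := by rw [Finset.sum_const, nsmul_eq_mul, mul_one]
    _ = ∑ Y ∈ C, B (cl a') * V⁻¹ * P0 * ∏ i, W (ro i, cl (Y i)) := Finset.sum_congr rfl hpt
    _ = B (cl a') * V⁻¹ * P0 * ∑ Y ∈ C, ∏ i, W (ro i, cl (Y i)) := by
        rw [Finset.mul_sum]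
    _ ≤ B (cl a') * V⁻¹ * P0 * (Q * Real.exp (SU n W κ U - n - 3 * n + M)) :=
        mul_le_mul_of_nonneg_left htilt (by positivity)
    _ ≤ B (cl a') * V⁻¹ * (Real.exp (24 * L * κ ^ 2 * ((n : ℝ) + 1)) * Pκ) *
        (Q * Real.exp (SU n W κ U - n - 3 * n + M)) := by
        refine mul_le_mul_of_nonneg_right ?_ (by positivity)
        exact mul_le_mul_of_nonneg_left hcap (by positivity)
    _ = B (cl a') * V⁻¹ * (Q * Pκ) * Real.exp (24 * L * κ ^ 2 * ((n : ℝ) + 1) +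
        (SU n W κ U - n - 3 * n + M)) := by
        rw [Real.exp_add (24 * L * κ ^ 2 * ((n : ℝ) + 1)) (SU n W κ U - n - 3 * n + M)]
        ring
    _ ≤ B (cl a') * V⁻¹ * (Q * Pκ) * Real.exp (-(3 * (n : ℝ)) +
        (24 * L * κ ^ 2 * ((n : ℝ) + 1) + 1 + ((n : ℝ) + 1) / (z : ℝ) ^ 9 + M)) := by
        refine mul_le_mul_of_nonneg_left (Real.exp_le_exp.2 ?_) (by positivity)
        linarith
    _ = _ := by
        rw [Real.exp_add, hbern]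
        ring

/-- the total exponent -/
private theorem to_expo {L Z N θ E csum M : ℝ} (hL : 1 ≤ L) (hZ : 1 ≤ Z)
    (hN : Z ^ 8 ≤ N) (hθ : |θ| = 1 / Z ^ 6) (hcs : csum = (4 * N + 2) * |θ| ^ 2)
    (hM : M ≤ N / Z ^ 8) :
    (3 + 2 * L) + N / Z ^ 39 + (24 * L * (1 / Z ^ 4) ^ 2 * N + 1 + N / Z ^ 9 + M) +
      (θ * E + csum) ≤ θ * E + (29 * L + 10) * N / Z ^ 8 := by
  have hZ0 : 0 < Z := by linarith
  have hN0 : 0 < N := lt_of_lt_of_le (by positivity) hN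
  have hq1 : 1 ≤ N / Z ^ 8 := by
    rw [le_div_iff₀ (by positivity)]
    linarith
  obtain ⟨q, hq⟩ : ∃ q, q = N / Z ^ 8 := ⟨_, rfl⟩
  rw [← hq] at hq1 hM
  have hp8 : 1 ≤ Z ^ 8 := one_le_pow₀ hZ
  have h39 : N / Z ^ 39 ≤ q := by
    rw [hq]
    exact div_le_div_of_nonneg_left hN0.le (by positivity) (pow_le_pow_right₀ hZ (by norm_num))
  have h9 : N / Z ^ 9 ≤ q := by
    rw [hq]
    exact div_le_div_of_nonneg_left hN0.le (by positivity) (pow_le_pow_right₀ hZ (by norm_num))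
  have h24 : 24 * L * (1 / Z ^ 4) ^ 2 * N = 24 * L * q := by
    rw [hq]; field_simp
  have hcs2 : csum ≤ 6 * q := by
    rw [hcs, hθ]
    have h1 : 4 * N + 2 ≤ 6 * N := by linarith
    have h2 : (1 / Z ^ 6) ^ 2 ≤ 1 / Z ^ 8 := by
      calc (1 / Z ^ 6) ^ 2 = 1 / Z ^ 12 := by field_simp
        _ ≤ 1 / Z ^ 8 :=
          one_div_le_one_div_of_le (by positivity) (pow_le_pow_right₀ hZ (by norm_num))
    calc (4 * N + 2) * (1 / Z ^ 6) ^ 2 ≤ 6 * N * (1 / Z ^ 6) ^ 2 :=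
          mul_le_mul_of_nonneg_right h1 (by positivity)
      _ ≤ 6 * N * (1 / Z ^ 8) := mul_le_mul_of_nonneg_left h2 (by positivity)
      _ = 6 * q := by rw [hq]; ring
  have e2 : (29 * L + 10) * N / Z ^ 8 = (29 * L + 10) * q := by rw [hq]; ring
  rw [e2, h24]
  have h5 : 3 + 2 * L ≤ 5 * L * q := by nlinarith
  linarith

open Classical in
private theorem to_mgf (L : ℝ) (hL : 1 ≤ L) : ∃ (C : ℝ) (z0 : ℕ), 1 ≤ C ∧
    ∀ z n : ℕ, z0 ≤ z → InR z (n + 1) →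
    ∀ (W : ℤ × ℤ → ℝ) (A B : ℤ → ℝ), Rf L (n + 1) W A B → 0 < (Ys n).card →
    F (n + 1) W - (n + 1) - (n + 1) / (z : ℝ) ^ 39 ≤ Real.log (Ys n).card →
    ∀ f : Finset (ℤ ⊕ ℤ) → ℝ, (∀ u U, |f (insert u U) - f U| ≤ 1) →
    ∀ θ : ℝ, |θ| = 1 / (z : ℝ) ^ 6 →
    ∑ Y ∈ (Ys n).filter (fun Y => dev (n + 1) W (ll z (n + 1)) (occ Y) ≤ (n + 1) / (z : ℝ) ^ 18),
      Real.exp (θ * f (occ Y)) ≤
      (Ys n).card * Real.exp (θ * (∑ U ∈ (gd (n + 1)).powerset,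
        bern (gd (n + 1)) (pp (n + 1) W (1 / (z : ℝ) ^ 4)) U * f U) +
          C * (n + 1) / (z : ℝ) ^ 8) := by
  obtain ⟨zs, hsu⟩ := su_le L hL
  refine ⟨29 * L + 10, max zs (max 1 ⌈648 * L⌉₊), by linarith, ?_⟩
  intro z n hz hInR W A B hR hYs hF f hf θ hθa
  have hz1n : 1 ≤ z := by omega
  have hzs : zs ≤ z := by omega
  have hz1 : (1 : ℝ) ≤ z := by exact_mod_cast hz1n
  have hz0 : (0 : ℝ) < z := by linarith
  have hz2 : 648 * L ≤ (z : ℝ) := by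
    have h1 : ⌈648 * L⌉₊ ≤ z := by omega
    exact (Nat.le_ceil _).trans (by exact_mod_cast h1)
  have hN33 : (z : ℝ) ^ 33 ≤ (n : ℝ) + 1 := by
    have h1 : z ^ 33 ≤ n + 1 := by
      calc z ^ 33 ≤ z ^ (40 * 500) := Nat.pow_le_pow_right hz1n (by norm_num)
        _ = (z ^ 40) ^ 500 := pow_mul z 40 500
        _ ≤ n + 1 := hInR.1
    exact_mod_cast h1
  have hN8 : (z : ℝ) ^ 8 ≤ (n : ℝ) + 1 := (pow_le_pow_right₀ hz1 (by norm_num)).trans hN33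
  have hN0 : (0 : ℝ) < (n : ℝ) + 1 := by positivity
  have hcube := to_cube_le hL hz2 hN33
  obtain ⟨M, hM⟩ : ∃ M : ℝ, M = 6 * n * (3 * L / ((1 / (z : ℝ) ^ 4) ^ 2 *
    ((n : ℝ) + 1))) ^ (1 / 3 : ℝ) := ⟨_, rfl⟩
  obtain ⟨κ, hκ⟩ : ∃ κ : ℝ, κ = 1 / (z : ℝ) ^ 4 := ⟨_, rfl⟩
  have hκp : 0 < κ := by rw [hκ]; positivity
  have hκ1 : κ ≤ 1 := by
    rw [hκ, div_le_one (by positivity)]
    exact one_le_pow₀ hz1
  obtain ⟨V, hV⟩ : ∃ V : ℝ, V = (∏ i : Fin n, A (ro i)) * (∏ b : Fin (n + 1), B (cl b)) *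
        ∏ u ∈ gd (n + 1), (1 - pp (n + 1) W 0 u) := ⟨_, rfl⟩
  obtain ⟨T, hT⟩ : ∃ T : Finset (Fin n → Fin (n + 1)), T = (Ys n).filter (fun Y =>
    dev (n + 1) W (ll z (n + 1)) (occ Y) ≤ (n + 1) / (z : ℝ) ^ 18) := ⟨_, rfl⟩
  obtain ⟨X, hX⟩ : ∃ X : ℝ, X = 24 * L * (1 / (z : ℝ) ^ 4) ^ 2 * ((n : ℝ) + 1) + 1 +
    ((n : ℝ) + 1) / (z : ℝ) ^ 9 + M := ⟨_, rfl⟩
  obtain ⟨G, hG⟩ : ∃ G : Finset (ℤ ⊕ ℤ) → ℝ, G = fun U => bern (gd (n + 1)) (pp (n + 1) W κ) U *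
    Real.exp (θ * f U) := ⟨_, rfl⟩
  have hVp : 0 < V := by
    rw [hV]
    refine mul_pos (mul_pos ?_ ?_) ?_
    · exact Finset.prod_pos fun i _ => to_A_pos hL hR i
    · exact Finset.prod_pos fun b _ => to_B_pos hL hR b
    · exact Finset.prod_pos fun u _ => to_pp0_lt hL hR.bd u
  have hG0 : ∀ U, 0 ≤ G U := by
    intro U
    rw [hG]
    refine mul_nonneg (mul_nonneg ?_ ?_) (Real.exp_pos _).le
    · exact Finset.prod_nonneg fun u _ => to_pp_nonneg hκp.le u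
    · exact Finset.prod_nonneg fun u _ => sub_nonneg.2 (to_pp_le hR.adm hκ1 u)
  rw [← hT]
  have hfib : ∀ p ∈ (univ : Finset (Fin (n + 1))) ×ˢ (gd (n + 1)).powerset,
      ∑ Y ∈ T.filter (fun Y => (hole Y, occ Y) = p), Real.exp (θ * f (occ Y)) ≤
        (B (cl p.1) * (V⁻¹ * Real.exp (-(3 * (n : ℝ))) * Real.exp X)) * G p.2 := by
    rintro ⟨a', U⟩ _
    rcases (T.filter (fun Y => (hole Y, occ Y) = (a', U))).eq_empty_or_nonempty with h | h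
    · rw [h, Finset.sum_empty]
      have h1 := to_B_pos hL hR a'
      exact mul_nonneg (by positivity) (hG0 U)
    · have hC : ∀ Y ∈ T.filter (fun Y => (hole Y, occ Y) = (a', U)),
          YF n Y ∧ occ Y = U ∧ hole Y = a' := by
        intro Y hY
        rw [Finset.mem_filter, Prod.mk.injEq] at hY
        have h2 := hY.1
        rw [hT, Finset.mem_filter] at h2
        exact ⟨mem_Ys.1 h2.1, hY.2.2, hY.2.1⟩
      have hdev : dev (n + 1) W (ll z (n + 1)) U ≤ (n + 1) / (z : ℝ) ^ 18 := by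
        obtain ⟨Y, hY⟩ := h
        have h1 := (hC Y hY).2.1
        rw [Finset.mem_filter, hT, Finset.mem_filter] at hY
        rw [← h1]
        exact hY.1.2
      have h2 := to_fibre hL hz1 hz2 hN33 hR U a' _ hC h
        (hsu z n hzs hInR W A B hR U hdev)
      rw [← hV, ← hM, ← hX, ← hκ] at h2
      have h3 : ∑ Y ∈ T.filter (fun Y => (hole Y, occ Y) = (a', U)),
          Real.exp (θ * f (occ Y)) =
          ((T.filter (fun Y => (hole Y, occ Y) = (a', U))).card : ℝ) * Real.exp (θ * f U) := by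
        rw [← nsmul_eq_mul, ← Finset.sum_const]
        refine Finset.sum_congr rfl fun Y hY => ?_
        rw [(hC Y hY).2.1]
      rw [h3]
      refine (mul_le_mul_of_nonneg_right h2 (Real.exp_pos _).le).trans (le_of_eq ?_)
      rw [hG]
      ring
  have hsum1 : ∑ Y ∈ T, Real.exp (θ * f (occ Y)) =
      ∑ p ∈ (univ : Finset (Fin (n + 1))) ×ˢ (gd (n + 1)).powerset,
        ∑ Y ∈ T.filter (fun Y => (hole Y, occ Y) = p), Real.exp (θ * f (occ Y)) := by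
    refine (Finset.sum_fiberwise_of_maps_to ?_ _).symm
    intro Y _
    rw [Finset.mem_product]
    exact ⟨Finset.mem_univ _, Finset.mem_powerset.2 (occ_subset Y)⟩
  have hsum2 : ∑ p ∈ (univ : Finset (Fin (n + 1))) ×ˢ (gd (n + 1)).powerset,
      (B (cl p.1) * (V⁻¹ * Real.exp (-(3 * (n : ℝ))) * Real.exp X)) * G p.2 =
      ((∑ b : Fin (n + 1), B (cl b)) * V⁻¹ * Real.exp (-(3 * (n : ℝ)))) * Real.exp X *
        ∑ U ∈ (gd (n + 1)).powerset, G U := by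
    have h1 := Finset.sum_mul_sum (univ : Finset (Fin (n + 1))) (gd (n + 1)).powerset
      (fun b => B (cl b) * (V⁻¹ * Real.exp (-(3 * (n : ℝ))) * Real.exp X)) G
    have h2 := Finset.sum_product (univ : Finset (Fin (n + 1))) (gd (n + 1)).powerset
      (fun p : Fin (n + 1) × Finset (ℤ ⊕ ℤ) =>
        (B (cl p.1) * (V⁻¹ * Real.exp (-(3 * (n : ℝ))) * Real.exp X)) * G p.2)
    rw [h2]
    refine h1.symm.trans ?_
    rw [← Finset.sum_mul]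
    ring
  have hmcd := mcd (gd (n + 1)) (pp (n + 1) W κ)
    (fun u _ => ⟨to_pp_nonneg hκp.le u, to_pp_le hR.adm hκ1 u⟩)
    (fun U => θ * f U) (fun _ => |θ|) (by
      intro u _ U _
      rw [← mul_sub, abs_mul]
      have h1 := mul_le_mul_of_nonneg_left (hf u U) (abs_nonneg θ)
      rwa [mul_one] at h1)
  obtain ⟨E, hEdef⟩ : ∃ E : ℝ, E = ∑ U ∈ (gd (n + 1)).powerset,
    bern (gd (n + 1)) (pp (n + 1) W κ) U * f U := ⟨_, rfl⟩
  have hEl : ∑ U ∈ (gd (n + 1)).powerset,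
      bern (gd (n + 1)) (pp (n + 1) W κ) U * (θ * f U) = θ * E := by
    rw [hEdef, Finset.mul_sum]
    exact Finset.sum_congr rfl fun U _ => by ring
  rw [hEl, Finset.sum_const, nsmul_eq_mul, to_gd_card] at hmcd
  have hGm : ∑ U ∈ (gd (n + 1)).powerset, G U ≤ Real.exp (θ * E +
      (4 * ((n : ℝ) + 1) + 2) * |θ| ^ 2) := by
    rw [hG]
    refine hmcd.trans (le_of_eq ?_)
    push_cast
    rfl
  have hconst := const_le hL hR
  rw [← hV] at hconst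
  have hFc : Real.exp (F (n + 1) W - (n + 1)) ≤
      (Ys n).card * Real.exp (((n : ℝ) + 1) / (z : ℝ) ^ 39) := by
    have hc : (0 : ℝ) < (Ys n).card := by exact_mod_cast hYs
    calc Real.exp (F (n + 1) W - (n + 1))
        ≤ Real.exp (Real.log (Ys n).card + ((n : ℝ) + 1) / (z : ℝ) ^ 39) :=
          Real.exp_le_exp.2 (by linarith)
      _ = _ := by rw [Real.exp_add, Real.exp_log hc]
  have hL2 : L ^ 2 ≤ Real.exp (2 * L) := by
    have h1 : L ≤ Real.exp L := by linarith [Real.add_one_le_exp L]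
    calc L ^ 2 ≤ Real.exp L ^ 2 := pow_le_pow_left₀ (by linarith) h1 2
      _ = Real.exp (2 * L) := by rw [← Real.exp_nat_mul]; norm_num
  have hexpo := to_expo (Z := (z : ℝ)) (N := (n : ℝ) + 1) (θ := θ) (E := E)
    (M := M) hL hz1 hN8 hθa rfl (by rw [hM]; exact hcube.2)
  have hG1 : 0 ≤ ∑ U ∈ (gd (n + 1)).powerset, G U := Finset.sum_nonneg fun U _ => hG0 U
  rw [← hκ, ← hEdef]
  calc ∑ Y ∈ T, Real.exp (θ * f (occ Y))
      = ∑ p ∈ (univ : Finset (Fin (n + 1))) ×ˢ (gd (n + 1)).powerset,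
        ∑ Y ∈ T.filter (fun Y => (hole Y, occ Y) = p), Real.exp (θ * f (occ Y)) := hsum1
    _ ≤ ∑ p ∈ (univ : Finset (Fin (n + 1))) ×ˢ (gd (n + 1)).powerset,
      (B (cl p.1) * (V⁻¹ * Real.exp (-(3 * (n : ℝ))) * Real.exp X)) * G p.2 :=
        Finset.sum_le_sum hfib
    _ = ((∑ b : Fin (n + 1), B (cl b)) * V⁻¹ * Real.exp (-(3 * (n : ℝ)))) * Real.exp X *
        ∑ U ∈ (gd (n + 1)).powerset, G U := hsum2
    _ ≤ (Real.exp 3 * L ^ 2 * Real.exp (F (n + 1) W - (n + 1))) * Real.exp X *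
        ∑ U ∈ (gd (n + 1)).powerset, G U := by
        refine mul_le_mul_of_nonneg_right ?_ hG1
        exact mul_le_mul_of_nonneg_right hconst (Real.exp_pos _).le
    _ ≤ (Real.exp 3 * Real.exp (2 * L) * ((Ys n).card *
          Real.exp (((n : ℝ) + 1) / (z : ℝ) ^ 39))) * Real.exp X *
        Real.exp (θ * E + (4 * ((n : ℝ) + 1) + 2) * |θ| ^ 2) := by
        refine mul_le_mul ?_ hGm hG1 (by positivity)
        refine mul_le_mul_of_nonneg_right ?_ (Real.exp_pos _).le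
        refine mul_le_mul ?_ hFc (Real.exp_pos _).le (by positivity)
        exact mul_le_mul_of_nonneg_left hL2 (Real.exp_pos _).le
    _ = (Ys n).card * Real.exp ((3 + 2 * L) + ((n : ℝ) + 1) / (z : ℝ) ^ 39 + X +
        (θ * E + (4 * ((n : ℝ) + 1) + 2) * |θ| ^ 2)) := by
        obtain ⟨Y1, hY1⟩ : ∃ Y1 : ℝ, Y1 = θ * E + (4 * ((n : ℝ) + 1) + 2) * |θ| ^ 2 := ⟨_, rfl⟩
        rw [← hY1, Real.exp_add _ Y1, Real.exp_add _ X, Real.exp_add (3 + 2 * L),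
          Real.exp_add 3 (2 * L)]
        ring
    _ ≤ (Ys n).card * Real.exp (θ * E + (29 * L + 10) * (n + 1) / (z : ℝ) ^ 8) := by
        refine mul_le_mul_of_nonneg_left (Real.exp_le_exp.2 ?_) (by positivity)
        rw [hX]
        exact hexpo

private theorem to_markov {ι : Type} (s : Finset ι) (f : ι → ℝ) (K t u : ℝ)
    (h : ∑ Y ∈ s, Real.exp (f Y) ≤ K * Real.exp u) (p : ι → Prop) [DecidablePred p]
    (hp : ∀ Y ∈ s, p Y → t ≤ f Y) : ((s.filter p).card : ℝ) ≤ K * Real.exp (u - t) := by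
  have h1 : ((s.filter p).card : ℝ) * Real.exp t ≤ ∑ Y ∈ s, Real.exp (f Y) := by
    calc ((s.filter p).card : ℝ) * Real.exp t = ∑ Y ∈ s.filter p, Real.exp t := by
          rw [sum_const, nsmul_eq_mul]
      _ ≤ ∑ Y ∈ s.filter p, Real.exp (f Y) :=
          sum_le_sum fun Y hY => Real.exp_le_exp.2
            (hp Y (mem_filter.1 hY).1 (mem_filter.1 hY).2)
      _ ≤ ∑ Y ∈ s, Real.exp (f Y) :=
          sum_le_sum_of_subset_of_nonneg (filter_subset _ _) fun _ _ _ => (Real.exp_pos _).le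
  have h2 := h1.trans h
  rw [Real.exp_sub, ← mul_div_assoc, le_div_iff₀ (Real.exp_pos t)]
  exact h2

open Classical in
theorem occ_dev (L : ℝ) (hL : 1 ≤ L) : ∃ z0 : ℕ, ∀ z n : ℕ, z0 ≤ z → InR z (n + 1) →
    ∀ (W : ℤ × ℤ → ℝ) (A B : ℤ → ℝ), Rf L (n + 1) W A B → 0 < (Ys n).card →
    F (n + 1) W - (n + 1) - (n + 1) / (z : ℝ) ^ 39 ≤ Real.log (Ys n).card →
    ∀ f : Finset (ℤ ⊕ ℤ) → ℝ, (∀ u U, |f (insert u U) - f U| ≤ 1) →
      (((Ys n).filter (fun Y => (n + 1) / (z : ℝ) <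
        |f (occ Y) - ∑ U ∈ (gd (n + 1)).powerset, bern (gd (n + 1)) (pp (n + 1) W (1 / (z : ℝ) ^ 4)) U * f U|)).card : ℝ) ≤
        3 * Real.exp (-((n + 1) / (z : ℝ) ^ 39)) * (Ys n).card := by
  obtain ⟨z1, h1⟩ := level1 L hL
  obtain ⟨C, z2, hC, h2⟩ := to_mgf L hL
  refine ⟨max (max z1 z2) (max 3 ⌈2 * C⌉₊), fun z n hz hR W A B hRf hpos hF f hf => ?_⟩
  have hz1 : z1 ≤ z := le_trans (le_trans (le_max_left _ _) (le_max_left _ _)) hz
  have hz2 : z2 ≤ z := le_trans (le_trans (le_max_right _ _) (le_max_left _ _)) hz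
  have hz3 : 3 ≤ z := le_trans (le_trans (le_max_left _ _) (le_max_right _ _)) hz
  have hz4 : ⌈2 * C⌉₊ ≤ z := le_trans (le_trans (le_max_right _ _) (le_max_right _ _)) hz
  have hzr : (3 : ℝ) ≤ z := by exact_mod_cast hz3
  have hz0 : (0 : ℝ) < z := by linarith
  have hzC : 2 * C ≤ z := (Nat.le_ceil _).trans (by exact_mod_cast hz4)
  have hn0 : (0 : ℝ) < (n : ℝ) + 1 := by positivity
  have hlev := h1 z n hz1 hR W A B hRf hpos hF
  have h6 : 0 < 1 / (z : ℝ) ^ 6 := by positivity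
  have hplus := h2 z n hz2 hR W A B hRf hpos hF f hf (1 / (z : ℝ) ^ 6) (abs_of_pos h6)
  have hminus := h2 z n hz2 hR W A B hRf hpos hF f hf (-(1 / (z : ℝ) ^ 6))
    (by rw [abs_neg, abs_of_pos h6])
  obtain ⟨T, hT⟩ : ∃ T : Finset (Fin n → Fin (n + 1)), T = (Ys n).filter
      (fun Y => dev (n + 1) W (ll z (n + 1)) (occ Y) ≤ (n + 1) / (z : ℝ) ^ 18) := ⟨_, rfl⟩
  rw [← hT] at hplus hminus
  obtain ⟨tr, htr⟩ : ∃ tr : ℝ, tr = ∑ U ∈ (gd (n + 1)).powerset,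
    bern (gd (n + 1)) (pp (n + 1) W (1 / (z : ℝ) ^ 4)) U * f U := ⟨_, rfl⟩
  rw [← htr] at hplus hminus
  have hN7 : ((n : ℝ) + 1) / (z : ℝ) * (1 / (z : ℝ) ^ 6) = (n + 1) / (z : ℝ) ^ 7 := by
    field_simp
  have hcp := to_markov T (fun Y => 1 / (z : ℝ) ^ 6 * f (occ Y)) _
    (1 / (z : ℝ) ^ 6 * tr + (n + 1) / (z : ℝ) ^ 7) _ hplus
    (fun Y => (n + 1) / (z : ℝ) < f (occ Y) - tr) (by
      intro Y _ hY
      have h3 : 1 / (z : ℝ) ^ 6 * (tr + (n + 1) / (z : ℝ)) ≤ 1 / (z : ℝ) ^ 6 * f (occ Y) :=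
        mul_le_mul_of_nonneg_left (by linarith) (by positivity)
      have h4 : 1 / (z : ℝ) ^ 6 * (tr + (n + 1) / (z : ℝ)) =
          1 / (z : ℝ) ^ 6 * tr + (n + 1) / (z : ℝ) ^ 7 := by
        rw [← hN7]; ring
      rw [h4] at h3
      exact h3)
  have hcm := to_markov T (fun Y => -(1 / (z : ℝ) ^ 6) * f (occ Y)) _
    (-(1 / (z : ℝ) ^ 6) * tr + (n + 1) / (z : ℝ) ^ 7) _ hminus
    (fun Y => (n + 1) / (z : ℝ) < tr - f (occ Y)) (by
      intro Y _ hY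
      have h3 : 1 / (z : ℝ) ^ 6 * ((n + 1) / (z : ℝ) - tr) ≤ 1 / (z : ℝ) ^ 6 * (- f (occ Y)) :=
        mul_le_mul_of_nonneg_left (by linarith) (by positivity)
      have h4 : 1 / (z : ℝ) ^ 6 * ((n + 1) / (z : ℝ) - tr) =
          -(1 / (z : ℝ) ^ 6) * tr + (n + 1) / (z : ℝ) ^ 7 := by
        rw [← hN7]; ring
      rw [h4] at h3
      show _ ≤ -(1 / (z : ℝ) ^ 6) * f (occ Y)
      linarith)
  have e1 : 1 / (z : ℝ) ^ 6 * tr + C * (n + 1) / (z : ℝ) ^ 8 -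
      (1 / (z : ℝ) ^ 6 * tr + (n + 1) / (z : ℝ) ^ 7) =
      C * (n + 1) / (z : ℝ) ^ 8 - (n + 1) / (z : ℝ) ^ 7 := by ring
  have e2 : -(1 / (z : ℝ) ^ 6) * tr + C * (n + 1) / (z : ℝ) ^ 8 -
      (-(1 / (z : ℝ) ^ 6) * tr + (n + 1) / (z : ℝ) ^ 7) =
      C * (n + 1) / (z : ℝ) ^ 8 - (n + 1) / (z : ℝ) ^ 7 := by ring
  rw [e1] at hcp
  rw [e2] at hcm
  -- numerical comparison
  have hexpo : C * (n + 1) / (z : ℝ) ^ 8 - (n + 1) / (z : ℝ) ^ 7 ≤ -((n + 1) / (z : ℝ) ^ 39) := by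
    have h3 : C * (n + 1) / (z : ℝ) ^ 8 ≤ (n + 1) / (z : ℝ) ^ 7 / 2 := by
      rw [div_div, div_le_div_iff₀ (by positivity) (by positivity)]
      have h4 : C * (n + 1) * ((z : ℝ) ^ 7 * 2) = (2 * C) * ((n + 1) * (z : ℝ) ^ 7) := by ring
      have h5 : (n + 1) * (z : ℝ) ^ 8 = z * ((n + 1) * (z : ℝ) ^ 7) := by ring
      rw [h4, h5]
      exact mul_le_mul_of_nonneg_right hzC (by positivity)
    have h6 : (n + 1) / (z : ℝ) ^ 39 ≤ (n + 1) / (z : ℝ) ^ 7 / 2 := by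
      rw [div_div]
      apply div_le_div_of_nonneg_left hn0.le (by positivity)
      have h7 : (2 : ℝ) ≤ (z : ℝ) ^ 32 := by
        calc (2 : ℝ) ≤ z := by linarith
          _ ≤ (z : ℝ) ^ 32 := le_self_pow₀ (by linarith) (by norm_num)
      calc (z : ℝ) ^ 7 * 2 ≤ (z : ℝ) ^ 7 * (z : ℝ) ^ 32 :=
            mul_le_mul_of_nonneg_left h7 (by positivity)
        _ = (z : ℝ) ^ 39 := by ring
    linarith
  have hYs : (0 : ℝ) ≤ (Ys n).card := Nat.cast_nonneg _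
  have hcp' : ((T.filter (fun Y => (n + 1) / (z : ℝ) < f (occ Y) - tr)).card : ℝ) ≤
      (Ys n).card * Real.exp (-((n + 1) / (z : ℝ) ^ 39)) :=
    hcp.trans (mul_le_mul_of_nonneg_left (Real.exp_le_exp.2 hexpo) hYs)
  have hcm' : ((T.filter (fun Y => (n + 1) / (z : ℝ) < tr - f (occ Y))).card : ℝ) ≤
      (Ys n).card * Real.exp (-((n + 1) / (z : ℝ) ^ 39)) :=
    hcm.trans (mul_le_mul_of_nonneg_left (Real.exp_le_exp.2 hexpo) hYs)
  rw [← htr]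
  -- the union bound
  have hsub : (Ys n).filter (fun Y => (n + 1) / (z : ℝ) < |f (occ Y) - tr|) ⊆
      ((Ys n).filter (fun Y => (n + 1) / (z : ℝ) ^ 18 < dev (n + 1) W (ll z (n + 1)) (occ Y))) ∪
      ((T.filter (fun Y => (n + 1) / (z : ℝ) < f (occ Y) - tr)) ∪
        (T.filter (fun Y => (n + 1) / (z : ℝ) < tr - f (occ Y)))) := by
    intro Y hY
    obtain ⟨hY1, hY2⟩ := mem_filter.1 hY
    rcases lt_or_ge ((n + 1) / (z : ℝ) ^ 18) (dev (n + 1) W (ll z (n + 1)) (occ Y)) with h5 | h5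
    · exact mem_union_left _ (mem_filter.2 ⟨hY1, h5⟩)
    · refine mem_union_right _ ?_
      have hYT : Y ∈ T := by
        rw [hT]
        exact mem_filter.2 ⟨hY1, h5⟩
      rcases lt_abs.1 hY2 with h6 | h6
      · exact mem_union_left _ (mem_filter.2 ⟨hYT, h6⟩)
      · refine mem_union_right _ (mem_filter.2 ⟨hYT, ?_⟩)
        linarith
  have hcard := (card_le_card hsub).trans ((card_union_le _ _).trans
    (Nat.add_le_add_left (card_union_le _ _) _))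
  have hcard' : (((Ys n).filter (fun Y => (n + 1) / (z : ℝ) < |f (occ Y) - tr|)).card : ℝ) ≤
      (((Ys n).filter (fun Y => (n + 1) / (z : ℝ) ^ 18 < dev (n + 1) W (ll z (n + 1)) (occ Y))).card : ℝ) +
      (((T.filter (fun Y => (n + 1) / (z : ℝ) < f (occ Y) - tr)).card : ℝ) +
        ((T.filter (fun Y => (n + 1) / (z : ℝ) < tr - f (occ Y))).card : ℝ)) := by
    exact_mod_cast hcard
  refine hcard'.trans ?_
  calc _ ≤ Real.exp (-((n + 1) / (z : ℝ) ^ 39)) * (Ys n).card +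
        ((Ys n).card * Real.exp (-((n + 1) / (z : ℝ) ^ 39)) +
          (Ys n).card * Real.exp (-((n + 1) / (z : ℝ) ^ 39))) :=
        add_le_add hlev (add_le_add hcp' hcm')
    _ = 3 * Real.exp (-((n + 1) / (z : ℝ) ^ 39)) * (Ys n).card := by ring

end Pool.Agent.NQL
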