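import Pool.Agent.NQL.Defs
import Pool.Agent.NQL.DIns
import Pool.Agent.NQL.DExp
import Pool.Agent.NQL.DDvG
import Pool.Agent.NQL.DTyD
import Pool.Agent.NQL.TFun
import Pool.Agent.NQL.TLow
import Pool.Agent.NQL.TOcc
import Pool.Agent.NQR.YCnt

/-!
# NQL-TSqr: Lipschitz functions of the occupied diagonals are concentrated (full configurations)

PLAN. `N = n + 1`. A configuration `P ∈ Qset N` has a queen in each row; removing the queen of row `0` gives `Y ∈ Ys n` (rows `1..n`, `ro i = i + 1`; see `NQR.card_free` in NQR/YCnt.lean), `P ↦ Y` is injective (the missing queen is in row `0` and the column `hole Y`), and `oP P` is obtained from `occ Y` by inserting two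
diagonals, so `|f (oP P) - f (occ Y)| ≤ 2`. Hence the number of bad `P` is at most the number of `Y` in `occ_dev`, `≤ 3 exp (-N/z^39) |Ys|`, and `|Ys| ≤ exp (F - N + N/(4z^39)) ≤ exp (N/(4z^39) + N/(2z^39)) Q N` (`low2`, `ys_up`; `low2` also gives the hypothesis of `occ_dev` with `le_card`).
-/

set_option autoImplicit false

open Finset

namespace Pool.Agent.NQL

open Pool.Agent.NQ (board dsum F Ent Dg phi ln Q Qset QS NonAtt bern)
open Pool.Agent.NQR (Adm Opt Bd Rf hS hD hh InR)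

open Pool.Agent.NQR (gd pp)

private theorem ts_gr_inj {m : ℕ} {X Y : Fin m → Fin m} (h : NQ.gr X = NQ.gr Y) : X = Y := by
  funext i
  have h1 : NQ.sq X i ∈ NQ.gr Y := by
    rw [← h]
    unfold NQ.gr
    exact Finset.mem_image_of_mem _ (Finset.mem_univ i)
  unfold NQ.gr at h1
  obtain ⟨j, _, hj⟩ := Finset.mem_image.1 h1
  have h2 : ((j : ℕ) : ℤ) = ((i : ℕ) : ℤ) := congrArg Prod.fst hj
  have h3 : ((Y j : ℕ) : ℤ) = ((X i : ℕ) : ℤ) := congrArg Prod.snd hj
  have h4 : j = i := Fin.ext (by exact_mod_cast h2)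
  rw [h4] at h3
  exact Fin.ext (by exact_mod_cast h3.symm)

private theorem ts_ex {m : ℕ} {P : Finset (ℤ × ℤ)} (hP : P ∈ Qset m) :
    ∃ X : Fin m → Fin m, NQ.QF m X ∧ NQ.gr X = P := by
  classical
  have h1 : (NQ.QFs m).image NQ.gr = Qset m := by
    refine Finset.eq_of_subset_of_card_le ?_ ?_
    · intro S hS
      obtain ⟨X, hX, rfl⟩ := Finset.mem_image.1 hS
      exact NQ.gr_mem (NQ.mem_QFs.1 hX)
    · rw [Finset.card_image_of_injective _ (fun X Y h => ts_gr_inj h), ← NQ.Q_eq]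
      exact le_of_eq rfl
  rw [← h1] at hP
  obtain ⟨X, hX, h2⟩ := Finset.mem_image.1 hP
  exact ⟨X, NQ.mem_QFs.1 hX, h2⟩

private theorem ts_succ {n : ℕ} (i : Fin n) : (((i.succ : Fin (n + 1)) : ℕ) : ℤ) = NQR.ro i := by
  unfold NQR.ro
  rw [Fin.val_succ]
  push_cast
  rfl

private theorem ts_YF {n : ℕ} {X : Fin (n + 1) → Fin (n + 1)} (h : NQ.QF (n + 1) X) :
    NQR.YF n (fun i => X i.succ) := by
  have e2 : ∀ i : Fin n, ln 2 (NQ.sq X i.succ) = NQR.ro i + NQR.cl (X i.succ) := by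
    intro i
    show (((i.succ : Fin (n + 1)) : ℕ) : ℤ) + ((X i.succ : ℕ) : ℤ) = _
    rw [ts_succ]
    rfl
  have e3 : ∀ i : Fin n, ln 3 (NQ.sq X i.succ) = NQR.ro i - NQR.cl (X i.succ) := by
    intro i
    show (((i.succ : Fin (n + 1)) : ℕ) : ℤ) - ((X i.succ : ℕ) : ℤ) = _
    rw [ts_succ]
    rfl
  refine ⟨fun i j e => Fin.succ_injective _ (h.1 e), fun i j e => ?_, fun i j e => ?_⟩
  · exact Fin.succ_injective _ (h.2.1 (show ln 2 (NQ.sq X i.succ) = ln 2 (NQ.sq X j.succ) by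
      rw [e2, e2]; exact e))
  · exact Fin.succ_injective _ (h.2.2 (show ln 3 (NQ.sq X i.succ) = ln 3 (NQ.sq X j.succ) by
      rw [e3, e3]; exact e))

private theorem ts_hole {n : ℕ} {X : Fin (n + 1) → Fin (n + 1)} (h : NQ.QF (n + 1) X) :
    X 0 = NQR.hole (fun i : Fin n => X i.succ) := by
  by_contra hne
  obtain ⟨i, hi⟩ := NQR.hole_unique (ts_YF h) hne
  exact Fin.succ_ne_zero i (h.1 hi)

private theorem ts_oP {n : ℕ} (X : Fin (n + 1) → Fin (n + 1)) :
    oP (NQ.gr X) = insert (Sum.inl (0 - NQR.cl (X 0))) (insert (Sum.inr (0 + NQR.cl (X 0)))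
      (NQR.occ fun i : Fin n => X i.succ)) := by
  ext u
  unfold oP NQR.occ NQ.gr
  rw [Finset.mem_insert, Finset.mem_insert, Finset.mem_union, Finset.mem_union, Finset.mem_image,
    Finset.mem_image, Finset.mem_image, Finset.mem_image]
  constructor
  · rintro (⟨q, hq, rfl⟩ | ⟨q, hq, rfl⟩)
    · obtain ⟨i, -, rfl⟩ := Finset.mem_image.1 hq
      induction i using Fin.cases with
      | zero => exact Or.inl rfl
      | succ i =>
        refine Or.inr (Or.inr (Or.inl ⟨i, Finset.mem_univ _, ?_⟩))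
        show Sum.inl (NQR.ro i - NQR.cl (X i.succ)) =
          Sum.inl ((((i.succ : Fin (n + 1)) : ℕ) : ℤ) - ((X i.succ : ℕ) : ℤ))
        rw [ts_succ]
        rfl
    · obtain ⟨i, -, rfl⟩ := Finset.mem_image.1 hq
      induction i using Fin.cases with
      | zero => exact Or.inr (Or.inl rfl)
      | succ i =>
        refine Or.inr (Or.inr (Or.inr ⟨i, Finset.mem_univ _, ?_⟩))
        show Sum.inr (NQR.ro i + NQR.cl (X i.succ)) =
          Sum.inr ((((i.succ : Fin (n + 1)) : ℕ) : ℤ) + ((X i.succ : ℕ) : ℤ))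
        rw [ts_succ]
        rfl
  · rintro (rfl | rfl | ⟨i, -, rfl⟩ | ⟨i, -, rfl⟩)
    · exact Or.inl ⟨NQ.sq X 0, Finset.mem_image_of_mem _ (Finset.mem_univ _), rfl⟩
    · exact Or.inr ⟨NQ.sq X 0, Finset.mem_image_of_mem _ (Finset.mem_univ _), rfl⟩
    · refine Or.inl ⟨NQ.sq X i.succ, Finset.mem_image_of_mem _ (Finset.mem_univ _), ?_⟩
      show Sum.inl ((((i.succ : Fin (n + 1)) : ℕ) : ℤ) - ((X i.succ : ℕ) : ℤ)) =
        Sum.inl (NQR.ro i - NQR.cl (X i.succ))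
      rw [ts_succ]
      rfl
    · refine Or.inr ⟨NQ.sq X i.succ, Finset.mem_image_of_mem _ (Finset.mem_univ _), ?_⟩
      show Sum.inr ((((i.succ : Fin (n + 1)) : ℕ) : ℤ) + ((X i.succ : ℕ) : ℤ)) =
        Sum.inr (NQR.ro i + NQR.cl (X i.succ))
      rw [ts_succ]
      rfl

open Classical in
theorem sqr_dev (L : ℝ) (hL : 1 ≤ L) : ∃ z0 : ℕ, ∀ z N : ℕ, z0 ≤ z → 1 ≤ N → InR z N →
    ∀ (W : ℤ × ℤ → ℝ) (A B : ℤ → ℝ), Rf L N W A B →
    ∀ f : Finset (ℤ ⊕ ℤ) → ℝ, (∀ u U, |f (insert u U) - f U| ≤ 1) →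
      (((Qset N).filter (fun P => N / (z : ℝ) + 2 <
        |f (oP P) - ∑ U ∈ (gd N).powerset, bern (gd N) (pp N W (1 / (z : ℝ) ^ 4)) U * f U|)).card : ℝ) ≤
        3 * Real.exp (-(N / (4 * (z : ℝ) ^ 39))) * Q N := by
  obtain ⟨z1, h1⟩ := low2 L hL
  obtain ⟨z2, h2⟩ := ys_up L hL
  obtain ⟨z3, h3⟩ := occ_dev L hL
  refine ⟨z1 + z2 + z3 + 1, ?_⟩
  intro z N hz hN hR W A B hRf f hf
  obtain ⟨n, rfl⟩ : ∃ n, N = n + 1 := ⟨N - 1, by omega⟩
  have hz0 : (0 : ℝ) < z := by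
    have : 0 < z := by omega
    exact_mod_cast this
  obtain ⟨hQ, hlow⟩ := h1 z (n + 1) (by omega) hR W hRf.adm hRf.bd
  have hQR : (0 : ℝ) < (Q (n + 1) : ℝ) := by exact_mod_cast hQ
  have hYQ : Q (n + 1) ≤ (NQR.Ys n).card := NQR.le_card n
  have hY : 0 < (NQR.Ys n).card := lt_of_lt_of_le hQ hYQ
  have hYR : (0 : ℝ) < ((NQR.Ys n).card : ℝ) := by exact_mod_cast hY
  have hlog : Real.log (Q (n + 1)) ≤ Real.log (NQR.Ys n).card :=
    Real.log_le_log hQR (by exact_mod_cast hYQ)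
  have hup := h2 z n (by omega) hR W A B hRf hY
  set D : ℝ := ((n : ℝ) + 1) / (z : ℝ) ^ 39 with hD
  have hD0 : 0 ≤ D := by positivity
  have e1 : (((n + 1 : ℕ) : ℝ)) / (2 * (z : ℝ) ^ 39) = D / 2 := by
    rw [hD]; push_cast; field_simp
  have e2 : ((n : ℝ) + 1) / (4 * (z : ℝ) ^ 39) = D / 4 := by
    rw [hD]; field_simp
  have e3 : (((n + 1 : ℕ) : ℝ)) / (4 * (z : ℝ) ^ 39) = D / 4 := by
    push_cast
    exact e2
  have e0 : (((n + 1 : ℕ) : ℝ)) = (n : ℝ) + 1 := by push_cast; rfl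
  rw [e1, e0] at hlow
  rw [e2] at hup
  have hocc := h3 z n (by omega) hR W A B hRf hY (by linarith) f hf
  set E : ℝ := ∑ U ∈ (gd (n + 1)).powerset,
    bern (gd (n + 1)) (pp (n + 1) W (1 / (z : ℝ) ^ 4)) U * f U with hE
  -- the bad configurations
  have hsub : (Qset (n + 1)).filter (fun P => ((n + 1 : ℕ) : ℝ) / (z : ℝ) + 2 < |f (oP P) - E|) ⊆
      ((NQR.Ys n).filter (fun Y => ((n : ℝ) + 1) / (z : ℝ) < |f (NQR.occ Y) - E|)).image
        (fun Y => NQ.gr (Fin.cons (NQR.hole Y) Y : Fin (n + 1) → Fin (n + 1))) := by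
    intro P hP
    rw [Finset.mem_filter] at hP
    obtain ⟨hPQ, hPd⟩ := hP
    obtain ⟨X, hX, rfl⟩ := ts_ex hPQ
    rw [Finset.mem_image]
    refine ⟨fun i : Fin n => X i.succ, ?_, ?_⟩
    · rw [Finset.mem_filter, NQR.mem_Ys]
      refine ⟨ts_YF hX, ?_⟩
      rw [ts_oP X] at hPd
      have a1 := hf (Sum.inl (0 - NQR.cl (X 0))) (insert (Sum.inr (0 + NQR.cl (X 0)))
        (NQR.occ fun i : Fin n => X i.succ))
      have a2 := hf (Sum.inr (0 + NQR.cl (X 0))) (NQR.occ fun i : Fin n => X i.succ)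
      rw [e0] at hPd
      rw [abs_le] at a1 a2
      rcases abs_cases (f (NQR.occ fun i : Fin n => X i.succ) - E) with ⟨b1, b2⟩ | ⟨b1, b2⟩
      · rcases abs_cases (f (insert (Sum.inl (0 - NQR.cl (X 0))) (insert (Sum.inr (0 + NQR.cl (X 0)))
          (NQR.occ fun i : Fin n => X i.succ))) - E) with ⟨b3, b4⟩ | ⟨b3, b4⟩
        · rw [b3] at hPd
          rw [b1]
          linarith [a1.1, a1.2, a2.1, a2.2]
        · rw [b3] at hPd
          rw [b1]
          linarith [a1.1, a1.2, a2.1, a2.2]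
      · rcases abs_cases (f (insert (Sum.inl (0 - NQR.cl (X 0))) (insert (Sum.inr (0 + NQR.cl (X 0)))
          (NQR.occ fun i : Fin n => X i.succ))) - E) with ⟨b3, b4⟩ | ⟨b3, b4⟩
        · rw [b3] at hPd
          rw [b1]
          linarith [a1.1, a1.2, a2.1, a2.2]
        · rw [b3] at hPd
          rw [b1]
          linarith [a1.1, a1.2, a2.1, a2.2]
    · show NQ.gr (Fin.cons (NQR.hole fun i : Fin n => X i.succ) (fun i : Fin n => X i.succ) :
        Fin (n + 1) → Fin (n + 1)) = NQ.gr X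
      rw [← ts_hole hX]
      congr 1
      funext i
      induction i using Fin.cases with
      | zero => rfl
      | succ i => rfl
  have hcard : (((Qset (n + 1)).filter (fun P => ((n + 1 : ℕ) : ℝ) / (z : ℝ) + 2 < |f (oP P) - E|)).card : ℝ) ≤
      (((NQR.Ys n).filter (fun Y => ((n : ℝ) + 1) / (z : ℝ) < |f (NQR.occ Y) - E|)).card : ℝ) := by
    exact_mod_cast (Finset.card_le_card hsub).trans Finset.card_image_le
  refine hcard.trans (hocc.trans ?_)
  rw [e3]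
  have hYle : ((NQR.Ys n).card : ℝ) ≤ Real.exp (3 * D / 4) * Q (n + 1) := by
    calc ((NQR.Ys n).card : ℝ) = Real.exp (Real.log (NQR.Ys n).card) := (Real.exp_log hYR).symm
      _ ≤ Real.exp (3 * D / 4 + Real.log (Q (n + 1))) := Real.exp_le_exp.2 (by linarith)
      _ = Real.exp (3 * D / 4) * Q (n + 1) := by rw [Real.exp_add, Real.exp_log hQR]
  calc 3 * Real.exp (-D) * ((NQR.Ys n).card : ℝ)
      ≤ 3 * Real.exp (-D) * (Real.exp (3 * D / 4) * Q (n + 1)) := by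
        apply mul_le_mul_of_nonneg_left hYle
        positivity
    _ = 3 * (Real.exp (-D) * Real.exp (3 * D / 4)) * Q (n + 1) := by ring
    _ = 3 * Real.exp (-(D / 4)) * Q (n + 1) := by
        rw [← Real.exp_add]
        congr 3
        ring

end Pool.Agent.NQL
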