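import Pool.Agent.NQL.Defs
import Pool.Agent.NQL.BNom
import Pool.Agent.NQL.DIns
import Pool.Agent.NQL.DExp
import Pool.Agent.NQL.DDvG
import Pool.Agent.NQL.DTyD
import Pool.Agent.NQL.TFun
import Pool.Agent.NQL.TSqr

/-!
# NQL-TTyp: nearly all configurations are typical

PLAN. For large `N` let `z` be the largest natural number with `z^20000 ≤ N`; then `InR z N` and `z → ∞` (see NQR/KFin.lean). Apply `sqr_dev` to `f = (N/(2L⁶)) FG ..` and `f = (N/L³) FL ..` (Lipschitz constant `≤ 1`), for all `k ≤ N`, `l ∈ full N` (at most `6N` lines), `x, x'`: outside of a set of at most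
`(6 N² + N³) 3 exp (-N/(4z^39)) Q N` configurations, `|FL - E| ≤ (L³/N)(N/z + 2)`, `FG ≥ E - (2L⁶/N)(N/z + 2)`; with `FL_exp`, `FG_exp`, `κ = z^(-4)` all deviations are `≤ 4 L⁶ (1/z + 2/N) + 4 L⁶ z^(-4) ≤ tol`. `8 N (6N² + N³) 3 exp (-N/(4z^39)) ≤ 1` for large `N`, because `N ≥ z^20000` and `N ≤ (z+1)^20000`.
-/

set_option autoImplicit false

open Finset

namespace Pool.Agent.NQL

open Pool.Agent.NQ (board dsum F Ent Dg phi ln Q Qset QS NonAtt bern)
open Pool.Agent.NQR (Adm Opt Bd Rf hS hD hh InR)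

open Pool.Agent.NQR (gd pp)

private theorem exZ (K z0 n : ℕ) (hK : K ≠ 0) (h : z0 ^ K ≤ n) :
    ∃ z : ℕ, z0 ≤ z ∧ z ^ K ≤ n ∧ n < (z + 1) ^ K := by
  classical
  have hex : ∃ z : ℕ, n < (z + 1) ^ K := by
    refine ⟨n, ?_⟩
    calc n < n + 1 := Nat.lt_succ_self _
      _ = (n + 1) ^ 1 := (pow_one _).symm
      _ ≤ (n + 1) ^ K := Nat.pow_le_pow_right (by omega) (by omega)
  refine ⟨Nat.find hex, ?_, ?_, Nat.find_spec hex⟩
  · by_contra hlt
    push Not at hlt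
    have h1 : (Nat.find hex + 1) ^ K ≤ z0 ^ K := Nat.pow_le_pow_left (by omega) K
    have h2 := Nat.find_spec hex
    omega
  · rcases Nat.eq_zero_or_pos (Nat.find hex) with h0 | h0
    · rw [h0, zero_pow hK]
      omega
    · have h1 := Nat.find_min hex (m := Nat.find hex - 1) (by omega)
      rw [Nat.sub_add_cancel h0] at h1
      exact not_lt.1 h1

private theorem inR {z n K : ℕ} (hK : K = 20000) (hz : 2 ≤ z) (h1 : z ^ K ≤ n)
    (h2 : n < (z + 1) ^ K) : InR z n := by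
  have e1 : K = 40 * 500 := by omega
  obtain ⟨K2, hK2⟩ : ∃ K2 : ℕ, K2 = 40 * 1001 := ⟨_, rfl⟩
  have e2 : 2 * K ≤ K2 := by omega
  unfold InR
  rw [← pow_mul, ← pow_mul, ← e1, ← hK2]
  refine ⟨h1, ?_⟩
  have h3 : z + 1 ≤ z ^ 2 := by nlinarith
  calc n ≤ (z + 1) ^ K := h2.le
    _ ≤ (z ^ 2) ^ K := Nat.pow_le_pow_left h3 K
    _ = z ^ (2 * K) := (pow_mul z 2 K).symm
    _ ≤ z ^ K2 := Nat.pow_le_pow_right (by omega) e2

private theorem union_bd {α β : Type*} [DecidableEq α] (S : Finset β) (T : β → Finset α) (M : ℝ)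
    (h : ∀ b ∈ S, ((T b).card : ℝ) ≤ M) : ((S.biUnion T).card : ℝ) ≤ S.card * M := by
  calc ((S.biUnion T).card : ℝ) ≤ ((∑ b ∈ S, (T b).card : ℕ) : ℝ) := by
        exact_mod_cast Finset.card_biUnion_le
    _ = ∑ b ∈ S, ((T b).card : ℝ) := by push_cast; rfl
    _ ≤ ∑ b ∈ S, M := Finset.sum_le_sum h
    _ = S.card * M := by rw [Finset.sum_const, nsmul_eq_mul]

private theorem full_card (N : ℕ) : ((full N).card : ℝ) ≤ 4 * N ^ 2 := by
  have h1 : (full N).card ≤ ∑ e ∈ board N, 4 := by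
    refine Finset.card_biUnion_le.trans ?_
    apply Finset.sum_le_sum
    intro e _
    exact Finset.card_image_le
  have h2 : (board N).card = N ^ 2 := by
    unfold Pool.Agent.NQ.board
    rw [Finset.card_product, Int.card_Ico]
    simp
    ring
  rw [Finset.sum_const, h2, smul_eq_mul] at h1
  have h3 : ((full N).card : ℝ) ≤ ((N ^ 2 * 4 : ℕ) : ℝ) := by exact_mod_cast h1
  push_cast at h3
  linarith

/-- `120 N⁴ exp (-N/(4y)) ≤ 1` for `y² ≤ N` and large `N` -/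
private theorem small {N : ℕ} (hN : 10 ^ 15 ≤ N) {y : ℝ} (hy : 0 < y) (hyN : y ^ 2 ≤ N) :
    120 * (N : ℝ) ^ 4 * Real.exp (-(N / (4 * y))) ≤ 1 := by
  have hN0 : (10 : ℝ) ^ 15 ≤ N := by exact_mod_cast hN
  have hNpos : (0 : ℝ) < N := lt_of_lt_of_le (by norm_num) hN0
  have hs : 0 < Real.sqrt N := Real.sqrt_pos.2 hNpos
  have hss : Real.sqrt N ^ 2 = N := Real.sq_sqrt hNpos.le
  have h1 : y ≤ Real.sqrt N := Real.le_sqrt_of_sq_le hyN
  have h2 : Real.sqrt N / 4 ≤ N / (4 * y) := by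
    rw [div_le_div_iff₀ (by norm_num) (by positivity)]
    nlinarith
  have h3 : (Real.sqrt N / 4) ^ 10 / (Nat.factorial 10 : ℕ) ≤ Real.exp (Real.sqrt N / 4) :=
    Real.pow_div_factorial_le_exp (Real.sqrt N / 4) (by positivity) 10
  have h4 : (Real.sqrt N / 4) ^ 10 = (N : ℝ) ^ 5 / 4 ^ 10 := by
    rw [div_pow]
    congr 1
    calc Real.sqrt N ^ 10 = (Real.sqrt N ^ 2) ^ 5 := by ring
      _ = _ := by rw [hss]
  have hfac : ((Nat.factorial 10 : ℕ) : ℝ) = 3628800 := by norm_num [Nat.factorial]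
  rw [h4, hfac] at h3
  have h5 : 120 * (N : ℝ) ^ 4 ≤ (N : ℝ) ^ 5 / 4 ^ 10 / 3628800 := by
    have h6 : (N : ℝ) ^ 5 = N ^ 4 * N := by ring
    rw [h6]
    have h7 : 0 < (N : ℝ) ^ 4 := by positivity
    have h8 : (120 : ℝ) * (4 ^ 10 * 3628800) ≤ N := le_trans (by norm_num) hN0
    have h9 : (N : ℝ) ^ 4 * (120 * (4 ^ 10 * 3628800)) ≤ N ^ 4 * N := mul_le_mul_of_nonneg_left h8 h7.le
    rw [div_div, le_div_iff₀ (by norm_num)]
    linarith
  have h10 : Real.exp (-(N / (4 * y))) ≤ (Real.exp (Real.sqrt N / 4))⁻¹ := by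
    rw [← Real.exp_neg]
    exact Real.exp_le_exp.2 (by linarith)
  have h11 : 0 < Real.exp (Real.sqrt N / 4) := Real.exp_pos _
  calc 120 * (N : ℝ) ^ 4 * Real.exp (-(N / (4 * y))) ≤
        Real.exp (Real.sqrt N / 4) * (Real.exp (Real.sqrt N / 4))⁻¹ :=
        mul_le_mul (h5.trans h3) h10 (Real.exp_pos _).le h11.le
    _ = 1 := mul_inv_cancel₀ h11.ne'

open Classical in
theorem typ_most (L tol : ℝ) (hL : 1 ≤ L) (ht : 0 < tol) : ∃ N0 : ℕ, ∀ N : ℕ, N0 ≤ N →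
    ∀ (W : ℤ × ℤ → ℝ) (A B : ℤ → ℝ), Rf L N W A B →
      8 * (N : ℝ) * ((Qset N).filter (fun P => ¬ Typ L tol N W P)).card ≤ Q N := by
  obtain ⟨z0, hz0⟩ := sqr_dev L hL
  obtain ⟨K, hK⟩ : ∃ K : ℕ, K = 20000 := ⟨_, rfl⟩
  have hK0 : K ≠ 0 := by omega
  obtain ⟨z1, hz1⟩ := exists_nat_ge (16 * L ^ 6 / tol)
  refine ⟨max ((max z0 z1 + 2) ^ K) (10 ^ 15), ?_⟩
  intro N hN W A B hR
  have hN1 : (max z0 z1 + 2) ^ K ≤ N := le_trans (le_max_left _ _) hN
  have hN2 : 10 ^ 15 ≤ N := le_trans (le_max_right _ _) hN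
  obtain ⟨z, hzz, hzK, hzK'⟩ := exZ K (max z0 z1 + 2) N hK0 hN1
  have hz2 : 2 ≤ z := by omega
  have hIn : InR z N := inR hK hz2 hzK hzK'
  have hdev := hz0 z N (by omega) (by omega) hIn W A B hR
  have hNpos : (0 : ℝ) < N := by
    have : 0 < N := by omega
    exact_mod_cast this
  have hzpos : (0 : ℝ) < z := by
    have : 0 < z := by omega
    exact_mod_cast this
  have hzone : (1 : ℝ) ≤ z := by
    have : 1 ≤ z := by omega
    exact_mod_cast this
  have hz78 : z ^ 78 ≤ N := (Nat.pow_le_pow_right (by omega) (by omega : 78 ≤ K)).trans hzK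
  have hzN : z ≤ N := (Nat.le_self_pow (by norm_num) z).trans hz78
  have hz78' : ((z : ℝ) ^ 39) ^ 2 ≤ N := by
    rw [← pow_mul]
    exact_mod_cast hz78
  have hzN' : (z : ℝ) ≤ N := by exact_mod_cast hzN
  have hL3 : (1 : ℝ) ≤ L ^ 3 := one_le_pow₀ hL
  have hL6 : (1 : ℝ) ≤ L ^ 6 := one_le_pow₀ hL
  have hL36 : L ^ 3 ≤ L ^ 6 := pow_le_pow_right₀ hL (by norm_num)
  have hL3p : 0 < L ^ 3 := by linarith
  have hL6p : 0 < L ^ 6 := by linarith
  have hztol : 16 * L ^ 6 / z ≤ tol := by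
    have h1 : 16 * L ^ 6 / tol ≤ z := hz1.trans (by
      have : z1 ≤ z := by omega
      exact_mod_cast this)
    rw [div_le_iff₀ ht] at h1
    rw [div_le_iff₀ hzpos]
    linarith
  have hκ : 0 < 1 / (z : ℝ) ^ 4 := by positivity
  have hκz : 1 / (z : ℝ) ^ 4 ≤ 1 / z := by
    apply one_div_le_one_div_of_le hzpos
    exact le_self_pow₀ hzone (by norm_num)
  have hz1' : 1 / (z : ℝ) ≤ 1 := by
    rw [div_le_one hzpos]
    exact hzone
  have hκ1 : 1 / (z : ℝ) ^ 4 ≤ 1 := hκz.trans hz1'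
  have hNz : 1 / (N : ℝ) ≤ 1 / z := one_div_le_one_div_of_le hzpos hzN'
  have hu0 : 0 < 1 / (z : ℝ) := by positivity
  obtain ⟨E, hE⟩ : ∃ E : (Finset (ℤ ⊕ ℤ) → ℝ) → ℝ, E = fun f =>
    ∑ U ∈ (gd N).powerset, bern (gd N) (pp N W (1 / (z : ℝ) ^ 4)) U * f U := ⟨_, rfl⟩
  have hEs : ∀ (a : ℝ) (f : Finset (ℤ ⊕ ℤ) → ℝ), E (fun U => a * f U) = a * E f := by
    intro a f
    rw [hE]
    simp only
    rw [Finset.mul_sum]
    apply Finset.sum_congr rfl
    intro U _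
    ring
  obtain ⟨Bf, hBf⟩ : ∃ Bf : (Finset (ℤ ⊕ ℤ) → ℝ) → Finset (Finset (ℤ × ℤ)), Bf = fun f =>
    (Qset N).filter (fun P => N / (z : ℝ) + 2 < |f (oP P) - E f|) := ⟨_, rfl⟩
  obtain ⟨M, hM⟩ : ∃ M : ℝ, M = 3 * Real.exp (-(N / (4 * (z : ℝ) ^ 39))) * Q N := ⟨_, rfl⟩
  have hM0 : 0 ≤ M := by rw [hM]; positivity
  have hBd : ∀ f : Finset (ℤ ⊕ ℤ) → ℝ, (∀ u U, |f (insert u U) - f U| ≤ 1) → ((Bf f).card : ℝ) ≤ M := by
    intro f hf
    have h := hdev f hf
    rw [hBf, hM]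
    simp only [hE]
    convert h using 3
  obtain ⟨fa, hfa⟩ : ∃ fa : ℕ × Li → Finset (ℤ ⊕ ℤ) → ℝ, fa = fun p U => (N / L ^ 3) * FL N W p.1 p.2 U :=
    ⟨_, rfl⟩
  obtain ⟨fb, hfb⟩ : ∃ fb : ℕ × (ℤ × ℤ) → Finset (ℤ ⊕ ℤ) → ℝ, fb = fun p U =>
    (N / (2 * L ^ 6)) * FG N W p.1 p.2.1 p.2.2 U := ⟨_, rfl⟩
  obtain ⟨S1, hS1⟩ : ∃ S1 : Finset (ℕ × Li), S1 = Finset.Icc 1 N ×ˢ full N := ⟨_, rfl⟩
  obtain ⟨S2, hS2⟩ : ∃ S2 : Finset (ℕ × (ℤ × ℤ)), S2 = Finset.Icc 1 N ×ˢ board N := ⟨_, rfl⟩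
  have h1 : ∀ p ∈ S1, ((Bf (fa p)).card : ℝ) ≤ M := by
    intro p hp
    rw [hS1, Finset.mem_product, Finset.mem_Icc] at hp
    apply hBd
    intro u U
    rw [hfa]
    simp only
    rw [← mul_sub, abs_mul, abs_of_pos (by positivity : 0 < (N : ℝ) / L ^ 3)]
    calc (N : ℝ) / L ^ 3 * |FL N W p.1 p.2 (insert u U) - FL N W p.1 p.2 U| ≤ N / L ^ 3 * (L ^ 3 / N) := by
          apply mul_le_mul_of_nonneg_left _ (by positivity)
          convert FL_lip hL hR hp.1.1 hp.1.2 p.2 u U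
      _ = 1 := by field_simp
  have h2 : ∀ p ∈ S2, ((Bf (fb p)).card : ℝ) ≤ M := by
    intro p hp
    rw [hS2, Finset.mem_product, Finset.mem_Icc, Pool.Agent.NQ.mem_board] at hp
    apply hBd
    intro u U
    rw [hfb]
    simp only
    rw [← mul_sub, abs_mul, abs_of_pos (by positivity : 0 < (N : ℝ) / (2 * L ^ 6))]
    calc (N : ℝ) / (2 * L ^ 6) * |FG N W p.1 p.2.1 p.2.2 (insert u U) - FG N W p.1 p.2.1 p.2.2 U| ≤
          N / (2 * L ^ 6) * (2 * L ^ 6 / N) := by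
          apply mul_le_mul_of_nonneg_left _ (by positivity)
          convert FG_lip hL hR hp.1.1 hp.1.2 hp.2.1 hp.2.2 u U
      _ = 1 := by field_simp
  have hsub : (Qset N).filter (fun P => ¬ Typ L tol N W P) ⊆
      S1.biUnion (fun p => Bf (fa p)) ∪ S2.biUnion (fun p => Bf (fb p)) := by
    intro P hP
    rw [Finset.mem_filter] at hP
    obtain ⟨hPQ, hPT⟩ := hP
    by_contra hno
    apply hPT
    rw [Finset.mem_union, not_or, Finset.mem_biUnion, Finset.mem_biUnion] at hno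
    obtain ⟨hno1, hno2⟩ := hno
    push Not at hno1 hno2
    constructor
    · intro k hk hkN l hl
      have hmem : (k, l) ∈ S1 := by
        rw [hS1, Finset.mem_product, Finset.mem_Icc]
        exact ⟨⟨hk, hkN⟩, hl⟩
      have h3 := hno1 (k, l) hmem
      rw [hBf] at h3
      simp only [Finset.mem_filter, not_and, not_lt] at h3
      have h4 := h3 hPQ
      rw [hfa] at h4
      simp only at h4
      rw [hEs, ← mul_sub, abs_mul, abs_of_pos (by positivity : 0 < (N : ℝ) / L ^ 3), ← fl_eq hPQ] at h4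
      have h5 : |fl N W k P l - E (fun U => FL N W k l U)| ≤ L ^ 3 * (3 * (1 / z)) := by
        have h6 : |fl N W k P l - E (fun U => FL N W k l U)| ≤ (L ^ 3 / N) * (N / z + 2) := by
          calc |fl N W k P l - E (fun U => FL N W k l U)|
              = (L ^ 3 / N) * (N / L ^ 3 * |fl N W k P l - E (fun U => FL N W k l U)|) := by
                field_simp
            _ ≤ _ := mul_le_mul_of_nonneg_left h4 (by positivity)
        refine h6.trans ?_
        have h7 : (L ^ 3 / N) * (N / z + 2) = L ^ 3 * (1 / z + 2 * (1 / N)) := by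
          field_simp
        rw [h7]
        apply mul_le_mul_of_nonneg_left _ hL3p.le
        linarith
      have h8 : |E (fun U => FL N W k l U) - TT N W k l| ≤ 2 * L ^ 3 * (1 / (z : ℝ) ^ 4) := by
        rw [hE]
        convert FL_exp hL hR hk hkN hl hκ hκ1
      have h9 : 2 * L ^ 3 * (1 / (z : ℝ) ^ 4) ≤ 2 * L ^ 3 * (1 / z) :=
        mul_le_mul_of_nonneg_left hκz (by positivity)
      have h10 : L ^ 3 * (1 / z) ≤ L ^ 6 * (1 / (z : ℝ)) := mul_le_mul_of_nonneg_right hL36 hu0.le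
      have h11 : 16 * (L ^ 6 * (1 / (z : ℝ))) ≤ tol := by
        calc 16 * (L ^ 6 * (1 / (z : ℝ))) = 16 * L ^ 6 / z := by ring
          _ ≤ tol := hztol
      have h12 : 0 < L ^ 6 * (1 / (z : ℝ)) := by positivity
      calc |fl N W k P l - TT N W k l| ≤ |fl N W k P l - E (fun U => FL N W k l U)| +
            |E (fun U => FL N W k l U) - TT N W k l| := abs_sub_le _ _ _
        _ ≤ L ^ 3 * (3 * (1 / z)) + 2 * L ^ 3 * (1 / z) := add_le_add h5 (h8.trans h9)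
        _ ≤ tol := by nlinarith
    · intro k hk hkN x x' hx hx1 hx' hx1' hxx
      have hmem : (k, (x, x')) ∈ S2 := by
        rw [hS2, Finset.mem_product, Finset.mem_Icc, Pool.Agent.NQ.mem_board]
        exact ⟨⟨hk, hkN⟩, ⟨hx, hx1⟩, ⟨hx', hx1'⟩⟩
      have h3 := hno2 (k, (x, x')) hmem
      rw [hBf] at h3
      simp only [Finset.mem_filter, not_and, not_lt] at h3
      have h4 := h3 hPQ
      rw [hfb] at h4
      simp only at h4
      rw [hEs, ← mul_sub, abs_mul, abs_of_pos (by positivity : 0 < (N : ℝ) / (2 * L ^ 6)), ← fg_eq hPQ] at h4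
      have h5 : |fg N W k P x x' - E (fun U => FG N W k x x' U)| ≤ 2 * L ^ 6 * (3 * (1 / z)) := by
        have h6 : |fg N W k P x x' - E (fun U => FG N W k x x' U)| ≤ (2 * L ^ 6 / N) * (N / z + 2) := by
          calc |fg N W k P x x' - E (fun U => FG N W k x x' U)|
              = (2 * L ^ 6 / N) * (N / (2 * L ^ 6) * |fg N W k P x x' - E (fun U => FG N W k x x' U)|) := by
                field_simp
            _ ≤ _ := mul_le_mul_of_nonneg_left h4 (by positivity)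
        refine h6.trans ?_
        have h7 : (2 * L ^ 6 / N) * (N / z + 2) = 2 * L ^ 6 * (1 / z + 2 * (1 / N)) := by
          field_simp
        rw [h7]
        apply mul_le_mul_of_nonneg_left _ (by positivity)
        linarith
      have h8 : 1 / L ^ 2 - 4 * L ^ 6 * (1 / (z : ℝ) ^ 4) ≤ E (fun U => FG N W k x x' U) := by
        rw [hE]
        convert FG_exp hL hR hk hkN ⟨hx, hx1⟩ ⟨hx', hx1'⟩ hxx hκ hκ1
      have h9 : 4 * L ^ 6 * (1 / (z : ℝ) ^ 4) ≤ 4 * L ^ 6 * (1 / z) :=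
        mul_le_mul_of_nonneg_left hκz (by positivity)
      have h11 : 16 * (L ^ 6 * (1 / (z : ℝ))) ≤ tol := by
        calc 16 * (L ^ 6 * (1 / (z : ℝ))) = 16 * L ^ 6 / z := by ring
          _ ≤ tol := hztol
      have h12 : 0 < L ^ 6 * (1 / (z : ℝ)) := by positivity
      have h13 := (abs_le.1 h5).1
      nlinarith
  have hcard : (((Qset N).filter (fun P => ¬ Typ L tol N W P)).card : ℝ) ≤ 5 * (N : ℝ) ^ 3 * M := by
    have e1 : (((Qset N).filter (fun P => ¬ Typ L tol N W P)).card : ℝ) ≤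
        ((S1.biUnion (fun p => Bf (fa p)) ∪ S2.biUnion (fun p => Bf (fb p))).card : ℝ) := by
      exact_mod_cast Finset.card_le_card hsub
    have e2 : ((S1.biUnion (fun p => Bf (fa p)) ∪ S2.biUnion (fun p => Bf (fb p))).card : ℝ) ≤
        ((S1.biUnion (fun p => Bf (fa p))).card : ℝ) + ((S2.biUnion (fun p => Bf (fb p))).card : ℝ) := by
      exact_mod_cast Finset.card_union_le _ _
    have e3 := union_bd S1 (fun p => Bf (fa p)) M h1
    have e4 := union_bd S2 (fun p => Bf (fb p)) M h2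
    have e5 : (S1.card : ℝ) ≤ 4 * (N : ℝ) ^ 3 := by
      rw [hS1, Finset.card_product, Nat.card_Icc, Nat.add_sub_cancel]
      push_cast
      have := full_card N
      calc (N : ℝ) * ((full N).card : ℝ) ≤ N * (4 * N ^ 2) := mul_le_mul_of_nonneg_left this hNpos.le
        _ = 4 * (N : ℝ) ^ 3 := by ring
    have e6 : (S2.card : ℝ) = (N : ℝ) ^ 3 := by
      have h2 : (board N).card = N ^ 2 := by
        unfold Pool.Agent.NQ.board
        rw [Finset.card_product, Int.card_Ico]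
        simp
        ring
      rw [hS2, Finset.card_product, Nat.card_Icc, Nat.add_sub_cancel, h2]
      push_cast
      ring
    have e7 : (S1.card : ℝ) * M ≤ 4 * (N : ℝ) ^ 3 * M := mul_le_mul_of_nonneg_right e5 hM0
    rw [e6] at e4
    linarith
  have hQ0 : (0 : ℝ) ≤ Q N := Nat.cast_nonneg _
  have hy : (0 : ℝ) < (z : ℝ) ^ 39 := by positivity
  have hsm := small hN2 hy hz78'
  calc 8 * (N : ℝ) * ((Qset N).filter (fun P => ¬ Typ L tol N W P)).card
      ≤ 8 * (N : ℝ) * (5 * (N : ℝ) ^ 3 * M) := mul_le_mul_of_nonneg_left hcard (by positivity)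
    _ = (120 * (N : ℝ) ^ 4 * Real.exp (-(N / (4 * (z : ℝ) ^ 39)))) * Q N := by rw [hM]; ring
    _ ≤ 1 * Q N := mul_le_mul_of_nonneg_right hsm hQ0
    _ = Q N := one_mul _

end Pool.Agent.NQL
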