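import Pool.Agent.NQL.Defs
import Pool.Agent.NQL.ABas
import Pool.Agent.NQL.BNom
import Pool.Agent.NQL.BFul
import Pool.Agent.NQL.BReg
import Pool.Agent.NQL.DCnt
import Pool.Agent.NQL.DRec
import Pool.Agent.NQL.DInd
import Pool.Agent.NQL.DTyD
import Pool.Agent.NQL.TTyp
import Pool.Agent.NQL.DBad

/-!
# NQL-DUp: the upper bound

PLAN. `good_reg`: `ε, t1s`, `t1 = t1s`, `ε'`, `m01`; `bad_sum`: `tol`, `m02`; `upper_zu`: `mX`; `m0` = maximum; `G m I = Good L ε t1 ε' N m W I`. `upper_zu`: `zu G m0 N N (full N) ≤ exp (F - N + log N/2 + C)` (`G N (full N)` by `full_st`, `vd_full`). `zz_full`, `zu_le`, `ab_eq`, `pl_full`: `Q N - zu ≤ ∑_{k ∈ Icc m0 N} ∑_{P ∈ Qset N} (bad R)/C(N,k)`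
`= ∑_P ∑_k ..`: typical `P`: `≤ 1/8` (`bad_sum`), not typical: each `k` contributes `≤ 1`, total `≤ N` (`card (powersetCard) = choose`), `typ_most`: `≤ Q N/8`. So `Q N - zu ≤ Q N/4`, `Q N ≤ (4/3) zu`.
-/

set_option autoImplicit false

open Finset

namespace Pool.Agent.NQL

open Pool.Agent.NQ (board dsum F Ent Dg phi ln Q Qset QS NonAtt bern)
open Pool.Agent.NQR (Adm Opt Bd Rf hS hD hh InR)

/-- the full board is a good instance -/
private theorem good_full {L : ℝ} (hL : 1 ≤ L) {ε t1 ε' : ℝ} (hε : 0 ≤ ε) (hε' : 0 ≤ ε') {N : ℕ} (hN : 2 ≤ N)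
    {W : ℤ × ℤ → ℝ} {A B : ℤ → ℝ} (hR : Rf L N W A B) : Good L ε t1 ε' N N W (full N) := by
  have hN0 : (0 : ℝ) < N := by positivity
  have hN0' : (0 : ℝ) ≤ N := hN0.le
  obtain ⟨_, _, hY, hC⟩ := full_st hL hN hR
  refine ⟨vd_full (by omega), ?_, ?_, ?_, ?_⟩
  · intro l hl hrc
    rw [hY l hl, tt_rc hrc]
    simpa using hε
  · intro _ l hl hrc
    rw [hY l hl]
    simpa using hε'
  · intro l hl hrc
    rw [hY l hl]
    have h1 := (tt_bd hL hR (by omega) le_rfl hrc).2.2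
    have h2 : (0 : ℝ) < 1 / L := by positivity
    have h3 : (1 : ℝ) ≤ L ^ 3 := one_le_pow₀ hL
    have h4 : (N : ℝ) / N = 1 := div_self hN0.ne'
    have h5 : (0 : ℝ) ≤ (N : ℝ) ^ (-(1 / 4) : ℝ) := Real.rpow_nonneg hN0' _
    rw [h4]
    nlinarith
  · intro x x' hx hx' _
    obtain ⟨e, he, h⟩ := mem_full.1 hx
    obtain ⟨e', he', h'⟩ := mem_full.1 hx'
    rw [Pool.Agent.NQ.mem_board] at he he'
    simp only [Pool.Agent.NQ.ln_zero] at h h'
    have h3 := hC x x' (by omega) (by omega) (by omega) (by omega)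
    refine le_trans ?_ h3
    apply one_div_le_one_div_of_le (by positivity)
    nlinarith [sq_nonneg L]

theorem upper (L : ℝ) (hL : 1 ≤ L) : ∃ (C : ℝ) (N0 : ℕ), ∀ N : ℕ, N0 ≤ N → ∀ (W : ℤ × ℤ → ℝ) (A B : ℤ → ℝ),
    Rf L N W A B → 0 < Q N → Real.log (Q N) ≤ F N W - N + Real.log N / 2 + C := by
  classical
  obtain ⟨ε, t1, hε, hε4, ht, ht4, H⟩ := good_reg L hL
  obtain ⟨ε', m01, hε', hε'ε, hm01, HR⟩ := H t1 ht le_rfl
  obtain ⟨tol, htol, m02, HB⟩ := bad_sum L ε t1 ε' hL hε (by linarith) ht hε' (by linarith)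
  obtain ⟨mX, HX⟩ := upper_zu L hL
  obtain ⟨m0, hm0⟩ : ∃ m0 : ℕ, m0 = max (max m01 m02) mX := ⟨_, rfl⟩
  have h01 : m01 ≤ m0 := by omega
  have h02 : m02 ≤ m0 := by omega
  have h0X : mX ≤ m0 := by omega
  have h00 : 1 ≤ m0 := by omega
  obtain ⟨C, HC⟩ := HX m0 h0X h00
  obtain ⟨N1, HN1⟩ := HB m0 h02
  obtain ⟨N2, HN2⟩ := typ_most L tol hL htol
  refine ⟨C + 1, max (max N1 N2) (m0 + 2), ?_⟩
  intro N hN W A B hR hQ
  have hN1 : N1 ≤ N := by omega
  have hN2 : N2 ≤ N := by omega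
  have hN3 : m0 < N := by omega
  have hN4 : 2 ≤ N := by omega
  obtain ⟨G, hG⟩ : ∃ G : ℕ → Finset Li → Prop, G = fun m I => Good L ε t1 ε' N m W I := ⟨_, rfl⟩
  have hGf : G N (full N) := by
    rw [hG]
    exact good_full hL hε.le hε'.le hN4 hR
  have hzu := HC G N W A B hN3 hR hGf (by
    intro m I hm hmN hGm
    rw [hG] at hGm
    refine ⟨hGm.vd, ?_⟩
    obtain ⟨z, h1, _, h3⟩ := HR N m I W A B (by omega) hmN hR hGm
    exact ⟨z, h1, h3⟩)
  have hle := zu_le G (N := N) h00 hN3.le (full N)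
  rw [zz_full] at hle
  have hsum : ∑ k ∈ Finset.Icc m0 N, ab (fun J => if G k J then 0 else 1) k N N (full N) =
      ∑ P ∈ Qset N, ∑ k ∈ Finset.Icc m0 N, (((P.powersetCard k).filter (fun R =>
        ¬ Good L ε t1 ε' N k W (rmS (full N) (P \ R)))).card : ℝ) / (N.choose k : ℕ) := by
    rw [Finset.sum_comm]
    apply Finset.sum_congr rfl
    intro k hk
    rw [Finset.mem_Icc] at hk
    rw [ab_eq _ (by omega) hk.2, pl_full, Finset.sum_div]
    apply Finset.sum_congr rfl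
    intro P hP
    congr 1
    rw [Finset.card_filter]
    push_cast
    apply Finset.sum_congr rfl
    intro R hR
    rw [hG]
    by_cases hg : Good L ε t1 ε' N k W (rmS (full N) (P \ R)) <;> simp [hg]
  have hsplit : ∑ P ∈ Qset N, ∑ k ∈ Finset.Icc m0 N, (((P.powersetCard k).filter (fun R =>
        ¬ Good L ε t1 ε' N k W (rmS (full N) (P \ R)))).card : ℝ) / (N.choose k : ℕ) ≤
      ∑ P ∈ Qset N, (1 / 8 + if ¬ Typ L tol N W P then (N : ℝ) else 0) := by
    apply Finset.sum_le_sum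
    intro P hP
    by_cases hT : Typ L tol N W P
    · have := HN1 N hN1 W A B hR P hP hT
      simp only [hT, not_true_eq_false, if_false, add_zero]
      exact this
    · rw [if_pos hT]
      have hone : ∀ k ∈ Finset.Icc m0 N, (((P.powersetCard k).filter (fun R =>
        ¬ Good L ε t1 ε' N k W (rmS (full N) (P \ R)))).card : ℝ) / (N.choose k : ℕ) ≤ 1 := by
        intro k hk
        rw [Finset.mem_Icc] at hk
        have hc : 0 < N.choose k := Nat.choose_pos hk.2
        have hc' : (0 : ℝ) < (N.choose k : ℕ) := by exact_mod_cast hc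
        rw [div_le_one hc']
        have h1 : ((P.powersetCard k).filter (fun R =>
          ¬ Good L ε t1 ε' N k W (rmS (full N) (P \ R)))).card ≤ (P.powersetCard k).card := Finset.card_filter_le _ _
        rw [Finset.card_powersetCard, (Pool.Agent.NQ.mem_Qset.1 hP).2.1] at h1
        exact_mod_cast h1
      have h2 := Finset.sum_le_sum hone
      refine h2.trans ?_
      rw [Finset.sum_const, Nat.card_Icc, nsmul_eq_mul, mul_one]
      have h3 : ((N + 1 - m0 : ℕ) : ℝ) ≤ N := by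
        have : N + 1 - m0 ≤ N := by omega
        exact_mod_cast this
      linarith
  have hcount : ∑ P ∈ Qset N, (1 / 8 + if ¬ Typ L tol N W P then (N : ℝ) else 0) =
      (Q N : ℝ) / 8 + N * ((Qset N).filter (fun P => ¬ Typ L tol N W P)).card := by
    rw [Finset.sum_add_distrib, Finset.sum_const, ← Finset.sum_filter, Finset.sum_const]
    simp only [nsmul_eq_mul]
    have : ((Qset N).card : ℝ) = Q N := rfl
    rw [this]
    ring
  have htyp := HN2 N hN2 W A B hR
  have hQ' : (0 : ℝ) < Q N := by exact_mod_cast hQ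
  have hfin : (Q N : ℝ) ≤ 4 / 3 * zu G m0 N N (full N) := by
    have htyp' : 8 * (N : ℝ) * ((Qset N).filter (fun P => ¬ Typ L tol N W P)).card ≤ Q N := by
      convert htyp using 3
    rw [hsum] at hle
    linarith
  have hfin2 : (Q N : ℝ) ≤ Real.exp (F N W - N + Real.log N / 2 + (C + 1)) := by
    have h1 : Real.exp (F N W - N + Real.log N / 2 + (C + 1)) =
        Real.exp (F N W - N + Real.log N / 2 + C) * Real.exp 1 := by
      rw [← Real.exp_add]; congr 1; ring
    rw [h1]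
    have h2 : (2 : ℝ) ≤ Real.exp 1 := by
      have := Real.add_one_le_exp (1 : ℝ)
      linarith
    have h3 := Real.exp_pos (F N W - N + Real.log N / 2 + C)
    nlinarith
  calc Real.log (Q N) ≤ Real.log (Real.exp (F N W - N + Real.log N / 2 + (C + 1))) :=
        Real.log_le_log hQ' hfin2
    _ = _ := Real.log_exp _

end Pool.Agent.NQL
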