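import Pool.Agent.NQL.Defs
import Pool.Agent.NQ.APhi

/-!
# NQL-ERef: refinement of the board
-/

set_option autoImplicit false

open Finset

namespace Pool.Agent.NQL

open Pool.Agent.NQ (board dsum F Ent Dg phi ln Q Qset QS NonAtt bern)
open Pool.Agent.NQR (Adm Opt Bd Rf hS hD hh InR)

private lemma dv1 {k : ℕ} (hk : 1 ≤ k) {i a : ℤ} (h0 : 0 ≤ a) (h1 : a < k) : (i * k + a) / k = i := by
  have hk' : (0 : ℤ) < k := by exact_mod_cast hk
  rw [add_comm, Int.add_mul_ediv_right _ _ hk'.ne', Int.ediv_eq_zero_of_lt h0 h1, zero_add]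

private lemma dv2 {k : ℕ} (hk : 1 ≤ k) (s i a : ℤ) : (s - (i * k + a)) / k = (s - a) / k - i := by
  have hk' : (0 : ℤ) < k := by exact_mod_cast hk
  have h1 : s - (i * k + a) = (s - a) + (-i) * k := by ring
  rw [h1, Int.add_mul_ediv_right _ _ hk'.ne']
  ring

private lemma dv3 {k : ℕ} (hk : 1 ≤ k) (s i a : ℤ) : (i * k + a + s) / k = i + (s + a) / k := by
  have hk' : (0 : ℤ) < k := by exact_mod_cast hk
  have h1 : i * k + a + s = (s + a) + i * k := by ring
  rw [h1, Int.add_mul_ediv_right _ _ hk'.ne']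
  ring

private lemma sum_block {k : ℕ} (hk : 1 ≤ k) (m1 m2 : ℤ) (f : ℤ → ℝ) :
    ∑ x ∈ Finset.Ico (m1 * k) (m2 * k), f x =
      ∑ i ∈ Finset.Ico m1 m2, ∑ a ∈ Finset.Ico (0 : ℤ) k, f (i * k + a) := by
  rw [← Finset.sum_product']
  have hk' : (0 : ℤ) < k := by exact_mod_cast hk
  have hre : ∀ x : ℤ, x / k * k + x % k = x := by
    intro x
    have := Int.emod_add_mul_ediv x k
    linarith
  refine Finset.sum_nbij' (fun x => (x / k, x % k)) (fun p => p.1 * k + p.2) ?_ ?_ ?_ ?_ ?_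
  · intro x hx
    rw [Finset.mem_Ico] at hx
    rw [Finset.mem_product, Finset.mem_Ico, Finset.mem_Ico]
    exact ⟨⟨(Int.le_ediv_iff_mul_le hk').2 hx.1, (Int.ediv_lt_iff_lt_mul hk').2 hx.2⟩,
      Int.emod_nonneg _ hk'.ne', Int.emod_lt_of_pos _ hk'⟩
  · rintro ⟨i, a⟩ hp
    rw [Finset.mem_product, Finset.mem_Ico, Finset.mem_Ico] at hp
    obtain ⟨⟨h1, h2⟩, h3, h4⟩ := hp
    rw [Finset.mem_Ico]
    dsimp only at h1 h2 h3 h4 ⊢
    constructor <;> nlinarith
  · intro x _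
    exact hre x
  · rintro ⟨i, a⟩ hp
    rw [Finset.mem_product, Finset.mem_Ico, Finset.mem_Ico] at hp
    obtain ⟨⟨h1, h2⟩, h3, h4⟩ := hp
    dsimp only at h1 h2 h3 h4 ⊢
    have h5 := dv1 hk (i := i) h3 h4
    have h6 := hre (i * k + a)
    rw [h5] at h6
    rw [h5]
    have h7 : (i * k + a) % k = a := by linarith
    rw [h7]
  · intro x _
    dsimp only
    rw [hre]

private lemma sum_block0 {n k : ℕ} (hk : 1 ≤ k) (f : ℤ → ℝ) :
    ∑ x ∈ Finset.Ico (0 : ℤ) ((n * k : ℕ) : ℤ), f x =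
      ∑ i ∈ Finset.Ico (0 : ℤ) n, ∑ a ∈ Finset.Ico (0 : ℤ) k, f (i * k + a) := by
  have h := sum_block hk 0 n f
  rw [zero_mul] at h
  rw [← h]
  push_cast
  rfl

/-- the sum over a block of a function which does not depend on the position in the block -/
private lemma sum_blockc {n k : ℕ} (hk : 1 ≤ k) (g : ℤ → ℝ) :
    ∑ x ∈ Finset.Ico (0 : ℤ) ((n * k : ℕ) : ℤ), g (x / k) =
      k * ∑ i ∈ Finset.Ico (0 : ℤ) n, g i := by
  rw [sum_block0 hk, Finset.mul_sum]
  refine Finset.sum_congr rfl fun i _ => ?_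
  rw [Finset.sum_congr rfl (g := fun _ => g i)]
  · rw [Finset.sum_const, Int.card_Ico, nsmul_eq_mul]
    simp
  · intro a ha
    rw [Finset.mem_Ico] at ha
    rw [dv1 hk ha.1 ha.2]

private lemma ds0 {N : ℕ} (W : ℤ × ℤ → ℝ) {x : ℤ} (h0 : 0 ≤ x) (h1 : x < N) :
    dsum N W 0 x = ∑ y ∈ Finset.Ico (0 : ℤ) N, W (x, y) := by
  unfold dsum board
  rw [Finset.sum_filter, Finset.sum_product, Finset.sum_eq_single x]
  · refine Finset.sum_congr rfl fun y _ => ?_
    rw [if_pos]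
    rfl
  · intro b _ hb
    refine Finset.sum_eq_zero fun y _ => ?_
    rw [if_neg]
    exact hb
  · intro h
    exact absurd (Finset.mem_Ico.2 ⟨h0, h1⟩) h

private lemma ds1 {N : ℕ} (W : ℤ × ℤ → ℝ) {y : ℤ} (h0 : 0 ≤ y) (h1 : y < N) :
    dsum N W 1 y = ∑ x ∈ Finset.Ico (0 : ℤ) N, W (x, y) := by
  unfold dsum board
  rw [Finset.sum_filter, Finset.sum_product]
  refine Finset.sum_congr rfl fun x _ => ?_
  rw [Finset.sum_eq_single y]
  · rw [if_pos]
    rfl
  · intro b _ hb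
    rw [if_neg]
    exact hb
  · intro h
    exact absurd (Finset.mem_Ico.2 ⟨h0, h1⟩) h

private lemma ds2 {N : ℕ} (W : ℤ × ℤ → ℝ) (hW : ∀ e, e ∉ board N → W e = 0) (s : ℤ) :
    dsum N W 2 s = ∑ x ∈ Finset.Ico (0 : ℤ) N, W (x, s - x) := by
  unfold dsum board
  rw [Finset.sum_filter, Finset.sum_product]
  refine Finset.sum_congr rfl fun x hx => ?_
  rw [Finset.sum_eq_single (s - x)]
  · rw [if_pos]
    change x + (s - x) = s
    ring
  · intro b _ hb
    rw [if_neg]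
    intro h
    apply hb
    change x + b = s at h
    linarith
  · intro h
    have h1 : W (x, s - x) = 0 := by
      apply hW
      intro h2
      unfold board at h2
      rw [Finset.mem_product] at h2
      exact h h2.2
    rw [h1, ite_self]

private lemma ds3 {N : ℕ} (W : ℤ × ℤ → ℝ) (hW : ∀ e, e ∉ board N → W e = 0) (s : ℤ) :
    dsum N W 3 s = ∑ y ∈ Finset.Ico (0 : ℤ) N, W (y + s, y) := by
  unfold dsum board
  rw [Finset.sum_filter, Finset.sum_product_right]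
  refine Finset.sum_congr rfl fun y hy => ?_
  rw [Finset.sum_eq_single (y + s)]
  · rw [if_pos]
    change (y + s) - y = s
    ring
  · intro b _ hb
    rw [if_neg]
    intro h
    apply hb
    change b - y = s at h
    linarith
  · intro h
    have h1 : W (y + s, y) = 0 := by
      apply hW
      intro h2
      unfold board at h2
      rw [Finset.mem_product] at h2
      exact h h2.1
    rw [h1, ite_self]

/-- sums over shifted blocks -/
private lemma sum_shift {k : ℕ} (hk : 1 ≤ k) (g : ℤ → ℝ) (hg : ∀ d, 0 ≤ g d) (m1 m2 : ℤ)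
    (hz : ∀ d, d ∉ Finset.Ico m1 m2 → g d = 0) (c : ℤ) (S : Finset ℤ) :
    ∑ s ∈ S, g ((s + c) / k) ≤ k * ∑ d ∈ Finset.Ico m1 m2, g d := by
  classical
  have hk' : (0 : ℤ) < k := by exact_mod_cast hk
  have h1 : ∑ s ∈ S, g ((s + c) / k) ≤
      ∑ s ∈ S ∪ Finset.Ico (m1 * k + -c) (m2 * k + -c), g ((s + c) / k) :=
    Finset.sum_le_sum_of_subset_of_nonneg Finset.subset_union_left fun _ _ _ => hg _
  have h2 : ∑ s ∈ Finset.Ico (m1 * k + -c) (m2 * k + -c), g ((s + c) / k) =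
      ∑ s ∈ S ∪ Finset.Ico (m1 * k + -c) (m2 * k + -c), g ((s + c) / k) := by
    refine Finset.sum_subset Finset.subset_union_right fun s _ hs => hz _ ?_
    intro h
    apply hs
    rw [Finset.mem_Ico] at h ⊢
    have h3 := (Int.le_ediv_iff_mul_le hk').1 h.1
    have h4 := (Int.ediv_lt_iff_lt_mul hk').1 h.2
    constructor <;> linarith
  rw [← h2, ← Finset.sum_Ico_add' (fun s => g ((s + c) / k))] at h1
  refine h1.trans (le_of_eq ?_)
  have h5 : ∀ x : ℤ, x + -c + c = x := fun x => by ring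
  simp only [h5]
  rw [sum_block hk, Finset.mul_sum]
  refine Finset.sum_congr rfl fun i _ => ?_
  rw [Finset.sum_congr rfl (g := fun _ => g i)]
  · rw [Finset.sum_const, Int.card_Ico, nsmul_eq_mul]
    simp
  · intro a ha
    rw [Finset.mem_Ico] at ha
    rw [dv1 hk ha.1 ha.2]

private lemma phi_avg {k : ℕ} (hk : 1 ≤ k) (p : ℤ → ℝ) (hp : ∀ a, p a ≤ 1) :
    phi (1 / k * ∑ a ∈ Finset.Ico (0 : ℤ) k, p a) ≤
      1 / k * ∑ a ∈ Finset.Ico (0 : ℤ) k, phi (p a) := by
  have hk0 : (0 : ℝ) < k := by exact_mod_cast hk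
  have h := Pool.Agent.NQ.phi_convex.map_sum_le (t := Finset.Ico (0 : ℤ) k)
    (w := fun _ => (1 : ℝ) / k) (p := p) (fun _ _ => by positivity) (by
      rw [Finset.sum_const, Int.card_Ico, nsmul_eq_mul]
      simp
      field_simp) (fun i _ => hp i)
  simp only [smul_eq_mul, ← Finset.mul_sum] at h
  exact h

/-- the sum of `phi` over the refined diagonals -/
private lemma phi_sum {k : ℕ} (hk : 1 ≤ k) (p : ℤ → ℝ) (hp0 : ∀ d, 0 ≤ p d) (hp1 : ∀ d, p d ≤ 1)
    (m1 m2 : ℤ) (hz : ∀ d, d ∉ Finset.Ico m1 m2 → p d = 0) (sg : ℤ) (S : Finset ℤ) :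
    ∑ s ∈ S, phi (1 / k * ∑ a ∈ Finset.Ico (0 : ℤ) k, p ((s + sg * a) / k)) ≤
      k * ∑ d ∈ Finset.Ico m1 m2, phi (p d) := by
  have hk0 : (0 : ℝ) < k := by exact_mod_cast hk
  have h1 : ∑ s ∈ S, phi (1 / k * ∑ a ∈ Finset.Ico (0 : ℤ) k, p ((s + sg * a) / k)) ≤
      ∑ s ∈ S, 1 / k * ∑ a ∈ Finset.Ico (0 : ℤ) k, phi (p ((s + sg * a) / k)) :=
    Finset.sum_le_sum fun s _ => phi_avg hk _ (fun a => hp1 _)
  refine h1.trans ?_
  rw [← Finset.mul_sum, Finset.sum_comm]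
  have h2 : ∑ a ∈ Finset.Ico (0 : ℤ) k, ∑ s ∈ S, phi (p ((s + sg * a) / k)) ≤
      ∑ _a ∈ Finset.Ico (0 : ℤ) k, (k * ∑ d ∈ Finset.Ico m1 m2, phi (p d)) := by
    refine Finset.sum_le_sum fun a _ => ?_
    exact sum_shift hk (fun d => phi (p d)) (fun d => Pool.Agent.NQ.phi_nonneg (hp0 d) (hp1 d)) m1 m2
      (fun d hd => by rw [hz d hd, Pool.Agent.NQ.phi_zero]) (sg * a) S
  rw [Finset.sum_const, Int.card_Ico, nsmul_eq_mul] at h2
  have h3 := mul_le_mul_of_nonneg_left h2 (show (0 : ℝ) ≤ 1 / k by positivity)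
  refine h3.trans (le_of_eq ?_)
  have h4 : (((k : ℤ) - 0).toNat : ℝ) = k := by simp
  rw [h4]
  field_simp

theorem refine_board {n k : ℕ} (hn : 1 ≤ n) (hk : 1 ≤ k) {W : ℤ × ℤ → ℝ} (hW : Adm n W) :
    ∃ V : ℤ × ℤ → ℝ, Adm (n * k) V ∧ k * F n W + n * k * Real.log k ≤ F (n * k) V := by
  have hk0 : (0 : ℝ) < k := by exact_mod_cast hk
  have hk' : (0 : ℤ) < k := by exact_mod_cast hk
  obtain ⟨V, hV⟩ : ∃ V : ℤ × ℤ → ℝ, ∀ x y, V (x, y) = 1 / k * W (x / k, y / k) :=
    ⟨fun e => 1 / k * W (e.1 / k, e.2 / k), fun _ _ => rfl⟩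
  have hout : ∀ e, e ∉ board (n * k) → V e = 0 := by
    rintro ⟨x, y⟩ he
    rw [hV, hW.out, mul_zero]
    intro h
    apply he
    rw [Pool.Agent.NQ.mem_board] at h ⊢
    obtain ⟨⟨h1, h2⟩, h3, h4⟩ := h
    dsimp only at h1 h2 h3 h4 ⊢
    have h1' := (Int.le_ediv_iff_mul_le hk').1 h1
    have h2' := (Int.ediv_lt_iff_lt_mul hk').1 h2
    have h3' := (Int.le_ediv_iff_mul_le hk').1 h3
    have h4' := (Int.ediv_lt_iff_lt_mul hk').1 h4
    rw [zero_mul] at h1' h3'
    push_cast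
    exact ⟨⟨h1', h2'⟩, h3', h4'⟩
  have hq : ∀ s, dsum (n * k) V 2 s =
      1 / k * ∑ a ∈ Finset.Ico (0 : ℤ) k, dsum n W 2 ((s + (-1) * a) / k) := by
    intro s
    rw [ds2 V hout, sum_block0 hk, Finset.sum_comm, Finset.mul_sum]
    refine Finset.sum_congr rfl fun a ha => ?_
    rw [Finset.mem_Ico] at ha
    rw [ds2 W hW.out, Finset.mul_sum]
    refine Finset.sum_congr rfl fun i _ => ?_
    rw [hV, dv1 hk ha.1 ha.2, dv2 hk]
    congr 3
    congr 2
    ring
  have hp : ∀ s, dsum (n * k) V 3 s =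
      1 / k * ∑ a ∈ Finset.Ico (0 : ℤ) k, dsum n W 3 ((s + 1 * a) / k) := by
    intro s
    rw [ds3 V hout, sum_block0 hk, Finset.sum_comm, Finset.mul_sum]
    refine Finset.sum_congr rfl fun a ha => ?_
    rw [Finset.mem_Ico] at ha
    rw [ds3 W hW.out, Finset.mul_sum]
    refine Finset.sum_congr rfl fun i _ => ?_
    rw [hV, dv1 hk ha.1 ha.2, dv3 hk, one_mul]
  have hn0 : ∀ (j : Fin 4) (s : ℤ), 0 ≤ dsum n W j s := fun j s =>
    Finset.sum_nonneg fun e _ => hW.nn e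
  have havg : ∀ (g : ℤ → ℝ), (∀ d, g d ≤ 1) →
      1 / k * ∑ a ∈ Finset.Ico (0 : ℤ) k, g a ≤ 1 := by
    intro g hg
    have h1 : ∑ a ∈ Finset.Ico (0 : ℤ) k, g a ≤ k := by
      refine (Finset.sum_le_sum fun a _ => hg a).trans (le_of_eq ?_)
      simp
    rw [one_div, inv_mul_le_iff₀ hk0, mul_one]
    exact h1
  have hadm : Adm (n * k) V := by
    refine ⟨?_, hout, ?_, ?_, ?_, ?_⟩
    · rintro ⟨x, y⟩
      rw [hV]
      exact mul_nonneg (by positivity) (hW.nn _)
    · intro x h0 h1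
      rw [ds0 V h0 h1]
      simp only [hV]
      rw [sum_blockc hk (fun j => 1 / k * W (x / k, j))]
      have h2 : x / k < n := by
        rw [Int.ediv_lt_iff_lt_mul hk']
        push_cast at h1
        exact h1
      have h3 := hW.row (x / k) (Int.ediv_nonneg h0 hk'.le) h2
      rw [ds0 W (Int.ediv_nonneg h0 hk'.le) h2] at h3
      rw [← Finset.mul_sum, h3]
      field_simp
    · intro y h0 h1
      rw [ds1 V h0 h1]
      simp only [hV]
      rw [sum_blockc hk (fun j => 1 / k * W (j, y / k))]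
      have h2 : y / k < n := by
        rw [Int.ediv_lt_iff_lt_mul hk']
        push_cast at h1
        exact h1
      have h3 := hW.col (y / k) (Int.ediv_nonneg h0 hk'.le) h2
      rw [ds1 W (Int.ediv_nonneg h0 hk'.le) h2] at h3
      rw [← Finset.mul_sum, h3]
      field_simp
    · intro s
      rw [hq]
      exact havg _ fun d => hW.sd _
    · intro s
      rw [hp]
      exact havg _ fun d => hW.dd _
  refine ⟨V, hadm, ?_⟩
  -- entropy
  have htot : ∑ e ∈ board n, W e = n := by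
    unfold board
    rw [Finset.sum_product, Finset.sum_congr rfl (g := fun _ => (1 : ℝ))]
    · simp
    · intro x hx
      rw [Finset.mem_Ico] at hx
      rw [← ds0 W hx.1 hx.2]
      exact hW.row x hx.1 hx.2
  have hent : Ent (n * k) V = k * Ent n W + n * k * Real.log k := by
    have h1 : ∀ w : ℝ, Real.negMulLog (1 / k * w) = 1 / k * (Real.negMulLog w + w * Real.log k) := by
      intro w
      rw [Real.negMulLog_mul]
      have h2 : Real.negMulLog (1 / (k : ℝ)) = 1 / k * Real.log k := by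
        unfold Real.negMulLog
        rw [Real.log_div one_ne_zero hk0.ne', Real.log_one]
        ring
      rw [h2]
      ring
    have h3 : Ent (n * k) V = k * (k * ∑ i ∈ Finset.Ico (0 : ℤ) n, ∑ j ∈ Finset.Ico (0 : ℤ) n,
        (1 / k * (Real.negMulLog (W (i, j)) + W (i, j) * Real.log k))) := by
      unfold Ent board
      rw [Finset.sum_product]
      simp only [hV, h1]
      rw [sum_blockc hk (fun x => ∑ y ∈ Finset.Ico (0 : ℤ) ((n * k : ℕ) : ℤ),
        1 / k * (Real.negMulLog (W (x, y / k)) + W (x, y / k) * Real.log k))]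
      congr 1
      rw [Finset.mul_sum]
      refine Finset.sum_congr rfl fun i _ => ?_
      rw [sum_blockc hk (fun y => 1 / k * (Real.negMulLog (W (i, y)) + W (i, y) * Real.log k))]
    rw [h3]
    have h4 : Ent n W = ∑ i ∈ Finset.Ico (0 : ℤ) n, ∑ j ∈ Finset.Ico (0 : ℤ) n,
        Real.negMulLog (W (i, j)) := by
      unfold Ent board
      rw [Finset.sum_product]
    have h5 : ∑ i ∈ Finset.Ico (0 : ℤ) n, ∑ j ∈ Finset.Ico (0 : ℤ) n, W (i, j) = n := by
      rw [← htot]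
      unfold board
      rw [Finset.sum_product]
    simp only [← Finset.mul_sum, Finset.sum_add_distrib, ← Finset.sum_mul]
    rw [← h4, h5]
    field_simp
  -- diagonals
  have hz2 : ∀ d, d ∉ Finset.Ico (0 : ℤ) (2 * n) → dsum n W 2 d = 0 := by
    intro d hd
    rw [ds2 W hW.out]
    refine Finset.sum_eq_zero fun x hx => hW.out _ fun h => hd ?_
    rw [Pool.Agent.NQ.mem_board] at h
    obtain ⟨⟨h1, h2⟩, h3, h4⟩ := h
    dsimp only at h1 h2 h3 h4
    rw [Finset.mem_Ico]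
    constructor <;> linarith
  have hz3 : ∀ d, d ∉ Finset.Ico (-(n : ℤ) + 1) n → dsum n W 3 d = 0 := by
    intro d hd
    rw [ds3 W hW.out]
    refine Finset.sum_eq_zero fun y hy => hW.out _ fun h => hd ?_
    rw [Pool.Agent.NQ.mem_board] at h
    obtain ⟨⟨h1, h2⟩, h3, h4⟩ := h
    dsimp only at h1 h2 h3 h4
    rw [Finset.mem_Ico]
    constructor <;> omega
  have hDg : Dg (n * k) V ≤ k * Dg n W := by
    unfold Dg
    rw [mul_add]
    refine add_le_add ?_ ?_
    · simp only [hq]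
      exact phi_sum hk (fun d => dsum n W 2 d) (hn0 2) hW.sd 0 (2 * n) hz2 (-1) _
    · simp only [hp]
      have h1 := phi_sum hk (fun d => dsum n W 3 d) (hn0 3) hW.dd (-(n : ℤ) + 1) n hz3 1
        (Finset.Ioo (-((n * k : ℕ) : ℤ)) ((n * k : ℕ) : ℤ))
      have h2 : Finset.Ico (-(n : ℤ) + 1) n = Finset.Ioo (-(n : ℤ)) n := by
        ext d
        rw [Finset.mem_Ico, Finset.mem_Ioo]
        omega
      rw [h2] at h1
      exact h1
  unfold F
  rw [hent]
  nlinarith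

end Pool.Agent.NQL
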