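import Pool.Agent.NQL.Defs
import Pool.Agent.NQL.CLow
import Pool.Agent.NQL.DUp
import Pool.Agent.NQL.ERef
import Pool.Agent.NQL.ECoa
import Pool.Agent.NQR.PMax
import Pool.Agent.NQR.PRef
import Pool.Agent.NQ.KFin
import Pool.Agent.NQ.KUp

/-!
# NQL-ELim: the value of the functional and the asymptotics
-/

set_option autoImplicit false

open Finset

namespace Pool.Agent.NQL

open Pool.Agent.NQ (board dsum F Ent Dg phi ln Q Qset QS NonAtt bern)
open Pool.Agent.NQR (Adm Opt Bd Rf hS hD hh InR)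

open Pool.Agent.NQ (QN)

private theorem el_small (K : ℝ) (hK : 0 ≤ K) (ε : ℝ) (hε : 0 < ε) :
    ∃ M : ℕ, ∀ m : ℕ, M ≤ m → K * (m : ℝ) ^ (1 - 1 / 500 : ℝ) ≤ ε * m := by
  have h1 : Filter.Tendsto (fun m : ℕ => K * ((m : ℝ) ^ (-(1 / 500 : ℝ)))) Filter.atTop (nhds (K * 0)) :=
    ((tendsto_rpow_neg_atTop (by norm_num : (0 : ℝ) < 1 / 500)).comp
      tendsto_natCast_atTop_atTop).const_mul K
  rw [mul_zero] at h1
  have h2 := h1.eventually (gt_mem_nhds hε)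
  obtain ⟨M, hM⟩ := Filter.eventually_atTop.1 h2
  refine ⟨max M 1, fun m hm => ?_⟩
  have hm1 : M ≤ m := le_trans (le_max_left _ _) hm
  have hm0 : (0 : ℝ) < m := by
    have : 1 ≤ m := le_trans (le_max_right _ _) hm
    exact_mod_cast this
  have h3 := (hM m hm1).le
  have h4 : (m : ℝ) ^ (1 - 1 / 500 : ℝ) = (m : ℝ) * (m : ℝ) ^ (-(1 / 500 : ℝ)) := by
    rw [sub_eq_add_neg, Real.rpow_add hm0, Real.rpow_one]
  rw [h4]
  calc K * ((m : ℝ) * (m : ℝ) ^ (-(1 / 500 : ℝ))) = (K * (m : ℝ) ^ (-(1 / 500 : ℝ))) * m := by ring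
    _ ≤ ε * m := mul_le_mul_of_nonneg_right h3 hm0.le

private theorem el_abstract (g : ℕ → ℝ) (K C : ℝ) (hK : 0 ≤ K) (n1 : ℕ) (hn1 : 1 ≤ n1)
    (hb : ∀ n, n1 ≤ n → |g n| ≤ K * (n : ℝ) ^ (1 - 1 / 500 : ℝ))
    (hr : ∀ n k : ℕ, n1 ≤ n → 1 ≤ k → k * g n ≤ g (n * k))
    (hc : ∀ n k : ℕ, n1 ≤ n → 1 ≤ k → g (n * k) ≤ k * g n + C * k) :
    ∀ n, n1 ≤ n → |g n| ≤ |C| := by
  intro n hn
  have hn0 : (0 : ℝ) < n := by
    have : 1 ≤ n := le_trans hn1 hn
    exact_mod_cast this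
  have key : ∀ δ : ℝ, 0 < δ → ∃ k : ℕ, 1 ≤ k ∧ |g (n * k)| ≤ δ * k := by
    intro δ hδ
    obtain ⟨M, hM⟩ := el_small K hK (δ / n) (by positivity)
    refine ⟨M + 1, by omega, ?_⟩
    have h1 : n1 ≤ n * (M + 1) := le_trans hn (Nat.le_mul_of_pos_right n (by omega))
    have h2 : M ≤ n * (M + 1) := by
      have : 1 ≤ n := le_trans hn1 hn
      calc M ≤ M + 1 := by omega
        _ ≤ n * (M + 1) := Nat.le_mul_of_pos_left _ (by omega)
    refine (hb _ h1).trans ((hM _ h2).trans (le_of_eq ?_))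
    push_cast
    field_simp
  have hup : g n ≤ 0 := by
    apply le_of_forall_pos_le_add
    intro δ hδ
    obtain ⟨k, hk, hk2⟩ := key δ hδ
    have hk0 : (0 : ℝ) < k := by exact_mod_cast hk
    have h1 := hr n k hn hk
    have h2 := (le_abs_self (g (n * k))).trans hk2
    have h3 : (k : ℝ) * g n ≤ k * δ := by linarith
    have := le_of_mul_le_mul_left h3 hk0
    linarith
  have hlo : -C ≤ g n := by
    apply le_of_forall_pos_le_add
    intro δ hδ
    obtain ⟨k, hk, hk2⟩ := key δ hδ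
    have hk0 : (0 : ℝ) < k := by exact_mod_cast hk
    have h1 := hc n k hn hk
    have h2 := (neg_le_of_abs_le hk2)
    have h3 : (k : ℝ) * (-C) ≤ k * (g n + δ) := by nlinarith
    exact le_of_mul_le_mul_left h3 hk0
  rw [abs_le]
  constructor
  · have := le_abs_self C
    linarith
  · have := abs_nonneg C
    linarith

theorem main_asym : ∃ α C : ℝ, ∃ n0 : ℕ,
    (∀ n : ℕ, 1 ≤ n → |Real.log (QN n) - n * Real.log n + α * n| ≤ C * (n : ℝ) ^ (1 - 1 / 500 : ℝ)) ∧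
    ∀ n : ℕ, n0 ≤ n → |Real.log (QN n) - n * Real.log n + α * n - Real.log n / 2| ≤ C := by
  classical
  obtain ⟨L, hL, href⟩ := Pool.Agent.NQR.exists_ref
  obtain ⟨C1, N1, h1⟩ := lower L hL
  obtain ⟨C2, N2, h2⟩ := upper L hL
  obtain ⟨C3, N3, h3⟩ := coarse L hL
  obtain ⟨α, C4, h4⟩ := Pool.Agent.NQ.power_saving
  have hopt : ∀ n : ℕ, ∃ W : ℤ × ℤ → ℝ, 0 < n → Opt n W := by
    intro n
    by_cases h : 0 < n
    · obtain ⟨W, hW⟩ := Pool.Agent.NQR.exists_opt h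
      exact ⟨W, fun _ => hW⟩
    · exact ⟨fun _ => 0, fun h' => absurd h' h⟩
  choose W hW using hopt
  obtain ⟨n1, hn1⟩ : ∃ n1 : ℕ, n1 = max 1000 (max N1 (max N2 N3)) := ⟨_, rfl⟩
  have ha : 1000 ≤ n1 := by omega
  have hb : N1 ≤ n1 := by omega
  have hc : N2 ≤ n1 := by omega
  have hd : N3 ≤ n1 := by omega
  obtain ⟨D, hD⟩ : ∃ D : ℝ, D = |C1| + |C2| := ⟨_, rfl⟩
  have hD0 : 0 ≤ D := by rw [hD]; positivity
  have hlog : ∀ n, n1 ≤ n → |Real.log (QN n) - (F n (W n) - n) - Real.log n / 2| ≤ D := by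
    intro n hn
    obtain ⟨A, B, hR⟩ := href n (by omega) (W n) (hW n (by omega))
    have e1 := h1 n (by omega) (W n) A B hR
    have e2 := h2 n (by omega) (W n) A B hR e1.1
    have e3 := e1.2
    rw [Pool.Agent.NQ.QN_eq, abs_le, hD]
    have := le_abs_self C1
    have := le_abs_self C2
    have := abs_nonneg C1
    have := abs_nonneg C2
    constructor <;> linarith
  obtain ⟨g, hg⟩ : ∃ g : ℕ → ℝ, ∀ n, g n = F n (W n) - n - n * Real.log n + α * n := ⟨_, fun _ => rfl⟩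
  have hgb : ∀ n, n1 ≤ n → |g n| ≤ (D + 1 + |C4|) * (n : ℝ) ^ (1 - 1 / 500 : ℝ) := by
    intro n hn
    have e1 := hlog n hn
    have e2 := h4 n (by omega)
    have hn0 : (1 : ℝ) ≤ n := by
      have : 1 ≤ n := by omega
      exact_mod_cast this
    have hp1 : (1 : ℝ) ≤ (n : ℝ) ^ (1 - 1 / 500 : ℝ) := Real.one_le_rpow hn0 (by norm_num)
    have hlg : Real.log n ≤ (n : ℝ) ^ (1 - 1 / 500 : ℝ) / (1 - 1 / 500) :=
      Real.log_le_rpow_div (by linarith) (by norm_num)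
    have hlg2 : Real.log n / 2 ≤ (n : ℝ) ^ (1 - 1 / 500 : ℝ) := by
      have : (n : ℝ) ^ (1 - 1 / 500 : ℝ) / (1 - 1 / 500) ≤ 2 * (n : ℝ) ^ (1 - 1 / 500 : ℝ) := by
        rw [div_le_iff₀ (by norm_num)]
        nlinarith
      linarith
    have hlg0 : 0 ≤ Real.log n := Real.log_nonneg hn0
    have hC4 : C4 * (n : ℝ) ^ (1 - 1 / 500 : ℝ) ≤ |C4| * (n : ℝ) ^ (1 - 1 / 500 : ℝ) :=
      mul_le_mul_of_nonneg_right (le_abs_self C4) (by linarith)
    have hDp : D ≤ D * (n : ℝ) ^ (1 - 1 / 500 : ℝ) := le_mul_of_one_le_right hD0 hp1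
    rw [hg]
    rw [abs_le] at e1 e2 ⊢
    constructor <;> nlinarith [e1.1, e1.2, e2.1, e2.2]
  have hlk : ∀ n k : ℕ, n1 ≤ n → 1 ≤ k → Real.log ((n * k : ℕ) : ℝ) = Real.log n + Real.log k := by
    intro n k hn hk
    push_cast
    refine Real.log_mul ?_ ?_
    · have : n ≠ 0 := by omega
      exact_mod_cast this
    · have : k ≠ 0 := by omega
      exact_mod_cast this
  have hgr : ∀ n k : ℕ, n1 ≤ n → 1 ≤ k → k * g n ≤ g (n * k) := by
    intro n k hn hk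
    obtain ⟨V, hV, hV2⟩ := refine_board (n := n) (k := k) (by omega) hk (hW n (by omega)).1
    have hnk : 0 < n * k := Nat.mul_pos (by omega) (by omega)
    have e1 := (hW (n * k) hnk).2 V hV
    rw [hg, hg, hlk n k hn hk]
    push_cast at e1 hV2 ⊢
    nlinarith [e1, hV2]
  have hgc : ∀ n k : ℕ, n1 ≤ n → 1 ≤ k → g (n * k) ≤ k * g n + C3 * k := by
    intro n k hn hk
    have hnk : 0 < n * k := Nat.mul_pos (by omega) (by omega)
    have hnk2 : 1000 ≤ n * k := le_trans (by omega) (Nat.le_mul_of_pos_right n (by omega))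
    obtain ⟨A, B, hR⟩ := href (n * k) hnk2 (W (n * k)) (hW _ hnk)
    obtain ⟨V, hV, hV2⟩ := h3 n k (W (n * k)) A B (by omega) hk hR
    have e1 := (hW n (by omega)).2 V hV
    have hk0 : (0 : ℝ) ≤ k := Nat.cast_nonneg k
    have e2 : (k : ℝ) * F n V ≤ k * F n (W n) := mul_le_mul_of_nonneg_left e1 hk0
    rw [hg, hg, hlk n k hn hk]
    push_cast at hV2 ⊢
    nlinarith [e2, hV2]
  have hgC := el_abstract g (D + 1 + |C4|) C3 (by positivity) n1 (by omega) hgb hgr hgc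
  refine ⟨α, max C4 (D + |C3|), n1, ?_, ?_⟩
  · intro n hn
    refine (h4 n hn).trans ?_
    exact mul_le_mul_of_nonneg_right (le_max_left _ _) (Real.rpow_nonneg (Nat.cast_nonneg n) _)
  · intro n hn
    refine le_trans ?_ (le_max_right _ _)
    have e1 := hlog n hn
    have e2 := hgC n hn
    rw [hg] at e2
    rw [abs_le] at e1 e2 ⊢
    constructor <;> linarith [e1.1, e1.2, e2.1, e2.2]

end Pool.Agent.NQL
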