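import Pool.Agent.NQR.Defs

/-!
# PROJECT NQL (MP_6ea1bd_co): the number of n-queens configurations up to a constant factor, definitions

THEOREM. There are `α`, `C` with `|log Q(n) - n log n + α n - (1/2) log n| ≤ C` for all `n ≥ 1`.

An instance is a finite set `I` of lines (rows, columns, sum diagonals, difference diagonals of the board
`[0,N)²`): the lines that are still available. A square is free if its four lines are in `I`.
-/

set_option autoImplicit false

open Finset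

namespace Pool.Agent.NQL

open Pool.Agent.NQ (board dsum F Ent Dg phi ln Q Qset QS NonAtt bern)
open Pool.Agent.NQR (Adm Opt Bd Rf hS hD hh InR)

/-! ### Instances -/

/-- a line: its type (0 row, 1 column, 2 sum diagonal, 3 difference diagonal) and its number -/
abbrev Li := Fin 4 × ℤ

/-- the square `e` lies on the line `l` -/
def On (e : ℤ × ℤ) (l : Li) : Prop := ln l.1 e = l.2

instance (e : ℤ × ℤ) (l : Li) : Decidable (On e l) := by unfold On; infer_instance

/-- the line is a row or a column -/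
def rc (l : Li) : Prop := (l.1 : ℕ) < 2

instance (l : Li) : Decidable (rc l) := by unfold rc; infer_instance

/-- `0` for rows and columns, `1` for diagonals -/
noncomputable def dg (l : Li) : ℝ := if rc l then 0 else 1

/-- all lines of the board -/
noncomputable def full (N : ℕ) : Finset Li := (board N).biUnion (fun e => univ.image (fun k => (k, ln k e)))

/-- the free squares -/
noncomputable def Sq (N : ℕ) (I : Finset Li) : Finset (ℤ × ℤ) := (board N).filter (fun e => ∀ k, (k, ln k e) ∈ I)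

/-- the free squares on the line `l` -/
noncomputable def Sl (N : ℕ) (I : Finset Li) (l : Li) : Finset (ℤ × ℤ) := (Sq N I).filter (fun e => On e l)

/-- remove the lines of the square `e` -/
noncomputable def rm (I : Finset Li) (e : ℤ × ℤ) : Finset Li := I.filter (fun l => ¬ On e l)

/-- remove the lines of all squares of `T` -/
noncomputable def rmS (I : Finset Li) (T : Finset (ℤ × ℤ)) : Finset Li := I.filter (fun l => ∀ e ∈ T, ¬ On e l)

/-- a valid instance of size `m`: `m` rows, `m` columns, `N + m - 1` diagonals of each type -/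
structure Vd (N m : ℕ) (I : Finset Li) : Prop where
  sub : I ⊆ full N
  crc : ∀ k : Fin 4, (k : ℕ) < 2 → (I.filter (fun l => l.1 = k)).card = m
  cdg : ∀ k : Fin 4, 2 ≤ (k : ℕ) → (I.filter (fun l => l.1 = k)).card + 1 = N + m

/-- number of placements of `m` queens on the free squares, in recursive form -/
noncomputable def zz (N : ℕ) : ℕ → Finset Li → ℝ
  | 0, _ => 1
  | (m + 1), I => (∑ e ∈ Sq N I, zz N m (rm I e)) / (m + 1)

open Classical in
/-- the placements of `m` non-attacking queens on free squares -/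
noncomputable def Pl (N m : ℕ) (I : Finset Li) : Finset (Finset (ℤ × ℤ)) :=
  ((Sq N I).powersetCard m).filter (fun P => NonAtt P)

/-! ### Potentials and the convex functional -/

/-- sum of `z` over the four lines of a square -/
noncomputable def ds (z : Li → ℝ) (e : ℤ × ℤ) : ℝ := ∑ k : Fin 4, z (k, ln k e)

/-- the weight of a square -/
noncomputable def wt (z : Li → ℝ) (e : ℤ × ℤ) : ℝ := Real.exp (ds z e)

/-- the convex functional -/
noncomputable def Gf (N : ℕ) (I : Finset Li) (z : Li → ℝ) : ℝ :=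
  ∑ e ∈ Sq N I, wt z e + ∑ l ∈ I, (dg l * Real.exp (z l) - z l)

/-- its normalised value, `log` of the number of placements up to lower order terms -/
noncomputable def Vf (N m : ℕ) (I : Finset Li) (z : Li → ℝ) : ℝ := Gf N I z - 2 * N + 2 - 4 * m

/-- stationary point of the functional -/
def St (N : ℕ) (I : Finset Li) (z : Li → ℝ) : Prop :=
  ∀ l ∈ I, ∑ e ∈ Sl N I l, wt z e + dg l * Real.exp (z l) = 1

/-! ### Weighted systems -/

/-- the functional around a base point with weights `w` (squares) and `c` (lines) -/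
noncomputable def Gw (N : ℕ) (I : Finset Li) (w : ℤ × ℤ → ℝ) (c : Li → ℝ) (δ : Li → ℝ) : ℝ :=
  ∑ e ∈ Sq N I, w e * Real.exp (ds δ e) + ∑ l ∈ I, (c l * Real.exp (δ l) - δ l)

/-- its gradient -/
noncomputable def gr (N : ℕ) (I : Finset Li) (w : ℤ × ℤ → ℝ) (c : Li → ℝ) (δ : Li → ℝ) (l : Li) : ℝ :=
  ∑ e ∈ Sl N I l, w e * Real.exp (ds δ e) + c l * Real.exp (δ l) - 1

/-- its Hessian form -/
noncomputable def Qf (N : ℕ) (I : Finset Li) (w : ℤ × ℤ → ℝ) (c : Li → ℝ) (δ : Li → ℝ) : ℝ :=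
  ∑ e ∈ Sq N I, w e * ds δ e ^ 2 + ∑ l ∈ I, c l * δ l ^ 2

/-- the gauge vector: the functional is invariant under `δ ↦ δ + s ga` (same number of rows and columns) -/
noncomputable def ga (l : Li) : ℝ := if l.1 = 0 then 1 else if l.1 = 1 then -1 else 0

/-- scalar product with the gauge vector -/
noncomputable def gs (I : Finset Li) (δ : Li → ℝ) : ℝ := ∑ l ∈ I, ga l * δ l

/-- coercivity of the Hessian form, up to the gauge -/
def Co (N m : ℕ) (I : Finset Li) (w : ℤ × ℤ → ℝ) (c : Li → ℝ) (lam : ℝ) : Prop :=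
  ∀ δ : Li → ℝ, lam * ∑ l ∈ I, δ l ^ 2 ≤ Qf N I w c δ + gs I δ ^ 2 / (2 * m)

/-- the Hessian with gauge term as an operator -/
noncomputable def Hh (N m : ℕ) (I : Finset Li) (w : ℤ × ℤ → ℝ) (c : Li → ℝ) (u : Li → ℝ) (l : Li) : ℝ :=
  ∑ e ∈ Sl N I l, w e * ds u e + c l * u l + ga l * gs I u / (2 * m)

/-- a regular stationary point -/
structure Reg (K lam : ℝ) (N m : ℕ) (I : Finset Li) (z : Li → ℝ) : Prop where
  st : St N I z
  up : ∀ e ∈ Sq N I, wt z e ≤ K / m
  co : Co N m I (wt z) (fun l => dg l * Real.exp (z l)) lam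

/-- sum of the squares of the diagonal masses -/
noncomputable def P2 (I : Finset Li) (z : Li → ℝ) : ℝ := ∑ l ∈ I, dg l * (1 - Real.exp (z l)) ^ 2

/-! ### Nominal values -/

open Classical in
/-- nominal mass of the line `l` at size `m` -/
noncomputable def TT (N : ℕ) (W : ℤ × ℤ → ℝ) (m : ℕ) (l : Li) : ℝ :=
  if rc l then 1 else (m : ℝ) / N * dsum N W l.1 l.2 / (1 - (1 - (m : ℝ) / N) * dsum N W l.1 l.2)

/-- nominal weight of a square at size `m` -/
noncomputable def Wn (N : ℕ) (W : ℤ × ℤ → ℝ) (m : ℕ) (e : ℤ × ℤ) : ℝ :=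
  W e / ((m : ℝ) / N * (1 - (1 - (m : ℝ) / N) * dsum N W 2 (e.1 + e.2)) *
    (1 - (1 - (m : ℝ) / N) * dsum N W 3 (e.1 - e.2)))

/-- nominal potentials at size `m` -/
noncomputable def zn (N : ℕ) (W : ℤ × ℤ → ℝ) (A B : ℤ → ℝ) (m : ℕ) (l : Li) : ℝ :=
  if l.1 = 0 then Real.log (A l.2) - Real.log ((m : ℝ) / N) / 2
  else if l.1 = 1 then Real.log (B l.2) - Real.log ((m : ℝ) / N) / 2
  else Real.log (1 - TT N W m l)

/-- nominal weight on the line `l` -/
noncomputable def YY (N : ℕ) (W : ℤ × ℤ → ℝ) (m : ℕ) (I : Finset Li) (l : Li) : ℝ :=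
  ∑ e ∈ Sl N I l, Wn N W m e

open Classical in
/-- codegree of the rows `x` and `x'` (times `m`) -/
noncomputable def Cg (N : ℕ) (W : ℤ × ℤ → ℝ) (m : ℕ) (I : Finset Li) (x x' : ℤ) : ℝ :=
  m * ∑ y ∈ Finset.Ico (0 : ℤ) N, if (x, y) ∈ Sq N I ∧ (x', y) ∈ Sq N I then
    Wn N W m (x, y) * Wn N W m (x', y) else 0

/-- good instances -/
structure Good (L ε t1 ε' : ℝ) (N m : ℕ) (W : ℤ × ℤ → ℝ) (I : Finset Li) : Prop where
  vd : Vd N m I
  lrc : ∀ l ∈ I, rc l → |YY N W m I l - 1| ≤ ε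
  ldg : t1 * N ≤ m → ∀ l ∈ I, ¬ rc l → |YY N W m I l - TT N W m l| ≤ ε'
  lmi : ∀ l ∈ I, ¬ rc l → YY N W m I l ≤ 8 * L ^ 3 * ((m : ℝ) / N + (m : ℝ) ^ (-(1 / 4) : ℝ))
  cg : ∀ x x' : ℤ, ((0, x) : Li) ∈ I → ((0, x') : Li) ∈ I → x ≠ x' → 1 / (2 * L ^ 2) ≤ Cg N W m I x x'

/-- good instances for the lower bound; `γ m` is the tolerance at size `m` -/
structure GLo (L t1 : ℝ) (γ : ℕ → ℝ) (m1 N m : ℕ) (W : ℤ × ℤ → ℝ) (I : Finset Li) : Prop where
  vd : Vd N m I
  lrc : ∀ l ∈ I, rc l → |YY N W m I l - 1| ≤ γ m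
  ldg : t1 * N ≤ m → ∀ l ∈ I, ¬ rc l → |YY N W m I l - TT N W m l| ≤ γ m
  big : m1 < m → ∀ l ∈ I, ¬ rc l → ((Sl N I l).card : ℝ) < 8 * ((m : ℝ) ^ 2 / N + (m : ℝ) ^ (3 / 4 : ℝ))
  sma : m ≤ m1 → ∀ l ∈ I, ¬ rc l → (Sl N I l).card ≤ 1
  cg : ∀ x x' : ℤ, ((0, x) : Li) ∈ I → ((0, x') : Li) ∈ I → x ≠ x' → 1 / (2 * L ^ 2) ≤ Cg N W m I x x'

/-- the line masses of `z` are close to the nominal ones -/
def Cl (d : ℝ) (N m : ℕ) (W : ℤ × ℤ → ℝ) (I : Finset Li) (z : Li → ℝ) : Prop :=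
  ∀ l ∈ I, |TT N W m l - ∑ e ∈ Sl N I l, wt z e| ≤ d

/-- transition probabilities close to `wt z e / m` -/
structure Tp (Cp : ℝ) (N m : ℕ) (I : Finset Li) (z : Li → ℝ) (π : ℤ × ℤ → ℝ) : Prop where
  sum : ∑ e ∈ Sq N I, π e = 1
  nn : ∀ e ∈ Sq N I, 0 ≤ π e
  near : ∀ e ∈ Sq N I, |π e - wt z e / m| ≤ Cp * wt z e / m ^ 2

end Pool.Agent.NQL
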