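import Pool.Agent.NQL.Defs
import Pool.Agent.NQL.ELim

/-!
# NQL-KFin: the theorem

PLAN. From `main_asym`; the numbers `n < n0` are absorbed in the constant; the limit as in `NQR.main` (NQR/KLim.lean).
-/

set_option autoImplicit false

open Finset

namespace Pool.Agent.NQL

open Pool.Agent.NQ (board dsum F Ent Dg phi ln Q Qset QS NonAtt bern)
open Pool.Agent.NQR (Adm Opt Bd Rf hS hD hh InR)

open Pool.Agent.NQ (QN)
open Filter Topology

theorem main : ∃ α C : ℝ,
    Tendsto (fun n : ℕ => (n * Real.log n - Real.log (QN n)) / n) atTop (𝓝 α) ∧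
    ∀ n : ℕ, 1 ≤ n → |Real.log (QN n) - n * Real.log n + α * n - Real.log n / 2| ≤ C := by
  obtain ⟨α, C, n0, h1, h2⟩ := main_asym
  refine ⟨α, max C (∑ n ∈ range n0, |Real.log (QN n) - n * Real.log n + α * n - Real.log n / 2|),
    ?_, ?_⟩
  · have h3 : Tendsto (fun n : ℕ => C * (n : ℝ) ^ (-(1 / 500) : ℝ)) atTop (𝓝 0) := by
      have h4 : Tendsto (fun n : ℕ => (n : ℝ) ^ (-(1 / 500) : ℝ)) atTop (𝓝 0) :=
        (tendsto_rpow_neg_atTop (by norm_num : (0 : ℝ) < 1 / 500)).comp tendsto_natCast_atTop_atTop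
      simpa using h4.const_mul C
    rw [tendsto_iff_norm_sub_tendsto_zero]
    refine squeeze_zero' (Eventually.of_forall fun n => norm_nonneg _) ?_ h3
    filter_upwards [eventually_ge_atTop 1] with n hn
    have hn0 : (0 : ℝ) < n := by exact_mod_cast hn
    have h5 : (n * Real.log n - Real.log (QN n)) / n - α =
        -((Real.log (QN n) - n * Real.log n + α * n) / n) := by
      field_simp
      ring
    rw [h5, norm_neg, Real.norm_eq_abs, abs_div, abs_of_pos hn0, div_le_iff₀ hn0]
    refine (h1 n hn).trans (le_of_eq ?_)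
    have h6 : (n : ℝ) ^ (1 - 1 / 500 : ℝ) = (n : ℝ) ^ (-(1 / 500) : ℝ) * n := by
      rw [show (1 - 1 / 500 : ℝ) = -(1 / 500) + 1 by ring, Real.rpow_add hn0, Real.rpow_one]
    rw [h6]
    ring
  · intro n _
    rcases lt_or_ge n n0 with hn | hn
    · refine le_trans ?_ (le_max_right _ _)
      exact single_le_sum
        (f := fun n : ℕ => |Real.log (QN n) - n * Real.log n + α * n - Real.log n / 2|)
        (fun _ _ => abs_nonneg _) (mem_range.2 hn)
    · exact (h2 n hn).trans (le_max_left _ _)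

end Pool.Agent.NQL
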